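import Pool.Agent.Work.MP_910138_ag.GBase

/-! The sheaf `j_* (M|_V)`, with sections `Γ(M, W ⊓ V)` over `W`. -/

open CategoryTheory Limits AlgebraicGeometry TopologicalSpace Opposite

namespace Pool.Agent.Work.MP_910138_ag

variable {X : Scheme.{0}} {M N L : X.Modules} {U V W : X.Opens}

/-- the underlying presheaf of abelian groups -/
noncomputable def pushPre (M : X.Modules) (V : X.Opens) : X.Opensᵒᵖ ⥤ Ab.{0} where
  obj W := Γ(M, W.unop ⊓ V)
  map f := AddCommGrpCat.ofHom (res M (inf_le_inf_right V f.unop.le))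
  map_id W := by
    ext s
    exact res_self _ s
  map_comp f g := by
    ext s
    exact (res_res _ _ s).symm

noncomputable instance pushModule (M : X.Modules) (V : X.Opens) (W : X.Opensᵒᵖ) :
    Module (X.ringCatSheaf.obj.obj W) ((pushPre M V).obj W) :=
  Module.compHom Γ(M, W.unop ⊓ V) (resO X (inf_le_left : W.unop ⊓ V ≤ W.unop))

/-- `j_* (M|_V)` -/
noncomputable def push (M : X.Modules) (V : X.Opens) : X.Modules where
  val := PresheafOfModules.ofPresheaf (pushPre M V) (fun W W' f r m => by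
    change res M (inf_le_inf_right V f.unop.le)
      (resO X (inf_le_left : W.unop ⊓ V ≤ W.unop) r • (show Γ(M, W.unop ⊓ V) from m)) =
      resO X (inf_le_left : W'.unop ⊓ V ≤ W'.unop) (resO X f.unop.le r) •
        res M (inf_le_inf_right V f.unop.le) m
    rw [res_smul, resO_resO, resO_resO])
  isSheaf := by
    change TopCat.Presheaf.IsSheaf (X := X.toTopCat) _
    rw [TopCat.Presheaf.isSheaf_iff_isSheafUniqueGluing]
    intro ι W sf hsf
    have hc : iSup W ⊓ V ≤ iSup fun i => W i ⊓ V := fun x hx => by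
      obtain ⟨i, hi⟩ := Opens.mem_iSup.1 hx.1
      exact Opens.mem_iSup.2 ⟨i, hi, hx.2⟩
    obtain ⟨t, ht⟩ := glue (M := M) (fun i => W i ⊓ V)
      (fun i => inf_le_inf_right V (le_iSup W i)) hc sf (fun i j => by
        have h := congrArg (res M (show (W i ⊓ V) ⊓ (W j ⊓ V) ≤ (W i ⊓ W j) ⊓ V from
          fun x hx => ⟨⟨hx.1.1, hx.2.1⟩, hx.1.2⟩)) (hsf i j)
        exact (res_res _ _ _).symm.trans (h.trans (res_res _ _ _)))
    exact ⟨t, ht, fun s hs => sep_cover (M := M) (fun i => W i ⊓ V)
      (fun i => inf_le_inf_right V (le_iSup W i)) hc fun i => (hs i).trans (ht i).symm⟩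

/-- sections of `push M V` -/
noncomputable def pushSec (M : X.Modules) (V W : X.Opens) : Γ(push M V, W) ≃+ Γ(M, W ⊓ V) :=
  AddEquiv.refl _

theorem pushSec_res (h : U ≤ W) (s : Γ(push M V, W)) :
    pushSec M V U (res (push M V) h s) = res M (inf_le_inf_right V h) (pushSec M V W s) := rfl

theorem pushSec_smul (r : Γ(X, W)) (s : Γ(push M V, W)) :
    pushSec M V W (r • s) = resO X (inf_le_left : W ⊓ V ≤ W) r • pushSec M V W s := rfl

/-- the unit `M ⟶ j_* (M|_V)` -/
noncomputable def toPush (M : X.Modules) (V : X.Opens) : M ⟶ push M V :=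
  mkHom (fun W =>
    { toFun := fun s => (pushSec M V W).symm (res M inf_le_left s)
      map_add' := fun a b => by rw [map_add, map_add]
      map_smul' := fun r s => res_smul _ r s })
    (fun U W h s => (res_res _ _ s).trans (res_res _ _ s).symm)

theorem pushSec_toPush (s : Γ(M, W)) :
    pushSec M V W ((toPush M V).app W s) = res M inf_le_left s := rfl

/-- functoriality in the module -/
noncomputable def pushMap (φ : M ⟶ N) (V : X.Opens) : push M V ⟶ push N V :=
  mkHom (fun W =>
    { toFun := fun s => (pushSec N V W).symm (φ.app (W ⊓ V) (pushSec M V W s))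
      map_add' := fun a b => by rw [map_add, map_add, map_add]
      map_smul' := fun r s => φ.app_smul _ _ })
    (fun U W h s => app_res φ _ _)

theorem pushSec_pushMap (φ : M ⟶ N) (s : Γ(push M V, W)) :
    pushSec N V W ((pushMap φ V).app W s) = φ.app (W ⊓ V) (pushSec M V W s) := rfl

@[reassoc]
theorem toPush_pushMap (φ : M ⟶ N) (V : X.Opens) :
    toPush M V ≫ pushMap φ V = φ ≫ toPush N V :=
  hom_ext' fun _ s => app_res φ _ s

@[reassoc]
theorem pushMap_comp (φ : M ⟶ N) (ψ : N ⟶ L) (V : X.Opens) :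
    pushMap φ V ≫ pushMap ψ V = pushMap (φ ≫ ψ) V :=
  hom_ext' fun _ _ => rfl

theorem pushMap_zero (V : X.Opens) : pushMap (0 : M ⟶ N) V = 0 :=
  hom_ext' fun _ _ => rfl

/-- functoriality of `supp` in the module -/
noncomputable def suppMap (φ : M ⟶ N) (V : X.Opens) : supp M V ⟶ supp N V :=
  (suppData N V).lift (suppι M V ≫ φ) fun U s x hx hx' => by
    obtain ⟨W', h, hxW, e⟩ := (suppData M V).ι_mem s x hx hx'
    refine ⟨W', h, hxW, ?_⟩
    rw [comp_app_apply, ← app_res]
    exact (congrArg (φ.app W') e).trans (map_zero _)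

@[reassoc (attr := simp)]
theorem suppMap_ι (φ : M ⟶ N) (V : X.Opens) : suppMap φ V ≫ suppι N V = suppι M V ≫ φ :=
  (suppData N V).lift_ι _ _

end Pool.Agent.Work.MP_910138_ag
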