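import Pool.Agent.Work.MP_910138_ag.GQC
import Pool.Agent.Work.MP_910138_ag.GBase2

/-! Cokernels and direct images of quasi-coherent sheaves on an affine open. -/

open CategoryTheory Limits AlgebraicGeometry TopologicalSpace Opposite Abelian

namespace Pool.Agent.Work.MP_910138_ag

variable {X : Scheme.{0}} {M N : X.Modules} {U V W : X.Opens}

theorem gqc2_ext (h : QCOn U M) (f : Γ(X, U)) (hV : V = X.basicOpen f) (hVU : V ≤ U)
    (s : Γ(M, V)) : ∃ n : ℕ, ∀ m, n ≤ m → ∃ t : Γ(M, U), res M hVU t = resO X hVU f ^ m • s := by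
  subst hV
  obtain ⟨n, t, ht⟩ := h.ext f s
  refine ⟨n, fun m hm => ?_⟩
  obtain ⟨k, rfl⟩ := Nat.exists_eq_add_of_le' hm
  exact ⟨f ^ k • t, by rw [res_smul, ht, map_pow, smul_smul, pow_add]⟩

theorem gqc2_pow {R A : Type} [CommRing R] [AddCommGroup A] [Module R A] {f : R} {t : A} {n m : ℕ}
    (h : f ^ n • t = 0) (hm : n ≤ m) : f ^ m • t = 0 := by
  obtain ⟨k, rfl⟩ := Nat.exists_eq_add_of_le' hm
  rw [pow_add, mul_smul, h, smul_zero]

theorem gqc2_tor (h : QCOn U M) (f : Γ(X, U)) (hV : V = X.basicOpen f) (hVU : V ≤ U)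
    (t : Γ(M, U)) (ht : res M hVU t = 0) : ∃ n : ℕ, f ^ n • t = 0 := by
  subst hV
  exact h.tor f t ht

theorem gqc2_basicOpen (h : V ≤ U) (f : Γ(X, U)) :
    X.basicOpen (resO X h f) = V ⊓ X.basicOpen f := X.basicOpen_res f (homOfLE h).op

theorem gqc2_unit (f : Γ(X, U)) : IsUnit (resO X (X.basicOpen_le f) f) :=
  X.toRingedSpace.isUnit_res_basicOpen f

theorem gqc2_bound {ι : Type} [Finite ι] (n : ι → ℕ) : ∃ m, ∀ i, n i ≤ m :=
  (Finite.bddAbove_range n).imp fun _ h i => h ⟨i, rfl⟩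

/-- torsion for the sections in the image -/
theorem gqc2_torA (S : ShortComplex X.Modules) (hS : S.ShortExact) (h₁ : QCOn U S.X₁)
    (h₂ : QCOn U S.X₂) (f : Γ(X, U)) (c : Γ(S.X₂, U))
    (hc : res S.X₃ (X.basicOpen_le f) (appL S.g U c) = 0) : ∃ n : ℕ, f ^ n • appL S.g U c = 0 := by
  have := hS.mono_f
  obtain ⟨a, ha⟩ := exact_sections S hS.exact _ (res S.X₂ (X.basicOpen_le f) c)
    ((app_res _ _ _).trans hc)
  obtain ⟨n, a', ha'⟩ := h₁.ext f a
  obtain ⟨k, hk⟩ := h₂.tor f (f ^ n • c - S.f.app U a') (by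
    rw [map_sub, ← app_res, ha', res_smul, map_pow, ← ha]
    exact sub_eq_zero.2 (S.f.app_smul _ _).symm)
  have h0 : appL S.g U (S.f.app U a') = 0 := by
    rw [appL_apply, ← comp_app_apply, S.zero]
    rfl
  have h1 := congrArg (appL S.g U) hk
  rw [map_smul, map_sub, map_smul, h0, sub_zero, map_zero, smul_smul, ← pow_add] at h1
  exact ⟨_, h1⟩

theorem surjective_of_qcOn₂ (hU : IsAffineOpen U) (S : ShortComplex X.Modules) (hS : S.ShortExact)
    (h₁ : QCOn U S.X₁) (h₂ : QCOn U S.X₂) : Function.Surjective (S.g.app U) := by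
  classical
  intro s
  let G : Set Γ(X, U) := {g | ∃ b, res S.X₃ (X.basicOpen_le g) (appL S.g U b) =
    res S.X₃ (X.basicOpen_le g) (g • s)}
  have hG : Ideal.span G = ⊤ := by
    refine hU.self_le_iSup_basicOpen_iff.1 fun x hx => ?_
    obtain ⟨V, hV, hxV, t, ht⟩ := (epi_iff S.g).1 hS.epi_g U s x hx
    obtain ⟨g, hg, hxg⟩ := hU.exists_basicOpen_le ⟨x, hxV⟩ hx
    obtain ⟨n, hn⟩ := gqc2_ext h₂ g rfl (X.basicOpen_le g) (res S.X₂ hg t)
    obtain ⟨b, hb⟩ := hn (n + 1) n.le_succ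
    have e := X.basicOpen_pow g n.succ_pos
    refine Opens.mem_iSup.2 ⟨⟨g ^ (n + 1), b, ?_⟩, e.ge hxg⟩
    rw [← res_res e.le (X.basicOpen_le g), ← res_res e.le (X.basicOpen_le g)]
    congr 1
    rw [appL_apply, ← app_res, hb, res_smul, map_pow, ← res_res hg hV, ← ht, ← app_res]
    exact S.g.app_smul _ _
  obtain ⟨T, hTG, hT⟩ := (Ideal.span_eq_top_iff_finite G).1 hG
  choose b hb using fun j : T => hTG j.2
  have h3 : ∀ jk : T × T, ∃ n : ℕ, (jk.1.1 * jk.2.1) ^ n •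
      appL S.g U (jk.2.1 • b jk.1 - jk.1.1 • b jk.2) = 0 := by
    rintro ⟨j, k⟩
    refine gqc2_torA S hS h₁ h₂ _ _ ?_
    have e := X.basicOpen_mul j.1 k.1
    have e1 := congrArg (res S.X₃ (e.le.trans inf_le_left)) (hb j)
    have e2 := congrArg (res S.X₃ (e.le.trans inf_le_right)) (hb k)
    rw [res_res, res_res] at e1 e2
    rw [map_sub, map_smul, map_smul, map_sub, res_smul, res_smul, e1, e2, res_smul, res_smul,
      smul_comm, sub_self]
  choose n hn using h3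
  obtain ⟨p, hp⟩ := gqc2_bound n
  obtain ⟨c, hc⟩ := Ideal.mem_span_range_iff_exists_fun.1
    ((Ideal.eq_top_iff_one _).1 (Ideal.span_range_pow_eq_top (T : Set Γ(X, U)) hT fun _ => p + 1))
  refine ⟨∑ j : T, (c j * j.1 ^ p) • b j, sep_cover (fun j : T => X.basicOpen j.1)
    (fun j => X.basicOpen_le j.1) (hU.self_le_iSup_basicOpen_iff.2 hT) fun k => ?_⟩
  have h4 : k.1 ^ (p + 1) • appL S.g U (∑ j : T, (c j * j.1 ^ p) • b j) =
      k.1 ^ p • appL S.g U (b k) := by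
    rw [← one_smul Γ(X, U) (k.1 ^ p • appL S.g U (b k)), ← hc, Finset.sum_smul, map_sum,
      Finset.smul_sum]
    refine Finset.sum_congr rfl fun j _ => ?_
    have h5 := gqc2_pow (hn (j, k)) (hp (j, k))
    rw [map_sub, map_smul, map_smul, smul_sub, sub_eq_zero, smul_smul, smul_smul] at h5
    have h6 := congrArg (c j • ·) h5
    simp only [smul_smul] at h6
    rw [map_smul, smul_smul, smul_smul]
    convert h6 using 2 <;> ring
  have h7 := congrArg (res S.X₃ (X.basicOpen_le k.1)) h4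
  rw [res_smul, res_smul, hb k, res_smul, smul_smul, ← map_mul, ← pow_succ, map_pow] at h7
  exact ((gqc2_unit k.1).pow (p + 1)).smul_left_cancel.1 h7

theorem QCOn.cokernel (hU : IsAffineOpen U) (S : ShortComplex X.Modules) (hS : S.ShortExact)
    (h₁ : QCOn U S.X₁) (h₂ : QCOn U S.X₂) : QCOn U S.X₃ := by
  refine ⟨fun f s => ?_, fun f t ht => ?_⟩
  · obtain ⟨b, rfl⟩ := surjective_of_qcOn₂ (hU.basicOpen f) S hS (h₁.basicOpen hU f)
      (h₂.basicOpen hU f) s
    obtain ⟨n, t, ht⟩ := h₂.ext f b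
    exact ⟨n, S.g.app U t, by rw [← app_res, ht]; exact S.g.app_smul _ _⟩
  · obtain ⟨c, rfl⟩ := surjective_of_qcOn₂ hU S hS h₁ h₂ t
    exact gqc2_torA S hS h₁ h₂ f c ht

theorem QCOn.push (hU : IsAffineOpen U) (h : QCOn U M) (f : Γ(X, U)) :
    QCOn U (push M (X.basicOpen f)) := by
  have hq : QCOn (U ⊓ X.basicOpen f) M := by
    rw [inf_eq_right.2 (X.basicOpen_le f)]
    exact h.basicOpen hU f
  have e : ∀ g : Γ(X, U), X.basicOpen g ⊓ X.basicOpen f =
      X.basicOpen (resO X (inf_le_left : U ⊓ X.basicOpen f ≤ U) g) := fun g => by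
    rw [gqc2_basicOpen, inf_eq_right.2 (X.basicOpen_le f), inf_comm]
  refine ⟨fun g s => ?_, fun g t ht => ?_⟩
  · obtain ⟨n, hn⟩ := gqc2_ext hq _ (e g) (inf_le_inf_right _ (X.basicOpen_le g))
      (pushSec M _ _ s)
    obtain ⟨t, ht⟩ := hn n le_rfl
    refine ⟨n, (pushSec M _ _).symm t, (pushSec M _ _).injective ?_⟩
    rw [pushSec_res, pushSec_smul, AddEquiv.apply_symm_apply, ht, map_pow, resO_resO, resO_resO]
  · obtain ⟨n, hn⟩ := gqc2_tor hq _ (e g) (inf_le_inf_right _ (X.basicOpen_le g))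
      (pushSec M _ _ t) (by rw [← pushSec_res (X.basicOpen_le g), ht, map_zero])
    exact ⟨n, (pushSec M _ _).injective (by rw [pushSec_smul, map_pow, hn, map_zero])⟩

theorem QCOn.supp (h : QCOn U M) : QCOn U (supp M U) :=
  (QCOn.iff_of_bijective (suppι M U) fun _ hW => suppι_bijective hW).2 h

/-- extension of a section after twisting -/
theorem exists_twisted_extension {ι : Type} [Finite ι] (U : ι → X.Opens)
    (hq : ∀ i, QCOn (U i) M) (hq' : ∀ i j, QCOn (U i ⊓ U j) M) (v : ι) (f : ∀ i, Γ(X, U i))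
    (hf : ∀ i, X.basicOpen (f i) = U i ⊓ U v) (hv : f v = 1) (r : ∀ i j, Γ(X, U i ⊓ U j))
    (hr : ∀ i j, resO X inf_le_left (f i) = r i j * resO X inf_le_right (f j)) (s : Γ(M, U v)) :
    ∃ (m : ℕ) (t : ∀ i, Γ(M, U i)), t v = s ∧
      ∀ i j, res M inf_le_left (t i) = r i j ^ m • res M inf_le_right (t j) := by
  choose n hn using fun i => gqc2_ext (hq i) (f i) (hf i).symm inf_le_left (res M inf_le_right s)
  obtain ⟨m, hm⟩ := gqc2_bound n
  choose t ht using fun i => hn i m (hm i)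
  have h1 : ∀ ij : ι × ι, ∃ n : ℕ, resO X (inf_le_left : U ij.1 ⊓ U ij.2 ≤ _) (f ij.1) ^ n •
      (res M inf_le_left (t ij.1) - r ij.1 ij.2 ^ m • res M inf_le_right (t ij.2)) = 0 := by
    rintro ⟨i, j⟩
    refine gqc2_tor (V := U i ⊓ U j ⊓ (U i ⊓ U v)) (hq' i j) _ (by rw [gqc2_basicOpen, hf])
      inf_le_left _ ?_
    have l2 : U i ⊓ U j ⊓ (U i ⊓ U v) ≤ U j ⊓ U v := inf_le_inf inf_le_right inf_le_right
    have e1 := congrArg (res M (inf_le_right : U i ⊓ U j ⊓ (U i ⊓ U v) ≤ _)) (ht i)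
    have e2 := congrArg (res M l2) (ht j)
    have e3 := congrArg (resO X (inf_le_left : U i ⊓ U j ⊓ (U i ⊓ U v) ≤ _)) (hr i j)
    simp only [res_res, res_smul, map_pow, map_mul, resO_resO] at e1 e2 e3
    simp only [map_sub, res_res, res_smul, map_pow]
    rw [e1, e2, e3, smul_smul, mul_pow, sub_self]
  choose n' hn' using h1
  obtain ⟨m', hm'⟩ := gqc2_bound n'
  refine ⟨m + m', fun i => f i ^ m' • t i, ?_, fun i j => ?_⟩
  · have e := congrArg (res M (le_inf le_rfl le_rfl : U v ≤ U v ⊓ U v)) (ht v)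
    rw [hv, map_one, one_pow, one_smul, res_res, res_res, res_self, res_self] at e
    simp only [hv, one_pow, one_smul, e]
  · have e := gqc2_pow (hn' (i, j)) (hm' (i, j))
    rw [smul_sub, sub_eq_zero] at e
    rw [res_smul, res_smul, map_pow, map_pow, e, hr i j, smul_smul, smul_smul]
    congr 1
    ring

end Pool.Agent.Work.MP_910138_ag
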