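import Pool.Agent.Work.MP_910138_ag.GKempf
import Pool.Agent.Work.MP_910138_ag.GQC2

/-! Vanishing of the higher cohomology of quasi-coherent sheaves on affine opens. -/

open CategoryTheory Limits AlgebraicGeometry TopologicalSpace Opposite Abelian

namespace Pool.Agent.Work.MP_910138_ag

variable {X : Scheme.{0}} {M N : X.Modules} {U V W : X.Opens}

theorem gav_mono {G : Type} [Fintype G] (D : G → X.Opens) (hD : ∀ x ∈ U, ∃ i, x ∈ D i) :
    Mono (biproduct.lift fun i => suppι N U ≫ toPush N (D i)) := by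
  rw [mono_iff]
  intro W
  rw [injective_iff_map_eq_zero]
  intro s hs
  have h1 : ∀ i, res N (inf_le_left : W ⊓ D i ≤ W) ((suppι N U).app W s) = 0 := by
    intro i
    have h2 : (suppι N U ≫ toPush N (D i)).app W s = 0 := by
      rw [← biproduct.lift_π (fun i => suppι N U ≫ toPush N (D i)) i, comp_app_apply]
      exact (congrArg _ hs).trans (map_zero _)
    rw [comp_app_apply] at h2
    rw [← pushSec_toPush, h2, map_zero]
  apply (suppData N U).ι_injective W
  have h3 : (suppι N U).app W s = 0 := by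
    apply sep
    intro x hx
    by_cases hxU : x ∈ U
    · obtain ⟨i, hi⟩ := hD x hxU
      exact ⟨W ⊓ D i, inf_le_left, ⟨hx, hi⟩, by rw [h1 i, map_zero]⟩
    · obtain ⟨W', h, hx', e⟩ := (suppData N U).ι_mem s x hx hxU
      exact ⟨W', h, hx', e.trans (map_zero _).symm⟩
  exact h3.trans (map_zero _).symm

theorem gav_main (n : ℕ) : ∀ (U : X.Opens), IsAffineOpen U → ∀ (N : X.Modules), QCOn U N →
    ∀ α : Ext (supp (OX X) U) N (n + 1), α = 0 := by
  induction n using Nat.strong_induction_on with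
  | _ n ih =>
  intro U hU N hN α
  classical
  have hk := kempf (U := U) (Set.range fun f : Γ(X, U) => X.basicOpen f)
    (by
      rintro _ ⟨f, rfl⟩ _ ⟨g, rfl⟩
      exact ⟨f * g, X.basicOpen_mul f g⟩)
    (by
      intro W hW x hx
      obtain ⟨f, h1, h2⟩ := hU.exists_basicOpen_le (V := W) ⟨x, hx⟩ (hW hx)
      exact ⟨_, ⟨f, rfl⟩, h2, h1⟩) n N
    (by
      rintro _ ⟨f, rfl⟩ i hi β
      exact ih i hi _ (hU.basicOpen f) N (hN.basicOpen hU f) β) α
  have hk' : ∀ x : U, ∃ f : Γ(X, U), x.1 ∈ X.basicOpen f ∧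
      α.comp (Ext.mk₀ (toPush N (X.basicOpen f))) (add_zero _) = 0 := by
    intro x
    obtain ⟨_, ⟨f, rfl⟩, h1, -, h2⟩ := hk x.1 x.2
    exact ⟨f, h1, h2⟩
  choose f hf hα using hk'
  obtain ⟨t, ht⟩ := hU.isCompact.elim_finite_subcover
    (fun x : U => (X.basicOpen (f x) : Set X)) (fun x => (X.basicOpen (f x)).isOpen)
    (fun x hx => Set.mem_iUnion.2 ⟨⟨x, hx⟩, hf ⟨x, hx⟩⟩)
  let D : t → X.Opens := fun i => X.basicOpen (f i.1)
  have hD : ∀ x ∈ U, ∃ i, x ∈ D i := by
    intro x hx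
    obtain ⟨i, hi, hx'⟩ := Set.mem_iUnion₂.1 (ht hx)
    exact ⟨⟨i, hi⟩, hx'⟩
  obtain ⟨α', hα'⟩ := (ext_bijective_of_iso_on (M := OX X) (U := U) (suppι N U)
    (fun W hW => suppι_bijective hW) (n + 1)).2 α
  let j : supp N U ⟶ ⨁ fun i => push N (D i) :=
    biproduct.lift fun i => suppι N U ≫ toPush N (D i)
  have : Mono j := gav_mono D hD
  let S : ShortComplex X.Modules := ShortComplex.mk j (cokernel.π j) (cokernel.condition j)
  have hS : S.ShortExact :=
    { exact := ShortComplex.exact_of_g_is_cokernel _ (cokernelIsCokernel j) }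
  have h0 : α'.comp (Ext.mk₀ S.f) (add_zero _) = 0 := by
    change α'.comp (Ext.mk₀ j) (add_zero _) = 0
    simp only [j]
    rw [biproduct.lift_eq, Ext.mk₀_sum, Ext.comp_sum]
    refine Finset.sum_eq_zero fun i _ => ?_
    have e : α'.comp (Ext.mk₀ (suppι N U)) (add_zero _) = α := hα'
    rw [← Ext.mk₀_comp_mk₀, ← Ext.mk₀_comp_mk₀, ← Ext.comp_assoc_of_third_deg_zero,
      ← Ext.comp_assoc_of_third_deg_zero, e, hα i.1, Ext.zero_comp]
  obtain ⟨β, hβ⟩ := Ext.covariant_sequence_exact₁ _ hS α' h0 (n₀ := n) rfl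
  have h₁ : QCOn U S.X₁ := hN.supp
  have h₂ : QCOn U S.X₂ := QCOn.biproduct _ fun i => hN.push hU (f i.1)
  have hz : α' = 0 := by
    rw [← hβ]
    rcases n with _ | m
    · exact comp_extClass_eq_zero S hS (surjective_of_qcOn₂ hU S hS h₁ h₂) β
    · rw [ih m (Nat.lt_succ_self m) U hU _ (QCOn.cokernel hU S hS h₁ h₂) β, Ext.zero_comp]
  rw [← hα', hz]
  exact Ext.zero_comp _ _ _ _ _

theorem affine_vanishing (hU : IsAffineOpen U) (hN : QCOn U N) (n : ℕ)
    (α : Ext (supp (OX X) U) N (n + 1)) : α = 0 :=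
  gav_main n U hU N hN α

theorem surjective_of_qcOn (hU : IsAffineOpen U) (S : ShortComplex X.Modules) (hS : S.ShortExact)
    (h : QCOn U S.X₁) : Function.Surjective (S.g.app U) :=
  surjective_of_ext_one S hS (affine_vanishing hU h 0)

theorem IsGen.ext_zero (hU : IsAffineOpen U) {g : Γ(M, U)} (hg : IsGen M U g) (hN : QCOn U N)
    (n : ℕ) (α : Ext (supp M U) N (n + 1)) : α = 0 := by
  obtain ⟨e⟩ := hg.nonempty_iso
  have h := affine_vanishing hU hN n ((Ext.mk₀ e.inv).comp α (zero_add _))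
  have h2 : α = (Ext.mk₀ e.hom).comp ((Ext.mk₀ e.inv).comp α (zero_add _)) (zero_add _) := by
    rw [Ext.mk₀_comp_mk₀_assoc, e.hom_inv_id, Ext.mk₀_id_comp]
  rw [h2, h, Ext.comp_zero]

end Pool.Agent.Work.MP_910138_ag
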