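import Pool.Agent.Work.MP_910138_ag.GExact

/-! Section-level quasi-coherence on an affine open. -/

open CategoryTheory Limits AlgebraicGeometry TopologicalSpace Opposite Abelian

namespace Pool.Agent.Work.MP_910138_ag

variable {X : Scheme.{0}} {M N : X.Modules} {U V W : X.Opens}

theorem gqc_ext (h : QCOn U M) (f : Γ(X, U)) (hV : V = X.basicOpen f) (hle : V ≤ U)
    (s : Γ(M, V)) : ∃ (n : ℕ) (t : Γ(M, U)), res M hle t = resO X hle f ^ n • s := by
  subst hV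
  exact h.ext f s

theorem gqc_tor (h : QCOn U M) (f : Γ(X, U)) (hV : V = X.basicOpen f) (hle : V ≤ U)
    (t : Γ(M, U)) (ht : res M hle t = 0) : ∃ n : ℕ, f ^ n • t = 0 := by
  subst hV
  exact h.tor f t ht

theorem gqc_unit (f : Γ(X, U)) : IsUnit (resO X (X.basicOpen_le f) f) :=
  X.toRingedSpace.isUnit_res_basicOpen f

theorem gqc_inv (f : Γ(X, U)) :
    ∃ u : Γ(X, X.basicOpen f), u * resO X (X.basicOpen_le f) f = 1 :=
  (gqc_unit f).exists_left_inv

theorem gqc_surj (hU : IsAffineOpen U) (f : Γ(X, U)) (g : Γ(X, X.basicOpen f)) :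
    ∃ (n : ℕ) (a : Γ(X, U)),
      resO X (X.basicOpen_le f) a = resO X (X.basicOpen_le f) f ^ n * g := by
  have := hU.isLocalization_basicOpen f
  obtain ⟨n, a, h⟩ := IsLocalization.Away.surj f g
  exact ⟨n, a, h.symm.trans (mul_comm _ _)⟩

theorem gqc_ker (hU : IsAffineOpen U) (f a : Γ(X, U)) (h : resO X (X.basicOpen_le f) a = 0) :
    ∃ n : ℕ, f ^ n * a = 0 := by
  have := hU.isLocalization_basicOpen f
  obtain ⟨⟨_, n, rfl⟩, hn⟩ := (IsLocalization.map_eq_zero_iff (Submonoid.powers f)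
    Γ(X, X.basicOpen f) a).1 h
  exact ⟨n, hn⟩

theorem gqc_unif {I : Type} [Finite I] {P : I → ℕ → Prop} (hm : ∀ i n, P i n → P i (n + 1))
    (h : ∀ i, ∃ n, P i n) : ∃ n, ∀ i, P i n := by
  choose n hn using h
  obtain ⟨N, hN⟩ := (Set.finite_range n).bddAbove
  refine ⟨N, fun i => ?_⟩
  exact Nat.le_induction (P := fun m _ => P i m) (hn i) (fun m _ => hm i m) N (hN ⟨i, rfl⟩)

theorem gqc_ext_all {I : Type} [Finite I] {M : I → X.Modules} (h : ∀ i, QCOn U (M i))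
    (f : Γ(X, U)) (s : ∀ i, Γ(M i, X.basicOpen f)) : ∃ (n : ℕ) (t : ∀ i, Γ(M i, U)), ∀ i,
      res (M i) (X.basicOpen_le f) (t i) = resO X (X.basicOpen_le f) f ^ n • s i := by
  obtain ⟨n, hn⟩ := gqc_unif (P := fun i n => ∃ t : Γ(M i, U),
      res (M i) (X.basicOpen_le f) t = resO X (X.basicOpen_le f) f ^ n • s i)
    (fun i n ⟨t, ht⟩ => ⟨f • t, by rw [res_smul, ht, pow_succ', mul_smul]⟩)
    fun i => (h i).ext f (s i)
  choose t ht using hn
  exact ⟨n, t, ht⟩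

theorem gqc_tor_all {I : Type} [Finite I] {M : I → X.Modules} (h : ∀ i, QCOn U (M i))
    (f : Γ(X, U)) (t : ∀ i, Γ(M i, U)) (ht : ∀ i, res (M i) (X.basicOpen_le f) (t i) = 0) :
    ∃ n : ℕ, ∀ i, f ^ n • t i = 0 :=
  gqc_unif (P := fun i n => f ^ n • t i = 0)
    (fun i n hn => by rw [pow_succ', mul_smul, hn, smul_zero]) fun i => (h i).tor f (t i) (ht i)

theorem gqc_app_smul (φ : M ⟶ N) (r : Γ(X, U)) (s : Γ(M, U)) :
    φ.app U (r • s) = r • φ.app U s := φ.app_smul r s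

theorem gqc_app_zero (φ : M ⟶ N) : φ.app U (0 : Γ(M, U)) = 0 := map_zero _

theorem QCOn.iff_of_bijective (φ : M ⟶ N)
    (h : ∀ W : X.Opens, W ≤ U → Function.Bijective (φ.app W)) : QCOn U M ↔ QCOn U N := by
  refine ⟨fun H => ⟨fun f s => ?_, fun f t ht => ?_⟩, fun H => ⟨fun f s => ?_, fun f t ht => ?_⟩⟩
  · obtain ⟨s, rfl⟩ := (h _ (X.basicOpen_le f)).2 s
    obtain ⟨n, t, ht⟩ := H.ext f s
    exact ⟨n, φ.app U t, by rw [← app_res, ht, gqc_app_smul]⟩
  · obtain ⟨t, rfl⟩ := (h U le_rfl).2 t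
    obtain ⟨n, hn⟩ := H.tor f t
      ((h _ (X.basicOpen_le f)).1 (by rw [app_res, ht, gqc_app_zero]))
    exact ⟨n, by rw [← gqc_app_smul, hn, gqc_app_zero]⟩
  · obtain ⟨n, t, ht⟩ := H.ext f (φ.app _ s)
    obtain ⟨t, rfl⟩ := (h U le_rfl).2 t
    exact ⟨n, t, (h _ (X.basicOpen_le f)).1 (by rw [app_res, ht, gqc_app_smul])⟩
  · obtain ⟨n, hn⟩ := H.tor f (φ.app U t) (by rw [← app_res, ht, gqc_app_zero])
    exact ⟨n, (h U le_rfl).1 (by rw [gqc_app_smul, hn, gqc_app_zero])⟩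

theorem QCOn.basicOpen (hU : IsAffineOpen U) (h : QCOn U M) (f : Γ(X, U)) :
    QCOn (X.basicOpen f) M := by
  obtain ⟨u, hu⟩ := gqc_inv f
  have key : ∀ g : Γ(X, X.basicOpen f), ∃ (k : ℕ) (a : Γ(X, U)),
      resO X (X.basicOpen_le f) a = resO X (X.basicOpen_le f) f ^ k * g ∧
        X.basicOpen g = X.basicOpen a := by
    intro g
    obtain ⟨k, a, ha⟩ := gqc_surj hU f g
    refine ⟨k + 1, f * a, by rw [map_mul, ha, pow_succ', mul_assoc], ?_⟩
    have e : X.basicOpen (resO X (X.basicOpen_le f) a) = X.basicOpen f ⊓ X.basicOpen a :=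
      X.basicOpen_res a (homOfLE (X.basicOpen_le f)).op
    rw [X.basicOpen_mul, ← e, ha, X.basicOpen_mul, X.basicOpen_of_isUnit ((gqc_unit f).pow k),
      inf_eq_right.2 (X.basicOpen_le g)]
  refine ⟨fun g s => ?_, fun g t ht => ?_⟩
  · obtain ⟨k, a, ha, e⟩ := key g
    obtain ⟨n, t, ht⟩ := gqc_ext h a e ((X.basicOpen_le g).trans (X.basicOpen_le f)) s
    refine ⟨n, (u ^ k) ^ n • res M (X.basicOpen_le f) t, ?_⟩
    rw [res_smul, res_res, ht, ← mul_smul, ← resO_resO (X.basicOpen_le g) (X.basicOpen_le f),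
      ← map_pow, ← map_mul, ← mul_pow, ha, ← mul_assoc, ← mul_pow, hu, one_pow, one_mul, map_pow]
  · obtain ⟨k, a, ha, e⟩ := key g
    obtain ⟨m, t', ht'⟩ := h.ext f t
    obtain ⟨n, hn⟩ := gqc_tor h a e ((X.basicOpen_le g).trans (X.basicOpen_le f)) t' (by
      rw [← res_res (X.basicOpen_le g) (X.basicOpen_le f), ht', res_smul, ht, smul_zero])
    refine ⟨n, ?_⟩
    have h1 := congrArg (fun z => (u ^ m * (u ^ k) ^ n) • res M (X.basicOpen_le f) z) hn
    simp only [res_smul, ht', map_zero, smul_zero, map_pow, ha, ← mul_smul] at h1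
    rw [← h1]
    congr 1
    have e1 : u ^ m * resO X (X.basicOpen_le f) f ^ m = 1 := by rw [← mul_pow, hu, one_pow]
    have e2 : (u ^ k) ^ n * (resO X (X.basicOpen_le f) f ^ k) ^ n = 1 := by
      rw [← mul_pow, ← mul_pow, hu, one_pow, one_pow]
    rw [mul_pow]
    linear_combination (-(g ^ n)) * e2 -
      ((u ^ k) ^ n * (resO X (X.basicOpen_le f) f ^ k) ^ n * g ^ n) * e1

theorem qcOn_OX (hU : IsAffineOpen U) : QCOn U (OX X) :=
  ⟨fun f s => gqc_surj hU f s, fun f t ht => gqc_ker hU f t ht⟩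

theorem IsGen.qcOn (hU : IsAffineOpen U) {g : Γ(M, U)} (hg : IsGen M U g) : QCOn U M := by
  refine ⟨fun f s => ?_, fun f t ht => ?_⟩
  · obtain ⟨r, rfl⟩ := (hg _ (X.basicOpen_le f)).2 s
    obtain ⟨n, a, ha⟩ := gqc_surj hU f r
    exact ⟨n, a • g, by rw [res_smul, ha, mul_smul]⟩
  · obtain ⟨r, rfl⟩ := (hg U le_rfl).2 t
    simp only [res_self] at ht ⊢
    obtain ⟨n, hn⟩ := gqc_ker hU f r ((hg _ (X.basicOpen_le f)).1 (by
      simp only [zero_smul]
      rw [← res_smul, ht]))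
    exact ⟨n, by rw [← mul_smul, hn, zero_smul]⟩

theorem IsBasisOn.qcOn (hU : IsAffineOpen U) {I : Type} [Fintype I] {g : I → Γ(M, U)}
    (hg : IsBasisOn M U g) : QCOn U M := by
  refine ⟨fun f s => ?_, fun f t ht => ?_⟩
  · obtain ⟨r, rfl⟩ := (hg _ (X.basicOpen_le f)).2 s
    obtain ⟨n, hn⟩ := gqc_unif (P := fun i n => ∃ a : Γ(X, U),
        resO X (X.basicOpen_le f) a = resO X (X.basicOpen_le f) f ^ n * r i)
      (fun i n ⟨a, ha⟩ => ⟨f * a, by rw [map_mul, ha, pow_succ', mul_assoc]⟩)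
      fun i => gqc_surj hU f (r i)
    choose a ha using hn
    refine ⟨n, ∑ i, a i • g i, ?_⟩
    simp only [map_sum, res_smul, ha, Finset.smul_sum, mul_smul]
  · obtain ⟨r, rfl⟩ := (hg U le_rfl).2 t
    simp only [res_self] at ht ⊢
    have h0 : (fun i => resO X (X.basicOpen_le f) (r i)) = 0 :=
      (hg _ (X.basicOpen_le f)).1 (by
        simp only [map_sum, res_smul] at ht
        simp only [ht, Pi.zero_apply, zero_smul, Finset.sum_const_zero])
    obtain ⟨n, hn⟩ := gqc_unif (P := fun i n => f ^ n * r i = 0)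
      (fun i n hn => by rw [pow_succ', mul_assoc, hn, mul_zero])
      fun i => gqc_ker hU f (r i) (congrFun h0 i)
    refine ⟨n, ?_⟩
    simp only [Finset.smul_sum, ← mul_smul, hn, zero_smul, Finset.sum_const_zero]

theorem QCOn.biproduct {G : Type} [Fintype G] (M : G → X.Modules) (h : ∀ x, QCOn U (M x)) :
    QCOn U (⨁ M) := by
  refine ⟨fun f s => ?_, fun f t ht => ?_⟩
  · obtain ⟨n, t, ht⟩ := gqc_ext_all h f fun x => (biproduct.π M x).app _ s
    obtain ⟨t', ht'⟩ := biprod_exists M t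
    exact ⟨n, t', biprod_ext M fun x => by rw [app_res, ht', ht, gqc_app_smul]⟩
  · obtain ⟨n, hn⟩ := gqc_tor_all h f (fun x => (biproduct.π M x).app U t) fun x => by
      rw [← app_res, ht, gqc_app_zero]
    exact ⟨n, biprod_ext M fun x => by rw [gqc_app_smul, hn, gqc_app_zero]⟩

theorem QCOn.kernel (S : ShortComplex X.Modules) (hS : S.Exact) [Mono S.f] (h₂ : QCOn U S.X₂)
    (h₃ : QCOn U S.X₃) : QCOn U S.X₁ := by
  have hi := (mono_iff S.f).1 inferInstance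
  refine ⟨fun f s => ?_, fun f t ht => ?_⟩
  · obtain ⟨n, t, ht⟩ := h₂.ext f (S.f.app _ s)
    obtain ⟨m, hm⟩ := h₃.tor f (S.g.app U t) (by
      have e : S.g.app _ (S.f.app _ s) = 0 := by
        rw [← comp_app_apply, S.zero]
        rfl
      rw [← app_res, ht, gqc_app_smul, e, smul_zero])
    obtain ⟨t', ht'⟩ := exact_sections S hS U (f ^ m • t) (by rw [gqc_app_smul, hm])
    refine ⟨m + n, t', hi _ ?_⟩
    rw [app_res, ht', res_smul, ht, gqc_app_smul, map_pow, pow_add, mul_smul]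
  · obtain ⟨n, hn⟩ := h₂.tor f (S.f.app U t) (by rw [← app_res, ht, gqc_app_zero])
    exact ⟨n, hi U (by rw [gqc_app_smul, hn, gqc_app_zero])⟩

/-- a map that is surjective on sections over the affine open `U` is locally surjective on `U` -/
theorem QCOn.locally_surjective (hU : IsAffineOpen U) (hN : QCOn U N) (φ : M ⟶ N)
    (hs : Function.Surjective (φ.app U)) (hW : W ≤ U) (s : Γ(N, W)) (x : X) (hx : x ∈ W) :
    ∃ (V : X.Opens) (h : V ≤ W), x ∈ V ∧ ∃ t : Γ(M, V), φ.app V t = res N h s := by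
  obtain ⟨f, hf, hxf⟩ := hU.exists_basicOpen_le ⟨x, hx⟩ (hW hx)
  obtain ⟨u, hu⟩ := gqc_inv f
  obtain ⟨n, t, ht⟩ := hN.ext f (res N hf s)
  obtain ⟨t, rfl⟩ := hs t
  refine ⟨X.basicOpen f, hf, hxf, u ^ n • res M (X.basicOpen_le f) t, ?_⟩
  rw [gqc_app_smul, app_res, ht, ← mul_smul, ← mul_pow, hu, one_pow, one_smul]

theorem QCOn.finite_basicOpen (hU : IsAffineOpen U) (h : QCOn U M)
    [Module.Finite Γ(X, U) Γ(M, U)] (f : Γ(X, U)) :
    Module.Finite Γ(X, X.basicOpen f) Γ(M, X.basicOpen f) := by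
  obtain ⟨S, hS⟩ := Module.Finite.fg_top (R := Γ(X, U)) (M := Γ(M, U))
  obtain ⟨u, hu⟩ := gqc_inv f
  refine ⟨Submodule.fg_def.2 ⟨res M (X.basicOpen_le f) '' S, S.finite_toSet.image _,
    eq_top_iff.2 fun s _ => ?_⟩⟩
  obtain ⟨n, t, ht⟩ := h.ext f s
  have h1 : res M (X.basicOpen_le f) t ∈
      Submodule.span Γ(X, X.basicOpen f) (res M (X.basicOpen_le f) '' S) := by
    have h2 : t ∈ Submodule.span Γ(X, U) (S : Set Γ(M, U)) := hS ▸ Submodule.mem_top
    clear ht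
    induction h2 using Submodule.span_induction with
    | mem z hz => exact Submodule.subset_span ⟨z, hz, rfl⟩
    | zero => rw [map_zero]; exact Submodule.zero_mem _
    | add a b _ _ ha hb => rw [map_add]; exact Submodule.add_mem _ ha hb
    | smul r a _ ha => rw [res_smul]; exact Submodule.smul_mem _ _ ha
  have h3 := Submodule.smul_mem _ (u ^ n) h1
  rwa [ht, ← mul_smul, ← mul_pow, hu, one_pow, one_smul] at h3

end Pool.Agent.Work.MP_910138_ag
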