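import Mathlib

/-! Ext groups computed from an acyclic left resolution. -/

open CategoryTheory Limits Abelian

namespace Pool.Agent.Work.MP_910138_ag

universe w v u

variable {A : Type u} [Category.{v} A] [Abelian A] [HasExt.{w} A]

/-- a left resolution `C` of `M` -/
structure LRes (M : A) where
  C : ℕ → A
  d : ∀ i, C (i + 1) ⟶ C i
  ε : C 0 ⟶ M
  epi : Epi ε
  w₀ : d 0 ≫ ε = 0
  exact₀ : (ShortComplex.mk _ _ w₀).Exact
  w : ∀ i, d (i + 1) ≫ d i = 0
  exact : ∀ i, (ShortComplex.mk _ _ (w i)).Exact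

variable {M N : A} (R : LRes M)

/-- the shifted resolution, of the kernel of the augmentation -/
noncomputable def gres_shift : LRes (kernel R.ε) where
  C i := R.C (i + 1)
  d i := R.d (i + 1)
  ε := kernel.lift R.ε (R.d 0) R.w₀
  epi := (ShortComplex.exact_iff_epi_kernel_lift _).1 R.exact₀
  w₀ := by
    rw [← cancel_mono (kernel.ι R.ε)]
    simp [R.w 0]
  exact₀ := by
    have h := R.exact 0
    have hw : R.d (0 + 1) ≫ kernel.lift R.ε (R.d 0) R.w₀ = 0 := by
      rw [← cancel_mono (kernel.ι R.ε)]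
      simp [R.w 0]
    let φ : ShortComplex.mk _ _ hw ⟶ ShortComplex.mk _ _ (R.w 0) :=
      { τ₁ := 𝟙 _
        τ₂ := 𝟙 _
        τ₃ := kernel.ι R.ε
        comm₁₂ := by simp
        comm₂₃ := by simp }
    haveI : Epi φ.τ₁ := by dsimp [φ]; infer_instance
    haveI : IsIso φ.τ₂ := by dsimp [φ]; infer_instance
    haveI : Mono φ.τ₃ := by dsimp [φ]; infer_instance
    exact (ShortComplex.exact_iff_of_epi_of_isIso_of_mono φ).2 h
  w i := R.w (i + 1)
  exact i := R.exact (i + 1)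

theorem gres_se : (ShortComplex.mk (kernel.ι R.ε) R.ε (kernel.condition _)).ShortExact := by
  haveI := R.epi
  exact { exact := ShortComplex.exact_of_f_is_kernel _ (kernelIsKernel _) }

/-- the connecting map, as a linear map -/
noncomputable def gres_delta (k : Type) [Field k] [Linear k A] (N : A) (n : ℕ) :
    Ext.{w} (kernel R.ε) N n →ₗ[k] Ext.{w} M N (n + 1) where
  toFun x := (gres_se R).extClass.comp x (Nat.add_comm 1 n)
  map_add' x y := Ext.comp_add _ _ _ _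
  map_smul' r x := Ext.comp_smul _ _ _ _

theorem gres_delta_surj (k : Type) [Field k] [Linear k A] (n : ℕ)
    (ac : ∀ α : Ext.{w} (R.C 0) N (n + 1), α = 0) :
    Function.Surjective (gres_delta R k N n) := by
  intro x
  exact Ext.contravariant_sequence_exact₃ (gres_se R) N x (ac _) (Nat.add_comm 1 n)

theorem gres_aux (k : Type) [Field k] [Linear k A] (N : A) (i : ℕ) :
    ∀ (M : A) (R : LRes M) (_ : ∀ (i n : ℕ) (α : Ext.{w} (R.C i) N (n + 1)), α = 0),
    ∃ c : LinearMap.ker (Linear.leftComp k N (R.d (i + 1))) →ₗ[k] Ext.{w} M N (i + 1),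
      Function.Surjective c ∧ ∀ (y : R.C i ⟶ N) (hy : R.d i ≫ y ∈ LinearMap.ker
        (Linear.leftComp k N (R.d (i + 1)))), c ⟨R.d i ≫ y, hy⟩ = 0 := by
  induction i with
  | zero =>
    intro M R ac
    let e : R.C 1 ⟶ kernel R.ε := kernel.lift R.ε (R.d 0) R.w₀
    haveI he : Epi e := (gres_shift R).epi
    have hw : R.d (0 + 1) ≫ e = 0 := (gres_shift R).w₀
    have hex : (ShortComplex.mk _ _ hw).Exact := (gres_shift R).exact₀
    let p : (kernel R.ε ⟶ N) →ₗ[k] LinearMap.ker (Linear.leftComp k N (R.d (0 + 1))) :=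
      LinearMap.codRestrict _ (Linear.leftComp k N e) (fun u => by
        change R.d (0 + 1) ≫ e ≫ u = 0
        rw [← Category.assoc, hw, zero_comp])
    have hp : Function.Bijective p := by
      constructor
      · intro u v huv
        have h : e ≫ u = e ≫ v := congrArg Subtype.val huv
        exact (cancel_epi e).1 h
      · rintro ⟨z, hz⟩
        have hz' : R.d (0 + 1) ≫ z = 0 := hz
        refine ⟨hex.desc z hz', Subtype.ext ?_⟩
        exact hex.g_desc z hz'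
    let E := LinearEquiv.ofBijective p hp
    refine ⟨(gres_delta R k N 0) ∘ₗ (Ext.linearEquiv₀ (R := k)).symm.toLinearMap ∘ₗ
      E.symm.toLinearMap, ?_, ?_⟩
    · exact (gres_delta_surj R k 0 (ac 0 0)).comp
        ((Ext.linearEquiv₀ (R := k)).symm.surjective.comp E.symm.surjective)
    · intro y hy
      have h1 : E.symm ⟨R.d 0 ≫ y, hy⟩ = kernel.ι R.ε ≫ y := by
        rw [LinearEquiv.symm_apply_eq]
        apply Subtype.ext
        change R.d 0 ≫ y = e ≫ kernel.ι R.ε ≫ y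
        rw [← Category.assoc, kernel.lift_ι]
      change (gres_se R).extClass.comp ((Ext.linearEquiv₀ (R := k)).symm
        (E.symm ⟨R.d 0 ≫ y, hy⟩)) (Nat.add_comm 1 0) = 0
      rw [h1, Ext.linearEquiv₀_symm_apply, ← Ext.mk₀_comp_mk₀]
      exact (gres_se R).extClass_comp_assoc _
  | succ i ih =>
    intro M R ac
    obtain ⟨c, hc, hc0⟩ := ih _ (gres_shift R) (fun j n α => ac (j + 1) n α)
    refine ⟨(gres_delta R k N (i + 1)) ∘ₗ c, (gres_delta_surj R k (i + 1) (ac 0 _)).comp hc, ?_⟩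
    intro y hy
    have h := hc0 y hy
    change gres_delta R k N (i + 1) (c ⟨R.d (i + 1) ≫ y, hy⟩) = 0
    have h' : c ⟨R.d (i + 1) ≫ y, hy⟩ = 0 := h
    rw [h', map_zero]

theorem LRes.exists_class (k : Type) [Field k] [Linear k A]
    (ac : ∀ (i n : ℕ) (α : Ext.{w} (R.C i) N (n + 1)), α = 0) (i : ℕ) :
    ∃ c : LinearMap.ker (Linear.leftComp k N (R.d (i + 1))) →ₗ[k] Ext.{w} M N (i + 1),
      Function.Surjective c ∧ ∀ (y : R.C i ⟶ N) (hy : R.d i ≫ y ∈ LinearMap.ker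
        (Linear.leftComp k N (R.d (i + 1)))), c ⟨R.d i ≫ y, hy⟩ = 0 := by
  exact gres_aux k N i M R ac

theorem LRes.finite_ext (k : Type) [Field k] [Linear k A]
    (ac : ∀ (i n : ℕ) (α : Ext.{w} (R.C i) N (n + 1)), α = 0) (i : ℕ)
    (W : Submodule k (R.C (i + 1) ⟶ N)) [Module.Finite k W]
    (h : ∀ z : R.C (i + 1) ⟶ N, R.d (i + 1) ≫ z = 0 → ∃ y : R.C i ⟶ N, z - R.d i ≫ y ∈ W) :
    Module.Finite k (Ext.{w} M N (i + 1)) := by
  obtain ⟨c, hc, hc0⟩ := R.exists_class k ac i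
  let K := LinearMap.ker (Linear.leftComp k N (R.d (i + 1)))
  let j : (W ⊓ K : Submodule k _) →ₗ[k] K := Submodule.inclusion inf_le_right
  haveI : Module.Finite k (W ⊓ K : Submodule k _) :=
    Module.Finite.of_injective (Submodule.inclusion (inf_le_left : W ⊓ K ≤ W))
      (Submodule.inclusion_injective _)
  refine Module.Finite.of_surjective (c ∘ₗ j) ?_
  intro α
  obtain ⟨⟨z, hz⟩, rfl⟩ := hc α
  obtain ⟨y, hy⟩ := h z hz
  have hdy : R.d i ≫ y ∈ K := by
    change R.d (i + 1) ≫ R.d i ≫ y = 0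
    rw [← Category.assoc, R.w i, zero_comp]
  refine ⟨⟨z - R.d i ≫ y, hy, K.sub_mem hz hdy⟩, ?_⟩
  have e1 : j ⟨z - R.d i ≫ y, hy, K.sub_mem hz hdy⟩ = (⟨z, hz⟩ : K) - ⟨R.d i ≫ y, hdy⟩ := rfl
  change c (j _) = _
  rw [e1, map_sub, hc0 y hdy, sub_zero]

theorem LRes.ext_zero (k : Type) [Field k] [Linear k A]
    (ac : ∀ (i n : ℕ) (α : Ext.{w} (R.C i) N (n + 1)), α = 0) (i : ℕ)
    (h : ∀ z : R.C (i + 1) ⟶ N, R.d (i + 1) ≫ z = 0 → ∃ y : R.C i ⟶ N, z = R.d i ≫ y)
    (α : Ext.{w} M N (i + 1)) : α = 0 := by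
  obtain ⟨c, hc, hc0⟩ := R.exists_class k ac i
  obtain ⟨⟨z, hz⟩, rfl⟩ := hc α
  obtain ⟨y, rfl⟩ := h z hz
  exact hc0 y hz

end Pool.Agent.Work.MP_910138_ag
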