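import Pool.Agent.Work.MP_910138_ag.GExact

/-! Extension by zero: morphisms out of `supp M V` and the Mayer-Vietoris sequence. -/

open CategoryTheory Limits AlgebraicGeometry TopologicalSpace Opposite Abelian

namespace Pool.Agent.Work.MP_910138_ag

variable {X : Scheme.{0}} {M N : X.Modules} {U V W : X.Opens}

/-- a section over `V` as a section of `supp M V` -/
noncomputable def suppSec (g : Γ(M, V)) : Γ(supp M V, V) :=
  (suppData M V).mkSec g (mem_suppData_of_le le_rfl g)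

theorem suppι_suppSec (g : Γ(M, V)) : (suppι M V).app V (suppSec g) = g := rfl

theorem gsupp_inj (M : X.Modules) (V W : X.Opens) : Function.Injective ((suppι M V).app W) :=
  (suppData M V).ι_injective W

theorem gsupp_zero (s : Γ(supp M V, W)) {x : X} (hx : x ∈ W) (hx' : x ∉ V) :
    ∃ (W' : X.Opens) (h : W' ≤ W), x ∈ W' ∧ res (supp M V) h s = 0 := by
  obtain ⟨W', h, hW', e⟩ := (suppData M V).ι_mem s x hx hx'
  refine ⟨W', h, hW', gsupp_inj M V W' ?_⟩
  rw [app_res, map_zero]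
  exact e

theorem gsupp_LE (h : U ≤ V) (s : Γ(supp M U, W)) :
    (suppι M V).app W ((suppLE M h).app W s) = (suppι M U).app W s := rfl

/-- morphisms defined on small open sets extend -/
theorem gsupp_glue (good : X.Opens → Prop) (hgood : ∀ {W W'}, W ≤ W' → good W' → good W)
    (φ : ∀ W : X.Opens, good W → (Γ(M, W) →ₗ[Γ(X, W)] Γ(N, W)))
    (nat : ∀ (W W' : X.Opens) (h : W ≤ W') (h' : good W') (s : Γ(M, W')),
      φ W (hgood h h') (res M h s) = res N h (φ W' h' s))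
    (cov : ∀ (W : X.Opens) (s : Γ(M, W)), ∀ x ∈ W,
      ∃ (W' : X.Opens) (h : W' ≤ W), x ∈ W' ∧ (good W' ∨ res M h s = 0)) :
    ∃ Φ : M ⟶ N, ∀ (W : X.Opens) (h : good W) (s : Γ(M, W)), Φ.app W s = φ W h s := by
  classical
  have ex : ∀ (W : X.Opens) (s : Γ(M, W)), ∃ t : Γ(N, W), ∀ (W' : X.Opens) (h : W' ≤ W),
      (∀ g : good W', res N h t = φ W' g (res M h s)) ∧ (res M h s = 0 → res N h t = 0) := by
    intro W s
    let sec : ∀ W' : X.Opens, W' ≤ W → Γ(N, W') := fun W' h =>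
      if g : good W' then φ W' g (res M h s) else 0
    have z : ∀ (W' : X.Opens) (h : W' ≤ W), res M h s = 0 → sec W' h = 0 := fun W' h e => by
      simp only [sec, e, map_zero, dite_eq_ite, ite_self]
    have c : ∀ (W' W'' : X.Opens) (h : W' ≤ W) (h' : W'' ≤ W'), good W' ∨ res M h s = 0 →
        res N h' (sec W' h) = sec W'' (h'.trans h) := fun W' W'' h h' e => by
      rcases e with g | e
      · simp only [sec, dif_pos g, dif_pos (hgood h' g)]
        rw [← nat, res_res]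
      · rw [z W' h e, z W'' _ (by rw [← res_res h' h, e, map_zero]), map_zero]
    obtain ⟨t, ht⟩ := glue (M := N) (U := W)
      (fun i : {W' : X.Opens // ∃ h : W' ≤ W, good W' ∨ res M h s = 0} => i.1)
      (fun i => i.2.1) (fun x hx => by
        obtain ⟨W', h, hx', e⟩ := cov W s x hx
        exact Opens.mem_iSup.2 ⟨⟨W', h, e⟩, hx'⟩)
      (fun i => sec i.1 i.2.1) (fun i j => (c _ _ _ _ i.2.2).trans (c _ _ _ _ j.2.2).symm)
    exact ⟨t, fun W' h => ⟨fun g => (ht ⟨W', h, .inl g⟩).trans (dif_pos g),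
      fun e => (ht ⟨W', h, .inr e⟩).trans (z W' h e)⟩⟩
  choose F hF using ex
  refine ⟨mkHom (fun W =>
    { toFun := F W
      map_add' := fun a b => sep fun x hx => ?_
      map_smul' := fun r a => sep fun x hx => ?_ }) fun U W h s => sep fun x hx => ?_,
    fun W h s => ?_⟩
  · obtain ⟨W₁, h₁, x₁, e₁⟩ := cov W a x hx
    obtain ⟨W₂, h₂, x₂, e₂⟩ := cov W b x hx
    refine ⟨W₁ ⊓ W₂, inf_le_left.trans h₁, ⟨x₁, x₂⟩, ?_⟩
    by_cases g : good (W₁ ⊓ W₂)
    · rw [map_add, (hF W a _ _).1 g, (hF W b _ _).1 g, (hF W _ _ _).1 g, map_add, map_add]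
    · have a0 : res M (inf_le_left.trans h₁ : W₁ ⊓ W₂ ≤ W) a = 0 := by
        rw [← res_res inf_le_left h₁, e₁.resolve_left fun g' => g (hgood inf_le_left g'), map_zero]
      have b0 : res M (inf_le_left.trans h₁ : W₁ ⊓ W₂ ≤ W) b = 0 := by
        rw [← res_res inf_le_right h₂, e₂.resolve_left fun g' => g (hgood inf_le_right g'),
          map_zero]
      rw [map_add, (hF W a _ _).2 a0, (hF W b _ _).2 b0,
        (hF W _ _ _).2 (by rw [map_add, a0, b0, add_zero]), add_zero]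
  · obtain ⟨W₁, h₁, x₁, g | e⟩ := cov W a x hx
    · refine ⟨W₁, h₁, x₁, ?_⟩
      rw [RingHom.id_apply, res_smul, (hF W a _ _).1 g, (hF W _ _ _).1 g, res_smul, map_smul]
    · refine ⟨W₁, h₁, x₁, ?_⟩
      rw [RingHom.id_apply, res_smul, (hF W a _ _).2 e,
        (hF W _ _ _).2 (by rw [res_smul, e, smul_zero]), smul_zero]
  · obtain ⟨W₁, h₁, x₁, e⟩ := cov U (res M h s) x hx
    refine ⟨W₁, h₁, x₁, ?_⟩
    change res N h₁ (F U (res M h s)) = res N h₁ (res N h (F W s))
    rcases e with g | e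
    · rw [(hF U _ _ _).1 g, res_res, res_res, (hF W _ _ _).1 g]
    · rw [(hF U _ _ _).2 e, res_res, (hF W _ _ _).2 (by rw [← res_res h₁ h, e])]
  · have := (hF W s W le_rfl).1 h
    rwa [res_self, res_self] at this

instance isIso_suppι_top (M : X.Modules) : IsIso (suppι M ⊤) :=
  (isIso_iff _).2 fun _ => suppι_bijective le_top

theorem isIso_suppι_of_mono (φ : N ⟶ supp M V) [Mono φ] : IsIso (suppι N V) := by
  refine (isIso_iff _).2 fun U => ⟨gsupp_inj N V U, fun s =>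
    ⟨(suppData N V).mkSec s fun x hx hx' => ?_, rfl⟩⟩
  obtain ⟨W', h, hW', e⟩ := gsupp_zero (φ.app U s) hx hx'
  refine ⟨W', h, hW', (mono_iff φ).1 inferInstance W' ?_⟩
  rw [app_res, e, map_zero]

theorem supp_hom_ext {φ ψ : supp M V ⟶ N}
    (h : ∀ (W : X.Opens), W ≤ V → ∀ s : Γ(supp M V, W), φ.app W s = ψ.app W s) : φ = ψ := by
  refine hom_ext' fun U s => sep fun x hx => ?_
  by_cases hV : x ∈ V
  · refine ⟨U ⊓ V, inf_le_left, ⟨hx, hV⟩, ?_⟩
    rw [← app_res, ← app_res, h _ inf_le_right]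
  · obtain ⟨W', h', hW', e⟩ := gsupp_zero s hx hV
    refine ⟨W', h', hW', ?_⟩
    rw [← app_res, ← app_res, e, map_zero, map_zero]

theorem exists_supp_hom (φ : ∀ W : X.Opens, W ≤ V → (Γ(M, W) →ₗ[Γ(X, W)] Γ(N, W)))
    (nat : ∀ (W W' : X.Opens) (h : W ≤ W') (h' : W' ≤ V) (s : Γ(M, W')),
      φ W (h.trans h') (res M h s) = res N h (φ W' h' s)) :
    ∃ Φ : supp M V ⟶ N, ∀ (W : X.Opens) (h : W ≤ V) (s : Γ(supp M V, W)),
      Φ.app W s = φ W h ((suppι M V).app W s) := by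
  refine gsupp_glue (M := supp M V) (fun W => W ≤ V) (fun h h' => h.trans h')
    (fun W h => (φ W h).comp (appL (suppι M V) W)) (fun W W' h h' s => ?_) fun W s x hx => ?_
  · rw [LinearMap.comp_apply, LinearMap.comp_apply, appL_apply, appL_apply, app_res, nat]
  · by_cases hV : x ∈ V
    · exact ⟨W ⊓ V, inf_le_left, ⟨hx, hV⟩, .inl inf_le_right⟩
    · obtain ⟨W', h', hW', e⟩ := gsupp_zero s hx hV
      exact ⟨W', h', hW', .inr e⟩

theorem gsupp_total (s : Γ(M ⊞ N, U)) :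
    (biprod.inl : M ⟶ M ⊞ N).app U ((biprod.fst : M ⊞ N ⟶ M).app U s) +
      (biprod.inr : N ⟶ M ⊞ N).app U ((biprod.snd : M ⊞ N ⟶ N).app U s) = s := by
  rw [← comp_app_apply, ← comp_app_apply, ← add_app_apply, biprod.total]
  rfl

theorem mv_shortExact (M : X.Modules) (V W : X.Opens) :
    (ShortComplex.mk
      (biprod.lift (suppLE M (inf_le_left : V ⊓ W ≤ V)) (-suppLE M (inf_le_right : V ⊓ W ≤ W)))
      (biprod.desc (suppLE M (le_sup_left : V ≤ V ⊔ W)) (suppLE M (le_sup_right : W ≤ V ⊔ W)))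
      (by simp)).ShortExact := by
  refine ShortComplex.ShortExact.mk' ((exact_iff _).2 fun U s hs x hx => ?_) ?_
    ((epi_iff _).2 fun U s x hx => ?_)
  · dsimp only at s hs ⊢
    set a := (biprod.fst : supp M V ⊞ supp M W ⟶ _).app U s with ha
    set b := (biprod.snd : supp M V ⊞ supp M W ⟶ _).app U s with hb
    have h1 : (suppι M V).app U a + (suppι M W).app U b = 0 := by
      rw [← gsupp_total s, map_add, ← comp_app_apply, ← comp_app_apply biprod.inr,
        biprod.inl_desc, biprod.inr_desc] at hs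
      have h2 := congrArg ((suppι M (V ⊔ W)).app U) hs
      rwa [map_add, map_zero] at h2
    have h2 : (suppι M V).app U a ∈ (suppData M (V ⊓ W)).sub U := fun y hy hy' => by
      by_cases hV : y ∈ V
      · obtain ⟨W', h', hW', e⟩ := (suppData M W).ι_mem b y hy fun hW => hy' ⟨hV, hW⟩
        refine ⟨W', h', hW', ?_⟩
        rw [eq_neg_of_add_eq_zero_left h1, map_neg, neg_eq_zero]
        exact e
      · exact (suppData M V).ι_mem a y hy hV
    obtain ⟨t, ht⟩ : ∃ t : Γ(supp M (V ⊓ W), U), (suppι M (V ⊓ W)).app U t = (suppι M V).app U a :=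
      ⟨(suppData M (V ⊓ W)).mkSec _ h2, rfl⟩
    refine ⟨U, le_rfl, hx, t, ?_⟩
    rw [res_self, ← gsupp_total s, ← gsupp_total (Scheme.Modules.Hom.app (biprod.lift _ _) U _),
      ← comp_app_apply _ biprod.fst, ← comp_app_apply _ biprod.snd, biprod.lift_fst,
      biprod.lift_snd]
    congr 2
    · exact gsupp_inj M V U ht
    · refine gsupp_inj M W U ?_
      change -(suppι M (V ⊓ W)).app U t = _
      rw [ht]
      exact (eq_neg_of_add_eq_zero_right h1).symm
  · have : Mono (suppLE M (inf_le_left : V ⊓ W ≤ V)) := mono_of_mono_fac (suppLE_ι _)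
    exact mono_of_mono_fac (biprod.lift_fst _ _)
  · dsimp only at s ⊢
    by_cases hV : x ∈ V
    · obtain ⟨t, ht⟩ := (suppι_bijective (M := M) (inf_le_right : U ⊓ V ≤ V)).2
        (res M inf_le_left ((suppι M (V ⊔ W)).app U s))
      refine ⟨U ⊓ V, inf_le_left, ⟨hx, hV⟩, (biprod.inl : _ ⟶ supp M V ⊞ supp M W).app _ t,
        gsupp_inj M _ _ ?_⟩
      rw [← comp_app_apply biprod.inl, biprod.inl_desc, gsupp_LE, ht, app_res]
    by_cases hW : x ∈ W
    · obtain ⟨t, ht⟩ := (suppι_bijective (M := M) (inf_le_right : U ⊓ W ≤ W)).2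
        (res M inf_le_left ((suppι M (V ⊔ W)).app U s))
      refine ⟨U ⊓ W, inf_le_left, ⟨hx, hW⟩, (biprod.inr : _ ⟶ supp M V ⊞ supp M W).app _ t,
        gsupp_inj M _ _ ?_⟩
      rw [← comp_app_apply biprod.inr, biprod.inr_desc, gsupp_LE, ht, app_res]
    obtain ⟨W', h', hW', e⟩ := gsupp_zero s hx fun h => (Opens.mem_sup.1 h).elim hV hW
    exact ⟨W', h', hW', 0, by rw [e, map_zero]⟩

theorem isGen_one (V : X.Opens) : IsGen (OX X) V (1 : Γ(X, V)) := by
  intro W h
  have e : (fun r : Γ(X, W) => (r • res (OX X) h (1 : Γ(X, V)) : Γ(OX X, W))) = id := by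
    funext r
    change r * resO X h 1 = r
    rw [map_one, mul_one]
  rw [e]
  exact Function.bijective_id

theorem IsGen.res {g : Γ(M, V)} (hg : IsGen M V g) (h : W ≤ V) : IsGen M W (res M h g) := by
  intro W' h'
  rw [res_res]
  exact hg W' (h'.trans h)

theorem gsupp_gen {g : Γ(M, V)} (hg : IsGen M V g) (s : Γ(N, V)) :
    ∃ φ : ∀ W : X.Opens, W ≤ V → (Γ(M, W) →ₗ[Γ(X, W)] Γ(N, W)),
      ∀ (W : X.Opens) (h : W ≤ V), φ W h (res M h g) = res N h s := by
  refine ⟨fun W h => (LinearMap.toSpanSingleton _ _ (res N h s)).comp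
    (LinearEquiv.ofBijective (LinearMap.toSpanSingleton _ _ (res M h g))
      (hg W h)).symm.toLinearMap, fun W h => ?_⟩
  have e : (LinearEquiv.ofBijective (LinearMap.toSpanSingleton Γ(X, W) _ (res M h g))
      (hg W h)).symm (res M h g) = 1 := by
    rw [LinearEquiv.symm_apply_eq]
    exact (one_smul _ _).symm
  rw [LinearMap.comp_apply, LinearEquiv.coe_coe, e]
  exact one_smul _ _

theorem gsupp_nat {g : Γ(M, V)} (hg : IsGen M V g) {s : Γ(N, V)} (h : U ≤ W) (h' : W ≤ V)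
    {φ : Γ(M, U) →ₗ[Γ(X, U)] Γ(N, U)} {ψ : Γ(M, W) →ₗ[Γ(X, W)] Γ(N, W)}
    (hφ : φ (res M (h.trans h') g) = res N (h.trans h') s) (hψ : ψ (res M h' g) = res N h' s)
    (t : Γ(M, W)) : φ (res M h t) = res N h (ψ t) := by
  obtain ⟨r, rfl⟩ := (hg W h').2 t
  simp only [res_smul, map_smul, res_res, hφ, hψ]

theorem IsGen.hom_bijective {g : Γ(M, V)} (hg : IsGen M V g) (N : X.Modules) :
    Function.Bijective fun φ : supp M V ⟶ N => φ.app V (suppSec g) := by
  refine ⟨fun φ ψ h => supp_hom_ext fun W hW s => ?_, fun s => ?_⟩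
  · obtain ⟨r, hr⟩ := (hg W hW).2 ((suppι M V).app W s)
    have e : s = r • Pool.Agent.Work.MP_910138_ag.res (supp M V) hW (suppSec g) :=
      gsupp_inj M V W hr.symm
    have h' : φ.app V (suppSec g) = ψ.app V (suppSec g) := h
    rw [e, ← appL_apply, ← appL_apply, map_smul, map_smul, appL_apply, appL_apply, app_res,
      app_res, h']
  · obtain ⟨φ, hφ⟩ := gsupp_gen hg s
    obtain ⟨Φ, hΦ⟩ := exists_supp_hom φ fun W W' h h' t => gsupp_nat hg h h' (hφ _ _) (hφ _ _) t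
    refine ⟨Φ, (hΦ V le_rfl _).trans ?_⟩
    have := hφ V le_rfl
    rwa [res_self, res_self] at this

theorem IsGen.nonempty_iso {g : Γ(M, V)} (hg : IsGen M V g) :
    Nonempty (supp M V ≅ supp (OX X) V) := by
  obtain ⟨φ, hφ⟩ := (hg.hom_bijective (supp (OX X) V)).2 (suppSec (M := OX X) (1 : Γ(X, V)))
  obtain ⟨ψ, hψ⟩ := ((isGen_one V).hom_bijective (supp M V)).2 (suppSec g)
  dsimp only at hφ hψ
  refine ⟨⟨φ, ψ, (hg.hom_bijective _).1 ?_, ((isGen_one V).hom_bijective _).1 ?_⟩⟩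
  · exact (congrArg (ψ.app V) hφ).trans hψ
  · exact (congrArg (φ.app V) hψ).trans hφ

/-- gluing of morphisms out of a sheaf that is generated by `g i` on `V i` -/
theorem exists_hom_of_isGen {ι : Type} (V : ι → X.Opens) (hV : iSup V = ⊤) (g : ∀ i, Γ(M, V i))
    (hg : ∀ i, IsGen M (V i) (g i)) (s : ∀ i, Γ(N, V i))
    (hs : ∀ i j (r : Γ(X, V i ⊓ V j)),
      res M inf_le_left (g i) = r • res M inf_le_right (g j) →
      res N inf_le_left (s i) = r • res N inf_le_right (s j)) :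
    ∃ φ : M ⟶ N, ∀ i, φ.app (V i) (g i) = s i := by
  choose φ hφ using fun i => gsupp_gen (hg i) (s i)
  have key : ∀ i j (W : X.Opens) (hi : W ≤ V i) (hj : W ≤ V j),
      φ j W hj (res M hi (g i)) = res N hi (s i) := fun i j W hi hj => by
    obtain ⟨r, hr⟩ := (hg j (V i ⊓ V j) inf_le_right).2 (res M inf_le_left (g i))
    have h1 := congrArg (res M (le_inf hi hj)) hr
    have h2 := congrArg (res N (le_inf hi hj)) (hs i j r hr.symm)
    simp only [res_smul, res_res] at h1 h2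
    rw [h2, ← h1, map_smul, hφ]
  obtain ⟨Φ, hΦ⟩ := gsupp_glue (M := M) (N := N) (fun W => ∃ i, W ≤ V i)
    (fun h ⟨i, h'⟩ => ⟨i, h.trans h'⟩) (fun W h => φ h.choose W h.choose_spec)
    (fun W W' h h' t => gsupp_nat (hg h'.choose) h h'.choose_spec (key _ _ _ _ _) (hφ _ _ _) t)
    fun W t x hx => by
      obtain ⟨i, hi⟩ := Opens.mem_iSup.1 (show x ∈ iSup V from hV ▸ trivial)
      exact ⟨W ⊓ V i, inf_le_left, ⟨hx, hi⟩, .inl ⟨i, inf_le_right⟩⟩
  refine ⟨Φ, fun i => (hΦ (V i) ⟨i, le_rfl⟩ _).trans ?_⟩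
  have := key i _ (V i) le_rfl (Exists.choose_spec (⟨i, le_rfl⟩ : ∃ j, V i ≤ V j))
  rwa [res_self, res_self] at this

end Pool.Agent.Work.MP_910138_ag
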