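import Mathlib
import Pool.Agent.Work.MP_910138_ag.GBase2
import Pool.Agent.Work.MP_910138_ag.GSupp
import Pool.Agent.Work.MP_910138_ag.GRes

-- merged part: Pool.Agent.Work.MP_910138_ag.TLatDef
section
/-! Combinatorial data of a smooth projective toric variety whose fan has the combinatorial type of
a product of projective lines. The rays are indexed by `κ × Bool`. -/

namespace Pool.Agent.Work.MP_910138_ag

variable {κ : Type}

/-- characters, recorded by their values on the rays -/
abbrev Wt (κ : Type) : Type := κ × Bool → ℤ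

/-- Laurent polynomials -/
abbrev Lam (κ : Type) : Type := AddMonoidAlgebra (ZMod 2) (Wt κ)

/-- cones: for each `k` at most one of the rays `(k, false)`, `(k, true)` -/
abbrev Cone (κ : Type) : Type := κ → Option Bool

/-- the maximal cone attached to `v` -/
def vtx (v : κ → Bool) : Cone κ := fun k => some (v k)

/-- the zero cone -/
def tor (κ : Type) : Cone κ := fun _ => none

/-- the monomial -/
noncomputable def mon (e : Wt κ) : Lam κ := AddMonoidAlgebra.single e 1

/-- the weight `e` is allowed on the cone `τ` for the divisor `n` -/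
def Allowed (n : Wt κ) (τ : Cone κ) (e : Wt κ) : Prop :=
  ∀ a : κ × Bool, τ a.1 = some a.2 → 0 ≤ e a + n a

/-- sections of `O(n)` on the chart `τ` -/
def InSpan (Lat : AddSubgroup (Wt κ)) (n : Wt κ) (τ : Cone κ) (l : Lam κ) : Prop :=
  ∀ e ∈ l.coeff.support, e ∈ Lat ∧ Allowed n τ e

/-- the weights that can contribute to the cohomology of `O(n)` -/
def Good (Lat : AddSubgroup (Wt κ)) (n : Wt κ) : Set (Wt κ) :=
  {e | e ∈ Lat ∧ ∀ k, (0 ≤ e (k, false) + n (k, false) ↔ 0 ≤ e (k, true) + n (k, true))}

/-- the lattice of characters and an ample divisor -/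
structure LatData (κ : Type) where
  Lat : AddSubgroup (Wt κ)
  vert : ∀ (v : κ → Bool) (c : κ → ℤ), ∃! e : Wt κ, e ∈ Lat ∧ ∀ k, e (k, v k) = c k
  amp : Wt κ
  strict : ∀ (v : κ → Bool) (e : Wt κ), e ∈ Lat → (∀ k, e (k, v k) + amp (k, v k) = 0) →
    ∀ k, 0 < e (k, !v k) + amp (k, !v k)
  fin_good : ∀ n, (Good Lat n).Finite
  idp : ∀ (d : ℕ) (e : Wt κ), e ∈ Lat → (∀ a, 0 ≤ e a + (d + 1) * amp a) →
    ∃ p ∈ Lat, (∀ a, 0 ≤ p a + amp a) ∧ ∀ a, 0 ≤ e a - p a + d * amp a
  deg0 : ∀ e ∈ Lat, (∀ a, 0 ≤ e a) → e = 0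
  nb : ∀ (d : ℕ) (e : Wt κ), 0 < d → e ∈ Lat → (∀ a, 0 ≤ e a + d * amp a) → ∀ k,
    0 < e (k, false) + d * amp (k, false) ∨ 0 < e (k, true) + d * amp (k, true)

/-- the vertex of the divisor `n` at the maximal cone `v` -/
noncomputable def LatData.u (D : LatData κ) (n : Wt κ) (v : κ → Bool) : Wt κ :=
  (D.vert v fun k => -n (k, v k)).exists.choose

theorem LatData.u_mem (D : LatData κ) (n : Wt κ) (v : κ → Bool) : D.u n v ∈ D.Lat :=
  (D.vert v fun k => -n (k, v k)).exists.choose_spec.1

theorem LatData.u_apply (D : LatData κ) (n : Wt κ) (v : κ → Bool) (k : κ) :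
    D.u n v (k, v k) = -n (k, v k) :=
  (D.vert v fun k => -n (k, v k)).exists.choose_spec.2 k

theorem LatData.eq_of_vert (D : LatData κ) (v : κ → Bool) {e e' : Wt κ} (he : e ∈ D.Lat)
    (he' : e' ∈ D.Lat) (h : ∀ k, e (k, v k) = e' (k, v k)) : e = e' :=
  (D.vert v fun k => e' (k, v k)).unique ⟨he, h⟩ ⟨he', fun _ => rfl⟩

theorem mon_add (e e' : Wt κ) : mon (e + e') = mon e * mon e' := by
  rw [mon, mon, mon, AddMonoidAlgebra.single_mul_single, one_mul]

theorem mon_zero : mon (0 : Wt κ) = 1 := rfl

theorem mon_ne_zero (e : Wt κ) : mon e ≠ 0 := by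
  rw [mon, Ne, AddMonoidAlgebra.single_eq_zero]
  exact one_ne_zero

theorem support_mon (e : Wt κ) : (mon e).coeff.support = {e} := by
  rw [mon, AddMonoidAlgebra.coeff_single, Finsupp.support_single _ one_ne_zero]

theorem inSpan_mon {Lat : AddSubgroup (Wt κ)} {n e : Wt κ} {τ : Cone κ} :
    InSpan Lat n τ (mon e) ↔ e ∈ Lat ∧ Allowed n τ e := by
  rw [InSpan, support_mon]
  simp

theorem mem_support_mon_mul {u e : Wt κ} {l : Lam κ} :
    e ∈ (mon u * l).coeff.support ↔ e - u ∈ l.coeff.support := by
  rw [Finsupp.mem_support_iff, Finsupp.mem_support_iff, mon,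
    AddMonoidAlgebra.coeff_single_mul_apply, one_mul, neg_add_eq_sub]

variable [Fintype κ] [DecidableEq κ]

/-- the number of missing rays -/
def nB (τ : Cone κ) : ℕ := (Finset.univ.filter fun k => τ k = none).card

/-- the Čech differential on cochains -/
def cob {A : Type} [AddCommGroup A] (c : Cone κ → A) (τ : Cone κ) : A :=
  ∑ a : κ × Bool, if τ a.1 = none then c (Function.update τ a.1 (some a.2)) else 0

/-- the Čech differential on chains -/
def bnd {A : Type} [AddCommGroup A] (c : Cone κ → A) (τ : Cone κ) : A :=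
  ∑ k : κ, if τ k = none then 0 else c (Function.update τ k none)

/-- `c` is concentrated in degree `i` -/
def Deg {A : Type} [AddCommGroup A] (i : ℕ) (c : Cone κ → A) : Prop := ∀ τ, nB τ ≠ i → c τ = 0

end Pool.Agent.Work.MP_910138_ag
end

-- merged part: Pool.Agent.Work.MP_910138_ag.TData
section
/-! Toric charts on a scheme. -/

open CategoryTheory Limits AlgebraicGeometry TopologicalSpace Opposite

namespace Pool.Agent.Work.MP_910138_ag

variable {X : Scheme.{0}} {κ : Type} [Fintype κ]

/-- the factor of a chart -/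
def cell (V : κ → Bool → X.Opens) (k : κ) : Option Bool → X.Opens
  | some b => V k b
  | none => V k false ⊓ V k true

/-- the chart attached to a cone -/
def chart (V : κ → Bool → X.Opens) (τ : Cone κ) : X.Opens :=
  Finset.univ.inf fun k => cell V k (τ k)

theorem le_cell {V : κ → Bool → X.Opens} {k : κ} {t : Option Bool} {W : X.Opens} :
    W ≤ cell V k t ↔ ∀ b, t = none ∨ t = some b → W ≤ V k b := by
  rcases t with _ | b
  · simp [cell]
  · simp [cell]

theorem le_chart {V : κ → Bool → X.Opens} {τ : Cone κ} {W : X.Opens} :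
    W ≤ chart V τ ↔ ∀ k b, τ k = none ∨ τ k = some b → W ≤ V k b := by
  simp only [chart, Finset.le_inf_iff, Finset.mem_univ, forall_const, le_cell]

theorem mem_chart {V : κ → Bool → X.Opens} {τ : Cone κ} {x : X} :
    x ∈ chart V τ ↔ ∀ k b, τ k = none ∨ τ k = some b → x ∈ V k b := by
  refine ⟨fun h k b hk => le_chart.1 le_rfl k b hk h, fun h => ?_⟩
  have : ∀ s : Finset κ, x ∈ s.inf fun k => cell V k (τ k) := by
    classical
    intro s
    induction s using Finset.induction_on with
    | empty => trivial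
    | insert k s _ ih =>
      rw [Finset.inf_insert]
      refine ⟨?_, ih⟩
      rcases hk : τ k with _ | b
      · exact ⟨h k false (Or.inl hk), h k true (Or.inl hk)⟩
      · exact h k b (Or.inr hk)
  exact this _

theorem chart_mono {V : κ → Bool → X.Opens} {τ τ' : Cone κ}
    (h : ∀ k, τ k = none ∨ τ k = τ' k) : chart V τ ≤ chart V τ' :=
  le_chart.2 fun k b hk => le_chart.1 le_rfl k b (by
    rcases h k with h | h
    · exact Or.inl h
    · rwa [h])

theorem tor_le (V : κ → Bool → X.Opens) (τ : Cone κ) : chart V (tor κ) ≤ chart V τ :=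
  chart_mono fun _ => Or.inl rfl

theorem chart_le_update [DecidableEq κ] (V : κ → Bool → X.Opens) {τ : Cone κ} {k : κ}
    (h : τ k = none) (b : Bool) : chart V τ ≤ chart V (Function.update τ k (some b)) :=
  chart_mono fun j => by
    by_cases hj : j = k
    · exact Or.inl (hj ▸ h)
    · exact Or.inr (Function.update_of_ne hj _ _).symm

open Classical in
/-- the intersection of two cones -/
noncomputable def meet (τ τ' : Cone κ) : Cone κ := fun k => if τ k = τ' k then τ k else none

theorem chart_inf (V : κ → Bool → X.Opens) (τ τ' : Cone κ) :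
    chart V τ ⊓ chart V τ' = chart V (meet τ τ') := by
  refine le_antisymm (le_chart.2 fun k b hk => ?_) (le_inf (chart_mono fun k => ?_)
    (chart_mono fun k => ?_))
  · by_cases h : τ k = τ' k
    · rw [meet, if_pos h] at hk
      exact inf_le_left.trans (le_chart.1 le_rfl k b hk)
    · by_cases h1 : τ k = none ∨ τ k = some b
      · exact inf_le_left.trans (le_chart.1 le_rfl k b h1)
      · refine inf_le_right.trans (le_chart.1 le_rfl k b ?_)
        revert h h1
        rcases τ k with _ | _ | _ <;> rcases τ' k with _ | _ | _ <;> cases b <;> simp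
  · by_cases h : τ k = τ' k
    · exact Or.inr (if_pos h)
    · exact Or.inl (if_neg h)
  · by_cases h : τ k = τ' k
    · exact Or.inr ((if_pos h).trans h)
    · exact Or.inl (if_neg h)

theorem exists_mem_chart_vtx {V : κ → Bool → X.Opens} (cover : ∀ k, V k false ⊔ V k true = ⊤)
    (x : X) : ∃ v, x ∈ chart V (vtx v) := by
  have : ∀ k, ∃ b, x ∈ V k b := fun k => by
    have hx : x ∈ V k false ⊔ V k true := by
      rw [cover k]
      trivial
    rcases hx with h | h
    · exact ⟨_, h⟩
    · exact ⟨_, h⟩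
  choose v hv using this
  refine ⟨v, mem_chart.2 fun k b hk => ?_⟩
  rcases hk with hk | hk
  · exact absurd hk (Option.some_ne_none _)
  · exact Option.some_injective _ hk ▸ hv k

theorem iSup_chart_vtx {V : κ → Bool → X.Opens} (cover : ∀ k, V k false ⊔ V k true = ⊤) :
    (iSup fun v : κ → Bool => chart V (vtx v)) = ⊤ :=
  top_le_iff.1 fun x _ => Opens.mem_iSup.2 (exists_mem_chart_vtx cover x)

/-- a toric structure on a scheme -/
structure ToricData (D : LatData κ) (X : Scheme.{0}) where
  V : κ → Bool → X.Opens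
  cover : ∀ k, V k false ⊔ V k true = ⊤
  affine : ∀ τ, IsAffineOpen (chart V τ)
  ev : ∀ τ, Γ(X, chart V τ) →+* Lam κ
  ev_res : ∀ τ τ' (h : chart V τ ≤ chart V τ') (s : Γ(X, chart V τ')),
    ev τ (resO X h s) = ev τ' s
  ev_inj : ∀ τ, Function.Injective (ev τ)
  ev_range : ∀ τ (l : Lam κ), (∃ s, ev τ s = l) ↔ InSpan D.Lat 0 τ l
  basic : ∀ τ (f : Γ(X, chart V τ)) (e : Wt κ) (k : κ) (b : Bool), ev τ f = mon e →
    τ k = some b → 0 < e (k, b) → X.basicOpen f ≤ V k (!b)

variable {D : LatData κ} (T : ToricData D X)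

/-- the charts -/
abbrev ToricData.U (τ : Cone κ) : X.Opens := chart T.V τ

/-- the open torus -/
abbrev ToricData.torus : X.Opens := chart T.V (tor κ)

open Classical in
/-- the function on a chart given by a character (zero if the character is not regular there) -/
noncomputable def ToricData.chi (τ : Cone κ) (e : Wt κ) : Γ(X, T.U τ) :=
  if h : ∃ s, T.ev τ s = mon e then h.choose else 0

theorem ToricData.ev_chi {τ : Cone κ} {e : Wt κ} (he : e ∈ D.Lat) (h : Allowed 0 τ e) :
    T.ev τ (T.chi τ e) = mon e := by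
  have h' : ∃ s, T.ev τ s = mon e := (T.ev_range τ _).2 (inSpan_mon.2 ⟨he, h⟩)
  rw [ToricData.chi, dif_pos h']
  exact h'.choose_spec

theorem allowed_tor (n e : Wt κ) : Allowed n (tor κ) e := fun _ h =>
  absurd h.symm (Option.some_ne_none _)

end Pool.Agent.Work.MP_910138_ag
end

-- merged part: Pool.Agent.Work.MP_910138_ag.TRing
section
/-! The coordinate rings of the toric charts. -/

open CategoryTheory Limits AlgebraicGeometry TopologicalSpace Opposite Abelian

namespace Pool.Agent.Work.MP_910138_ag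

variable {X : Scheme.{0}} {κ : Type} [Fintype κ] {D : LatData κ} (T : ToricData D X)

open Classical in
/-- the face of `τ` on which `e` vanishes -/
noncomputable def face (τ : Cone κ) (e : Wt κ) : Cone κ := fun k =>
  if ∃ b, τ k = some b ∧ 0 < e (k, b) then none else τ k

omit [Fintype κ] in
theorem tring_face {τ : Cone κ} {e : Wt κ} {k : κ} {b : Bool} :
    face τ e k = some b ↔ τ k = some b ∧ e (k, b) ≤ 0 := by
  unfold face
  split_ifs with h
  · obtain ⟨b', h1, h2⟩ := h
    refine ⟨False.elim, fun h => ?_⟩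
    obtain rfl : b' = b := Option.some_injective _ (h1.symm.trans h.1)
    exact absurd h.2 h2.not_ge
  · exact ⟨fun h1 => ⟨h1, not_lt.1 fun h2 => h ⟨b, h1, h2⟩⟩, fun h => h.1⟩

theorem ToricData.basicOpen_mon {τ : Cone κ} {e : Wt κ} (f : Γ(X, T.U τ)) (hf : T.ev τ f = mon e) :
    X.basicOpen f = T.U (face τ e) := by
  obtain ⟨h1, -⟩ := inSpan_mon.1 ((T.ev_range τ _).1 ⟨f, hf⟩)
  have hle : T.U (face τ e) ≤ T.U τ := chart_mono fun k => by
    unfold face
    split_ifs
    exacts [Or.inl rfl, Or.inr rfl]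
  refine le_antisymm (le_chart.2 fun k b hk => ?_) ?_
  · by_cases h : τ k = none ∨ τ k = some b
    · exact (X.basicOpen_le f).trans (le_chart.1 le_rfl k b h)
    · have h3 : τ k = some !b := by
        revert h
        rcases τ k with _ | _ | _ <;> cases b <;> simp
      have h4 : 0 < e (k, !b) := not_le.1 fun h4 => by
        rw [tring_face.2 ⟨h3, h4⟩] at hk
        revert hk
        cases b <;> simp
      simpa using T.basic τ f e k (!b) hf h3 h4
  · have h3 : Allowed 0 (face τ e) (-e) := fun a ha => by simpa using (tring_face.1 ha).2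
    have h4 : resO X hle f * T.chi (face τ e) (-e) = 1 := T.ev_inj _ (by
      rw [map_mul, T.ev_res, hf, T.ev_chi (neg_mem h1) h3, ← mon_add, add_neg_cancel, mon_zero,
        map_one])
    have h5 := X.basicOpen_of_isUnit (IsUnit.of_mul_eq_one _ h4)
    exact h5.ge.trans ((X.basicOpen_res f (homOfLE hle).op).trans_le inf_le_right)

theorem ToricData.exists_basicOpen {τ τ' : Cone κ} (h : ∀ k, τ k = none ∨ τ k = τ' k) :
    ∃ f : Γ(X, T.U τ'), X.basicOpen f = T.U τ := by
  obtain ⟨e, ⟨h1, h2⟩, -⟩ := D.vert (fun k => (τ' k).getD false)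
    fun k => if τ k = none then 1 else 0
  have h3 : ∀ k b, τ' k = some b → e (k, b) = if τ k = none then 1 else 0 := fun k b hk => by
    rw [← h2 k, hk, Option.getD_some]
  refine ⟨T.chi τ' e, (T.basicOpen_mon _ (T.ev_chi h1 fun a ha => ?_)).trans ?_⟩
  · rw [h3 a.1 a.2 ha]
    split_ifs <;> simp
  · congr 1
    refine funext fun k => Option.ext fun b => tring_face.trans ⟨fun ⟨h4, h5⟩ => ?_, fun h4 => ?_⟩
    · rw [h3 k b h4] at h5
      exact ((h k).resolve_left fun h6 => by simp [h6] at h5).trans h4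
    · have h5 : τ k ≠ none := by simp [h4]
      have h6 := ((h k).resolve_left h5).symm.trans h4
      exact ⟨h6, by rw [h3 k b h6, if_neg h5]⟩

theorem ToricData.nonempty_ringEquiv (v : κ → Bool) :
    Nonempty (Γ(X, T.U (vtx v)) ≃+* MvPolynomial κ (ZMod 2)) := by
  classical
  choose g hg1 hg2 using fun c : κ →₀ ℕ => (D.vert v fun k => (c k : ℤ)).exists
  let φ : (κ →₀ ℕ) →+ Wt κ :=
    { toFun := g
      map_zero' := D.eq_of_vert v (hg1 _) (zero_mem _) fun k => by simp [hg2]
      map_add' := fun c c' => D.eq_of_vert v (hg1 _) (add_mem (hg1 _) (hg1 _)) fun k => by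
        simp [hg2] }
  have hφ : Function.Injective φ := fun c c' h => Finsupp.ext fun k => by
    have : g c (k, v k) = g c' (k, v k) := congrFun h _
    rw [hg2, hg2] at this
    exact_mod_cast this
  have hr : ∀ e, e ∈ Set.range φ ↔ e ∈ D.Lat ∧ Allowed 0 (vtx v) e := fun e => by
    constructor
    · rintro ⟨c, rfl⟩
      refine ⟨hg1 c, fun ⟨k, b⟩ ha => ?_⟩
      obtain rfl : v k = b := Option.some_injective _ ha
      change 0 ≤ g c _ + 0
      rw [hg2, add_zero]
      exact Int.natCast_nonneg _
    · rintro ⟨h1, h2⟩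
      refine ⟨Finsupp.equivFunOnFinite.symm fun k => (e (k, v k)).toNat,
        D.eq_of_vert v (hg1 _) h1 fun k => (hg2 _ k).trans ?_⟩
      exact Int.toNat_of_nonneg (by simpa using h2 (k, v k) rfl)
  let Φ : MvPolynomial κ (ZMod 2) →+* Lam κ := AddMonoidAlgebra.mapDomainRingHom (ZMod 2) φ
  have hΦ : Function.Injective Φ := AddMonoidAlgebra.mapDomain_injective hφ
  have hrange : (T.ev (vtx v)).range = Φ.range := by
    ext l
    refine (T.ev_range _ l).trans ⟨fun h => ⟨_, AddMonoidAlgebra.mapDomain_comapDomain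
      (fun e he => (hr e).2 (h e he)) hφ⟩, ?_⟩
    rintro ⟨p, rfl⟩ e he
    obtain ⟨c, -, rfl⟩ := Finset.mem_image.1 (Finsupp.mapDomain_support he)
    exact (hr _).1 ⟨c, rfl⟩
  exact ⟨((RingEquiv.ofBijective _ ⟨fun _ _ h => T.ev_inj _ (congrArg Subtype.val h),
    (T.ev (vtx v)).rangeRestrict_surjective⟩).trans (RingEquiv.subringCongr hrange)).trans
    (RingEquiv.ofBijective _ ⟨fun _ _ h => hΦ (congrArg Subtype.val h),
      Φ.rangeRestrict_surjective⟩).symm⟩

end Pool.Agent.Work.MP_910138_ag
end

-- merged part: Pool.Agent.Work.MP_910138_ag.GHilb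
section
/-! Hilbert's syzygy theorem. -/

open CategoryTheory

namespace Pool.Agent.Work.MP_910138_ag

/-- global dimension at most `d` -/
def GlDimLE (R : Type) [CommRing R] (d : ℕ) : Prop :=
  ∀ M : ModuleCat.{0} R, HasProjectiveDimensionLE M d

open TensorProduct in
theorem ghilb_se {R : Type} (S : Type) [CommRing R] [CommRing S] [Algebra R S] [Module.Flat R S]
    {F M : Type} [AddCommGroup F] [Module R F] [AddCommGroup M] [Module R M] (g : F →ₗ[R] M)
    (sg : Function.Surjective g) :
    (ModuleCat.shortComplexOfCompEqZero (g.ker.subtype.baseChange S) (g.baseChange S)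
        (by rw [← LinearMap.baseChange_comp, LinearMap.comp_ker_subtype,
          LinearMap.baseChange_zero])).ShortExact := by
  have x1 : Function.Exact (g.ker.subtype.baseChange S) (g.baseChange S) :=
    lTensor_exact S g.exact_subtype_ker_map sg
  have x2 : Function.Injective (g.ker.subtype.lTensor S) :=
    Module.Flat.lTensor_preserves_injective_linearMap (M := S) _ g.ker.injective_subtype
  have x3 : Function.Surjective (g.lTensor S) := LinearMap.lTensor_surjective S sg
  exact ModuleCat.shortComplex_shortExact _ x1 x2 x3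

open TensorProduct in
theorem ghilb_base {R : Type} (S : Type) [CommRing R] [CommRing S] [Algebra R S] [Module.Flat R S]
    (n : ℕ) (M : Type) [AddCommGroup M] [Module R M]
    (h : HasProjectiveDimensionLE (ModuleCat.of R M) n) :
    HasProjectiveDimensionLE (ModuleCat.of S (S ⊗[R] M)) n := by
  induction n generalizing M with
  | zero =>
    rw [← projective_iff_hasProjectiveDimensionLE_zero, ← IsProjective.iff_projective] at h ⊢
    infer_instance
  | succ n ih =>
    let g : (M →₀ R) →ₗ[R] M := Finsupp.linearCombination R id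
    have sg : Function.Surjective g := Finsupp.linearCombination_id_surjective R M
    have e1 := LinearMap.shortExact_shortComplexKer sg
    have e2 := ghilb_se S g sg
    exact (e2.hasProjectiveDimensionLT_X₃_iff n
      ((IsProjective.iff_projective (S ⊗[R] (M →₀ R))).1 inferInstance)).2 (ih _
        ((e1.hasProjectiveDimensionLT_X₃_iff n
          ((IsProjective.iff_projective (M →₀ R)).1 inferInstance)).1 h))

theorem GlDimLE.localization {R S : Type} [CommRing R] [CommRing S] [Algebra R S]
    (T : Submonoid R) [IsLocalization T S] {d : ℕ} (h : GlDimLE R d) : GlDimLE S d := by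
  intro N
  let : Module R N := Module.compHom N (algebraMap R S)
  have : IsScalarTower R S N := IsScalarTower.of_algebraMap_smul fun _ _ => rfl
  have := IsLocalization.flat S T
  have := ghilb_base S d N (h _)
  have := isLocalizedModule_id T N S
  exact ModuleCat.hasProjectiveDimensionLE_of_linearEquiv
    (M := ModuleCat.of S (TensorProduct R S N))
    (IsLocalizedModule.isBaseChange T S (LinearMap.id : N →ₗ[R] N)).equiv d

theorem GlDimLE.of_ringEquiv {R S : Type} [CommRing R] [CommRing S] (e : R ≃+* S) {d : ℕ}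
    (h : GlDimLE R d) : GlDimLE S d := by
  let := e.toRingHom.toAlgebra
  have : IsLocalization (⊥ : Submonoid R) S :=
    IsLocalization.of_le_isUnit_of_bijective (by
      rintro _ ⟨x, hx, rfl⟩
      rw [Submonoid.mem_bot.1 hx, map_one]
      exact one_mem _) e.bijective
  exact h.localization ⊥

open TensorProduct Polynomial in
theorem ghilb_inj {R N : Type} [CommRing R] [AddCommGroup N] [Module R N] (μ : N →ₗ[R] N)
    (p : R[X] ⊗[R] N) (h : (X : R[X]) • p = μ.baseChange R[X] p) : p = 0 := by
  let e : R[X] ⊗[R] N ≃ₗ[R] ℕ →₀ N := TensorProduct.equivFinsuppOfBasisLeft (basisMonomials R)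
  have he : ∀ (a : R[X]) (n : N) k, e (a ⊗ₜ n) k = a.coeff k • n := fun a n k =>
    TensorProduct.equivFinsuppOfBasisLeft_apply_tmul_apply _ a n k
  have h1 : ∀ q k, e ((X : R[X]) • q) (k + 1) = e q k := fun q k => by
    induction q with
    | zero => simp
    | tmul a n => rw [smul_tmul', he, he, smul_eq_mul, coeff_X_mul]
    | add a b ha hb => simp only [smul_add, map_add, Finsupp.add_apply, ha, hb]
  have h2 : ∀ q k, e (μ.baseChange R[X] q) k = μ (e q k) := fun q k => by
    induction q with
    | zero => simp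
    | tmul a n => rw [LinearMap.baseChange_tmul, he, he, map_smul]
    | add a b ha hb => simp only [map_add, Finsupp.add_apply, ha, hb]
  by_contra c
  have ne : (e p).support.Nonempty := Finsupp.support_nonempty_iff.2 (e.map_ne_zero_iff.2 c)
  have m := Finsupp.mem_support_iff.1 ((e p).support.max'_mem ne)
  have z : e p ((e p).support.max' ne + 1) = 0 := Finsupp.notMem_support_iff.1 fun a =>
    (Nat.lt_succ_self _).not_ge ((e p).support.le_max' _ a)
  rw [← h1, h, h2, z, map_zero] at m
  exact m rfl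

open TensorProduct Polynomial in
theorem GlDimLE.polynomial {R : Type} [CommRing R] {d : ℕ} (h : GlDimLE R d) :
    GlDimLE (Polynomial R) (d + 1) := by
  intro N
  let : Module R N := Module.compHom N (algebraMap R R[X])
  have : IsScalarTower R R[X] N := IsScalarTower.of_algebraMap_smul fun _ _ => rfl
  have hP := ghilb_base R[X] d N (h _)
  let μ : N →ₗ[R] N := (LinearMap.lsmul R[X] N X).restrictScalars R
  let f : R[X] ⊗[R] N →ₗ[R[X]] R[X] ⊗[R] N := LinearMap.lsmul R[X] _ X - μ.baseChange R[X]
  let g : R[X] ⊗[R] N →ₗ[R[X]] N := (LinearMap.id : N →ₗ[R] N).liftBaseChange R[X]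
  have hf : ∀ (a : R[X]) (n : N), f (a ⊗ₜ n) = (X * a) ⊗ₜ n - a ⊗ₜ ((X : R[X]) • n) :=
    fun a n => rfl
  have hg : ∀ (a : R[X]) (n : N), g (a ⊗ₜ n) = a • n := fun a n => rfl
  have gf : ∀ p, g (f p) = 0 := fun p => by
    induction p with
    | zero => simp
    | tmul a n => rw [hf, map_sub, hg, hg, smul_smul, mul_comm, sub_self]
    | add a b ha hb => rw [map_add, map_add, ha, hb, add_zero]
  have k1 : ∀ (a : R[X]) (n : N), a ⊗ₜ n - 1 ⊗ₜ (a • n) ∈ LinearMap.range f := fun a => by
    induction a using Polynomial.induction_on with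
    | C r =>
      intro n
      rw [← algebraMap_eq, algebraMap_smul, Algebra.algebraMap_eq_smul_one, smul_tmul, sub_self]
      exact zero_mem _
    | add a b ha hb =>
      intro n
      rw [add_tmul, add_smul, tmul_add, add_sub_add_comm]
      exact add_mem (ha n) (hb n)
    | monomial k r ih =>
      intro n
      have := add_mem (LinearMap.mem_range_self f ((C r * X ^ k) ⊗ₜ n)) (ih ((X : R[X]) • n))
      rwa [hf, sub_add_sub_cancel, smul_smul, mul_comm X, mul_assoc, ← pow_succ] at this
  have k2 : ∀ p, p - 1 ⊗ₜ g p ∈ LinearMap.range f := fun p => by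
    induction p with
    | zero => simp
    | tmul a n => exact k1 a n
    | add a b ha hb =>
      rw [map_add, tmul_add, add_sub_add_comm]
      exact add_mem ha hb
  have e : (ModuleCat.shortComplexOfCompEqZero f g (LinearMap.ext gf)).ShortExact := by
    refine ModuleCat.shortComplex_shortExact _ (fun p => ⟨fun a => ?_, ?_⟩) ?_ fun n => ?_
    · have := k2 p
      rwa [show g p = 0 from a, tmul_zero, sub_zero] at this
    · rintro ⟨q, rfl⟩
      exact gf q
    · exact (injective_iff_map_eq_zero f).2 fun p a => ghilb_inj μ p (sub_eq_zero.1 a)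
    · exact ⟨1 ⊗ₜ n, (hg 1 n).trans (one_smul _ n)⟩
  exact e.hasProjectiveDimensionLT_X₃ (d + 1) hP
    (hasProjectiveDimensionLT_of_ge (ModuleCat.of R[X] (R[X] ⊗[R] N)) (d + 1) _ (Nat.le_succ _))

theorem glDimLE_mvPolynomial (k : Type) [Field k] (σ : Type) [Finite σ] :
    GlDimLE (MvPolynomial σ k) (Nat.card σ) := by
  refine Finite.induction_empty_option (P := fun σ => GlDimLE (MvPolynomial σ k) (Nat.card σ))
    (fun e h => ?_) ?_ (fun h => ?_) σ
  · rw [← Nat.card_congr e]
    exact h.of_ringEquiv (MvPolynomial.renameEquiv k e).toRingEquiv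
  · rw [Nat.card_of_isEmpty]
    refine GlDimLE.of_ringEquiv (MvPolynomial.isEmptyRingEquiv k PEmpty).symm fun M => ?_
    rw [← projective_iff_hasProjectiveDimensionLE_zero]
    have : Module.Free k M := Module.Free.of_divisionRing k M
    exact (IsProjective.iff_projective M).1 Module.Projective.of_free
  · rw [Finite.card_option]
    exact h.polynomial.of_ringEquiv (MvPolynomial.optionEquivLeft k _).toRingEquiv.symm

end Pool.Agent.Work.MP_910138_ag
end

-- merged part: Pool.Agent.Work.MP_910138_ag.TRing2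
section
/-! Geometric properties of a scheme with a toric structure. -/

open CategoryTheory Limits AlgebraicGeometry TopologicalSpace Opposite Abelian

namespace Pool.Agent.Work.MP_910138_ag

variable {X : Scheme.{0}} {κ : Type} [Fintype κ] {D : LatData κ} (T : ToricData D X)

include T

theorem ToricData.tring2_domain (τ : Cone κ) : IsDomain Γ(X, T.U τ) :=
  Function.Injective.isDomain (T.ev τ) (T.ev_inj τ)

theorem ToricData.tring2_irr (τ : Cone κ) : IsIrreducible (T.U τ : Set X) := by
  have := T.tring2_domain τ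
  have h := (IrreducibleSpace.isIrreducible_univ (Spec Γ(X, T.U τ))).image
    (T.affine τ).fromSpec (T.affine τ).fromSpec.continuous.continuousOn
  rwa [Set.image_univ, (T.affine τ).range_fromSpec] at h

theorem ToricData.torus_nonempty : ∃ x : X, x ∈ T.torus := (T.tring2_irr (tor κ)).nonempty

theorem ToricData.tring2_meet {A : Set X} (hA : IsOpen A) (h : A.Nonempty) :
    ((T.torus : Set X) ∩ A).Nonempty := by
  obtain ⟨a, ha⟩ := h
  obtain ⟨v, hv⟩ := exists_mem_chart_vtx T.cover a
  obtain ⟨t, ht⟩ := T.torus_nonempty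
  obtain ⟨x, -, hx⟩ := (T.tring2_irr (vtx v)).isPreirreducible _ _ T.torus.isOpen hA
    ⟨t, tor_le _ _ ht, ht⟩ ⟨a, hv, ha⟩
  exact ⟨x, hx⟩

theorem ToricData.isIntegral : IsIntegral X := by
  have : IsReduced X := by
    have h : ∀ v, IsReduced ((X.openCoverOfIsOpenCover _ (iSup_chart_vtx T.cover)).X v) := by
      intro v
      have := T.tring2_domain (vtx v)
      exact isReduced_of_isOpenImmersion (T.affine (vtx v)).isoSpec.hom
    exact IsReduced.of_openCover X (X.openCoverOfIsOpenCover _ (iSup_chart_vtx T.cover))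
  have : PreirreducibleSpace X := ⟨fun A B hA hB h₁ h₂ => by
    rw [Set.univ_inter] at h₁ h₂ ⊢
    exact ((T.tring2_irr (tor κ)).isPreirreducible A B hA hB (T.tring2_meet hA h₁)
      (T.tring2_meet hB h₂)).mono Set.inter_subset_right⟩
  have : IrreducibleSpace X := ⟨⟨T.torus_nonempty.choose⟩⟩
  exact isIntegral_of_irreducibleSpace_of_isReduced X

theorem ToricData.res_torus_injective (W : X.Opens) :
    Function.Injective (resO X (inf_le_left : W ⊓ T.torus ≤ W)) := by
  rcases (W : Set X).eq_empty_or_nonempty with h | h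
  · exact fun s t _ => sepO fun x hx => absurd (show x ∈ (W : Set X) from hx) (by simp [h])
  · obtain ⟨x, h1, h2⟩ := T.tring2_meet W.isOpen h
    have := T.isIntegral
    have : Nonempty (W ⊓ T.torus : X.Opens) := ⟨⟨x, h2, h1⟩⟩
    exact map_injective_of_isIntegral X (homOfLE (inf_le_left : W ⊓ T.torus ≤ W))

theorem ToricData.isLocallyNoetherian : IsLocallyNoetherian X :=
  isLocallyNoetherian_of_affine_cover (S := fun v => ⟨T.U (vtx v), T.affine _⟩)
    (iSup_chart_vtx T.cover) fun v =>
      isNoetherianRing_of_ringEquiv _ (T.nonempty_ringEquiv v).some.symm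

theorem ToricData.glDim (τ : Cone κ) : GlDimLE Γ(X, T.U τ) (Nat.card κ) := by
  obtain ⟨f, hf⟩ := T.exists_basicOpen (τ := τ) (τ' := vtx fun k => (τ k).getD false) fun k => by
    rw [vtx]
    rcases τ k with _ | b
    · exact Or.inl rfl
    · exact Or.inr rfl
  have := (T.affine _).isLocalization_basicOpen f
  rw [← hf]
  exact ((glDimLE_mvPolynomial (ZMod 2) κ).of_ringEquiv
    (T.nonempty_ringEquiv _).some.symm).localization (Submonoid.powers f)

omit T in
theorem tring2_smooth {A B : Type} [CommRing A] [CommRing B] (i : A ≃+* ZMod 2)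
    (e : B ≃+* MvPolynomial κ (ZMod 2)) (φ : A →+* B) : φ.Smooth := by
  have h : φ = (e.symm.toRingHom.comp
      (algebraMap (ZMod 2) (MvPolynomial κ (ZMod 2)))).comp i.toRingHom := by
    rw [RingHom.ext_zmod (e.symm.toRingHom.comp _) (φ.comp i.symm.toRingHom)]
    ext x
    simp
  rw [h]
  exact (RingHom.Smooth.of_bijective i.bijective).comp
    ((RingHom.smooth_algebraMap.2 ⟨inferInstance, inferInstance⟩).comp
      (RingHom.Smooth.of_bijective e.symm.bijective))

theorem ToricData.smooth (f : X ⟶ Spec (CommRingCat.of (ZMod 2))) : Smooth f :=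
  HasRingHomProperty.of_iSup_eq_top (P := @Smooth) (fun v => ⟨T.U (vtx v), T.affine _⟩)
    (iSup_chart_vtx T.cover) fun v => tring2_smooth
      (Scheme.ΓSpecIso (CommRingCat.of (ZMod 2))).commRingCatIsoToRingEquiv
      (T.nonempty_ringEquiv v).some _

end Pool.Agent.Work.MP_910138_ag
end

-- merged part: Pool.Agent.Work.MP_910138_ag.TOp
section
/-! Exactness of the cubical Čech complexes in characteristic two. -/

namespace Pool.Agent.Work.MP_910138_ag

theorem top_ring {κ R : Type} [DecidableEq κ] [Ring R] (h2 : ∀ x : R, x + x = 0)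
    (S : Subsemiring R) (d h p : κ → R) (hh : ∀ k, h k ∈ S) (hp : ∀ k, p k ∈ S)
    (e : ∀ k, d k * h k + h k * d k = 1 + p k) (cdh : ∀ k l, k ≠ l → Commute (d k) (h l))
    (cdp : ∀ k l, Commute (d k) (p l)) (cpp : ∀ k l, Commute (p k) (p l)) (s : Finset κ) :
    ∃ H P : R, H ∈ S ∧ P ∈ S ∧ (∑ k ∈ s, d k) * H + H * (∑ k ∈ s, d k) = 1 + P ∧
      (∀ l, l ∉ s → Commute (d l) H) ∧ (∀ l, Commute (d l) P) ∧ (∀ l, Commute (p l) P) ∧
      ∀ k ∈ s, ∃ X, P = p k * X := by
  induction s using Finset.induction_on with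
  | empty =>
    exact ⟨0, 1, S.zero_mem, S.one_mem, by simp [h2], fun _ _ => Commute.zero_right _,
      fun _ => Commute.one_right _, fun _ => Commute.one_right _, by simp⟩
  | insert k s hk ih =>
    obtain ⟨H, P, a1, a2, a3, a4, a5, a6, a7⟩ := ih
    refine ⟨H + P * h k, P * p k, S.add_mem a1 (S.mul_mem a2 (hh k)), S.mul_mem a2 (hp k), ?_,
      fun l hl => ?_, fun l => (a5 l).mul_right (cdp l k), fun l => (a6 l).mul_right (cpp l k),
      fun l hl => ?_⟩
    · rw [Finset.sum_insert hk]
      have b1 : d k * H = H * d k := a4 k hk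
      have b2 : d k * P = P * d k := a5 k
      have b3 : (∑ l ∈ s, d l) * (P * h k) = P * h k * ∑ l ∈ s, d l :=
        Commute.sum_left _ _ _ fun l hl => (a5 l).mul_right (cdh l k fun e => hk (e ▸ hl))
      have b4 : (d k + ∑ l ∈ s, d l) * (H + P * h k) + (H + P * h k) * (d k + ∑ l ∈ s, d l) =
          (d k * H + H * d k) + ((∑ l ∈ s, d l) * H + H * ∑ l ∈ s, d l) +
            (d k * P * h k + P * (h k * d k)) +
            ((∑ l ∈ s, d l) * (P * h k) + P * h k * ∑ l ∈ s, d l) := by
        noncomm_ring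
      rw [b4, b1, b2, b3, h2, h2, a3, mul_assoc P, ← mul_add P, e, mul_add, mul_one, zero_add,
        add_zero, add_assoc, ← add_assoc P, h2, zero_add]
    · rw [Finset.mem_insert, not_or] at hl
      exact (a4 l hl.2).add_right ((a5 l).mul_right (cdh l k hl.1))
    · rcases Finset.mem_insert.1 hl with rfl | hl
      · exact ⟨P, (a6 l).eq.symm⟩
      · obtain ⟨X, rfl⟩ := a7 l hl
        exact ⟨X * p k, mul_assoc _ _ _⟩

variable {κ : Type} [Fintype κ] [DecidableEq κ] {A : Type} [AddCommGroup A]

theorem nB_update_none {τ : Cone κ} {k : κ} (h : τ k ≠ none) :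
    nB (Function.update τ k none) = nB τ + 1 := by
  have e : (Finset.univ.filter fun l => Function.update τ k none l = none) =
      insert k (Finset.univ.filter fun l => τ l = none) := by
    ext l
    by_cases hl : l = k
    · simp [hl]
    · simp [hl]
  rw [nB, e, Finset.card_insert_of_notMem (by simpa using h), nB]

theorem nB_update_some {τ : Cone κ} {k : κ} (h : τ k = none) (b : Bool) :
    nB (Function.update τ k (some b)) + 1 = nB τ := by
  rw [← nB_update_none (k := k) (by simp), Function.update_idem, ← h, Function.update_eq_self]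

theorem nB_eq_zero_iff {τ : Cone κ} : nB τ = 0 ↔ ∃ v, τ = vtx v := by
  rw [nB, Finset.card_eq_zero, Finset.filter_eq_empty_iff]
  constructor
  · intro h
    refine ⟨fun k => (τ k).getD false, funext fun k => ?_⟩
    have := h (Finset.mem_univ k)
    rcases hk : τ k with _ | b
    · exact absurd hk this
    · simp [vtx, hk]
  · rintro ⟨v, rfl⟩ k _
    simp [vtx]

/-- the matrix units in the coordinate `k` -/
def top_E (A : Type) [AddCommGroup A] (k : κ) (s t : Option Bool) : AddMonoid.End (Cone κ → A) :=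
  AddMonoidHom.mk' (fun c τ => if τ k = s then c (Function.update τ k t) else 0) fun a b => by
    funext τ
    by_cases h : τ k = s <;> simp [h]

section

omit [Fintype κ]

theorem top_E_apply (k : κ) (s t : Option Bool) (c : Cone κ → A) (τ : Cone κ) :
    top_E A k s t c τ = if τ k = s then c (Function.update τ k t) else 0 := rfl

omit [DecidableEq κ] in
theorem top_ext {X Y : AddMonoid.End (Cone κ → A)} (h : ∀ c τ, X c τ = Y c τ) : X = Y :=
  AddMonoidHom.ext fun c => funext (h c)

omit [DecidableEq κ] in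
theorem top_add_apply (X Y : AddMonoid.End (Cone κ → A)) (c : Cone κ → A) :
    (X + Y) c = X c + Y c := rfl

omit [DecidableEq κ] in
theorem top_mul_apply (X Y : AddMonoid.End (Cone κ → A)) (c : Cone κ → A) :
    (X * Y) c = X (Y c) := rfl

theorem top_sum_apply (s : Finset κ) (X : κ → AddMonoid.End (Cone κ → A)) (c : Cone κ → A)
    (τ : Cone κ) : (∑ k ∈ s, X k) c τ = ∑ k ∈ s, X k c τ := by
  induction s using Finset.induction_on with
  | empty => rfl
  | insert k s hk ih => rw [Finset.sum_insert hk, Finset.sum_insert hk, ← ih]; rfl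

theorem top_two (h2 : ∀ a : A, a + a = 0) (X : AddMonoid.End (Cone κ → A)) : X + X = 0 :=
  top_ext fun _ _ => h2 _

theorem top_E_mul (k : κ) (s t s' t' : Option Bool) :
    top_E A k s t * top_E A k s' t' = if t = s' then top_E A k s t' else 0 := by
  refine top_ext fun c τ => ?_
  by_cases h : t = s'
  · simp only [top_mul_apply, top_E_apply, h, if_true, Function.update_self, Function.update_idem]
  · simp only [top_mul_apply, top_E_apply, h, if_false, Function.update_self, ite_self]
    rfl

theorem top_E_comm {k l : κ} (h : k ≠ l) (s t s' t' : Option Bool) :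
    Commute (top_E A k s t) (top_E A l s' t') := by
  refine top_ext fun c τ => ?_
  simp only [top_mul_apply, top_E_apply, Function.update_of_ne h, Function.update_of_ne h.symm,
    Function.update_comm h]
  split_ifs <;> rfl

theorem top_E_self {k : κ} {s : Option Bool} {τ : Cone κ} (h : τ k = s) (c : Cone κ → A) :
    top_E A k s s c τ = c τ := by
  rw [top_E_apply, if_pos h, ← h, Function.update_eq_self]

theorem top_E_ne {k : κ} {s : Option Bool} {τ : Cone κ} (h : τ k ≠ s) (t : Option Bool)
    (c : Cone κ → A) : top_E A k s t c τ = 0 := if_neg h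

theorem top_E_one (k : κ) (b : Bool) : top_E A k none none + top_E A k (some b) (some b) +
    top_E A k (some (!b)) (some (!b)) = 1 := by
  refine top_ext fun c τ => ?_
  change top_E A k none none c τ + top_E A k (some b) (some b) c τ +
    top_E A k (some (!b)) (some (!b)) c τ = c τ
  by_cases h : τ k = none
  · rw [top_E_self h, top_E_ne (by simp [h]), top_E_ne (by simp [h]), add_zero, add_zero]
  by_cases h' : τ k = some b
  · rw [top_E_self h', top_E_ne h, top_E_ne (by simp [h']), add_zero, zero_add]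
  · have h'' : τ k = some (!b) := by
      revert h h'
      rcases τ k with _ | _ | _ <;> cases b <;> simp
    rw [top_E_self h'', top_E_ne h, top_E_ne h', add_zero, zero_add]

/-- the chain differential in one coordinate -/
def top_dB (A : Type) [AddCommGroup A] (k : κ) : AddMonoid.End (Cone κ → A) :=
  top_E A k (some false) none + top_E A k (some true) none

/-- the cochain differential in one coordinate -/
def top_dC (A : Type) [AddCommGroup A] (k : κ) : AddMonoid.End (Cone κ → A) :=
  top_E A k none (some false) + top_E A k none (some true)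

theorem top_dB_eq (k : κ) (b : Bool) :
    top_dB A k = top_E A k (some b) none + top_E A k (some (!b)) none := by
  cases b
  · rfl
  · exact add_comm _ _

theorem top_dC_eq (k : κ) (b : Bool) :
    top_dC A k = top_E A k none (some b) + top_E A k none (some (!b)) := by
  cases b
  · rfl
  · exact add_comm _ _

theorem top_dB_comm {k l : κ} (h : k ≠ l) (s t : Option Bool) :
    Commute (top_dB A k) (top_E A l s t) := (top_E_comm h _ _ _ _).add_left (top_E_comm h _ _ _ _)

theorem top_dC_comm {k l : κ} (h : k ≠ l) (s t : Option Bool) :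
    Commute (top_dC A k) (top_E A l s t) := (top_E_comm h _ _ _ _).add_left (top_E_comm h _ _ _ _)

end

theorem top_bnd (c : Cone κ → A) : bnd c = (∑ k, top_dB A k) c := by
  funext τ
  rw [top_sum_apply, bnd]
  refine Finset.sum_congr rfl fun k _ => ?_
  change _ = top_E A k (some false) none c τ + top_E A k (some true) none c τ
  rw [top_E_apply, top_E_apply]
  rcases τ k with _ | _ | _ <;> simp

theorem top_cob (c : Cone κ → A) : cob c = (∑ k, top_dC A k) c := by
  funext τ
  rw [top_sum_apply, cob, Fintype.sum_prod_type]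
  refine Finset.sum_congr rfl fun k _ => ?_
  rw [Fintype.sum_bool, add_comm]
  rfl

/-- the part of degree `j` -/
def top_cut (j : ℕ) (c : Cone κ → A) (τ : Cone κ) : A := if nB τ = j then c τ else 0

omit [DecidableEq κ] in
theorem top_deg_cut (j : ℕ) (c : Cone κ → A) : Deg j (top_cut j c) := fun _ h => if_neg h

omit [DecidableEq κ] in
theorem top_cut_deg {j : ℕ} {c : Cone κ → A} (h : Deg j c) : top_cut j c = c := by
  funext τ
  by_cases e : nB τ = j
  · exact if_pos e
  · exact (if_neg e).trans (h τ e).symm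

theorem top_bnd_cut (j : ℕ) (c : Cone κ → A) : bnd (top_cut (j + 1) c) = top_cut j (bnd c) := by
  funext τ
  unfold top_cut bnd
  by_cases e : nB τ = j
  · rw [if_pos e]
    refine Finset.sum_congr rfl fun k _ => ?_
    by_cases h : τ k = none
    · rw [if_pos h, if_pos h]
    · rw [if_neg h, if_neg h]
      exact if_pos (by rw [nB_update_none h, e])
  · rw [if_neg e]
    refine Finset.sum_eq_zero fun k _ => ?_
    by_cases h : τ k = none
    · rw [if_pos h]
    · rw [if_neg h]
      exact if_neg (by rw [nB_update_none h]; omega)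

theorem top_cob_cut (j : ℕ) (c : Cone κ → A) : cob (top_cut j c) = top_cut (j + 1) (cob c) := by
  funext τ
  unfold top_cut cob
  by_cases e : nB τ = j + 1
  · rw [if_pos e]
    refine Finset.sum_congr rfl fun a _ => ?_
    by_cases h : τ a.1 = none
    · rw [if_pos h, if_pos h]
      exact if_pos (by have := nB_update_some h a.2; omega)
    · rw [if_neg h, if_neg h]
  · rw [if_neg e]
    refine Finset.sum_eq_zero fun a _ => ?_
    by_cases h : τ a.1 = none
    · rw [if_pos h]
      exact if_neg (by have := nB_update_some h a.2; omega)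
    · rw [if_neg h]

theorem bnd_bnd (h2 : ∀ a : A, a + a = 0) (c : Cone κ → A) : bnd (bnd c) = 0 := by
  have key : ∀ s : Finset κ, (∑ k ∈ s, top_dB A k) * (∑ k ∈ s, top_dB A k) = 0 := by
    intro s
    induction s using Finset.induction_on with
    | empty => simp
    | insert k s hk ih =>
      have b1 : top_dB A k * top_dB A k = 0 := by
        simp [top_dB, add_mul, mul_add, top_E_mul]
      have b2 : (∑ l ∈ s, top_dB A l) * top_dB A k = top_dB A k * ∑ l ∈ s, top_dB A l :=
        Commute.sum_left _ _ _ fun l hl =>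
          have hne : l ≠ k := fun e => hk (e ▸ hl)
          (top_dB_comm hne _ _).add_right (top_dB_comm hne _ _)
      rw [Finset.sum_insert hk, add_mul, mul_add, mul_add, b1, ih, b2, zero_add, add_zero,
        top_two h2]
  rw [top_bnd, top_bnd, ← top_mul_apply, key]
  rfl

theorem top_sum_bnd (h2 : ∀ a : A, a + a = 0) (c : Cone κ → A) : ∑ τ, bnd c τ = 0 := by
  unfold bnd
  rw [Finset.sum_comm]
  refine Finset.sum_eq_zero fun k _ => ?_
  refine Finset.sum_involution (fun τ _ => Function.update τ k ((τ k).map not)) ?_ ?_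
    (fun _ _ => Finset.mem_univ _) ?_
  · intro τ _
    rw [Function.update_self, Function.update_idem]
    rcases τ k with _ | b <;> simp [h2]
  · intro τ _ h e
    have e' := congrFun e k
    rw [Function.update_self] at e'
    revert h e'
    rcases τ k with _ | _ | _ <;> simp
  · intro τ _
    rw [Function.update_self, Function.update_idem, Function.update_eq_self_iff]
    rcases τ k with _ | b <;> simp

theorem sum_bnd (h2 : ∀ a : A, a + a = 0) (c : Cone κ → A) (hd : Deg 1 c) :
    ∑ τ, bnd c τ = 0 := by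
  rw [← top_cut_deg hd]
  exact top_sum_bnd h2 _

theorem bnd_exact (h2 : ∀ a : A, a + a = 0) (b : κ → Bool) (W : Cone κ → AddSubgroup A)
    (hW₁ : ∀ τ k, τ k = some (!b k) → W τ ≤ W (Function.update τ k none))
    (hW₂ : ∀ τ k, τ k = some (!b k) → W τ ≤ W (Function.update τ k (some (b k))))
    (i : ℕ) (c : Cone κ → A) (hc : ∀ τ, c τ ∈ W τ) (hd : Deg i c) (h0 : bnd c = 0)
    (hs : i = 0 → ∑ τ, c τ = 0) :
    ∃ y : Cone κ → A, (∀ τ, y τ ∈ W τ) ∧ Deg (i + 1) y ∧ bnd y = c := by
  let S : Subsemiring (AddMonoid.End (Cone κ → A)) :=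
    { carrier := {X | ∀ c : Cone κ → A, (∀ τ, c τ ∈ W τ) → ∀ τ, X c τ ∈ W τ}
      mul_mem' := fun ha hb c hc => ha _ (hb c hc)
      one_mem' := fun _ hc => hc
      add_mem' := fun ha hb c hc τ => (W τ).add_mem (ha c hc τ) (hb c hc τ)
      zero_mem' := fun _ _ τ => (W τ).zero_mem }
  have hS : ∀ k s t, (∀ τ : Cone κ, τ k = t → W τ ≤ W (Function.update τ k s)) →
      top_E A k s t ∈ S := by
    intro k s t h c hc τ
    rw [top_E_apply]
    split_ifs with e
    · have := h (Function.update τ k t) (Function.update_self _ _ _) (hc _)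
      rwa [Function.update_idem, ← e, Function.update_eq_self] at this
    · exact (W τ).zero_mem
  have hb : ∀ k, (b k = !b k) = False := fun k => by cases b k <;> simp
  have hb' : ∀ k, ((!b k) = b k) = False := fun k => by cases b k <;> simp
  obtain ⟨H, P, a1, -, a3, -, -, -, a7⟩ := top_ring (top_two h2) S (top_dB A)
    (fun k => top_E A k none (some (!b k)))
    (fun k => top_E A k (some (b k)) (some (b k)) + top_E A k (some (b k)) (some (!b k)))
    (fun k => hS k _ _ fun τ => hW₁ τ k)
    (fun k => S.add_mem (hS k _ _ fun τ e => by rw [← e, Function.update_eq_self])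
      (hS k _ _ fun τ => hW₂ τ k))
    (fun k => by
      rw [top_dB_eq k (b k), ← top_E_one k (b k)]
      simp only [add_mul, mul_add, top_E_mul, if_true, Option.some.injEq, hb', if_false, zero_add]
      rw [← add_zero (_ + _ + top_E A k none none),
        ← top_two h2 (top_E A k (some (b k)) (some (b k)))]
      abel)
    (fun k l h => top_dB_comm h _ _)
    (fun k l => by
      by_cases h : k = l
      · subst h
        rw [Commute, SemiconjBy, top_dB_eq k (b k)]
        simp only [add_mul, mul_add, top_E_mul, if_true, Option.some.injEq, hb, hb', if_false,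
          zero_add, add_zero, reduceCtorEq, top_two h2]
      · exact (top_dB_comm h _ _).add_right (top_dB_comm h _ _))
    (fun k l => by
      by_cases h : k = l
      · subst h
        exact Commute.refl _
      · exact ((top_E_comm h _ _ _ _).add_left (top_E_comm h _ _ _ _)).add_right
          ((top_E_comm h _ _ _ _).add_left (top_E_comm h _ _ _ _))) Finset.univ
  have hP : ∀ τ, τ ≠ vtx b → P c τ = 0 := by
    intro τ hτ
    obtain ⟨k, hk⟩ := Function.ne_iff.1 hτ
    obtain ⟨X, rfl⟩ := a7 k (Finset.mem_univ k)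
    change top_E A k _ _ (X c) τ + top_E A k _ _ (X c) τ = 0
    rw [top_E_ne (s := some (b k)) hk, top_E_ne (s := some (b k)) hk, add_zero]
  have e1 : bnd (H c) = c + P c := by
    have e := congrArg (fun X : AddMonoid.End (Cone κ → A) => X c) a3
    simp only [top_add_apply, top_mul_apply, ← top_bnd, h0, map_zero, add_zero] at e
    exact e
  have e2 : bnd (top_cut (i + 1) (H c)) = c + top_cut i (P c) := by
    rw [top_bnd_cut, e1]
    funext τ
    by_cases e : nB τ = i
    · simp [top_cut, e]
    · simp [top_cut, e, hd τ e]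
  have e3 : top_cut i (P c) = 0 := by
    have f1 : ∀ τ, τ ≠ vtx b → top_cut i (P c) τ = 0 := fun τ hτ => by simp [top_cut, hP τ hτ]
    funext τ
    by_cases hτ : τ = vtx b
    · subst hτ
      by_cases hi : i = 0
      · have f2 := top_sum_bnd h2 (top_cut (i + 1) (H c))
        simp only [e2, Pi.add_apply, Finset.sum_add_distrib, hs hi, zero_add] at f2
        rwa [Finset.sum_eq_single (vtx b) (fun τ _ => f1 τ) (by simp)] at f2
      · exact if_neg fun e => hi (e.symm.trans (nB_eq_zero_iff.2 ⟨b, rfl⟩))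
    · exact f1 τ hτ
  refine ⟨top_cut (i + 1) (H c), fun τ => ?_, top_deg_cut _ _, by rw [e2, e3, add_zero]⟩
  unfold top_cut
  split_ifs
  · exact a1 c hc τ
  · exact (W τ).zero_mem

theorem cob_exact_all (h2 : ∀ a : A, a + a = 0) (i : ℕ) (c : Cone κ → A) (hd : Deg (i + 1) c)
    (h0 : cob c = 0) : ∃ y : Cone κ → A, Deg i y ∧ cob y = c := by
  obtain ⟨H, P, -, -, a3, -, -, -, a7⟩ := top_ring (top_two h2) ⊤ (top_dC A)
    (fun k : κ => top_E A k (some false) none)
    (fun k => top_E A k (some true) (some true) + top_E A k (some false) (some true))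
    (fun _ => trivial) (fun _ => trivial)
    (fun k => by
      rw [top_dC, ← top_E_one k false]
      simp only [add_mul, mul_add, top_E_mul, if_true, Option.some.injEq, Bool.true_eq_false,
        if_false, add_zero, Bool.not_false]
      rw [← add_zero (top_E A k none none + _), ← top_two h2 (top_E A k (some true) (some true))]
      abel)
    (fun k l h => top_dC_comm h _ _)
    (fun k l => by
      by_cases h : k = l
      · subst h
        rw [Commute, SemiconjBy, top_dC]
        simp only [add_mul, mul_add, top_E_mul, if_true, Option.some.injEq, Bool.true_eq_false,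
          Bool.false_eq_true, if_false, zero_add, add_zero, reduceCtorEq, top_two h2]
      · exact (top_dC_comm h _ _).add_right (top_dC_comm h _ _))
    (fun k l => by
      by_cases h : k = l
      · subst h
        exact Commute.refl _
      · exact ((top_E_comm h _ _ _ _).add_left (top_E_comm h _ _ _ _)).add_right
          ((top_E_comm h _ _ _ _).add_left (top_E_comm h _ _ _ _))) Finset.univ
  have hP : ∀ τ, nB τ ≠ 0 → P c τ = 0 := by
    intro τ hτ
    obtain ⟨k, hk⟩ := Finset.card_ne_zero.1 hτ
    have hk' : τ k = none := (Finset.mem_filter.1 hk).2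
    obtain ⟨X, rfl⟩ := a7 k (Finset.mem_univ k)
    change top_E A k _ _ (X c) τ + top_E A k _ _ (X c) τ = 0
    rw [top_E_ne (by simp [hk']), top_E_ne (by simp [hk']), add_zero]
  have e1 : cob (H c) = c + P c := by
    have e := congrArg (fun X : AddMonoid.End (Cone κ → A) => X c) a3
    simp only [top_add_apply, top_mul_apply, ← top_cob, h0, map_zero, add_zero] at e
    exact e
  refine ⟨top_cut i (H c), top_deg_cut _ _, ?_⟩
  rw [top_cob_cut, e1]
  funext τ
  by_cases e : nB τ = i + 1
  · simp [top_cut, e, hP τ (by omega)]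
  · simp [top_cut, e, hd τ e]

theorem cob_exact_bad (h2 : ∀ a : A, a + a = 0) (ok : κ × Bool → Prop) (k : κ) (b : Bool)
    (hb : ok (k, b)) (hb' : ¬ ok (k, !b)) (i : ℕ) (c : Cone κ → A)
    (hc : ∀ τ, c τ ≠ 0 → ∀ a : κ × Bool, τ a.1 = some a.2 → ok a) (hd : Deg (i + 1) c)
    (h0 : cob c = 0) : ∃ y : Cone κ → A,
      (∀ τ, y τ ≠ 0 → ∀ a : κ × Bool, τ a.1 = some a.2 → ok a) ∧ Deg i y ∧ cob y = c := by
  have hz : ∀ s, top_E A k s (some (!b)) c = 0 := by
    intro s
    funext τ
    rw [top_E_apply]
    split_ifs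
    · by_contra h
      exact hb' (hc _ h (k, !b) (Function.update_self _ _ _))
    · rfl
  have hbb : ((!b) = b) = False := by cases b <;> simp
  have e1 : (∑ l, top_dC A l) * top_E A k (some b) none + top_E A k (some b) none *
      ∑ l, top_dC A l = top_E A k none none + top_E A k (some b) (some b) +
        top_E A k (some b) (some (!b)) := by
    rw [Finset.sum_mul, Finset.mul_sum, ← Finset.sum_add_distrib, Finset.sum_eq_single k]
    · rw [top_dC_eq k b]
      simp only [add_mul, mul_add, top_E_mul, if_true, Option.some.injEq, hbb, if_false, add_zero,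
        add_assoc]
    · intro l _ hl
      rw [(top_dC_comm hl _ _).eq, top_two h2]
    · simp
  have e2 := congrArg (fun X : AddMonoid.End (Cone κ → A) => X c) e1
  have e3 := congrArg (fun X : AddMonoid.End (Cone κ → A) => X c) (top_E_one (A := A) k b)
  simp only [top_add_apply, top_mul_apply, ← top_cob, h0, map_zero, add_zero, hz] at e2 e3
  refine ⟨top_E A k (some b) none c, fun τ hτ a ha => ?_, fun τ hτ => ?_, e2.trans e3⟩
  · rw [top_E_apply] at hτ
    by_cases e : τ k = some b
    · rw [if_pos e] at hτ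
      by_cases hk : a.1 = k
      · obtain ⟨l, b'⟩ := a
        obtain rfl : l = k := hk
        obtain rfl : b = b' := Option.some.inj (e.symm.trans ha)
        exact hb
      · exact hc _ hτ a (by rwa [Function.update_of_ne hk])
    · exact absurd (if_neg e) hτ
  · rw [top_E_apply]
    split_ifs with e
    · exact hd _ (by rw [nB_update_none (by simp [e])]; omega)
    · rfl

end Pool.Agent.Work.MP_910138_ag
end

-- merged part: Pool.Agent.Work.MP_910138_ag.TCech
section
/-! The cubical Čech resolution of a sheaf of modules in characteristic two. -/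

open CategoryTheory Limits AlgebraicGeometry TopologicalSpace Opposite Abelian

namespace Pool.Agent.Work.MP_910138_ag

variable {X : Scheme.{0}} {κ : Type} [Fintype κ] [DecidableEq κ] (V : κ → Bool → X.Opens)
  (M : X.Modules)

theorem sec_add_self [Algebra (ZMod 2) Γ(X, ⊤)] {W : X.Opens} (s : Γ(M, W)) : s + s = 0 := by
  have h : (1 : Γ(X, W)) + 1 = 0 := by
    have := congrArg (fun c => resO X (le_top : W ≤ ⊤) (algebraMap (ZMod 2) Γ(X, ⊤) c))
      (show (1 : ZMod 2) + 1 = 0 from rfl)
    simpa only [map_add, map_one, map_zero] using this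
  rw [← one_smul Γ(X, W) s, ← add_smul, h, zero_smul]

/-- the terms -/
noncomputable def cechC (i : ℕ) : X.Modules :=
  ⨁ fun τ : {τ : Cone κ // nB τ = i} => supp M (chart V τ.1)

/-- the inclusions of the summands -/
noncomputable def cechι {i : ℕ} (τ : Cone κ) (h : nB τ = i) : supp M (chart V τ) ⟶ cechC V M i :=
  biproduct.ι (fun τ : {τ : Cone κ // nB τ = i} => supp M (chart V τ.1)) ⟨τ, h⟩

/-- the differential -/
noncomputable def cechD (i : ℕ) : cechC V M (i + 1) ⟶ cechC V M i :=
  biproduct.desc fun τ : {τ : Cone κ // nB τ = i + 1} => ∑ a : κ × Bool,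
    if h : τ.1 a.1 = none then suppLE M (chart_le_update V h a.2) ≫
      cechι V M (Function.update τ.1 a.1 (some a.2))
        (Nat.succ_injective ((nB_update_some h a.2).trans τ.2)) else 0

/-- the augmentation -/
noncomputable def cechE : cechC V M 0 ⟶ M :=
  biproduct.desc fun τ : {τ : Cone κ // nB τ = 0} => suppι M (chart V τ.1)

theorem cechι_D {i : ℕ} (τ : Cone κ) (hτ : nB τ = i + 1) :
    cechι V M τ hτ ≫ cechD V M i = ∑ a : κ × Bool,
      if h : τ a.1 = none then suppLE M (chart_le_update V h a.2) ≫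
        cechι V M (Function.update τ a.1 (some a.2))
          (Nat.succ_injective ((nB_update_some h a.2).trans hτ)) else 0 :=
  biproduct.ι_desc _ _

theorem cechι_E (τ : Cone κ) (hτ : nB τ = 0) : cechι V M τ hτ ≫ cechE V M = suppι M (chart V τ) :=
  biproduct.ι_desc _ _

/-- the components of a chain -/
noncomputable def tcech_p (i : ℕ) (τ : Cone κ) : cechC V M i ⟶ M :=
  if h : nB τ = i then
    biproduct.π (fun τ : {τ : Cone κ // nB τ = i} => supp M (chart V τ.1)) ⟨τ, h⟩ ≫
      suppι M (chart V τ)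
  else 0

theorem tcech_p_pos {i : ℕ} {τ : Cone κ} (h : nB τ = i) : tcech_p V M i τ =
    biproduct.π (fun τ : {τ : Cone κ // nB τ = i} => supp M (chart V τ.1)) ⟨τ, h⟩ ≫
      suppι M (chart V τ) := dif_pos h

theorem tcech_p_neg {i : ℕ} {τ : Cone κ} (h : nB τ ≠ i) : tcech_p V M i τ = 0 := dif_neg h

theorem tcech_ι_p {i : ℕ} (σ : Cone κ) (hσ : nB σ = i) (τ : Cone κ) :
    cechι V M σ hσ ≫ tcech_p V M i τ = if σ = τ then suppι M (chart V σ) else 0 := by
  by_cases e : σ = τ
  · subst e
    rw [if_pos rfl, tcech_p_pos V M hσ, cechι]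
    exact biproduct.ι_π_self_assoc _ _ _
  · rw [if_neg e]
    by_cases h : nB τ = i
    · rw [tcech_p_pos V M h, cechι]
      have hne : (⟨σ, hσ⟩ : {τ : Cone κ // nB τ = i}) ≠ ⟨τ, h⟩ := fun h' =>
        e (congrArg Subtype.val h')
      exact (biproduct.ι_π_ne_assoc _ hne _).trans zero_comp
    · rw [tcech_p_neg V M h, comp_zero]

theorem tcech_map_bnd {A B : Type} [AddCommGroup A] [AddCommGroup B] (F : A →+ B)
    (c : Cone κ → A) (τ : Cone κ) : F (bnd c τ) = bnd (fun σ => F (c σ)) τ := by
  rw [bnd, bnd, map_sum]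
  refine Finset.sum_congr rfl fun k _ => ?_
  split_ifs
  · exact map_zero F
  · rfl

theorem tcech_comp_bnd {L N : X.Modules} (f : L ⟶ N) (c : Cone κ → (N ⟶ M)) (τ : Cone κ) :
    f ≫ bnd c τ = bnd (fun σ => f ≫ c σ) τ :=
  tcech_map_bnd (Preadditive.leftComp M f) c τ

/-- evaluation of a morphism at a section -/
noncomputable def tcech_ev {N : X.Modules} {W : X.Opens} (s : Γ(N, W)) : (N ⟶ M) →+ Γ(M, W) :=
  AddMonoidHom.mk' (fun φ => φ.app W s) fun φ ψ => add_app_apply φ ψ s

theorem tcech_app_bnd {N : X.Modules} {W : X.Opens} (s : Γ(N, W)) (c : Cone κ → (N ⟶ M))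
    (τ : Cone κ) : (bnd c τ).app W s = bnd (fun σ => (c σ).app W s) τ :=
  tcech_map_bnd (tcech_ev M s) c τ

theorem tcech_comb {A : Type} [AddCommGroup A] (σ τ : Cone κ) (k : κ) (y : A) :
    (∑ b : Bool, if σ k = none then (if Function.update σ k (some b) = τ then y else 0) else 0) =
      if τ k = none then 0 else if σ = Function.update τ k none then y else 0 := by
  rcases hk : τ k with _ | b
  · rw [if_pos rfl]
    refine Finset.sum_eq_zero fun b _ => ?_
    have : Function.update σ k (some b) ≠ τ := fun e => by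
      have := congrFun e k
      rw [Function.update_self, hk] at this
      exact Option.some_ne_none _ this
    rw [if_neg this, ite_self]
  · rw [if_neg (Option.some_ne_none _), Finset.sum_eq_single b]
    · by_cases e : σ = Function.update τ k none
      · rw [if_pos e, if_pos (by rw [e, Function.update_self]),
          if_pos (by rw [e, Function.update_idem, ← hk, Function.update_eq_self])]
      · rw [if_neg e]
        by_cases h1 : σ k = none
        · rw [if_pos h1, if_neg]
          intro e'
          exact e (by rw [← e', Function.update_idem, ← h1, Function.update_eq_self])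
        · rw [if_neg h1]
    · intro b' _ hb
      have : Function.update σ k (some b') ≠ τ := fun e => by
        have := congrFun e k
        rw [Function.update_self, hk] at this
        exact hb (Option.some_injective _ this)
      rw [if_neg this, ite_self]
    · intro h
      exact absurd (Finset.mem_univ b) h

theorem tcech_hom_ext {i : ℕ} {N : X.Modules} {f g : cechC V M i ⟶ N}
    (h : ∀ σ hσ, cechι V M σ hσ ≫ f = cechι V M σ hσ ≫ g) : f = g :=
  biproduct.hom_ext' _ _ fun σ => h σ.1 σ.2

theorem tcech_D_p (i : ℕ) (τ : Cone κ) :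
    cechD V M i ≫ tcech_p V M i τ = bnd (tcech_p V M (i + 1)) τ := by
  refine tcech_hom_ext V M fun σ hσ => ?_
  rw [← Category.assoc, cechι_D, tcech_comp_bnd, bnd, Preadditive.sum_comp,
    Fintype.sum_prod_type]
  refine Finset.sum_congr rfl fun k _ => ?_
  rw [tcech_ι_p, ← tcech_comb]
  refine Finset.sum_congr rfl fun b _ => ?_
  by_cases h : σ k = none
  · rw [dif_pos h, if_pos h, Category.assoc, tcech_ι_p]
    split_ifs
    · exact suppLE_ι _
    · exact comp_zero
  · rw [dif_neg h, if_neg h, zero_comp]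

theorem tcech_E : cechE V M = ∑ τ, tcech_p V M 0 τ := by
  refine tcech_hom_ext V M fun σ hσ => ?_
  rw [cechι_E, Preadditive.comp_sum]
  simp only [tcech_ι_p]
  rw [Finset.sum_ite_eq, if_pos (Finset.mem_univ σ)]

theorem tcech_inj {i : ℕ} {W : X.Opens} {s t : Γ(cechC V M i, W)}
    (h : ∀ τ, (tcech_p V M i τ).app W s = (tcech_p V M i τ).app W t) : s = t := by
  refine biprod_ext (fun τ : {τ : Cone κ // nB τ = i} => supp M (chart V τ.1)) fun τ => ?_
  have h1 := h τ.1
  rw [tcech_p_pos V M τ.2] at h1
  exact gsupp_inj M _ W h1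

theorem tcech_mem {i : ℕ} {W : X.Opens} (s : Γ(cechC V M i, W)) (τ : Cone κ) :
    (tcech_p V M i τ).app W s ∈ (suppData M (chart V τ)).sub W := by
  by_cases h : nB τ = i
  · rw [tcech_p_pos V M h]
    exact (suppData M (chart V τ)).ι_mem _
  · rw [tcech_p_neg V M h, gexact_zero_app]
    exact zero_mem _

theorem tcech_deg {i : ℕ} {W : X.Opens} (s : Γ(cechC V M i, W)) :
    Deg i fun τ => (tcech_p V M i τ).app W s := fun τ h => by
  change (tcech_p V M i τ).app W s = 0
  rw [tcech_p_neg V M h, gexact_zero_app]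

theorem tcech_surj {i : ℕ} {W : X.Opens} (y : Cone κ → Γ(M, W))
    (hy : ∀ τ, y τ ∈ (suppData M (chart V τ)).sub W) (hd : Deg i y) :
    ∃ t : Γ(cechC V M i, W), ∀ τ, (tcech_p V M i τ).app W t = y τ := by
  obtain ⟨t, ht⟩ := biprod_exists (fun τ : {τ : Cone κ // nB τ = i} => supp M (chart V τ.1))
    (U := W) fun τ => (suppData M (chart V τ.1)).mkSec (y τ.1) (hy τ.1)
  refine ⟨t, fun τ => ?_⟩
  by_cases h : nB τ = i
  · rw [tcech_p_pos V M h]
    exact congrArg ((suppι M (chart V τ)).app W) (ht ⟨τ, h⟩)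
  · rw [tcech_p_neg V M h, gexact_zero_app, hd τ h]

theorem tcech_sub_le {W A B : X.Opens} (h : ∀ x ∈ W, x ∈ A → x ∈ B) :
    ((suppData M A).sub W).toAddSubgroup ≤ ((suppData M B).sub W).toAddSubgroup :=
  fun _ hs x hx hx' => hs x hx fun hA => hx' (h x hx hA)

variable [Algebra (ZMod 2) Γ(X, ⊤)]

theorem tcech_two {N : X.Modules} (φ : N ⟶ M) : φ + φ = 0 :=
  hom_ext' fun _ _ => sec_add_self M _

theorem tcech_lift {i : ℕ} {W : X.Opens} {v : κ → Bool} (hW : W ≤ chart V (vtx v))
    (s : Γ(cechC V M i, W)) (h0 : (bnd fun τ => (tcech_p V M i τ).app W s) = 0)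
    (hs : i = 0 → ∑ τ, (tcech_p V M i τ).app W s = 0) :
    ∃ t : Γ(cechC V M (i + 1), W), (cechD V M i).app W t = s := by
  have hv : ∀ k, W ≤ V k (v k) := fun k => le_chart.1 hW k _ (Or.inr rfl)
  obtain ⟨y, hy, hd, e⟩ := bnd_exact (A := Γ(M, W)) (sec_add_self M) v
    (fun τ => ((suppData M (chart V τ)).sub W).toAddSubgroup)
    (fun τ k hk => tcech_sub_le M fun x hx hτ => mem_chart.2 fun j b hj => by
      by_cases e : j = k
      · subst e
        by_cases hb : b = v j
        · exact hb ▸ hv j hx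
        · exact mem_chart.1 hτ j b (Or.inr (by rw [hk, Bool.eq_not_iff.2 hb]))
      · rw [Function.update_of_ne e] at hj
        exact mem_chart.1 hτ j b hj)
    (fun τ k hk => tcech_sub_le M fun x hx hτ => mem_chart.2 fun j b hj => by
      by_cases e : j = k
      · subst e
        rw [Function.update_self] at hj
        rcases hj with hj | hj
        · exact absurd hj (Option.some_ne_none _)
        · exact Option.some_injective _ hj ▸ hv j hx
      · rw [Function.update_of_ne e] at hj
        exact mem_chart.1 hτ j b hj)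
    i _ (tcech_mem V M s) (tcech_deg V M s) h0 hs
  obtain ⟨t, ht⟩ := tcech_surj V M y hy hd
  refine ⟨t, tcech_inj V M fun τ => ?_⟩
  rw [← comp_app_apply, tcech_D_p, tcech_app_bnd, funext ht, e]

theorem cechD_E : cechD V M 0 ≫ cechE V M = 0 := by
  rw [tcech_E, Preadditive.comp_sum]
  simp only [tcech_D_p]
  exact sum_bnd (tcech_two M) _ fun τ h => tcech_p_neg V M h

theorem cechD_D (i : ℕ) : cechD V M (i + 1) ≫ cechD V M i = 0 := by
  refine hom_ext' fun W s => tcech_inj V M fun τ => ?_
  rw [← comp_app_apply, ← comp_app_apply, zero_comp, Category.assoc, tcech_D_p, tcech_comp_bnd,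
    funext (tcech_D_p V M (i + 1)), bnd_bnd (tcech_two M)]
  rfl

theorem epi_cechE (cover : ∀ k, V k false ⊔ V k true = ⊤) : Epi (cechE V M) := by
  refine (epi_iff _).2 fun U s x hx => ?_
  obtain ⟨v, hv⟩ := exists_mem_chart_vtx cover x
  obtain ⟨t, ht⟩ := (suppι_bijective (M := M)
    (inf_le_right : U ⊓ chart V (vtx v) ≤ chart V (vtx v))).2 (res M inf_le_left s)
  refine ⟨U ⊓ chart V (vtx v), inf_le_left, ⟨hx, hv⟩,
    (cechι V M (vtx v) (nB_eq_zero_iff.2 ⟨v, rfl⟩)).app _ t, ?_⟩
  rw [← comp_app_apply, cechι_E, ht]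

theorem cech_exact₀ (cover : ∀ k, V k false ⊔ V k true = ⊤) :
    (ShortComplex.mk _ _ (cechD_E V M)).Exact := by
  refine (exact_iff _).2 fun U s hs x hx => ?_
  obtain ⟨v, hv⟩ := exists_mem_chart_vtx cover x
  dsimp only at s hs ⊢
  refine ⟨U ⊓ chart V (vtx v), inf_le_left, ⟨hx, hv⟩, tcech_lift V M inf_le_right _ ?_ fun _ => ?_⟩
  · funext τ
    refine Finset.sum_eq_zero fun k _ => ?_
    split_ifs with h
    · rfl
    · exact tcech_deg V M _ _ (by rw [nB_update_none h]; exact Nat.succ_ne_zero _)
  · rw [← sum_app_apply, ← tcech_E, app_res, hs, map_zero]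

theorem cech_exact (cover : ∀ k, V k false ⊔ V k true = ⊤) (i : ℕ) :
    (ShortComplex.mk _ _ (cechD_D V M i)).Exact := by
  refine (exact_iff _).2 fun U s hs x hx => ?_
  obtain ⟨v, hv⟩ := exists_mem_chart_vtx cover x
  dsimp only at s hs ⊢
  refine ⟨U ⊓ chart V (vtx v), inf_le_left, ⟨hx, hv⟩, tcech_lift V M inf_le_right _ ?_
    fun h => absurd h (Nat.succ_ne_zero _)⟩
  funext τ
  rw [← tcech_app_bnd, ← tcech_D_p, comp_app_apply, app_res (cechD V M i), hs, map_zero,
    gexact_app_zero]
  rfl

/-- the resolution -/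
noncomputable def cechRes (cover : ∀ k, V k false ⊔ V k true = ⊤) : LRes M where
  C := cechC V M
  d := cechD V M
  ε := cechE V M
  epi := epi_cechE V M cover
  w₀ := cechD_E V M
  exact₀ := cech_exact₀ V M cover
  w := cechD_D V M
  exact := cech_exact V M cover

end Pool.Agent.Work.MP_910138_ag
end

-- merged part: Pool.Agent.Work.MP_910138_ag.TOp2
section
/-! Weight decomposition of Čech cocycles, and the lattice of a product of copies of the blow-up of
the plane in a point. -/

namespace Pool.Agent.Work.MP_910138_ag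

theorem top2_coeff {κ : Type} [Fintype κ] [DecidableEq κ] (c : Cone κ → Lam κ) (τ : Cone κ)
    (e : Wt κ) : (cob c τ).coeff e = cob (fun σ => (c σ).coeff e) τ := by
  rw [cob, cob, AddMonoidAlgebra.coeff_sum, Finsupp.finsetSum_apply]
  refine Finset.sum_congr rfl fun a _ => ?_
  split_ifs <;> rfl

theorem top2_weight {κ : Type} [Fintype κ] [DecidableEq κ] (Lat : AddSubgroup (Wt κ)) (n e : Wt κ)
    (i : ℕ) (c : Cone κ → ZMod 2) (hc : ∀ τ, c τ ≠ 0 → e ∈ Lat ∧ Allowed n τ e)
    (hd : Deg (i + 1) c) (h0 : cob c = 0) : ∃ y : Cone κ → ZMod 2,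
      (∀ τ, y τ ≠ 0 → (e ∈ Lat ∧ Allowed n τ e) ∧ ∃ σ, c σ ≠ 0) ∧ Deg i y ∧
      ∀ τ, c τ - cob y τ ≠ 0 → e ∈ Good Lat n ∧ ¬ ∀ a, 0 ≤ e a + n a := by
  have h2 : ∀ a : ZMod 2, a + a = 0 := CharTwo.add_self_eq_zero
  have hz : ∀ τ, cob (0 : Cone κ → ZMod 2) τ = 0 := fun τ => by simp [cob]
  by_cases h1 : ∃ σ, c σ ≠ 0
  swap
  · push Not at h1
    exact ⟨0, fun τ h => absurd rfl h, fun _ _ => rfl, fun τ h => absurd (by simp [h1, hz]) h⟩
  have hL : e ∈ Lat := let ⟨σ, hσ⟩ := h1; (hc σ hσ).1
  by_cases h3 : ∀ a, 0 ≤ e a + n a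
  · obtain ⟨y, a1, a2⟩ := cob_exact_all h2 i c hd h0
    exact ⟨y, fun τ _ => ⟨⟨hL, fun a _ => h3 a⟩, h1⟩, a1, fun τ h => absurd (by simp [a2]) h⟩
  by_cases h4 : e ∈ Good Lat n
  · exact ⟨0, fun τ h => absurd rfl h, fun _ _ => rfl, fun _ _ => ⟨h4, h3⟩⟩
  obtain ⟨k, b, hb, hb'⟩ : ∃ k b, 0 ≤ e (k, b) + n (k, b) ∧ ¬ 0 ≤ e (k, !b) + n (k, !b) := by
    by_contra h5
    push Not at h5
    exact h4 ⟨hL, fun k => ⟨h5 k false, h5 k true⟩⟩
  obtain ⟨y, a1, a2, a3⟩ := cob_exact_bad h2 (fun a => 0 ≤ e a + n a) k b hb hb' i c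
    (fun τ h => (hc τ h).2) hd h0
  exact ⟨y, fun τ h => ⟨⟨hL, a1 τ h⟩, h1⟩, a2, fun τ h => absurd (by simp [a3]) h⟩

theorem cob_weights {κ : Type} [Fintype κ] [DecidableEq κ] (Lat : AddSubgroup (Wt κ)) (n : Wt κ)
    (i : ℕ) (c : Cone κ → Lam κ) (hc : ∀ τ, InSpan Lat n τ (c τ)) (hd : Deg (i + 1) c)
    (h0 : cob c = 0) : ∃ y : Cone κ → Lam κ, (∀ τ, InSpan Lat n τ (y τ)) ∧ Deg i y ∧
      ∀ τ, ∀ e ∈ (c τ - cob y τ).coeff.support, e ∈ Good Lat n ∧ ¬ ∀ a, 0 ≤ e a + n a := by
  classical
  choose Y h1 h2 h3 using fun e => top2_weight Lat n e i (fun τ => (c τ).coeff e)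
    (fun τ h => hc τ e (Finsupp.mem_support_iff.2 h)) (fun τ h => by simp [hd τ h])
    (funext fun τ => by rw [← top2_coeff, h0]; rfl)
  let y : Cone κ → Lam κ := fun τ => AddMonoidAlgebra.ofCoeff
    (Finsupp.onFinset (Finset.univ.biUnion fun σ => (c σ).coeff.support) (fun e => Y e τ)
      fun e he => by
        obtain ⟨σ, hσ⟩ := (h1 e τ he).2
        exact Finset.mem_biUnion.2 ⟨σ, Finset.mem_univ _, Finsupp.mem_support_iff.2 hσ⟩)
  have hy : ∀ τ e, (y τ).coeff e = Y e τ := fun _ _ => rfl
  refine ⟨y, fun τ e he => (h1 e τ (Finsupp.mem_support_iff.1 he)).1, fun τ h => ?_,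
    fun τ e he => h3 e τ ?_⟩
  · ext e
    exact h2 e τ h
  · have h4 := Finsupp.mem_support_iff.1 he
    rwa [AddMonoidAlgebra.coeff_sub, Finsupp.sub_apply, top2_coeff] at h4

end Pool.Agent.Work.MP_910138_ag
end

-- merged part: Pool.Agent.Work.MP_910138_ag.TWt
section
/-! Ext groups computed by weights. -/

open CategoryTheory Limits AlgebraicGeometry TopologicalSpace Opposite Abelian

namespace Pool.Agent.Work.MP_910138_ag

variable {X : Scheme.{0}} {κ : Type} [Fintype κ] [DecidableEq κ] [Algebra (ZMod 2) Γ(X, ⊤)]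

/-- a description by weights of the morphisms `M ⟶ N` on the charts -/
structure WtData (V : κ → Bool → X.Opens) (Lat : AddSubgroup (Wt κ)) (M N : X.Modules)
    (n : Wt κ) where
  Θ : ∀ τ, (supp M (chart V τ) ⟶ N) →ₗ[ZMod 2] Lam κ
  inj : ∀ τ, Function.Injective (Θ τ)
  range : ∀ τ (l : Lam κ), (∃ φ, Θ τ φ = l) ↔ InSpan Lat n τ l
  compat : ∀ τ τ' (h : chart V τ ≤ chart V τ') (φ : supp M (chart V τ') ⟶ N),
    Θ τ (suppLE M h ≫ φ) = Θ τ' φ
  acyc : ∀ τ (i : ℕ) (α : Ext (supp M (chart V τ)) N (i + 1)), α = 0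

variable {V : κ → Bool → X.Opens} {Lat : AddSubgroup (Wt κ)} {M N : X.Modules} {n : Wt κ}
  (w : WtData V Lat M N n)

/-- the Laurent polynomial of a global morphism -/
noncomputable def WtData.glob (φ : M ⟶ N) : Lam κ := w.Θ (tor κ) (suppι M _ ≫ φ)

theorem twt_glob_eq (φ : M ⟶ N) (τ : Cone κ) : w.glob φ = w.Θ τ (suppι M _ ≫ φ) := by
  rw [WtData.glob, ← w.compat (tor κ) τ (tor_le V τ), suppLE_ι_assoc]

theorem WtData.glob_injective (cover : ∀ k, V k false ⊔ V k true = ⊤) :
    Function.Injective w.glob := by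
  intro φ ψ h
  have := epi_cechE V M cover
  rw [← cancel_epi (cechE V M)]
  refine biproduct.hom_ext' _ _ fun τ => ?_
  change cechι V M τ.1 τ.2 ≫ _ = cechι V M τ.1 τ.2 ≫ _
  rw [← Category.assoc, ← Category.assoc, cechι_E]
  apply w.inj τ.1
  rw [← twt_glob_eq, ← twt_glob_eq, h]

theorem WtData.glob_support (φ : M ⟶ N) (e : Wt κ) (he : e ∈ (w.glob φ).coeff.support) :
    e ∈ Good Lat n := by
  have h : ∀ τ, e ∈ Lat ∧ Allowed n τ e := fun τ =>
    (w.range τ _).1 ⟨_, (twt_glob_eq w φ τ).symm⟩ e he
  refine ⟨(h (tor κ)).1, fun k => iff_of_true ?_ ?_⟩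
  · exact (h (vtx fun _ => false)).2 (k, false) rfl
  · exact (h (vtx fun _ => true)).2 (k, true) rfl

omit [Fintype κ] [DecidableEq κ] in
theorem twt_finite {G : Set (Wt κ)} (h : G.Finite) :
    {l : Lam κ | ∀ e ∈ l.coeff.support, e ∈ G}.Finite := by
  have := h.to_subtype
  refine Set.Finite.of_finite_image (f := fun (l : Lam κ) (e : G) => l.coeff e)
    (Set.toFinite _) fun l hl l' hl' e => ?_
  ext x
  by_cases hx : x ∈ G
  · exact congrFun e ⟨x, hx⟩
  · have h1 : l.coeff x = 0 := Finsupp.notMem_support_iff.1 fun h' => hx (hl x h')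
    have h2 : l'.coeff x = 0 := Finsupp.notMem_support_iff.1 fun h' => hx (hl' x h')
    rw [h1, h2]

/-- the cochain of Laurent polynomials attached to a morphism -/
noncomputable def twt_c (i : ℕ) : (cechC V M i ⟶ N) →ₗ[ZMod 2] (Cone κ → Lam κ) where
  toFun z τ := if h : nB τ = i then w.Θ τ (cechι V M τ h ≫ z) else 0
  map_add' z z' := by
    funext τ
    by_cases h : nB τ = i
    · simp only [Pi.add_apply, dif_pos h, Preadditive.comp_add, map_add]
    · simp only [Pi.add_apply, dif_neg h, add_zero]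
  map_smul' a z := by
    funext τ
    by_cases h : nB τ = i
    · simp only [Pi.smul_apply, dif_pos h, Linear.comp_smul, map_smul, RingHom.id_apply]
    · simp only [Pi.smul_apply, dif_neg h, smul_zero]

theorem twt_c_pos {i : ℕ} (z : cechC V M i ⟶ N) {τ : Cone κ} (h : nB τ = i) :
    twt_c w i z τ = w.Θ τ (cechι V M τ h ≫ z) := dif_pos h

theorem twt_c_deg {i : ℕ} (z : cechC V M i ⟶ N) : Deg i (twt_c w i z) := fun _ h => dif_neg h

theorem twt_c_inj (i : ℕ) : Function.Injective (twt_c w i) := by
  intro z z' h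
  refine biproduct.hom_ext' _ _ fun τ => ?_
  change cechι V M τ.1 τ.2 ≫ _ = cechι V M τ.1 τ.2 ≫ _
  apply w.inj τ.1
  rw [← twt_c_pos, ← twt_c_pos, h]

theorem twt_c_span {i : ℕ} (z : cechC V M i ⟶ N) (τ : Cone κ) :
    InSpan Lat n τ (twt_c w i z τ) := by
  by_cases h : nB τ = i
  · exact (w.range τ _).1 ⟨_, (twt_c_pos w z h).symm⟩
  · rw [twt_c_deg w z τ h]
    intro e he
    simp at he

theorem twt_c_surj {i : ℕ} (y : Cone κ → Lam κ) (hy : ∀ τ, InSpan Lat n τ (y τ)) (hd : Deg i y) :
    ∃ z : cechC V M i ⟶ N, twt_c w i z = y := by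
  choose φ hφ using fun τ => (w.range τ (y τ)).2 (hy τ)
  refine ⟨biproduct.desc fun τ : {τ : Cone κ // nB τ = i} => φ τ.1, funext fun τ => ?_⟩
  by_cases h : nB τ = i
  · rw [twt_c_pos w _ h, ← hφ τ]
    congr 1
    exact biproduct.ι_desc _ _
  · rw [twt_c_deg w _ τ h, hd τ h]

theorem twt_c_D {i : ℕ} (z : cechC V M i ⟶ N) :
    twt_c w (i + 1) (cechD V M i ≫ z) = cob (twt_c w i z) := by
  funext τ
  by_cases h : nB τ = i + 1
  · rw [twt_c_pos w _ h, ← Category.assoc, cechι_D, Preadditive.sum_comp, map_sum, cob]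
    refine Finset.sum_congr rfl fun a _ => ?_
    by_cases ha : τ a.1 = none
    · rw [dif_pos ha, if_pos ha, Category.assoc, w.compat, twt_c_pos]
    · rw [dif_neg ha, if_neg ha, zero_comp, map_zero]
  · rw [twt_c_deg w _ τ h, cob]
    refine (Finset.sum_eq_zero fun a _ => ?_).symm
    by_cases ha : τ a.1 = none
    · rw [if_pos ha]
      refine twt_c_deg w z _ fun h' => h ?_
      rw [← nB_update_some ha a.2, h']
    · rw [if_neg ha]

include w in
theorem twt_ac (i m : ℕ) (α : Ext (cechC V M i) N (m + 1)) : α = 0 := by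
  apply (Ext.biproductAddEquiv (biproduct.isBilimit
    fun τ : {τ : Cone κ // nB τ = i} => supp M (chart V τ.1)) N (m + 1)).injective
  funext τ
  exact (w.acyc τ.1 m _).trans (w.acyc τ.1 m _).symm

theorem twt_main {i : ℕ} (z : cechC V M (i + 1) ⟶ N) (hz : cechD V M (i + 1) ≫ z = 0) :
    ∃ y : cechC V M i ⟶ N, ∀ τ, ∀ e ∈ (twt_c w (i + 1) (z - cechD V M i ≫ y) τ).coeff.support,
      e ∈ Good Lat n ∧ ¬ ∀ a, 0 ≤ e a + n a := by
  obtain ⟨y, hy, hd, h⟩ := cob_weights Lat n i (twt_c w (i + 1) z) (twt_c_span w z)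
    (twt_c_deg w z) (by rw [← twt_c_D, hz, map_zero])
  obtain ⟨y', rfl⟩ := twt_c_surj w y hy hd
  refine ⟨y', fun τ => ?_⟩
  rw [map_sub, twt_c_D]
  exact h τ

include w in
theorem WtData.finite_ext (cover : ∀ k, V k false ⊔ V k true = ⊤) (h : (Good Lat n).Finite)
    (i : ℕ) : Module.Finite (ZMod 2) (Ext M N i) := by
  have hf := twt_finite h
  rcases i with _ | i
  · have : Finite (M ⟶ N) := by
      rw [← Set.finite_univ_iff]
      exact Set.Finite.of_injOn (f := w.glob)
        (t := {l : Lam κ | ∀ e ∈ l.coeff.support, e ∈ Good Lat n}) (fun φ _ => w.glob_support φ)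
        (w.glob_injective cover).injOn hf
    have : Finite (Ext M N 0) := Finite.of_equiv _ Ext.homEquiv₀.symm
    exact Module.Finite.of_finite
  · let S : Submodule (ZMod 2) (Lam κ) :=
      { carrier := {l : Lam κ | ∀ e ∈ l.coeff.support, e ∈ Good Lat n}
        zero_mem' := fun e he => by simp at he
        add_mem' := fun {a b} ha hb e he => by
          classical
          rw [AddMonoidAlgebra.coeff_add] at he
          rcases Finset.mem_union.1 (Finsupp.support_add he) with h' | h'
          · exact ha e h'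
          · exact hb e h'
        smul_mem' := fun c a ha e he => by
          rw [AddMonoidAlgebra.coeff_smul] at he
          exact ha e (Finsupp.support_smul he) }
    let W : Submodule (ZMod 2) (cechC V M (i + 1) ⟶ N) :=
      (Submodule.pi Set.univ fun _ => S).comap (twt_c w (i + 1))
    have : Finite W := by
      refine Set.Finite.of_injOn (f := twt_c w (i + 1))
        (t := Set.pi Set.univ fun _ : Cone κ =>
          {l : Lam κ | ∀ e ∈ l.coeff.support, e ∈ Good Lat n})
        (fun z hz => hz) (twt_c_inj w _).injOn (Set.Finite.pi fun _ => hf)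
    have hW : Module.Finite (ZMod 2) W := Module.Finite.of_finite
    refine @LRes.finite_ext _ _ _ _ _ _ (cechRes V M cover) (ZMod 2) _ _ (twt_ac w) i W hW
      fun z hz => ?_
    obtain ⟨y, hy⟩ := twt_main w z hz
    exact ⟨y, fun τ _ e he => (hy τ e he).1⟩

include w in
theorem WtData.ext_zero (cover : ∀ k, V k false ⊔ V k true = ⊤)
    (h : ∀ e ∈ Good Lat n, ∀ a, 0 ≤ e a + n a) (i : ℕ) (α : Ext M N (i + 1)) : α = 0 := by
  refine (cechRes V M cover).ext_zero (ZMod 2) (twt_ac w) i (fun z hz => ?_) α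
  obtain ⟨y, hy⟩ := twt_main w z hz
  refine ⟨y, sub_eq_zero.1 (twt_c_inj w (i + 1) (Eq.trans ?_ (map_zero _).symm))⟩
  funext τ
  ext e
  by_contra he
  have := hy τ e (Finsupp.mem_support_iff.2 he)
  exact this.2 (h e this.1)

end Pool.Agent.Work.MP_910138_ag
end
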