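import Mathlib

/-! Graded maps between cochain complexes, seen as morphisms between the total sums `U K`.
Everything is in characteristic two, so there are no signs. -/

open CategoryTheory Limits CochainComplex.HomComplex

namespace Pool.Agent.Work.MP_910138_ag

universe v u

/-- cochain complexes indexed by the integers -/
abbrev Cx (A : Type u) [Category.{v} A] [Preadditive A] := CochainComplex A ℤ

instance (priority := 50) abelianBiprods {A : Type u} [Category.{v} A] [Abelian A] :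
    HasFiniteBiproducts A := Abelian.hasFiniteBiproducts

variable {A : Type u} [Category.{v} A] [Abelian A] [HasCoproductsOfShape ℤ A]

/-- the sum of all terms -/
noncomputable def U (K : Cx A) : A := ∐ K.X

noncomputable def ιU (K : Cx A) (p : ℤ) : K.X p ⟶ U K := Sigma.ι K.X p

/-- maps out of `U K` -/
noncomputable def descU {K : Cx A} {B : A} (f : ∀ p, K.X p ⟶ B) : U K ⟶ B := Sigma.desc f

@[reassoc]
theorem ιU_descU {K : Cx A} {B : A} (f : ∀ p, K.X p ⟶ B) (p : ℤ) : ιU K p ≫ descU f = f p :=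
  Sigma.ι_desc _ _

noncomputable def πU (K : Cx A) (p : ℤ) : U K ⟶ K.X p :=
  descU fun q => if h : q = p then (K.XIsoOfEq h).hom else 0

/-- `f` is homogeneous of degree `n` -/
def Hg {K L : Cx A} (n : ℤ) (f : U K ⟶ U L) : Prop :=
  ∀ p, ιU K p ≫ f = ιU K p ≫ f ≫ πU L (p + n) ≫ ιU L (p + n)

noncomputable def toU {K L : Cx A} {n : ℤ} (z : Cochain K L n) : U K ⟶ U L :=
  descU fun p => z.v p (p + n) rfl ≫ ιU L (p + n)

noncomputable def ofU {K L : Cx A} (n : ℤ) (f : U K ⟶ U L) : Cochain K L n :=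
  Cochain.mk fun p q _ => ιU K p ≫ f ≫ πU L q

noncomputable def dU (K : Cx A) : U K ⟶ U K := toU (Cochain.diff K)

/-- the differential of the Hom-complex (characteristic two) -/
noncomputable def dl {K L : Cx A} (f : U K ⟶ U L) : U K ⟶ U L := dU K ≫ f + f ≫ dU L

noncomputable def mapU {K L : Cx A} (φ : K ⟶ L) : U K ⟶ U L := toU (Cochain.ofHom φ)

variable {K L M : Cx A} {n m : ℤ}

theorem U_ext {B : A} {f g : U K ⟶ B} (h : ∀ p, ιU K p ≫ f = ιU K p ≫ g) : f = g :=
  Sigma.hom_ext _ _ h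

@[reassoc (attr := simp)]
theorem ιU_πU_self (p : ℤ) : ιU K p ≫ πU K p = 𝟙 _ := by
  rw [πU, ιU_descU, dif_pos rfl]
  simp

@[reassoc]
theorem ιU_πU_ne {p q : ℤ} (h : p ≠ q) : ιU K p ≫ πU K q = 0 := by
  rw [πU, ιU_descU, dif_neg h]

@[reassoc]
theorem ιU_toU (z : Cochain K L n) (p q : ℤ) (h : p + n = q) :
    ιU K p ≫ toU z = z.v p q h ≫ ιU L q := by
  subst h
  rw [toU, ιU_descU]

theorem hg_toU (z : Cochain K L n) : Hg n (toU z) := by
  intro p
  rw [ιU_toU z p _ rfl, ιU_toU_assoc z p _ rfl]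
  simp

theorem toU_ofU {f : U K ⟶ U L} (hf : Hg n f) : toU (ofU n f) = f := by
  refine U_ext fun p => ?_
  rw [ιU_toU _ p _ rfl, hf p]
  simp [ofU]

theorem ofU_toU (z : Cochain K L n) : ofU n (toU z) = z := by
  ext p q h
  simp [ofU, ιU_toU_assoc z p q h]

theorem toU_injective : Function.Injective (toU : Cochain K L n → _) := fun a b h => by
  rw [← ofU_toU a, h, ofU_toU]

theorem Hg.exists {f : U K ⟶ U L} (hf : Hg n f) : ∃ z : Cochain K L n, toU z = f :=
  ⟨_, toU_ofU hf⟩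

theorem toU_add (z w : Cochain K L n) : toU (z + w) = toU z + toU w := by
  refine U_ext fun p => ?_
  simp [ιU_toU _ p _ rfl, Preadditive.comp_add, Preadditive.add_comp]

theorem toU_zero : toU (0 : Cochain K L n) = 0 := by
  refine U_ext fun p => ?_
  simp [ιU_toU _ p _ rfl]

theorem ofU_add (f g : U K ⟶ U L) : ofU n (f + g) = ofU n f + ofU n g := by
  ext p q h
  simp [ofU, Preadditive.comp_add, Preadditive.add_comp]

theorem ofU_zero : ofU n (0 : U K ⟶ U L) = 0 := by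
  ext p q h
  simp [ofU]

theorem toU_comp (z : Cochain K L n) (w : Cochain L M m) {k : ℤ} (h : n + m = k) :
    toU (z.comp w h) = toU z ≫ toU w := by
  refine U_ext fun p => ?_
  rw [ιU_toU _ p (p + n + m) (by omega), ιU_toU_assoc _ p _ rfl, ιU_toU _ (p + n) _ rfl,
    Cochain.comp_v z w h p (p + n) (p + n + m) rfl rfl, Category.assoc]

theorem Hg.zero : Hg n (0 : U K ⟶ U L) := fun p => by simp

theorem Hg.add {f g : U K ⟶ U L} (hf : Hg n f) (hg : Hg n g) : Hg n (f + g) := by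
  obtain ⟨z, rfl⟩ := hf.exists
  obtain ⟨w, rfl⟩ := hg.exists
  rw [← toU_add]
  exact hg_toU _

theorem Hg.sum {ι : Type*} (s : Finset ι) {f : ι → (U K ⟶ U L)} (hf : ∀ i ∈ s, Hg n (f i)) :
    Hg n (∑ i ∈ s, f i) :=
  Finset.sum_induction f (Hg n) (fun _ _ => Hg.add) Hg.zero hf

theorem Hg.comp {f : U K ⟶ U L} {g : U L ⟶ U M} (hf : Hg n f) (hg : Hg m g) {k : ℤ}
    (h : n + m = k) : Hg k (f ≫ g) := by
  obtain ⟨z, rfl⟩ := hf.exists
  obtain ⟨w, rfl⟩ := hg.exists
  rw [← toU_comp z w h]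
  exact hg_toU _

theorem Hg.of_eq {f : U K ⟶ U L} (hf : Hg n f) (h : n = m) : Hg m f := h ▸ hf

theorem Hg.eq_zero_of_ne {f : U K ⟶ U L} (hf : Hg n f) (hm : Hg m f) (h : n ≠ m) : f = 0 := by
  refine U_ext fun p => ?_
  rw [hm p, reassoc_of% (hf p), ιU_πU_ne_assoc (by omega)]
  simp

theorem hg_dU : Hg 1 (dU K) := hg_toU _

theorem hg_mapU (φ : K ⟶ L) : Hg 0 (mapU φ) := hg_toU _

@[reassoc]
theorem ιU_mapU (φ : K ⟶ L) (p : ℤ) : ιU K p ≫ mapU φ = φ.f p ≫ ιU L p := by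
  rw [mapU, ιU_toU _ p p (add_zero p)]
  simp

@[reassoc]
theorem ιU_dU (p q : ℤ) (h : p + 1 = q) : ιU K p ≫ dU K = K.d p q ≫ ιU K q := by
  rw [dU, ιU_toU _ p q h]
  simp

theorem mapU_id : mapU (𝟙 K) = 𝟙 _ := U_ext fun p => by simp [ιU_mapU]

theorem mapU_comp (φ : K ⟶ L) (ψ : L ⟶ M) : mapU (φ ≫ ψ) = mapU φ ≫ mapU ψ :=
  U_ext fun p => by simp [ιU_mapU, ιU_mapU_assoc]

theorem mapU_add (φ ψ : K ⟶ L) : mapU (φ + ψ) = mapU φ + mapU ψ :=
  U_ext fun p => by simp [ιU_mapU, Preadditive.comp_add, Preadditive.add_comp]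

theorem mapU_zero : mapU (0 : K ⟶ L) = 0 := U_ext fun p => by simp [ιU_mapU]

theorem mapU_injective : Function.Injective (mapU : (K ⟶ L) → _) := fun a b h =>
  Cochain.ofHom_injective (toU_injective h)

theorem Hg.id : Hg 0 (𝟙 (U K)) := mapU_id (K := K) ▸ hg_mapU _

@[reassoc (attr := simp)]
theorem dU_dU : dU K ≫ dU K = 0 := U_ext fun p => by
  rw [ιU_dU_assoc p _ rfl, ιU_dU (p + 1) _ rfl]
  simp

theorem Hg.dl {f : U K ⟶ U L} (hf : Hg n f) {k : ℤ} (h : n + 1 = k) : Hg k (dl f) :=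
  (hg_dU.comp hf (by omega)).add (hf.comp hg_dU h)

theorem dl_add (f g : U K ⟶ U L) : dl (f + g) = dl f + dl g := by
  simp only [dl, Preadditive.comp_add, Preadditive.add_comp]
  abel

theorem dl_zero : dl (0 : U K ⟶ U L) = 0 := by simp [dl]

theorem dl_sum {ι : Type*} (s : Finset ι) (f : ι → (U K ⟶ U L)) :
    dl (∑ i ∈ s, f i) = ∑ i ∈ s, dl (f i) := by
  simp only [dl, Preadditive.comp_sum, Preadditive.sum_comp, Finset.sum_add_distrib]

variable [Linear (ZMod 2) A]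

theorem add_self2 {X Y : A} (f : X ⟶ Y) : f + f = 0 := by
  rw [← two_smul (ZMod 2) f, show (2 : ZMod 2) = 0 from rfl, zero_smul]

theorem neg2 {X Y : A} (f : X ⟶ Y) : -f = f := neg_eq_of_add_eq_zero_left (add_self2 f)

theorem eq_of_add_eq_zero2 {X Y : A} {f g : X ⟶ Y} (h : f + g = 0) : f = g := by
  rw [eq_neg_of_add_eq_zero_left h, neg2]

theorem units_smul2 {X Y : A} (e : ℤˣ) (f : X ⟶ Y) : e • f = f := by
  rcases Int.units_eq_one_or e with rfl | rfl
  · simp
  · simp [neg2]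

theorem Hg.smul {f : U K ⟶ U L} (c : ZMod 2) (hf : Hg n f) : Hg n (c • f) := fun p => by
  simp only [Linear.comp_smul, Linear.smul_comp]
  rw [← hf p]

theorem dl_smul (c : ZMod 2) (f : U K ⟶ U L) : dl (c • f) = c • dl f := by
  simp [dl, smul_add]

theorem dl_comp (f : U K ⟶ U L) (g : U L ⟶ U M) : dl (f ≫ g) = dl f ≫ g + f ≫ dl g := by
  simp only [dl, Preadditive.comp_add, Preadditive.add_comp, Category.assoc]
  rw [add_assoc, ← add_assoc (f ≫ dU L ≫ g), add_self2, zero_add]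

theorem dl_dl (f : U K ⟶ U L) : dl (dl f) = 0 := by
  simp only [dl, Preadditive.comp_add, Preadditive.add_comp, Category.assoc, dU_dU_assoc, dU_dU,
    zero_comp, comp_zero, zero_add, add_zero]
  exact add_self2 _

theorem toU_δ (z : Cochain K L n) (h : n + 1 = m) : toU (δ n m z) = dl (toU z) := by
  refine U_ext fun p => ?_
  rw [ιU_toU _ p (p + n + 1) (by omega), δ_v n m h z p (p + n + 1) (by omega) (p + n) (p + 1)
    (by omega) rfl, units_smul2, dl, Preadditive.comp_add, ιU_dU_assoc p _ rfl,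
    ιU_toU _ (p + 1) (p + n + 1) (by omega), ιU_toU_assoc _ p _ rfl, ιU_dU (p + n) _ rfl,
    Preadditive.add_comp, add_comm, Category.assoc, Category.assoc]

theorem dl_mapU (φ : K ⟶ L) : dl (mapU φ) = 0 := by
  rw [mapU, ← toU_δ _ (zero_add 1), δ_ofHom, toU_zero]

theorem dl_id : dl (𝟙 (U K)) = 0 := mapU_id (K := K) ▸ dl_mapU _

/-- the cocycle attached to a closed homogeneous map -/
noncomputable def cocU (n : ℤ) (f : U K ⟶ U L) (hf : Hg n f) (hd : dl f = 0) : Cocycle K L n :=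
  Cocycle.mk (ofU n f) (n + 1) rfl (toU_injective (by rw [toU_δ _ rfl, toU_ofU hf, hd, toU_zero]))

/-- the chain map attached to a closed map of degree zero -/
noncomputable def homU (f : U K ⟶ U L) (hf : Hg 0 f) (hd : dl f = 0) : K ⟶ L :=
  (cocU 0 f hf hd).homOf

theorem mapU_homU (f : U K ⟶ U L) (hf : Hg 0 f) (hd : dl f = 0) : mapU (homU f hf hd) = f := by
  rw [mapU, homU, Cocycle.cochain_ofHom_homOf_eq_coe]
  exact toU_ofU hf

end Pool.Agent.Work.MP_910138_ag
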