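import Pool.Agent.Work.MP_910138_ag.Defs
import Pool.Agent.Work.MP_910138_ag.U

/-! Section-level API for sheaves of modules on a scheme. -/

open CategoryTheory Limits AlgebraicGeometry TopologicalSpace Opposite

namespace Pool.Agent.Work.MP_910138_ag

variable {X : Scheme.{0}}

instance modHasExt (X : Scheme.{0}) : HasExt.{0} X.Modules := hasExt_of_enoughInjectives _

/-- the structure sheaf as a module -/
noncomputable def OX (X : Scheme.{0}) : X.Modules := SheafOfModules.unit X.ringCatSheaf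

/-- restriction of sections of a module -/
noncomputable def res (M : X.Modules) {V W : X.Opens} (h : V ≤ W) : Γ(M, W) →+ Γ(M, V) :=
  (M.presheaf.map (homOfLE h).op).hom

/-- restriction of functions -/
noncomputable def resO (X : Scheme.{0}) {V W : X.Opens} (h : V ≤ W) : Γ(X, W) →+* Γ(X, V) :=
  (X.presheaf.map (homOfLE h).op).hom

variable {M N L : X.Modules} {U V W : X.Opens}

theorem res_res (h : U ≤ V) (h' : V ≤ W) (s : Γ(M, W)) :
    res M h (res M h' s) = res M (h.trans h') s := by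
  change (M.presheaf.map (homOfLE h').op ≫ M.presheaf.map (homOfLE h).op).hom s = _
  rw [← M.presheaf.map_comp]
  rfl

theorem res_self (h : U ≤ U) (s : Γ(M, U)) : res M h s = s := by
  change (M.presheaf.map (𝟙 _)).hom s = _
  rw [M.presheaf.map_id]
  rfl

theorem resO_resO (h : U ≤ V) (h' : V ≤ W) (s : Γ(X, W)) :
    resO X h (resO X h' s) = resO X (h.trans h') s := by
  change (X.presheaf.map (homOfLE h').op ≫ X.presheaf.map (homOfLE h).op).hom s = _
  rw [← X.presheaf.map_comp]
  rfl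

theorem resO_self (h : U ≤ U) (s : Γ(X, U)) : resO X h s = s := by
  change (X.presheaf.map (𝟙 _)).hom s = _
  rw [X.presheaf.map_id]
  rfl

theorem res_smul (h : U ≤ V) (r : Γ(X, V)) (s : Γ(M, V)) :
    res M h (r • s) = resO X h r • res M h s := M.map_smul (homOfLE h) r s

theorem app_res (φ : M ⟶ N) (h : U ≤ V) (s : Γ(M, V)) :
    φ.app U (res M h s) = res N h (φ.app V s) :=
  ConcreteCategory.congr_hom (φ.mapPresheaf.naturality (homOfLE h).op) s

theorem comp_app_apply (φ : M ⟶ N) (ψ : N ⟶ L) (s : Γ(M, U)) :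
    (φ ≫ ψ).app U s = ψ.app U (φ.app U s) := rfl

theorem add_app_apply (φ ψ : M ⟶ N) (s : Γ(M, U)) :
    (φ + ψ).app U s = φ.app U s + ψ.app U s := rfl

theorem hom_ext' {φ ψ : M ⟶ N} (h : ∀ U (s : Γ(M, U)), φ.app U s = ψ.app U s) : φ = ψ :=
  Scheme.Modules.hom_ext _ _ fun U => by
    ext s
    exact h U s

/-- the action of a morphism on sections, as a linear map -/
noncomputable def appL (φ : M ⟶ N) (U : X.Opens) : Γ(M, U) →ₗ[Γ(X, U)] Γ(N, U) where
  toFun := φ.app U
  map_add' := map_add _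
  map_smul' r s := φ.app_smul r s

theorem appL_apply (φ : M ⟶ N) (s : Γ(M, U)) : appL φ U s = φ.app U s := rfl

/-- the underlying sheaf of abelian groups -/
noncomputable def abSheaf (M : X.Modules) : TopCat.Sheaf Ab X := ⟨M.presheaf, M.isSheaf⟩

theorem sep_cover {ι : Type} (V : ι → X.Opens) (hV : ∀ i, V i ≤ U) (hU : U ≤ iSup V)
    {s t : Γ(M, U)} (h : ∀ i, res M (hV i) s = res M (hV i) t) : s = t :=
  (abSheaf M).eq_of_locally_eq' V U (fun i => homOfLE (hV i)) hU s t h

theorem sep {s t : Γ(M, U)}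
    (h : ∀ x ∈ U, ∃ (V : X.Opens) (hV : V ≤ U), x ∈ V ∧ res M hV s = res M hV t) : s = t := by
  choose V hV hx hs using h
  refine sep_cover (fun x : U => V x.1 x.2) (fun x => hV x.1 x.2) (fun x hx' => ?_)
    fun x => hs x.1 x.2
  exact Opens.mem_iSup.2 ⟨⟨x, hx'⟩, hx x hx'⟩

theorem glue {ι : Type} (V : ι → X.Opens) (hV : ∀ i, V i ≤ U) (hU : U ≤ iSup V)
    (s : ∀ i, Γ(M, V i))
    (hs : ∀ i j, res M (inf_le_left : V i ⊓ V j ≤ V i) (s i) = res M inf_le_right (s j)) :
    ∃ t : Γ(M, U), ∀ i, res M (hV i) t = s i :=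
  ((abSheaf M).existsUnique_gluing' V U (fun i => homOfLE (hV i)) hU s hs).exists

theorem sepO {s t : Γ(X, U)}
    (h : ∀ x ∈ U, ∃ (V : X.Opens) (hV : V ≤ U), x ∈ V ∧ resO X hV s = resO X hV t) : s = t :=
  sep (M := OX X) h

theorem glueO {ι : Type} (V : ι → X.Opens) (hV : ∀ i, V i ≤ U) (hU : U ≤ iSup V)
    (s : ∀ i, Γ(X, V i))
    (hs : ∀ i j, resO X (inf_le_left : V i ⊓ V j ≤ V i) (s i) = resO X inf_le_right (s j)) :
    ∃ t : Γ(X, U), ∀ i, resO X (hV i) t = s i :=
  glue (M := OX X) V hV hU s hs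

/-- a morphism from compatible linear maps on sections -/
noncomputable def mkHom (φ : ∀ U, Γ(M, U) →ₗ[Γ(X, U)] Γ(N, U))
    (nat : ∀ (U V : X.Opens) (h : U ≤ V) (s : Γ(M, V)), φ U (res M h s) = res N h (φ V s)) :
    M ⟶ N :=
  SheafOfModules.Hom.mk (PresheafOfModules.homMk
    { app := fun U => AddCommGrpCat.ofHom (φ U.unop).toAddMonoidHom
      naturality := fun U V f => by
        ext s
        exact nat V.unop U.unop f.unop.le s }
    (fun U r m => (φ U.unop).map_smul r m))

theorem mkHom_app (φ : ∀ U, Γ(M, U) →ₗ[Γ(X, U)] Γ(N, U)) (nat) (s : Γ(M, U)) :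
    (mkHom φ nat).app U s = φ U s := rfl

/-- data for a subsheaf of modules: a family of submodules defined by a local condition -/
structure SubData (M : X.Modules) where
  sub : ∀ U : X.Opens, Submodule Γ(X, U) Γ(M, U)
  res_mem : ∀ {U V : X.Opens} (h : U ≤ V) {s : Γ(M, V)}, s ∈ sub V → res M h s ∈ sub U
  loc : ∀ {U : X.Opens} {s : Γ(M, U)},
    (∀ x ∈ U, ∃ (V : X.Opens) (hV : V ≤ U), x ∈ V ∧ res M hV s ∈ sub V) → s ∈ sub U

/-- the sub-presheaf -/
noncomputable def SubData.pre (S : SubData M) : PresheafOfModules.Submodule M.val where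
  obj U := S.sub U.unop
  map f _ hs := S.res_mem f.unop.le hs

/-- the subsheaf -/
noncomputable def SubData.mod (S : SubData M) : X.Modules where
  val := S.pre.toPresheafOfModules
  isSheaf := by
    change TopCat.Presheaf.IsSheaf (X := X.toTopCat) _
    rw [TopCat.Presheaf.isSheaf_iff_isSheafUniqueGluing]
    intro ι V sf hsf
    obtain ⟨t, ht⟩ := glue (M := M) V (le_iSup V) le_rfl (fun i => (sf i).1)
      (fun i j => congrArg Subtype.val (hsf i j))
    refine ⟨⟨t, S.loc fun x hx => ?_⟩, fun i => Subtype.ext (ht i), fun s hs => ?_⟩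
    · obtain ⟨i, hi⟩ := Opens.mem_iSup.1 hx
      exact ⟨V i, le_iSup V i, hi, (ht i).symm ▸ (sf i).2⟩
    · exact Subtype.ext (sep_cover (M := M) V (le_iSup V) le_rfl fun i =>
        (congrArg Subtype.val (hs i)).trans (ht i).symm)

/-- the inclusion -/
noncomputable def SubData.ι (S : SubData M) : S.mod ⟶ M := SheafOfModules.Hom.mk S.pre.ι

theorem SubData.ι_injective (S : SubData M) (U : X.Opens) : Function.Injective (S.ι.app U) :=
  Subtype.val_injective

theorem SubData.ι_mem (S : SubData M) (s : Γ(S.mod, U)) : S.ι.app U s ∈ S.sub U := s.2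

/-- a section of the subsheaf -/
noncomputable def SubData.mkSec (S : SubData M) (s : Γ(M, U)) (hs : s ∈ S.sub U) : Γ(S.mod, U) :=
  (⟨s, hs⟩ : S.sub U)

theorem SubData.ι_mkSec (S : SubData M) (s : Γ(M, U)) (hs : s ∈ S.sub U) :
    S.ι.app U (S.mkSec s hs) = s := rfl

/-- factorisation through the subsheaf -/
noncomputable def SubData.lift (S : SubData M) (φ : N ⟶ M)
    (h : ∀ U (s : Γ(N, U)), φ.app U s ∈ S.sub U) : N ⟶ S.mod :=
  mkHom (fun U => LinearMap.codRestrict (S.sub U) (appL φ U) (h U))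
    (fun U V hUV s => Subtype.ext (app_res φ hUV s))

@[reassoc]
theorem SubData.lift_ι (S : SubData M) (φ : N ⟶ M) (h) : S.lift φ h ≫ S.ι = φ :=
  hom_ext' fun _ _ => rfl

instance SubData.mono_ι (S : SubData M) : Mono S.ι :=
  ⟨fun _ _ h => hom_ext' fun U s => S.ι_injective U (by
    rw [← comp_app_apply, h, comp_app_apply])⟩

/-- sections with support in `V` -/
noncomputable def suppData (M : X.Modules) (V : X.Opens) : SubData M where
  sub W :=
    { carrier := {s | ∀ x ∈ W, x ∉ V → ∃ (W' : X.Opens) (h : W' ≤ W), x ∈ W' ∧ res M h s = 0}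
      zero_mem' := fun x hx _ => ⟨W, le_rfl, hx, map_zero _⟩
      add_mem' := fun {a b} ha hb x hx hx' => by
        obtain ⟨W₁, h₁, x₁, e₁⟩ := ha x hx hx'
        obtain ⟨W₂, h₂, x₂, e₂⟩ := hb x hx hx'
        refine ⟨W₁ ⊓ W₂, inf_le_left.trans h₁, ⟨x₁, x₂⟩, ?_⟩
        rw [map_add, ← res_res inf_le_left h₁, e₁, ← res_res inf_le_right h₂, e₂, map_zero,
          map_zero, add_zero]
      smul_mem' := fun r a ha x hx hx' => by
        obtain ⟨W₁, h₁, x₁, e₁⟩ := ha x hx hx'
        exact ⟨W₁, h₁, x₁, by rw [res_smul, e₁, smul_zero]⟩ }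
  res_mem {U W} h s hs x hx hx' := by
    obtain ⟨W₁, h₁, x₁, e₁⟩ := hs x (h hx) hx'
    refine ⟨U ⊓ W₁, inf_le_left, ⟨hx, x₁⟩, ?_⟩
    rw [res_res, ← res_res inf_le_right h₁, e₁, map_zero]
  loc {U s} hs x hx hx' := by
    obtain ⟨W, hW, xW, hs'⟩ := hs x hx
    obtain ⟨W₁, h₁, x₁, e₁⟩ := hs' x xW hx'
    exact ⟨W₁, h₁.trans hW, x₁, by rw [← res_res h₁ hW, e₁]⟩

/-- `j_! (M|_V)`: the subsheaf of sections with support in `V` -/
noncomputable def supp (M : X.Modules) (V : X.Opens) : X.Modules := (suppData M V).mod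

/-- the inclusion -/
noncomputable def suppι (M : X.Modules) (V : X.Opens) : supp M V ⟶ M := (suppData M V).ι

instance (M : X.Modules) (V : X.Opens) : Mono (suppι M V) := (suppData M V).mono_ι

theorem mem_suppData {s : Γ(M, W)} : s ∈ (suppData M V).sub W ↔
    ∀ x ∈ W, x ∉ V → ∃ (W' : X.Opens) (h : W' ≤ W), x ∈ W' ∧ res M h s = 0 := Iff.rfl

theorem mem_suppData_of_le (h : W ≤ V) (s : Γ(M, W)) : s ∈ (suppData M V).sub W :=
  fun _ hx hx' => absurd (h hx) hx'

theorem suppι_bijective (h : W ≤ V) : Function.Bijective ((suppι M V).app W) :=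
  ⟨(suppData M V).ι_injective W, fun s => ⟨(suppData M V).mkSec s (mem_suppData_of_le h s), rfl⟩⟩

/-- monotonicity in the open set -/
noncomputable def suppLE (M : X.Modules) (h : V ≤ W) : supp M V ⟶ supp M W :=
  (suppData M W).lift (suppι M V) fun U s x hx hx' =>
    (suppData M V).ι_mem s x hx fun hV => hx' (h hV)

@[reassoc (attr := simp)]
theorem suppLE_ι (h : V ≤ W) : suppLE M h ≫ suppι M W = suppι M V := (suppData M W).lift_ι _ _

@[reassoc (attr := simp)]
theorem suppLE_comp (h : U ≤ V) (h' : V ≤ W) : suppLE M h ≫ suppLE M h' = suppLE M (h.trans h') := by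
  rw [← cancel_mono (suppι M W)]
  simp

theorem suppLE_self (h : U ≤ U) : suppLE M h = 𝟙 _ := by
  rw [← cancel_mono (suppι M U)]
  simp

/-- `M` is quasi-coherent on the (affine) open `U`, at the level of sections -/
structure QCOn (U : X.Opens) (M : X.Modules) : Prop where
  ext : ∀ (f : Γ(X, U)) (s : Γ(M, X.basicOpen f)), ∃ (n : ℕ) (t : Γ(M, U)),
    res M (X.basicOpen_le f) t = resO X (X.basicOpen_le f) f ^ n • s
  tor : ∀ (f : Γ(X, U)) (t : Γ(M, U)), res M (X.basicOpen_le f) t = 0 → ∃ n : ℕ, f ^ n • t = 0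

/-- `g` is a basis of `M` over `V` -/
def IsBasisOn {I : Type} [Fintype I] (M : X.Modules) (V : X.Opens) (g : I → Γ(M, V)) : Prop :=
  ∀ (W : X.Opens) (h : W ≤ V),
    Function.Bijective fun r : I → Γ(X, W) => ∑ i, r i • res M h (g i)

/-- `M` is locally free of finite rank, at the level of sections -/
def LFin (M : X.Modules) : Prop :=
  ∀ x : X, ∃ (V : X.Opens) (_ : x ∈ V) (I : Type) (_ : Fintype I) (g : I → Γ(M, V)),
    IsBasisOn M V g

/-- `g` generates `M` freely over `V` -/
def IsGen (M : X.Modules) (V : X.Opens) (g : Γ(M, V)) : Prop :=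
  ∀ (W : X.Opens) (h : W ≤ V), Function.Bijective fun r : Γ(X, W) => r • res M h g

/-- multiplication by a global function -/
noncomputable def mulHom (M : X.Modules) (r : Γ(X, ⊤)) : M ⟶ M :=
  mkHom (fun U => resO X (le_top : U ≤ ⊤) r • LinearMap.id) (fun U V h s => by
    change resO X (le_top : U ≤ ⊤) r • res M h s = res M h (resO X (le_top : V ≤ ⊤) r • s)
    rw [res_smul, resO_resO])

theorem mulHom_app (r : Γ(X, ⊤)) (s : Γ(M, U)) :
    (mulHom M r).app U s = resO X (le_top : U ≤ ⊤) r • s := rfl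

/-- the linear structure on modules over a scheme over `k` -/
noncomputable instance modLinear (k : Type) [Field k] (X : Scheme.{0}) [Algebra k Γ(X, ⊤)] :
    Linear k X.Modules where
  homModule M N :=
    { smul := fun c f => f ≫ mulHom N (algebraMap k Γ(X, ⊤) c)
      one_smul := fun f => hom_ext' fun U s => by
        change resO X (le_top : U ≤ ⊤) (algebraMap k Γ(X, ⊤) 1) • f.app U s = f.app U s
        rw [map_one, map_one, one_smul]
      mul_smul := fun a b f => hom_ext' fun U s => by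
        change resO X (le_top : U ≤ ⊤) (algebraMap k Γ(X, ⊤) (a * b)) • f.app U s =
          resO X (le_top : U ≤ ⊤) (algebraMap k Γ(X, ⊤) a) •
            resO X (le_top : U ≤ ⊤) (algebraMap k Γ(X, ⊤) b) • f.app U s
        rw [map_mul, map_mul, mul_smul]
      smul_zero := fun _ => zero_comp
      smul_add := fun _ _ _ => Preadditive.add_comp _ _ _ _ _ _
      add_smul := fun a b f => hom_ext' fun U s => by
        change resO X (le_top : U ≤ ⊤) (algebraMap k Γ(X, ⊤) (a + b)) • f.app U s =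
          resO X (le_top : U ≤ ⊤) (algebraMap k Γ(X, ⊤) a) • f.app U s +
            resO X (le_top : U ≤ ⊤) (algebraMap k Γ(X, ⊤) b) • f.app U s
        rw [map_add, map_add, add_smul]
      zero_smul := fun f => hom_ext' fun U s => by
        change resO X (le_top : U ≤ ⊤) (algebraMap k Γ(X, ⊤) 0) • f.app U s = 0
        rw [map_zero, map_zero, zero_smul] }
  smul_comp _ _ _ c f g := hom_ext' fun U s => g.app_smul _ _
  comp_smul _ _ _ f c g := (Category.assoc _ _ _).symm

theorem smul_app {k : Type} [Field k] [Algebra k Γ(X, ⊤)] (c : k) (f : M ⟶ N) (s : Γ(M, U)) :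
    (c • f).app U s = resO X (le_top : U ≤ ⊤) (algebraMap k Γ(X, ⊤) c) • f.app U s := rfl

end Pool.Agent.Work.MP_910138_ag
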