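import Pool.Agent.Work.MP_910138_ag.GQC

-- merged part: Pool.Agent.Work.MP_910138_ag.GQCM
section
/-! Comparison with the definitions of Mathlib. -/

open CategoryTheory Limits AlgebraicGeometry TopologicalSpace Opposite Abelian

namespace Pool.Agent.Work.MP_910138_ag

variable {X : Scheme.{0}} {M N : X.Modules} {U V W : X.Opens}

theorem gqcm_image_top (hU : IsAffineOpen U) : hU.fromSpec ''ᵁ ⊤ = U := by
  rw [Scheme.Hom.image_top_eq_opensRange, hU.opensRange_fromSpec]

theorem gqcm_image_le (hU : IsAffineOpen U) (A : (Spec Γ(X, U)).Opens) :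
    hU.fromSpec ''ᵁ A ≤ U :=
  (Scheme.Hom.image_mono _ le_top).trans (gqcm_image_top hU).le

set_option backward.isDefEq.respectTransparency false in
theorem gqcm_appIso (hU : IsAffineOpen U) (A : (Spec Γ(X, U)).Opens) :
    (Scheme.ΓSpecIso Γ(X, U)).inv ≫ (Spec Γ(X, U)).presheaf.map A.leTop.op ≫
      (hU.fromSpec.appIso A).inv = X.presheaf.map (homOfLE (gqcm_image_le hU A)).op := by
  rw [← Category.assoc, Iso.comp_inv_eq, Scheme.Hom.appIso_hom, Scheme.Hom.naturality_assoc,
    hU.fromSpec_app_self, Category.assoc, ← Functor.map_comp, ← Functor.map_comp]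
  rfl

theorem gqcm_smul (hU : IsAffineOpen U) (A : (Spec Γ(X, U)).Opens) (r : Γ(X, U))
    (x : Γ(M.restrict hU.fromSpec, A)) :
    (M.restrictAppIso hU.fromSpec A).hom (r • x) =
      resO X (gqcm_image_le hU A) r • (M.restrictAppIso hU.fromSpec A).hom x := by
  have h := ConcreteCategory.congr_hom (gqcm_appIso hU A) r
  have h2 : resO X (gqcm_image_le hU A) r = (hU.fromSpec.appIso A).inv
      ((Spec Γ(X, U)).presheaf.map A.leTop.op ((Scheme.ΓSpecIso Γ(X, U)).inv r)) := h.symm
  rw [h2]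
  rfl

/-- the two conditions for one function, with free source and target -/
def gqcm_P (M : X.Modules) (f : Γ(X, U)) (A B : X.Opens) (hA : A ≤ U) (hB : B ≤ A) : Prop :=
  (∀ s : Γ(M, B), ∃ (n : ℕ) (t : Γ(M, A)), res M hB t = resO X (hB.trans hA) (f ^ n) • s) ∧
  (∀ t : Γ(M, A), res M hB t = 0 → ∃ n : ℕ, resO X hA (f ^ n) • t = 0)

theorem gqcm_P_congr (f : Γ(X, U)) {A B A' B' : X.Opens} (hA : A ≤ U) (hB : B ≤ A)
    (hA' : A' ≤ U) (hB' : B' ≤ A') (eA : A = A') (eB : B = B') :
    gqcm_P M f A B hA hB ↔ gqcm_P M f A' B' hA' hB' := by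
  subst eA eB
  rfl

theorem gqcm_qcOn_iff : QCOn U M ↔
    ∀ f : Γ(X, U), gqcm_P M f U (X.basicOpen f) le_rfl (X.basicOpen_le f) := by
  refine ⟨fun h f => ⟨fun s => ?_, fun t ht => ?_⟩, fun h => ⟨fun f s => ?_, fun f t ht => ?_⟩⟩
  · obtain ⟨n, t, ht⟩ := h.ext f s
    exact ⟨n, t, by rw [map_pow]; exact ht⟩
  · obtain ⟨n, hn⟩ := h.tor f t ht
    exact ⟨n, by rw [resO_self]; exact hn⟩
  · obtain ⟨n, t, ht⟩ := (h f).1 s
    exact ⟨n, t, by rw [map_pow] at ht; exact ht⟩
  · obtain ⟨n, hn⟩ := (h f).2 t ht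
    exact ⟨n, by rw [resO_self] at hn; exact hn⟩

theorem gqcm_localizing_iff (hU : IsAffineOpen U) :
    IsLocalizing (modulesSpecToSheaf.obj (M.restrict hU.fromSpec)) ↔ QCOn U M := by
  rw [gqcm_qcOn_iff]
  refine forall_congr' fun f => ?_
  rw [← gqcm_P_congr (M := M) f (gqcm_image_le hU ⊤)
    (Scheme.Hom.image_mono hU.fromSpec
      (le_top : (PrimeSpectrum.basicOpen f : (Spec Γ(X, U)).Opens) ≤ ⊤)) le_rfl
    (X.basicOpen_le f) (gqcm_image_top hU) (hU.fromSpec_image_basicOpen f)]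
  let φ := ((modulesSpecToSheaf.obj (M.restrict hU.fromSpec)).obj.map
    (PrimeSpectrum.basicOpen f).leTop.op).hom
  refine ⟨fun h => ?_, fun h => IsLocalizedModule.Away.mk_of_addCommGroup ?_ ?_ ?_⟩
  · have hf : IsLocalizedModule.Away f φ := h
    refine ⟨fun s => ?_, fun t ht => ?_⟩
    · obtain ⟨n, y, hy⟩ := hf.surj _ _ s
      exact ⟨n, y, hy.symm.trans (gqcm_smul hU (PrimeSpectrum.basicOpen f) (f ^ n) s)⟩
    · obtain ⟨⟨_, n, rfl⟩, hn⟩ := (IsLocalizedModule.eq_zero_iff (.powers f) φ).mp ht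
      exact ⟨n, (gqcm_smul hU ⊤ (f ^ n) t).symm.trans hn⟩
  · exact Scheme.Modules.isUnit_algebraMap_end_of_le_basicOpen f le_rfl
  · intro x
    obtain ⟨n, t, ht⟩ := h.1 x
    exact ⟨n, t, (gqcm_smul hU (PrimeSpectrum.basicOpen f) (f ^ n) x).trans ht.symm⟩
  · intro x hx
    obtain ⟨n, hn⟩ := h.2 x hx
    exact ⟨n, (gqcm_smul hU ⊤ (f ^ n) x).trans hn⟩

theorem qcOn_of_isQuasicoherent (hM : SheafOfModules.IsQuasicoherent M) (hU : IsAffineOpen U) :
    QCOn U M := by
  rw [← gqcm_localizing_iff hU, ← isIso_fromTildeΓ_iff_isLocalizing]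
  infer_instance

set_option backward.isDefEq.respectTransparency false in
theorem gqcm_presentation (hU : IsAffineOpen U) (h : QCOn U M) :
    Nonempty (SheafOfModules.over M U).Presentation := by
  rw [← gqcm_localizing_iff hU, ← isIso_fromTildeΓ_iff_isLocalizing] at h
  have P0 : (M.restrict hU.fromSpec).Presentation :=
    SheafOfModules.Presentation.ofIsIso.{0, 0, 0} (M.restrict hU.fromSpec).fromTildeΓ
      (presentationTilde _ Set.univ (by simp) _ (Submodule.span_eq _))
  have P1 := Scheme.Modules.presentationRestrict hU.isoSpec.hom P0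
  let iso : Scheme.Modules.restrictFunctor hU.fromSpec ⋙
      Scheme.Modules.restrictFunctor hU.isoSpec.hom ≅
      SheafOfModules.overFunctor X.ringCatSheaf U ⋙ (Scheme.Modules.overEquiv U).functor :=
    (Scheme.Modules.restrictFunctorComp _ _).symm ≪≫
      Scheme.Modules.restrictFunctorCongr hU.isoSpec_hom_fromSpec ≪≫
      (Scheme.Modules.overFunctorEquiv U).symm
  have P2 : ((Scheme.Modules.overEquiv U).functor.obj (SheafOfModules.over M U)).Presentation :=
    SheafOfModules.Presentation.ofIsIso.{0, 0, 0} (iso.app M).hom P1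
  have P3 := P2.map (Scheme.Modules.overEquiv U).inverse
    ((Scheme.Modules.overEquiv U).unitIso.app (SheafOfModules.unit _))
  exact ⟨SheafOfModules.Presentation.ofIsIso.{0, 0, 0}
    ((Scheme.Modules.overEquiv U).unitIso.app (SheafOfModules.over M U)).inv P3⟩

theorem isQuasicoherent_of_qcOn
    (h : ∀ x : X, ∃ U : X.Opens, x ∈ U ∧ IsAffineOpen U ∧ QCOn U M) :
    SheafOfModules.IsQuasicoherent M := by
  choose U hx hU hq using h
  refine SheafOfModules.QuasicoherentData.isQuasicoherent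
    { I := X
      X := U
      coversTop := ?_
      presentation := fun x => (gqcm_presentation (hU x) (hq x)).some }
  rw [Opens.coversTop_iff, IsOpenCover, eq_top_iff]
  intro x _
  exact Opens.mem_iSup.2 ⟨x, hx x⟩

end Pool.Agent.Work.MP_910138_ag
end

-- merged part: Pool.Agent.Work.MP_910138_ag.GFin
section
/-! Finite type and local freeness in terms of sections. -/

open CategoryTheory Limits AlgebraicGeometry TopologicalSpace Opposite Abelian

namespace Pool.Agent.Work.MP_910138_ag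

variable {X : Scheme.{0}} {M N : X.Modules} {U V W : X.Opens}

/-- the restriction to the site over `V` -/
noncomputable abbrev gfin_ov (M : X.Modules) (V : X.Opens) :
    SheafOfModules.{0} (X.ringCatSheaf.over V) := SheafOfModules.over M V

/-- a section over `V` as a section of the restriction -/
noncomputable def gfin_sec (g : Γ(M, V)) : (gfin_ov M V).sections :=
  PresheafOfModules.sectionsMk (fun Y => res M (Y.unop.hom.le) g)
    (fun Y Z f => res_res (M := M) (f.unop.left.le) (Y.unop.hom.le) g)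

theorem gfin_sec_surj (s : (gfin_ov M V).sections) : ∃ g : Γ(M, V), gfin_sec g = s := by
  refine ⟨s.1 (op (Over.mk (𝟙 V))), PresheafOfModules.sections_ext _ _ fun Y => ?_⟩
  exact PresheafOfModules.sections_property s
    (X := op (Over.mk (𝟙 V))) (Y := Y) (Over.homMk Y.unop.hom : Y.unop ⟶ Over.mk (𝟙 V)).op

/-- local generation by the set `G` of sections over `V` -/
def gfin_LG (M : X.Modules) (V : X.Opens) (G : Set Γ(M, V)) : Prop :=
  ∀ (W : X.Opens) (h : W ≤ V) (t : Γ(M, W)), ∀ x ∈ W, ∃ (W' : X.Opens) (h' : W' ≤ W), x ∈ W' ∧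
    res M h' t ∈ Submodule.span Γ(X, W') (res M (h'.trans h) '' G)

theorem gfin_res_span {G : Set Γ(M, W)} (h : U ≤ V) (h' : V ≤ W) {t : Γ(M, V)}
    (ht : t ∈ Submodule.span Γ(X, V) (res M h' '' G)) :
    res M h t ∈ Submodule.span Γ(X, U) (res M (h.trans h') '' G) := by
  induction ht using Submodule.span_induction with
  | mem x hx =>
    obtain ⟨g, hg, rfl⟩ := hx
    exact Submodule.subset_span ⟨g, hg, (res_res _ _ _).symm⟩
  | zero => rw [map_zero]; exact Submodule.zero_mem _
  | add x y _ _ hx hy => rw [map_add]; exact Submodule.add_mem _ hx hy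
  | smul r x _ hx => rw [res_smul]; exact Submodule.smul_mem _ _ hx

theorem gfin_res_span' {G : Set Γ(M, V)} (h : U ≤ V) {t : Γ(M, V)}
    (ht : t ∈ Submodule.span Γ(X, V) G) :
    res M h t ∈ Submodule.span Γ(X, U) (res M h '' G) := by
  refine gfin_res_span h le_rfl ?_
  have : res M (le_rfl : V ≤ V) '' G = G := by
    ext s
    constructor
    · rintro ⟨g, hg, rfl⟩
      rwa [res_self]
    · exact fun hs => ⟨s, hs, res_self _ _⟩
  rwa [this]

theorem gfin_epi {I : Type} (g : I → Γ(M, V)) (hg : gfin_LG M V (Set.range g)) :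
    Epi ((gfin_ov M V).freeHomEquiv.symm fun i => gfin_sec (g i)) := by
  refine ⟨fun {Z} a b hab => ?_⟩
  rw [SheafOfModules.freeHomEquiv_symm_comp, SheafOfModules.freeHomEquiv_symm_comp] at hab
  have hab' := Z.freeHomEquiv.symm.injective hab
  have key : ∀ (Y : Over V) (t : Γ(M, Y.left)),
      t ∈ Submodule.span Γ(X, Y.left) (res M Y.hom.le '' Set.range g) →
      (a.val.app (op Y)).hom t = (b.val.app (op Y)).hom t := by
    intro Y t ht
    induction ht using Submodule.span_induction with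
    | mem x hx =>
      obtain ⟨_, ⟨i, rfl⟩, rfl⟩ := hx
      exact congrFun (congrArg Subtype.val (congrFun hab' i)) (op Y)
    | zero => exact (map_zero _).trans (map_zero _).symm
    | add x y _ _ hx hy =>
      exact (map_add _ _ _).trans ((congrArg₂ (· + ·) hx hy).trans (map_add _ _ _).symm)
    | smul r x _ hx =>
      exact ((a.val.app (op Y)).hom.map_smul r x).trans
        ((congrArg _ hx).trans ((b.val.app (op Y)).hom.map_smul r x).symm)
  ext Y t
  obtain ⟨Y⟩ := Y
  let S : Sieve Y.left :=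
    { arrows := fun W' f => res M f.le t ∈
        Submodule.span Γ(X, W') (res M (f.le.trans Y.hom.le) '' Set.range g)
      downward_closed := fun {W₁ W₂ f} hf k => by
        have := gfin_res_span k.le _ hf
        rwa [res_res] at this }
  have hS : S ∈ Opens.grothendieckTopology X Y.left := fun x hx => by
    obtain ⟨W', h', hx', e⟩ := hg Y.left Y.hom.le t x hx
    exact ⟨W', homOfLE h', e, hx'⟩
  refine Z.isSheaf.isSeparated Y _
    (GrothendieckTopology.overEquiv_symm_mem_over _ Y S hS) _ _ fun Y' f hf => ?_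
  rw [Sieve.overEquiv_symm_iff] at hf
  have h1 := PresheafOfModules.naturality_apply a.val f.op t
  have h2 := PresheafOfModules.naturality_apply b.val f.op t
  exact h1.symm.trans ((key Y' _ hf).trans h2)

/-- sections that lie locally on `V` in the span of `G` -/
noncomputable def gfin_sub (M : X.Modules) (V : X.Opens) (G : Set Γ(M, V)) : SubData M where
  sub W :=
    { carrier := {t | ∀ x ∈ W, x ∈ V → ∃ (W' : X.Opens) (h : W' ≤ W) (h' : W' ≤ V), x ∈ W' ∧
        res M h t ∈ Submodule.span Γ(X, W') (res M h' '' G)}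
      zero_mem' := fun x hx hx' => ⟨W ⊓ V, inf_le_left, inf_le_right, ⟨hx, hx'⟩, by
        rw [map_zero]; exact Submodule.zero_mem _⟩
      add_mem' := fun {a b} ha hb x hx hx' => by
        obtain ⟨W₁, h₁, k₁, x₁, e₁⟩ := ha x hx hx'
        obtain ⟨W₂, h₂, k₂, x₂, e₂⟩ := hb x hx hx'
        refine ⟨W₁ ⊓ W₂, inf_le_left.trans h₁, inf_le_left.trans k₁, ⟨x₁, x₂⟩, ?_⟩
        have f₁ := gfin_res_span (inf_le_left : W₁ ⊓ W₂ ≤ W₁) _ e₁
        have f₂ := gfin_res_span (inf_le_right : W₁ ⊓ W₂ ≤ W₂) _ e₂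
        rw [res_res] at f₁ f₂
        rw [map_add]
        exact Submodule.add_mem _ f₁ f₂
      smul_mem' := fun r a ha x hx hx' => by
        obtain ⟨W₁, h₁, k₁, x₁, e₁⟩ := ha x hx hx'
        exact ⟨W₁, h₁, k₁, x₁, by rw [res_smul]; exact Submodule.smul_mem _ _ e₁⟩ }
  res_mem {U W} h s hs x hx hx' := by
    obtain ⟨W₁, h₁, k₁, x₁, e₁⟩ := hs x (h hx) hx'
    refine ⟨U ⊓ W₁, inf_le_left, inf_le_right.trans k₁, ⟨hx, x₁⟩, ?_⟩
    have f₁ := gfin_res_span (inf_le_right : U ⊓ W₁ ≤ W₁) _ e₁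
    rw [res_res] at f₁
    rw [res_res]
    exact f₁
  loc {U s} hs x hx hx' := by
    obtain ⟨W, hW, xW, hs'⟩ := hs x hx
    obtain ⟨W₁, h₁, k₁, x₁, e₁⟩ := hs' x xW hx'
    exact ⟨W₁, h₁.trans hW, k₁, x₁, by rwa [res_res] at e₁⟩

theorem gfin_LG_of_epi {I : Type} (g : I → Γ(M, V))
    (he : Epi ((gfin_ov M V).freeHomEquiv.symm fun i => gfin_sec (g i))) :
    gfin_LG M V (Set.range g) := by
  let S := gfin_sub M V (Set.range g)
  let p := cokernel.π S.ι
  have hp : ∀ (W : X.Opens) (t : Γ(M, W)), t ∈ S.sub W → p.app W t = 0 := fun W t ht => by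
    rw [← S.ι_mkSec t ht, ← comp_app_apply, cokernel.condition]
    rfl
  have h0 : SheafOfModules.Hom.over p V = SheafOfModules.Hom.over (0 : M ⟶ cokernel S.ι) V := by
    refine he.left_cancellation _ _ ?_
    rw [SheafOfModules.freeHomEquiv_symm_comp, SheafOfModules.freeHomEquiv_symm_comp]
    congr 1
    funext i
    refine PresheafOfModules.sections_ext _ _ fun Y => ?_
    refine hp Y.unop.left (res M Y.unop.hom.le (g i)) fun x hx hx' => ?_
    refine ⟨Y.unop.left, le_rfl, Y.unop.hom.le, hx, Submodule.subset_span ⟨g i, ⟨i, rfl⟩, ?_⟩⟩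
    rw [res_self]
  intro W h t x hx
  have h1 : p.app W t = 0 :=
    congrArg (fun φ : gfin_ov M V ⟶ gfin_ov (cokernel S.ι) V =>
      (φ.val.app (op (Over.mk (homOfLE h)))).hom t) h0
  obtain ⟨t', ht'⟩ := exact_sections (ShortComplex.mk S.ι p (cokernel.condition _))
    (ShortComplex.exact_cokernel S.ι) W t h1
  have h2 : t ∈ S.sub W := ht' ▸ S.ι_mem t'
  obtain ⟨W', h', k', x', e⟩ := h2 x hx (h hx)
  exact ⟨W', h', x', e⟩

theorem gfin_unit (f : Γ(X, U)) : IsUnit (resO X (X.basicOpen_le f) f) :=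
  X.toRingedSpace.isUnit_res_basicOpen f

theorem gfin_clear (hU : IsAffineOpen U) (f : Γ(X, U)) {G : Set Γ(M, U)}
    {u : Γ(M, X.basicOpen f)}
    (hu : u ∈ Submodule.span Γ(X, X.basicOpen f) (res M (X.basicOpen_le f) '' G)) :
    ∃ (n : ℕ) (v : Γ(M, U)), v ∈ Submodule.span Γ(X, U) G ∧
      res M (X.basicOpen_le f) v = resO X (X.basicOpen_le f) f ^ n • u := by
  induction hu using Submodule.span_induction with
  | mem x hx =>
    obtain ⟨g, hg, rfl⟩ := hx
    exact ⟨0, g, Submodule.subset_span hg, by rw [pow_zero, one_smul]⟩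
  | zero => exact ⟨0, 0, Submodule.zero_mem _, by rw [map_zero, smul_zero]⟩
  | add x y _ _ hx hy =>
    obtain ⟨n, v, hv, e⟩ := hx
    obtain ⟨m, w, hw, e'⟩ := hy
    refine ⟨n + m, f ^ m • v + f ^ n • w,
      Submodule.add_mem _ (Submodule.smul_mem _ _ hv) (Submodule.smul_mem _ _ hw), ?_⟩
    rw [map_add, res_smul, res_smul, e, e', map_pow, map_pow, smul_add, smul_smul, smul_smul,
      ← pow_add, ← pow_add, add_comm m n]
  | smul r x _ hx =>
    obtain ⟨n, v, hv, e⟩ := hx
    have := hU.isLocalization_basicOpen f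
    obtain ⟨⟨a, _, k, rfl⟩, ha⟩ := IsLocalization.surj (Submonoid.powers f) r
    have ha' : r * resO X (X.basicOpen_le f) (f ^ k) = resO X (X.basicOpen_le f) a := ha
    refine ⟨k + n, a • v, Submodule.smul_mem _ _ hv, ?_⟩
    rw [res_smul, e, ← ha', map_pow, smul_smul, smul_smul, pow_add]
    congr 1
    ring

theorem gfin_span_top (hU : IsAffineOpen U) (hq : QCOn U M) {G : Set Γ(M, U)}
    (hG : gfin_LG M U G) : Submodule.span Γ(X, U) G = ⊤ := by
  refine eq_top_iff.2 fun t _ => ?_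
  let A : Ideal Γ(X, U) := (Submodule.span Γ(X, U) G).comap (LinearMap.toSpanSingleton _ _ t)
  have hA : Ideal.span (A : Set Γ(X, U)) = ⊤ := by
    rw [← hU.self_le_iSup_basicOpen_iff]
    intro x hx
    obtain ⟨W', h', x', e⟩ := hG U le_rfl t x hx
    obtain ⟨f, hf, xf⟩ := hU.exists_basicOpen_le ⟨x, x'⟩ hx
    have e' := gfin_res_span hf _ e
    rw [res_res] at e'
    obtain ⟨n, v, hv, ev⟩ := gfin_clear hU f e'
    obtain ⟨m, hm⟩ := hq.tor f (f ^ n • t - v) (by
      rw [map_sub, res_smul, ev, map_pow, sub_self])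
    have hmem : f ^ (m + n + 1) ∈ A := by
      change f ^ (m + n + 1) • t ∈ Submodule.span Γ(X, U) G
      rw [smul_sub, sub_eq_zero, smul_smul, ← pow_add] at hm
      rw [pow_succ', mul_smul, hm]
      exact Submodule.smul_mem _ _ (Submodule.smul_mem _ _ hv)
    refine Opens.mem_iSup.2 ⟨⟨_, hmem⟩, ?_⟩
    change x ∈ X.basicOpen (f ^ (m + n + 1))
    rwa [X.basicOpen_pow f (Nat.succ_pos _)]
  rw [Ideal.span_eq] at hA
  have h1 : (1 : Γ(X, U)) ∈ A := hA ▸ Submodule.mem_top
  change (1 : Γ(X, U)) • t ∈ Submodule.span Γ(X, U) G at h1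
  rwa [one_smul] at h1

theorem gfin_LG_of_span (hU : IsAffineOpen U) (hq : QCOn U M) {G : Set Γ(M, U)}
    (hG : Submodule.span Γ(X, U) G = ⊤) : gfin_LG M U G := by
  intro W h t x hx
  obtain ⟨f, hf, xf⟩ := hU.exists_basicOpen_le ⟨x, hx⟩ (h hx)
  refine ⟨_, hf, xf, ?_⟩
  obtain ⟨n, v, hv⟩ := hq.ext f (res M hf t)
  have h1 := gfin_res_span' (G := G) (X.basicOpen_le f) (t := v) (hG ▸ Submodule.mem_top)
  rw [hv] at h1
  exact (Submodule.smul_mem_iff_of_isUnit _ ((gfin_unit f).pow n)).1 h1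

theorem IsCoh.finite (h : IsCoh M) (hU : IsAffineOpen U) : Module.Finite Γ(X, U) Γ(M, U) := by
  have hq := qcOn_of_isQuasicoherent h.1 hU
  obtain ⟨σ, hσ⟩ := h.2.exists_localGeneratorsData
  have hc := (Opens.coversTop_iff _ _).1 σ.coversTop
  have loc : ∀ x : U, ∃ (f : Γ(X, U)) (G : Set Γ(M, U)), x.1 ∈ X.basicOpen f ∧ G.Finite ∧
      gfin_LG M (X.basicOpen f) (res M (X.basicOpen_le f) '' G) := by
    intro x
    obtain ⟨i, hi⟩ := hc.exists_mem x.1
    obtain ⟨f, hf, xf⟩ := hU.exists_basicOpen_le ⟨x.1, hi⟩ x.2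
    have := (hσ.isFiniteType i).finite
    choose g hg using fun j => gfin_sec_surj (M := M) (V := σ.X i) ((σ.generators i).s j)
    have hL : gfin_LG M (σ.X i) (Set.range g) := gfin_LG_of_epi g (by
      rw [show (fun j => gfin_sec (g j)) = (σ.generators i).s from funext hg]
      exact (σ.generators i).epi)
    choose n v hv using fun j => hq.ext f (res M hf (g j))
    refine ⟨f, Set.range v, xf, Set.finite_range v, fun W hW t y hy => ?_⟩
    obtain ⟨W', h', y', e⟩ := hL W (hW.trans hf) t y hy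
    refine ⟨W', h', y', Submodule.span_le.2 ?_ e⟩
    rintro _ ⟨_, ⟨j, rfl⟩, rfl⟩
    have h1 : res M (h'.trans hW) (res M (X.basicOpen_le f) (v j)) ∈
        Submodule.span Γ(X, W') (res M (h'.trans hW) '' (res M (X.basicOpen_le f) '' Set.range v)) :=
      Submodule.subset_span ⟨_, ⟨_, ⟨j, rfl⟩, rfl⟩, rfl⟩
    rw [hv, res_smul, res_res] at h1
    exact (Submodule.smul_mem_iff_of_isUnit _ (((gfin_unit f).pow (n j)).map _)).1 h1
  choose f G hx hG hL using loc
  obtain ⟨s, hs⟩ := hU.isCompact.elim_finite_subcover (fun x : U => (X.basicOpen (f x) : Set X))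
    (fun x => (X.basicOpen (f x)).isOpen) fun x hx' => Set.mem_iUnion.2 ⟨⟨x, hx'⟩, hx ⟨x, hx'⟩⟩
  have hfin : (⋃ x ∈ s, G x).Finite := s.finite_toSet.biUnion fun x _ => hG x
  refine ⟨Submodule.fg_def.2 ⟨_, hfin, gfin_span_top hU hq fun W hW t y hy => ?_⟩⟩
  obtain ⟨x, hxs, hy'⟩ := Set.mem_iUnion₂.1 (hs (hW hy))
  obtain ⟨W', h', y', e⟩ := hL x (W ⊓ X.basicOpen (f x)) inf_le_right (res M inf_le_left t) y
    ⟨hy, hy'⟩
  refine ⟨W', h'.trans inf_le_left, y', ?_⟩
  rw [res_res] at e
  refine Submodule.span_mono ?_ e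
  rintro _ ⟨_, ⟨u, hu, rfl⟩, rfl⟩
  exact ⟨u, Set.mem_iUnion₂.2 ⟨x, hxs, hu⟩, (res_res _ _ _).symm⟩

theorem gfin_cover (U : X → X.Opens) (hx : ∀ x, x ∈ U x) :
    (Opens.grothendieckTopology X).CoversTop U :=
  (Opens.coversTop_iff _ _).2 (IsOpenCover.mk (eq_top_iff.2 fun x _ =>
    Opens.mem_iSup.2 ⟨x, hx x⟩))

theorem isCoh_of_cover (h : ∀ x : X, ∃ U : X.Opens, x ∈ U ∧ IsAffineOpen U ∧ QCOn U M ∧
    Module.Finite Γ(X, U) Γ(M, U)) : IsCoh M := by
  refine ⟨isQuasicoherent_of_qcOn fun x => (h x).imp fun U hU => ⟨hU.1, hU.2.1, hU.2.2.1⟩, ?_⟩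
  choose U hx hU hq hf using h
  choose n g hg using fun x => Module.Finite.exists_fin (R := Γ(X, U x)) (M := Γ(M, U x))
  exact ⟨⟨{ I := X, X := U, coversTop := gfin_cover U hx
            generators := fun x => ⟨Fin (n x), fun i => gfin_sec (g x i),
              gfin_epi (g x) (gfin_LG_of_span (hU x) (hq x) (hg x))⟩ },
    ⟨fun x => ⟨inferInstanceAs (Finite (Fin (n x)))⟩⟩⟩⟩

theorem gfin_basis_res {I : Type} [Fintype I] {g : I → Γ(M, V)} (hg : IsBasisOn M V g)
    (h : U ≤ V) : IsBasisOn M U fun i => res M h (g i) := by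
  intro W hW
  simpa only [res_res] using hg W (hW.trans h)

/-- the linear equivalence given by a basis -/
noncomputable def gfin_equiv {I : Type} [Fintype I] {g : I → Γ(M, V)} (hg : IsBasisOn M V g)
    (h : W ≤ V) : (I → Γ(X, W)) ≃ₗ[Γ(X, W)] Γ(M, W) :=
  LinearEquiv.ofBijective (Fintype.linearCombination Γ(X, W) fun i => res M h (g i)) (hg W h)

theorem gfin_equiv_apply {I : Type} [Fintype I] {g : I → Γ(M, V)} (hg : IsBasisOn M V g)
    (h : W ≤ V) (r : I → Γ(X, W)) : gfin_equiv hg h r = ∑ i, r i • res M h (g i) := rfl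

theorem gfin_equiv_res {I : Type} [Fintype I] {g : I → Γ(M, V)} (hg : IsBasisOn M V g)
    (h' : U ≤ W) (h : W ≤ V) (t : Γ(M, W)) (i : I) :
    (gfin_equiv hg (h'.trans h)).symm (res M h' t) i = resO X h' ((gfin_equiv hg h).symm t i) := by
  obtain ⟨r, rfl⟩ := (gfin_equiv hg h).surjective t
  have : res M h' (gfin_equiv hg h r) = gfin_equiv hg (h'.trans h) fun i => resO X h' (r i) := by
    rw [gfin_equiv_apply, gfin_equiv_apply, map_sum]
    exact Finset.sum_congr rfl fun i _ => by rw [res_smul, res_res]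
  rw [this, LinearEquiv.symm_apply_apply, LinearEquiv.symm_apply_apply]

/-- the coordinate functions of a basis -/
noncomputable def gfin_coord {I : Type} [Fintype I] {g : I → Γ(M, V)} (hg : IsBasisOn M V g)
    (i : I) : gfin_ov M V ⟶ SheafOfModules.unit (X.ringCatSheaf.over V) :=
  SheafOfModules.Hom.mk (PresheafOfModules.homMk
    { app := fun Y => AddCommGrpCat.ofHom
        ((LinearMap.proj i).comp (gfin_equiv hg Y.unop.hom.le).symm.toLinearMap).toAddMonoidHom
      naturality := fun Y Z f => by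
        ext s
        exact gfin_equiv_res hg f.unop.left.le Y.unop.hom.le s i }
    (fun Y r m =>
      ((LinearMap.proj i).comp (gfin_equiv hg Y.unop.hom.le).symm.toLinearMap).map_smul r m))

theorem gfin_LG_of_basis {I : Type} [Fintype I] {g : I → Γ(M, V)} (hg : IsBasisOn M V g) :
    gfin_LG M V (Set.range g) := by
  intro W h t x hx
  obtain ⟨r, rfl⟩ := (hg W h).2 t
  refine ⟨W, le_rfl, hx, ?_⟩
  rw [res_self]
  exact Submodule.sum_mem _ fun i _ => Submodule.smul_mem _ _
    (Submodule.subset_span ⟨_, ⟨i, rfl⟩, rfl⟩)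

theorem gfin_isIso_aux {C : Type} [SmallCategory C] {J : GrothendieckTopology C}
    {R : Sheaf J RingCat.{0}} [HasWeakSheafify J AddCommGrpCat.{0}]
    [J.WEqualsLocallyBijective AddCommGrpCat.{0}] (P : SheafOfModules.{0} R) {I : Type} [Fintype I]
    [DecidableEq I] (s : I → P.sections) (c : I → (P ⟶ SheafOfModules.unit R))
    (key : ∀ i j, P.unitHomEquiv.symm (s j) ≫ c i = if i = j then 𝟙 _ else 0)
    (he : Epi (P.freeHomEquiv.symm s)) : IsIso (P.freeHomEquiv.symm s) := by
  have : IsSplitMono (P.freeHomEquiv.symm s) := by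
    refine ⟨⟨∑ i, c i ≫ SheafOfModules.ιFree i, ?_⟩⟩
    refine Cofan.IsColimit.hom_ext (SheafOfModules.isColimitFreeCofan I) _ _ fun j => ?_
    change SheafOfModules.ιFree j ≫ P.freeHomEquiv.symm s ≫ ∑ i, c i ≫ SheafOfModules.ιFree i =
      SheafOfModules.ιFree j ≫ 𝟙 (SheafOfModules.free I)
    rw [Category.comp_id, ← Category.assoc,
      ← SheafOfModules.unitHomEquiv_symm_freeHomEquiv_apply, Equiv.apply_symm_apply,
      Preadditive.comp_sum]
    simp only [← Category.assoc, key]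
    rw [Finset.sum_eq_single j, if_pos rfl, Category.id_comp]
    · intro b _ hb
      rw [if_neg hb, zero_comp]
    · exact fun h => absurd (Finset.mem_univ _) h
  exact isIso_of_epi_of_isSplitMono _

theorem gfin_isIso {I : Type} [Fintype I] {g : I → Γ(M, V)} (hg : IsBasisOn M V g) :
    IsIso ((gfin_ov M V).freeHomEquiv.symm fun i => gfin_sec (g i)) := by
  classical
  refine gfin_isIso_aux _ _ (gfin_coord hg) (fun i j => ?_) (gfin_epi g (gfin_LG_of_basis hg))
  rw [SheafOfModules.unitHomEquiv_symm_comp, Equiv.symm_apply_eq]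
  refine PresheafOfModules.sections_ext _ _ fun Y => ?_
  have h1 : res M Y.unop.hom.le (g j) = gfin_equiv hg Y.unop.hom.le (Pi.single j 1) := by
    rw [gfin_equiv_apply, Finset.sum_eq_single j, Pi.single_eq_same, one_smul]
    · intro b _ hb
      rw [Pi.single_eq_of_ne hb, zero_smul]
    · exact fun h => absurd (Finset.mem_univ _) h
  have h2 : (gfin_equiv hg Y.unop.hom.le).symm (res M Y.unop.hom.le (g j)) i =
      if i = j then 1 else 0 := by
    rw [h1, LinearEquiv.symm_apply_apply, Pi.single_apply]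
  refine h2.trans ?_
  split_ifs <;> rfl

theorem LFin.isLocallyFree (h : LFin M) : SheafOfModules.IsLocallyFree M := by
  choose V hx I hI g hg using h
  exact ⟨⟨{ I := X, X := V, coversTop := gfin_cover V hx
            generators := fun x => ⟨I x, fun i => gfin_sec (g x i),
              gfin_epi (g x) (gfin_LG_of_basis (hg x))⟩ },
    ⟨fun x => gfin_isIso (hg x)⟩⟩⟩

theorem LFin.isCoh (h : LFin M) : IsCoh M := by
  refine isCoh_of_cover fun x => ?_
  obtain ⟨V, hx, I, hI, g, hg⟩ := h x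
  obtain ⟨U, hU, hxU, hUV⟩ := Opens.isBasis_iff_nbhd.1 X.isBasis_affineOpens hx
  have hb := gfin_basis_res hg hUV
  exact ⟨U, hxU, hU, hb.qcOn hU, Module.Finite.equiv (gfin_equiv hb le_rfl)⟩

theorem lFin_of_isZero (h : IsZero M) : LFin M := by
  intro x
  refine ⟨⊤, trivial, Empty, inferInstance, fun i => i.elim, fun W hW => ⟨fun a b _ => ?_, fun t => ?_⟩⟩
  · exact Subsingleton.elim _ _
  · exact ⟨0, ((isZero_iff M).1 h _ _).trans ((isZero_iff M).1 h _ _).symm⟩

theorem gfin_lFin_of_iso (e : N ≅ M) (h : LFin M) : LFin N := by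
  intro x
  obtain ⟨V, hx, I, hI, g, hg⟩ := h x
  refine ⟨V, hx, I, hI, fun i => e.inv.app V (g i), fun W hW => ?_⟩
  have h1 : (fun r : I → Γ(X, W) => ∑ i, r i • res N hW (e.inv.app V (g i))) =
      e.inv.app W ∘ fun r : I → Γ(X, W) => ∑ i, r i • res M hW (g i) := by
    funext r
    change _ = appL e.inv W _
    rw [map_sum]
    exact Finset.sum_congr rfl fun i _ => by rw [map_smul, appL_apply, app_res]
  rw [h1]
  exact ((isIso_iff e.inv).1 inferInstance W).comp (hg W hW)

theorem lFin_of_biproduct (G : Type) [Fintype G] (M : G → X.Modules) (N : X.Modules)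
    (h : ∀ x, LFin (M x)) (e : Nonempty (N ≅ ⨁ M)) : LFin N := by
  classical
  refine gfin_lFin_of_iso e.some fun p => ?_
  choose V hp I hI g hg using fun x => h x p
  have hle : ∀ x, Finset.univ.inf V ≤ V x := fun x => Finset.inf_le (Finset.mem_univ x)
  have hp' : p ∈ Finset.univ.inf V := by
    have : ∀ s : Finset G, p ∈ s.inf V := fun s => by
      induction s using Finset.induction_on with
      | empty => trivial
      | insert a s _ ih => rw [Finset.inf_insert]; exact ⟨hp a, ih⟩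
    exact this _
  refine ⟨Finset.univ.inf V, hp', (x : G) × I x, inferInstance,
    fun k => (biproduct.ι M k.1).app _ (res (M k.1) (hle k.1) (g k.1 k.2)), fun W hW => ?_⟩
  have key : ∀ (r : ((x : G) × I x) → Γ(X, W)) (y : G),
      (biproduct.π M y).app W (∑ k : (x : G) × I x, r k • res (⨁ M) hW
        ((biproduct.ι M k.1).app _ (res (M k.1) (hle k.1) (g k.1 k.2)))) =
      ∑ i, r ⟨y, i⟩ • res (M y) (hW.trans (hle y)) (g y i) := by
    intro r y
    change appL (biproduct.π M y) W _ = _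
    rw [map_sum, Fintype.sum_sigma, Finset.sum_eq_single y]
    · refine Finset.sum_congr rfl fun i _ => ?_
      rw [map_smul, appL_apply, ← app_res, ← comp_app_apply, biproduct.ι_π_self, res_res]
      rfl
    · intro b _ hb
      refine Finset.sum_eq_zero fun i _ => ?_
      rw [map_smul, appL_apply, ← app_res, ← comp_app_apply, biproduct.ι_π_ne M hb]
      change r ⟨b, i⟩ • (0 : Γ(M y, W)) = 0
      rw [smul_zero]
    · exact fun h => absurd (Finset.mem_univ _) h
  constructor
  · intro a b hab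
    funext ⟨y, i⟩
    have h1 := (key a y).symm.trans ((congrArg ((biproduct.π M y).app W) hab).trans (key b y))
    exact congrFun ((hg y W (hW.trans (hle y))).1 h1) i
  · intro t
    choose r hr using fun y => (hg y W (hW.trans (hle y))).2 ((biproduct.π M y).app W t)
    exact ⟨fun k => r k.1 k.2, biprod_ext M fun y => (key _ y).trans (hr y)⟩

theorem lFin_of_isGen (h : ∀ x : X, ∃ (V : X.Opens) (_ : x ∈ V) (g : Γ(M, V)), IsGen M V g) :
    LFin M := by
  intro x
  obtain ⟨V, hx, g, hg⟩ := h x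
  refine ⟨V, hx, Unit, inferInstance, fun _ => g, fun W hW => ?_⟩
  have h1 : (fun r : Unit → Γ(X, W) => ∑ i, r i • res M hW g) =
      (fun r : Γ(X, W) => r • res M hW g) ∘ Equiv.funUnique Unit Γ(X, W) := by
    funext r
    simp
  rw [h1]
  exact (hg W hW).comp (Equiv.bijective _)

end Pool.Agent.Work.MP_910138_ag
end
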