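import Pool.Agent.Work.MP_910138_ag.TWt
import Pool.Agent.Work.MP_910138_ag.GSupp
import Pool.Agent.Work.MP_910138_ag.GQC
import Pool.Agent.Work.MP_910138_ag.GAV
import Pool.Agent.Work.MP_910138_ag.GFin
import Pool.Agent.Work.MP_910138_ag.GQC2
import Pool.Agent.Work.MP_910138_ag.U

-- merged part: Pool.Agent.Work.MP_910138_ag.TLine
section
/-! The line bundles on a toric variety. -/

open CategoryTheory Limits AlgebraicGeometry TopologicalSpace Opposite Abelian

namespace Pool.Agent.Work.MP_910138_ag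

variable {X : Scheme.{0}} {κ : Type} [Fintype κ] {D : LatData κ} (T : ToricData D X)

/-- a section of `push (OX X) V` as a function -/
noncomputable def pushFun {V W : X.Opens} (s : Γ(push (OX X) V, W)) : Γ(X, W ⊓ V) :=
  pushSec (OX X) V W s

/-- a function as a section of `push (OX X) V` -/
noncomputable def ofFun {V W : X.Opens} (s : Γ(X, W ⊓ V)) : Γ(push (OX X) V, W) :=
  (pushSec (OX X) V W).symm s

theorem pushFun_ofFun {V W : X.Opens} (s : Γ(X, W ⊓ V)) : pushFun (ofFun s) = s := rfl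

theorem pushFun_injective {V W : X.Opens} :
    Function.Injective (pushFun : Γ(push (OX X) V, W) → Γ(X, W ⊓ V)) := fun _ _ h => h

theorem pushFun_add {V W : X.Opens} (s t : Γ(push (OX X) V, W)) :
    pushFun (s + t) = pushFun s + pushFun t := rfl

theorem pushFun_zero {V W : X.Opens} : pushFun (0 : Γ(push (OX X) V, W)) = 0 := rfl

theorem pushFun_smul {V W : X.Opens} (r : Γ(X, W)) (s : Γ(push (OX X) V, W)) :
    pushFun (r • s) = resO X (inf_le_left : W ⊓ V ≤ W) r * pushFun s := rfl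

theorem pushFun_res {V W W' : X.Opens} (h : W' ≤ W) (s : Γ(push (OX X) V, W)) :
    pushFun (res (push (OX X) V) h s) = resO X (inf_le_inf_right V h) (pushFun s) := rfl

/-- the rational functions that are locally multiples of the vertex characters of `n` -/
noncomputable def ToricData.lineData (n : Wt κ) : SubData (push (OX X) T.torus) where
  sub W :=
    { carrier := {s | ∀ x ∈ W, ∀ v, x ∈ T.U (vtx v) → ∃ (W' : X.Opens) (h : W' ≤ W), x ∈ W' ∧
        ∃ r : Γ(X, W'), resO X (inf_le_inf_right T.torus h) (pushFun s) =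
          resO X inf_le_left r * resO X inf_le_right (T.chi (tor κ) (D.u n v))}
      zero_mem' := fun x hx v _ => ⟨W, le_rfl, hx, 0, by
        rw [pushFun_zero, map_zero, map_zero, zero_mul]⟩
      add_mem' := fun {a b} ha hb x hx v hv => by
        obtain ⟨W₁, h₁, x₁, r₁, e₁⟩ := ha x hx v hv
        obtain ⟨W₂, h₂, x₂, r₂, e₂⟩ := hb x hx v hv
        refine ⟨W₁ ⊓ W₂, inf_le_left.trans h₁, ⟨x₁, x₂⟩,
          resO X inf_le_left r₁ + resO X inf_le_right r₂, ?_⟩
        have f₁ := congrArg (resO X (inf_le_inf_right T.torus (inf_le_left : W₁ ⊓ W₂ ≤ W₁))) e₁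
        have f₂ := congrArg (resO X (inf_le_inf_right T.torus (inf_le_right : W₁ ⊓ W₂ ≤ W₂))) e₂
        simp only [map_mul, resO_resO] at f₁ f₂
        rw [pushFun_add, map_add, map_add, add_mul, resO_resO, resO_resO, f₁, f₂]
      smul_mem' := fun c a ha x hx v hv => by
        obtain ⟨W₁, h₁, x₁, r₁, e₁⟩ := ha x hx v hv
        refine ⟨W₁, h₁, x₁, resO X h₁ c * r₁, ?_⟩
        rw [pushFun_smul, map_mul, e₁, map_mul, resO_resO, resO_resO, mul_assoc] }
  res_mem {U W} h s hs x hx v hv := by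
    obtain ⟨W₁, h₁, x₁, r₁, e₁⟩ := hs x (h hx) v hv
    refine ⟨U ⊓ W₁, inf_le_left, ⟨hx, x₁⟩, resO X inf_le_right r₁, ?_⟩
    have f₁ := congrArg (resO X (inf_le_inf_right T.torus (inf_le_right : U ⊓ W₁ ≤ W₁))) e₁
    simp only [map_mul, resO_resO] at f₁
    rw [pushFun_res, resO_resO, resO_resO, f₁]
  loc {U s} hs x hx v hv := by
    obtain ⟨W, hW, xW, hs'⟩ := hs x hx
    obtain ⟨W₁, h₁, x₁, r₁, e₁⟩ := hs' x xW v hv
    refine ⟨W₁, h₁.trans hW, x₁, r₁, ?_⟩
    rw [pushFun_res, resO_resO] at e₁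
    exact e₁

/-- the line bundle `O(n)` -/
noncomputable def ToricData.L (n : Wt κ) : X.Modules := (T.lineData n).mod

/-- a section of `O(n)` as a function on the torus -/
noncomputable def ToricData.fn {n : Wt κ} {W : X.Opens} (s : Γ(T.L n, W)) : Γ(X, W ⊓ T.torus) :=
  pushFun ((T.lineData n).ι.app W s)

theorem ToricData.fn_injective (n : Wt κ) (W : X.Opens) :
    Function.Injective (T.fn : Γ(T.L n, W) → Γ(X, W ⊓ T.torus)) :=
  pushFun_injective.comp ((T.lineData n).ι_injective W)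

theorem ToricData.fn_add {n : Wt κ} {W : X.Opens} (s t : Γ(T.L n, W)) :
    T.fn (s + t) = T.fn s + T.fn t := rfl

theorem ToricData.fn_smul {n : Wt κ} {W : X.Opens} (r : Γ(X, W)) (s : Γ(T.L n, W)) :
    T.fn (r • s) = resO X (inf_le_left : W ⊓ T.torus ≤ W) r * T.fn s := rfl

theorem ToricData.fn_res {n : Wt κ} {W W' : X.Opens} (h : W' ≤ W) (s : Γ(T.L n, W)) :
    T.fn (res (T.L n) h s) = resO X (inf_le_inf_right T.torus h) (T.fn s) := rfl

theorem tline_mul {τ : Cone κ} {e e' : Wt κ} (he : e ∈ D.Lat) (he' : e' ∈ D.Lat)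
    (h : Allowed 0 τ (e - e')) :
    T.chi (tor κ) e = resO X (tor_le T.V τ) (T.chi τ (e - e')) * T.chi (tor κ) e' := by
  refine T.ev_inj (tor κ) ?_
  rw [map_mul, T.ev_res, T.ev_chi he (allowed_tor _ _), T.ev_chi he' (allowed_tor _ _),
    T.ev_chi (sub_mem he he') h, ← mon_add, sub_add_cancel]

theorem tline_mul' {τ : Cone κ} {e e' : Wt κ} (he : e ∈ D.Lat) (he' : e' ∈ D.Lat)
    (h : Allowed 0 τ (e - e')) {W : X.Opens} (hW : W ≤ T.U τ) :
    resO X (inf_le_right : W ⊓ T.torus ≤ T.torus) (T.chi (tor κ) e) =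
      resO X inf_le_left (resO X hW (T.chi τ (e - e'))) *
        resO X inf_le_right (T.chi (tor κ) e') := by
  rw [tline_mul T he he' h, map_mul, resO_resO, resO_resO]

theorem tline_zero : T.chi (tor κ) 0 = 1 :=
  T.ev_inj (tor κ) (by rw [T.ev_chi (zero_mem _) (allowed_tor _ _), mon_zero, map_one])

theorem tline_unit {e : Wt κ} (he : e ∈ D.Lat) : IsUnit (T.chi (tor κ) e) := by
  have := tline_mul T (τ := tor κ) (zero_mem _) he (allowed_tor _ _)
  rw [tline_zero, mul_comm] at this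
  exact IsUnit.of_mul_eq_one _ this.symm

theorem tline_cancel {W : X.Opens} {e : Wt κ} (he : e ∈ D.Lat) {r r' : Γ(X, W)}
    (h : resO X (inf_le_left : W ⊓ T.torus ≤ W) r * resO X inf_le_right (T.chi (tor κ) e) =
      resO X inf_le_left r' * resO X inf_le_right (T.chi (tor κ) e)) : r = r' :=
  T.res_torus_injective W (((tline_unit T he).map _).mul_right_cancel h)

theorem ToricData.gen_mem (n : Wt κ) (v : κ → Bool) :
    ofFun (resO X (inf_le_right : T.U (vtx v) ⊓ T.torus ≤ T.torus) (T.chi (tor κ) (D.u n v))) ∈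
      (T.lineData n).sub (T.U (vtx v)) := by
  intro x hx w hw
  have a : Allowed 0 (meet (vtx v) (vtx w)) (D.u n v - D.u n w) := by
    rintro ⟨k, b⟩ hk
    simp only [meet] at hk
    split_ifs at hk with e
    obtain rfl : v k = b := Option.some_injective _ hk
    have e' : v k = w k := Option.some_injective _ e
    have h1 := D.u_apply n v k
    have h2 := D.u_apply n w k
    rw [← e'] at h2
    simp [h1, h2]
  refine ⟨T.U (vtx v) ⊓ T.U (vtx w), inf_le_left, ⟨hx, hw⟩,
    resO X (chart_inf T.V _ _).le (T.chi _ (D.u n v - D.u n w)), ?_⟩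
  rw [pushFun_ofFun, resO_resO]
  exact tline_mul' T (D.u_mem n v) (D.u_mem n w) a _

theorem ToricData.one_mem (n : Wt κ) :
    ofFun (1 : Γ(X, T.torus ⊓ T.torus)) ∈ (T.lineData n).sub T.torus := by
  intro x hx w _
  refine ⟨T.torus, le_rfl, hx, resO X le_rfl (T.chi (tor κ) (0 - D.u n w)), ?_⟩
  rw [pushFun_ofFun, map_one, ← tline_mul' T (zero_mem _) (D.u_mem n w) (allowed_tor _ _),
    tline_zero, map_one]

/-- the generator on a maximal chart -/
noncomputable def ToricData.gen (n : Wt κ) (v : κ → Bool) : Γ(T.L n, T.U (vtx v)) :=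
  (T.lineData n).mkSec _ (T.gen_mem n v)

theorem ToricData.fn_gen (n : Wt κ) (v : κ → Bool) :
    T.fn (T.gen n v) = resO X inf_le_right (T.chi (tor κ) (D.u n v)) := rfl

/-- the generator on the torus -/
noncomputable def ToricData.one (n : Wt κ) : Γ(T.L n, T.torus) :=
  (T.lineData n).mkSec _ (T.one_mem n)

theorem ToricData.fn_one (n : Wt κ) : T.fn (T.one n) = 1 := rfl

theorem ToricData.isGen_gen (n : Wt κ) (v : κ → Bool) : IsGen (T.L n) (T.U (vtx v)) (T.gen n v) := by
  intro W h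
  have key : ∀ r : Γ(X, W), T.fn (r • res (T.L n) h (T.gen n v)) =
      resO X inf_le_left r * resO X inf_le_right (T.chi (tor κ) (D.u n v)) := fun r => by
    rw [T.fn_smul, T.fn_res, T.fn_gen, resO_resO]
  refine ⟨fun r r' e => tline_cancel T (D.u_mem n v) ?_, fun s => ?_⟩
  · rw [← key, ← key]
    exact congrArg T.fn e
  have hs : ∀ x : W, ∃ (W' : X.Opens) (h : W' ≤ W), (x : X) ∈ W' ∧
      ∃ r : Γ(X, W'), resO X (inf_le_inf_right T.torus h) (T.fn s) =
        resO X inf_le_left r * resO X inf_le_right (T.chi (tor κ) (D.u n v)) := fun x =>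
    (T.lineData n).ι_mem s x x.2 v (h x.2)
  choose V hV xV r hr using hs
  obtain ⟨t, ht⟩ := glueO V hV (fun x hx => Opens.mem_iSup.2 ⟨⟨x, hx⟩, xV ⟨x, hx⟩⟩) r (by
    intro i j
    refine tline_cancel T (D.u_mem n v) ?_
    have f₁ := congrArg (resO X (inf_le_inf_right T.torus (inf_le_left : V i ⊓ V j ≤ V i))) (hr i)
    have f₂ := congrArg (resO X (inf_le_inf_right T.torus (inf_le_right : V i ⊓ V j ≤ V j))) (hr j)
    simp only [map_mul, resO_resO] at f₁ f₂ ⊢
    rw [← f₁, f₂])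
  refine ⟨t, T.fn_injective n W ?_⟩
  rw [key]
  refine sepO fun x hx => ⟨V ⟨x, hx.1⟩ ⊓ T.torus, inf_le_inf_right _ (hV _), ⟨xV _, hx.2⟩, ?_⟩
  rw [hr, ← ht, map_mul, resO_resO, resO_resO, resO_resO]

theorem ToricData.qcOn_L (n : Wt κ) (τ : Cone κ) : QCOn (T.U τ) (T.L n) := by
  refine IsGen.qcOn (T.affine τ) ((T.isGen_gen n fun k => (τ k).getD false).res
    (chart_mono fun k => ?_))
  rcases h : τ k with _ | b
  · exact Or.inl rfl
  · exact Or.inr (by simp [vtx, h])

theorem ToricData.lineData_mono {n n' : Wt κ} (h : n ≤ n') (W : X.Opens) :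
    (T.lineData n).sub W ≤ (T.lineData n').sub W := by
  intro s hs x hx v hv
  obtain ⟨W₁, h₁, x₁, r₁, e₁⟩ := hs x hx v hv
  have a : Allowed 0 (vtx v) (D.u n v - D.u n' v) := by
    rintro ⟨k, b⟩ hk
    obtain rfl : v k = b := Option.some_injective _ hk
    have : n (k, v k) ≤ n' (k, v k) := h (k, v k)
    simp only [Pi.sub_apply, D.u_apply, Pi.zero_apply]
    omega
  refine ⟨W₁ ⊓ T.U (vtx v), inf_le_left.trans h₁, ⟨x₁, hv⟩,
    resO X inf_le_left r₁ * resO X inf_le_right (T.chi (vtx v) (D.u n v - D.u n' v)), ?_⟩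
  have f₁ := congrArg
    (resO X (inf_le_inf_right T.torus (inf_le_left : W₁ ⊓ T.U (vtx v) ≤ W₁))) e₁
  simp only [map_mul, resO_resO] at f₁
  rw [f₁, tline_mul' T (D.u_mem n v) (D.u_mem n' v) a inf_le_right, map_mul, mul_assoc,
    resO_resO (s := r₁)]

/-- the inclusion -/
noncomputable def ToricData.incl {n n' : Wt κ} (h : n ≤ n') : T.L n ⟶ T.L n' :=
  (T.lineData n').lift (T.lineData n).ι fun W s => T.lineData_mono h W ((T.lineData n).ι_mem s)

theorem ToricData.fn_incl {n n' : Wt κ} (h : n ≤ n') {W : X.Opens} (s : Γ(T.L n, W)) :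
    T.fn ((T.incl h).app W s) = T.fn s := rfl

theorem ToricData.incl_self (n : Wt κ) : T.incl (le_refl n) = 𝟙 _ :=
  hom_ext' fun _ _ => rfl

theorem ToricData.incl_comp {n n' n'' : Wt κ} (h : n ≤ n') (h' : n' ≤ n'') :
    T.incl h ≫ T.incl h' = T.incl (h.trans h') :=
  hom_ext' fun _ _ => rfl

end Pool.Agent.Work.MP_910138_ag
end

-- merged part: Pool.Agent.Work.MP_910138_ag.TTheta
section
/-! Morphisms between toric line bundles on the charts. -/

open CategoryTheory Limits AlgebraicGeometry TopologicalSpace Opposite Abelian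

namespace Pool.Agent.Work.MP_910138_ag

variable {X : Scheme.{0}} {κ : Type} [Fintype κ] [DecidableEq κ] {D : LatData κ}
  (T : ToricData D X) [Algebra (ZMod 2) Γ(X, ⊤)]

section aux

omit [DecidableEq κ] [Algebra (ZMod 2) Γ(X, ⊤)]

/-- the Laurent polynomial of a section over the torus -/
noncomputable def ToricData.ttheta_val {n : Wt κ} (s : Γ(T.L n, T.torus)) : Lam κ :=
  T.ev (tor κ) (resO X (le_inf le_rfl le_rfl : T.torus ≤ T.torus ⊓ T.torus) (T.fn s))

theorem ToricData.ttheta_add {n : Wt κ} (s t : Γ(T.L n, T.torus)) :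
    T.ttheta_val (s + t) = T.ttheta_val s + T.ttheta_val t := by
  rw [ToricData.ttheta_val, T.fn_add, map_add, map_add]
  rfl

theorem ToricData.ttheta_smul {n : Wt κ} (r : Γ(X, T.torus)) (s : Γ(T.L n, T.torus)) :
    T.ttheta_val (r • s) = T.ev (tor κ) r * T.ttheta_val s := by
  rw [ToricData.ttheta_val, T.fn_smul, map_mul, map_mul, resO_resO, resO_self]
  rfl

theorem ToricData.ttheta_inj (n : Wt κ) :
    Function.Injective (T.ttheta_val : Γ(T.L n, T.torus) → Lam κ) := fun s t h => by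
  have h1 := congrArg (resO X (inf_le_left : T.torus ⊓ T.torus ≤ T.torus)) (T.ev_inj _ h)
  rw [resO_resO, resO_resO, resO_self, resO_self] at h1
  exact T.fn_injective n _ h1

theorem ToricData.ttheta_one (n : Wt κ) : T.ttheta_val (T.one n) = 1 := by
  rw [ToricData.ttheta_val, T.fn_one, map_one, map_one]

theorem ToricData.ttheta_chi (n : Wt κ) (v : κ → Bool) :
    T.ev (tor κ) (T.chi (tor κ) (D.u n v)) = mon (D.u n v) :=
  T.ev_chi (D.u_mem n v) (allowed_tor _ _)

theorem ToricData.ttheta_gen (n : Wt κ) (v : κ → Bool) :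
    T.ttheta_val (res (T.L n) (tor_le T.V (vtx v)) (T.gen n v)) = mon (D.u n v) := by
  rw [ToricData.ttheta_val, T.fn_res, T.fn_gen, resO_resO, resO_resO, resO_self, T.ttheta_chi]

/-- a maximal cone containing `τ` -/
def ttheta_v (τ : Cone κ) : κ → Bool := fun k => (τ k).getD false

theorem ttheta_le (V : κ → Bool → X.Opens) (τ : Cone κ) :
    chart V τ ≤ chart V (vtx (ttheta_v τ)) :=
  chart_mono fun k => by
    rcases h : τ k with _ | b
    · exact Or.inl rfl
    · refine Or.inr ?_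
      rw [vtx, ttheta_v, h]
      rfl

/-- the generator on the chart -/
noncomputable def ToricData.ttheta_g (n : Wt κ) (τ : Cone κ) : Γ(T.L n, T.U τ) :=
  res (T.L n) (ttheta_le T.V τ) (T.gen n (ttheta_v τ))

theorem ToricData.ttheta_isGen (n : Wt κ) (τ : Cone κ) :
    IsGen (T.L n) (T.U τ) (T.ttheta_g n τ) := (T.isGen_gen n _).res _

/-- the unit section on the torus -/
noncomputable def ToricData.ttheta_o (n : Wt κ) (τ : Cone κ) :
    Γ(supp (T.L n) (T.U τ), T.torus) :=
  (suppData (T.L n) (T.U τ)).mkSec (T.one n) (mem_suppData_of_le (tor_le T.V τ) _)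

theorem ToricData.ttheta_res (n : Wt κ) (τ : Cone κ) :
    res (supp (T.L n) (T.U τ)) (tor_le T.V τ) (suppSec (T.ttheta_g n τ)) =
      T.chi (tor κ) (D.u n (ttheta_v τ)) • T.ttheta_o n τ := by
  refine gsupp_inj _ _ _ (T.ttheta_inj n ?_)
  rw [app_res, suppι_suppSec, gexact_app_smul, T.ttheta_smul, ToricData.ttheta_g, res_res,
    T.ttheta_gen, T.ttheta_chi]
  exact (mul_one _).symm.trans (congrArg _ (T.ttheta_one n).symm)

theorem ttheta_cancel {e : Wt κ} {l l' : Lam κ} (h : mon e * l = mon e * l') : l = l' := by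
  have := congrArg (mon (-e) * ·) h
  simpa only [← mul_assoc, ← mon_add, neg_add_cancel, mon_zero, one_mul] using this

theorem ToricData.ttheta_key {n n' : Wt κ} {τ : Cone κ} (φ : supp (T.L n) (T.U τ) ⟶ T.L n')
    {r : Γ(X, T.U τ)} (h : φ.app _ (suppSec (T.ttheta_g n τ)) = r • T.ttheta_g n' τ) :
    T.ev τ r = mon (D.u n (ttheta_v τ) - D.u n' (ttheta_v τ)) *
      T.ttheta_val (φ.app _ (T.ttheta_o n τ)) := by
  have h1 := congrArg (fun s => T.ttheta_val (res (T.L n') (tor_le T.V τ) s)) h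
  simp only
    [← app_res, T.ttheta_res, gexact_app_smul, res_smul, T.ttheta_smul, T.ttheta_chi] at h1
  rw [T.ev_res, ToricData.ttheta_g, res_res, T.ttheta_gen] at h1
  refine ttheta_cancel (e := D.u n' (ttheta_v τ)) ?_
  rw [← mul_assoc, ← mon_add, add_sub_cancel, h1, mul_comm]

theorem ToricData.ttheta_ex (n : Wt κ) (τ : Cone κ) (s : Γ(T.L n, T.U τ)) :
    ∃ r : Γ(X, T.U τ), s = r • T.ttheta_g n τ := by
  obtain ⟨r, hr⟩ := (T.ttheta_isGen n τ _ le_rfl).2 s
  exact ⟨r, hr.symm.trans (congrArg _ (res_self _ _))⟩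

omit [Fintype κ] in
theorem ttheta_span (D : LatData κ) (n n' : Wt κ) (τ : Cone κ) (l : Lam κ) :
    InSpan D.Lat 0 τ (mon (D.u n (ttheta_v τ) - D.u n' (ttheta_v τ)) * l) ↔
      InSpan D.Lat (n' - n) τ l := by
  have hm := D.Lat.sub_mem (D.u_mem n (ttheta_v τ)) (D.u_mem n' (ttheta_v τ))
  have hu : ∀ a : κ × Bool, τ a.1 = some a.2 →
      (D.u n (ttheta_v τ) - D.u n' (ttheta_v τ)) a = (n' - n) a := by
    rintro ⟨k, b⟩ h
    have hb : b = ttheta_v τ k := by
      rw [ttheta_v, show τ k = some b from h]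
      rfl
    subst hb
    rw [Pi.sub_apply, Pi.sub_apply, D.u_apply, D.u_apply]
    ring
  generalize D.u n (ttheta_v τ) - D.u n' (ttheta_v τ) = c at hm hu
  constructor
  · intro h e he
    obtain ⟨h1, h2⟩ := h (e + c) (mem_support_mon_mul.2 (by rwa [add_sub_cancel_right]))
    refine ⟨(D.Lat.add_mem_cancel_right hm).1 h1, fun a ha => ?_⟩
    have := h2 a ha
    rwa [Pi.zero_apply, add_zero, Pi.add_apply, hu a ha] at this
  · intro h e he
    obtain ⟨h1, h2⟩ := h _ (mem_support_mon_mul.1 he)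
    refine ⟨by simpa using D.Lat.add_mem h1 hm, fun a ha => ?_⟩
    have := h2 a ha
    rw [← hu a ha, Pi.sub_apply, sub_add_cancel] at this
    rwa [Pi.zero_apply, add_zero]

end aux

/-- the Laurent polynomial of a morphism on a chart -/
noncomputable def ToricData.ttheta_Θ (n n' : Wt κ) (τ : Cone κ) :
    (supp (T.L n) (T.U τ) ⟶ T.L n') →ₗ[ZMod 2] Lam κ :=
  AddMonoidHom.toZModLinearMap 2 (AddMonoidHom.mk'
    (fun φ => T.ttheta_val (φ.app _ (T.ttheta_o n τ))) fun _ _ => T.ttheta_add _ _)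

omit [DecidableEq κ] in
theorem ToricData.ttheta_Θ_apply (n n' : Wt κ) (τ : Cone κ) (φ : supp (T.L n) (T.U τ) ⟶ T.L n') :
    T.ttheta_Θ n n' τ φ = T.ttheta_val (φ.app _ (T.ttheta_o n τ)) := rfl

theorem ToricData.exists_wtData (n n' : Wt κ) :
    ∃ w : WtData T.V D.Lat (T.L n) (T.L n') (n' - n), ∀ h : n ≤ n', w.glob (T.incl h) = 1 := by
  refine ⟨⟨T.ttheta_Θ n n', fun τ φ ψ h => ?_, fun τ l => ?_, fun _ _ _ _ => rfl,
    fun τ => (T.ttheta_isGen n τ).ext_zero (T.affine τ) (T.qcOn_L n' τ)⟩,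
    fun _ => T.ttheta_one n⟩
  · obtain ⟨r, hr⟩ := T.ttheta_ex n' τ (φ.app _ (suppSec (T.ttheta_g n τ)))
    obtain ⟨r', hr'⟩ := T.ttheta_ex n' τ (ψ.app _ (suppSec (T.ttheta_g n τ)))
    have h1 : r = r' := T.ev_inj τ (by
      rw [T.ttheta_key φ hr, T.ttheta_key ψ hr', ← T.ttheta_Θ_apply, ← T.ttheta_Θ_apply, h])
    exact ((T.ttheta_isGen n τ).hom_bijective _).1 (hr.trans (h1 ▸ hr'.symm))
  · rw [← ttheta_span, ← T.ev_range]
    constructor
    · rintro ⟨φ, rfl⟩
      obtain ⟨r, hr⟩ := T.ttheta_ex n' τ (φ.app _ (suppSec (T.ttheta_g n τ)))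
      exact ⟨r, T.ttheta_key φ hr⟩
    · rintro ⟨r, hr⟩
      obtain ⟨φ, hφ⟩ := ((T.ttheta_isGen n τ).hom_bijective (T.L n')).2 (r • T.ttheta_g n' τ)
      exact ⟨φ, ttheta_cancel ((T.ttheta_key φ hφ).symm.trans hr)⟩

end Pool.Agent.Work.MP_910138_ag
end

-- merged part: Pool.Agent.Work.MP_910138_ag.GCoh
section
/-! Closure properties of coherent sheaves. -/

open CategoryTheory Limits AlgebraicGeometry TopologicalSpace Opposite Abelian

namespace Pool.Agent.Work.MP_910138_ag

variable {X : Scheme.{0}} {M N : X.Modules} {U V W : X.Opens}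

theorem gcoh_comp_zero (S : ShortComplex X.Modules) (U : X.Opens) (s : Γ(S.X₁, U)) :
    S.g.app U (S.f.app U s) = 0 := by
  rw [← comp_app_apply, S.zero]
  rfl

theorem QCOn.extension (hU : IsAffineOpen U) (S : ShortComplex X.Modules) (hS : S.ShortExact)
    (h₁ : QCOn U S.X₁) (h₃ : QCOn U S.X₃) : QCOn U S.X₂ := by
  have hmono : Mono S.f := hS.mono_f
  refine ⟨fun f s => ?_, fun f t ht => ?_⟩
  · obtain ⟨n, t₃, ht₃⟩ := h₃.ext f (S.g.app _ s)
    obtain ⟨t₂, rfl⟩ := surjective_of_qcOn hU S hS h₁ t₃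
    have h0 : S.g.app (X.basicOpen f)
        (resO X (X.basicOpen_le f) f ^ n • s - res S.X₂ (X.basicOpen_le f) t₂) = 0 := by
      have e1 := (appL S.g (X.basicOpen f)).map_sub
        (resO X (X.basicOpen_le f) f ^ n • s) (res S.X₂ (X.basicOpen_le f) t₂)
      rw [map_smul, appL_apply, appL_apply, appL_apply, app_res, ht₃, sub_self] at e1
      exact e1
    obtain ⟨u, hu⟩ := exact_sections S hS.exact _ _ h0
    obtain ⟨m, t₁, ht₁⟩ := h₁.ext f u
    refine ⟨m + n, S.f.app U t₁ + f ^ m • t₂, ?_⟩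
    have e2 := (appL S.f (X.basicOpen f)).map_smul (resO X (X.basicOpen_le f) f ^ m) u
    rw [appL_apply, appL_apply] at e2
    rw [map_add, ← app_res, ht₁, e2, hu, res_smul, map_pow, smul_sub, sub_add_cancel, pow_add,
      mul_smul]
  · have h1 : res S.X₃ (X.basicOpen_le f) (S.g.app U t) = 0 := by
      rw [← app_res, ht]
      exact map_zero _
    obtain ⟨n, hn⟩ := h₃.tor f _ h1
    have h2 : S.g.app U (f ^ n • t) = 0 := by
      have e := (appL S.g U).map_smul (f ^ n) t
      rw [appL_apply, appL_apply, hn] at e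
      exact e
    obtain ⟨u, hu⟩ := exact_sections S hS.exact _ _ h2
    have h3 : res S.X₁ (X.basicOpen_le f) u = 0 := by
      apply (mono_iff S.f).1 hmono (X.basicOpen f)
      rw [app_res, hu, res_smul, ht, smul_zero]
      exact (map_zero _).symm
    obtain ⟨m, hm⟩ := h₁.tor f u h3
    refine ⟨m + n, ?_⟩
    have e := (appL S.f U).map_smul (f ^ m) u
    rw [hm, map_zero, appL_apply, hu] at e
    rw [pow_add, mul_smul]
    exact e.symm

theorem IsCoh.qcOn (h : IsCoh M) (hU : IsAffineOpen U) : QCOn U M :=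
  qcOn_of_isQuasicoherent h.1 hU

theorem gcoh_of_affine (h : ∀ U : X.Opens, IsAffineOpen U → QCOn U M ∧
    Module.Finite Γ(X, U) Γ(M, U)) : IsCoh M := by
  refine isCoh_of_cover fun x => ?_
  obtain ⟨U, hU, hx, -⟩ := exists_isAffineOpen_mem_and_subset (x := x) (U := ⊤) trivial
  exact ⟨U, hx, hU, h U hU⟩

theorem IsCoh.of_iso (e : M ≅ N) (h : IsCoh M) : IsCoh N := by
  have hb := (isIso_iff e.hom).1 inferInstance
  refine gcoh_of_affine fun U hU => ⟨?_, ?_⟩
  · exact (QCOn.iff_of_bijective e.hom fun W _ => hb W).1 (h.qcOn hU)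
  · have := h.finite hU
    exact Module.Finite.of_surjective (appL e.hom U) (hb U).2

theorem isCoh_of_isZero (h : IsZero M) : IsCoh M := (lFin_of_isZero h).isCoh

theorem IsCoh.biproduct {G : Type} [Fintype G] (M : G → X.Modules) (h : ∀ x, IsCoh (M x)) :
    IsCoh (⨁ M) := by
  refine gcoh_of_affine fun U hU => ⟨QCOn.biproduct M fun x => (h x).qcOn hU, ?_⟩
  have hf : ∀ x, Module.Finite Γ(X, U) Γ(M x, U) := fun x => (h x).finite hU
  let F : (∀ x, Γ(M x, U)) →ₗ[Γ(X, U)] Γ(⨁ M, U) :=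
    ∑ x, (appL (Limits.biproduct.ι M x) U).comp (LinearMap.proj x)
  refine Module.Finite.of_surjective F fun s => ⟨fun x => (Limits.biproduct.π M x).app U s, ?_⟩
  have e := biprod_total M s
  simp only [F, LinearMap.sum_apply, LinearMap.comp_apply, LinearMap.proj_apply, appL_apply]
  exact e

theorem gcoh_exact (S : ShortComplex X.Modules) (hS : S.Exact) [Mono S.f] (U : X.Opens) :
    Function.Exact (appL S.f U) (appL S.g U) := by
  intro s
  constructor
  · intro hs
    exact exact_sections S hS U s hs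
  · rintro ⟨t, rfl⟩
    exact gcoh_comp_zero S U t

theorem IsCoh.extension (S : ShortComplex X.Modules) (hS : S.ShortExact) (h₁ : IsCoh S.X₁)
    (h₃ : IsCoh S.X₃) : IsCoh S.X₂ := by
  have hmono : Mono S.f := hS.mono_f
  refine gcoh_of_affine fun U hU =>
    ⟨QCOn.extension hU S hS (h₁.qcOn hU) (h₃.qcOn hU), ?_⟩
  have := h₁.finite hU
  have := h₃.finite hU
  exact Module.Finite.of_exact (gcoh_exact S hS.exact U)
    (surjective_of_qcOn hU S hS (h₁.qcOn hU))

theorem gcoh_qcOn_kernel (φ : M ⟶ N) (hM : QCOn U M) (hN : QCOn U N) :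
    QCOn U (Limits.kernel φ) :=
  QCOn.kernel (ShortComplex.mk (Limits.kernel.ι φ) φ (Limits.kernel.condition φ))
    (ShortComplex.exact_kernel φ) hM hN

variable [IsLocallyNoetherian X]

theorem IsCoh.kernel (φ : M ⟶ N) (hM : IsCoh M) (hN : IsCoh N) : IsCoh (kernel φ) := by
  refine gcoh_of_affine fun U hU => ⟨gcoh_qcOn_kernel φ (hM.qcOn hU) (hN.qcOn hU), ?_⟩
  have := hM.finite hU
  have : IsNoetherianRing Γ(X, U) := IsLocallyNoetherian.component_noetherian ⟨U, hU⟩
  exact Module.Finite.of_injective (appL (Limits.kernel.ι φ) U)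
    ((mono_iff (Limits.kernel.ι φ)).1 inferInstance U)

theorem IsCoh.cokernel (φ : M ⟶ N) (hM : IsCoh M) (hN : IsCoh N) : IsCoh (cokernel φ) := by
  have hS₁ : (ShortComplex.mk (Limits.kernel.ι φ) (Abelian.factorThruImage φ) (by
      rw [← cancel_mono (Abelian.image.ι φ)]
      simp)).ShortExact := by
    refine ShortComplex.ShortExact.mk' ?_ inferInstance inferInstance
    refine ShortComplex.exact_of_f_is_kernel _ ?_
    refine KernelFork.IsLimit.ofι' _ _ fun {A} k hk =>
      ⟨Limits.kernel.lift φ k ?_, Limits.kernel.lift_ι _ _ _⟩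
    have hk' : k ≫ Abelian.factorThruImage φ = 0 := hk
    rw [← Abelian.image.fac φ, ← Category.assoc, hk', zero_comp]
  have hS₂ : (ShortComplex.mk (Abelian.image.ι φ) (Limits.cokernel.π φ)
      (Limits.kernel.condition _)).ShortExact :=
    ShortComplex.ShortExact.mk' (ShortComplex.exact_kernel _) inferInstance inferInstance
  refine gcoh_of_affine fun U hU => ?_
  have hI : QCOn U (Abelian.image φ) :=
    QCOn.cokernel hU _ hS₁ (gcoh_qcOn_kernel φ (hM.qcOn hU) (hN.qcOn hU)) (hM.qcOn hU)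
  refine ⟨QCOn.cokernel hU _ hS₂ hI (hN.qcOn hU), ?_⟩
  have := hN.finite hU
  exact Module.Finite.of_surjective (appL (Limits.cokernel.π φ) U)
    (surjective_of_qcOn hU _ hS₂ hI)

end Pool.Agent.Work.MP_910138_ag
end

-- merged part: Pool.Agent.Work.MP_910138_ag.GPD
section
/-! Vanishing of Ext above the global dimension, and Mayer-Vietoris induction. -/

open CategoryTheory Limits AlgebraicGeometry TopologicalSpace Opposite Abelian

namespace Pool.Agent.Work.MP_910138_ag

variable {X : Scheme.{0}} {M N : X.Modules} {U V W : X.Opens}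

/-- all sections have support in `U` -/
def gpd_Sup (U : X.Opens) (P : X.Modules) : Prop :=
  ∀ (W : X.Opens) (s : Γ(P, W)), s ∈ (suppData P U).sub W

theorem gpd_mem {P T : X.Modules} (hP : gpd_Sup U P) (φ : P ⟶ T) (s : Γ(P, W)) :
    φ.app W s ∈ (suppData T U).sub W := fun x hx hx' => by
  obtain ⟨W', h, hxW, e⟩ := hP W s x hx hx'
  exact ⟨W', h, hxW, by rw [← app_res, e, map_zero]⟩

theorem gpd_sup_of_inj {P T : X.Modules} (φ : P ⟶ T) (hφ : ∀ W, Function.Injective (φ.app W))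
    (h : ∀ (W : X.Opens) (s : Γ(P, W)), φ.app W s ∈ (suppData T U).sub W) : gpd_Sup U P :=
  fun W s x hx hx' => by
    obtain ⟨W', h', hxW, e⟩ := h W s x hx hx'
    exact ⟨W', h', hxW, hφ W' (by rw [app_res, e, map_zero])⟩

theorem gpd_sup_supp (M : X.Modules) (U : X.Opens) : gpd_Sup U (supp M U) :=
  gpd_sup_of_inj (suppι M U) (suppData M U).ι_injective fun _ s => (suppData M U).ι_mem s

/-- the generator of the free module of rank one -/
noncomputable def gpd_u (U : X.Opens) : Γ(supp (OX X) U, U) :=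
  suppSec (M := OX X) (1 : Γ(X, U))

theorem gpd_u_bij (U : X.Opens) : Function.Bijective fun r : Γ(X, U) => r • gpd_u U := by
  have h1 := isGen_one U U le_rfl
  have h2 := suppι_bijective (M := OX X) (le_refl U)
  rw [← Function.Bijective.of_comp_iff' h2]
  convert h1 using 1
  funext r
  rw [res_self]
  exact (appL (suppι (OX X) U) U).map_smul r (gpd_u U)

/-- the free module of rank `r` on `U`, extended by zero -/
noncomputable abbrev gpd_F (U : X.Opens) (r : ℕ) : X.Modules := ⨁ fun _ : Fin r => supp (OX X) U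

/-- its basis -/
noncomputable def gpd_e (U : X.Opens) {r : ℕ} (i : Fin r) : Γ(gpd_F U r, U) :=
  (biproduct.ι (fun _ : Fin r => supp (OX X) U) i).app U (gpd_u U)

theorem gpd_sup_F (U : X.Opens) (r : ℕ) : gpd_Sup U (gpd_F U r) := fun W s => by
  rw [← biprod_total (fun _ : Fin r => supp (OX X) U) s]
  exact Submodule.sum_mem _ fun i _ => gpd_mem (gpd_sup_supp _ _) _ _

theorem gpd_exists {T : X.Modules} {r : ℕ} (t : Fin r → Γ(T, U)) :
    ∃ φ : gpd_F U r ⟶ T, ∀ i, φ.app U (gpd_e U i) = t i := by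
  choose φ hφ using fun i => ((isGen_one U).hom_bijective T).surjective (t i)
  refine ⟨biproduct.desc φ, fun i => ?_⟩
  rw [gpd_e, ← comp_app_apply, biproduct.ι_desc]
  exact hφ i

theorem gpd_hom_ext {T : X.Modules} {r : ℕ} {φ ψ : gpd_F U r ⟶ T}
    (h : ∀ i, φ.app U (gpd_e U i) = ψ.app U (gpd_e U i)) : φ = ψ :=
  biproduct.hom_ext' _ _ fun i => ((isGen_one U).hom_bijective T).injective (h i)

theorem gpd_π_e {r : ℕ} (i j : Fin r) :
    (biproduct.π (fun _ : Fin r => supp (OX X) U) j).app U (gpd_e U i) =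
      if i = j then gpd_u U else 0 := by
  rw [gpd_e, ← comp_app_apply]
  split_ifs with h
  · subst h
    rw [biproduct.ι_π_self]
    rfl
  · rw [biproduct.ι_π_ne _ h]
    rfl

theorem gpd_π_comb {r : ℕ} (c : Fin r → Γ(X, U)) (j : Fin r) :
    (biproduct.π (fun _ : Fin r => supp (OX X) U) j).app U
      (Fintype.linearCombination Γ(X, U) (gpd_e U) c) = c j • gpd_u U := by
  rw [← appL_apply, Fintype.linearCombination_apply, map_sum]
  simp only [map_smul, appL_apply, gpd_π_e]
  rw [Finset.sum_eq_single j (fun i _ h => by rw [if_neg h, smul_zero]) (by simp), if_pos rfl]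

theorem gpd_basis (U : X.Opens) (r : ℕ) :
    Function.Bijective (Fintype.linearCombination Γ(X, U) (gpd_e U (r := r))) := by
  refine ⟨fun c c' h => funext fun j => (gpd_u_bij U).injective ?_, fun s => ?_⟩
  · exact (gpd_π_comb c j).symm.trans (h ▸ gpd_π_comb c' j)
  · choose c hc using fun j => (gpd_u_bij U).surjective
      ((biproduct.π (fun _ : Fin r => supp (OX X) U) j).app U s)
    exact ⟨c, biprod_ext _ fun j => (gpd_π_comb c j).trans (hc j)⟩

theorem gpd_lin_ext {r : ℕ} {A : Type} [AddCommGroup A] [Module Γ(X, U) A]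
    {f g : Γ(gpd_F U r, U) →ₗ[Γ(X, U)] A} (h : ∀ i, f (gpd_e U i) = g (gpd_e U i)) : f = g := by
  ext s
  obtain ⟨c, rfl⟩ := (gpd_basis U r).surjective s
  simp only [Fintype.linearCombination_apply, map_sum, map_smul, h]

theorem gpd_qc_F (hU : IsAffineOpen U) (r : ℕ) : QCOn U (gpd_F U r) :=
  QCOn.biproduct _ fun _ => (qcOn_OX hU).supp

theorem gpd_ext_F (hU : IsAffineOpen U) (hN : QCOn U N) (r n : ℕ)
    (α : Ext (gpd_F U r) N (n + 1)) : α = 0 :=
  (Ext.biproductAddEquiv (biproduct.isBilimit fun _ : Fin r => supp (OX X) U) N (n + 1)).injective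
    (funext fun _ => (affine_vanishing hU hN n _).trans (affine_vanishing hU hN n _).symm)

theorem gpd_cover (hU : IsAffineOpen U) {P : X.Modules} (hs : gpd_Sup U P) (hP : QCOn U P)
    [Module.Finite Γ(X, U) Γ(P, U)] :
    ∃ (r : ℕ) (p : gpd_F U r ⟶ P), Epi p ∧ Function.Surjective (p.app U) := by
  obtain ⟨r, g, hg⟩ := Module.Finite.exists_fin (R := Γ(X, U)) (M := Γ(P, U))
  obtain ⟨p, hp⟩ := gpd_exists g
  have hsurj : Function.Surjective (p.app U) := by
    change Function.Surjective (appL p U)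
    rw [← LinearMap.range_eq_top, eq_top_iff, ← hg, Submodule.span_le]
    rintro _ ⟨i, rfl⟩
    exact ⟨gpd_e U i, hp i⟩
  refine ⟨r, p, (epi_iff p).2 fun W s x hx => ?_, hsurj⟩
  by_cases hxU : x ∈ U
  · obtain ⟨V, h, hxV, t, ht⟩ := hP.locally_surjective hU p hsurj
      (inf_le_right : W ⊓ U ≤ U) (res P inf_le_left s) x ⟨hx, hxU⟩
    exact ⟨V, h.trans inf_le_left, hxV, t, ht.trans (res_res _ _ _)⟩
  · obtain ⟨V, h, hxV, e⟩ := hs W s x hx hxU
    exact ⟨V, h, hxV, 0, (map_zero _).trans e.symm⟩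

theorem gpd_zero (hU : IsAffineOpen U) {P T : X.Modules} (hs : gpd_Sup U P) (hP : QCOn U P)
    [Module.Finite Γ(X, U) Γ(P, U)] (φ : P ⟶ T) (h : ∀ s, φ.app U s = 0) : φ = 0 := by
  obtain ⟨r, p, hp, -⟩ := gpd_cover hU hs hP
  rw [← cancel_epi p, comp_zero]
  exact gpd_hom_ext fun i => h _

theorem gpd_main (hU : IsAffineOpen U) [IsNoetherianRing Γ(X, U)] (hN : QCOn U N) (d : ℕ) :
    ∀ (P : X.Modules), gpd_Sup U P → QCOn U P → Module.Finite Γ(X, U) Γ(P, U) →
      HasProjectiveDimensionLE (ModuleCat.of Γ(X, U) Γ(P, U)) d →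
      ∀ n, d < n → ∀ α : Ext P N n, α = 0 := by
  have key : ∀ (P : X.Modules), gpd_Sup U P → QCOn U P → Module.Finite Γ(X, U) Γ(P, U) →
      ∃ (r : ℕ) (p : gpd_F U r ⟶ P), Epi p ∧ Function.Surjective (p.app U) ∧
        gpd_Sup U (kernel p) ∧ QCOn U (kernel p) ∧ Module.Finite Γ(X, U) Γ(kernel p, U) := by
    intro P hs hP hf
    obtain ⟨r, p, hp, hsurj⟩ := gpd_cover hU hs hP
    have hinj := (mono_iff (kernel.ι p)).1 inferInstance
    refine ⟨r, p, hp, hsurj, gpd_sup_of_inj _ hinj fun W s => gpd_sup_F U r W _,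
      QCOn.kernel (ShortComplex.mk (kernel.ι p) p (kernel.condition p))
        (ShortComplex.exact_of_f_is_kernel _ (kernelIsKernel p)) (gpd_qc_F hU r) hP, ?_⟩
    have : Module.Finite Γ(X, U) Γ(gpd_F U r, U) :=
      Module.Finite.of_surjective _ (gpd_basis U r).surjective
    exact Module.Finite.of_injective (appL (kernel.ι p) U) (hinj U)
  induction d with
  | zero =>
    intro P hs hP hf hd n hn α
    obtain ⟨r, p, hp, hsurj, ks, kq, kf⟩ := key P hs hP hf
    have hproj : Module.Projective Γ(X, U) Γ(P, U) :=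
      (IsProjective.iff_projective _).2 ((projective_iff_hasProjectiveDimensionLE_zero _).2 hd)
    obtain ⟨σ, hσ⟩ := Module.projective_lifting_property (appL p U) LinearMap.id hsurj
    obtain ⟨ε, hε⟩ := gpd_exists (T := gpd_F U r) fun i => σ (p.app U (gpd_e U i))
    have hε' : appL ε U = σ.comp (appL p U) := gpd_lin_ext hε
    have hk : kernel.ι p ≫ ε = 0 := gpd_zero hU ks kq _ fun s => by
      have h1 : p.app U ((kernel.ι p).app U s) = 0 := by
        rw [← comp_app_apply, kernel.condition]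
        rfl
      rw [comp_app_apply, ← appL_apply ε, hε', LinearMap.comp_apply, appL_apply, h1, map_zero]
    have h1 : Abelian.epiDesc p ε hk ≫ p = 𝟙 P := by
      rw [← cancel_epi p, ← Category.assoc, Abelian.comp_epiDesc, Category.comp_id]
      refine gpd_hom_ext fun i => ?_
      rw [comp_app_apply, hε]
      exact LinearMap.congr_fun hσ _
    obtain ⟨m, rfl⟩ : ∃ m, n = m + 1 := ⟨n - 1, by omega⟩
    rw [← Ext.mk₀_id_comp α, ← h1, ← Ext.mk₀_comp_mk₀_assoc, gpd_ext_F hU hN r m (Ext.comp _ _ _),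
      Ext.comp_zero]
  | succ d ih =>
    intro P hs hP hf hd n hn α
    obtain ⟨r, p, hp, hsurj, ks, kq, kf⟩ := key P hs hP hf
    have hS : (ShortComplex.mk (kernel.ι p) p (kernel.condition p)).ShortExact :=
      { exact := ShortComplex.exact_of_f_is_kernel _ (kernelIsKernel p) }
    have h0 : ∀ s, p.app U ((kernel.ι p).app U s) = 0 := fun s => by
      rw [← comp_app_apply, kernel.condition]
      rfl
    have hT := ModuleCat.shortComplex_shortExact
      (ModuleCat.shortComplexOfCompEqZero (appL (kernel.ι p) U) (appL p U) (LinearMap.ext h0))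
      (fun s => ⟨fun h => exact_sections _ hS.exact U s h, by
        rintro ⟨t, rfl⟩
        exact h0 t⟩) ((mono_iff (kernel.ι p)).1 inferInstance U) hsurj
    have hfree : Module.Projective Γ(X, U) Γ(gpd_F U r, U) :=
      Module.Projective.of_equiv (LinearEquiv.ofBijective _ (gpd_basis U r))
    have hK := (hT.hasProjectiveDimensionLT_X₃_iff d
      ((IsProjective.iff_projective _).1 hfree)).1 hd
    obtain ⟨m, rfl⟩ : ∃ m, n = m + 1 := ⟨n - 1, by omega⟩
    obtain ⟨β, rfl⟩ := Ext.contravariant_sequence_exact₃ hS N α (gpd_ext_F hU hN r m _)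
      (add_comm 1 m)
    rw [ih (kernel p) ks kq kf hK m (by omega) β, Ext.comp_zero]

theorem ext_vanish_affine (hU : IsAffineOpen U) [IsNoetherianRing Γ(X, U)] {d : ℕ}
    (hd : GlDimLE Γ(X, U) d) (hM : QCOn U M) [Module.Finite Γ(X, U) Γ(M, U)] (hN : QCOn U N)
    (n : ℕ) (hn : d < n) (α : Ext (supp M U) N n) : α = 0 :=
  gpd_main hU hN d (supp M U) (gpd_sup_supp M U) hM.supp
    (Module.Finite.of_injective (appL (suppι M U) U) (suppι_bijective le_rfl).injective)
    (hd _) n hn α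

theorem gpd_mv (𝒢 : Set X.Opens) (hinf : ∀ U ∈ 𝒢, ∀ V ∈ 𝒢, U ⊓ V ∈ 𝒢) (d : ℕ)
    (h : ∀ U ∈ 𝒢, ∀ n, d < n → ∀ α : Ext (supp M U) N n, α = 0) (k : ℕ) :
    ∀ s : Finset X.Opens, s.card = k ∨ s.card < k → (∀ U ∈ s, U ∈ 𝒢) → ∀ W, W = s.sup id →
      ∀ n, d + k < n → ∀ α : Ext (supp M W) N n, α = 0 := by
  classical
  have hbot : ∀ (n : ℕ) (α : Ext (supp M ⊥) N n), α = 0 := fun n α => by
    have hz : IsZero (supp M ⊥) := (isZero_iff _).2 fun W s => sep fun x hx => by
      obtain ⟨W', h', hxW, e⟩ := gpd_sup_supp M ⊥ W s x hx (by simp)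
      exact ⟨W', h', hxW, e.trans (map_zero _).symm⟩
    rw [← Ext.mk₀_id_comp α, hz.eq_of_src (𝟙 _) 0, Ext.mk₀_zero, Ext.zero_comp]
  induction k with
  | zero =>
    intro s hs _ W hW n _ α
    have : s = ∅ := Finset.card_eq_zero.1 (by omega)
    subst this
    rw [Finset.sup_empty] at hW
    subst hW
    exact hbot n α
  | succ k ih =>
    intro s hs hG W hW n hn α
    rcases s.eq_empty_or_nonempty with rfl | ⟨U, hU⟩
    · rw [Finset.sup_empty] at hW
      subst hW
      exact hbot n α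
    have hc := Finset.card_erase_add_one hU
    have hW' : W = U ⊔ (s.erase U).sup id := by
      rw [hW]
      conv_lhs => rw [← Finset.insert_erase hU, Finset.sup_insert]
      rfl
    subst hW'
    have hG' : ∀ V ∈ s.erase U, V ∈ 𝒢 := fun V hV => hG V (Finset.mem_of_mem_erase hV)
    obtain ⟨m, rfl⟩ : ∃ m, n = m + 1 := ⟨n - 1, by omega⟩
    obtain ⟨β, rfl⟩ := Ext.contravariant_sequence_exact₃ (mv_shortExact M U ((s.erase U).sup id))
      N α (Ext.biprod_ext
        ((h U (hG U hU) _ (by omega) _).trans (h U (hG U hU) _ (by omega) _).symm)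
        ((ih (s.erase U) (by omega) hG' _ rfl _ (by omega) _).trans
          (ih (s.erase U) (by omega) hG' _ rfl _ (by omega) _).symm)) (add_comm 1 m)
    have hci := Finset.card_image_le (s := s.erase U) (f := fun V => U ⊓ V)
    rw [ih ((s.erase U).image fun V => U ⊓ V) (by omega) (fun V hV => by
        obtain ⟨V', hV', rfl⟩ := Finset.mem_image.1 hV
        exact hinf U (hG U hU) V' (hG' V' hV')) (U ⊓ (s.erase U).sup id)
      (by rw [Finset.sup_image, Finset.sup_inf_distrib_left]; rfl) m (by omega) β, Ext.comp_zero]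

theorem ext_vanish_mv (𝒢 : Set X.Opens) (hinf : ∀ U ∈ 𝒢, ∀ V ∈ 𝒢, U ⊓ V ∈ 𝒢) (d : ℕ)
    (h : ∀ U ∈ 𝒢, ∀ n, d < n → ∀ α : Ext (supp M U) N n, α = 0) (s : Finset X.Opens)
    (hs : ∀ U ∈ s, U ∈ 𝒢) (hc : s.sup id = ⊤) (n : ℕ) (hn : d + s.card < n) (α : Ext M N n) :
    α = 0 := by
  rw [← Ext.mk₀_id_comp α, ← IsIso.inv_hom_id (suppι M ⊤), ← Ext.mk₀_comp_mk₀_assoc,
    gpd_mv 𝒢 hinf d h s.card s (Or.inl rfl) hs ⊤ hc.symm n hn (Ext.comp _ _ _), Ext.comp_zero]

end Pool.Agent.Work.MP_910138_ag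
end

-- merged part: Pool.Agent.Work.MP_910138_ag.TGG
section
/-! Global generation and vanishing of Ext in large degrees. -/

open CategoryTheory Limits AlgebraicGeometry TopologicalSpace Opposite Abelian

namespace Pool.Agent.Work.MP_910138_ag

variable {X : Scheme.{0}} {κ : Type} [Fintype κ] {D : LatData κ} (T : ToricData D X)

theorem ToricData.lFin_L (n : Wt κ) : LFin (T.L n) :=
  lFin_of_isGen fun x => by
    obtain ⟨v, hv⟩ := exists_mem_chart_vtx T.cover x
    exact ⟨_, hv, T.gen n v, T.isGen_gen n v⟩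

/-- the Laurent polynomial of a function on an open set containing the torus -/
noncomputable def tgg_ev {W : X.Opens} (h : T.torus ≤ W) : Γ(X, W) →+* Lam κ :=
  (T.ev (tor κ)).comp (resO X h)

theorem tgg_ev_res {W W' : X.Opens} (h : T.torus ≤ W) (h' : W ≤ W') (a : Γ(X, W')) :
    tgg_ev T h (resO X h' a) = tgg_ev T (h.trans h') a := by
  rw [tgg_ev, tgg_ev, RingHom.comp_apply, RingHom.comp_apply, resO_resO]

theorem tgg_ev_inj {W : X.Opens} (h : T.torus ≤ W) : Function.Injective (tgg_ev T h) := by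
  intro a b hab
  have h1 : resO X h a = resO X h b := T.ev_inj _ hab
  apply T.res_torus_injective W
  rw [← resO_resO inf_le_right h, h1, resO_resO]

theorem tgg_ev_chi {τ : Cone κ} {e : Wt κ} (he : e ∈ D.Lat) (ha : Allowed 0 τ e)
    (h : T.torus ≤ T.U τ) : tgg_ev T h (T.chi τ e) = mon e := by
  rw [tgg_ev, RingHom.comp_apply, T.ev_res, T.ev_chi he ha]

omit [Fintype κ] in
theorem tgg_diff (D : LatData κ) (v w : κ → Bool) (k : κ) :
    (D.u D.amp v - D.u D.amp w) (k, w k) = D.u D.amp v (k, w k) + D.amp (k, w k) := by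
  rw [Pi.sub_apply, D.u_apply, sub_neg_eq_add]

omit [Fintype κ] in
theorem tgg_eq (D : LatData κ) {v w : κ → Bool} {k : κ} (h : w k = v k) :
    (D.u D.amp v - D.u D.amp w) (k, w k) = 0 := by
  rw [tgg_diff, h, D.u_apply, neg_add_cancel]

omit [Fintype κ] in
theorem tgg_pos (D : LatData κ) {v w : κ → Bool} {k : κ} (h : w k ≠ v k) :
    0 < (D.u D.amp v - D.u D.amp w) (k, w k) := by
  have h1 : w k = !v k := by
    revert h
    cases w k <;> cases v k <;> simp
  rw [tgg_diff, h1]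
  exact D.strict v _ (D.u_mem _ _) (fun j => by rw [D.u_apply, neg_add_cancel]) k

omit [Fintype κ] in
theorem tgg_allowed (D : LatData κ) (v w : κ → Bool) :
    Allowed 0 (vtx w) (D.u D.amp v - D.u D.amp w) := by
  rintro ⟨k, b⟩ hk
  have hb : w k = b := Option.some_injective _ hk
  subst hb
  rw [Pi.zero_apply, add_zero]
  by_cases h : w k = v k
  · exact (tgg_eq D h).ge
  · exact (tgg_pos D h).le

omit [Fintype κ] in
theorem tgg_mem (D : LatData κ) (v w : κ → Bool) : D.u D.amp v - D.u D.amp w ∈ D.Lat :=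
  D.Lat.sub_mem (D.u_mem _ _) (D.u_mem _ _)

omit [Fintype κ] in
theorem tgg_face (D : LatData κ) (v w : κ → Bool) :
    face (vtx w) (D.u D.amp v - D.u D.amp w) = meet (vtx w) (vtx v) := by
  funext k
  by_cases h : w k = v k
  · rw [face, meet, if_neg, if_pos]
    · exact congrArg some h
    · rintro ⟨b, hb, hpos⟩
      have hb' : w k = b := Option.some_injective _ hb
      subst hb'
      exact hpos.ne' (tgg_eq D h)
  · rw [face, meet, if_pos, if_neg]
    · exact fun h' => h (Option.some_injective _ h')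
    · exact ⟨w k, rfl, tgg_pos D h⟩

omit [Fintype κ] in
theorem tgg_u_neg (D : LatData κ) (m : ℕ) (w : κ → Bool) :
    D.u (-(m • D.amp)) w = -(m • D.u D.amp w) := by
  refine D.eq_of_vert w (D.u_mem _ _) (D.Lat.neg_mem (D.Lat.nsmul_mem (D.u_mem _ _) m)) fun k => ?_
  rw [D.u_apply, Pi.neg_apply, Pi.neg_apply, Pi.smul_apply, Pi.smul_apply, D.u_apply, smul_neg]

omit [Fintype κ] in
theorem tgg_mon_pow (e : Wt κ) (m : ℕ) : mon e ^ m = mon (m • e) := by
  induction m with
  | zero => rw [pow_zero, zero_smul, mon_zero]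
  | succ m ih => rw [pow_succ, ih, ← mon_add, succ_nsmul]

theorem tgg_le (w w' : κ → Bool) : T.torus ≤ T.U (vtx w) ⊓ T.U (vtx w') :=
  le_inf (tor_le _ _) (tor_le _ _)

/-- the transition functions of the ample line bundle -/
noncomputable def tgg_r (w w' : κ → Bool) : Γ(X, T.U (vtx w) ⊓ T.U (vtx w')) :=
  resO X inf_le_left (T.chi (vtx w) (D.u D.amp w' - D.u D.amp w))

theorem tgg_ev_r (w w' : κ → Bool) :
    tgg_ev T (tgg_le T w w') (tgg_r T w w') = mon (D.u D.amp w' - D.u D.amp w) := by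
  rw [tgg_r, tgg_ev_res, tgg_ev_chi T (tgg_mem D _ _) (tgg_allowed D _ _)]

theorem tgg_trans (m : ℕ) (w w' : κ → Bool) (r : Γ(X, T.U (vtx w) ⊓ T.U (vtx w')))
    (h : res (T.L (-(m • D.amp))) inf_le_left (T.gen (-(m • D.amp)) w) =
      r • res (T.L (-(m • D.amp))) inf_le_right (T.gen (-(m • D.amp)) w')) :
    r = tgg_r T w w' ^ m := by
  have h1 := congrArg (fun s => tgg_ev T (le_inf (tgg_le T w w') le_rfl) (T.fn s)) h
  simp only [T.fn_smul, T.fn_res, T.fn_gen, map_mul, tgg_ev_res] at h1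
  rw [tgg_ev_chi T (D.u_mem _ _) (allowed_tor _ _), tgg_ev_chi T (D.u_mem _ _) (allowed_tor _ _),
    tgg_u_neg, tgg_u_neg] at h1
  apply tgg_ev_inj T (tgg_le T w w')
  rw [map_pow, tgg_ev_r, tgg_mon_pow, smul_sub, sub_eq_neg_add, mon_add, h1, mul_assoc, ← mon_add,
    neg_add_cancel, mon_zero, mul_one]

theorem ToricData.exists_hom_of_section {M : X.Modules} (hM : IsCoh M) (v : κ → Bool)
    (s : Γ(M, T.U (vtx v))) : ∃ (m : ℕ) (φ : T.L (-(m • D.amp)) ⟶ M),
      φ.app _ (T.gen (-(m • D.amp)) v) = s := by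
  obtain ⟨m, t, htv, ht⟩ := exists_twisted_extension (M := M) (fun w : κ → Bool => T.U (vtx w))
    (fun w => hM.qcOn (T.affine _))
    (fun w w' => hM.qcOn (by rw [chart_inf]; exact T.affine _)) v
    (fun w => T.chi (vtx w) (D.u D.amp v - D.u D.amp w))
    (fun w => by
      rw [T.basicOpen_mon _ (T.ev_chi (tgg_mem D _ _) (tgg_allowed D _ _)), tgg_face, chart_inf])
    (T.ev_inj _ (by
      rw [T.ev_chi (tgg_mem D _ _) (tgg_allowed D _ _), sub_self, mon_zero, map_one]))
    (tgg_r T)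
    (fun w w' => tgg_ev_inj T (tgg_le T w w') (by
      rw [map_mul, tgg_ev_r, tgg_ev_res, tgg_ev_res,
        tgg_ev_chi T (tgg_mem D _ _) (tgg_allowed D _ _),
        tgg_ev_chi T (tgg_mem D _ _) (tgg_allowed D _ _), ← mon_add]
      congr 1
      abel)) s
  obtain ⟨φ, hφ⟩ := exists_hom_of_isGen (M := T.L (-(m • D.amp))) (N := M)
    (fun w : κ → Bool => T.U (vtx w)) (iSup_chart_vtx T.cover)
    (fun w => T.gen (-(m • D.amp)) w) (fun w => T.isGen_gen _ w) t
    (fun w w' r hr => by rw [tgg_trans T m w w' r hr, ht])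
  exact ⟨m, φ, (hφ v).trans htv⟩

theorem ToricData.globally_generated (M : X.Modules) (hM : IsCoh M) :
    ∃ (G : Type) (_ : Fintype G) (l : G → ℕ) (φ : (⨁ fun x => T.L (-(l x • D.amp))) ⟶ M),
      Epi φ := by
  classical
  have hfin : ∀ v : κ → Bool, ∃ (n : ℕ) (g : Fin n → Γ(M, T.U (vtx v))),
      Submodule.span Γ(X, T.U (vtx v)) (Set.range g) = ⊤ := fun v => by
    have := hM.finite (T.affine (vtx v))
    exact Module.Finite.exists_fin
  choose n g hg using hfin
  choose l φ hφ using fun x : Σ v : κ → Bool, Fin (n v) =>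
    T.exists_hom_of_section hM x.1 (g x.1 x.2)
  refine ⟨Σ v : κ → Bool, Fin (n v), inferInstance, l, biproduct.desc φ,
    (epi_iff _).2 fun W s x hx => ?_⟩
  obtain ⟨v, hv⟩ := exists_mem_chart_vtx T.cover x
  have hsurj : Function.Surjective (appL (biproduct.desc φ) (T.U (vtx v))) := by
    rw [← LinearMap.range_eq_top, ← top_le_iff, ← hg v, Submodule.span_le]
    rintro _ ⟨i, rfl⟩
    refine ⟨(biproduct.ι (fun x => T.L (-(l x • D.amp))) ⟨v, i⟩).app _ (T.gen _ v), ?_⟩
    rw [appL_apply, ← comp_app_apply, biproduct.ι_desc]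
    exact hφ ⟨v, i⟩
  obtain ⟨V, h, hxV, t, ht⟩ := (hM.qcOn (T.affine (vtx v))).locally_surjective (T.affine _)
    (biproduct.desc φ) hsurj (inf_le_right : W ⊓ T.U (vtx v) ≤ _) (res M inf_le_left s) x ⟨hx, hv⟩
  exact ⟨V, h.trans inf_le_left, hxV, t, ht.trans (res_res _ _ _)⟩

include T in
theorem ToricData.ext_vanish : ∃ N₀ : ℕ, ∀ M N : X.Modules, IsCoh M → IsCoh N →
    ∀ n, N₀ < n → ∀ α : Ext M N n, α = 0 := by
  classical
  have hN := T.isLocallyNoetherian
  refine ⟨Nat.card κ + (Finset.univ.image fun v : κ → Bool => T.U (vtx v)).card,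
    fun M N hM hN' n hn α => ?_⟩
  refine ext_vanish_mv (Set.range (chart T.V)) ?_ (Nat.card κ) ?_ _ ?_ ?_ n hn α
  · rintro _ ⟨τ, rfl⟩ _ ⟨τ', rfl⟩
    exact ⟨_, (chart_inf _ _ _).symm⟩
  · rintro _ ⟨τ, rfl⟩ k hk β
    have : IsNoetherianRing Γ(X, chart T.V τ) :=
      IsLocallyNoetherian.component_noetherian ⟨_, T.affine τ⟩
    have := hM.finite (T.affine τ)
    exact ext_vanish_affine (T.affine τ) (T.glDim τ) (hM.qcOn (T.affine τ))
      (hN'.qcOn (T.affine τ)) k hk β
  · intro U hU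
    obtain ⟨v, -, rfl⟩ := Finset.mem_image.1 hU
    exact ⟨_, rfl⟩
  · refine top_le_iff.1 fun x _ => ?_
    obtain ⟨v, hv⟩ := exists_mem_chart_vtx T.cover x
    exact Finset.le_sup (f := id) (Finset.mem_image_of_mem (fun v : κ → Bool => T.U (vtx v))
      (Finset.mem_univ v)) hv

end Pool.Agent.Work.MP_910138_ag
end

-- merged part: Pool.Agent.Work.MP_910138_ag.Cl
section
/-! Classes of closed homogeneous maps in the derived category. -/

open CategoryTheory Limits CochainComplex.HomComplex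

namespace Pool.Agent.Work.MP_910138_ag

universe v u

variable {A : Type u} [Category.{v} A] [Abelian A] [HasCoproductsOfShape ℤ A] [Linear (ZMod 2) A]
  [HasDerivedCategory A] {K K' L L' : Cx A} {n : ℤ}

open DerivedCategory

/-- a complex concentrated in degree zero -/
noncomputable abbrev sgl (A : Type u) [Category.{v} A] [Abelian A] : A ⥤ Cx A :=
  HomologicalComplex.single A (ComplexShape.up ℤ) 0

/-- the chain map `K ⟶ L⟦n⟧` attached to a closed map of degree `n` -/
noncomputable def shU (n : ℤ) (f : U K ⟶ U L) (hf : Hg n f) (hd : dl f = 0) : K ⟶ L⟦n⟧ :=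
  Cocycle.equivHomShift.symm (cocU n f hf hd)

open Classical in
/-- the class in the derived category of a closed map of degree `n` -/
noncomputable def cl (n : ℤ) (f : U K ⟶ U L) : Q.obj K ⟶ (Q.obj L)⟦n⟧ :=
  if h : Hg n f ∧ dl f = 0 then Q.map (shU n f h.1 h.2) ≫ (Q.commShiftIso n).hom.app L else 0

/-- the Hom-complex computes the morphisms in the derived category -/
structure KD (K L : Cx A) : Prop where
  surj : ∀ (n : ℤ) (φ : Q.obj K ⟶ (Q.obj L)⟦n⟧), ∃ f, Hg n f ∧ dl f = 0 ∧ cl n f = φ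
  inj : ∀ (n : ℤ) (f : U K ⟶ U L), Hg n f → dl f = 0 → cl n f = 0 →
    ∃ h, Hg (n - 1) h ∧ f = dl h

/-- the class of a cocycle -/
noncomputable def cl_c (z : Cocycle K L n) : Q.obj K ⟶ (Q.obj L)⟦n⟧ :=
  Q.map (Cocycle.equivHomShift.symm z) ≫ (Q.commShiftIso n).hom.app L

theorem cl_hd (z : Cocycle K L n) : dl (toU (z : Cochain K L n)) = 0 := by
  rw [← toU_δ _ rfl, Cocycle.δ_eq_zero, toU_zero]

theorem cl_cocU_toU (z : Cocycle K L n) (h1 : Hg n (toU (z : Cochain K L n)))
    (h2 : dl (toU (z : Cochain K L n)) = 0) : cocU n _ h1 h2 = z :=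
  Cocycle.ext (ofU_toU _)

theorem cl_toU (z : Cocycle K L n) : cl n (toU (z : Cochain K L n)) = cl_c z := by
  rw [cl, dif_pos ⟨hg_toU _, cl_hd z⟩, shU, cl_cocU_toU, cl_c]

theorem cl_exists {f : U K ⟶ U L} (hf : Hg n f) (hd : dl f = 0) :
    ∃ z : Cocycle K L n, toU (z : Cochain K L n) = f :=
  ⟨cocU n f hf hd, toU_ofU hf⟩

omit [HasCoproductsOfShape ℤ A] [Linear (ZMod 2) A] in
theorem cl_c_add (z w : Cocycle K L n) : cl_c (z + w) = cl_c z + cl_c w := by
  simp only [cl_c, map_add, Functor.map_add, Preadditive.add_comp]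

omit [HasCoproductsOfShape ℤ A] [Linear (ZMod 2) A] in
theorem cl_Q_eq (g : K ⟶ L) : Q.map g = (quotientCompQhIso A).inv.app K ≫
    Qh.map ((HomotopyCategory.quotient A (ComplexShape.up ℤ)).map g) ≫
      (quotientCompQhIso A).hom.app L := by
  rw [quotientCompQhIso_hom_naturality, Iso.inv_hom_id_app_assoc]

omit [HasCoproductsOfShape ℤ A] [Linear (ZMod 2) A] in
theorem cl_c_eq (z : Cocycle K L n) : cl_c z = (quotientCompQhIso A).inv.app K ≫
    Qh.map (CohomologyClass.toHom (CohomologyClass.mk z)) ≫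
      (quotientCompQhIso A).hom.app (L⟦n⟧) ≫ (Q.commShiftIso n).hom.app L := by
  rw [cl_c, cl_Q_eq, CohomologyClass.toHom_mk]
  simp only [Category.assoc]

omit [HasCoproductsOfShape ℤ A] [Linear (ZMod 2) A] in
theorem cl_c_eq_zero_iff (z : Cocycle K L n) :
    cl_c z = 0 ↔ Qh.map (CohomologyClass.toHom (CohomologyClass.mk z)) = 0 := by
  rw [cl_c_eq]
  constructor
  · intro h
    rw [← cancel_epi ((quotientCompQhIso A).inv.app K),
      ← cancel_mono ((quotientCompQhIso A).hom.app (L⟦n⟧) ≫ (Q.commShiftIso n).hom.app L)]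
    simpa only [Category.assoc, comp_zero, zero_comp] using h
  · intro h
    rw [h, zero_comp, comp_zero]

theorem cl_mem_iff (z : Cocycle K L n) : z ∈ coboundaries K L n ↔
    ∃ h, Hg (n - 1) h ∧ toU (z : Cochain K L n) = dl h := by
  rw [mem_coboundaries_iff z (n - 1) (by omega)]
  constructor
  · rintro ⟨β, hβ⟩
    exact ⟨toU β, hg_toU _, by rw [← hβ, toU_δ _ (by omega)]⟩
  · rintro ⟨h, hh, e⟩
    obtain ⟨β, rfl⟩ := hh.exists
    exact ⟨β, toU_injective (by rw [toU_δ _ (by omega), e])⟩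

theorem cl_add {f g : U K ⟶ U L} (hf : Hg n f) (hf' : dl f = 0) (hg : Hg n g) (hg' : dl g = 0) :
    cl n (f + g) = cl n f + cl n g := by
  obtain ⟨z, rfl⟩ := cl_exists hf hf'
  obtain ⟨w, rfl⟩ := cl_exists hg hg'
  rw [← toU_add, ← Cocycle.coe_add, cl_toU, cl_toU, cl_toU, cl_c_add]

theorem cl_zero : cl n (0 : U K ⟶ U L) = 0 := by
  have h := cl_add (n := n) (K := K) (L := L) Hg.zero dl_zero Hg.zero dl_zero
  rw [add_zero] at h
  exact left_eq_add.mp h

theorem cl_exact {h : U K ⟶ U L} (hh : Hg (n - 1) h) : cl n (dl h) = 0 := by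
  obtain ⟨z, hz⟩ := cl_exists (n := n) (hh.dl (by omega)) (dl_dl h)
  rw [← hz, cl_toU, cl_c_eq_zero_iff,
    (CohomologyClass.toHom_mk_eq_zero_iff z).2 ((cl_mem_iff z).2 ⟨h, hh, hz⟩), Functor.map_zero]

theorem cl_precomp (φ : K' ⟶ K) {f : U K ⟶ U L} (hf : Hg n f) (hf' : dl f = 0) :
    cl n (mapU φ ≫ f) = Q.map φ ≫ cl n f := by
  obtain ⟨z, rfl⟩ := cl_exists hf hf'
  have h : mapU φ ≫ toU (z : Cochain K L n) = toU (z.precomp φ : Cochain K' L n) := by
    rw [mapU, ← toU_comp _ _ (zero_add n)]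
    rfl
  rw [h, cl_toU, cl_toU, cl_c, cl_c, Cocycle.equivHomShift_symm_precomp, Functor.map_comp,
    Category.assoc]

theorem cl_postcomp (ψ : L ⟶ L') {f : U K ⟶ U L} (hf : Hg n f) (hf' : dl f = 0) :
    cl n (f ≫ mapU ψ) = cl n f ≫ (Q.map ψ)⟦n⟧' := by
  obtain ⟨z, rfl⟩ := cl_exists hf hf'
  have h : toU (z : Cochain K L n) ≫ mapU ψ = toU (z.postcomp ψ : Cochain K L' n) := by
    rw [mapU, ← toU_comp _ _ (add_zero n)]
    rfl
  rw [h, cl_toU, cl_toU, cl_c, cl_c, Cocycle.equivHomShift_symm_postcomp, Functor.map_comp,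
    Category.assoc, Category.assoc, Functor.commShiftIso_hom_naturality]

set_option backward.isDefEq.respectTransparency false in
theorem cl_mapU (φ : K ⟶ L) :
    cl 0 (mapU φ) = Q.map φ ≫ (shiftFunctorZero (DerivedCategory A) ℤ).inv.app (Q.obj L) := by
  have h : mapU φ = toU (Cocycle.ofHom φ : Cochain K L 0) := rfl
  have e : Cocycle.equivHomShift.symm (Cocycle.ofHom φ) =
      φ ≫ (shiftFunctorZero (Cx A) ℤ).inv.app L := by
    ext p
    simp [Cocycle.equivHomShift_symm_apply,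
      Cochain.rightShift_v _ _ _ _ p p (add_zero p) p (add_zero p),
      CochainComplex.shiftFunctorZero_inv_app_f, HomologicalComplex.XIsoOfEq]
  rw [h, cl_toU, cl_c, e, Functor.commShiftIso_zero,
    Functor.CommShift.isoZero_hom_app, ← Functor.map_comp_assoc, Category.assoc,
    Iso.inv_hom_id_app]
  simp

theorem Q_map_eq_of_exact {φ ψ : K ⟶ L} {h : U K ⟶ U L} (hh : Hg (-1) h)
    (e : mapU φ + mapU ψ = dl h) : Q.map φ = Q.map ψ := by
  have h1 : cl 0 (dl h) = 0 := cl_exact (n := 0) (hh.of_eq (by omega))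
  have h2 : mapU φ = mapU ψ + dl h := by
    rw [← e, add_comm (mapU φ), ← add_assoc, add_self2, zero_add]
  have h3 : cl 0 (mapU φ) = cl 0 (mapU ψ) := by
    rw [h2, cl_add (hg_mapU _) (dl_mapU _) (hh.dl (by omega)) (dl_dl h), h1, add_zero]
  rw [cl_mapU, cl_mapU] at h3
  exact (cancel_mono _).1 h3

theorem KD.map_surjective (hk : KD K L) (φ : Q.obj K ⟶ Q.obj L) : ∃ f : K ⟶ L, Q.map f = φ := by
  obtain ⟨f, hf, hd, e⟩ :=
    hk.surj 0 (φ ≫ (shiftFunctorZero (DerivedCategory A) ℤ).inv.app (Q.obj L))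
  refine ⟨homU f hf hd, ?_⟩
  rw [← mapU_homU f hf hd, cl_mapU] at e
  exact (cancel_mono _).1 e

theorem KD.exact_of_map_eq (hk : KD K L) {φ ψ : K ⟶ L} (e : Q.map φ = Q.map ψ) :
    ∃ h, Hg (-1) h ∧ mapU φ + mapU ψ = dl h := by
  have h0 : cl 0 (mapU φ + mapU ψ) = 0 := by
    have h1 : cl 0 (mapU φ + mapU φ) = 0 := by rw [add_self2, cl_zero]
    rw [cl_add (hg_mapU _) (dl_mapU _) (hg_mapU _) (dl_mapU _)] at h1 ⊢
    rw [cl_mapU] at h1
    rw [cl_mapU, cl_mapU, ← e]
    exact h1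
  obtain ⟨h, hh, e'⟩ := hk.inj 0 _ ((hg_mapU φ).add (hg_mapU ψ))
    (by rw [dl_add, dl_mapU, dl_mapU, add_zero]) h0
  exact ⟨h, hh.of_eq (by omega), e'⟩

theorem cl_kd_iff : KD K L ↔ ∀ n : ℤ, Function.Bijective
    (fun f : (HomotopyCategory.quotient A (ComplexShape.up ℤ)).obj K ⟶
      (HomotopyCategory.quotient A (ComplexShape.up ℤ)).obj (L⟦n⟧) => Qh.map f) := by
  constructor
  · intro hk n
    constructor
    · intro f g hfg
      obtain ⟨x, hx⟩ := (CohomologyClass.toHom_bijective K L n).2 (f - g)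
      obtain ⟨z, rfl⟩ := x.mk_surjective
      have h0 : cl_c z = 0 := by
        rw [cl_c_eq_zero_iff, hx, Functor.map_sub, sub_eq_zero]
        exact hfg
      have h1 := hk.inj n _ (hg_toU _) (cl_hd z) (by rw [cl_toU, h0])
      rw [← cl_mem_iff, ← CohomologyClass.toHom_mk_eq_zero_iff, hx] at h1
      exact sub_eq_zero.1 h1
    · intro φ
      obtain ⟨f, hf, hd, e⟩ := hk.surj n ((quotientCompQhIso A).inv.app K ≫ φ ≫
        (quotientCompQhIso A).hom.app (L⟦n⟧) ≫ (Q.commShiftIso n).hom.app L)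
      obtain ⟨z, rfl⟩ := cl_exists hf hd
      rw [cl_toU, cl_c_eq] at e
      exact ⟨_, (cancel_mono _).1 ((cancel_epi _).1 e)⟩
  · intro hb
    constructor
    · intro n φ
      obtain ⟨g, hg⟩ := (hb n).2 ((quotientCompQhIso A).hom.app K ≫ φ ≫
        (Q.commShiftIso n).inv.app L ≫ (quotientCompQhIso A).inv.app (L⟦n⟧))
      obtain ⟨x, rfl⟩ := (CohomologyClass.toHom_bijective K L n).2 g
      obtain ⟨z, rfl⟩ := x.mk_surjective
      refine ⟨_, hg_toU _, cl_hd z, ?_⟩
      have hg' : Qh.map (CohomologyClass.toHom (CohomologyClass.mk z)) = _ := hg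
      rw [cl_toU, cl_c_eq, hg']
      simp
    · intro n f hf hd e
      obtain ⟨z, rfl⟩ := cl_exists hf hd
      rw [cl_toU, cl_c_eq_zero_iff] at e
      rw [← cl_mem_iff, ← CohomologyClass.toHom_mk_eq_zero_iff]
      refine (hb n).1 ?_
      have h0 : Qh.map (0 : (HomotopyCategory.quotient A (ComplexShape.up ℤ)).obj K ⟶
        (HomotopyCategory.quotient A (ComplexShape.up ℤ)).obj (L⟦n⟧)) = 0 := Functor.map_zero _ _ _
      exact e.trans h0.symm

theorem cl_bij_iso {C D : Type*} [Category C] [Category D] (F : C ⥤ D) (X : C) {Y Y' : C}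
    (e : Y ≅ Y') (h : Function.Bijective (fun f : X ⟶ Y => F.map f)) :
    Function.Bijective (fun f : X ⟶ Y' => F.map f) := by
  constructor
  · intro f g hfg
    have hfg' : F.map f = F.map g := hfg
    have := h.1 (a₁ := f ≫ e.inv) (a₂ := g ≫ e.inv) (by simp only [Functor.map_comp, hfg'])
    exact (cancel_mono _).1 this
  · intro φ
    obtain ⟨g, hg⟩ := h.2 (φ ≫ F.map e.inv)
    have hg' : F.map g = φ ≫ F.map e.inv := hg
    refine ⟨g ≫ e.hom, ?_⟩
    simp only [Functor.map_comp, hg', Category.assoc]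
    rw [← Functor.map_comp, e.inv_hom_id, F.map_id, Category.comp_id]

theorem kd_iff : KD K L ↔ ∀ n : ℤ, Function.Bijective
    (fun f : (HomotopyCategory.quotient A (ComplexShape.up ℤ)).obj K ⟶
      ((HomotopyCategory.quotient A (ComplexShape.up ℤ)).obj L)⟦n⟧ => Qh.map f) := by
  rw [cl_kd_iff]
  refine forall_congr' fun n => ⟨fun h => ?_, fun h => ?_⟩
  · exact cl_bij_iso Qh _
      (((HomotopyCategory.quotient A (ComplexShape.up ℤ)).commShiftIso n).app L) h
  · exact cl_bij_iso Qh _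
      (((HomotopyCategory.quotient A (ComplexShape.up ℤ)).commShiftIso n).app L).symm h

theorem kd_of_isKInjective [L.IsKInjective] : KD K L := by
  rw [cl_kd_iff]
  intro n
  exact CochainComplex.IsKInjective.Qh_map_bijective _ (L⟦n⟧)

end Pool.Agent.Work.MP_910138_ag
end

-- merged part: Pool.Agent.Work.MP_910138_ag.GDb
section
/-! The bounded derived category of coherent sheaves is a triangulated subcategory. -/

open CategoryTheory Limits AlgebraicGeometry TopologicalSpace Opposite Abelian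

namespace Pool.Agent.Work.MP_910138_ag

section General

universe w v u

variable {A : Type u} [Category.{v} A] [Abelian A]

/-- the short exact sequence extracted from a five term exact sequence -/
theorem gdb_five {A₁ A₂ A₃ A₄ A₅ : A} {f : A₁ ⟶ A₂} {g : A₂ ⟶ A₃} {h : A₃ ⟶ A₄} {k : A₄ ⟶ A₅}
    (fg : f ≫ g = 0) (gh : g ≫ h = 0) (hk : h ≫ k = 0)
    (e₂ : (ShortComplex.mk f g fg).Exact) (e₃ : (ShortComplex.mk g h gh).Exact)
    (e₄ : (ShortComplex.mk h k hk).Exact) :
    ∃ (a : cokernel f ⟶ A₃) (b : A₃ ⟶ kernel k) (ab : a ≫ b = 0),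
      (ShortComplex.mk a b ab).ShortExact := by
  have ab : cokernel.desc f g fg ≫ kernel.lift k h hk = 0 := by
    rw [← cancel_epi (cokernel.π f), ← cancel_mono (kernel.ι k)]
    simp [gh]
  refine ⟨cokernel.desc f g fg, kernel.lift k h hk, ab, ?_⟩
  have hm : Mono (cokernel.desc f g fg) := (ShortComplex.exact_iff_mono_cokernel_desc _).1 e₂
  have he : Epi (kernel.lift k h hk) := (ShortComplex.exact_iff_epi_kernel_lift _).1 e₄
  have gb : g ≫ kernel.lift k h hk = 0 := by
    rw [← cancel_mono (kernel.ι k)]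
    simp [gh]
  let φ : ShortComplex.mk g (kernel.lift k h hk) gb ⟶ ShortComplex.mk g h gh :=
    { τ₁ := 𝟙 _, τ₂ := 𝟙 _, τ₃ := kernel.ι k }
  let ψ : ShortComplex.mk g (kernel.lift k h hk) gb ⟶
      ShortComplex.mk (cokernel.desc f g fg) (kernel.lift k h hk) ab :=
    { τ₁ := cokernel.π f, τ₂ := 𝟙 _, τ₃ := 𝟙 _ }
  have h1 : (ShortComplex.mk g (kernel.lift k h hk) gb).Exact :=
    (ShortComplex.exact_iff_of_epi_of_isIso_of_mono φ).2 e₃
  exact { exact := (ShortComplex.exact_iff_of_epi_of_isIso_of_mono ψ).1 h1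
          mono_f := hm
          epi_g := he }

variable [HasDerivedCategory.{w} A]

open DerivedCategory Pretriangulated

theorem gdb_iso₁ (T : Triangle (DerivedCategory A)) (hT : T ∈ distTriang _) (i : ℤ)
    (h₀ : IsZero ((homologyFunctor A (i - 1)).obj T.obj₃))
    (h₁ : IsZero ((homologyFunctor A i).obj T.obj₃)) :
    IsIso ((homologyFunctor A i).map T.mor₁) := by
  have : Epi ((homologyFunctor A i).map T.mor₁) :=
    (HomologySequence.epi_homologyMap_mor₁_iff T hT i).2 (h₁.eq_of_tgt _ _)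
  have : Mono ((homologyFunctor A i).map T.mor₁) :=
    (HomologySequence.mono_homologyMap_mor₁_iff T hT (i - 1) i (by omega)).2 (h₀.eq_of_src _ _)
  exact isIso_of_mono_of_epi _

theorem gdb_iso₂ (T : Triangle (DerivedCategory A)) (hT : T ∈ distTriang _) (i : ℤ)
    (h₀ : IsZero ((homologyFunctor A i).obj T.obj₁))
    (h₁ : IsZero ((homologyFunctor A (i + 1)).obj T.obj₁)) :
    IsIso ((homologyFunctor A i).map T.mor₂) := by
  have : Epi ((homologyFunctor A i).map T.mor₂) :=
    (HomologySequence.epi_homologyMap_mor₂_iff T hT i (i + 1) rfl).2 (h₁.eq_of_tgt _ _)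
  have : Mono ((homologyFunctor A i).map T.mor₂) :=
    (HomologySequence.mono_homologyMap_mor₂_iff T hT i).2 (h₀.eq_of_src _ _)
  exact isIso_of_mono_of_epi _

/-- the homology of a single complex in its degree -/
noncomputable def gdb_singleIso (a : ℤ) (M : A) :
    (homologyFunctor A a).obj ((singleFunctor A a).obj M) ≅ M :=
  (homologyFunctorFactors A a).app ((HomologicalComplex.single A (ComplexShape.up ℤ) a).obj M) ≪≫
    HomologicalComplex.singleObjHomologySelfIso (ComplexShape.up ℤ) a M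

theorem gdb_le (P : A → Prop) (hP : ∀ {M N : A} (_ : M ≅ N), P M → P N)
    (hz : ∀ {M : A}, IsZero M → P M)
    (R : ObjectProperty (DerivedCategory A)) [R.IsTriangulated] [R.IsClosedUnderIsomorphisms]
    (hR : ∀ M, P M → R ((singleFunctor A 0).obj M)) (n : ℕ) :
    ∀ (a : ℤ) (C : DerivedCategory A), C.IsGE a → C.IsLE (a + n - 1) →
      (∀ i, P ((homologyFunctor A i).obj C)) → R C := by
  induction n with
  | zero =>
    intro a C h₁ h₂ _
    exact R.prop_of_isZero (TStructure.t.isZero C (a + (0 : ℕ) - 1) a (by omega))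
  | succ n ih =>
    intro a C h₁ h₂ h₃
    obtain ⟨Y, Z, hY, hZ, f, g, h, hT⟩ := TStructure.t.exists_triangle C a (a + 1) rfl
    have hY' : Y.IsLE a := ⟨hY⟩
    have hZ' : Z.IsGE (a + 1) := ⟨hZ⟩
    have e₁ : ∀ i, i ≤ a → IsIso ((homologyFunctor A i).map f) := fun i hi =>
      gdb_iso₁ _ hT i (isZero_of_isGE Z (a + 1) _ (by omega)) (isZero_of_isGE Z (a + 1) _ (by omega))
    have e₂ : ∀ i, a < i → IsIso ((homologyFunctor A i).map g) := fun i hi =>
      gdb_iso₂ _ hT i (isZero_of_isLE Y a _ hi) (isZero_of_isLE Y a _ (by omega))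
    have hY'' : Y.IsGE a := by
      rw [isGE_iff]
      intro i hi
      have := e₁ i hi.le
      exact (isZero_of_isGE C a i hi).of_iso (asIso ((homologyFunctor A i).map f))
    have hZ'' : Z.IsLE (a + 1 + n - 1) := by
      rw [isLE_iff]
      intro i hi
      have := e₂ i (by omega)
      exact (isZero_of_isLE C (a + (n + 1 : ℕ) - 1) i (by push_cast; omega)).of_iso
        (asIso ((homologyFunctor A i).map g)).symm
    have rZ : R Z := by
      refine ih (a + 1) Z hZ' hZ'' fun i => ?_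
      by_cases hi : a < i
      · have := e₂ i hi
        exact hP (asIso ((homologyFunctor A i).map g)) (h₃ i)
      · exact hz (isZero_of_isGE Z (a + 1) i (by omega))
    have rY : R Y := by
      obtain ⟨M, ⟨e⟩⟩ := exists_iso_singleFunctor_obj_of_isGE_of_isLE Y a
      have := e₁ a le_rfl
      have hM : P M := hP ((asIso ((homologyFunctor A a).map f)).symm ≪≫
        (homologyFunctor A a).mapIso e ≪≫ gdb_singleIso a M) (h₃ a)
      exact R.prop_of_iso (((singleFunctors A).shiftIso (-a) a 0 (by omega)).app M ≪≫ e.symm)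
        (R.le_shift (-a) _ (hR M hM))
    exact R.ext_of_isTriangulatedClosed₂ _ hT rY rZ

end General

variable {X : Scheme.{0}} {M N : X.Modules} {U V W : X.Opens}

open DerivedCategory

instance Db_closed (X : Scheme.{0}) : (Db X).IsClosedUnderIsomorphisms := by
  refine ⟨fun {C D} e h => ?_⟩
  obtain ⟨⟨a, b, ha, hb⟩, h⟩ := h
  exact ⟨⟨a, b, TStructure.t.isGE_of_iso e a, TStructure.t.isLE_of_iso e b⟩,
    fun n => (h n).of_iso ((homologyFunctor X.Modules n).mapIso e)⟩

instance Db_triang (X : Scheme.{0}) [IsLocallyNoetherian X] : (Db X).IsTriangulated := by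
  have h₀ : (Db X).ContainsZero := by
    open ZeroObject in
    exact ⟨0, isZero_zero _, ⟨0, 0, inferInstance, inferInstance⟩,
      fun n => isCoh_of_isZero ((homologyFunctor X.Modules n).map_isZero (isZero_zero _))⟩
  have h₁ : (Db X).IsStableUnderShift ℤ := by
    refine ⟨fun k => ⟨fun C h => ?_⟩⟩
    obtain ⟨⟨a, b, ha, hb⟩, h⟩ := h
    exact ⟨⟨a - k, b - k, TStructure.t.isGE_shift C a k (a - k) (by omega),
      TStructure.t.isLE_shift C b k (b - k) (by omega)⟩, fun n => (h (k + n)).of_iso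
        (((homologyFunctor X.Modules 0).shiftIso k n (k + n) rfl).app C).symm⟩
  have h₂ : (Db X).IsTriangulatedClosed₂ := by
    refine ObjectProperty.IsTriangulatedClosed₂.mk' fun T hT h₁ h₃ => ?_
    obtain ⟨⟨a, b, ha, hb⟩, h⟩ := h₁
    obtain ⟨⟨a', b', ha', hb'⟩, h'⟩ := h₃
    refine ⟨⟨min a a', max b b', ?_, ?_⟩, fun n => ?_⟩
    · exact TStructure.t.isGE₂ T hT _ (TStructure.t.isGE_of_ge _ _ a (min_le_left _ _))
        (TStructure.t.isGE_of_ge _ _ a' (min_le_right _ _))
    · exact TStructure.t.isLE₂ T hT _ (TStructure.t.isLE_of_le _ b _ (le_max_left _ _))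
        (TStructure.t.isLE_of_le _ b' _ (le_max_right _ _))
    · obtain ⟨p, q, pq, hS⟩ := gdb_five _ _ _
        (HomologySequence.exact₁ T hT (n - 1) n (by omega)) (HomologySequence.exact₂ T hT n)
        (HomologySequence.exact₃ T hT n (n + 1) rfl)
      exact IsCoh.extension _ hS (IsCoh.cokernel _ (h' _) (h _)) (IsCoh.kernel _ (h' _) (h _))
  exact { toContainsZero := h₀, toIsStableUnderShift := h₁, toIsTriangulatedClosed₂ := h₂ }

theorem Db_single (h : IsCoh M) : Db X (Q.obj ((sgl X.Modules).obj M)) := by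
  change Db X ((singleFunctor X.Modules 0).obj M)
  refine ⟨⟨0, 0, inferInstance, inferInstance⟩, fun n => ?_⟩
  rcases lt_trichotomy n 0 with hn | rfl | hn
  · exact isCoh_of_isZero (isZero_of_isGE _ 0 n hn)
  · exact h.of_iso (gdb_singleIso 0 M).symm
  · exact isCoh_of_isZero (isZero_of_isLE _ 0 n hn)

theorem Db_le (R : ObjectProperty (DerivedCategory X.Modules)) [R.IsTriangulated]
    [R.IsClosedUnderIsomorphisms] (hR : ∀ M, IsCoh M → R (Q.obj ((sgl X.Modules).obj M))) :
    Db X ≤ R := by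
  rintro C ⟨⟨a, b, ha, hb⟩, h⟩
  refine gdb_le IsCoh (fun e h => h.of_iso e) isCoh_of_isZero R hR (b - a + 1).toNat a C ha ?_ h
  exact TStructure.t.isLE_of_le C b _ (by omega)

end Pool.Agent.Work.MP_910138_ag
end
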