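import Pool.Agent.Work.MP_910138_ag.U
import Mathlib

-- merged part: Pool.Agent.Work.MP_910138_ag.Tot
section
/-! Twisted complexes: `TotStr K W deg t` says that `K` is the total complex of the family `W`
(`W x` placed in degree `deg x`) twisted by `t`. -/

open CategoryTheory Limits CochainComplex.HomComplex

namespace Pool.Agent.Work.MP_910138_ag

universe v u

variable {A : Type u} [Category.{v} A] [Abelian A] [HasCoproductsOfShape ℤ A]

/-- twisting data: homogeneity, Maurer-Cartan equation, one-sidedness -/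
structure Tw {G : Type} [Fintype G] (W : G → Cx A) (deg : G → ℤ)
    (t : ∀ x y, U (W x) ⟶ U (W y)) : Prop where
  hg : ∀ x y, Hg (deg x + 1 - deg y) (t x y)
  mc : ∀ x z, dl (t x z) = ∑ y, t x y ≫ t y z
  tri : ∀ x y, t x y ≠ 0 → deg x < deg y

/-- `K` is the total complex of `W` twisted by `t` -/
structure TotStr {G : Type} [Fintype G] (K : Cx A) (W : G → Cx A) (deg : G → ℤ)
    (t : ∀ x y, U (W x) ⟶ U (W y)) where
  inc : ∀ x, U (W x) ⟶ U K
  pr : ∀ x, U K ⟶ U (W x)
  hinc : ∀ x, Hg (deg x) (inc x)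
  hpr : ∀ x, Hg (-deg x) (pr x)
  inc_pr_self : ∀ x, inc x ≫ pr x = 𝟙 _
  inc_pr_ne : ∀ x y, x ≠ y → inc x ≫ pr y = 0
  total : ∑ x, pr x ≫ inc x = 𝟙 _
  dl_inc : ∀ x, dl (inc x) = ∑ y, t x y ≫ inc y

attribute [reassoc] TotStr.inc_pr_self TotStr.inc_pr_ne

variable {G G' G'' : Type} [Fintype G] [Fintype G'] [Fintype G'']
  {K K' K'' : Cx A} {W : G → Cx A} {W' : G' → Cx A} {W'' : G'' → Cx A}
  {deg : G → ℤ} {deg' : G' → ℤ} {deg'' : G'' → ℤ}
  {t : ∀ x y, U (W x) ⟶ U (W y)} {t' : ∀ x y, U (W' x) ⟶ U (W' y)}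
  {t'' : ∀ x y, U (W'' x) ⟶ U (W'' y)}

/-- assemble a matrix of maps -/
noncomputable def asm (s : TotStr K W deg t) (s' : TotStr K' W' deg' t')
    (φ : ∀ x y, U (W x) ⟶ U (W' y)) : U K ⟶ U K' :=
  ∑ x, ∑ y, s.pr x ≫ φ x y ≫ s'.inc y

variable (s : TotStr K W deg t) (s' : TotStr K' W' deg' t') (s'' : TotStr K'' W'' deg'' t'')

@[reassoc]
theorem inc_asm (φ : ∀ x y, U (W x) ⟶ U (W' y)) (x : G) :
    s.inc x ≫ asm s s' φ = ∑ y, φ x y ≫ s'.inc y := by
  rw [asm, Preadditive.comp_sum, Finset.sum_eq_single x]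
  · simp only [Preadditive.comp_sum, s.inc_pr_self_assoc]
  · intro b _ hb
    simp only [Preadditive.comp_sum, s.inc_pr_ne_assoc x b hb.symm, zero_comp,
      Finset.sum_const_zero]
  · simp

@[reassoc]
theorem asm_pr (φ : ∀ x y, U (W x) ⟶ U (W' y)) (y : G') :
    asm s s' φ ≫ s'.pr y = ∑ x, s.pr x ≫ φ x y := by
  rw [asm, Preadditive.sum_comp]
  refine Finset.sum_congr rfl fun x _ => ?_
  rw [Preadditive.sum_comp, Finset.sum_eq_single y]
  · simp only [Category.assoc, s'.inc_pr_self, Category.comp_id]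
  · intro b _ hb
    simp only [Category.assoc, s'.inc_pr_ne b y hb, comp_zero]
  · simp

theorem inc_asm_pr (φ : ∀ x y, U (W x) ⟶ U (W' y)) (x : G) (y : G') :
    s.inc x ≫ asm s s' φ ≫ s'.pr y = φ x y := by
  rw [asm_pr, Preadditive.comp_sum, Finset.sum_eq_single x]
  · rw [s.inc_pr_self_assoc]
  · intro b _ hb
    rw [s.inc_pr_ne_assoc x b hb.symm, zero_comp]
  · simp

theorem TotStr.ext_from {B : A} {f g : U K ⟶ B} (h : ∀ x, s.inc x ≫ f = s.inc x ≫ g) : f = g := by
  rw [← Category.id_comp f, ← Category.id_comp g, ← s.total]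
  simp only [Preadditive.sum_comp, Category.assoc, h]

theorem TotStr.ext_to {B : A} {f g : B ⟶ U K} (h : ∀ x, f ≫ s.pr x = g ≫ s.pr x) : f = g := by
  rw [← Category.comp_id f, ← Category.comp_id g, ← s.total]
  simp only [Preadditive.comp_sum, reassoc_of% h]

theorem asm_ext {f g : U K ⟶ U K'}
    (h : ∀ x y, s.inc x ≫ f ≫ s'.pr y = s.inc x ≫ g ≫ s'.pr y) : f = g :=
  s.ext_from fun x => s'.ext_to fun y => by simpa only [Category.assoc] using h x y

theorem asm_components (f : U K ⟶ U K') : asm s s' (fun x y => s.inc x ≫ f ≫ s'.pr y) = f :=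
  asm_ext s s' fun x y => inc_asm_pr s s' _ x y

theorem asm_add (φ ψ : ∀ x y, U (W x) ⟶ U (W' y)) :
    asm s s' (fun x y => φ x y + ψ x y) = asm s s' φ + asm s s' ψ := by
  simp only [asm, Preadditive.add_comp, Preadditive.comp_add, Finset.sum_add_distrib]

theorem asm_zero : asm s s' (fun _ _ => 0) = 0 := by simp [asm]

theorem asm_comp (φ : ∀ x y, U (W x) ⟶ U (W' y)) (ψ : ∀ y z, U (W' y) ⟶ U (W'' z)) :
    asm s s' φ ≫ asm s' s'' ψ = asm s s'' (fun x z => ∑ y, φ x y ≫ ψ y z) := by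
  refine asm_ext s s'' fun x z => ?_
  rw [inc_asm_pr, Category.assoc, inc_asm_assoc, Preadditive.sum_comp]
  refine Finset.sum_congr rfl fun y _ => ?_
  rw [Category.assoc, inc_asm_pr]

theorem hg_asm {n : ℤ} {φ : ∀ x y, U (W x) ⟶ U (W' y)}
    (h : ∀ x y, Hg (n + deg x - deg' y) (φ x y)) : Hg n (asm s s' φ) :=
  Hg.sum _ fun x _ => Hg.sum _ fun y _ =>
    (s.hpr x).comp ((h x y).comp (s'.hinc y) rfl) (by omega)

theorem hg_component {n : ℤ} {f : U K ⟶ U K'} (hf : Hg n f) (x : G) (y : G') :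
    Hg (n + deg x - deg' y) (s.inc x ≫ f ≫ s'.pr y) :=
  (s.hinc x).comp (hf.comp (s'.hpr y) rfl) (by omega)

variable [Linear (ZMod 2) A]

theorem TotStr.dl_pr (y : G) : dl (s.pr y) = ∑ x, s.pr x ≫ t x y := by
  classical
  refine s.ext_from fun x => ?_
  have h1 : dl (s.inc x ≫ s.pr y) = 0 := by
    by_cases h : x = y
    · subst h
      rw [s.inc_pr_self, dl_id]
    · rw [s.inc_pr_ne x y h, dl_zero]
  rw [dl_comp, s.dl_inc, add_comm] at h1
  rw [eq_of_add_eq_zero2 h1, Preadditive.sum_comp, Preadditive.comp_sum, Finset.sum_eq_single y,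
    Finset.sum_eq_single x]
  · rw [Category.assoc, s.inc_pr_self, s.inc_pr_self_assoc, Category.comp_id]
  · intro b _ hb
    rw [s.inc_pr_ne_assoc x b hb.symm, zero_comp]
  · simp
  · intro b _ hb
    rw [Category.assoc, s.inc_pr_ne b y hb, comp_zero]
  · simp

theorem dl_component (f : U K ⟶ U K') (x : G) (y : G') :
    s.inc x ≫ dl f ≫ s'.pr y = dl (s.inc x ≫ f ≫ s'.pr y) +
      ∑ x', t x x' ≫ s.inc x' ≫ f ≫ s'.pr y + ∑ y', (s.inc x ≫ f ≫ s'.pr y') ≫ t' y' y := by
  rw [dl_comp, dl_comp, s.dl_inc, s'.dl_pr]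
  simp only [Preadditive.sum_comp, Preadditive.comp_sum, Preadditive.comp_add, Category.assoc]
  have h1 := add_self2 (∑ x', t x x' ≫ s.inc x' ≫ f ≫ s'.pr y)
  have h2 := add_self2 (∑ y', s.inc x ≫ f ≫ s'.pr y' ≫ t' y' y)
  rw [← sub_eq_zero, ← neg_eq_zero, ← add_zero (0 : U (W x) ⟶ U (W' y))]
  nth_rewrite 1 [← h1, ← h2]
  abel

theorem dl_asm (φ : ∀ x y, U (W x) ⟶ U (W' y)) :
    dl (asm s s' φ) = asm s s'
      (fun x y => dl (φ x y) + ∑ x', t x x' ≫ φ x' y + ∑ y', φ x y' ≫ t' y' y) := by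
  refine asm_ext s s' fun x y => ?_
  rw [dl_component, inc_asm_pr s s' (fun x y => dl (φ x y) + ∑ x', t x x' ≫ φ x' y +
    ∑ y', φ x y' ≫ t' y' y)]
  simp only [inc_asm_pr]

end Pool.Agent.Work.MP_910138_ag
end

-- merged part: Pool.Agent.Work.MP_910138_ag.TotEx
section
/-! Existence of total complexes and description of their terms. -/

open CategoryTheory Limits CochainComplex.HomComplex

namespace Pool.Agent.Work.MP_910138_ag

universe v u

variable {A : Type u} [Category.{v} A] [Abelian A] [HasCoproductsOfShape ℤ A] [Linear (ZMod 2) A]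
variable {G : Type} [Fintype G] {K K' : Cx A} {W W' : G → Cx A} {deg : G → ℤ}
  {t : ∀ x y, U (W x) ⟶ U (W y)} {t' : ∀ x y, U (W' x) ⟶ U (W' y)}

omit [Linear (ZMod 2) A] in
theorem totex_hg {L M : Cx A} {k : ℤ} {f : U L ⟶ U M} (hf : Hg k f) {p q : ℤ} (h : p + k = q) :
    ιU L p ≫ f ≫ πU M q ≫ ιU M q = ιU L p ≫ f := by
  subst h
  exact (hf p).symm

omit [Linear (ZMod 2) A] in
theorem totex_ext {L : Cx A} {B : A} (a : ℤ) {f g : U L ⟶ B}
    (h : ∀ n, ιU L (n - a) ≫ f = ιU L (n - a) ≫ g) : f = g := by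
  refine U_ext fun p => ?_
  obtain ⟨n, rfl⟩ : ∃ n, p = n - a := ⟨p + a, by omega⟩
  exact h n

/-- the terms of the total complex -/
noncomputable abbrev totexX (W : G → Cx A) (deg : G → ℤ) (n : ℤ) : A :=
  ⨁ fun x => (W x).X (n - deg x)

/-- the sum of all the `U (W x)` -/
noncomputable abbrev totexB (W : G → Cx A) : A := ⨁ fun x => U (W x)

/-- inclusion of a term -/
noncomputable def totexI (W : G → Cx A) (deg : G → ℤ) (n : ℤ) : totexX W deg n ⟶ totexB W :=
  biproduct.map fun x => ιU (W x) (n - deg x)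

/-- projection to a term -/
noncomputable def totexP (W : G → Cx A) (deg : G → ℤ) (n : ℤ) : totexB W ⟶ totexX W deg n :=
  biproduct.map fun x => πU (W x) (n - deg x)

/-- the total differential -/
noncomputable def totexD (t : ∀ x y, U (W x) ⟶ U (W y)) : totexB W ⟶ totexB W :=
  biproduct.map (fun x => dU (W x)) + biproduct.matrix t

omit [Linear (ZMod 2) A] in
theorem totex_ι_D {B : A} (x : G) (f : totexB W ⟶ B) :
    biproduct.ι (fun x => U (W x)) x ≫ totexD t ≫ f =
      dU (W x) ≫ biproduct.ι (fun x => U (W x)) x ≫ f +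
        ∑ y, t x y ≫ biproduct.ι (fun x => U (W x)) y ≫ f := by
  rw [totexD, Preadditive.add_comp, Preadditive.comp_add, biproduct.ι_map_assoc,
    biproduct.ι_matrix_assoc, biproduct.lift_eq, Preadditive.sum_comp]
  simp only [Category.assoc]

theorem totex_D_D (h : Tw W deg t) : totexD t ≫ totexD t = 0 := by
  refine biproduct.hom_ext' _ _ fun x => biproduct.hom_ext _ _ fun z => ?_
  have h1 : ∀ y, biproduct.ι (fun x => U (W x)) y ≫ totexD t ≫ biproduct.π (fun x => U (W x)) z =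
      dU (W y) ≫ biproduct.ι (fun x => U (W x)) y ≫ biproduct.π (fun x => U (W x)) z + t y z := by
    intro y
    rw [totexD, Preadditive.add_comp, Preadditive.comp_add, biproduct.ι_map_assoc,
      biproduct.matrix_π, biproduct.ι_desc]
  have h2 : ∑ y, t x y ≫ dU (W y) ≫ biproduct.ι (fun x => U (W x)) y ≫
      biproduct.π (fun x => U (W x)) z = t x z ≫ dU (W z) := by
    rw [Finset.sum_eq_single z]
    · rw [biproduct.ι_π_self, Category.comp_id]
    · intro b _ hb
      rw [biproduct.ι_π_ne _ hb, comp_zero, comp_zero]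
    · simp
  simp only [Category.assoc, zero_comp, comp_zero]
  rw [totex_ι_D]
  simp only [h1, Preadditive.comp_add, Finset.sum_add_distrib, dU_dU_assoc, zero_comp, zero_add]
  rw [h2, ← h.mc, ← add_assoc]
  exact add_self2 _

omit [Linear (ZMod 2) A] in
theorem totex_I_D (h : Tw W deg t) {n m : ℤ} (hm : n + 1 = m) :
    totexI W deg n ≫ totexD t ≫ totexP W deg m ≫ totexI W deg m = totexI W deg n ≫ totexD t := by
  refine biproduct.hom_ext' _ _ fun x => ?_
  have h1 : ∀ y, biproduct.ι (fun x => U (W x)) y ≫ totexP W deg m ≫ totexI W deg m =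
      πU (W y) (m - deg y) ≫ ιU (W y) (m - deg y) ≫ biproduct.ι (fun x => U (W x)) y := by
    intro y
    rw [totexP, totexI, biproduct.ι_map_assoc, biproduct.ι_map]
  have h2 : ∀ {B : A} (f : totexB W ⟶ B), biproduct.ι (fun y => (W y).X (n - deg y)) x ≫
      totexI W deg n ≫ f = ιU (W x) (n - deg x) ≫ biproduct.ι (fun x => U (W x)) x ≫ f := by
    intro B f
    rw [totexI, biproduct.ι_map_assoc]
  have h3 := totex_ι_D (t := t) x (𝟙 _)
  simp only [Category.comp_id] at h3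
  rw [h2, h2, totex_ι_D, h3]
  simp only [h1, Preadditive.comp_add, Preadditive.comp_sum]
  congr 1
  · rw [reassoc_of% (totex_hg (hg_dU (K := W x)) (show n - deg x + 1 = m - deg x by omega))]
  · refine Finset.sum_congr rfl fun y _ => ?_
    rw [reassoc_of% (totex_hg (h.hg x y)
      (show n - deg x + (deg x + 1 - deg y) = m - deg y by omega))]

/-- the total complex -/
noncomputable def totexK (h : Tw W deg t) : Cx A where
  X n := totexX W deg n
  d n m := if n + 1 = m then totexI W deg n ≫ totexD t ≫ totexP W deg m else 0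
  shape n m hnm := if_neg hnm
  d_comp_d' n m k hnm hmk := by
    have h1 : n + 1 = m := hnm
    have h2 : m + 1 = k := hmk
    rw [if_pos h1, if_pos h2]
    simp only [Category.assoc]
    rw [reassoc_of% (totex_I_D h h1), reassoc_of% (totex_D_D h), zero_comp, comp_zero]

/-- the inclusion of a term of the total complex -/
noncomputable def totexJ (h : Tw W deg t) (n : ℤ) : totexX W deg n ⟶ U (totexK h) :=
  ιU (totexK h) n

/-- the inclusion of a summand -/
noncomputable def totexInc (h : Tw W deg t) (x : G) : U (W x) ⟶ U (totexK h) :=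
  descU fun p => ((W x).XIsoOfEq (show p = p + deg x - deg x by omega)).hom ≫
    biproduct.ι (fun y => (W y).X (p + deg x - deg y)) x ≫ totexJ h (p + deg x)

/-- the projection to a summand -/
noncomputable def totexPr (h : Tw W deg t) (x : G) : U (totexK h) ⟶ U (W x) :=
  descU (K := totexK h) fun n =>
    (biproduct.π (fun y => (W y).X (n - deg y)) x ≫ ιU (W x) (n - deg x) : totexX W deg n ⟶ _)

@[reassoc]
theorem totex_inc (h : Tw W deg t) (x : G) (n : ℤ) :
    ιU (W x) (n - deg x) ≫ totexInc h x =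
      biproduct.ι (fun y => (W y).X (n - deg y)) x ≫ totexJ h n := by
  have h1 : ∀ p (hp : p = n - deg x), ιU (W x) p ≫ totexInc h x = ((W x).XIsoOfEq hp).hom ≫
      biproduct.ι (fun y => (W y).X (n - deg y)) x ≫ totexJ h n := by
    intro p hp
    obtain rfl : n = p + deg x := by omega
    rw [totexInc, ιU_descU]
  rw [h1 _ rfl]
  simp

@[reassoc]
theorem totex_pr (h : Tw W deg t) (x : G) (n : ℤ) :
    totexJ h n ≫ totexPr h x =
      biproduct.π (fun y => (W y).X (n - deg y)) x ≫ ιU (W x) (n - deg x) :=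
  ιU_descU (K := totexK h) _ n

theorem totex_J_π (h : Tw W deg t) (n : ℤ) :
    totexJ h n ≫ πU (totexK h) n ≫ ιU (totexK h) n = totexJ h n :=
  ιU_πU_self_assoc (K := totexK h) n _

theorem totex_J_ext (h : Tw W deg t) {B : A} {f g : U (totexK h) ⟶ B}
    (e : ∀ n, totexJ h n ≫ f = totexJ h n ≫ g) : f = g := U_ext e

theorem totex_J_d (h : Tw W deg t) (n : ℤ) :
    totexJ h n ≫ dU (totexK h) = totexI W deg n ≫ totexD t ≫ biproduct.desc (totexInc h) := by
  have h1 : totexI W deg (n + 1) ≫ biproduct.desc (totexInc h) = totexJ h (n + 1) := by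
    refine biproduct.hom_ext' _ _ fun x => ?_
    rw [totexI, biproduct.ι_map_assoc, biproduct.ι_desc, totex_inc]
  have h2 : totexJ h n ≫ dU (totexK h) =
      (if n + 1 = n + 1 then totexI W deg n ≫ totexD t ≫ totexP W deg (n + 1) else 0) ≫
        totexJ h (n + 1) := ιU_dU (K := totexK h) n (n + 1) rfl
  rw [h2, if_pos rfl, ← h1]
  simp only [Category.assoc]
  rw [reassoc_of% (totex_I_D h (rfl : n + 1 = n + 1))]

theorem exists_tot (h : Tw W deg t) : ∃ K : Cx A, Nonempty (TotStr K W deg t) := by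
  refine ⟨totexK h, ⟨⟨totexInc h, totexPr h, fun x p => ?_, fun x n => ?_, fun x => ?_,
    fun x y hxy => ?_, ?_, fun x => ?_⟩⟩⟩
  · obtain ⟨n, rfl⟩ : ∃ n, p = n - deg x := ⟨p + deg x, by omega⟩
    rw [sub_add_cancel, totex_inc_assoc, totex_inc, totex_J_π]
  · change totexJ h n ≫ _ = totexJ h n ≫ _
    rw [← sub_eq_add_neg, totex_pr_assoc, totex_pr, ιU_πU_self_assoc]
  · refine totex_ext (deg x) fun n => ?_
    rw [totex_inc_assoc, totex_pr, biproduct.ι_π_self_assoc, Category.comp_id]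
  · refine totex_ext (deg x) fun n => ?_
    rw [totex_inc_assoc, totex_pr, biproduct.ι_π_ne_assoc _ hxy, zero_comp, comp_zero]
  · refine totex_J_ext h fun n => ?_
    rw [Preadditive.comp_sum, Category.comp_id]
    simp only [totex_pr_assoc, totex_inc]
    simp only [← Category.assoc, ← Preadditive.sum_comp]
    rw [biproduct.total, Category.id_comp]
  · refine totex_ext (deg x) fun n => ?_
    rw [dl, Preadditive.comp_add, totex_inc_assoc, totex_J_d, totexI, biproduct.ι_map_assoc,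
      totex_ι_D, Preadditive.comp_add, ← add_assoc]
    simp only [biproduct.ι_desc]
    rw [add_self2, zero_add]

set_option linter.unusedSectionVars false in
theorem TotStr.term_iso (s : TotStr K W deg t) (n : ℤ) :
    Nonempty (K.X n ≅ ⨁ fun x => (W x).X (n - deg x)) := by
  refine ⟨⟨biproduct.lift fun x => ιU K n ≫ s.pr x ≫ πU (W x) (n - deg x),
    biproduct.desc fun x => ιU (W x) (n - deg x) ≫ s.inc x ≫ πU K n, ?_, ?_⟩⟩
  · rw [biproduct.lift_desc]
    have h1 : ∀ x, (ιU K n ≫ s.pr x ≫ πU (W x) (n - deg x)) ≫ ιU (W x) (n - deg x) ≫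
        s.inc x ≫ πU K n = ιU K n ≫ (s.pr x ≫ s.inc x) ≫ πU K n := by
      intro x
      simp only [Category.assoc]
      rw [reassoc_of% (totex_hg (s.hpr x) (show n + -deg x = n - deg x by omega))]
    simp only [h1]
    rw [← Preadditive.comp_sum, ← Preadditive.sum_comp, s.total, Category.id_comp, ιU_πU_self]
  · refine biproduct.hom_ext' _ _ fun x => biproduct.hom_ext _ _ fun y => ?_
    simp only [Category.assoc, biproduct.ι_desc_assoc, biproduct.lift_π, Category.id_comp]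
    rw [reassoc_of% (totex_hg (s.hinc x) (show n - deg x + deg x = n by omega))]
    by_cases hxy : x = y
    · subst hxy
      rw [s.inc_pr_self_assoc, ιU_πU_self, biproduct.ι_π_self]
    · rw [s.inc_pr_ne_assoc x y hxy, zero_comp, comp_zero, biproduct.ι_π_ne _ hxy]

theorem totex_isZero (s : TotStr K W deg t) (n : ℤ) (h : ∀ x, IsZero ((W x).X (n - deg x))) :
    IsZero (K.X n) := by
  obtain ⟨e⟩ := s.term_iso n
  refine IsZero.of_iso ?_ e
  rw [IsZero.iff_id_eq_zero]
  exact biproduct.hom_ext _ _ fun x => (h x).eq_of_tgt _ _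

theorem TotStr.exists_ge (s : TotStr K W deg t) (h : ∀ x, ∃ a : ℤ, (W x).IsStrictlyGE a) :
    ∃ a : ℤ, K.IsStrictlyGE a := by
  choose a ha using h
  obtain ⟨b, hb⟩ := (Set.finite_range fun x => a x + deg x).bddBelow
  refine ⟨b, (K.isStrictlyGE_iff b).2 fun n hn => totex_isZero s n fun x => ?_⟩
  have h1 : b ≤ a x + deg x := hb ⟨x, rfl⟩
  exact (W x).isZero_of_isStrictlyGE (a x) _ (by omega)

theorem TotStr.exists_le (s : TotStr K W deg t) (h : ∀ x, ∃ a : ℤ, (W x).IsStrictlyLE a) :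
    ∃ a : ℤ, K.IsStrictlyLE a := by
  choose a ha using h
  obtain ⟨b, hb⟩ := (Set.finite_range fun x => a x + deg x).bddAbove
  refine ⟨b, (K.isStrictlyLE_iff b).2 fun n hn => totex_isZero s n fun x => ?_⟩
  have h1 : a x + deg x ≤ b := hb ⟨x, rfl⟩
  exact (W x).isZero_of_isStrictlyLE (a x) _ (by omega)

theorem TotStr.injective (s : TotStr K W deg t) (h : ∀ x n, Injective ((W x).X n)) (n : ℤ) :
    Injective (K.X n) := by
  obtain ⟨e⟩ := s.term_iso n
  exact Injective.of_iso e.symm inferInstance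

/-- a chosen total complex -/
noncomputable def tot (h : Tw W deg t) : Cx A := (exists_tot h).choose

/-- its structure -/
noncomputable def totStr (h : Tw W deg t) : TotStr (tot h) W deg t := (exists_tot h).choose_spec.some

end Pool.Agent.Work.MP_910138_ag
end

-- merged part: Pool.Agent.Work.MP_910138_ag.Mat
section
/-! The matrix category of twisted complexes with integral lifts. Matrices are written with the
source as row index, so that composition `f ≫ g` is the product `f * g`. -/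

open CategoryTheory Matrix

namespace Pool.Agent.Work.MP_910138_ag

/-- generators with labels: a point of the poset, the type (`true` = `R`, `false` = `k`), a degree -/
structure Gen (P : Type) where
  G : Type
  [fin : Fintype G]
  [dec : DecidableEq G]
  lab : G → P
  isR : G → Bool
  deg : G → ℤ

attribute [instance] Gen.fin Gen.dec

variable {P : Type} [Preorder P]

/-- support condition for the coefficients of the degree zero classes `e_R, e_k, p` -/
def S0 {R : Type} [Zero R] (Z Z' : Gen P) (n : ℤ) (f : Matrix Z.G Z'.G R) : Prop :=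
  ∀ x y, f x y ≠ 0 → Z.lab x ≤ Z'.lab y ∧ (Z'.isR y = true → Z.isR x = true) ∧
    Z'.deg y = Z.deg x + n

/-- support condition for the coefficients of the degree `-1` classes `theta, iota` -/
def S1 (Z Z' : Gen P) (n : ℤ) (f : Matrix Z.G Z'.G (ZMod 2)) : Prop :=
  ∀ x y, f x y ≠ 0 → Z.lab x ≤ Z'.lab y ∧ Z'.isR y = true ∧ Z'.deg y = Z.deg x + n + 1

/-- keep only the columns of type `R` -/
def cR {G : Type} (Z : Gen P) (f : Matrix G Z.G (ZMod 2)) : Matrix G Z.G (ZMod 2) :=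
  Matrix.of fun x y => if Z.isR y = true then f x y else 0

/-- pairs of matrices mod two -/
abbrev Pr (Z Z' : Gen P) := Matrix Z.G Z'.G (ZMod 2) × Matrix Z.G Z'.G (ZMod 2)

/-- product of pairs -/
def pm {Z Z' Z'' : Gen P} (f : Pr Z Z') (g : Pr Z' Z'') : Pr Z Z'' :=
  (f.1 * g.1, f.1 * g.2 + cR Z'' (f.2 * g.1))

/-- support condition for a pair of total degree `n` -/
def SP (Z Z' : Gen P) (n : ℤ) (f : Pr Z Z') : Prop := S0 Z Z' n f.1 ∧ S1 Z Z' n f.2

/-- reduction mod two -/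
def red {G G' : Type} (f : Matrix G G' ℤ) : Matrix G G' (ZMod 2) :=
  f.map (Int.cast : ℤ → ZMod 2)

/-- half of an even matrix, mod two -/
def half {G G' : Type} (f : Matrix G G' ℤ) : Matrix G G' (ZMod 2) :=
  f.map fun a => ((a / 2 : ℤ) : ZMod 2)

/-- objects: twisted complexes with an integral lift of the degree zero part -/
structure Ob (P : Type) [Preorder P] extends Gen P where
  D0 : Matrix G G ℤ
  D1 : Matrix G G (ZMod 2)
  s0 : S0 toGen toGen 1 D0
  s1 : S1 toGen toGen 1 D1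
  sq : pm (Z := toGen) (Z' := toGen) (Z'' := toGen) (red D0, D1) (red D0, D1) = 0

/-- the differential mod two -/
def Ob.D (Z : Ob P) : Pr Z.toGen Z.toGen := (red Z.D0, Z.D1)

/-- the differential of the Hom-complex -/
def dP (Z Z' : Ob P) (f : Pr Z.toGen Z'.toGen) : Pr Z.toGen Z'.toGen := pm Z.D f + pm f Z'.D

/-- morphisms -/
@[ext]
structure Mor (Z Z' : Ob P) where
  f0 : Matrix Z.G Z'.G ℤ
  f1 : Matrix Z.G Z'.G (ZMod 2)
  s0 : S0 Z.toGen Z'.toGen 0 f0
  s1 : S1 Z.toGen Z'.toGen 0 f1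
  closed : dP Z Z' (red f0, f1) = 0

/-- the reduction mod two of a morphism -/
def Mor.bar {Z Z' : Ob P} (f : Mor Z Z') : Pr Z.toGen Z'.toGen := (red f.f0, f.f1)

section basic

variable {Z Z' Z'' Z''' : Gen P} {n m : ℤ}

theorem red_mul {G G' G'' : Type} [Fintype G'] (f : Matrix G G' ℤ) (g : Matrix G' G'' ℤ) :
    red (f * g) = red f * red g := by
  ext x y
  simp [red, Matrix.mul_apply]

theorem red_add {G G' : Type} (f g : Matrix G G' ℤ) : red (f + g) = red f + red g := by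
  ext x y
  simp [red]

theorem red_neg {G G' : Type} (f : Matrix G G' ℤ) : red (-f) = red f := by
  ext x y
  simp [red, CharTwo.neg_eq]

theorem red_sub {G G' : Type} (f g : Matrix G G' ℤ) : red (f - g) = red f + red g := by
  rw [sub_eq_add_neg, red_add, red_neg]

theorem red_one {G : Type} [DecidableEq G] : red (1 : Matrix G G ℤ) = 1 := by
  ext x y
  by_cases h : x = y <;> simp [red, Matrix.one_apply, h]

theorem red_zero {G G' : Type} : red (0 : Matrix G G' ℤ) = 0 := by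
  ext x y
  simp [red]

theorem mat_add_self {G G' : Type} (f : Matrix G G' (ZMod 2)) : f + f = 0 := by
  ext x y
  simp [CharTwo.add_self_eq_zero]

theorem pr_add_self (f : Pr Z Z') : f + f = 0 :=
  Prod.ext (mat_add_self _) (mat_add_self _)

theorem S0.mul {R : Type} [NonUnitalNonAssocSemiring R] {f : Matrix Z.G Z'.G R}
    {g : Matrix Z'.G Z''.G R} (hf : S0 Z Z' n f) (hg : S0 Z' Z'' m g) {k : ℤ} (h : n + m = k) :
    S0 Z Z'' k (f * g) := by
  intro x z hxz
  rw [Matrix.mul_apply] at hxz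
  obtain ⟨y, -, hy⟩ := Finset.exists_ne_zero_of_sum_ne_zero hxz
  obtain ⟨a1, a2, a3⟩ := hf x y (left_ne_zero_of_mul hy)
  obtain ⟨b1, b2, b3⟩ := hg y z (right_ne_zero_of_mul hy)
  exact ⟨a1.trans b1, fun hz => a2 (b2 hz), by omega⟩

theorem S0.add {R : Type} [AddZeroClass R] {f g : Matrix Z.G Z'.G R} (hf : S0 Z Z' n f)
    (hg : S0 Z Z' n g) : S0 Z Z' n (f + g) := by
  intro x y h
  by_cases h1 : f x y = 0
  · exact hg x y (by simpa [h1] using h)
  · exact hf x y h1

theorem S0.neg {R : Type} [AddGroup R] {f : Matrix Z.G Z'.G R} (hf : S0 Z Z' n f) :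
    S0 Z Z' n (-f) := fun x y h => hf x y (by simpa using h)

theorem S0.sub {R : Type} [AddGroup R] {f g : Matrix Z.G Z'.G R} (hf : S0 Z Z' n f)
    (hg : S0 Z Z' n g) : S0 Z Z' n (f - g) := by
  rw [sub_eq_add_neg]
  exact hf.add hg.neg

theorem S0.zero {R : Type} [Zero R] : S0 Z Z' n (0 : Matrix Z.G Z'.G R) :=
  fun x y h => absurd rfl h

theorem S0.one {R : Type} [Zero R] [One R] : S0 Z Z 0 (1 : Matrix Z.G Z.G R) := by
  intro x y h
  obtain rfl : x = y := by
    by_contra hne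
    exact h (Matrix.one_apply_ne hne)
  exact ⟨le_rfl, id, by simp⟩

theorem S0.map {R R' : Type} [Zero R] [Zero R'] {f : Matrix Z.G Z'.G R} (hf : S0 Z Z' n f)
    (φ : R → R') (h0 : φ 0 = 0) : S0 Z Z' n (f.map φ) := fun x y h =>
  hf x y fun h' => h (by simp [h', h0])

theorem S0.red {f : Matrix Z.G Z'.G ℤ} (hf : S0 Z Z' n f) : S0 Z Z' n (red f) :=
  hf.map _ (by simp)

theorem S0.half {f : Matrix Z.G Z'.G ℤ} (hf : S0 Z Z' n f) : S0 Z Z' n (half f) :=
  hf.map _ (by simp)

theorem S1.add {f g : Matrix Z.G Z'.G (ZMod 2)} (hf : S1 Z Z' n f) (hg : S1 Z Z' n g) :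
    S1 Z Z' n (f + g) := by
  intro x y h
  by_cases h1 : f x y = 0
  · exact hg x y (by simpa [h1] using h)
  · exact hf x y h1

theorem S1.zero : S1 Z Z' n 0 := fun x y h => absurd rfl h

theorem S0.mul_S1 {f : Matrix Z.G Z'.G (ZMod 2)} {g : Matrix Z'.G Z''.G (ZMod 2)}
    (hf : S0 Z Z' n f) (hg : S1 Z' Z'' m g) {k : ℤ} (h : n + m = k) : S1 Z Z'' k (f * g) := by
  intro x z hxz
  rw [Matrix.mul_apply] at hxz
  obtain ⟨y, -, hy⟩ := Finset.exists_ne_zero_of_sum_ne_zero hxz
  obtain ⟨a1, a2, a3⟩ := hf x y (left_ne_zero_of_mul hy)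
  obtain ⟨b1, b2, b3⟩ := hg y z (right_ne_zero_of_mul hy)
  exact ⟨a1.trans b1, b2, by omega⟩

theorem S1.cR_mul {f : Matrix Z.G Z'.G (ZMod 2)} {g : Matrix Z'.G Z''.G (ZMod 2)}
    (hf : S1 Z Z' n f) (hg : S0 Z' Z'' m g) {k : ℤ} (h : n + m = k) :
    S1 Z Z'' k (cR Z'' (f * g)) := by
  intro x z hxz
  by_cases hz : Z''.isR z = true
  · simp only [cR, Matrix.of_apply, hz, if_true] at hxz
    rw [Matrix.mul_apply] at hxz
    obtain ⟨y, -, hy⟩ := Finset.exists_ne_zero_of_sum_ne_zero hxz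
    obtain ⟨a1, a2, a3⟩ := hf x y (left_ne_zero_of_mul hy)
    obtain ⟨b1, b2, b3⟩ := hg y z (right_ne_zero_of_mul hy)
    exact ⟨a1.trans b1, hz, by omega⟩
  · simp [cR, hz] at hxz

/-- multiplication by `theta` -/
theorem S0.cR {f : Matrix Z.G Z'.G (ZMod 2)} (hf : S0 Z Z' (n + 1) f) : S1 Z Z' n (cR Z' f) := by
  intro x z hxz
  by_cases hz : Z'.isR z = true
  · simp only [MP_910138_ag.cR, Matrix.of_apply, hz, if_true] at hxz
    obtain ⟨a1, a2, a3⟩ := hf x z hxz
    exact ⟨a1, hz, by omega⟩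
  · simp [MP_910138_ag.cR, hz] at hxz

theorem SP.pm {f : Pr Z Z'} {g : Pr Z' Z''} (hf : SP Z Z' n f) (hg : SP Z' Z'' m g) {k : ℤ}
    (h : n + m = k) : SP Z Z'' k (pm f g) :=
  ⟨hf.1.mul hg.1 h, (hf.1.mul_S1 hg.2 h).add (hf.2.cR_mul hg.1 h)⟩

theorem SP.add {f g : Pr Z Z'} (hf : SP Z Z' n f) (hg : SP Z Z' n g) : SP Z Z' n (f + g) :=
  ⟨hf.1.add hg.1, hf.2.add hg.2⟩

theorem SP.zero : SP Z Z' n 0 := ⟨S0.zero, S1.zero⟩

theorem cR_add {G : Type} (f g : Matrix G Z.G (ZMod 2)) : cR Z (f + g) = cR Z f + cR Z g := by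
  ext x y
  by_cases h : Z.isR y = true <;> simp [cR, h]

theorem cR_zero {G : Type} : cR Z (0 : Matrix G Z.G (ZMod 2)) = 0 := by
  ext x y
  simp [cR]

theorem cR_cR {G : Type} (f : Matrix G Z.G (ZMod 2)) : cR Z (cR Z f) = cR Z f := by
  ext x y
  by_cases h : Z.isR y = true <;> simp [cR, h]

theorem mul_cR {G : Type} (f : Matrix G Z.G (ZMod 2)) (g : Matrix Z.G Z'.G (ZMod 2)) :
    f * cR Z' g = cR Z' (f * g) := by
  ext x y
  by_cases h : Z'.isR y = true <;> simp [cR, h, Matrix.mul_apply]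

theorem S1.cR_eq {f : Matrix Z.G Z'.G (ZMod 2)} (hf : S1 Z Z' n f) : cR Z' f = f := by
  ext x y
  by_cases h : Z'.isR y = true
  · simp [cR, h]
  · simp only [cR, Matrix.of_apply, h]
    by_contra h'
    exact h (hf x y (Ne.symm h')).2.1

theorem cR_cR_mul {G : Type} (f : Matrix G Z.G (ZMod 2)) {g : Matrix Z.G Z'.G (ZMod 2)}
    (hg : S0 Z Z' n g) : cR Z' (cR Z f * g) = cR Z' (f * g) := by
  ext x z
  by_cases h : Z'.isR z = true
  · simp only [cR, Matrix.of_apply, h, if_true, Matrix.mul_apply]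
    refine Finset.sum_congr rfl fun y _ => ?_
    by_cases h' : g y z = 0
    · simp [h']
    · simp [(hg y z h').2.1 h]
  · simp [cR, h]

theorem pm_add (f : Pr Z Z') (g g' : Pr Z' Z'') : pm f (g + g') = pm f g + pm f g' := by
  refine Prod.ext (Matrix.mul_add _ _ _) ?_
  simp only [pm, Prod.fst_add, Prod.snd_add, Matrix.mul_add, cR_add]
  abel

theorem add_pm (f f' : Pr Z Z') (g : Pr Z' Z'') : pm (f + f') g = pm f g + pm f' g := by
  refine Prod.ext (Matrix.add_mul _ _ _) ?_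
  simp only [pm, Prod.fst_add, Prod.snd_add, Matrix.add_mul, cR_add]
  abel

theorem pm_zero (f : Pr Z Z') : pm f (0 : Pr Z' Z'') = 0 := by
  simp [pm, cR_zero]

theorem zero_pm (f : Pr Z' Z'') : pm (0 : Pr Z Z') f = 0 := by
  simp [pm, cR_zero]

theorem pm_assoc (f : Pr Z Z') (g : Pr Z' Z'') {h : Pr Z'' Z'''} (hh : S0 Z'' Z''' n h.1) :
    pm (pm f g) h = pm f (pm g h) := by
  refine Prod.ext (Matrix.mul_assoc _ _ _) ?_
  simp only [pm, Matrix.add_mul, Matrix.mul_add, cR_add, cR_cR_mul _ hh, mul_cR, Matrix.mul_assoc]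
  abel

theorem one_pm (f : Pr Z Z') : pm ((1, 0) : Pr Z Z) f = f := by
  simp [pm, cR_zero]

theorem pm_one {f : Pr Z Z'} (hf : S1 Z Z' n f.2) : pm f ((1, 0) : Pr Z' Z') = f := by
  simp [pm, hf.cR_eq]

end basic

theorem Ob.spD (Z : Ob P) : SP Z.toGen Z.toGen 1 Z.D := ⟨Z.s0.red, Z.s1⟩

theorem Ob.D_D (Z : Ob P) : pm Z.D Z.D = 0 := Z.sq

theorem Mor.sp {Z Z' : Ob P} (f : Mor Z Z') : SP Z.toGen Z'.toGen 0 f.bar := ⟨f.s0.red, f.s1⟩

theorem Mor.comm {Z Z' : Ob P} (f : Mor Z Z') : pm Z.D f.bar = pm f.bar Z'.D := by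
  have h : pm Z.D f.bar + pm f.bar Z'.D = 0 := f.closed
  rw [← add_zero (pm Z.D f.bar), ← pr_add_self (pm f.bar Z'.D), ← add_assoc, h, zero_add]

theorem dP_add (Z Z' : Ob P) (f g : Pr Z.toGen Z'.toGen) :
    dP Z Z' (f + g) = dP Z Z' f + dP Z Z' g := by
  simp only [dP, pm_add, add_pm]
  abel

theorem SP.dP {Z Z' : Ob P} {f : Pr Z.toGen Z'.toGen} {n : ℤ} (hf : SP Z.toGen Z'.toGen n f) :
    SP Z.toGen Z'.toGen (n + 1) (dP Z Z' f) :=
  (Z.spD.pm hf (add_comm _ _)).add (hf.pm Z'.spD rfl)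

instance : Category (Ob P) where
  Hom := Mor
  id Z :=
    { f0 := 1
      f1 := 0
      s0 := S0.one
      s1 := S1.zero
      closed := by rw [dP, red_one, one_pm, pm_one Z.spD.2, pr_add_self] }
  comp {Z Z' Z''} f g :=
    { f0 := f.f0 * g.f0
      f1 := (pm f.bar g.bar).2
      s0 := f.s0.mul g.s0 rfl
      s1 := (f.sp.pm g.sp rfl).2
      closed := by
        have h : (red (f.f0 * g.f0), (pm f.bar g.bar).2) = pm f.bar g.bar :=
          Prod.ext (red_mul _ _) rfl
        rw [h, dP, ← pm_assoc _ _ g.sp.1, f.comm, pm_assoc _ _ g.sp.1, g.comm,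
          pm_assoc _ _ Z''.spD.1, pr_add_self] }
  id_comp f := Mor.ext (Matrix.one_mul _) (by
    change (pm (red 1, 0) f.bar).2 = _
    rw [red_one, one_pm]
    rfl)
  comp_id f := Mor.ext (Matrix.mul_one _) (by
    change (pm f.bar (red 1, 0)).2 = _
    rw [red_one, pm_one f.sp.2]
    rfl)
  assoc f g h := Mor.ext (Matrix.mul_assoc _ _ _) (by
    change (pm (red (f.f0 * g.f0), (pm f.bar g.bar).2) h.bar).2 =
      (pm f.bar (red (g.f0 * h.f0), (pm g.bar h.bar).2)).2
    rw [red_mul, red_mul]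
    exact congrArg Prod.snd (pm_assoc f.bar g.bar h.sp.1))

@[ext]
theorem Ob.hom_ext {Z Z' : Ob P} {f g : Z ⟶ Z'} (h0 : f.f0 = g.f0) (h1 : f.f1 = g.f1) : f = g :=
  Mor.ext h0 h1

theorem Ob.id_f0 (Z : Ob P) : Mor.f0 (𝟙 Z) = 1 := rfl
theorem Ob.id_f1 (Z : Ob P) : Mor.f1 (𝟙 Z) = 0 := rfl
theorem Ob.id_bar (Z : Ob P) : Mor.bar (𝟙 Z) = (1, 0) := Prod.ext red_one rfl
theorem Ob.comp_f0 {Z Z' Z'' : Ob P} (f : Z ⟶ Z') (g : Z' ⟶ Z'') :
    Mor.f0 (f ≫ g) = f.f0 * g.f0 := rfl
theorem Ob.comp_f1 {Z Z' Z'' : Ob P} (f : Z ⟶ Z') (g : Z' ⟶ Z'') :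
    Mor.f1 (f ≫ g) = red f.f0 * g.f1 + cR Z''.toGen (f.f1 * red g.f0) := rfl
theorem Ob.comp_bar {Z Z' Z'' : Ob P} (f : Z ⟶ Z') (g : Z' ⟶ Z'') :
    Mor.bar (f ≫ g) = pm f.bar g.bar := Prod.ext (red_mul _ _) rfl

/-- homotopic morphisms -/
def Htp {Z Z' : Ob P} (f g : Z ⟶ Z') : Prop :=
  ∃ h : Pr Z.toGen Z'.toGen, SP Z.toGen Z'.toGen (-1) h ∧ f.bar + g.bar = dP Z Z' h

end Pool.Agent.Work.MP_910138_ag
end

-- merged part: Pool.Agent.Work.MP_910138_ag.MatS
section
/-! The exotic involution `S`, the shift and the cones in the matrix category. -/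

open CategoryTheory Matrix

namespace Pool.Agent.Work.MP_910138_ag

variable {P : Type} [Preorder P]

section half

variable {G G' G'' : Type}

theorem half_two (N : Matrix G G' ℤ) : half (N + N) = red N := by
  ext x y
  simp only [half, red, Matrix.map_apply, Matrix.add_apply]
  congr 1
  omega

theorem exists_of_red {M : Matrix G G' ℤ} (h : red M = 0) : ∃ N, M = N + N := by
  refine ⟨M.map (· / 2), ?_⟩
  ext x y
  have h1 : ((M x y : ℤ) : ZMod 2) = 0 := congrFun (congrFun h x) y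
  rw [ZMod.intCast_zmod_eq_zero_iff_dvd] at h1
  simp only [Matrix.add_apply, Matrix.map_apply]
  omega

theorem half_add {M N : Matrix G G' ℤ} (hM : red M = 0) (hN : red N = 0) :
    half (M + N) = half M + half N := by
  obtain ⟨M, rfl⟩ := exists_of_red hM
  obtain ⟨N, rfl⟩ := exists_of_red hN
  rw [show M + M + (N + N) = (M + N) + (M + N) by abel, half_two, half_two, half_two, red_add]

theorem half_neg {M : Matrix G G' ℤ} (hM : red M = 0) : half (-M) = half M := by
  obtain ⟨M, rfl⟩ := exists_of_red hM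
  rw [neg_add, half_two, half_two, red_neg]

theorem half_sub {M N : Matrix G G' ℤ} (hM : red M = 0) (hN : red N = 0) :
    half (M - N) = half M + half N := by
  rw [sub_eq_add_neg, half_add hM (by rw [red_neg, hN]), half_neg hN]

theorem half_mul [Fintype G'] {M : Matrix G G' ℤ} (hM : red M = 0) (N : Matrix G' G'' ℤ) :
    half (M * N) = half M * red N := by
  obtain ⟨M, rfl⟩ := exists_of_red hM
  rw [Matrix.add_mul, half_two, half_two, red_mul]

theorem mul_half [Fintype G'] (M : Matrix G G' ℤ) {N : Matrix G' G'' ℤ} (hN : red N = 0) :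
    half (M * N) = red M * half N := by
  obtain ⟨N, rfl⟩ := exists_of_red hN
  rw [Matrix.mul_add, half_two, half_two, red_mul]

theorem half_zero : half (0 : Matrix G G' ℤ) = 0 := by
  ext x y
  simp [half]

end half

theorem Ob.red_sq (Z : Ob P) : red (Z.D0 * Z.D0) = 0 := by
  rw [red_mul]
  exact congrArg Prod.fst Z.sq

theorem Mor.red_comm {Z Z' : Ob P} (f : Z ⟶ Z') : red (Z.D0 * f.f0 - f.f0 * Z'.D0) = 0 := by
  rw [red_sub, red_mul, red_mul]
  exact congrArg Prod.fst f.closed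

/-- `c = D^2 / 2` -/
def Ob.c (Z : Ob P) : Matrix Z.G Z.G (ZMod 2) := half (Z.D0 * Z.D0)

/-- `g(f) = (D f - f D') / 2` -/
def Mor.g {Z Z' : Ob P} (f : Z ⟶ Z') : Matrix Z.G Z'.G (ZMod 2) :=
  half (Z.D0 * f.f0 - f.f0 * Z'.D0)

theorem Ob.s0_c (Z : Ob P) : S0 Z.toGen Z.toGen (1 + 1) Z.c := (Z.s0.mul Z.s0 rfl).half

theorem Mor.s0_g {Z Z' : Ob P} (f : Z ⟶ Z') : S0 Z.toGen Z'.toGen (0 + 1) (Mor.g f) :=
  ((Z.s0.mul f.s0 rfl).sub (f.s0.mul Z'.s0 rfl)).half

theorem Mor.dg {Z Z' : Ob P} (f : Z ⟶ Z') :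
    red Z.D0 * Mor.g f + Mor.g f * red Z'.D0 = Z.c * red f.f0 + red f.f0 * Z'.c := by
  have h := Mor.red_comm f
  rw [Mor.g, Ob.c, Ob.c, ← mul_half _ h, ← half_mul h, ← half_mul Z.red_sq, ← mul_half _ Z'.red_sq,
    ← half_add (by rw [red_mul, h, Matrix.mul_zero]) (by rw [red_mul, h, Matrix.zero_mul]),
    ← half_sub (by rw [red_mul, Z.red_sq, Matrix.zero_mul])
      (by rw [red_mul, Z'.red_sq, Matrix.mul_zero])]
  congr 1
  simp only [Matrix.mul_sub, Matrix.sub_mul, Matrix.mul_assoc]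
  abel

/-- the exotic functor on objects -/
def sObj (Z : Ob P) : Ob P where
  toGen := Z.toGen
  D0 := Z.D0
  D1 := Z.D1 + cR Z.toGen Z.c
  s0 := Z.s0
  s1 := Z.s1.add Z.s0_c.cR
  sq := by
    have h := Z.sq
    have h2 : red Z.D0 * Z.c = Z.c * red Z.D0 := by
      rw [Ob.c, ← mul_half _ Z.red_sq, ← half_mul Z.red_sq, Matrix.mul_assoc]
    refine Prod.ext (congrArg Prod.fst h :) ?_
    have h1 : red Z.D0 * Z.D1 + cR Z.toGen (Z.D1 * red Z.D0) = 0 := congrArg Prod.snd h
    change red Z.D0 * (Z.D1 + cR Z.toGen Z.c) +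
      cR Z.toGen ((Z.D1 + cR Z.toGen Z.c) * red Z.D0) = 0
    rw [Matrix.mul_add, Matrix.add_mul, cR_add, cR_cR_mul _ Z.s0.red, mul_cR, h2, add_add_add_comm,
      h1, mat_add_self, add_zero]

/-- the exotic functor -/
def sFun (P : Type) [Preorder P] : Ob P ⥤ Ob P where
  obj := sObj
  map {Z Z'} f :=
    { f0 := f.f0
      f1 := f.f1 + cR Z'.toGen (Mor.g f)
      s0 := f.s0
      s1 := f.s1.add (Mor.s0_g f).cR
      closed := by
        have h := f.closed
        refine Prod.ext (congrArg Prod.fst h :) ?_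
        have h1 : red Z.D0 * f.f1 + cR Z'.toGen (Z.D1 * red f.f0) +
          (red f.f0 * Z'.D1 + cR Z'.toGen (f.f1 * red Z'.D0)) = 0 := congrArg Prod.snd h
        change red Z.D0 * (f.f1 + cR Z'.toGen (Mor.g f)) +
          cR Z'.toGen ((Z.D1 + cR Z.toGen Z.c) * red f.f0) +
          (red f.f0 * (Z'.D1 + cR Z'.toGen Z'.c) +
            cR Z'.toGen ((f.f1 + cR Z'.toGen (Mor.g f)) * red Z'.D0)) = 0
        have h2 := congrArg (cR Z'.toGen) (Mor.dg f)
        rw [cR_add, cR_add] at h2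
        rw [Matrix.mul_add, Matrix.add_mul, Matrix.mul_add, Matrix.add_mul, cR_add, cR_add,
          cR_cR_mul _ f.s0.red, cR_cR_mul _ Z'.s0.red, mul_cR, mul_cR]
        have h3 := mat_add_self (cR Z'.toGen (Z.c * red f.f0) + cR Z'.toGen (red f.f0 * Z'.c))
        nth_rewrite 1 [← h2] at h3
        rw [← add_zero (0 : Matrix Z.G Z'.G (ZMod 2))]
        nth_rewrite 1 [← h1, ← h3]
        abel }
  map_id Z := Ob.hom_ext rfl (by
    change (0 : Matrix Z.G Z.G (ZMod 2)) + cR Z.toGen (half (Z.D0 * 1 - 1 * Z.D0)) =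
      (0 : Matrix Z.G Z.G (ZMod 2))
    rw [Matrix.mul_one, Matrix.one_mul, sub_self, half_zero, cR_zero, add_zero])
  map_comp {Z Z' Z''} f g := Ob.hom_ext rfl (by
    change red f.f0 * g.f1 + cR Z''.toGen (f.f1 * red g.f0) +
        cR Z''.toGen (half (Z.D0 * (f.f0 * g.f0) - f.f0 * g.f0 * Z''.D0)) =
      red f.f0 * (g.f1 + cR Z''.toGen (Mor.g g)) +
        cR Z''.toGen ((f.f1 + cR Z'.toGen (Mor.g f)) * red g.f0)
    have hf := Mor.red_comm f
    have hg := Mor.red_comm g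
    have h : half (Z.D0 * (f.f0 * g.f0) - f.f0 * g.f0 * Z''.D0) =
        red f.f0 * Mor.g g + Mor.g f * red g.f0 := by
      rw [Mor.g, Mor.g, ← mul_half _ hg, ← half_mul hf,
        ← half_add (by rw [red_mul, hg, Matrix.mul_zero]) (by rw [red_mul, hf, Matrix.zero_mul])]
      congr 1
      simp only [Matrix.mul_sub, Matrix.sub_mul, Matrix.mul_assoc]
      abel
    rw [h, Matrix.mul_add, Matrix.add_mul, cR_add, cR_add, cR_cR_mul _ g.s0.red, mul_cR]
    abel)

theorem htp_sFun {Z Z' : Ob P} {f g : Z ⟶ Z'} (h : Htp f g) :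
    Htp ((sFun P).map f) ((sFun P).map g) := by
  obtain ⟨⟨h0, h1⟩, ⟨hs0, hs1⟩, he⟩ := h
  let k : Matrix Z.G Z'.G ℤ := h0.map fun a => (a.val : ℤ)
  have hk : red k = h0 := by
    ext x y
    simp [red, k]
  have sk : S0 Z.toGen Z'.toGen (-1) k := hs0.map _ (by simp)
  have e0 : red f.f0 + red g.f0 = red Z.D0 * h0 + h0 * red Z'.D0 := congrArg Prod.fst he
  have e1 : f.f1 + g.f1 = red Z.D0 * h1 + cR Z'.toGen (Z.D1 * h0) +
      (h0 * Z'.D1 + cR Z'.toGen (h1 * red Z'.D0)) := congrArg Prod.snd he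
  have hw : red (f.f0 - g.f0 - (Z.D0 * k + k * Z'.D0)) = 0 := by
    rw [red_sub, red_sub, red_add, red_mul, red_mul, hk, e0, mat_add_self]
  have su : S0 Z.toGen Z'.toGen (-1 + 1) (half (f.f0 - g.f0 - (Z.D0 * k + k * Z'.D0))) :=
    ((f.s0.sub g.s0).sub ((Z.s0.mul sk rfl).add (sk.mul Z'.s0 rfl))).half
  refine ⟨(h0, h1 + cR Z'.toGen (half (f.f0 - g.f0 - (Z.D0 * k + k * Z'.D0)))),
    ⟨hs0, hs1.add su.cR⟩, Prod.ext e0 ?_⟩
  have key : Mor.g f + Mor.g g =
      red Z.D0 * half (f.f0 - g.f0 - (Z.D0 * k + k * Z'.D0)) +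
        half (f.f0 - g.f0 - (Z.D0 * k + k * Z'.D0)) * red Z'.D0 + (Z.c * h0 + h0 * Z'.c) := by
    rw [Mor.g, Mor.g, Ob.c, Ob.c, ← hk, ← mul_half _ hw, ← half_mul hw, ← half_mul Z.red_sq,
      ← mul_half _ Z'.red_sq, ← half_sub (Mor.red_comm f) (Mor.red_comm g),
      ← half_sub (by rw [red_mul, hw, Matrix.mul_zero]) (by rw [red_mul, hw, Matrix.zero_mul]),
      ← half_sub (by rw [red_mul, Z.red_sq, Matrix.zero_mul])
        (by rw [red_mul, Z'.red_sq, Matrix.mul_zero]),
      ← half_add (by rw [red_sub, red_mul, red_mul, hw, Matrix.mul_zero, Matrix.zero_mul, add_zero])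
        (by rw [red_sub, red_mul _ k, red_mul k, Z.red_sq, Z'.red_sq, Matrix.mul_zero,
          Matrix.zero_mul, add_zero])]
    congr 1
    simp only [Matrix.mul_sub, Matrix.sub_mul, Matrix.mul_add, Matrix.add_mul, Matrix.mul_assoc]
    abel
  have key' := congrArg (cR Z'.toGen) key
  change f.f1 + cR Z'.toGen (Mor.g f) + (g.f1 + cR Z'.toGen (Mor.g g)) =
    red Z.D0 * (h1 + cR Z'.toGen (half (f.f0 - g.f0 - (Z.D0 * k + k * Z'.D0)))) +
      cR Z'.toGen ((Z.D1 + cR Z.toGen Z.c) * h0) +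
      (h0 * (Z'.D1 + cR Z'.toGen Z'.c) + cR Z'.toGen
        ((h1 + cR Z'.toGen (half (f.f0 - g.f0 - (Z.D0 * k + k * Z'.D0)))) * red Z'.D0))
  rw [add_add_add_comm, e1, ← cR_add, key']
  simp only [Matrix.mul_add, Matrix.add_mul, cR_add, cR_cR_mul _ hs0, cR_cR_mul _ Z'.s0.red,
    mul_cR]
  abel

/-- the identity matrix as a morphism -/
def idHom {g : Gen P} {a a' : Matrix g.G g.G ℤ} {b b' : Matrix g.G g.G (ZMod 2)}
    {s0 s1 sq s0' s1' sq'} (ha : red a = red a') (hb : b = b') :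
    Ob.mk g a b s0 s1 sq ⟶ Ob.mk g a' b' s0' s1' sq' where
  f0 := 1
  f1 := 0
  s0 := S0.one
  s1 := S1.zero
  closed := by
    have h : pm ((red a, b) : Pr g g) (red 1, 0) + pm (red 1, 0) ((red a', b') : Pr g g) = 0 := by
      rw [red_one, one_pm, pm_one (n := 1) s1, ha, hb, pr_add_self]
    exact h

/-- the identity matrix as an isomorphism -/
def idIso {g : Gen P} {a a' : Matrix g.G g.G ℤ} {b b' : Matrix g.G g.G (ZMod 2)}
    {s0 s1 sq s0' s1' sq'} (ha : red a = red a') (hb : b = b') :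
    Ob.mk g a b s0 s1 sq ≅ Ob.mk g a' b' s0' s1' sq' where
  hom := idHom ha hb
  inv := idHom ha.symm hb.symm
  hom_inv_id := Ob.hom_ext (Matrix.one_mul _) (by
    change red 1 * 0 + cR g (0 * red 1) = (0 : Matrix g.G g.G (ZMod 2))
    simp [cR_zero])
  inv_hom_id := Ob.hom_ext (Matrix.one_mul _) (by
    change red 1 * 0 + cR g (0 * red 1) = (0 : Matrix g.G g.G (ZMod 2))
    simp [cR_zero])

theorem comm_one {Z Z' : Gen P} {n : ℤ} {a b : Matrix Z.G Z'.G ℤ}
    {a' b' : Matrix Z.G Z'.G (ZMod 2)} (hs : S1 Z Z' n a') (h : a' = b') :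
    red a * (0 : Matrix Z'.G Z'.G (ZMod 2)) + cR Z' (a' * red (1 : Matrix Z'.G Z'.G ℤ)) =
      red (1 : Matrix Z.G Z.G ℤ) * b' + cR Z' ((0 : Matrix Z.G Z.G (ZMod 2)) * red b) := by
  rw [red_one, red_one, Matrix.mul_zero, Matrix.zero_mul, Matrix.mul_one, Matrix.one_mul, cR_zero,
    zero_add, add_zero, hs.cR_eq, h]

/-- `S` is an involution -/
def sFunSq (P : Type) [Preorder P] : sFun P ⋙ sFun P ≅ 𝟭 (Ob P) :=
  NatIso.ofComponents
    (fun Z => idIso (g := Z.toGen) rfl (by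
      change Z.D1 + cR Z.toGen Z.c + cR Z.toGen Z.c = Z.D1
      rw [add_assoc, mat_add_self, add_zero]))
    (fun {Z Z'} f => Ob.hom_ext ((Matrix.mul_one _).trans (Matrix.one_mul _).symm)
      (comm_one (Z := Z.toGen) (Z' := Z'.toGen) ((sFun P ⋙ sFun P).map f).s1 (by
        change f.f1 + cR Z'.toGen (Mor.g f) + cR Z'.toGen (Mor.g f) = f.f1
        rw [add_assoc, mat_add_self, add_zero])))

/-- the shift of generators -/
def Gen.sh (Z : Gen P) : Gen P where
  G := Z.G
  lab := Z.lab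
  isR := Z.isR
  deg x := Z.deg x - 1

/-- the shift on objects -/
def shObj (Z : Ob P) : Ob P where
  toGen := Z.toGen.sh
  D0 := -Z.D0
  D1 := Z.D1
  s0 x y h := by
    obtain ⟨a, b, c⟩ := Z.s0.neg x y h
    exact ⟨a, b, by change Z.deg y - 1 = Z.deg x - 1 + 1; omega⟩
  s1 x y h := by
    obtain ⟨a, b, c⟩ := Z.s1 x y h
    exact ⟨a, b, by change Z.deg y - 1 = Z.deg x - 1 + 1 + 1; omega⟩
  sq := by
    have h := Z.sq
    rw [← red_neg] at h
    exact h

/-- the shift functor -/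
def shFun (P : Type) [Preorder P] : Ob P ⥤ Ob P where
  obj := shObj
  map {Z Z'} f :=
    { f0 := f.f0
      f1 := f.f1
      s0 := fun x y h => by
        obtain ⟨a, b, c⟩ := f.s0 x y h
        exact ⟨a, b, by change Z'.deg y - 1 = Z.deg x - 1 + 0; omega⟩
      s1 := fun x y h => by
        obtain ⟨a, b, c⟩ := f.s1 x y h
        exact ⟨a, b, by change Z'.deg y - 1 = Z.deg x - 1 + 0 + 1; omega⟩
      closed := by
        change pm (red (-Z.D0), Z.D1) f.bar + pm f.bar (red (-Z'.D0), Z'.D1) = 0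
        rw [red_neg, red_neg]
        exact f.closed }
  map_id Z := rfl
  map_comp f g := rfl

/-- `S` commutes with the shift -/
def shS (P : Type) [Preorder P] : shFun P ⋙ sFun P ≅ sFun P ⋙ shFun P :=
  NatIso.ofComponents
    (fun Z => idIso (g := Z.toGen.sh) rfl (by
      change Z.D1 + cR Z.toGen (half (-Z.D0 * -Z.D0)) = Z.D1 + cR Z.toGen (half (Z.D0 * Z.D0))
      rw [neg_mul_neg]))
    (fun {Z Z'} f => Ob.hom_ext ((Matrix.mul_one _).trans (Matrix.one_mul _).symm)
      (comm_one (Z := Z.toGen.sh) (Z' := Z'.toGen.sh) ((shFun P ⋙ sFun P).map f).s1 (by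
        change f.f1 + cR Z'.toGen (half (-Z.D0 * f.f0 - f.f0 * -Z'.D0)) =
          f.f1 + cR Z'.toGen (half (Z.D0 * f.f0 - f.f0 * Z'.D0))
        rw [← half_neg (Mor.red_comm f), Matrix.neg_mul, Matrix.mul_neg, neg_sub, sub_neg_eq_add,
          neg_add_eq_sub])))

theorem shS_hom_f0 (Z : Ob P) : Mor.f0 ((shS P).hom.app Z) = (1 : Matrix Z.G Z.G ℤ) := rfl
theorem shS_hom_f1 (Z : Ob P) : Mor.f1 ((shS P).hom.app Z) = 0 := rfl

/-- the empty object -/
def zeroOb (P : Type) [Preorder P] : Ob P where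
  G := Empty
  lab := Empty.elim
  isR := Empty.elim
  deg := Empty.elim
  D0 := 0
  D1 := 0
  s0 := S0.zero
  s1 := S1.zero
  sq := by
    refine Prod.ext ?_ ?_ <;> ext x <;> exact x.elim

/-- the object with one generator -/
def genOb (u : P) (s : Bool) : Ob P where
  G := Unit
  lab _ := u
  isR _ := s
  deg _ := 0
  D0 := 0
  D1 := 0
  s0 := S0.zero
  s1 := S1.zero
  sq := by
    rw [red_zero]
    exact zero_pm _

/-- the generators of type `R`, functorially -/
def genFun (P : Type) [Preorder P] : P ⥤ Ob P where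
  obj u := genOb u true
  map {u v} h :=
    { f0 := (1 : Matrix Unit Unit ℤ)
      f1 := 0
      s0 := fun _ _ _ => ⟨h.le, id, rfl⟩
      s1 := S1.zero
      closed := by
        change pm (red 0, 0) _ + pm _ (red 0, 0) = 0
        rw [red_zero]
        exact (congrArg₂ (· + ·) (zero_pm _) (pm_zero _)).trans (add_zero _) }
  map_id u := rfl
  map_comp f g := Ob.hom_ext (Matrix.one_mul _).symm (by
    rw [Ob.comp_f1]
    simp [cR_zero])

theorem cR_half_zero (Z Z' : Gen P) {M : Matrix Z.G Z'.G ℤ} (h : M = 0) :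
    (0 : Matrix Z.G Z'.G (ZMod 2)) + cR Z' (half M) = 0 := by
  rw [h, half_zero, cR_zero, add_zero]

theorem unit_aux : (0 : Matrix Unit Unit ℤ) * (1 : Matrix Unit Unit ℤ) -
    (1 : Matrix Unit Unit ℤ) * (0 : Matrix Unit Unit ℤ) = 0 := by simp

/-- `S` fixes the generators -/
def genS (P : Type) [Preorder P] : genFun P ⋙ sFun P ≅ genFun P :=
  NatIso.ofComponents
    (fun u => idIso (g := (genOb u true).toGen) rfl
      (cR_half_zero (genOb u true).toGen (genOb u true).toGen (Matrix.mul_zero _)))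
    (fun {u v} f => Ob.hom_ext ((Matrix.mul_one _).trans (Matrix.one_mul _).symm)
      (comm_one (Z := (genOb u true).toGen) (Z' := (genOb v true).toGen)
        ((genFun P ⋙ sFun P).map f).s1
        (cR_half_zero (genOb u true).toGen (genOb v true).toGen
          unit_aux)))

end Pool.Agent.Work.MP_910138_ag
end

-- merged part: Pool.Agent.Work.MP_910138_ag.TotDev
section
/-! Devissage along the generators of a total complex. -/

open CategoryTheory Limits CochainComplex.HomComplex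

namespace Pool.Agent.Work.MP_910138_ag

universe v u

section Aux

variable {A : Type u} [Category.{v} A] [Abelian A] [HasCoproductsOfShape ℤ A]

/-- the component in degree `n` of a map between total sums -/
noncomputable def totdev_c {K L : Cx A} (f : U K ⟶ U L) (n : ℤ) : K.X n ⟶ L.X n :=
  ιU K n ≫ f ≫ πU L n

theorem totdev_c_ι {K L : Cx A} {f : U K ⟶ U L} (hf : Hg 0 f) (n : ℤ) :
    totdev_c f n ≫ ιU L n = ιU K n ≫ f := by
  obtain ⟨z, rfl⟩ := hf.exists
  rw [totdev_c, ιU_toU_assoc z n n (add_zero n), ιU_toU z n n (add_zero n)]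
  simp

theorem totdev_c_comp {K L M : Cx A} {f : U K ⟶ U L} (hf : Hg 0 f) (g : U L ⟶ U M) (n : ℤ) :
    totdev_c f n ≫ totdev_c g n = totdev_c (f ≫ g) n := by
  rw [totdev_c.eq_1 g, ← Category.assoc, totdev_c_ι hf, totdev_c]
  simp only [Category.assoc]

theorem totdev_c_mapU {K L : Cx A} (φ : K ⟶ L) (n : ℤ) : totdev_c (mapU φ) n = φ.f n := by
  rw [totdev_c, ιU_mapU_assoc]
  simp

theorem totdev_c_id {K : Cx A} (n : ℤ) : totdev_c (𝟙 (U K)) n = 𝟙 _ := by
  simp [totdev_c]

theorem totdev_c_add {K L : Cx A} (f g : U K ⟶ U L) (n : ℤ) :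
    totdev_c (f + g) n = totdev_c f n + totdev_c g n := by
  simp [totdev_c, Preadditive.comp_add, Preadditive.add_comp]

/-- a splitting of the total sums gives a degreewise splitting -/
noncomputable def totdev_split (S : ShortComplex (Cx A)) (r : U S.X₂ ⟶ U S.X₁)
    (σ : U S.X₃ ⟶ U S.X₂) (hr : Hg 0 r) (hσ : Hg 0 σ) (h1 : mapU S.f ≫ r = 𝟙 _)
    (h2 : σ ≫ mapU S.g = 𝟙 _) (h3 : r ≫ mapU S.f + mapU S.g ≫ σ = 𝟙 _) (n : ℤ) :
    (S.map (HomologicalComplex.eval A _ n)).Splitting where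
  r := totdev_c r n
  s := totdev_c σ n
  f_r := by
    have h : S.f.f n ≫ totdev_c r n = 𝟙 _ := by
      rw [← totdev_c_mapU, totdev_c_comp (hg_mapU _), h1, totdev_c_id]
    exact h
  s_g := by
    have h : totdev_c σ n ≫ S.g.f n = 𝟙 _ := by
      rw [← totdev_c_mapU, totdev_c_comp hσ, h2, totdev_c_id]
    exact h
  id := by
    have h : totdev_c r n ≫ S.f.f n + S.g.f n ≫ totdev_c σ n = 𝟙 _ := by
      rw [← totdev_c_mapU, ← totdev_c_mapU, totdev_c_comp hr, totdev_c_comp (hg_mapU _),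
        ← totdev_c_add, h3, totdev_c_id]
    exact h

/-- from the shift -/
noncomputable def totdev_shP (W : Cx A) (e : ℤ) : U (W⟦e⟧) ⟶ U W :=
  descU (K := W⟦e⟧) fun p => (show (W⟦e⟧).X p ⟶ U W from ιU W (p + e))

/-- to the shift -/
noncomputable def totdev_shI (W : Cx A) (e : ℤ) : U W ⟶ U (W⟦e⟧) :=
  descU (K := W) fun p =>
    (W.XIsoOfEq (show p = p - e + e by omega)).hom ≫
      (show W.X (p - e + e) ⟶ U (W⟦e⟧) from ιU (W⟦e⟧) (p - e))

theorem totdev_ι_shP (W : Cx A) (e p : ℤ) :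
    ιU (W⟦e⟧) p ≫ totdev_shP W e = (show (W⟦e⟧).X p ⟶ U W from ιU W (p + e)) :=
  ιU_descU _ p

theorem totdev_ι_shI (W : Cx A) (e p : ℤ) :
    ιU W (p + e) ≫ totdev_shI W e = (show W.X (p + e) ⟶ U (W⟦e⟧) from ιU (W⟦e⟧) p) := by
  rw [totdev_shI, ιU_descU]
  have key : ∀ q (hq : p + e = q + e), (W.XIsoOfEq hq).hom ≫
      (show W.X (q + e) ⟶ U (W⟦e⟧) from ιU (W⟦e⟧) q) =
      (show W.X (p + e) ⟶ U (W⟦e⟧) from ιU (W⟦e⟧) p) := by
    intro q hq
    obtain rfl : p = q := by omega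
    simp
  exact key _ _

theorem totdev_shP_shI (W : Cx A) (e : ℤ) : totdev_shP W e ≫ totdev_shI W e = 𝟙 _ := by
  refine U_ext fun p => ?_
  rw [← Category.assoc, totdev_ι_shP, Category.comp_id]
  exact totdev_ι_shI W e p

theorem totdev_shI_shP (W : Cx A) (e : ℤ) : totdev_shI W e ≫ totdev_shP W e = 𝟙 _ := by
  refine U_ext fun p => ?_
  obtain ⟨q, rfl⟩ : ∃ q, p = q + e := ⟨p - e, by omega⟩
  rw [← Category.assoc, totdev_ι_shI, Category.comp_id]
  exact totdev_ι_shP W e q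

theorem totdev_hg_shP (W : Cx A) (e : ℤ) : Hg e (totdev_shP W e) := by
  intro p
  rw [← Category.assoc, totdev_ι_shP]
  have h : ιU W (p + e) = ιU W (p + e) ≫ πU W (p + e) ≫ ιU W (p + e) := by simp
  exact h

theorem totdev_hg_shI (W : Cx A) (e : ℤ) : Hg (-e) (totdev_shI W e) := by
  intro p
  obtain ⟨q, rfl⟩ : ∃ q, p = q + e := ⟨p - e, by omega⟩
  rw [← Category.assoc, totdev_ι_shI, show q + e + -e = q by omega]
  exact (ιU_πU_self_assoc (K := W⟦e⟧) q _).symm

theorem totdev_shP_nat {W W' : Cx A} (α : W ⟶ W') (e : ℤ) :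
    mapU (α⟦e⟧') ≫ totdev_shP W' e = totdev_shP W e ≫ mapU α := by
  refine U_ext fun p => ?_
  rw [ιU_mapU_assoc, totdev_ι_shP, ← Category.assoc, totdev_ι_shP]
  exact (ιU_mapU α (p + e)).symm

variable [Linear (ZMod 2) A]

theorem totdev_dl_shP (W : Cx A) (e : ℤ) : dl (totdev_shP W e) = 0 := by
  refine U_ext fun p => ?_
  rw [dl, Preadditive.comp_add, ιU_dU_assoc p (p + 1) rfl, totdev_ι_shP, ← Category.assoc,
    totdev_ι_shP, comp_zero]
  have h : (e.negOnePow • W.d (p + e) (p + 1 + e)) ≫ ιU W (p + 1 + e) + ιU W (p + e) ≫ dU W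
      = 0 := by
    rw [units_smul2, ιU_dU (p + e) (p + 1 + e) (by omega), add_self2]
  exact h

end Aux

section Rem

variable {A : Type u} [Category.{v} A] [Abelian A] [HasCoproductsOfShape ℤ A] [Linear (ZMod 2) A]
variable {G : Type} [Fintype G] {K K1 : Cx A} {W : G → Cx A} {deg : G → ℤ}
  {t : ∀ x y, U (W x) ⟶ U (W y)}

theorem totdev_sum {M : Type*} [AddCommMonoid M] (x0 : G) [inst : Fintype {y // y ≠ x0}]
    (f : G → M) : ∑ y, f y = f x0 + ∑ y : {y // y ≠ x0}, f y.1 := by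
  classical
  rw [Fintype.sum_eq_add_sum_subtype_ne f x0]
  exact congrArg (f x0 + ·) (Finset.sum_congr (by ext; simp) fun _ _ => rfl)

omit [Linear (ZMod 2) A] in
theorem totdev_top (h : Tw W deg t) {x0 : G} (hx : ∀ y, deg y ≤ deg x0) (y : G) : t x0 y = 0 := by
  by_contra hne
  exact absurd (h.tri _ _ hne) (not_lt.2 (hx y))

omit [Linear (ZMod 2) A] in
theorem totdev_tw (h : Tw W deg t) {x0 : G} [Fintype {y // y ≠ x0}] (h0 : ∀ y, t x0 y = 0) :
    Tw (fun y : {y // y ≠ x0} => W y.1) (fun y => deg y.1) (fun x y => t x.1 y.1) where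
  hg x y := h.hg x.1 y.1
  mc x z := by
    rw [h.mc, totdev_sum x0, h0, comp_zero, zero_add]
  tri x y := h.tri x.1 y.1

variable (s : TotStr K W deg t) (x0 : G) [Fintype {y // y ≠ x0}]
  (s1 : TotStr K1 (fun y : {y // y ≠ x0} => W y.1) (fun y => deg y.1) (fun x y => t x.1 y.1))
  (h0 : ∀ y, t x0 y = 0)

/-- the inclusion of the top generator -/
noncomputable def totdev_i : (W x0)⟦-deg x0⟧ ⟶ K :=
  homU (totdev_shP (W x0) (-deg x0) ≫ s.inc x0)
    ((totdev_hg_shP _ _).comp (s.hinc x0) (by omega))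
    (by simp [dl_comp, totdev_dl_shP, s.dl_inc, h0])

/-- the projection onto the other generators -/
noncomputable def totdev_p : K ⟶ K1 :=
  homU (∑ y : {y // y ≠ x0}, s.pr y.1 ≫ s1.inc y)
    (Hg.sum _ fun y _ => (s.hpr y.1).comp (s1.hinc y) (by simp))
    (by
      rw [dl_sum]
      simp only [dl_comp, s.dl_pr, s1.dl_inc, Finset.sum_add_distrib, Preadditive.sum_comp,
        Preadditive.comp_sum, Category.assoc, totdev_sum x0 (M := U K ⟶ U K1), h0, zero_comp,
        comp_zero, zero_add]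
      rw [Finset.sum_comm]
      exact add_self2 _)

/-- the graded section -/
noncomputable def totdev_s : U K1 ⟶ U K := ∑ y : {y // y ≠ x0}, s1.pr y ≫ s.inc y.1

/-- the graded retraction -/
noncomputable def totdev_r : U K ⟶ U ((W x0)⟦-deg x0⟧) :=
  s.pr x0 ≫ totdev_shI (W x0) (-deg x0)

omit [Fintype {y // y ≠ x0}] in
theorem totdev_mapU_i :
    mapU (totdev_i s x0 h0) = totdev_shP (W x0) (-deg x0) ≫ s.inc x0 := mapU_homU _ _ _

theorem totdev_mapU_p :
    mapU (totdev_p s x0 s1 h0) = ∑ y : {y // y ≠ x0}, s.pr y.1 ≫ s1.inc y := mapU_homU _ _ _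

omit [Linear (ZMod 2) A] in
theorem totdev_hg_s : Hg 0 (totdev_s s x0 s1) :=
  Hg.sum _ fun y _ => (s1.hpr y).comp (s.hinc y.1) (by simp)

omit [Linear (ZMod 2) A] [Fintype {y // y ≠ x0}] in
theorem totdev_hg_r : Hg 0 (totdev_r s x0) :=
  (s.hpr x0).comp (totdev_hg_shI _ _) (by omega)

omit [Linear (ZMod 2) A] in
theorem totdev_inc_s (y : {y // y ≠ x0}) : s1.inc y ≫ totdev_s s x0 s1 = s.inc y.1 := by
  rw [totdev_s, Preadditive.comp_sum, Finset.sum_eq_single y]
  · rw [s1.inc_pr_self_assoc]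
  · intro b _ hb
    rw [s1.inc_pr_ne_assoc y b hb.symm, zero_comp]
  · simp

theorem totdev_p_pr (y : {y // y ≠ x0}) : mapU (totdev_p s x0 s1 h0) ≫ s1.pr y = s.pr y.1 := by
  rw [totdev_mapU_p, Preadditive.sum_comp, Finset.sum_eq_single y]
  · rw [Category.assoc, s1.inc_pr_self, Category.comp_id]
  · intro b _ hb
    rw [Category.assoc, s1.inc_pr_ne b y hb, comp_zero]
  · simp

theorem totdev_i_p : totdev_i s x0 h0 ≫ totdev_p s x0 s1 h0 = 0 := by
  apply mapU_injective
  rw [mapU_comp, mapU_zero]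
  refine s1.ext_to fun y => ?_
  rw [Category.assoc, totdev_p_pr, totdev_mapU_i, Category.assoc, s.inc_pr_ne x0 y.1 y.2.symm,
    comp_zero, zero_comp]

omit [Fintype {y // y ≠ x0}] in
theorem totdev_i_r : mapU (totdev_i s x0 h0) ≫ totdev_r s x0 = 𝟙 _ := by
  rw [totdev_mapU_i, totdev_r, Category.assoc, s.inc_pr_self_assoc, totdev_shP_shI]

theorem totdev_s_p : totdev_s s x0 s1 ≫ mapU (totdev_p s x0 s1 h0) = 𝟙 _ := by
  refine s1.ext_to fun y => s1.ext_from fun x => ?_
  rw [Category.assoc, totdev_p_pr, ← Category.assoc, totdev_inc_s, Category.id_comp]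
  by_cases hxy : x = y
  · subst hxy
    rw [s.inc_pr_self, s1.inc_pr_self]
  · rw [s.inc_pr_ne x.1 y.1 (fun e => hxy (Subtype.ext e)), s1.inc_pr_ne x y hxy]

theorem totdev_total : totdev_r s x0 ≫ mapU (totdev_i s x0 h0) +
    mapU (totdev_p s x0 s1 h0) ≫ totdev_s s x0 s1 = 𝟙 _ := by
  rw [← s.total, totdev_sum x0, totdev_mapU_i, totdev_r, Category.assoc,
    ← Category.assoc (totdev_shI _ _), totdev_shI_shP, Category.id_comp, totdev_mapU_p,
    Preadditive.sum_comp]
  simp only [Category.assoc, totdev_inc_s]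

/-- the short complex obtained by removing a top generator -/
noncomputable def totdev_S : ShortComplex (Cx A) :=
  ShortComplex.mk _ _ (totdev_i_p s x0 s1 h0)

/-- it is degreewise split -/
noncomputable def totdev_σ (n : ℤ) :
    ((totdev_S s x0 s1 h0).map (HomologicalComplex.eval A _ n)).Splitting :=
  totdev_split (totdev_S s x0 s1 h0) (totdev_r s x0) (totdev_s s x0 s1) (totdev_hg_r s x0)
    (totdev_hg_s s x0 s1) (totdev_i_r s x0 h0) (totdev_s_p s x0 s1 h0) (totdev_total s x0 s1 h0) n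

theorem totdev_shortExact : (totdev_S s x0 s1 h0).ShortExact :=
  HomologicalComplex.shortExact_of_degreewise_shortExact _
    fun n => (totdev_σ s x0 s1 h0 n).shortExact

omit [Linear (ZMod 2) A] in
theorem totdev_isZero [IsEmpty G] (s : TotStr K W deg t) : IsZero K := by
  rw [IsZero.iff_id_eq_zero]
  apply mapU_injective
  rw [mapU_id, mapU_zero, ← s.total]
  simp

omit [Fintype {y // y ≠ x0}] in
theorem totdev_card [Fintype {y // y ≠ x0}] : Fintype.card {y // y ≠ x0} < Fintype.card G :=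
  Fintype.card_subtype_lt (x := x0) (by simp)

end Rem

section Main

variable {A : Type u} [Category.{v} A] [Abelian A] [HasCoproductsOfShape ℤ A] [Linear (ZMod 2) A]

theorem totdev_K (P : ObjectProperty (HomotopyCategory A (ComplexShape.up ℤ))) [P.IsTriangulated]
    [P.IsClosedUnderIsomorphisms] (N : ℕ) :
    ∀ (G : Type) [Fintype G] (K : Cx A) (W : G → Cx A) (deg : G → ℤ)
      (t : ∀ x y, U (W x) ⟶ U (W y)), Fintype.card G = N → TotStr K W deg t → Tw W deg t →
      (∀ x, P ((HomotopyCategory.quotient A (ComplexShape.up ℤ)).obj (W x))) →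
      P ((HomotopyCategory.quotient A (ComplexShape.up ℤ)).obj K) := by
  induction N using Nat.strong_induction_on with
  | _ N ih =>
    intro G _ K W deg t hN s h hP
    classical
    rcases isEmpty_or_nonempty G with hG | hG
    · exact P.prop_of_isZero (Functor.map_isZero _ (totdev_isZero s))
    · obtain ⟨x0, hx⟩ := Finite.exists_max deg
      have h0 := totdev_top h hx
      have h1 := totdev_tw h h0
      have hT := (HomotopyCategory.distinguished_iff_iso_trianglehOfDegreewiseSplit _).2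
        ⟨_, totdev_σ s x0 (totStr h1) h0, ⟨Iso.refl _⟩⟩
      refine P.ext_of_isTriangulatedClosed₂ _ hT ?_ ?_
      · exact P.prop_of_iso
          (((HomotopyCategory.quotient A (ComplexShape.up ℤ)).commShiftIso (-deg x0)).app
            (W x0)).symm (P.le_shift (-deg x0) _ (hP x0))
      · exact ih _ (hN ▸ totdev_card x0) _ _ _ _ _ rfl (totStr h1) h1 fun y => hP y.1

omit [HasCoproductsOfShape ℤ A] [Linear (ZMod 2) A] in
theorem totdev_quasiIso_zero {K K' : Cx A} (Φ : K ⟶ K') (h : IsZero K) (h' : IsZero K') :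
    QuasiIso Φ :=
  @quasiIso_of_isIso _ _ _ _ _ _ _ Φ (h.isIso h' Φ) _ _

omit [HasCoproductsOfShape ℤ A] [Linear (ZMod 2) A] in
theorem totdev_quasiIso₂ {S₁ S₂ : ShortComplex (Cx A)} (φ : S₁ ⟶ S₂) (h₁ : S₁.ShortExact)
    (h₂ : S₂.ShortExact) (q₁ : QuasiIso φ.τ₁) (q₃ : QuasiIso φ.τ₃) : QuasiIso φ.τ₂ := by
  let _ := HasDerivedCategory.standard A
  rw [← DerivedCategory.isIso_Q_map_iff_quasiIso] at q₁ q₃ ⊢
  exact Pretriangulated.isIso₂_of_isIso₁₃ (DerivedCategory.triangleOfSES.map h₁ h₂ φ)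
    (DerivedCategory.triangleOfSES_distinguished h₁)
    (DerivedCategory.triangleOfSES_distinguished h₂) q₁ q₃

theorem totdev_Q (N : ℕ) :
    ∀ (G : Type) [Fintype G] (K K' : Cx A) (W W' : G → Cx A) (deg : G → ℤ)
      (t : ∀ x y, U (W x) ⟶ U (W y)) (t' : ∀ x y, U (W' x) ⟶ U (W' y)), Fintype.card G = N →
      ∀ (s : TotStr K W deg t) (s' : TotStr K' W' deg t'), Tw W deg t → Tw W' deg t' →
      ∀ (Φ : K ⟶ K') (α : ∀ x, W x ⟶ W' x), (∀ x, QuasiIso (α x)) →
      (∀ x, s.inc x ≫ mapU Φ ≫ s'.pr x = mapU (α x)) →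
      (∀ x y, x ≠ y → s.inc x ≫ mapU Φ ≫ s'.pr y ≠ 0 → deg x < deg y) → QuasiIso Φ := by
  induction N using Nat.strong_induction_on with
  | _ N ih =>
    intro G _ K K' W W' deg t t' hN s s' h h' Φ α hα hd ht
    classical
    rcases isEmpty_or_nonempty G with hG | hG
    · exact totdev_quasiIso_zero Φ (totdev_isZero s) (totdev_isZero s')
    · obtain ⟨x0, hx⟩ := Finite.exists_max deg
      have h0 := totdev_top h hx
      have h0' := totdev_top h' hx
      have h1 := totdev_tw h h0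
      have h1' := totdev_tw h' h0'
      have sq1 : (α x0)⟦-deg x0⟧' ≫ totdev_i s' x0 h0' = totdev_i s x0 h0 ≫ Φ := by
        apply mapU_injective
        rw [mapU_comp, mapU_comp, totdev_mapU_i, totdev_mapU_i, ← Category.assoc, totdev_shP_nat,
          Category.assoc, Category.assoc]
        congr 1
        refine s'.ext_to fun y => ?_
        by_cases hy : x0 = y
        · subst hy
          rw [Category.assoc, Category.assoc, hd, s'.inc_pr_self, Category.comp_id]
        · rw [Category.assoc, Category.assoc, s'.inc_pr_ne x0 y hy, comp_zero]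
          by_contra hne
          exact absurd (ht x0 y hy (Ne.symm hne)) (not_lt.2 (hx y))
      set ψ := totdev_s s x0 (totStr h1) ≫ mapU Φ ≫ mapU (totdev_p s' x0 (totStr h1') h0')
        with hψ
      have hpψ : mapU (totdev_p s x0 (totStr h1) h0) ≫ ψ =
          mapU Φ ≫ mapU (totdev_p s' x0 (totStr h1') h0') := by
        have e : mapU (totdev_i s x0 h0) ≫ mapU Φ ≫ mapU (totdev_p s' x0 (totStr h1') h0')
            = 0 := by
          rw [← mapU_comp, ← mapU_comp, ← Category.assoc, ← sq1, Category.assoc, totdev_i_p,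
            comp_zero, mapU_zero]
        rw [← Category.id_comp (mapU Φ ≫ _), ← totdev_total s x0 (totStr h1) h0,
          Preadditive.add_comp, Category.assoc, e, comp_zero, zero_add, Category.assoc]
      have hgψ : Hg 0 ψ :=
        (totdev_hg_s _ _ _).comp ((hg_mapU _).comp (hg_mapU _) rfl) rfl
      have hdψ : dl ψ = 0 := by
        have e := congrArg dl hpψ
        rw [dl_comp, dl_mapU, zero_comp, zero_add, ← mapU_comp, dl_mapU] at e
        rw [← Category.id_comp (dl ψ), ← totdev_s_p s x0 (totStr h1) h0, Category.assoc, e,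
          comp_zero]
      have sq2 : Φ ≫ totdev_p s' x0 (totStr h1') h0' =
          totdev_p s x0 (totStr h1) h0 ≫ homU ψ hgψ hdψ := by
        apply mapU_injective
        rw [mapU_comp, mapU_comp, mapU_homU, hpψ]
      have hc : ∀ x y, (totStr h1).inc x ≫ mapU (homU ψ hgψ hdψ) ≫ (totStr h1').pr y =
          s.inc x.1 ≫ mapU Φ ≫ s'.pr y.1 := by
        intro x y
        rw [mapU_homU, hψ, Category.assoc, Category.assoc, totdev_p_pr, ← Category.assoc,
          totdev_inc_s]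
      have q3 : QuasiIso (homU ψ hgψ hdψ) := by
        refine ih _ (hN ▸ totdev_card x0) _ _ _ _ _ _ _ _ rfl (totStr h1) (totStr h1') h1 h1' _
          (fun y => α y.1) (fun y => hα y.1) (fun x => ?_) (fun x y hxy hne => ?_)
        · rw [hc, hd]
        · rw [hc] at hne
          exact ht x.1 y.1 (fun e => hxy (Subtype.ext e)) hne
      have q1 : QuasiIso ((α x0)⟦-deg x0⟧') :=
        (CochainComplex.quasiIso_shift_iff (α x0) (-deg x0)).2 (hα x0)
      exact totdev_quasiIso₂ (S₁ := totdev_S s x0 (totStr h1) h0)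
        (S₂ := totdev_S s' x0 (totStr h1') h0')
        (ShortComplex.homMk ((α x0)⟦-deg x0⟧') Φ (homU ψ hgψ hdψ) sq1 sq2)
        (totdev_shortExact _ _ _ _) (totdev_shortExact _ _ _ _) q1 q3

end Main

variable {A : Type u} [Category.{v} A] [Abelian A] [HasCoproductsOfShape ℤ A] [Linear (ZMod 2) A]
variable {G : Type} [Fintype G] {K K' : Cx A} {W W' : G → Cx A} {deg : G → ℤ}
  {t : ∀ x y, U (W x) ⟶ U (W y)} {t' : ∀ x y, U (W' x) ⟶ U (W' y)}

theorem TotStr.devissage_K (s : TotStr K W deg t) (h : Tw W deg t)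
    (P : ObjectProperty (HomotopyCategory A (ComplexShape.up ℤ))) [P.IsTriangulated]
    [P.IsClosedUnderIsomorphisms]
    (hP : ∀ x, P ((HomotopyCategory.quotient A (ComplexShape.up ℤ)).obj (W x))) :
    P ((HomotopyCategory.quotient A (ComplexShape.up ℤ)).obj K) :=
  totdev_K P _ G K W deg t rfl s h hP

theorem TotStr.devissage_D [HasDerivedCategory A] (s : TotStr K W deg t) (h : Tw W deg t)
    (P : ObjectProperty (DerivedCategory A)) [P.IsTriangulated] [P.IsClosedUnderIsomorphisms]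
    (hP : ∀ x, P (DerivedCategory.Q.obj (W x))) : P (DerivedCategory.Q.obj K) :=
  P.prop_of_iso ((DerivedCategory.quotientCompQhIso A).app K)
    (s.devissage_K h (P.inverseImage DerivedCategory.Qh) fun x =>
      P.prop_of_iso ((DerivedCategory.quotientCompQhIso A).app (W x)).symm (hP x))

theorem quasiIso_of_tri (s : TotStr K W deg t) (s' : TotStr K' W' deg t') (h : Tw W deg t)
    (h' : Tw W' deg t') (Φ : K ⟶ K') (α : ∀ x, W x ⟶ W' x) (hα : ∀ x, QuasiIso (α x))
    (hd : ∀ x, s.inc x ≫ mapU Φ ≫ s'.pr x = mapU (α x))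
    (ht : ∀ x y, x ≠ y → s.inc x ≫ mapU Φ ≫ s'.pr y ≠ 0 → deg x < deg y) : QuasiIso Φ :=
  totdev_Q _ G K K' W W' deg t t' rfl s s' h h' Φ α hα hd ht

end Pool.Agent.Work.MP_910138_ag
end

-- merged part: Pool.Agent.Work.MP_910138_ag.PCx
section
/-! Total complexes of a matrix complex with coefficients in a diagram of complexes. -/

open CategoryTheory Limits CochainComplex.HomComplex

namespace Pool.Agent.Work.MP_910138_ag

universe v u

variable {A : Type u} [Category.{v} A] [Abelian A] [HasCoproductsOfShape ℤ A] [Linear (ZMod 2) A]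
  {P : Type} [Preorder P]

/-- a complex of free modules over the poset `P`, given by a matrix -/
structure PCx (P : Type) [Preorder P] where
  G : Type
  [fin : Fintype G]
  lab : G → P
  deg : G → ℤ
  D : G → G → ZMod 2
  supp : ∀ x y, D x y ≠ 0 → lab x ≤ lab y ∧ deg y = deg x + 1
  sq : ∀ x z, ∑ y, D x y * D y z = 0

attribute [instance] PCx.fin

open Classical in
/-- the transition map of a diagram, zero for unrelated points -/
noncomputable def wmap (W : P ⥤ Cx A) (u v : P) : W.obj u ⟶ W.obj v :=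
  if h : u ≤ v then W.map (homOfLE h) else 0

/-- the twisting maps of `X ⊗ W` -/
noncomputable abbrev PCx.tw (X : PCx P) (W : P ⥤ Cx A) (x y : X.G) :
    U (W.obj (X.lab x)) ⟶ U (W.obj (X.lab y)) :=
  X.D x y • mapU (wmap W (X.lab x) (X.lab y))

/-- `K` is the total complex `X ⊗ W` -/
abbrev PCx.Str (X : PCx P) (W : P ⥤ Cx A) (K : Cx A) :=
  TotStr K (fun x => W.obj (X.lab x)) X.deg (X.tw W)

theorem wmap_of_le (W : P ⥤ Cx A) {u v : P} (h : u ≤ v) : wmap W u v = W.map (homOfLE h) :=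
  dif_pos h

theorem PCx.isTw (X : PCx P) (W : P ⥤ Cx A) :
    Tw (fun x => W.obj (X.lab x)) X.deg (X.tw W) where
  hg x y := by
    by_cases h : X.D x y = 0
    · rw [PCx.tw, h, zero_smul]
      exact Hg.zero
    · exact ((hg_mapU _).smul _).of_eq (by have := (X.supp x y h).2; omega)
  mc x z := by
    rw [dl_smul, dl_mapU, smul_zero]
    have : ∀ y, X.tw W x y ≫ X.tw W y z =
        (X.D x y * X.D y z) • mapU (wmap W (X.lab x) (X.lab z)) := by
      intro y
      by_cases h : X.D x y = 0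
      · simp [PCx.tw, h]
      by_cases h' : X.D y z = 0
      · simp [PCx.tw, h']
      have a := (X.supp x y h).1
      have b := (X.supp y z h').1
      rw [Linear.smul_comp, Linear.comp_smul, smul_smul, ← mapU_comp, wmap_of_le W a,
        wmap_of_le W b, wmap_of_le W (a.trans b), ← W.map_comp, homOfLE_comp]
    simp only [this, ← Finset.sum_smul, X.sq, zero_smul]
  tri x y h := by
    have h' : X.D x y ≠ 0 := fun h' => h (by rw [PCx.tw, h', zero_smul])
    have := (X.supp x y h').2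
    omega

end Pool.Agent.Work.MP_910138_ag
end

-- merged part: Pool.Agent.Work.MP_910138_ag.DG
section
/-! Functors on complexes that act on graded maps. -/

open CategoryTheory Limits CochainComplex.HomComplex

namespace Pool.Agent.Work.MP_910138_ag

universe v u

universe v' u' v'' u''

variable {A : Type u} [Category.{v} A] [Abelian A] [HasCoproductsOfShape ℤ A] [Linear (ZMod 2) A]
  {B : Type u'} [Category.{v'} B] [Abelian B] [HasCoproductsOfShape ℤ B] [Linear (ZMod 2) B]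

/-- an action of `T` on homogeneous maps -/
structure DGAct (T : Cx A ⥤ Cx B) where
  act : ∀ (_ : ℤ) {K L : Cx A}, (U K ⟶ U L) → (U (T.obj K) ⟶ U (T.obj L))
  act_add : ∀ (n : ℤ) {K L : Cx A} (f g : U K ⟶ U L), act n (f + g) = act n f + act n g
  hg : ∀ (n : ℤ) {K L : Cx A} (f : U K ⟶ U L), Hg n (act n f)
  act_comp : ∀ {n m k : ℤ} {K L M : Cx A} {f : U K ⟶ U L} {g : U L ⟶ U M}, Hg n f → Hg m g →
    n + m = k → act k (f ≫ g) = act n f ≫ act m g
  act_dl : ∀ {n k : ℤ} {K L : Cx A} {f : U K ⟶ U L}, Hg n f → n + 1 = k →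
    act k (dl f) = dl (act n f)
  act_mapU : ∀ {K L : Cx A} (φ : K ⟶ L), act 0 (mapU φ) = mapU (T.map φ)

theorem dg_of_cochain (T : Cx A ⥤ Cx B)
    (c : ∀ (n : ℤ) (K L : Cx A), Cochain K L n → Cochain (T.obj K) (T.obj L) n)
    (hadd : ∀ (n : ℤ) (K L : Cx A) (z w : Cochain K L n), c n K L (z + w) = c n K L z + c n K L w)
    (hcomp : ∀ (n m k : ℤ) (K L M : Cx A) (z : Cochain K L n) (w : Cochain L M m)
      (h : n + m = k), c k K M (z.comp w h) = (c n K L z).comp (c m L M w) h)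
    (hd : ∀ (n k : ℤ) (K L : Cx A) (z : Cochain K L n), n + 1 = k →
      c k K L (δ n k z) = δ n k (c n K L z))
    (hof : ∀ (K L : Cx A) (φ : K ⟶ L), c 0 K L (Cochain.ofHom φ) = Cochain.ofHom (T.map φ)) :
    Nonempty (DGAct T) := by
  refine ⟨{ act := fun n {K L} f => toU (c n K L (ofU n f))
            act_add := ?_, hg := ?_, act_comp := ?_, act_dl := ?_, act_mapU := ?_ }⟩
  · intro n K L f g
    rw [ofU_add, hadd, toU_add]
  · intro n K L f
    exact hg_toU _
  · intro n m k K L M f g hf hg h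
    obtain ⟨z, rfl⟩ := hf.exists
    obtain ⟨w, rfl⟩ := hg.exists
    rw [← toU_comp z w h, ofU_toU, ofU_toU, ofU_toU, hcomp, toU_comp]
  · intro n k K L f hf h
    obtain ⟨z, rfl⟩ := hf.exists
    rw [← toU_δ z h, ofU_toU, ofU_toU, hd _ _ _ _ _ h, toU_δ _ h]
  · intro K L φ
    rw [mapU, mapU, ofU_toU, hof]

section Bif

open HomologicalComplex

variable {C : Type u''} [Category.{v''} C] [Preadditive C] (F : C ⥤ A ⥤ B) [F.Additive]
  [∀ X, (F.obj X).Additive]
  [∀ (K₁ : CochainComplex C ℤ) (K₂ : CochainComplex A ℤ),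
    HomologicalComplex.HasMapBifunctor K₁ K₂ F (.up ℤ)] (E : CochainComplex C ℤ)

/-- the action of a bifunctor on cochains in the second variable -/
noncomputable def dg_c (n : ℤ) (K L : Cx A) (z : Cochain K L n) :
    Cochain (F := mapBifunctor E K F (.up ℤ)) (G := mapBifunctor E L F (.up ℤ)) n :=
  Cochain.mk fun p q hpq => mapBifunctorDesc fun i j h =>
    (F.obj (E.X i)).map (z.v j (j + n) rfl) ≫ ιMapBifunctor E L F (.up ℤ) i (j + n) q
      (by dsimp at h ⊢; omega)

omit [HasCoproductsOfShape ℤ A] [Linear (ZMod 2) A] [HasCoproductsOfShape ℤ B]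
  [Linear (ZMod 2) B] in
@[reassoc]
theorem dg_ι {n : ℤ} {K L : Cx A} (z : Cochain K L n) (i j j' p q : ℤ) (h : i + j = p)
    (hpq : p + n = q) (hj : j + n = j') :
    ιMapBifunctor E K F (.up ℤ) i j p h ≫ (dg_c F E n K L z).v p q hpq =
      (F.obj (E.X i)).map (z.v j j' hj) ≫ ιMapBifunctor E L F (.up ℤ) i j' q
        (by dsimp; omega) := by
  subst hj
  rw [dg_c, Cochain.mk_v, ι_mapBifunctorDesc]

omit [HasCoproductsOfShape ℤ A] [Linear (ZMod 2) A] in
@[reassoc]
theorem dg_ι_d (K : Cx A) (i j p q : ℤ) (h : i + j = p) (hpq : p + 1 = q) :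
    ιMapBifunctor E K F (.up ℤ) i j p h ≫ (mapBifunctor E K F (.up ℤ)).d p q =
      (F.map (E.d i (i + 1))).app (K.X j) ≫ ιMapBifunctor E K F (.up ℤ) (i + 1) j q
        (by dsimp; omega) +
      (F.obj (E.X i)).map (K.d j (j + 1)) ≫ ιMapBifunctor E K F (.up ℤ) i (j + 1) q
        (by dsimp; omega) := by
  rw [mapBifunctor.d_eq, Preadditive.comp_add, mapBifunctor.ι_D₁, mapBifunctor.ι_D₂,
    mapBifunctor.d₁_eq E K F (.up ℤ) (i₁' := i + 1) rfl j q (by dsimp; omega),
    mapBifunctor.d₂_eq E K F (.up ℤ) i (i₂' := j + 1) rfl q (by dsimp; omega),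
    units_smul2, units_smul2]

end Bif

omit [Linear (ZMod 2) A] in
theorem dg_act_zero {T : Cx A ⥤ Cx B} (a : DGAct T) (n : ℤ) (K L : Cx A) :
    a.act n (0 : U K ⟶ U L) = 0 := by
  have h := a.act_add n (0 : U K ⟶ U L) 0
  rw [add_zero, add_self2] at h
  exact h

omit [Linear (ZMod 2) A] in
theorem dg_act_sum {T : Cx A ⥤ Cx B} (a : DGAct T) (n : ℤ) {K L : Cx A} {ι : Type*}
    (s : Finset ι) (f : ι → (U K ⟶ U L)) :
    a.act n (∑ i ∈ s, f i) = ∑ i ∈ s, a.act n (f i) := by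
  classical
  induction s using Finset.induction_on with
  | empty => simp [dg_act_zero]
  | insert i s hi ih => rw [Finset.sum_insert hi, Finset.sum_insert hi, a.act_add, ih]

omit [Linear (ZMod 2) A] [Linear (ZMod 2) B] in
theorem dg_act_id {T : Cx A ⥤ Cx B} (a : DGAct T) (K : Cx A) :
    a.act 0 (𝟙 (U K)) = 𝟙 _ := by
  rw [← mapU_id, a.act_mapU, T.map_id, mapU_id]

theorem dgAct_mapHomologicalComplex (F : A ⥤ B) [F.Additive] :
    Nonempty (DGAct (F.mapHomologicalComplex (ComplexShape.up ℤ))) := by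
  refine dg_of_cochain _ (fun n K L z => z.map F) ?_ ?_ ?_ ?_
  · intro n K L z w
    exact Cochain.map_add _ _ _
  · intro n m k K L M z w h
    exact Cochain.map_comp _ z w h F
  · intro n k K L z _
    exact (δ_map _ _ _ _).symm
  · intro K L φ
    exact Cochain.map_ofHom _ _ φ F

theorem dgAct_map₂ {C : Type u''} [Category.{v''} C] [Preadditive C] (F : C ⥤ A ⥤ B) [F.Additive]
    [∀ X, (F.obj X).Additive]
    [∀ (K₁ : CochainComplex C ℤ) (K₂ : CochainComplex A ℤ),
      HomologicalComplex.HasMapBifunctor K₁ K₂ F (.up ℤ)] (E : CochainComplex C ℤ) :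
    Nonempty (DGAct (F.map₂CochainComplex.obj E)) := by
  refine dg_of_cochain _ (fun n K L z => dg_c F E n K L z) ?_ ?_ ?_ ?_
  · intro n K L z w
    have : dg_c F E n K L (z + w) = dg_c F E n K L z + dg_c F E n K L w := by
      ext p q hpq i j h
      rw [Cochain.add_v, Preadditive.comp_add, dg_ι F E _ i j (j + n) p q h hpq rfl,
        dg_ι F E _ i j (j + n) p q h hpq rfl, dg_ι F E _ i j (j + n) p q h hpq rfl,
        Cochain.add_v, Functor.map_add, Preadditive.add_comp]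
    exact this
  · intro n m k K L M z w hk
    have : dg_c F E k K M (z.comp w hk) = (dg_c F E n K L z).comp (dg_c F E m L M w) hk := by
      ext p q hpq i j h
      dsimp at h
      rw [dg_ι F E _ i j (j + n + m) p q h hpq (by omega),
        Cochain.comp_v _ _ hk p (p + n) q rfl (by omega),
        dg_ι_assoc F E _ i j (j + n) p (p + n) h rfl rfl,
        dg_ι F E _ i (j + n) (j + n + m) (p + n) q (by omega) (by omega) rfl,
        Cochain.comp_v _ _ hk j (j + n) (j + n + m) rfl rfl, Functor.map_comp, Category.assoc]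
    exact this
  · intro n k K L z hk
    have : dg_c F E k K L (δ n k z) = δ n k (dg_c F E n K L z) := by
      ext p q hpq i j h
      dsimp at h
      rw [dg_ι F E _ i j (j + n + 1) p q h hpq (by omega),
        δ_v n k hk z j (j + n + 1) (by omega) (j + n) (j + 1) (by omega) rfl,
        δ_v n k hk _ p q hpq (p + n) (p + 1) (by omega) rfl, units_smul2, units_smul2,
        Preadditive.comp_add, dg_ι_assoc F E _ i j (j + n) p (p + n) h rfl rfl,
        dg_ι_d F E L i (j + n) (p + n) q (by omega) (by omega),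
        dg_ι_d_assoc F E K i j p (p + 1) h rfl, Preadditive.add_comp, Category.assoc,
        Category.assoc, dg_ι F E _ (i + 1) j (j + n) (p + 1) q (by omega) (by omega) rfl,
        dg_ι F E _ i (j + 1) (j + n + 1) (p + 1) q (by omega) (by omega) (by omega),
        Preadditive.comp_add, NatTrans.naturality_assoc, Functor.map_add, Functor.map_comp,
        Functor.map_comp, Preadditive.add_comp, Category.assoc, Category.assoc,
        add_add_add_comm, add_self2, zero_add]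
    exact this
  · intro K L φ
    have : dg_c F E 0 K L (Cochain.ofHom φ) =
        Cochain.ofHom (HomologicalComplex.mapBifunctorMap (𝟙 E) φ F (.up ℤ)) := by
      ext p i j h
      rw [dg_ι F E _ i j j p p h (add_zero p) (add_zero j), Cochain.ofHom_v, Cochain.ofHom_v,
        HomologicalComplex.ι_mapBifunctorMap]
      simp
    exact this

theorem dgAct_comp {C : Type u''} [Category.{v''} C] [Abelian C] [HasCoproductsOfShape ℤ C]
    [Linear (ZMod 2) C] {T : Cx A ⥤ Cx B} {T' : Cx B ⥤ Cx C} (a : DGAct T) (b : DGAct T') :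
    Nonempty (DGAct (T ⋙ T')) := by
  refine ⟨{ act := fun n {K L} f => b.act n (a.act n f)
            act_add := ?_, hg := ?_, act_comp := ?_, act_dl := ?_, act_mapU := ?_ }⟩
  · intro n K L f g
    rw [a.act_add, b.act_add]
  · intro n K L f
    exact b.hg n _
  · intro n m k K L M f g hf hg h
    rw [a.act_comp hf hg h]
    exact b.act_comp (a.hg n f) (a.hg m g) h
  · intro n k K L f hf h
    rw [a.act_dl hf h]
    exact b.act_dl (a.hg n f) h
  · intro K L φ
    rw [a.act_mapU]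
    exact b.act_mapU _

/-- transport of a total complex whose twisting maps are multiples of chain maps -/
theorem TotStr.transport {T : Cx A ⥤ Cx B} (a : DGAct T) {G : Type} [Fintype G] {K : Cx A}
    {W : G → Cx A} {deg : G → ℤ} (D : G → G → ZMod 2) (w : ∀ x y, W x ⟶ W y)
    (hD : ∀ x y, D x y ≠ 0 → deg y = deg x + 1)
    (s : TotStr K W deg (fun x y => D x y • mapU (w x y))) :
    Nonempty (TotStr (T.obj K) (fun x => T.obj (W x)) deg
      (fun x y => D x y • mapU (T.map (w x y)))) := by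
  refine ⟨{ inc := fun x => a.act (deg x) (s.inc x)
            pr := fun x => a.act (-deg x) (s.pr x)
            hinc := fun x => a.hg _ _
            hpr := fun x => a.hg _ _
            inc_pr_self := ?_, inc_pr_ne := ?_, total := ?_, dl_inc := ?_ }⟩
  · intro x
    rw [← a.act_comp (s.hinc x) (s.hpr x) (add_neg_cancel _), s.inc_pr_self, dg_act_id]
  · intro x y h
    rw [← a.act_comp (s.hinc x) (s.hpr y) rfl, s.inc_pr_ne x y h, dg_act_zero]
  · rw [← dg_act_id a K, ← s.total, dg_act_sum]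
    exact Finset.sum_congr rfl fun x _ =>
      (a.act_comp (s.hpr x) (s.hinc x) (neg_add_cancel _)).symm
  · intro x
    rw [← a.act_dl (s.hinc x) rfl, s.dl_inc, dg_act_sum]
    refine Finset.sum_congr rfl fun y _ => ?_
    have h2 : ∀ c : ZMod 2, c = 0 ∨ c = 1 := by decide
    rcases h2 (D x y) with h | h
    · rw [h, zero_smul, zero_smul, zero_comp, zero_comp, dg_act_zero]
    · have h3 := hD x y (by rw [h]; exact one_ne_zero)
      rw [h, one_smul, one_smul, a.act_comp (hg_mapU _) (s.hinc y) (by omega), a.act_mapU]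

end Pool.Agent.Work.MP_910138_ag
end

-- merged part: Pool.Agent.Work.MP_910138_ag.Res
section
/-! Injective resolutions of finite diagrams of bounded below complexes. -/

open CategoryTheory Limits CochainComplex.HomComplex

namespace Pool.Agent.Work.MP_910138_ag

universe v u

instance res_finite_hom {P : Type} [PartialOrder P] (a b : P) : Finite (a ⟶ b) :=
  Finite.of_subsingleton

theorem res_mono_fold {B : Type u} [Category.{v} B] [Abelian B] {J : Type} [Finite J]
    [Subsingleton J] (d : B) : Mono (Sigma.desc (fun _ : J => 𝟙 d)) := by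
  rcases isEmpty_or_nonempty J with hJ | ⟨⟨h⟩⟩
  · refine ⟨fun {Z} f g _ => ?_⟩
    have h0 : 𝟙 (∐ fun _ : J => d) = 0 := Sigma.hom_ext _ _ fun j => isEmptyElim j
    rw [← Category.comp_id f, ← Category.comp_id g, h0, comp_zero, comp_zero]
  · have h1 : Sigma.desc (fun _ : J => 𝟙 d) ≫ Sigma.ι (fun _ : J => d) h = 𝟙 _ := by
      refine Sigma.hom_ext _ _ fun j => ?_
      obtain rfl : j = h := Subsingleton.elim _ _
      rw [Sigma.ι_desc_assoc, Category.id_comp, Category.comp_id]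
    exact mono_of_mono_fac h1

theorem res_left_mono {B : Type u} [Category.{v} B] [Abelian B] {P : Type} [PartialOrder P]
    (c : P) : (evaluationLeftAdjoint B c).PreservesMonomorphisms := by
  refine ⟨fun {X Y} f hf => ?_⟩
  have : ∀ t, Mono (((evaluationLeftAdjoint B c).map f).app t) := by
    intro t
    have h1 := res_mono_fold (J := (c ⟶ t)) X
    have h2 : (Sigma.desc fun h : c ⟶ t => f ≫ Sigma.ι (fun _ => Y) h) ≫
        Sigma.desc (fun _ : c ⟶ t => 𝟙 Y) = Sigma.desc (fun _ : c ⟶ t => 𝟙 X) ≫ f := by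
      refine Sigma.hom_ext _ _ fun j => ?_
      rw [Sigma.ι_desc_assoc, Sigma.ι_desc_assoc, Category.assoc, Sigma.ι_desc, Category.comp_id,
        Category.id_comp]
    have h3 : Mono (Sigma.desc (fun _ : c ⟶ t => 𝟙 X) ≫ f) := mono_comp _ _
    exact @mono_of_mono_fac _ _ _ _ _ _ _ _ h3 h2
  exact NatTrans.mono_of_mono_app _

theorem res_eval_injective {B : Type u} [Category.{v} B] [Abelian B] {P : Type} [PartialOrder P]
    (F : P ⥤ B) (hF : Injective F) (c : P) : Injective (F.obj c) := by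
  have := res_left_mono (B := B) c
  exact (evaluationAdjunctionRight B c).map_injective F hF

theorem res_enough {B : Type u} [Category.{v} B] [Abelian B] [EnoughInjectives B]
    {P : Type} [PartialOrder P] [Finite P] : EnoughInjectives (P ⥤ B) := by
  refine ⟨fun F => ?_⟩
  let G : P → P ⥤ B := fun c => (evaluationRightAdjoint B c).obj (Injective.under (F.obj c))
  have hG : ∀ c, Injective (G c) := fun c =>
    (evaluationAdjunctionLeft B c).map_injective _ inferInstance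
  let φ : ∀ c, F ⟶ G c := fun c =>
    (evaluationAdjunctionLeft B c).homEquiv F _ (Injective.ι (F.obj c))
  have hφ : ∀ c, Mono ((φ c).app c) := by
    intro c
    have h1 : (φ c).app c ≫ (evaluationAdjunctionLeft B c).counit.app _ = Injective.ι (F.obj c) := by
      have h2 := ((evaluationAdjunctionLeft B c).homEquiv F _).symm_apply_apply
        (Injective.ι (F.obj c))
      rw [Adjunction.homEquiv_counit] at h2
      exact h2
    exact mono_of_mono_fac h1
  have hm : ∀ c, Mono ((Pi.lift φ).app c) := by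
    intro c
    have h1 : (Pi.lift φ).app c ≫ (Pi.π G c).app c = (φ c).app c := by
      rw [← NatTrans.comp_app, Pi.lift_π]
    have := hφ c
    exact mono_of_mono_fac h1
  exact ⟨{ J := ∏ᶜ G, f := Pi.lift φ, mono := NatTrans.mono_of_mono_app _ }⟩

/-- a diagram of complexes seen as a complex of diagrams -/
noncomputable def res_flip {B : Type u} [Category.{v} B] [Abelian B] {P : Type} [PartialOrder P]
    (W : P ⥤ Cx B) : Cx (P ⥤ B) where
  X n := W ⋙ HomologicalComplex.eval B _ n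
  d i j :=
    { app := fun t => (W.obj t).d i j
      naturality := fun _ _ g => (W.map g).comm i j }
  shape i j h := by
    ext t
    exact (W.obj t).shape i j h
  d_comp_d' i j k _ _ := by
    ext t
    exact (W.obj t).d_comp_d i j k

theorem exists_diagram_resolution {B : Type u} [Category.{v} B] [Abelian B] [EnoughInjectives B]
    {P : Type} [PartialOrder P] [Finite P] (W : P ⥤ Cx B)
    (hW : ∀ u, ∃ a : ℤ, (W.obj u).IsStrictlyGE a) :
    ∃ (I : P ⥤ Cx B) (α : W ⟶ I), (∀ u, QuasiIso (α.app u)) ∧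
      (∀ u, ∃ a : ℤ, (I.obj u).IsStrictlyGE a) ∧ ∀ u n, Injective ((I.obj u).X n) := by
  choose a ha using hW
  obtain ⟨b, hb⟩ := (Set.finite_range a).bddBelow
  have hb' : ∀ u, b ≤ a u := fun u => hb ⟨u, rfl⟩
  have : EnoughInjectives (P ⥤ B) := res_enough
  have hge : (res_flip W).IsStrictlyGE b := by
    rw [CochainComplex.isStrictlyGE_iff]
    intro i hi
    refine Functor.isZero _ fun t => ?_
    have := ha t
    exact (W.obj t).isZero_of_isStrictlyGE (a t) i (lt_of_lt_of_le hi (hb' t))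
  obtain ⟨L, i, hi, hL, hLb⟩ :=
    CochainComplex.Plus.modelCategoryQuillen.exists_quasiIso_injective (res_flip W) b
  refine ⟨L.asFunctor,
    { app := fun t =>
        { f := fun n => (i.f n).app t
          comm' := fun n m _ => NatTrans.congr_app (i.comm n m) t }
      naturality := fun t t' g => by
        ext n
        exact (i.f n).naturality g }, fun t => ?_, fun t => ⟨b, ?_⟩, fun t n => ?_⟩
  · exact (HomologicalComplex.quasiIso_iff_evaluation i).1 hi t
  · rw [CochainComplex.isStrictlyGE_iff]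
    intro n hn
    exact (L.isZero_of_isStrictlyGE b n hn).obj t
  · exact res_eval_injective _ (hL n) t

end Pool.Agent.Work.MP_910138_ag
end

-- merged part: Pool.Agent.Work.MP_910138_ag.RModel
section
/-! A strict model for a right derived functor on a diagram and its total complex. -/

open CategoryTheory Limits CochainComplex.HomComplex

namespace Pool.Agent.Work.MP_910138_ag

universe v u

universe v' u'

variable {A : Type u} [Category.{v} A] [Abelian A] [HasCoproductsOfShape ℤ A] [Linear (ZMod 2) A]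
  {B : Type u'} [Category.{v'} B] [Abelian B] [HasCoproductsOfShape ℤ B] [Linear (ZMod 2) B]
  [HasDerivedCategory A] [HasDerivedCategory B] [EnoughInjectives A] [EnoughInjectives B]
  {P : Type} [PartialOrder P] [Finite P]

/-- the right derived functor, on bounded below complexes -/
noncomputable abbrev RD (π : B ⥤ A) [π.Additive] : CochainComplex.Plus B ⥤ DerivedCategory A :=
  DerivedCategory.Plus.Q ⋙ π.rightDerivedFunctorPlus ⋙ DerivedCategory.Plus.ι

section

omit [HasCoproductsOfShape ℤ A] [Linear (ZMod 2) A] [HasCoproductsOfShape ℤ B]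
  [Linear (ZMod 2) B] [EnoughInjectives A]

theorem rmodel_unit (π : B ⥤ A) [π.Additive] :
    ∃ η : CochainComplex.Plus.ι B ⋙ π.mapHomologicalComplex (ComplexShape.up ℤ) ⋙
      DerivedCategory.Q ⟶ RD π,
      ∀ K : CochainComplex.Plus B, (∀ n, Injective (K.obj.X n)) → IsIso (η.app K) := by
  let e : CochainComplex.Plus.ι B ⋙ π.mapHomologicalComplex (ComplexShape.up ℤ) ⋙
      DerivedCategory.Q ≅ HomotopyCategory.Plus.quotient B ⋙
        (π.mapHomotopyCategoryPlus ⋙ DerivedCategory.Plus.Qh) ⋙ DerivedCategory.Plus.ι :=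
    Functor.isoWhiskerLeft (CochainComplex.Plus.ι B ⋙ π.mapHomologicalComplex (ComplexShape.up ℤ))
      (DerivedCategory.quotientCompQhIso A).symm
  let η : HomotopyCategory.Plus.quotient B ⋙
        (π.mapHomotopyCategoryPlus ⋙ DerivedCategory.Plus.Qh) ⋙ DerivedCategory.Plus.ι ⟶ RD π :=
    Functor.whiskerLeft (HomotopyCategory.Plus.quotient B)
      (Functor.whiskerRight π.rightDerivedFunctorPlusUnit DerivedCategory.Plus.ι)
  refine ⟨e.hom ≫ η, fun K hK => ?_⟩
  have h1 : IsIso (π.rightDerivedFunctorPlusUnit.app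
      ((HomotopyCategory.Plus.quotient B).obj K)) := inferInstance
  have h2 : IsIso (η.app K) :=
    inferInstanceAs (IsIso (DerivedCategory.Plus.ι.map (π.rightDerivedFunctorPlusUnit.app
      ((HomotopyCategory.Plus.quotient B).obj K))))
  rw [NatTrans.comp_app]
  infer_instance

theorem rmodel_inverts (π : B ⥤ A) [π.Additive] {K L : CochainComplex.Plus B} (f : K ⟶ L)
    (hf : QuasiIso f.hom) : IsIso ((RD π).map f) := by
  have h0 : IsIso (DerivedCategory.Qh.map
      ((HomotopyCategory.quotient B (ComplexShape.up ℤ)).map f.hom)) :=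
    (NatIso.isIso_map_iff (DerivedCategory.quotientCompQhIso B) f.hom).2
      (inferInstanceAs (IsIso (DerivedCategory.Q.map f.hom)))
  have h1 : IsIso (DerivedCategory.Plus.ι.map (DerivedCategory.Plus.Q.map f)) := h0
  have h2 : IsIso (DerivedCategory.Plus.Q.map f) :=
    isIso_of_fully_faithful DerivedCategory.Plus.ι _
  exact inferInstanceAs (IsIso (DerivedCategory.Plus.ι.map
    (π.rightDerivedFunctorPlus.map (DerivedCategory.Plus.Q.map f))))

end

section

omit [HasDerivedCategory A] [EnoughInjectives A] [Finite P]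

theorem rmodel_nat (X : PCx P) {W W' : P ⥤ Cx A} (α : W ⟶ W') (x y : X.G) :
    X.tw W x y ≫ mapU (α.app (X.lab y)) = mapU (α.app (X.lab x)) ≫ X.tw W' x y := by
  by_cases h : X.D x y = 0
  · simp [PCx.tw, h]
  · have a := (X.supp x y h).1
    rw [Linear.smul_comp, Linear.comp_smul, ← mapU_comp, ← mapU_comp, wmap_of_le W a,
      wmap_of_le W' a, α.naturality]

theorem rmodel_tot_map (X : PCx P) {W W' : P ⥤ Cx A} (α : W ⟶ W')
    (hα : ∀ u, QuasiIso (α.app u)) {K K' : Cx A} (s : X.Str W K) (s' : X.Str W' K') :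
    ∃ Φ : K ⟶ K', QuasiIso Φ := by
  classical
  let f : U K ⟶ U K' := ∑ x, s.pr x ≫ mapU (α.app (X.lab x)) ≫ s'.inc x
  have hf : Hg 0 f := Hg.sum _ fun x _ =>
    (s.hpr x).comp ((hg_mapU _).comp (s'.hinc x) rfl) (by omega)
  have hd : dl f = 0 := by
    have e : ∀ x, dl (s.pr x ≫ mapU (α.app (X.lab x)) ≫ s'.inc x) =
        ∑ y, s.pr y ≫ mapU (α.app (X.lab y)) ≫ X.tw W' y x ≫ s'.inc x +
          ∑ y, s.pr x ≫ mapU (α.app (X.lab x)) ≫ X.tw W' x y ≫ s'.inc y := by
      intro x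
      rw [dl_comp, dl_comp, dl_mapU, zero_comp, zero_add, s.dl_pr, s'.dl_inc,
        Preadditive.sum_comp, Preadditive.comp_sum, Preadditive.comp_sum]
      congr 1
      refine Finset.sum_congr rfl fun y _ => ?_
      rw [Category.assoc, ← Category.assoc (X.tw W y x), rmodel_nat, Category.assoc]
    rw [dl_sum, Finset.sum_congr rfl fun x _ => e x, Finset.sum_add_distrib, Finset.sum_comm]
    exact add_self2 _
  have h1 : ∀ x, s.inc x ≫ f = mapU (α.app (X.lab x)) ≫ s'.inc x := by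
    intro x
    rw [Preadditive.comp_sum, Finset.sum_eq_single x]
    · rw [s.inc_pr_self_assoc]
    · intro b _ hb
      rw [s.inc_pr_ne_assoc x b hb.symm, zero_comp]
    · simp
  refine ⟨homU f hf hd, quasiIso_of_tri s s' (X.isTw W) (X.isTw W') _
    (fun x => α.app (X.lab x)) (fun x => hα _) (fun x => ?_) (fun x y hxy h => ?_)⟩
  · rw [mapU_homU, ← Category.assoc, h1, Category.assoc, s'.inc_pr_self, Category.comp_id]
  · exfalso
    apply h
    rw [mapU_homU, ← Category.assoc, h1, Category.assoc, s'.inc_pr_ne x y hxy, comp_zero]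

end

section

omit [HasDerivedCategory A] [EnoughInjectives A] [HasDerivedCategory B] [EnoughInjectives B]
  [Finite P]

theorem rmodel_transport (π : B ⥤ A) [π.Additive] (X : PCx P) (I : P ⥤ Cx B) {K : Cx B}
    (s : X.Str I K) :
    Nonempty (X.Str (I ⋙ π.mapHomologicalComplex (ComplexShape.up ℤ))
      ((π.mapHomologicalComplex (ComplexShape.up ℤ)).obj K)) := by
  obtain ⟨a⟩ := dgAct_mapHomologicalComplex π
  obtain ⟨s'⟩ := TotStr.transport a X.D (fun x y => wmap I (X.lab x) (X.lab y))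
    (fun x y h => (X.supp x y h).2) s
  have e : (fun x y => X.D x y • mapU ((π.mapHomologicalComplex (ComplexShape.up ℤ)).map
      (wmap I (X.lab x) (X.lab y)))) =
      X.tw (I ⋙ π.mapHomologicalComplex (ComplexShape.up ℤ)) := by
    funext x y
    by_cases h : X.D x y = 0
    · simp [PCx.tw, h]
    · have a := (X.supp x y h).1
      rw [PCx.tw, wmap_of_le I a, wmap_of_le _ a]
      rfl
  rw [e] at s'
  exact ⟨s'⟩

end

theorem exists_model (π : B ⥤ A) [π.Additive] (X : PCx P) (W : P ⥤ CochainComplex.Plus B)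
    (K : CochainComplex.Plus B) (s : X.Str (W ⋙ CochainComplex.Plus.ι B) K.obj) :
    ∃ (J : P ⥤ Cx A) (K' : Cx A), (∀ u, (J.obj u).IsKInjective) ∧ Nonempty (X.Str J K') ∧
      Nonempty (W ⋙ RD π ≅ J ⋙ DerivedCategory.Q) ∧
      Nonempty ((RD π).obj K ≅ DerivedCategory.Q.obj K') := by
  obtain ⟨I, α, hα, hI, hinj⟩ := exists_diagram_resolution (W ⋙ CochainComplex.Plus.ι B)
    fun u => (W.obj u).property
  obtain ⟨KI, ⟨sI⟩⟩ := exists_tot (X.isTw I)
  obtain ⟨Φ, hΦ⟩ := rmodel_tot_map X α hα s sI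
  obtain ⟨η, hη⟩ := rmodel_unit π
  obtain ⟨sπ⟩ := rmodel_transport π X I sI
  obtain ⟨J, β, hβ, hJ, hJinj⟩ := exists_diagram_resolution
    (I ⋙ π.mapHomologicalComplex (ComplexShape.up ℤ)) fun u => by
      obtain ⟨a, ha⟩ := hI u
      exact ⟨a, inferInstanceAs (CochainComplex.IsStrictlyGE
        ((π.mapHomologicalComplex (ComplexShape.up ℤ)).obj (I.obj u)) a)⟩
  obtain ⟨K', ⟨s'⟩⟩ := exists_tot (X.isTw J)
  obtain ⟨Ψ, hΨ⟩ := rmodel_tot_map X β hβ sπ s'
  let I' : P ⥤ CochainComplex.Plus B := (CochainComplex.plus B).lift I hI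
  let α' : W ⟶ I' :=
    { app := fun u => ObjectProperty.homMk (α.app u)
      naturality := fun u v f => ObjectProperty.hom_ext _ (α.naturality f) }
  let KI' : CochainComplex.Plus B := ⟨KI, sI.exists_ge fun x => hI _⟩
  let Φ' : K ⟶ KI' := ObjectProperty.homMk Φ
  refine ⟨J, K', fun u => ?_, ⟨s'⟩, ?_, ?_⟩
  · obtain ⟨a, ha⟩ := hJ u
    have := hJinj u
    exact CochainComplex.isKInjective_of_injective _ a
  · have h1 : ∀ u, IsIso ((Functor.whiskerRight α' (RD π)).app u) := fun u =>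
      rmodel_inverts π (α'.app u) (hα u)
    have h2 : ∀ u, IsIso ((Functor.whiskerLeft I' η).app u) := fun u => hη (I'.obj u) (hinj u)
    have h3 : ∀ u, IsIso ((Functor.whiskerRight β DerivedCategory.Q).app u) := fun u =>
      have := hβ u
      inferInstanceAs (IsIso (DerivedCategory.Q.map (β.app u)))
    have := NatIso.isIso_of_isIso_app (Functor.whiskerRight α' (RD π))
    have := NatIso.isIso_of_isIso_app (Functor.whiskerLeft I' η)
    have := NatIso.isIso_of_isIso_app (Functor.whiskerRight β DerivedCategory.Q)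
    exact ⟨asIso (Functor.whiskerRight α' (RD π)) ≪≫ (asIso (Functor.whiskerLeft I' η)).symm ≪≫
      asIso (Functor.whiskerRight β DerivedCategory.Q)⟩
  · have h1 := rmodel_inverts π Φ' hΦ
    have h2 := hη KI' (sI.injective fun x n => hinj _ n)
    exact ⟨asIso ((RD π).map Φ') ≪≫ (asIso (η.app KI')).symm ≪≫
      asIso (DerivedCategory.Q.map Ψ)⟩

end Pool.Agent.Work.MP_910138_ag
end

-- merged part: Pool.Agent.Work.MP_910138_ag.CS
section
/-! A commutation with the shift by one extends to all shifts. -/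

open CategoryTheory Limits Pretriangulated

namespace Pool.Agent.Work.MP_910138_ag

universe v u v' u'

section cs

variable {C : Type u} {D : Type u'} [Category.{v} C] [Category.{v'} D]
    [HasShift C ℤ] [HasShift D ℤ]

/-- commutation isomorphisms of `F` with a shift, with the degree recorded -/
structure cs_M (F : C ⥤ D) where
  deg : ℤ
  iso : shiftFunctor C deg ⋙ F ≅ F ⋙ shiftFunctor D deg

/-- transport of a commutation isomorphism along an equality of degrees -/
def cs_cast {F : C ⥤ D} {a b : ℤ} (h : a = b)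
    (x : shiftFunctor C a ⋙ F ≅ F ⋙ shiftFunctor D a) :
    shiftFunctor C b ⋙ F ≅ F ⋙ shiftFunctor D b := h ▸ x

theorem cs_ext {F : C ⥤ D} {x y : cs_M F} (h : x.deg = y.deg)
    (h2 : cs_cast h x.iso = y.iso) : x = y := by
  obtain ⟨a, x⟩ := x
  obtain ⟨b, y⟩ := y
  dsimp only at h h2
  subst h
  dsimp only [cs_cast] at h2
  subst h2
  rfl

theorem cs_cast_isoAdd' {F : C ⥤ D} {a b c c' : ℤ} (h : a + b = c) (h' : c = c')
    (x : shiftFunctor C a ⋙ F ≅ F ⋙ shiftFunctor D a)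
    (y : shiftFunctor C b ⋙ F ≅ F ⋙ shiftFunctor D b) :
    cs_cast h' (Functor.CommShift.isoAdd' h x y) = Functor.CommShift.isoAdd' (h.trans h') x y := by
  subst h'
  rfl

theorem cs_exists_inv {F : C ⥤ D} {a : ℤ}
    (x : shiftFunctor C a ⋙ F ≅ F ⋙ shiftFunctor D a) :
    ∃ y : shiftFunctor C (-a) ⋙ F ≅ F ⋙ shiftFunctor D (-a),
      Functor.CommShift.isoAdd' (add_neg_cancel a) x y = Functor.CommShift.isoZero F ℤ := by
  let W := (Functor.whiskeringLeft C C D).obj (shiftFunctor C a)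
  let φ : W.obj (shiftFunctor C (-a) ⋙ F) ≅ W.obj (F ⋙ shiftFunctor D (-a)) :=
    (Functor.associator _ _ _).symm ≪≫
      (Functor.isoWhiskerRight (shiftFunctorAdd' C _ _ _ (add_neg_cancel a)) F).symm ≪≫
      Functor.CommShift.isoZero F ℤ ≪≫
      Functor.isoWhiskerLeft _ (shiftFunctorAdd' D _ _ _ (add_neg_cancel a)) ≪≫
      (Functor.associator _ _ _).symm ≪≫ (Functor.isoWhiskerRight x _).symm ≪≫
      Functor.associator _ _ _
  refine ⟨W.preimageIso φ, ?_⟩
  have hφ : Functor.isoWhiskerLeft (shiftFunctor C a) (W.preimageIso φ) = φ := by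
    ext1
    exact W.map_preimage φ.hom
  unfold Functor.CommShift.isoAdd'
  rw [hφ]
  ext X
  simp [φ, W]

noncomputable instance cs_mul (F : C ⥤ D) : Mul (cs_M F) :=
  ⟨fun x y => ⟨x.deg + y.deg, Functor.CommShift.isoAdd' rfl x.iso y.iso⟩⟩

noncomputable instance cs_one (F : C ⥤ D) : One (cs_M F) :=
  ⟨⟨0, Functor.CommShift.isoZero F ℤ⟩⟩

noncomputable instance cs_inv (F : C ⥤ D) : Inv (cs_M F) :=
  ⟨fun x => ⟨-x.deg, (cs_exists_inv x.iso).choose⟩⟩

noncomputable instance cs_group (F : C ⥤ D) : Group (cs_M F) :=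
  Group.ofRightAxioms
    (fun a b c => cs_ext (add_assoc a.deg b.deg c.deg) (by
      have h := Functor.CommShift.isoAdd'_assoc a.iso b.iso c.iso rfl rfl
        (add_assoc a.deg b.deg c.deg)
      exact (cs_cast_isoAdd' rfl _ _ _).trans h))
    (fun a => cs_ext (add_zero a.deg)
      ((cs_cast_isoAdd' rfl _ _ _).trans (Functor.CommShift.isoAdd'_isoZero a.iso)))
    (fun a => cs_ext (add_neg_cancel a.deg)
      ((cs_cast_isoAdd' rfl _ _ _).trans (cs_exists_inv a.iso).choose_spec))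

/-- the degree as a homomorphism -/
noncomputable def cs_deg (F : C ⥤ D) : cs_M F →* Multiplicative ℤ where
  toFun x := Multiplicative.ofAdd x.deg
  map_one' := rfl
  map_mul' _ _ := rfl

theorem cs_deg_zpow {F : C ⥤ D} (x : cs_M F) (hx : x.deg = 1) (n : ℤ) : (x ^ n).deg = n := by
  have h := map_zpow (cs_deg F) x n
  have h2 : Multiplicative.toAdd (cs_deg F (x ^ n)) = n • x.deg := by
    rw [h]; rfl
  rw [hx, smul_eq_mul, mul_one] at h2
  exact h2

theorem cs_cast_congr {F : C ⥤ D} {x y : cs_M F} (h : x = y) {b : ℤ} (hx : x.deg = b)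
    (hy : y.deg = b) : cs_cast hx x.iso = cs_cast hy y.iso := by
  subst h
  rfl

theorem cs_isoAdd'_cast {F : C ⥤ D} {a b a' b' c : ℤ} (ha : a = a') (hb : b = b')
    (h : a' + b' = c)
    (x : shiftFunctor C a ⋙ F ≅ F ⋙ shiftFunctor D a)
    (y : shiftFunctor C b ⋙ F ≅ F ⋙ shiftFunctor D b) :
    Functor.CommShift.isoAdd' h (cs_cast ha x) (cs_cast hb y) =
      Functor.CommShift.isoAdd' (by rw [ha, hb, h]) x y := by
  subst ha hb
  rfl

end cs

theorem commShift_of_iso {C : Type u} {D : Type u'} [Category.{v} C] [Category.{v'} D]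
    [HasShift C ℤ] [HasShift D ℤ] (F : C ⥤ D)
    (e : shiftFunctor C (1 : ℤ) ⋙ F ≅ F ⋙ shiftFunctor D (1 : ℤ)) :
    ∃ _ : F.CommShift ℤ, F.commShiftIso (1 : ℤ) = e := by
  let x : cs_M F := ⟨1, e⟩
  have hx : x.deg = 1 := rfl
  refine ⟨⟨fun n => cs_cast (cs_deg_zpow x hx n) (x ^ n).iso, ?_, fun a b => ?_⟩, ?_⟩
  · exact cs_cast_congr (zpow_zero x) _ rfl
  · have h : (x ^ a * x ^ b).deg = a + b := by
      rw [← zpow_add]; exact cs_deg_zpow x hx _
    refine (cs_cast_congr (zpow_add x a b) _ h).trans ?_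
    unfold Functor.CommShift.isoAdd
    rw [cs_isoAdd'_cast]
    exact cs_cast_isoAdd' rfl h _ _
  · exact cs_cast_congr (zpow_one x) _ rfl

end Pool.Agent.Work.MP_910138_ag
end

-- merged part: Pool.Agent.Work.MP_910138_ag.Exot
section
/-! Descent of a strict involution to an exact autoequivalence of the essential image. -/

open CategoryTheory Limits Pretriangulated

namespace Pool.Agent.Work.MP_910138_ag

universe v u v' u'

section aux

variable {T : Type*} [Category* T] {E : Type*} [Category* E] {E' : Type*} [Category* E']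

/-- Descent of a functor along a full essentially surjective functor. -/
theorem exot_descend (M : T ⥤ E) [M.Full] [M.EssSurj] (G : T ⥤ E')
    (h : ∀ (Z Z' : T) (f g : Z ⟶ Z'), M.map f = M.map g → G.map f = G.map g) :
    ∃ F : E ⥤ E', Nonempty (M ⋙ F ≅ G) := by
  let F : E ⥤ E' :=
    { obj := fun Y => G.obj (M.objPreimage Y)
      map := fun {Y Y'} φ => G.map (M.preimage
        ((M.objObjPreimageIso Y).hom ≫ φ ≫ (M.objObjPreimageIso Y').inv))
      map_id := fun Y => by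
        rw [← G.map_id]
        apply h
        simp
      map_comp := fun {Y Y' Y''} φ ψ => by
        rw [← G.map_comp]
        apply h
        simp }
  refine ⟨F, ⟨NatIso.ofComponents (fun Z =>
    { hom := G.map (M.preimage (M.objObjPreimageIso (M.obj Z)).hom)
      inv := G.map (M.preimage (M.objObjPreimageIso (M.obj Z)).inv)
      hom_inv_id := ?_
      inv_hom_id := ?_ }) ?_⟩⟩
  · change G.map _ ≫ G.map _ = 𝟙 (G.obj _)
    rw [← G.map_comp, ← G.map_id]
    apply h
    simp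
  · change G.map _ ≫ G.map _ = 𝟙 (G.obj _)
    rw [← G.map_comp, ← G.map_id]
    apply h
    simp
  · intro Z Z' f
    change G.map _ ≫ G.map _ = G.map _ ≫ G.map _
    rw [← G.map_comp, ← G.map_comp]
    apply h
    simp

/-- Descent of a natural isomorphism along a full essentially surjective functor. -/
theorem exot_descend_iso (M : T ⥤ E) [M.Full] [M.EssSurj] (F₁ F₂ : E ⥤ E')
    (a : ∀ Z : T, F₁.obj (M.obj Z) ≅ F₂.obj (M.obj Z))
    (ha : ∀ (Z Z' : T) (f : Z ⟶ Z'),
      F₁.map (M.map f) ≫ (a Z').hom = (a Z).hom ≫ F₂.map (M.map f)) :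
    ∃ β : F₁ ≅ F₂, ∀ Z, β.hom.app (M.obj Z) = (a Z).hom := by
  have ha' : ∀ (Z Z' : T) (φ : M.obj Z ⟶ M.obj Z'),
      F₁.map φ ≫ (a Z').hom = (a Z).hom ≫ F₂.map φ := by
    intro Z Z' φ
    obtain ⟨f, rfl⟩ := M.map_surjective φ
    exact ha Z Z' f
  refine ⟨NatIso.ofComponents (fun Y => F₁.mapIso (M.objObjPreimageIso Y).symm ≪≫
    a (M.objPreimage Y) ≪≫ F₂.mapIso (M.objObjPreimageIso Y)) ?_, ?_⟩
  · intro Y Y' φ
    have h := ha' _ _ ((M.objObjPreimageIso Y).hom ≫ φ ≫ (M.objObjPreimageIso Y').inv)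
    simp only [Iso.trans_hom, Functor.mapIso_hom, Iso.symm_hom, Category.assoc]
    have e1 : F₁.map φ ≫ F₁.map (M.objObjPreimageIso Y').inv =
        F₁.map (M.objObjPreimageIso Y).inv ≫
          F₁.map ((M.objObjPreimageIso Y).hom ≫ φ ≫ (M.objObjPreimageIso Y').inv) := by
      rw [← F₁.map_comp, ← F₁.map_comp]
      simp
    rw [← Category.assoc, e1, Category.assoc, ← Category.assoc (F₁.map (_ ≫ _)), h,
      Category.assoc, ← F₂.map_comp, ← F₂.map_comp]
    simp
  · intro Z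
    have h := ha' _ _ (M.objObjPreimageIso (M.obj Z)).inv
    simp only [NatIso.ofComponents_hom_app, Iso.trans_hom, Functor.mapIso_hom, Iso.symm_hom]
    rw [← Category.assoc, h, Category.assoc, ← F₂.map_comp]
    simp

theorem exot_lift (M : T ⥤ E) [M.Full] {Z Z' : T} {Y Y' : E} (φ : M.obj Z ≅ Y)
    (φ' : M.obj Z' ≅ Y') (g : Y ⟶ Y') : ∃ f : Z ⟶ Z', M.map f ≫ φ'.hom = φ.hom ≫ g :=
  ⟨M.preimage (φ.hom ≫ g ≫ φ'.inv), by simp⟩

end aux

section abstr

variable {T : Type u} [Category.{v} T] {E : Type u'} [Category.{v'} E] [HasZeroObject E]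
  [Preadditive E] [HasShift E ℤ] [∀ n : ℤ, (shiftFunctor E n).Additive] [Pretriangulated E]

theorem exot_abstract (M : T ⥤ E) [M.Full] [M.EssSurj] (sh S : T ⥤ T)
    (e : sh ⋙ M ≅ M ⋙ shiftFunctor E (1 : ℤ)) (σ : sh ⋙ S ≅ S ⋙ sh) (ss : S ⋙ S ≅ 𝟭 T)
    (hS : ∀ (Z Z' : T) (f g : Z ⟶ Z'), M.map f = M.map g → M.map (S.map f) = M.map (S.map g))
    (cone : ∀ (Z Z' : T) (f : Z ⟶ Z'), ∃ (C : T) (i : Z' ⟶ C) (p : C ⟶ sh.obj Z),
      Triangle.mk (M.map f) (M.map i) (M.map p ≫ e.hom.app Z) ∈ distTriang E ∧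
      Triangle.mk (M.map (S.map f)) (M.map (S.map i))
        (M.map (S.map p ≫ σ.hom.app Z) ≫ e.hom.app (S.obj Z)) ∈ distTriang E) :
    ∃ (F : E ⥤ E) (_ : F.CommShift ℤ),
      F.IsTriangulated ∧ F.IsEquivalence ∧ Nonempty (M ⋙ F ≅ S ⋙ M) := by
  obtain ⟨F, ⟨α⟩⟩ := exot_descend M (S ⋙ M) hS
  obtain ⟨a, ha⟩ : ∃ a : ∀ Z : T, F.obj (M.obj Z) ≅ M.obj (S.obj Z),
      ∀ (Z Z' : T) (f : Z ⟶ Z'),
        F.map (M.map f) ≫ (a Z').hom = (a Z).hom ≫ M.map (S.map f) :=
    ⟨fun Z => α.app Z, fun Z Z' f => α.hom.naturality f⟩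
  obtain ⟨ε, hε, hεe⟩ : ∃ ε : ∀ Z : T, M.obj (sh.obj Z) ≅ (M.obj Z)⟦(1 : ℤ)⟧,
      (∀ (Z Z' : T) (f : Z ⟶ Z'),
        M.map (sh.map f) ≫ (ε Z').hom = (ε Z).hom ≫ (M.map f)⟦(1 : ℤ)⟧') ∧
      ∀ Z, e.hom.app Z = (ε Z).hom :=
    ⟨fun Z => e.app Z, fun Z Z' f => e.hom.naturality f, fun _ => rfl⟩
  obtain ⟨τ, hτ, hτe⟩ : ∃ τ : ∀ Z : T, S.obj (sh.obj Z) ≅ sh.obj (S.obj Z),
      (∀ (Z Z' : T) (f : Z ⟶ Z'),
        S.map (sh.map f) ≫ (τ Z').hom = (τ Z).hom ≫ sh.map (S.map f)) ∧
      ∀ Z, σ.hom.app Z = (τ Z).hom :=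
    ⟨fun Z => σ.app Z, fun Z Z' f => σ.hom.naturality f, fun _ => rfl⟩
  obtain ⟨s, hs⟩ : ∃ s : ∀ Z : T, S.obj (S.obj Z) ≅ Z,
      ∀ (Z Z' : T) (f : Z ⟶ Z'), S.map (S.map f) ≫ (s Z').hom = (s Z).hom ≫ f :=
    ⟨fun Z => ss.app Z, fun Z Z' f => ss.hom.naturality f⟩
  obtain ⟨β, -⟩ := exot_descend_iso M (F ⋙ F) (𝟭 E)
    (fun Z => F.mapIso (a Z) ≪≫ a (S.obj Z) ≪≫ M.mapIso (s Z)) (by
      intro Z Z' f
      change F.map (F.map (M.map f)) ≫ F.map (a Z').hom ≫ (a (S.obj Z')).hom ≫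
          M.map (s Z').hom =
        (F.map (a Z).hom ≫ (a (S.obj Z)).hom ≫ M.map (s Z).hom) ≫ M.map f
      rw [← Category.assoc, ← F.map_comp, ha, F.map_comp, Category.assoc,
        ← Category.assoc (F.map (M.map _)), ha, Category.assoc, ← M.map_comp, hs, M.map_comp]
      simp only [Category.assoc])
  obtain ⟨γ, hγ⟩ := exot_descend_iso M (shiftFunctor E (1 : ℤ) ⋙ F) (F ⋙ shiftFunctor E (1 : ℤ))
    (fun Z => F.mapIso (ε Z).symm ≪≫ a (sh.obj Z) ≪≫ M.mapIso (τ Z) ≪≫ ε (S.obj Z) ≪≫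
      (shiftFunctor E (1 : ℤ)).mapIso (a Z).symm) (by
      intro Z Z' f
      change F.map ((M.map f)⟦(1 : ℤ)⟧') ≫ F.map (ε Z').inv ≫ (a (sh.obj Z')).hom ≫
          M.map (τ Z').hom ≫ (ε (S.obj Z')).hom ≫ ((a Z').inv)⟦(1 : ℤ)⟧' =
        (F.map (ε Z).inv ≫ (a (sh.obj Z)).hom ≫
          M.map (τ Z).hom ≫ (ε (S.obj Z)).hom ≫ ((a Z).inv)⟦(1 : ℤ)⟧') ≫
            (F.map (M.map f))⟦(1 : ℤ)⟧'
      have h1 : (M.map f)⟦(1 : ℤ)⟧' ≫ (ε Z').inv = (ε Z).inv ≫ M.map (sh.map f) := by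
        rw [Iso.comp_inv_eq, Category.assoc, hε, Iso.inv_hom_id_assoc]
      have h2 : M.map (S.map f) ≫ (a Z').inv = (a Z).inv ≫ F.map (M.map f) := by
        rw [Iso.comp_inv_eq, Category.assoc, ha, Iso.inv_hom_id_assoc]
      rw [← Category.assoc, ← F.map_comp, h1, F.map_comp, Category.assoc,
        ← Category.assoc (F.map (M.map _)), ha, Category.assoc,
        ← Category.assoc (M.map (S.map _)), ← M.map_comp, hτ, M.map_comp, Category.assoc,
        ← Category.assoc (M.map (sh.map _)), hε, Category.assoc, ← Functor.map_comp, h2,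
        Functor.map_comp]
      simp only [Category.assoc])
  obtain ⟨inst, hinst⟩ := commShift_of_iso F γ
  refine ⟨F, inst, ⟨?_⟩, Functor.IsEquivalence.mk' F β.symm β, ⟨α⟩⟩
  intro T₀ hT₀
  obtain ⟨Z, ⟨φ⟩⟩ := Functor.EssSurj.mem_essImage M T₀.obj₁
  obtain ⟨Z', ⟨φ'⟩⟩ := Functor.EssSurj.mem_essImage M T₀.obj₂
  obtain ⟨f, hf⟩ := exot_lift M φ φ' T₀.mor₁
  obtain ⟨C, i, p, h1, h2⟩ := cone Z Z' f
  have iso1 := isoTriangleOfIso₁₂ _ _ h1 hT₀ φ φ' hf
  refine isomorphic_distinguished _ ?_ _ (F.mapTriangle.mapIso iso1).symm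
  refine isomorphic_distinguished _ h2 _ (Triangle.isoMk _ _ (a Z) (a Z') (a C) (ha _ _ f)
    (ha _ _ i) ?_)
  have h3 : (F.commShiftIso (1 : ℤ)).hom.app (M.obj Z) =
      F.map (ε Z).inv ≫ (a (sh.obj Z)).hom ≫
          M.map (τ Z).hom ≫ (ε (S.obj Z)).hom ≫ ((a Z).inv)⟦(1 : ℤ)⟧' := by
    rw [hinst]
    exact hγ Z
  change (F.map (M.map p ≫ e.hom.app Z) ≫ (F.commShiftIso (1 : ℤ)).hom.app (M.obj Z)) ≫
      ((a Z).hom)⟦(1 : ℤ)⟧' =
    (a C).hom ≫ M.map (S.map p ≫ σ.hom.app Z) ≫ e.hom.app (S.obj Z)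
  rw [h3, hεe, hεe, hτe]
  have h4 : F.map (M.map p ≫ (ε Z).hom) ≫ F.map (ε Z).inv = F.map (M.map p) := by
    rw [← F.map_comp]
    simp
  have h5 : ((a Z).inv)⟦(1 : ℤ)⟧' ≫ ((a Z).hom)⟦(1 : ℤ)⟧' = 𝟙 _ := by
    rw [← Functor.map_comp]
    simp
  have h6 : (F.map (M.map p ≫ (ε Z).hom) ≫ F.map (ε Z).inv ≫ (a (sh.obj Z)).hom ≫
          M.map (τ Z).hom ≫ (ε (S.obj Z)).hom ≫ ((a Z).inv)⟦(1 : ℤ)⟧') ≫
        ((a Z).hom)⟦(1 : ℤ)⟧' =
      (a C).hom ≫ M.map (S.map p ≫ (τ Z).hom) ≫ (ε (S.obj Z)).hom := by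
    simp only [Category.assoc]
    rw [h5, Category.comp_id, ← Category.assoc, h4, ← Category.assoc, ha, M.map_comp]
    simp only [Category.assoc]
  exact h6

end abstr

variable {T : Type u} [Category.{v} T] {D : Type u'} [Category.{v'} D] [HasZeroObject D]
  [Preadditive D] [HasShift D ℤ] [∀ n : ℤ, (shiftFunctor D n).Additive] [Pretriangulated D]

theorem essImage_isTriangulated (L : T ⥤ D) [L.Full] (sh : T ⥤ T) [sh.EssSurj]
    (e : sh ⋙ L ≅ L ⋙ shiftFunctor D (1 : ℤ)) (Z₀ : T) (h₀ : IsZero (L.obj Z₀))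
    (cone : ∀ (Z Z' : T) (f : Z ⟶ Z'), ∃ (C : T) (i : Z' ⟶ C) (p : C ⟶ sh.obj Z),
      Triangle.mk (L.map f) (L.map i) (L.map p ≫ e.hom.app Z) ∈ distTriang D) :
    L.essImage.IsTriangulated := by
  have up : ∀ Y : D, L.essImage Y → L.essImage (Y⟦(1 : ℤ)⟧) := by
    rintro Y ⟨Z, ⟨φ⟩⟩
    exact ⟨sh.obj Z, ⟨e.app Z ≪≫ (shiftFunctor D (1 : ℤ)).mapIso φ⟩⟩
  have down : ∀ Y : D, L.essImage Y → L.essImage (Y⟦(-1 : ℤ)⟧) := by
    rintro Y ⟨Z, ⟨φ⟩⟩
    refine ⟨sh.objPreimage Z, ⟨(shiftShiftNeg (L.obj (sh.objPreimage Z)) (1 : ℤ)).symm ≪≫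
      (shiftFunctor D (-1 : ℤ)).mapIso ((e.app (sh.objPreimage Z)).symm ≪≫
        L.mapIso (sh.objObjPreimageIso Z) ≪≫ φ)⟩⟩
  have all : ∀ (n : ℤ) (Y : D), L.essImage Y → L.essImage (Y⟦n⟧) := by
    intro n
    induction n using Int.induction_on with
    | zero =>
      intro Y hY
      exact L.essImage.prop_of_iso ((shiftFunctorZero D ℤ).symm.app Y) hY
    | succ n ih =>
      intro Y hY
      exact L.essImage.prop_of_iso ((shiftFunctorAdd D (n : ℤ) 1).symm.app Y) (up _ (ih Y hY))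
    | pred n ih =>
      intro Y hY
      exact L.essImage.prop_of_iso
        ((shiftFunctorAdd' D (-(n : ℤ)) (-1) (-(n : ℤ) - 1) (by ring)).symm.app Y)
        (down _ (ih Y hY))
  have hst : L.essImage.IsStableUnderShift ℤ := ⟨fun n => ⟨fun Y hY => all n Y hY⟩⟩
  have h3 : L.essImage.IsTriangulatedClosed₃ := ObjectProperty.IsTriangulatedClosed₃.mk' (by
    rintro T₀ hT₀ ⟨Z, ⟨φ⟩⟩ ⟨Z', ⟨φ'⟩⟩
    obtain ⟨f, hf⟩ := exot_lift L φ φ' T₀.mor₁
    obtain ⟨C, i, p, h⟩ := cone Z Z' f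
    exact ⟨C, ⟨Triangle.π₃.mapIso (isoTriangleOfIso₁₂ _ _ h hT₀ φ φ' hf)⟩⟩)
  exact
    { exists_zero := ⟨L.obj Z₀, h₀, ⟨Z₀, ⟨Iso.refl _⟩⟩⟩
      toIsStableUnderShift := hst
      toIsTriangulatedClosed₂ := ObjectProperty.IsTriangulatedClosed₂.of_isTriangulatedClosed₃ }

theorem exists_exotic (L : T ⥤ D) [L.Full] [L.essImage.IsTriangulated] (sh S : T ⥤ T)
    (e : sh ⋙ L ≅ L ⋙ shiftFunctor D (1 : ℤ)) (σ : sh ⋙ S ≅ S ⋙ sh) (ss : S ⋙ S ≅ 𝟭 T)
    (hS : ∀ (Z Z' : T) (f g : Z ⟶ Z'), L.map f = L.map g → L.map (S.map f) = L.map (S.map g))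
    (cone : ∀ (Z Z' : T) (f : Z ⟶ Z'), ∃ (C : T) (i : Z' ⟶ C) (p : C ⟶ sh.obj Z),
      Triangle.mk (L.map f) (L.map i) (L.map p ≫ e.hom.app Z) ∈ distTriang D ∧
      Triangle.mk (L.map (S.map f)) (L.map (S.map i))
        (L.map (S.map p ≫ σ.hom.app Z) ≫ e.hom.app (S.obj Z)) ∈ distTriang D) :
    ∃ (F : L.essImage.FullSubcategory ⥤ L.essImage.FullSubcategory) (_ : F.CommShift ℤ),
      F.IsTriangulated ∧ F.IsEquivalence ∧ Nonempty (L.toEssImage ⋙ F ≅ S ⋙ L.toEssImage) := by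
  have hι : ∀ (Z Z' : T) (f : Z ⟶ Z'), L.essImage.ι.map (L.toEssImage.map f) = L.map f :=
    fun _ _ _ => rfl
  obtain ⟨ε, hε⟩ : ∃ ε : ∀ Z : T, L.toEssImage.obj (sh.obj Z) ≅ (L.toEssImage.obj Z)⟦(1 : ℤ)⟧,
      ∀ Z, L.essImage.ι.map (ε Z).hom ≫
        (L.essImage.ι.commShiftIso (1 : ℤ)).hom.app (L.toEssImage.obj Z) = e.hom.app Z := by
    refine ⟨fun Z => L.essImage.fullyFaithfulι.preimageIso
      (e.app Z ≪≫ ((L.essImage.ι.commShiftIso (1 : ℤ)).app (L.toEssImage.obj Z)).symm), ?_⟩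
    intro Z
    have h : L.essImage.ι.map (L.essImage.fullyFaithfulι.preimageIso
        (X := L.toEssImage.obj (sh.obj Z)) (Y := (L.toEssImage.obj Z)⟦(1 : ℤ)⟧)
        (e.app Z ≪≫ ((L.essImage.ι.commShiftIso (1 : ℤ)).app (L.toEssImage.obj Z)).symm)).hom =
        e.hom.app Z ≫ (L.essImage.ι.commShiftIso (1 : ℤ)).inv.app (L.toEssImage.obj Z) :=
      L.essImage.fullyFaithfulι.map_preimage _
    rw [h]
    exact (Category.assoc _ _ _).trans ((congrArg (e.hom.app Z ≫ ·)
      ((L.essImage.ι.commShiftIso (1 : ℤ)).inv_hom_id_app _)).trans (Category.comp_id _))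
  have hnat : ∀ (Z Z' : T) (f : Z ⟶ Z'), L.toEssImage.map (sh.map f) ≫ (ε Z').hom =
      (ε Z).hom ≫ (L.toEssImage.map f)⟦(1 : ℤ)⟧' := by
    intro Z Z' f
    apply L.essImage.ι.map_injective
    rw [← cancel_mono ((L.essImage.ι.commShiftIso (1 : ℤ)).hom.app (L.toEssImage.obj Z')),
      Functor.map_comp, Functor.map_comp, Category.assoc, Category.assoc, hε,
      Functor.commShiftIso_hom_naturality, ← Category.assoc, hε]
    exact e.hom.naturality f
  have htri : ∀ (Z Z' C : T) (f : Z ⟶ Z') (i : Z' ⟶ C) (p : C ⟶ sh.obj Z),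
      Triangle.mk (L.map f) (L.map i) (L.map p ≫ e.hom.app Z) ∈ distTriang D →
      Triangle.mk (L.toEssImage.map f) (L.toEssImage.map i) (L.toEssImage.map p ≫ (ε Z).hom) ∈
        distTriang L.essImage.FullSubcategory := by
    intro Z Z' C f i p h
    have h' : L.essImage.ι.map (L.toEssImage.map p ≫ (ε Z).hom) ≫
        (L.essImage.ι.commShiftIso (1 : ℤ)).hom.app (L.toEssImage.obj Z) =
        L.map p ≫ e.hom.app Z := by
      rw [Functor.map_comp, Category.assoc, hε]
      rfl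
    change Triangle.mk (L.map f) (L.map i) (L.essImage.ι.map (L.toEssImage.map p ≫ (ε Z).hom) ≫
        (L.essImage.ι.commShiftIso (1 : ℤ)).hom.app (L.toEssImage.obj Z)) ∈ distTriang D
    rw [h']
    exact h
  refine exot_abstract L.toEssImage sh S
    (NatIso.ofComponents (fun Z => ε Z) (fun f => hnat _ _ f)) σ ss ?_ ?_
  · intro Z Z' f g hfg
    apply L.essImage.ι.map_injective
    rw [hι, hι]
    apply hS
    rw [← hι, ← hι, hfg]
  · intro Z Z' f
    obtain ⟨C, i, p, h1, h2⟩ := cone Z Z' f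
    exact ⟨C, i, p, htri _ _ _ _ _ _ h1, htri _ _ _ _ _ _ h2⟩

end Pool.Agent.Work.MP_910138_ag
end
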