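import Pool.Agent.Work.MP_910138_ag.Exot

/-! The test object built from the Fano plane. -/

open CategoryTheory

namespace Pool.Agent.Work.MP_910138_ag

/-- the point `i` lies on the line `j` -/
def onLine (i j : Fin 7) : Bool := i = j || i = j + 1 || i = j + 3

/-- the differential: level `0` to level `1` by incidence, level `1` to level `2` by non-incidence -/
def fanoD (x y : Fin 3 × Fin 7) : Bool :=
  (x.1 = 0 && y.1 = 1 && onLine x.2 y.2) || (x.1 = 1 && y.1 = 2 && !onLine y.2 x.2)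

/-- the order relation; `none` is the top element -/
def pfLe : Option (Fin 3 × Fin 7) → Option (Fin 3 × Fin 7) → Bool
  | _, none => true
  | none, some _ => false
  | some x, some y => x = y || fanoD x y || (x.1 = 0 && y.1 = 2)

/-- the poset -/
def PF : Type := Option (Fin 3 × Fin 7)

instance : Fintype PF := inferInstanceAs (Fintype (Option (Fin 3 × Fin 7)))
instance : DecidableEq PF := inferInstanceAs (DecidableEq (Option (Fin 3 × Fin 7)))

theorem pfLe_refl : ∀ a : Option (Fin 3 × Fin 7), pfLe a a = true := by decide +kernel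

theorem pfLe_trans : ∀ a b c : Option (Fin 3 × Fin 7),
    pfLe a b = true → pfLe b c = true → pfLe a c = true := by decide +kernel

theorem pfLe_antisymm : ∀ a b : Option (Fin 3 × Fin 7),
    pfLe a b = true → pfLe b a = true → a = b := by decide +kernel

instance : PartialOrder PF where
  le a b := pfLe a b = true
  le_refl := pfLe_refl
  le_trans := pfLe_trans
  le_antisymm := pfLe_antisymm

instance : OrderTop PF where
  top := none
  le_top a := by
    change pfLe a none = true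
    rfl

/-- the integral matrix of the differential -/
def fanoM : Matrix (Fin 3 × Fin 7) (Fin 3 × Fin 7) ℤ :=
  Matrix.of fun x y => if fanoD x y = true then 1 else 0

theorem fanoM_supp : ∀ x y : Fin 3 × Fin 7, fanoD x y = true →
    pfLe (some x) (some y) = true ∧ ((y.1 : ℕ) : ℤ) = ((x.1 : ℕ) : ℤ) + 1 := by decide +kernel

theorem fano_sq : ∀ x z : Fin 3 × Fin 7,
    ∑ y : Fin 3 × Fin 7, red fanoM x y * red fanoM y z = 0 := by decide +kernel

theorem fanoM_sq : red fanoM * red fanoM = 0 := by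
  ext x z
  rw [Matrix.mul_apply]
  exact fano_sq x z

/-- the test object -/
def Z0 : Ob PF where
  G := Fin 3 × Fin 7
  lab x := some x
  isR _ := true
  deg x := ((x.1 : ℕ) : ℤ)
  D0 := fanoM
  D1 := 0
  s0 x y h := by
    have h' : fanoD x y = true := by
      by_contra h'
      exact h (if_neg h')
    exact ⟨(fanoM_supp x y h').1, id, (fanoM_supp x y h').2⟩
  s1 := S1.zero
  sq := Prod.ext fanoM_sq (by
    change red fanoM * 0 + cR _ (0 * red fanoM) = 0
    rw [Matrix.mul_zero, Matrix.zero_mul, cR_zero, add_zero])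

/-- the weights of the functional -/
def fanoW (x z : Fin 3 × Fin 7) : ZMod 2 :=
  if x.1 = 0 ∧ z.1 = 2 ∧ (z.2 = x.2 + 1 ∨ z.2 = x.2 + 2 ∨ z.2 = x.2 + 4) then 1 else 0

theorem fano_low : ∀ x y : Fin 3 × Fin 7, pfLe (some x) (some y) = true →
    ((y.1 : ℕ) : ℤ) ≠ ((x.1 : ℕ) : ℤ) + -1 := by decide +kernel

theorem fano_diag : ∀ x y : Fin 3 × Fin 7, pfLe (some x) (some y) = true →
    ((y.1 : ℕ) : ℤ) = ((x.1 : ℕ) : ℤ) + 0 → x = y := by decide +kernel

theorem fano_c : ∑ x : Fin 3 × Fin 7, ∑ z : Fin 3 × Fin 7,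
    fanoW x z * (((∑ y : Fin 3 × Fin 7, fanoM x y * fanoM y z) / 2 : ℤ) : ZMod 2) = 1 := by
  decide +kernel

theorem fano_E : ∀ a b : Fin 3 × Fin 7, pfLe (some a) (some b) = true →
    ((b.1 : ℕ) : ℤ) = ((a.1 : ℕ) : ℤ) + 0 + 1 →
    ∑ x : Fin 3 × Fin 7, fanoW x b * red fanoM x a
      + ∑ z : Fin 3 × Fin 7, fanoW a z * red fanoM b z = 0 := by decide +kernel

theorem fano_lin (E : Matrix (Fin 3 × Fin 7) (Fin 3 × Fin 7) (ZMod 2))
    (hE : ∀ a b, E a b ≠ 0 → pfLe (some a) (some b) = true ∧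
      ((b.1 : ℕ) : ℤ) = ((a.1 : ℕ) : ℤ) + 0 + 1) :
    ∑ x, ∑ z, fanoW x z * (red fanoM * E + E * red fanoM) x z = 0 := by
  have e1 : ∑ x, ∑ z, fanoW x z * (red fanoM * E) x z
      = ∑ a, ∑ b, E a b * ∑ x, fanoW x b * red fanoM x a := by
    simp only [Matrix.mul_apply, Finset.mul_sum]
    calc _ = ∑ x, ∑ a, ∑ b, fanoW x b * (red fanoM x a * E a b) :=
          Finset.sum_congr rfl fun x _ => Finset.sum_comm
      _ = ∑ a, ∑ x, ∑ b, fanoW x b * (red fanoM x a * E a b) := Finset.sum_comm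
      _ = _ := Finset.sum_congr rfl fun a _ => Finset.sum_comm.trans
          (Finset.sum_congr rfl fun b _ => Finset.sum_congr rfl fun x _ => by ring)
  have e2 : ∑ x, ∑ z, fanoW x z * (E * red fanoM) x z
      = ∑ a, ∑ b, E a b * ∑ z, fanoW a z * red fanoM b z := by
    simp only [Matrix.mul_apply, Finset.mul_sum]
    exact Finset.sum_congr rfl fun a _ => Finset.sum_comm.trans
      (Finset.sum_congr rfl fun b _ => Finset.sum_congr rfl fun x _ => by ring)
  simp only [Matrix.add_apply, mul_add, Finset.sum_add_distrib]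
  rw [e1, e2, ← Finset.sum_add_distrib]
  refine Finset.sum_eq_zero fun a _ => ?_
  rw [← Finset.sum_add_distrib]
  refine Finset.sum_eq_zero fun b _ => ?_
  rw [← mul_add]
  by_cases h : E a b = 0
  · rw [h, zero_mul]
  · rw [fano_E a b (hE a b h).1 (hE a b h).2, mul_zero]

theorem fano_one {A B : Matrix (Fin 3 × Fin 7) (Fin 3 × Fin 7) (ZMod 2)}
    (hA : ∀ x y, A x y ≠ 0 → x = y) (h : A * B = 1) : A = 1 := by
  ext x y
  by_cases hxy : x = y
  · subst hxy
    have h1 : (A * B) x x = 1 := by rw [h, Matrix.one_apply_eq]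
    rw [Matrix.mul_apply, Finset.sum_eq_single x (fun y _ hy => by
      have : A x y = 0 := by
        by_contra h'
        exact hy (hA x y h').symm
      rw [this, zero_mul]) (fun hx => absurd (Finset.mem_univ x) hx)] at h1
    rw [Matrix.one_apply_eq]
    revert h1
    generalize A x x = a
    generalize B x x = b
    revert a b
    decide
  · rw [Matrix.one_apply_ne hxy]
    by_contra h'
    exact hxy (hA x y h')

/-- `cR` on the test object -/
def fanoC (M : Matrix (Fin 3 × Fin 7) (Fin 3 × Fin 7) (ZMod 2)) :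
    Matrix (Fin 3 × Fin 7) (Fin 3 × Fin 7) (ZMod 2) := cR Z0.toGen M

theorem fano_cR (M : Matrix (Fin 3 × Fin 7) (Fin 3 × Fin 7) (ZMod 2)) : fanoC M = M := by
  ext x y
  rfl

theorem fano_c' : ∑ x, ∑ z, fanoW x z * half (fanoM * fanoM) x z = 1 := by
  simp only [half, Matrix.map_apply, Matrix.mul_apply]
  exact fano_c

theorem fano_gen {P : Type} [Preorder P] (Z : Ob P) (hD : Z.D1 = 0)
    (hR : ∀ M : Matrix Z.G Z.G (ZMod 2), cR Z.toGen M = M)
    (hlow : ∀ k : Matrix Z.G Z.G (ZMod 2), S0 Z.toGen Z.toGen (-1) k → k = 0)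
    (hone : ∀ A B : Matrix Z.G Z.G (ZMod 2), S0 Z.toGen Z.toGen 0 A → A * B = 1 → A = 1)
    (f : Z ⟶ (sFun P).obj Z) (g : (sFun P).obj Z ⟶ Z) (H : Htp (f ≫ g) (𝟙 Z)) :
    ∃ E : Matrix Z.G Z.G (ZMod 2), S1 Z.toGen Z.toGen 0 E ∧
      red Z.D0 * E + E * red Z.D0 = half (Z.D0 * Z.D0) := by
  obtain ⟨⟨h0, h1⟩, ⟨hs0, -⟩, he⟩ := H
  let a : Matrix Z.G Z.G ℤ := f.f0
  let b : Matrix Z.G Z.G ℤ := g.f0
  let E : Matrix Z.G Z.G (ZMod 2) := f.f1
  have hk : h0 = 0 := hlow h0 hs0
  have e0 : red (a * b) + red 1 = red Z.D0 * h0 + h0 * red Z.D0 := congrArg Prod.fst he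
  rw [hk, Matrix.mul_zero, Matrix.zero_mul, add_zero, red_mul, red_one] at e0
  have e1 : red a * red b = 1 := by
    have := congrArg (· + (1 : Matrix Z.G Z.G (ZMod 2))) e0
    simpa only [add_assoc, mat_add_self, add_zero, zero_add] using this
  have e2 : red a = 1 := hone _ _ f.s0.red e1
  have e3 : red Z.D0 * E + cR Z.toGen (Z.D1 * red a)
      + (red a * (Z.D1 + cR Z.toGen (half (Z.D0 * Z.D0))) + cR Z.toGen (E * red Z.D0)) = 0 :=
    congrArg Prod.snd f.closed
  rw [hR, hR, hR, hD, e2, Matrix.zero_mul, Matrix.one_mul, add_zero, zero_add] at e3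
  refine ⟨E, f.s1, ?_⟩
  have := congrArg (· + half (Z.D0 * Z.D0)) e3
  simp only [zero_add] at this
  rw [← this, add_comm (half _) (E * _), ← add_assoc, add_assoc _ (half _), mat_add_self,
    add_zero]

theorem fano_no (E : Matrix (Fin 3 × Fin 7) (Fin 3 × Fin 7) (ZMod 2))
    (hE : ∀ a b, E a b ≠ 0 → pfLe (some a) (some b) = true ∧
      ((b.1 : ℕ) : ℤ) = ((a.1 : ℕ) : ℤ) + 0 + 1) :
    red fanoM * E + E * red fanoM ≠ half (fanoM * fanoM) := by
  intro e4
  have e5 := fano_lin E hE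
  rw [e4, fano_c'] at e5
  exact one_ne_zero e5

theorem fano_not_iso (f : Z0 ⟶ (sFun PF).obj Z0) (g : (sFun PF).obj Z0 ⟶ Z0) :
    ¬ Htp (f ≫ g) (𝟙 Z0) := by
  intro H
  obtain ⟨E, h1, h2⟩ := fano_gen Z0 rfl fano_cR
    (fun k hk => by
      ext x y
      by_contra h'
      exact fano_low x y (hk x y h').1 (hk x y h').2.2)
    (fun A B hA h => fano_one (A := A) (B := B)
      (fun x y h' => fano_diag x y (hA x y h').1 (hA x y h').2.2) h) f g H
  exact fano_no E (fun x y h' => ⟨(h1 x y h').1, (h1 x y h').2.2⟩) h2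

end Pool.Agent.Work.MP_910138_ag
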