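import Mathlib
import Pool.Agent.Work.MP_910138_ag.GDb
import Pool.Agent.Work.MP_910138_ag.Exot
import Pool.Agent.Work.MP_910138_ag.Fano

-- merged part: Pool.Agent.Work.MP_910138_ag.TFin
section
/-! Total finiteness of graded Hom groups in a pretriangulated category. -/

open CategoryTheory Limits Pretriangulated

namespace Pool.Agent.Work.MP_910138_ag

universe v u v' u'

variable (k : Type) [Field k] {D : Type u} [Category.{v} D] [HasZeroObject D]
  [Preadditive D] [HasShift D ℤ] [∀ n : ℤ, (shiftFunctor D n).Additive] [Pretriangulated D]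
  [Linear k D] [∀ n : ℤ, (shiftFunctor D n).Linear k]

/-- all graded Hom spaces are finite-dimensional and almost all vanish -/
def TotFin (X Y : D) : Prop :=
  (∀ n : ℤ, Module.Finite k (X ⟶ Y⟦n⟧)) ∧ {n : ℤ | ∃ f : X ⟶ Y⟦n⟧, f ≠ 0}.Finite

/-- `TotFin X` as a property of the target -/
def finFrom (X : D) : ObjectProperty D := fun Y => TotFin k X Y

/-- `TotFin · Y` as a property of the source -/
def finTo (Y : D) : ObjectProperty D := fun X => TotFin k X Y

section tfin_aux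

universe w

/-- finiteness of a graded family of vector spaces -/
def tfin_Fam (V : ℤ → Type w) [∀ n, AddCommGroup (V n)] [∀ n, Module k (V n)] : Prop :=
  (∀ n : ℤ, Module.Finite k (V n)) ∧ {n : ℤ | ∃ f : V n, f ≠ 0}.Finite

variable {k}

lemma tfin_of_surj {V W : ℤ → Type w} [∀ n, AddCommGroup (V n)] [∀ n, Module k (V n)]
    [∀ n, AddCommGroup (W n)] [∀ n, Module k (W n)] (a : ℤ)
    (h : ∀ n, ∃ f : V (n + a) →ₗ[k] W n, Function.Surjective f) (hV : tfin_Fam k V) :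
    tfin_Fam k W := by
  refine ⟨fun n => ?_, (hV.2.image fun m => m - a).subset ?_⟩
  · obtain ⟨f, hf⟩ := h n
    have := hV.1 (n + a)
    exact Module.Finite.of_surjective f hf
  · rintro n ⟨x, hx⟩
    obtain ⟨f, hf⟩ := h n
    obtain ⟨y, rfl⟩ := hf x
    exact ⟨n + a, ⟨y, fun hy => hx (by rw [hy, map_zero])⟩, by simp⟩

lemma tfin_of_exact {U V W : ℤ → Type w} [∀ n, AddCommGroup (U n)] [∀ n, Module k (U n)]
    [∀ n, AddCommGroup (V n)] [∀ n, Module k (V n)]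
    [∀ n, AddCommGroup (W n)] [∀ n, Module k (W n)]
    (h : ∀ n, ∃ (f : U n →ₗ[k] V n) (g : V n →ₗ[k] W n), ∀ x, g x = 0 → ∃ y, x = f y)
    (hU : tfin_Fam k U) (hW : tfin_Fam k W) : tfin_Fam k V := by
  refine ⟨fun n => ?_, (hU.2.union hW.2).subset ?_⟩
  · obtain ⟨f, g, hfg⟩ := h n
    have := hU.1 n
    have := hW.1 n
    refine ⟨Submodule.fg_of_fg_map_of_fg_inf_ker g (IsNoetherian.noetherian _) ?_⟩
    have hle : (⊤ ⊓ LinearMap.ker g : Submodule k (V n)) ≤ LinearMap.range f := fun x hx => by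
      obtain ⟨y, hy⟩ := hfg x hx.2
      exact ⟨y, hy.symm⟩
    have : Module.Finite k (⊤ ⊓ LinearMap.ker g : Submodule k (V n)) :=
      Module.Finite.of_injective (Submodule.inclusion hle) (Submodule.inclusion_injective hle)
    exact Module.Finite.iff_fg.1 this
  · rintro n ⟨x, hx⟩
    obtain ⟨f, g, hfg⟩ := h n
    by_cases hg : g x = 0
    · obtain ⟨y, rfl⟩ := hfg x hg
      exact Or.inl ⟨y, fun hy => hx (by rw [hy, map_zero])⟩
    · exact Or.inr ⟨g x, hg⟩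

lemma tfin_of_subsingleton {V : ℤ → Type w} [∀ n, AddCommGroup (V n)] [∀ n, Module k (V n)]
    (h : ∀ n (x : V n), x = 0) : tfin_Fam k V := by
  refine ⟨fun n => ?_, Set.finite_empty.subset ?_⟩
  · have : Subsingleton (V n) := ⟨fun x y => by rw [h n x, h n y]⟩
    infer_instance
  · rintro n ⟨x, hx⟩
    exact (hx (h n x)).elim

end tfin_aux

omit [HasZeroObject D] [∀ n : ℤ, (shiftFunctor D n).Additive] [Pretriangulated D]
  [∀ n : ℤ, (shiftFunctor D n).Linear k] in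
lemma tfin_iso {X X' Y Y' : D} (e : X ≅ X') (e' : Y ≅ Y') (h : TotFin k X Y) : TotFin k X' Y' :=
  tfin_of_surj (k := k) (V := fun n => X ⟶ Y⟦n⟧) (W := fun n => X' ⟶ Y'⟦n⟧) 0
    (fun n => ⟨(Linear.homCongr k e ((shiftFunctor D (n + 0)).mapIso e' ≪≫
      eqToIso (by rw [add_zero]))).toLinearMap, LinearEquiv.surjective _⟩) h

instance finFrom_closed (X : D) : (finFrom k X).IsClosedUnderIsomorphisms where
  of_iso e h := tfin_iso k (Iso.refl X) e h

instance finTo_closed (Y : D) : (finTo k Y).IsClosedUnderIsomorphisms where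
  of_iso e h := tfin_iso k e (Iso.refl Y) h

omit [HasZeroObject D] [∀ n : ℤ, (shiftFunctor D n).Additive] [Pretriangulated D]
  [∀ n : ℤ, (shiftFunctor D n).Linear k] in
lemma tfin_shift_right {X Y : D} (a : ℤ) (h : TotFin k X Y) : TotFin k X (Y⟦a⟧) :=
  tfin_of_surj (k := k) (V := fun n => X ⟶ Y⟦n⟧) (W := fun n => X ⟶ (Y⟦a⟧)⟦n⟧) a
    (fun n => ⟨(Linear.homCongr k (Iso.refl X)
      ((shiftFunctorAdd' D a n (n + a) (add_comm a n)).app Y)).toLinearMap,
      LinearEquiv.surjective _⟩) h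

omit [HasZeroObject D] [Pretriangulated D] in
lemma tfin_shift_left {X Y : D} (a : ℤ) (h : TotFin k X Y) : TotFin k (X⟦a⟧) Y :=
  tfin_of_surj (k := k) (V := fun n => X ⟶ Y⟦n⟧) (W := fun n => X⟦a⟧ ⟶ Y⟦n⟧) (-a)
    (fun n => by
      let e : (X⟦a⟧ ⟶ (Y⟦n + -a⟧)⟦a⟧) ≃ₗ[k] (X⟦a⟧ ⟶ Y⟦n⟧) :=
        Linear.homCongr k (Iso.refl (X⟦a⟧))
          ((shiftFunctorAdd' D (n + -a) a n (neg_add_cancel_right n a)).app Y).symm
      refine ⟨e.toLinearMap ∘ₗ (shiftFunctor D a).mapLinearMap k, fun y => ?_⟩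
      obtain ⟨z, rfl⟩ := e.surjective y
      obtain ⟨x, rfl⟩ := (shiftFunctor D a).map_surjective z
      exact ⟨x, rfl⟩) h

instance finFrom_triang (X : D) : (finFrom k X).IsTriangulated where
  exists_zero := by
    obtain ⟨Z, hZ⟩ := HasZeroObject.zero (C := D)
    exact ⟨Z, hZ, tfin_of_subsingleton (k := k) (V := fun n => X ⟶ Z⟦n⟧) fun n x =>
      ((shiftFunctor D n).map_isZero hZ).eq_of_tgt _ _⟩
  isStableUnderShiftBy a := ⟨fun _ h => tfin_shift_right k a h⟩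
  ext₂' T hT h₁ h₃ := (finFrom k X).le_isoClosure _
    (tfin_of_exact (k := k) (U := fun n => X ⟶ T.obj₁⟦n⟧) (V := fun n => X ⟶ T.obj₂⟦n⟧)
      (W := fun n => X ⟶ T.obj₃⟦n⟧)
      (fun n => ⟨Linear.rightComp k X ((Triangle.shiftFunctor D n).obj T).mor₁,
        Linear.rightComp k X ((Triangle.shiftFunctor D n).obj T).mor₂, fun x hx =>
          Triangle.coyoneda_exact₂ _ (Triangle.shift_distinguished T hT n) x hx⟩) h₁ h₃)

instance finTo_triang (Y : D) : (finTo k Y).IsTriangulated where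
  exists_zero := by
    obtain ⟨Z, hZ⟩ := HasZeroObject.zero (C := D)
    exact ⟨Z, hZ, tfin_of_subsingleton (k := k) (V := fun n => Z ⟶ Y⟦n⟧) fun n x =>
      hZ.eq_of_src _ _⟩
  isStableUnderShiftBy a := ⟨fun _ h => tfin_shift_left k a h⟩
  ext₂' T hT h₁ h₃ := (finTo k Y).le_isoClosure _
    (tfin_of_exact (k := k) (U := fun n => T.obj₃ ⟶ Y⟦n⟧) (V := fun n => T.obj₂ ⟶ Y⟦n⟧)
      (W := fun n => T.obj₁ ⟶ Y⟦n⟧)
      (fun n => ⟨Linear.leftComp k _ T.mor₂, Linear.leftComp k _ T.mor₁, fun x hx =>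
          Triangle.yoneda_exact₂ _ hT x hx⟩) h₃ h₁)

end Pool.Agent.Work.MP_910138_ag
end

-- merged part: Pool.Agent.Work.MP_910138_ag.GSerre
section
/-! Ext-finiteness of the bounded derived category from a generating family. -/

open CategoryTheory Limits AlgebraicGeometry TopologicalSpace Opposite Abelian

namespace Pool.Agent.Work.MP_910138_ag

section gserre_aux

universe w w' v u

open DerivedCategory

theorem gserre_fin {k : Type} [Field k] {U V W : Type w} [AddCommGroup U] [Module k U]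
    [AddCommGroup V] [Module k V] [AddCommGroup W] [Module k W] (f : U →ₗ[k] V) (g : V →ₗ[k] W)
    (hfg : ∀ x, g x = 0 → ∃ y, f y = x) (hU : Module.Finite k U) (hW : Module.Finite k W) :
    Module.Finite k V := by
  refine ⟨Submodule.fg_of_fg_map_of_fg_inf_ker g (IsNoetherian.noetherian _) ?_⟩
  have hle : (⊤ ⊓ LinearMap.ker g : Submodule k V) ≤ LinearMap.range f := fun x hx => hfg x hx.2
  have : Module.Finite k (⊤ ⊓ LinearMap.ker g : Submodule k V) :=
    Module.Finite.of_injective (Submodule.inclusion hle) (Submodule.inclusion_injective hle)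
  exact Module.Finite.iff_fg.1 this

variable {A : Type u} [Category.{v} A] [Abelian A] [HasExt.{w} A]

theorem gserre_bip_right (k : Type) [Field k] [Linear k A] {G : Type} [Fintype G] (L : A)
    (P : G → A) (n : ℕ) (h : ∀ x, Module.Finite k (Ext L (P x) n)) :
    Module.Finite k (Ext L (⨁ P) n) := by
  refine Module.Finite.of_injective (LinearMap.pi fun x =>
    (Ext.mk₀ (biproduct.π P x)).postcompOfLinear k L (add_zero n)) fun a b hab => ?_
  refine (Ext.addEquivBiproduct L (biproduct.isBilimit P) n).injective (funext fun x => ?_)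
  exact congrFun hab x

theorem gserre_bip_left (k : Type) [Field k] [Linear k A] {G : Type} [Fintype G] (N : A)
    (P : G → A) (n : ℕ) (h : ∀ x, Module.Finite k (Ext (P x) N n)) :
    Module.Finite k (Ext (⨁ P) N n) := by
  refine Module.Finite.of_injective (LinearMap.pi fun x =>
    (Ext.mk₀ (biproduct.ι P x)).precompOfLinear k N (zero_add n)) fun a b hab => ?_
  refine (Ext.biproductAddEquiv (biproduct.isBilimit P) N n).injective (funext fun x => ?_)
  exact congrFun hab x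

omit [HasExt.{w} A] in
theorem gserre_ses {P N : A} (φ : P ⟶ N) [Epi φ] :
    (ShortComplex.mk (kernel.ι φ) φ (kernel.condition φ)).ShortExact where
  exact := ShortComplex.exact_kernel φ

variable [HasDerivedCategory.{w'} A]

omit [HasExt.{w} A] in
theorem gserre_neg (M N : A) {n : ℤ} (hn : n < 0)
    (φ : Q.obj ((sgl A).obj M) ⟶ (Q.obj ((sgl A).obj N))⟦n⟧) : φ = 0 := by
  have : CochainComplex.IsStrictlyLE ((sgl A).obj M) 0 := inferInstance
  have : CochainComplex.IsStrictlyGE ((sgl A).obj N) 0 := inferInstance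
  have : CochainComplex.IsStrictlyGE (((sgl A).obj N)⟦n⟧) (-n) :=
    CochainComplex.isStrictlyGE_shift _ 0 n (-n) (by omega)
  have hs := subsingleton_hom_of_isStrictlyLE_of_isStrictlyGE ((sgl A).obj M)
    (((sgl A).obj N)⟦n⟧) 0 (-n) (by omega)
  rw [← cancel_mono ((Q.commShiftIso n).inv.app ((sgl A).obj N)), zero_comp]
  exact hs.elim _ _

theorem gserre_zero {M N : A} {n : ℕ} (h : ∀ α : Ext M N n, α = 0)
    (φ : Q.obj ((sgl A).obj M) ⟶ (Q.obj ((sgl A).obj N))⟦(n : ℤ)⟧) : φ = 0 := by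
  obtain ⟨α, hα⟩ := (Ext.homAddEquiv (X := M) (Y := N) (n := n)).surjective φ
  rw [← hα, h α, map_zero]
  rfl

theorem gserre_totFin (k : Type) [Field k] [Linear k A] {M N : A}
    (h : ∀ n, Module.Finite k (Ext M N n)) (N₀ : ℕ) (van : ∀ n, N₀ < n → ∀ α : Ext M N n, α = 0) :
    TotFin k (Q.obj ((sgl A).obj M)) (Q.obj ((sgl A).obj N)) := by
  refine ⟨fun n => ?_, (Set.finite_Icc (0 : ℤ) N₀).subset ?_⟩
  · rcases lt_or_ge n 0 with hn | hn
    · have : Subsingleton (Q.obj ((sgl A).obj M) ⟶ (Q.obj ((sgl A).obj N))⟦n⟧) :=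
        ⟨fun x y => by rw [gserre_neg M N hn x, gserre_neg M N hn y]⟩
      infer_instance
    · lift n to ℕ using hn
      have := h n
      exact Module.Finite.equiv (Ext.homLinearEquiv (R := k) (X := M) (Y := N) (n := n))
  · rintro n ⟨φ, hφ⟩
    have hn : 0 ≤ n := not_lt.1 fun hn => hφ (gserre_neg M N hn φ)
    lift n to ℕ using hn
    exact ⟨Nat.cast_nonneg n, Nat.cast_le.2 (not_lt.1 fun hn => hφ (gserre_zero (van n hn) φ))⟩

end gserre_aux

variable {X : Scheme.{0}} {M N : X.Modules} {U V W : X.Opens}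

open DerivedCategory

theorem hom_zero_of_ext (h : ∀ (n : ℕ) (α : Ext M N (n + 1)), α = 0) (n : ℤ) (hn : 0 < n)
    (φ : Q.obj ((sgl X.Modules).obj M) ⟶ (Q.obj ((sgl X.Modules).obj N))⟦n⟧) : φ = 0 := by
  obtain ⟨m, rfl⟩ : ∃ m : ℕ, n = ((m + 1 : ℕ) : ℤ) := ⟨(n - 1).toNat, by omega⟩
  exact gserre_zero (h m) φ

theorem totFin_of_family (k : Type) [Field k] [Algebra k Γ(X, ⊤)] [IsLocallyNoetherian X]
    {J : Type} (𝓛 : J → X.Modules) (hc : ∀ j, IsCoh (𝓛 j))
    (gg : ∀ M, IsCoh M → ∃ (G : Type) (_ : Fintype G) (l : G → J)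
      (φ : (⨁ fun x => 𝓛 (l x)) ⟶ M), Epi φ)
    (fin : ∀ i j n, Module.Finite k (Ext (𝓛 i) (𝓛 j) n)) (N₀ : ℕ)
    (van : ∀ M N : X.Modules, IsCoh M → IsCoh N → ∀ n, N₀ < n → ∀ α : Ext M N n, α = 0)
    (C C' : DerivedCategory X.Modules) (hC : Db X C) (hC' : Db X C') : TotFin k C C' := by
  have h1 : ∀ i m n, N₀ < n + m → ∀ N, IsCoh N → Module.Finite k (Ext (𝓛 i) N n) := by
    intro i m
    induction m with
    | zero =>
      intro n hn N hN
      have : Subsingleton (Ext (𝓛 i) N n) :=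
        ⟨fun x y => by rw [van _ _ (hc i) hN n hn x, van _ _ (hc i) hN n hn y]⟩
      infer_instance
    | succ m ih =>
      intro n hn N hN
      obtain ⟨G, _, l, φ, _⟩ := gg N hN
      have hS := gserre_ses φ
      exact gserre_fin ((Ext.mk₀ φ).postcompOfLinear k (𝓛 i) (add_zero n))
        (hS.extClass.postcompOfLinear k (𝓛 i) (rfl : n + 1 = n + 1))
        (fun x hx => Ext.covariant_sequence_exact₃ _ hS x rfl hx)
        (gserre_bip_right k _ _ n fun x => fin i (l x) n)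
        (ih (n + 1) (by omega) _ (IsCoh.kernel φ (IsCoh.biproduct _ fun x => hc _) hN))
  have h2 : ∀ N : X.Modules, IsCoh N → ∀ (n : ℕ) (M : X.Modules), IsCoh M →
      Module.Finite k (Ext M N n) := by
    intro N hN n
    induction n with
    | zero =>
      intro M hM
      obtain ⟨G, _, l, φ, _⟩ := gg M hM
      have := gserre_bip_left k N (fun x => 𝓛 (l x)) 0 fun x =>
        h1 (l x) (N₀ + 1) 0 (by omega) N hN
      exact Module.Finite.of_injective ((Ext.mk₀ φ).precompOfLinear k N (zero_add 0))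
        (Ext.precomp_mk₀_injective_of_epi N φ)
    | succ n ih =>
      intro M hM
      obtain ⟨G, _, l, φ, _⟩ := gg M hM
      have hS := gserre_ses φ
      exact gserre_fin (hS.extClass.precompOfLinear k N (add_comm 1 n))
        ((Ext.mk₀ φ).precompOfLinear k N (zero_add (n + 1)))
        (fun x hx => Ext.contravariant_sequence_exact₃ hS N x hx (add_comm 1 n))
        (ih _ (IsCoh.kernel φ (IsCoh.biproduct _ fun x => hc _) hM))
        (gserre_bip_left k N _ (n + 1) fun x => h1 (l x) (N₀ + 1) _ (by omega) N hN)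
  refine Db_le (finTo k C') (fun M hM => ?_) C hC
  exact Db_le (finFrom k (Q.obj ((sgl X.Modules).obj M))) (fun N hN =>
    gserre_totFin k (fun n => h2 N hN n M hM) N₀ (van M N hM hN)) C' hC'

end Pool.Agent.Work.MP_910138_ag
end

-- merged part: Pool.Agent.Work.MP_910138_ag.MatCone
section
/-! Cones in the matrix category. -/

open CategoryTheory Matrix

namespace Pool.Agent.Work.MP_910138_ag

variable {P : Type} [Preorder P]

/-- generators of the cone -/
def coneGen (Z Z' : Gen P) : Gen P where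
  G := Z.G ⊕ Z'.G
  lab := Sum.elim Z.lab Z'.lab
  isR := Sum.elim Z.isR Z'.isR
  deg := Sum.elim (fun x => Z.deg x - 1) Z'.deg

theorem red_fromBlocks {a b c d : Type} (A : Matrix a c ℤ) (B : Matrix a d ℤ) (C : Matrix b c ℤ)
    (D : Matrix b d ℤ) :
    red (fromBlocks A B C D) = fromBlocks (red A) (red B) (red C) (red D) :=
  fromBlocks_map _ _ _ _ _

theorem half_fromBlocks {a b c d : Type} (A : Matrix a c ℤ) (B : Matrix a d ℤ) (C : Matrix b c ℤ)
    (D : Matrix b d ℤ) :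
    half (fromBlocks A B C D) = fromBlocks (half A) (half B) (half C) (half D) :=
  fromBlocks_map _ _ _ _ _

/-- `cR` for the cone generators, stated with plain sum types -/
def cRs {a : Type} (Z Z' : Gen P) (f : Matrix a (Z.G ⊕ Z'.G) (ZMod 2)) :
    Matrix a (Z.G ⊕ Z'.G) (ZMod 2) := cR (coneGen Z Z') f

theorem cRs_fromBlocks {a b : Type} (Z Z' : Gen P) (A : Matrix a Z.G (ZMod 2))
    (B : Matrix a Z'.G (ZMod 2)) (C : Matrix b Z.G (ZMod 2)) (D : Matrix b Z'.G (ZMod 2)) :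
    cRs Z Z' (fromBlocks A B C D) = fromBlocks (cR Z A) (cR Z' B) (cR Z C) (cR Z' D) := by
  ext (x | x) (y | y) <;> rfl

theorem cRs_fromCols {a : Type} (Z Z' : Gen P) (A : Matrix a Z.G (ZMod 2))
    (B : Matrix a Z'.G (ZMod 2)) : cRs Z Z' (fromCols A B) = fromCols (cR Z A) (cR Z' B) := by
  ext x (y | y) <;> rfl

theorem cR_fromRows {a b : Type} (Z : Gen P) (A : Matrix a Z.G (ZMod 2))
    (B : Matrix b Z.G (ZMod 2)) : cR Z (fromRows A B) = fromRows (cR Z A) (cR Z B) := by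
  ext (x | x) y <;> rfl

theorem red_fromCols {a c d : Type} (A : Matrix a c ℤ) (B : Matrix a d ℤ) :
    red (fromCols A B) = fromCols (red A) (red B) := by
  ext x (y | y) <;> rfl

theorem red_fromRows {a b c : Type} (A : Matrix a c ℤ) (B : Matrix b c ℤ) :
    red (fromRows A B) = fromRows (red A) (red B) := by
  ext (x | x) y <;> rfl

variable {Z Z' : Ob P} (f : Z ⟶ Z')

/-- the cone of a morphism -/
def coneObj : Ob P where
  toGen := coneGen Z.toGen Z'.toGen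
  D0 := fromBlocks (-Z.D0) f.f0 0 Z'.D0
  D1 := fromBlocks Z.D1 f.f1 0 Z'.D1
  s0 := by
    rintro (x | x) (y | y) h
    · obtain ⟨a, b, c⟩ := Z.s0.neg x y h
      exact ⟨a, b, by change Z.deg y - 1 = Z.deg x - 1 + 1; omega⟩
    · obtain ⟨a, b, c⟩ := f.s0 x y h
      exact ⟨a, b, by change Z'.deg y = Z.deg x - 1 + 1; omega⟩
    · exact absurd rfl h
    · exact Z'.s0 x y h
  s1 := by
    rintro (x | x) (y | y) h
    · obtain ⟨a, b, c⟩ := Z.s1 x y h
      exact ⟨a, b, by change Z.deg y - 1 = Z.deg x - 1 + 1 + 1; omega⟩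
    · obtain ⟨a, b, c⟩ := f.s1 x y h
      exact ⟨a, b, by change Z'.deg y = Z.deg x - 1 + 1 + 1; omega⟩
    · exact absurd rfl h
    · exact Z'.s1 x y h
  sq := by
    have a0 : red Z.D0 * red Z.D0 = 0 := congrArg Prod.fst Z.sq
    have a1 : red Z.D0 * Z.D1 + cR Z.toGen (Z.D1 * red Z.D0) = 0 := congrArg Prod.snd Z.sq
    have b0 : red Z'.D0 * red Z'.D0 = 0 := congrArg Prod.fst Z'.sq
    have b1 : red Z'.D0 * Z'.D1 + cR Z'.toGen (Z'.D1 * red Z'.D0) = 0 := congrArg Prod.snd Z'.sq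
    have c0 : red Z.D0 * red f.f0 + red f.f0 * red Z'.D0 = 0 := congrArg Prod.fst f.closed
    have c1 : red Z.D0 * f.f1 + cR Z'.toGen (Z.D1 * red f.f0) +
      (red f.f0 * Z'.D1 + cR Z'.toGen (f.f1 * red Z'.D0)) = 0 := congrArg Prod.snd f.closed
    refine Prod.ext ?_ ?_
    · change red (fromBlocks (-Z.D0) f.f0 0 Z'.D0) * red (fromBlocks (-Z.D0) f.f0 0 Z'.D0) =
        (0 : Matrix (Z.G ⊕ Z'.G) (Z.G ⊕ Z'.G) (ZMod 2))
      rw [red_fromBlocks, red_neg, red_zero, fromBlocks_multiply]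
      simp [a0, b0, c0]
    · change red (fromBlocks (-Z.D0) f.f0 0 Z'.D0) * fromBlocks Z.D1 f.f1 0 Z'.D1 +
        cRs Z.toGen Z'.toGen (fromBlocks Z.D1 f.f1 0 Z'.D1 *
          red (fromBlocks (-Z.D0) f.f0 0 Z'.D0)) =
        (0 : Matrix (Z.G ⊕ Z'.G) (Z.G ⊕ Z'.G) (ZMod 2))
      rw [red_fromBlocks, red_neg, red_zero, fromBlocks_multiply, fromBlocks_multiply,
        cRs_fromBlocks, fromBlocks_add]
      simp only [Matrix.mul_zero, Matrix.zero_mul, add_zero, zero_add, cR_zero, a1, b1, cR_add]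
      rw [add_add_add_comm, c1, fromBlocks_zero]

/-- the matrix of the right inclusion -/
abbrev inrM (a b : Type) [DecidableEq b] : Matrix b (a ⊕ b) ℤ := fromCols 0 1

/-- the matrix of the left projection -/
abbrev fstM (a b : Type) [DecidableEq a] : Matrix (a ⊕ b) a ℤ := fromRows 1 0

/-- the inclusion of the target into the cone -/
def coneInr : Z' ⟶ coneObj f where
  f0 := inrM Z.G Z'.G
  f1 := 0
  s0 := by
    rintro x (y | y) h
    · exact absurd rfl h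
    · exact (S0.one (Z := Z'.toGen) (R := ℤ)) x y h
  s1 := S1.zero
  closed := by
    have h1 : red Z'.D0 * red (inrM Z.G Z'.G) +
        red (inrM Z.G Z'.G) * red (fromBlocks (-Z.D0) f.f0 0 Z'.D0) = 0 := by
      rw [red_fromBlocks, red_fromCols, red_one, red_zero, mul_fromCols,
        fromCols_mul_fromBlocks]
      simp [mat_add_self]
    have h2 : red Z'.D0 * (0 : Matrix Z'.G (Z.G ⊕ Z'.G) (ZMod 2)) +
        cRs Z.toGen Z'.toGen (Z'.D1 * red (inrM Z.G Z'.G)) +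
        (red (inrM Z.G Z'.G) * fromBlocks Z.D1 f.f1 0 Z'.D1 + cRs Z.toGen Z'.toGen
          ((0 : Matrix Z'.G (Z.G ⊕ Z'.G) (ZMod 2)) * red (fromBlocks (-Z.D0) f.f0 0 Z'.D0))) =
        0 := by
      rw [red_fromCols, red_one, red_zero, mul_fromCols, fromCols_mul_fromBlocks, cRs_fromCols,
        Matrix.zero_mul (M := red (fromBlocks (-Z.D0) f.f0 0 Z'.D0)),
        show cRs Z.toGen Z'.toGen (0 : Matrix Z'.G (Z.G ⊕ Z'.G) (ZMod 2)) = 0 from cR_zero]
      simp [mat_add_self, cR_zero, Z'.s1.cR_eq]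
    exact Prod.ext h1 h2

/-- the projection from the cone to the shifted source -/
def coneFst : coneObj f ⟶ shObj Z where
  f0 := fstM Z.G Z'.G
  f1 := 0
  s0 := by
    rintro (x | x) y h
    · exact (S0.one (Z := Z.toGen.sh) (R := ℤ)) x y h
    · exact absurd rfl h
  s1 := S1.zero
  closed := by
    have h1 : red (fromBlocks (-Z.D0) f.f0 0 Z'.D0) * red (fstM Z.G Z'.G) +
        red (fstM Z.G Z'.G) * red (-Z.D0) = 0 := by
      rw [red_fromBlocks, red_fromRows, red_one, red_zero, fromRows_mul,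
        fromBlocks_mul_fromRows]
      simp [mat_add_self]
    have h2 : red (fromBlocks (-Z.D0) f.f0 0 Z'.D0) * (0 : Matrix (Z.G ⊕ Z'.G) Z.G (ZMod 2)) +
        cR Z.toGen (fromBlocks Z.D1 f.f1 0 Z'.D1 * red (fstM Z.G Z'.G)) +
        (red (fstM Z.G Z'.G) * Z.D1 +
          cR Z.toGen ((0 : Matrix (Z.G ⊕ Z'.G) Z.G (ZMod 2)) * red (-Z.D0))) = 0 := by
      rw [red_fromRows, red_one, red_zero, fromRows_mul, fromBlocks_mul_fromRows, cR_fromRows]
      simp [mat_add_self, cR_zero, Z.s1.cR_eq]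
    exact Prod.ext h1 h2

/-- `S` commutes with cones -/
def coneS : (sFun P).obj (coneObj f) ≅ coneObj ((sFun P).map f) :=
  idIso (g := coneGen Z.toGen Z'.toGen) rfl (by
    have h : fromBlocks Z.D1 f.f1 0 Z'.D1 + cRs Z.toGen Z'.toGen
          (half (fromBlocks (-Z.D0) f.f0 0 Z'.D0 * fromBlocks (-Z.D0) f.f0 0 Z'.D0)) =
        fromBlocks (Z.D1 + cR Z.toGen Z.c) (f.f1 + cR Z'.toGen (Mor.g f)) 0
          (Z'.D1 + cR Z'.toGen Z'.c) := by
      rw [fromBlocks_multiply, half_fromBlocks, cRs_fromBlocks, fromBlocks_add, Mor.g,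
        ← half_neg (Mor.red_comm f), Ob.c, Ob.c]
      simp [half_zero, cR_zero, neg_add_eq_sub]
    exact h)

theorem coneS_inr :
    (sFun P).map (coneInr f) ≫ (coneS f).hom = coneInr ((sFun P).map f) := by
  refine Ob.hom_ext (Matrix.mul_one _) ?_
  have h : red (inrM Z.G Z'.G) * (0 : Matrix (Z.G ⊕ Z'.G) (Z.G ⊕ Z'.G) (ZMod 2)) +
      cRs Z.toGen Z'.toGen (((0 : Matrix Z'.G (Z.G ⊕ Z'.G) (ZMod 2)) + cRs Z.toGen Z'.toGen
        (half (Z'.D0 * inrM Z.G Z'.G - inrM Z.G Z'.G * fromBlocks (-Z.D0) f.f0 0 Z'.D0))) *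
          red (1 : Matrix (Z.G ⊕ Z'.G) (Z.G ⊕ Z'.G) ℤ)) = 0 := by
    have h0 : cRs Z.toGen Z'.toGen (0 : Matrix Z'.G (Z.G ⊕ Z'.G) (ZMod 2)) = 0 := cR_zero
    rw [mul_fromCols, fromCols_mul_fromBlocks]
    simp [half_zero, h0]
  exact h

theorem coneS_fst :
    (sFun P).map (coneFst f) ≫ (shS P).hom.app Z = (coneS f).hom ≫ coneFst ((sFun P).map f) := by
  refine Ob.hom_ext ((Matrix.mul_one _).trans (Matrix.one_mul _).symm) ?_
  have h : red (fstM Z.G Z'.G) * (0 : Matrix Z.G Z.G (ZMod 2)) +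
      cR Z.toGen (((0 : Matrix (Z.G ⊕ Z'.G) Z.G (ZMod 2)) + cR Z.toGen
        (half (fromBlocks (-Z.D0) f.f0 0 Z'.D0 * fstM Z.G Z'.G - fstM Z.G Z'.G * (-Z.D0)))) *
          red (1 : Matrix Z.G Z.G ℤ)) =
      red (1 : Matrix (Z.G ⊕ Z'.G) (Z.G ⊕ Z'.G) ℤ) * (0 : Matrix (Z.G ⊕ Z'.G) Z.G (ZMod 2)) +
        cR Z.toGen ((0 : Matrix (Z.G ⊕ Z'.G) (Z.G ⊕ Z'.G) (ZMod 2)) * red (fstM Z.G Z'.G)) := by
    rw [fromRows_mul, fromBlocks_mul_fromRows]
    simp [half_zero, cR_zero]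
  exact h

end Pool.Agent.Work.MP_910138_ag
end

-- merged part: Pool.Agent.Work.MP_910138_ag.Real
section
/-! Realisation of the matrix category by complexes. -/

open CategoryTheory Limits CochainComplex.HomComplex

namespace Pool.Agent.Work.MP_910138_ag

universe v u

variable {A : Type u} [Category.{v} A] [Abelian A] [HasCoproductsOfShape ℤ A] [Linear (ZMod 2) A]
  [HasDerivedCategory A] {P : Type} [Preorder P]

/-- there is a degree zero class from `α` to `β` -/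
def rel0 (α β : P × Bool) : Prop := α.1 ≤ β.1 ∧ (β.2 = true → α.2 = true)

/-- there is a degree `-1` class from `α` to `β` -/
def rel1 (α β : P × Bool) : Prop := α.1 ≤ β.1 ∧ β.2 = true

variable (A P) in
/-- a strict realisation of the graded category `Gamma ⊗ P` -/
structure GamData where
  W : P × Bool → Cx A
  e : ∀ α β, U (W α) ⟶ U (W β)
  a : ∀ α β, U (W α) ⟶ U (W β)
  hg_e : ∀ α β, Hg 0 (e α β)
  hg_a : ∀ α β, Hg (-1) (a α β)
  dl_e : ∀ α β, rel0 α β → dl (e α β) = 0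
  dl_a : ∀ α β, rel1 α β → dl (a α β) = 0
  e_self : ∀ α, e α α = 𝟙 _
  e_e : ∀ α β γ, rel0 α β → rel0 β γ → e α β ≫ e β γ = e α γ
  e_a : ∀ α β γ, rel0 α β → rel1 β γ → e α β ≫ a β γ = a α γ
  a_e : ∀ α β γ, rel1 α β → rel0 β γ → a α β ≫ e β γ = if γ.2 = true then a α γ else 0
  a_a : ∀ α β γ, rel1 α β → rel1 β γ → a α β ≫ a β γ = 0
  surj : ∀ α β (m : ℤ) (φ : U (W α) ⟶ U (W β)), Hg m φ → dl φ = 0 →
    ∃ (c0 c1 : ZMod 2) (ψ : U (W α) ⟶ U (W β)), Hg (m - 1) ψ ∧ (c0 ≠ 0 → rel0 α β ∧ m = 0) ∧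
      (c1 ≠ 0 → rel1 α β ∧ m = -1) ∧ φ = c0 • e α β + c1 • a α β + dl ψ
  inj_e : ∀ α β, rel0 α β → ∀ ψ, Hg (-1) ψ → e α β ≠ dl ψ
  inj_a : ∀ α β, rel1 α β → ∀ ψ, Hg (-2) ψ → a α β ≠ dl ψ
  kd : ∀ α β, KD (W α) (W β)

/-- the label of a generator -/
def Gen.l (Z : Gen P) (x : Z.G) : P × Bool := (Z.lab x, Z.isR x)

variable (Γ : GamData A P)

/-- realisation of the entries of a pair of matrices -/
noncomputable def GamData.rl {Z Z' : Gen P} (f : Pr Z Z') (x : Z.G) (y : Z'.G) :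
    U (Γ.W (Z.l x)) ⟶ U (Γ.W (Z'.l y)) :=
  f.1 x y • Γ.e (Z.l x) (Z'.l y) + f.2 x y • Γ.a (Z.l x) (Z'.l y)

section

variable {Z Z' Z'' : Gen P} {n m : ℤ}

theorem GamData.rl_add (f g : Pr Z Z') (x : Z.G) (y : Z'.G) :
    Γ.rl (f + g) x y = Γ.rl f x y + Γ.rl g x y := by
  simp only [GamData.rl, Prod.fst_add, Prod.snd_add, Matrix.add_apply, add_smul]
  abel

theorem GamData.rl_zero (x : Z.G) (y : Z'.G) : Γ.rl (0 : Pr Z Z') x y = 0 := by
  simp [GamData.rl]

theorem GamData.hg_rl {f : Pr Z Z'} (hf : SP Z Z' n f) (x : Z.G) (y : Z'.G) :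
    Hg (n + Z.deg x - Z'.deg y) (Γ.rl f x y) := by
  refine Hg.add ?_ ?_
  · by_cases h : f.1 x y = 0
    · rw [h, zero_smul]
      exact Hg.zero
    · exact ((Γ.hg_e _ _).smul _).of_eq (by have := (hf.1 x y h).2.2; omega)
  · by_cases h : f.2 x y = 0
    · rw [h, zero_smul]
      exact Hg.zero
    · exact ((Γ.hg_a _ _).smul _).of_eq (by have := (hf.2 x y h).2.2; omega)

theorem GamData.dl_rl {f : Pr Z Z'} (hf : SP Z Z' n f) (x : Z.G) (y : Z'.G) :
    dl (Γ.rl f x y) = 0 := by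
  have h1 : dl (f.1 x y • Γ.e (Z.l x) (Z'.l y)) = 0 := by
    by_cases h : f.1 x y = 0
    · rw [h, zero_smul, dl_zero]
    · rw [dl_smul, Γ.dl_e _ _ ⟨(hf.1 x y h).1, (hf.1 x y h).2.1⟩, smul_zero]
  have h2 : dl (f.2 x y • Γ.a (Z.l x) (Z'.l y)) = 0 := by
    by_cases h : f.2 x y = 0
    · rw [h, zero_smul, dl_zero]
    · rw [dl_smul, Γ.dl_a _ _ ⟨(hf.2 x y h).1, (hf.2 x y h).2.1⟩, smul_zero]
  rw [GamData.rl, dl_add, h1, h2, add_zero]

theorem GamData.rl_pm {f : Pr Z Z'} {g : Pr Z' Z''} (hf : SP Z Z' n f) (hg : SP Z' Z'' m g)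
    (x : Z.G) (z : Z''.G) : Γ.rl (pm f g) x z = ∑ y, Γ.rl f x y ≫ Γ.rl g y z := by
  have r0 : ∀ {Y Y' : Gen P} {k : ℤ} {q : Pr Y Y'}, SP Y Y' k q → ∀ {a b}, q.1 a b ≠ 0 →
      rel0 (Y.l a) (Y'.l b) := fun hq a b h => ⟨(hq.1 a b h).1, (hq.1 a b h).2.1⟩
  have r1 : ∀ {Y Y' : Gen P} {k : ℤ} {q : Pr Y Y'}, SP Y Y' k q → ∀ {a b}, q.2 a b ≠ 0 →
      rel1 (Y.l a) (Y'.l b) := fun hq a b h => ⟨(hq.2 a b h).1, (hq.2 a b h).2.1⟩
  have key : ∀ y, Γ.rl f x y ≫ Γ.rl g y z =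
      (f.1 x y * g.1 y z) • Γ.e (Z.l x) (Z''.l z) + ((f.1 x y * g.2 y z) • Γ.a (Z.l x) (Z''.l z) +
        (if Z''.isR z = true then f.2 x y * g.1 y z else 0) • Γ.a (Z.l x) (Z''.l z)) := by
    intro y
    have e1 : (f.1 x y • Γ.e (Z.l x) (Z'.l y)) ≫ (g.1 y z • Γ.e (Z'.l y) (Z''.l z)) =
        (f.1 x y * g.1 y z) • Γ.e (Z.l x) (Z''.l z) := by
      by_cases h : f.1 x y = 0
      · simp [h]
      by_cases h' : g.1 y z = 0
      · simp [h']
      rw [Linear.smul_comp, Linear.comp_smul, Γ.e_e _ _ _ (r0 hf h) (r0 hg h'), smul_smul]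
    have e2 : (f.1 x y • Γ.e (Z.l x) (Z'.l y)) ≫ (g.2 y z • Γ.a (Z'.l y) (Z''.l z)) =
        (f.1 x y * g.2 y z) • Γ.a (Z.l x) (Z''.l z) := by
      by_cases h : f.1 x y = 0
      · simp [h]
      by_cases h' : g.2 y z = 0
      · simp [h']
      rw [Linear.smul_comp, Linear.comp_smul, Γ.e_a _ _ _ (r0 hf h) (r1 hg h'), smul_smul]
    have e3 : (f.2 x y • Γ.a (Z.l x) (Z'.l y)) ≫ (g.1 y z • Γ.e (Z'.l y) (Z''.l z)) =
        (if Z''.isR z = true then f.2 x y * g.1 y z else 0) • Γ.a (Z.l x) (Z''.l z) := by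
      by_cases h : f.2 x y = 0
      · simp [h]
      by_cases h' : g.1 y z = 0
      · simp [h']
      rw [Linear.smul_comp, Linear.comp_smul, Γ.a_e _ _ _ (r1 hf h) (r0 hg h'), smul_smul]
      by_cases hz : Z''.isR z = true
      · rw [if_pos hz, if_pos (show (Z''.l z).2 = true from hz)]
      · rw [if_neg hz, if_neg (show ¬ (Z''.l z).2 = true from hz), smul_zero, zero_smul]
    have e4 : (f.2 x y • Γ.a (Z.l x) (Z'.l y)) ≫ (g.2 y z • Γ.a (Z'.l y) (Z''.l z)) = 0 := by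
      by_cases h : f.2 x y = 0
      · simp [h]
      by_cases h' : g.2 y z = 0
      · simp [h']
      rw [Linear.smul_comp, Linear.comp_smul, Γ.a_a _ _ _ (r1 hf h) (r1 hg h'), smul_zero,
        smul_zero]
    rw [GamData.rl, GamData.rl, Preadditive.add_comp, Preadditive.comp_add, Preadditive.comp_add,
      e1, e2, e3, e4, add_zero, add_assoc]
  simp only [key, Finset.sum_add_distrib, ← Finset.sum_smul]
  by_cases hz : Z''.isR z = true
  · simp [GamData.rl, pm, cR, hz, Matrix.mul_apply, add_smul]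
  · simp [GamData.rl, pm, cR, hz, Matrix.mul_apply]

end

theorem GamData.tw (Z : Ob P) : Tw (fun x => Γ.W (Z.toGen.l x)) Z.deg (Γ.rl Z.D) where
  hg x y := (Γ.hg_rl Z.spD x y).of_eq (by omega)
  mc x z := by rw [Γ.dl_rl Z.spD, ← Γ.rl_pm Z.spD Z.spD, Z.D_D, Γ.rl_zero]
  tri x y h := by
    by_contra hc
    apply h
    have h1 : Z.D.1 x y = 0 := by
      by_contra h1
      have := (Z.spD.1 x y h1).2.2
      omega
    have h2 : Z.D.2 x y = 0 := by
      by_contra h2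
      have := (Z.spD.2 x y h2).2.2
      omega
    rw [GamData.rl, h1, h2, zero_smul, zero_smul, add_zero]

/-- the total complex of an object -/
noncomputable def GamData.totObj (Z : Ob P) : Cx A := tot (Γ.tw Z)

/-- its structure -/
noncomputable def GamData.ts (Z : Ob P) :
    TotStr (Γ.totObj Z) (fun x => Γ.W (Z.toGen.l x)) Z.deg (Γ.rl Z.D) := totStr (Γ.tw Z)

/-- realisation of a pair of matrices -/
noncomputable def GamData.realU (Z Z' : Ob P) (f : Pr Z.toGen Z'.toGen) :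
    U (Γ.totObj Z) ⟶ U (Γ.totObj Z') := asm (Γ.ts Z) (Γ.ts Z') (Γ.rl f)

section

variable {Z Z' Z'' : Ob P} {n m : ℤ}

theorem GamData.realU_add (f g : Pr Z.toGen Z'.toGen) :
    Γ.realU Z Z' (f + g) = Γ.realU Z Z' f + Γ.realU Z Z' g := by
  rw [GamData.realU, GamData.realU, GamData.realU, ← asm_add]
  congr 1
  funext x y
  exact Γ.rl_add f g x y

theorem GamData.realU_zero : Γ.realU Z Z' 0 = 0 := by
  rw [GamData.realU, ← asm_zero (Γ.ts Z) (Γ.ts Z')]
  congr 1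
  funext x y
  exact Γ.rl_zero x y

theorem GamData.hg_realU {f : Pr Z.toGen Z'.toGen} (hf : SP Z.toGen Z'.toGen n f) :
    Hg n (Γ.realU Z Z' f) := hg_asm _ _ (Γ.hg_rl hf)

theorem GamData.realU_pm {f : Pr Z.toGen Z'.toGen} {g : Pr Z'.toGen Z''.toGen}
    (hf : SP Z.toGen Z'.toGen n f) (hg : SP Z'.toGen Z''.toGen m g) :
    Γ.realU Z Z'' (pm f g) = Γ.realU Z Z' f ≫ Γ.realU Z' Z'' g := by
  rw [GamData.realU, GamData.realU, GamData.realU, asm_comp]
  congr 1
  funext x z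
  exact Γ.rl_pm hf hg x z

theorem GamData.dl_realU {f : Pr Z.toGen Z'.toGen} (hf : SP Z.toGen Z'.toGen n f) :
    dl (Γ.realU Z Z' f) = Γ.realU Z Z' (dP Z Z' f) := by
  rw [GamData.realU, dl_asm, GamData.realU]
  congr 1
  funext x y
  rw [Γ.dl_rl hf, zero_add, dP, Γ.rl_add, Γ.rl_pm Z.spD hf, Γ.rl_pm hf Z'.spD]

theorem GamData.realU_one : Γ.realU Z Z (1, 0) = 𝟙 _ := by
  refine asm_ext (Γ.ts Z) (Γ.ts Z) fun x y => ?_
  rw [GamData.realU, inc_asm_pr, Category.id_comp, GamData.rl]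
  by_cases h : x = y
  · subst h
    simp [(Γ.ts Z).inc_pr_self, Γ.e_self]
  · simp [(Γ.ts Z).inc_pr_ne x y h, h]

end

/-- the realisation functor -/
noncomputable def GamData.Tot : Ob P ⥤ Cx A where
  obj := Γ.totObj
  map {Z Z'} f := homU (Γ.realU Z Z' f.bar) (Γ.hg_realU f.sp) (by
    rw [Γ.dl_realU f.sp, show dP Z Z' f.bar = 0 from f.closed, Γ.realU_zero])
  map_id Z := mapU_injective (by rw [mapU_homU, mapU_id, Ob.id_bar, Γ.realU_one])
  map_comp f g := mapU_injective (by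
    rw [mapU_homU, mapU_comp, mapU_homU, mapU_homU, Ob.comp_bar, Γ.realU_pm f.sp g.sp])

theorem GamData.mapU_Tot_map {Z Z' : Ob P} (f : Z ⟶ Z') :
    mapU (Γ.Tot.map f) = Γ.realU Z Z' f.bar := mapU_homU _ _ _

/-- the functor to the derived category -/
noncomputable abbrev GamData.L : Ob P ⥤ DerivedCategory A := Γ.Tot ⋙ DerivedCategory.Q

end Pool.Agent.Work.MP_910138_ag
end

-- merged part: Pool.Agent.Work.MP_910138_ag.Beil
section
/-! Beilinson's lemma. -/

open CategoryTheory Limits CochainComplex.HomComplex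

namespace Pool.Agent.Work.MP_910138_ag

section General

open Pretriangulated

variable {C D : Type*} [Category* C] [Category* D]

/-- the functor is bijective on morphisms from `X` to `Y` -/
def BeilBij (F : C ⥤ D) (X Y : C) : Prop :=
  Function.Bijective (fun f : X ⟶ Y => F.map f)

theorem beil_iso {F : C ⥤ D} {X Y X' Y' : C} (e : X ≅ X') (e' : Y ≅ Y') (h : BeilBij F X Y) :
    BeilBij F X' Y' := by
  constructor
  · intro f g hfg
    have h1 : e.hom ≫ f ≫ e'.inv = e.hom ≫ g ≫ e'.inv := by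
      apply h.1
      have hfg' : F.map f = F.map g := hfg
      simp only [Functor.map_comp, hfg']
    simpa using h1
  · intro φ
    obtain ⟨f, hf⟩ := h.2 (F.map e.hom ≫ φ ≫ F.map e'.inv)
    refine ⟨e.inv ≫ f ≫ e'.hom, ?_⟩
    have hf' : F.map f = F.map e.hom ≫ φ ≫ F.map e'.inv := hf
    change F.map (e.inv ≫ f ≫ e'.hom) = φ
    rw [F.map_comp, F.map_comp, hf']
    simp

theorem beil_shift [HasShift C ℤ] [HasShift D ℤ] {F : C ⥤ D} [F.CommShift ℤ] {X Y : C} (a : ℤ)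
    (h : BeilBij F X Y) : BeilBij F (X⟦a⟧) (Y⟦a⟧) := by
  have key : ∀ f : X ⟶ Y, F.map (f⟦a⟧') =
      (F.commShiftIso a).hom.app X ≫ (F.map f)⟦a⟧' ≫ (F.commShiftIso a).inv.app Y := by
    intro f
    rw [← F.commShiftIso_hom_naturality_assoc]
    simp
  constructor
  · intro f g hfg
    obtain ⟨f, rfl⟩ := (shiftFunctor C a).map_surjective f
    obtain ⟨g, rfl⟩ := (shiftFunctor C a).map_surjective g
    have hfg' : F.map (f⟦a⟧') = F.map (g⟦a⟧') := hfg
    rw [key, key, cancel_epi, cancel_mono] at hfg'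
    rw [h.1 ((shiftFunctor D a).map_injective hfg')]
  · intro φ
    obtain ⟨ψ, hψ⟩ := (shiftFunctor D a).map_surjective
      ((F.commShiftIso a).inv.app X ≫ φ ≫ (F.commShiftIso a).hom.app Y)
    obtain ⟨f, hf⟩ := h.2 ψ
    have hf' : F.map f = ψ := hf
    refine ⟨f⟦a⟧', ?_⟩
    change F.map (f⟦a⟧') = φ
    rw [key, hf', hψ]
    simp

variable [HasZeroObject C] [HasZeroObject D] [HasShift C ℤ] [HasShift D ℤ]
  [Preadditive C] [Preadditive D] [∀ n : ℤ, (shiftFunctor C n).Additive]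
  [∀ n : ℤ, (shiftFunctor D n).Additive] [Pretriangulated C] [Pretriangulated D]

/-- two consecutive maps of a distinguished triangle -/
def BeilEx {X Y Z : C} (f : X ⟶ Y) (g : Y ⟶ Z) : Prop :=
  ∃ h, Triangle.mk f g h ∈ distTriang C

theorem BeilEx.zero {X Y Z : C} {f : X ⟶ Y} {g : Y ⟶ Z} (h : BeilEx f g) : f ≫ g = 0 := by
  obtain ⟨k, hk⟩ := h
  exact comp_distTriang_mor_zero₁₂ _ hk

theorem BeilEx.co {X Y Z B : C} {f : X ⟶ Y} {g : Y ⟶ Z} (h : BeilEx f g) (u : B ⟶ Y)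
    (hu : u ≫ g = 0) : ∃ w, u = w ≫ f := by
  obtain ⟨k, hk⟩ := h
  exact Triangle.coyoneda_exact₂ _ hk u hu

theorem BeilEx.yo {X Y Z B : C} {f : X ⟶ Y} {g : Y ⟶ Z} (h : BeilEx f g) (u : Y ⟶ B)
    (hu : f ≫ u = 0) : ∃ w, u = g ≫ w := by
  obtain ⟨k, hk⟩ := h
  exact Triangle.yoneda_exact₂ _ hk u hu

theorem BeilEx.map {X Y Z : C} {f : X ⟶ Y} {g : Y ⟶ Z} (h : BeilEx f g) (F : C ⥤ D)
    [F.CommShift ℤ] [F.IsTriangulated] : BeilEx (F.map f) (F.map g) := by
  obtain ⟨k, hk⟩ := h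
  exact ⟨_, F.map_distinguished _ hk⟩

theorem beilEx_12 (T : Triangle C) (hT : T ∈ distTriang C) : BeilEx T.mor₁ T.mor₂ :=
  ⟨T.mor₃, hT⟩

theorem beilEx_23 (T : Triangle C) (hT : T ∈ distTriang C) : BeilEx T.mor₂ T.mor₃ :=
  beilEx_12 _ (rot_of_distTriang _ hT)

theorem beilEx_01 (T : Triangle C) (hT : T ∈ distTriang C) : BeilEx T.invRotate.mor₁ T.mor₁ :=
  beilEx_12 _ (inv_rot_of_distTriang _ hT)

variable {F : C ⥤ D} [F.CommShift ℤ] [F.IsTriangulated]

theorem beil_five_co {B Y0 Y1 Y2 Y3 Y4 : C} {a : Y0 ⟶ Y1} {b : Y1 ⟶ Y2} {c : Y2 ⟶ Y3}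
    {d : Y3 ⟶ Y4} (hab : BeilEx a b) (hbc : BeilEx b c) (hcd : BeilEx c d)
    (h0 : BeilBij F B Y0) (h1 : BeilBij F B Y1) (h3 : BeilBij F B Y3) (h4 : BeilBij F B Y4) :
    BeilBij F B Y2 := by
  constructor
  · intro f g hfg
    have hfg' : F.map f = F.map g := hfg
    rw [← sub_eq_zero]
    have hz : F.map (f - g) = 0 := by rw [F.map_sub, hfg', sub_self]
    generalize f - g = u at hz
    have e1 : u ≫ c = 0 := by
      apply h3.1
      change F.map (u ≫ c) = F.map 0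
      rw [F.map_comp, hz, zero_comp, F.map_zero]
    obtain ⟨w, rfl⟩ := hbc.co u e1
    rw [F.map_comp] at hz
    obtain ⟨y, hy⟩ := (hab.map F).co _ hz
    obtain ⟨x, hx⟩ := h0.2 y
    have hx' : F.map x = y := hx
    have e2 : w = x ≫ a := by
      apply h1.1
      change F.map w = F.map (x ≫ a)
      rw [F.map_comp, hx', hy]
    rw [e2, Category.assoc, hab.zero, comp_zero]
  · intro φ
    obtain ⟨x3, hx3⟩ := h3.2 (φ ≫ F.map c)
    have hx3' : F.map x3 = φ ≫ F.map c := hx3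
    have e1 : x3 ≫ d = 0 := by
      apply h4.1
      change F.map (x3 ≫ d) = F.map 0
      rw [F.map_comp, hx3', Category.assoc, (hcd.map F).zero, comp_zero, F.map_zero]
    obtain ⟨x2, rfl⟩ := hcd.co x3 e1
    obtain ⟨y1, hy1⟩ := (hbc.map F).co (φ - F.map x2)
      (by rw [Preadditive.sub_comp, ← hx3', F.map_comp, sub_self])
    obtain ⟨x1, hx1⟩ := h1.2 y1
    have hx1' : F.map x1 = y1 := hx1
    refine ⟨x2 + x1 ≫ b, ?_⟩
    change F.map (x2 + x1 ≫ b) = φ
    rw [F.map_add, F.map_comp, hx1', ← hy1, add_sub_cancel]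

theorem beil_five_yo {B Y0 Y1 Y2 Y3 Y4 : C} {a : Y0 ⟶ Y1} {b : Y1 ⟶ Y2} {c : Y2 ⟶ Y3}
    {d : Y3 ⟶ Y4} (hab : BeilEx a b) (hbc : BeilEx b c) (hcd : BeilEx c d)
    (h0 : BeilBij F Y0 B) (h1 : BeilBij F Y1 B) (h3 : BeilBij F Y3 B) (h4 : BeilBij F Y4 B) :
    BeilBij F Y2 B := by
  constructor
  · intro f g hfg
    have hfg' : F.map f = F.map g := hfg
    rw [← sub_eq_zero]
    have hz : F.map (f - g) = 0 := by rw [F.map_sub, hfg', sub_self]
    generalize f - g = u at hz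
    have e1 : b ≫ u = 0 := by
      apply h1.1
      change F.map (b ≫ u) = F.map 0
      rw [F.map_comp, hz, comp_zero, F.map_zero]
    obtain ⟨w, rfl⟩ := hbc.yo u e1
    rw [F.map_comp] at hz
    obtain ⟨y, hy⟩ := (hcd.map F).yo _ hz
    obtain ⟨x, hx⟩ := h4.2 y
    have hx' : F.map x = y := hx
    have e2 : w = d ≫ x := by
      apply h3.1
      change F.map w = F.map (d ≫ x)
      rw [F.map_comp, hx', hy]
    rw [e2, ← Category.assoc, hcd.zero, zero_comp]
  · intro φ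
    obtain ⟨x1, hx1⟩ := h1.2 (F.map b ≫ φ)
    have hx1' : F.map x1 = F.map b ≫ φ := hx1
    have e1 : a ≫ x1 = 0 := by
      apply h0.1
      change F.map (a ≫ x1) = F.map 0
      rw [F.map_comp, hx1', ← Category.assoc, (hab.map F).zero, zero_comp, F.map_zero]
    obtain ⟨x2, rfl⟩ := hab.yo x1 e1
    obtain ⟨y3, hy3⟩ := (hbc.map F).yo (φ - F.map x2)
      (by rw [Preadditive.comp_sub, ← hx1', F.map_comp, sub_self])
    obtain ⟨x3, hx3⟩ := h3.2 y3
    have hx3' : F.map x3 = y3 := hx3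
    refine ⟨x2 + c ≫ x3, ?_⟩
    change F.map (x2 + c ≫ x3) = φ
    rw [F.map_add, F.map_comp, hx3', ← hy3, add_sub_cancel]

theorem beil_zero_left {X Y : C} (h : IsZero X) : BeilBij F X Y :=
  ⟨fun _ _ _ => h.eq_of_src _ _, fun _ => ⟨0, (F.map_isZero h).eq_of_src _ _⟩⟩

theorem beil_zero_right {X Y : C} (h : IsZero Y) : BeilBij F X Y :=
  ⟨fun _ _ _ => h.eq_of_tgt _ _, fun _ => ⟨0, (F.map_isZero h).eq_of_tgt _ _⟩⟩

/-- the targets on whose shifts the functor is bijective -/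
def BeilR (F : C ⥤ D) (X : C) : ObjectProperty C := fun Y => ∀ n : ℤ, BeilBij F X (Y⟦n⟧)

/-- the sources for which the functor is bijective towards all shifts of `Y` -/
def BeilL (F : C ⥤ D) (Y : C) : ObjectProperty C := fun X => ∀ n : ℤ, BeilBij F X (Y⟦n⟧)

omit [HasZeroObject C] [HasZeroObject D] [HasShift D ℤ] [Preadditive C] [Preadditive D]
  [∀ n : ℤ, (shiftFunctor C n).Additive] [∀ n : ℤ, (shiftFunctor D n).Additive]
  [Pretriangulated C] [Pretriangulated D] [F.CommShift ℤ] [F.IsTriangulated] in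
theorem beilR_iso (X : C) : (BeilR F X).IsClosedUnderIsomorphisms where
  of_iso e h n := beil_iso (Iso.refl _) ((shiftFunctor C n).mapIso e) (h n)

omit [HasZeroObject C] [HasZeroObject D] [HasShift D ℤ] [Preadditive C] [Preadditive D]
  [∀ n : ℤ, (shiftFunctor C n).Additive] [∀ n : ℤ, (shiftFunctor D n).Additive]
  [Pretriangulated C] [Pretriangulated D] [F.CommShift ℤ] [F.IsTriangulated] in
theorem beilL_iso (Y : C) : (BeilL F Y).IsClosedUnderIsomorphisms where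
  of_iso e h n := beil_iso e (Iso.refl _) (h n)

omit [HasZeroObject C] [HasZeroObject D] [HasShift D ℤ] [Preadditive C] [Preadditive D]
  [∀ n : ℤ, (shiftFunctor C n).Additive] [∀ n : ℤ, (shiftFunctor D n).Additive]
  [Pretriangulated C] [Pretriangulated D] [F.CommShift ℤ] [F.IsTriangulated] in
theorem beilR_shift {X Y : C} (h : BeilR F X Y) (a : ℤ) : BeilR F X (Y⟦a⟧) := fun n =>
  beil_iso (Iso.refl _) ((shiftFunctorAdd' C a n (a + n) rfl).app Y) (h (a + n))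

omit [HasZeroObject C] [HasZeroObject D] [Preadditive C] [Preadditive D]
  [∀ n : ℤ, (shiftFunctor C n).Additive] [∀ n : ℤ, (shiftFunctor D n).Additive]
  [Pretriangulated C] [Pretriangulated D] [F.IsTriangulated] in
theorem beilL_shift {X Y : C} (h : BeilL F Y X) (a : ℤ) : BeilL F Y (X⟦a⟧) := fun n =>
  beil_iso (Iso.refl _) ((shiftFunctorAdd' C (n - a) a n (by omega)).symm.app Y)
    (beil_shift a (h (n - a)))

theorem beilR_tri (X : C) : (BeilR F X).IsTriangulated :=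
  haveI := beilR_iso (F := F) X
  { exists_zero := by
      obtain ⟨Z, hZ⟩ := HasZeroObject.zero (C := C)
      exact ⟨Z, hZ, fun n => beil_zero_right ((shiftFunctor C n).map_isZero hZ)⟩
    isStableUnderShiftBy := fun a => ⟨fun _ h => beilR_shift h a⟩
    toIsTriangulatedClosed₂ := .mk' fun T hT h1 h3 n => by
      have hS := Triangle.shift_distinguished T hT n
      have k1 : BeilR F X (T.obj₁⟦n⟧) := beilR_shift h1 n
      have k3 : BeilR F X (T.obj₃⟦n⟧) := beilR_shift h3 n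
      exact beil_five_co (beilEx_01 _ hS) (beilEx_12 _ hS) (beilEx_23 _ hS) (k3 (-1)) (h1 n)
        (h3 n) (k1 1) }

theorem beilL_tri (Y : C) : (BeilL F Y).IsTriangulated :=
  haveI := beilL_iso (F := F) Y
  { exists_zero := by
      obtain ⟨Z, hZ⟩ := HasZeroObject.zero (C := C)
      exact ⟨Z, hZ, fun n => beil_zero_left hZ⟩
    isStableUnderShiftBy := fun a => ⟨fun _ h => beilL_shift h a⟩
    toIsTriangulatedClosed₂ := .mk' fun T hT h1 h3 n =>
      beil_five_yo (beilEx_01 _ hT) (beilEx_12 _ hT) (beilEx_23 _ hT) (beilL_shift h3 (-1) n)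
        (h1 n) (h3 n) (beilL_shift h1 1 n) }

end General

universe v u

variable {A : Type u} [Category.{v} A] [Abelian A] [HasCoproductsOfShape ℤ A] [Linear (ZMod 2) A]
  [HasDerivedCategory A]
variable {G : Type} [Fintype G] {K K' : Cx A} {W W' : G → Cx A} {deg : G → ℤ}
  {t : ∀ x y, U (W x) ⟶ U (W y)} {t' : ∀ x y, U (W' x) ⟶ U (W' y)}

open DerivedCategory

omit [Linear (ZMod 2) A] [HasDerivedCategory A] in
theorem beil_hg_zero {M N : A} {n : ℤ} (hn : n ≠ 0) {f : U ((sgl A).obj M) ⟶ U ((sgl A).obj N)}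
    (hf : Hg n f) : f = 0 := by
  refine U_ext fun p => ?_
  by_cases hp : p = 0
  · have hz : IsZero (((sgl A).obj N).X (p + n)) :=
      HomologicalComplex.isZero_single_obj_X _ _ _ _ (by omega)
    rw [hf p, hz.eq_of_src (ιU _ (p + n)) 0]
    simp
  · exact (HomologicalComplex.isZero_single_obj_X _ _ _ _ hp).eq_of_src _ _

omit [HasCoproductsOfShape ℤ A] [Linear (ZMod 2) A] in
theorem beil_neg (M N : A) {n : ℤ} (hn : n < 0)
    (φ : Q.obj ((sgl A).obj M) ⟶ (Q.obj ((sgl A).obj N))⟦n⟧) : φ = 0 := by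
  have : CochainComplex.IsStrictlyLE ((sgl A).obj M) 0 := inferInstance
  have : CochainComplex.IsStrictlyGE ((sgl A).obj N) 0 := inferInstance
  have : CochainComplex.IsStrictlyGE (((sgl A).obj N)⟦n⟧) (-n) :=
    CochainComplex.isStrictlyGE_shift _ 0 n (-n) (by omega)
  have hs := subsingleton_hom_of_isStrictlyLE_of_isStrictlyGE ((sgl A).obj M)
    (((sgl A).obj N)⟦n⟧) 0 (-n) (by omega)
  rw [← cancel_mono ((Q.commShiftIso n).inv.app ((sgl A).obj N)), zero_comp]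
  exact hs.elim _ _

theorem kd_single (M N : A) (h : ∀ n : ℤ, 0 < n →
    ∀ φ : Q.obj ((sgl A).obj M) ⟶ (Q.obj ((sgl A).obj N))⟦n⟧, φ = 0) :
    KD ((sgl A).obj M) ((sgl A).obj N) := by
  constructor
  · intro n φ
    rcases lt_trichotomy n 0 with hn | rfl | hn
    · exact ⟨0, Hg.zero, dl_zero, by rw [cl_zero, beil_neg M N hn φ]⟩
    · obtain ⟨g, hg⟩ := (singleFunctor A 0).map_surjective (X := M) (Y := N)
        (φ ≫ (shiftFunctorZero (DerivedCategory A) ℤ).hom.app (Q.obj ((sgl A).obj N)))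
      have hg' : Q.map ((sgl A).map g) =
          φ ≫ (shiftFunctorZero (DerivedCategory A) ℤ).hom.app (Q.obj ((sgl A).obj N)) := hg
      refine ⟨mapU ((sgl A).map g), hg_mapU _, dl_mapU _, ?_⟩
      rw [cl_mapU, hg']
      simp
    · exact ⟨0, Hg.zero, dl_zero, by rw [cl_zero, h n hn φ]⟩
  · intro n f hf hd hc
    refine ⟨0, Hg.zero, ?_⟩
    rw [dl_zero]
    by_cases hn : n = 0
    · subst hn
      obtain ⟨g, hg⟩ := (sgl A).map_surjective (homU f hf hd)
      rw [← mapU_homU f hf hd, ← hg] at hc ⊢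
      rw [cl_mapU] at hc
      have h1 : Q.map ((sgl A).map g) = 0 := by
        rw [← cancel_mono ((shiftFunctorZero (DerivedCategory A) ℤ).inv.app
          (Q.obj ((sgl A).obj N))), hc, zero_comp]
      have h2 : g = 0 := by
        apply (singleFunctor A 0).map_injective
        rw [Functor.map_zero]
        exact h1
      rw [h2, Functor.map_zero, mapU_zero]
    · exact beil_hg_zero hn hf

theorem kd_tot_left (s : TotStr K W deg t) (h : Tw W deg t) (L : Cx A) (hW : ∀ x, KD (W x) L) :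
    KD K L := by
  have := beilL_iso (F := (Qh : HomotopyCategory A (ComplexShape.up ℤ) ⥤ DerivedCategory A))
    ((HomotopyCategory.quotient A (ComplexShape.up ℤ)).obj L)
  have := beilL_tri (F := (Qh : HomotopyCategory A (ComplexShape.up ℤ) ⥤ DerivedCategory A))
    ((HomotopyCategory.quotient A (ComplexShape.up ℤ)).obj L)
  exact kd_iff.2 (s.devissage_K h
    (BeilL Qh ((HomotopyCategory.quotient A (ComplexShape.up ℤ)).obj L))
    fun x => kd_iff.1 (hW x))

theorem kd_tot_right (s : TotStr K W deg t) (h : Tw W deg t) (L : Cx A) (hW : ∀ x, KD L (W x)) :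
    KD L K := by
  have := beilR_iso (F := (Qh : HomotopyCategory A (ComplexShape.up ℤ) ⥤ DerivedCategory A))
    ((HomotopyCategory.quotient A (ComplexShape.up ℤ)).obj L)
  have := beilR_tri (F := (Qh : HomotopyCategory A (ComplexShape.up ℤ) ⥤ DerivedCategory A))
    ((HomotopyCategory.quotient A (ComplexShape.up ℤ)).obj L)
  exact kd_iff.2 (s.devissage_K h
    (BeilR Qh ((HomotopyCategory.quotient A (ComplexShape.up ℤ)).obj L))
    fun x => kd_iff.1 (hW x))

end Pool.Agent.Work.MP_910138_ag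
end

-- merged part: Pool.Agent.Work.MP_910138_ag.RealB
section
/-! The matrix Hom-complexes compute the cohomology of the Hom-complexes. -/

open CategoryTheory Limits CochainComplex.HomComplex

namespace Pool.Agent.Work.MP_910138_ag

universe v u

variable {A : Type u} [Category.{v} A] [Abelian A] [HasCoproductsOfShape ℤ A] [Linear (ZMod 2) A]
  [HasDerivedCategory A] {P : Type} [Preorder P] (Γ : GamData A P)
  {Z Z' : Ob P} {n : ℤ}

theorem realb_eq_one {c : ZMod 2} (h : c ≠ 0) : c = 1 := by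
  revert c
  decide

theorem GamData.realb_rl_zero {Y Y' : Gen P} {g : Pr Y Y'} (hg : SP Y Y' n g) (x : Y.G)
    (y : Y'.G) {ψ : U (Γ.W (Y.l x)) ⟶ U (Γ.W (Y'.l y))} (hψ : Hg (n + Y.deg x - Y'.deg y - 1) ψ)
    (h : Γ.rl g x y = dl ψ) : g.1 x y = 0 ∧ g.2 x y = 0 := by
  have h1 : g.1 x y = 0 := by
    by_contra h1
    obtain ⟨a1, a2, a3⟩ := hg.1 x y h1
    have h2 : g.2 x y = 0 := by
      by_contra h2
      have := (hg.2 x y h2).2.2
      omega
    rw [GamData.rl, h2, zero_smul, add_zero, realb_eq_one h1, one_smul] at h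
    exact Γ.inj_e _ _ ⟨a1, a2⟩ ψ (hψ.of_eq (by omega)) h
  refine ⟨h1, ?_⟩
  by_contra h2
  obtain ⟨a1, a2, a3⟩ := hg.2 x y h2
  rw [GamData.rl, h1, zero_smul, zero_add, realb_eq_one h2, one_smul] at h
  exact Γ.inj_a _ _ ⟨a1, a2⟩ ψ (hψ.of_eq (by omega)) h

theorem GamData.realU_injective {f : Pr Z.toGen Z'.toGen} (hf : SP Z.toGen Z'.toGen n f)
    (h : Γ.realU Z Z' f = 0) : f = 0 := by
  have key : ∀ x y, f.1 x y = 0 ∧ f.2 x y = 0 := fun x y => by
    refine Γ.realb_rl_zero hf x y Hg.zero ?_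
    rw [dl_zero, ← inc_asm_pr (Γ.ts Z) (Γ.ts Z') (Γ.rl f) x y]
    change (Γ.ts Z).inc x ≫ Γ.realU Z Z' f ≫ (Γ.ts Z').pr y = 0
    rw [h, zero_comp, comp_zero]
  exact Prod.ext (Matrix.ext fun x y => (key x y).1) (Matrix.ext fun x y => (key x y).2)

theorem GamData.realb_sums (ψ : ∀ x y, U (Γ.W (Z.toGen.l x)) ⟶ U (Γ.W (Z'.toGen.l y))) (k : ℤ)
    (h : ∀ x y, Z'.deg y - Z.deg x < k → ψ x y = 0) (x : Z.G) (y : Z'.G)
    (hk : Z'.deg y - Z.deg x ≤ k) :
    ∑ x', Γ.rl Z.D x x' ≫ ψ x' y = 0 ∧ ∑ y', ψ x y' ≫ Γ.rl Z'.D y' y = 0 := by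
  constructor
  · refine Finset.sum_eq_zero fun x' _ => ?_
    by_cases ht : Γ.rl Z.D x x' = 0
    · rw [ht, zero_comp]
    · have := (Γ.tw Z).tri x x' ht
      rw [h x' y (by omega), comp_zero]
  · refine Finset.sum_eq_zero fun y' _ => ?_
    by_cases ht : Γ.rl Z'.D y' y = 0
    · rw [ht, comp_zero]
    · have := (Γ.tw Z').tri y' y ht
      rw [h x y' (by omega), zero_comp]

/-- One step of the filtration argument. -/
theorem GamData.realb_step {φ : U (Γ.totObj Z) ⟶ U (Γ.totObj Z')} (hφ : Hg n φ)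
    {g : Pr Z.toGen Z'.toGen} (hg : SP Z.toGen Z'.toGen (n + 1) g) (h : dl φ = Γ.realU Z Z' g)
    (k : ℤ) (h0 : ∀ x y, Z'.deg y - Z.deg x < k → (Γ.ts Z).inc x ≫ φ ≫ (Γ.ts Z').pr y = 0) :
    ∃ f ψ, SP Z.toGen Z'.toGen n f ∧ Hg (n - 1) ψ ∧ ∀ x y, Z'.deg y - Z.deg x < k + 1 →
      (Γ.ts Z).inc x ≫ (φ + Γ.realU Z Z' f + dl ψ) ≫ (Γ.ts Z').pr y = 0 := by
  have key : ∀ x y, ∃ (c0 c1 : ZMod 2) (ψ : U (Γ.W (Z.toGen.l x)) ⟶ U (Γ.W (Z'.toGen.l y))),
      Hg (n + Z.deg x - Z'.deg y - 1) ψ ∧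
      (c0 ≠ 0 → rel0 (Z.toGen.l x) (Z'.toGen.l y) ∧ n + Z.deg x - Z'.deg y = 0) ∧
      (c1 ≠ 0 → rel1 (Z.toGen.l x) (Z'.toGen.l y) ∧ n + Z.deg x - Z'.deg y = -1) ∧
      (Z'.deg y - Z.deg x < k → ψ = 0) ∧ (Z'.deg y - Z.deg x ≤ k →
        (Γ.ts Z).inc x ≫ φ ≫ (Γ.ts Z').pr y = c0 • Γ.e _ _ + c1 • Γ.a _ _ + dl ψ) := by
    intro x y
    by_cases hk : Z'.deg y - Z.deg x = k
    · have hc := hg_component (Γ.ts Z) (Γ.ts Z') hφ x y
      obtain ⟨s1, s2⟩ := Γ.realb_sums (fun x y => (Γ.ts Z).inc x ≫ φ ≫ (Γ.ts Z').pr y) k h0 x y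
        hk.le
      have h1 := dl_component (Γ.ts Z) (Γ.ts Z') φ x y
      rw [s1, s2, add_zero, add_zero, h, GamData.realU, inc_asm_pr] at h1
      obtain ⟨g1, g2⟩ := Γ.realb_rl_zero hg x y (hc.of_eq (by omega)) h1
      rw [GamData.rl, g1, g2, zero_smul, zero_smul, add_zero] at h1
      obtain ⟨c0, c1, ψ, a1, a2, a3, a4⟩ := Γ.surj _ _ _ _ hc h1.symm
      exact ⟨c0, c1, ψ, a1, a2, a3, fun hlt => absurd hlt (by omega), fun _ => a4⟩
    · refine ⟨0, 0, 0, Hg.zero, fun h => absurd rfl h, fun h => absurd rfl h, fun _ => rfl,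
        fun hle => ?_⟩
      rw [h0 x y (by omega), zero_smul, zero_smul, dl_zero, add_zero, add_zero]
  choose c0 c1 ψ a1 a2 a3 a4 a5 using key
  refine ⟨(Matrix.of c0, Matrix.of c1), asm (Γ.ts Z) (Γ.ts Z') ψ, ⟨fun x y hc => ?_,
    fun x y hc => ?_⟩, hg_asm _ _ fun x y => (a1 x y).of_eq (by omega), fun x y hk => ?_⟩
  · obtain ⟨b1, b2⟩ := a2 x y hc
    exact ⟨b1.1, b1.2, by omega⟩
  · obtain ⟨b1, b2⟩ := a3 x y hc
    exact ⟨b1.1, b1.2, by omega⟩
  · obtain ⟨s1, s2⟩ := Γ.realb_sums ψ k a4 x y (by omega)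
    rw [Preadditive.add_comp, Preadditive.add_comp, Preadditive.comp_add, Preadditive.comp_add,
      dl_asm, inc_asm_pr, GamData.realU, inc_asm_pr, s1, s2, add_zero, add_zero, add_assoc,
      a5 x y (by omega)]
    exact add_self2 _

theorem GamData.realb_ind (B : ℤ) (hB : ∀ x y, Z'.deg y - Z.deg x < B) (j : ℕ) :
    ∀ {φ : U (Γ.totObj Z) ⟶ U (Γ.totObj Z')} {g : Pr Z.toGen Z'.toGen}, Hg n φ →
      SP Z.toGen Z'.toGen (n + 1) g → dl φ = Γ.realU Z Z' g →
      (∀ x y, Z'.deg y - Z.deg x < B - j → (Γ.ts Z).inc x ≫ φ ≫ (Γ.ts Z').pr y = 0) →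
      ∃ f ψ, SP Z.toGen Z'.toGen n f ∧ Hg (n - 1) ψ ∧ φ = Γ.realU Z Z' f + dl ψ := by
  induction j with
  | zero =>
    intro φ g _ _ _ h0
    refine ⟨0, 0, ⟨S0.zero, S1.zero⟩, Hg.zero, ?_⟩
    rw [Γ.realU_zero, dl_zero, add_zero]
    refine asm_ext (Γ.ts Z) (Γ.ts Z') fun x y => ?_
    rw [h0 x y (by have := hB x y; omega), zero_comp, comp_zero]
  | succ j ih =>
    intro φ g hφ hg h h0
    obtain ⟨f, ψ, hf, hψ, h1⟩ := Γ.realb_step hφ hg h _ h0
    have hd : SP Z.toGen Z'.toGen (n + 1) (dP Z Z' f) := by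
      have e1 := SP.pm Z.spD hf (add_comm 1 n)
      have e2 := SP.pm hf Z'.spD rfl
      exact ⟨e1.1.add e2.1, e1.2.add e2.2⟩
    obtain ⟨f', ψ', hf', hψ', h2⟩ := ih (g := g + dP Z Z' f)
      ((hφ.add (Γ.hg_realU hf)).add (hψ.dl (by omega))) ⟨hg.1.add hd.1, hg.2.add hd.2⟩
      (by rw [dl_add, dl_add, dl_dl, add_zero, h, Γ.dl_realU hf, Γ.realU_add])
      fun x y hk => h1 x y (by push_cast at hk ⊢; omega)
    refine ⟨f' + f, ψ' + ψ, ⟨hf'.1.add hf.1, hf'.2.add hf.2⟩, hψ'.add hψ, ?_⟩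
    rw [Γ.realU_add, dl_add, add_add_add_comm, ← h2, add_assoc φ, add_assoc φ, add_self2,
      add_zero]

theorem GamData.real_filt {φ : U (Γ.totObj Z) ⟶ U (Γ.totObj Z')} (hφ : Hg n φ)
    {g : Pr Z.toGen Z'.toGen} (hg : SP Z.toGen Z'.toGen (n + 1) g) (h : dl φ = Γ.realU Z Z' g) :
    ∃ f ψ, SP Z.toGen Z'.toGen n f ∧ Hg (n - 1) ψ ∧ φ = Γ.realU Z Z' f + dl ψ := by
  obtain ⟨B, hB⟩ := (Set.finite_range fun p : Z.G × Z'.G => |Z'.deg p.2 - Z.deg p.1|).bddAbove
  have hB' : ∀ x y, |Z'.deg y - Z.deg x| ≤ B := fun x y => hB ⟨(x, y), rfl⟩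
  refine Γ.realb_ind (B + 1) (fun x y => ?_) (2 * B + 1).toNat hφ hg h fun x y hk => ?_
  · have := abs_le.1 (hB' x y)
    omega
  · have := abs_le.1 (hB' x y)
    omega

theorem GamData.real_surj {φ : U (Γ.totObj Z) ⟶ U (Γ.totObj Z')} (hφ : Hg n φ) (h : dl φ = 0) :
    ∃ f ψ, SP Z.toGen Z'.toGen n f ∧ dP Z Z' f = 0 ∧ Hg (n - 1) ψ ∧
      φ = Γ.realU Z Z' f + dl ψ := by
  obtain ⟨f, ψ, hf, hψ, e⟩ := Γ.real_filt hφ (g := 0) ⟨S0.zero, S1.zero⟩
    (by rw [h, Γ.realU_zero])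
  refine ⟨f, ψ, hf, ?_, hψ, e⟩
  have e1 := SP.pm Z.spD hf (add_comm 1 n)
  have e2 := SP.pm hf Z'.spD rfl
  refine Γ.realU_injective (n := n + 1) ⟨e1.1.add e2.1, e1.2.add e2.2⟩ ?_
  rw [← Γ.dl_realU hf, ← h, e, dl_add, dl_dl, add_zero]

theorem GamData.real_inj {f : Pr Z.toGen Z'.toGen} (hf : SP Z.toGen Z'.toGen n f)
    {ψ : U (Γ.totObj Z) ⟶ U (Γ.totObj Z')} (hψ : Hg (n - 1) ψ) (h : Γ.realU Z Z' f = dl ψ) :
    ∃ k, SP Z.toGen Z'.toGen (n - 1) k ∧ f = dP Z Z' k := by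
  have hf' : SP Z.toGen Z'.toGen (n - 1 + 1) f := by rwa [sub_add_cancel]
  obtain ⟨k, χ, hk, -, e⟩ := Γ.real_filt hψ hf' h.symm
  refine ⟨k, hk, ?_⟩
  have e1 := SP.pm Z.spD hk (k := n) (by omega)
  have e2 := SP.pm hk Z'.spD (k := n) (by omega)
  have h1 : f + dP Z Z' k = 0 := by
    refine Γ.realU_injective (n := n) ⟨hf.1.add (e1.1.add e2.1), hf.2.add (e1.2.add e2.2)⟩ ?_
    rw [Γ.realU_add, h, e, dl_add, dl_dl, add_zero, Γ.dl_realU hk]
    exact add_self2 _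
  rw [← add_zero f, ← pr_add_self (dP Z Z' k), ← add_assoc, h1, zero_add]

end Pool.Agent.Work.MP_910138_ag
end

-- merged part: Pool.Agent.Work.MP_910138_ag.RealC
section
/-! Fullness and kernel of the realisation; morphisms between the generators. -/

open CategoryTheory Limits CochainComplex.HomComplex

namespace Pool.Agent.Work.MP_910138_ag

universe v u

variable {A : Type u} [Category.{v} A] [Abelian A] [HasCoproductsOfShape ℤ A] [Linear (ZMod 2) A]
  [HasDerivedCategory A] {P : Type} [Preorder P] (Γ : GamData A P)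

open DerivedCategory

theorem GamData.kd_tot (Z Z' : Ob P) : KD (Γ.totObj Z) (Γ.totObj Z') := by
  exact kd_tot_left (Γ.ts Z) (Γ.tw Z) _ fun x =>
    kd_tot_right (Γ.ts Z') (Γ.tw Z') _ fun y => Γ.kd _ _

instance GamData.full_L : Γ.L.Full := by
  refine ⟨fun {Z Z'} φ => ?_⟩
  obtain ⟨g, hg⟩ := (Γ.kd_tot Z Z').map_surjective φ
  obtain ⟨⟨h0, h1⟩, ψ, ⟨hs0, hs1⟩, hd, hψ, he⟩ := Γ.real_surj (hg_mapU g) (dl_mapU g)
  let k : Matrix Z.G Z'.G ℤ := h0.map fun a => (a.val : ℤ)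
  have hk : red k = h0 := by
    ext x y
    simp [red, k]
  have sk : S0 Z.toGen Z'.toGen 0 k := hs0.map _ (by simp)
  let f : Z ⟶ Z' := (⟨k, h1, sk, hs1, by rw [hk]; exact hd⟩ : Mor Z Z')
  have hb : Mor.bar f = (h0, h1) := Prod.ext hk rfl
  refine ⟨f, ?_⟩
  rw [← hg]
  let f' : Γ.totObj Z ⟶ Γ.totObj Z' := Γ.Tot.map f
  have key : mapU f' + mapU g = dl ψ := by
    have e1 : mapU f' = Γ.realU Z Z' (h0, h1) := (Γ.mapU_Tot_map f).trans (by rw [hb])
    rw [e1, he, ← add_assoc, add_self2, zero_add]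
  exact Q_map_eq_of_exact (hψ.of_eq (by norm_num)) key

theorem GamData.L_map_eq_iff {Z Z' : Ob P} (f g : Z ⟶ Z') : Γ.L.map f = Γ.L.map g ↔ Htp f g := by
  have e : mapU (Γ.Tot.map f) + mapU (Γ.Tot.map g) = Γ.realU Z Z' (Mor.bar f + Mor.bar g) := by
    rw [Γ.realU_add]
    exact congrArg₂ (· + ·) (Γ.mapU_Tot_map f) (Γ.mapU_Tot_map g)
  constructor
  · intro h
    obtain ⟨ψ, hψ, he⟩ := (Γ.kd_tot Z Z').exact_of_map_eq
      (φ := Γ.Tot.map f) (ψ := Γ.Tot.map g) h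
    obtain ⟨k, hk, hk'⟩ := Γ.real_inj (n := 0) (f.sp.add g.sp) (ψ := ψ) (hψ.of_eq (by norm_num))
      (e.symm.trans he)
    exact ⟨k, hk, hk'⟩
  · rintro ⟨k, hk, hk'⟩
    refine Q_map_eq_of_exact (φ := Γ.Tot.map f) (ψ := Γ.Tot.map g) (Γ.hg_realU hk) ?_
    refine e.trans ?_
    rw [hk']
    exact (Γ.dl_realU hk).symm

/-- morphisms between the generators in the derived category -/
theorem GamData.hom_cases (α β : P × Bool) (n : ℤ) (φ : Q.obj (Γ.W α) ⟶ (Q.obj (Γ.W β))⟦n⟧) :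
    φ = 0 ∨ (rel0 α β ∧ n = 0 ∧ φ = cl n (Γ.e α β)) ∨ (rel1 α β ∧ n = -1 ∧ φ = cl n (Γ.a α β)) := by
  obtain ⟨f, hf, hd, rfl⟩ := (Γ.kd α β).surj n φ
  obtain ⟨c0, c1, ψ, hψ, h0, h1, rfl⟩ := Γ.surj α β n f hf hd
  have two : ∀ c : ZMod 2, c = 0 ∨ c = 1 := by decide
  rcases two c0 with rfl | rfl <;> rcases two c1 with rfl | rfl
  · left
    rw [zero_smul, zero_smul, add_zero, zero_add, cl_exact hψ]
  · obtain ⟨hr, rfl⟩ := h1 one_ne_zero
    refine Or.inr (Or.inr ⟨hr, rfl, ?_⟩)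
    rw [zero_smul, one_smul, zero_add, cl_add (Γ.hg_a _ _) (Γ.dl_a _ _ hr) (hψ.dl (by norm_num))
      (dl_dl _), cl_exact hψ, add_zero]
  · obtain ⟨hr, rfl⟩ := h0 one_ne_zero
    refine Or.inr (Or.inl ⟨hr, rfl, ?_⟩)
    rw [zero_smul, one_smul, add_zero, cl_add (Γ.hg_e _ _) (Γ.dl_e _ _ hr) (hψ.dl (by norm_num))
      (dl_dl _), cl_exact hψ, add_zero]
  · have := (h0 one_ne_zero).2
    have := (h1 one_ne_zero).2
    omega

theorem GamData.cl_a_ne (α β : P × Bool) (h : rel1 α β) : cl (-1) (Γ.a α β) ≠ 0 := by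
  intro h0
  obtain ⟨ψ, hψ, he⟩ := (Γ.kd α β).inj (-1) _ (Γ.hg_a _ _) (Γ.dl_a _ _ h) h0
  exact Γ.inj_a α β h ψ (hψ.of_eq (by norm_num)) he

theorem GamData.end_cases (u : P) (φ : Q.obj (Γ.W (u, false)) ⟶ Q.obj (Γ.W (u, false))) :
    φ = 0 ∨ φ = 𝟙 _ := by
  rcases Γ.hom_cases (u, false) (u, false) 0
    (φ ≫ (shiftFunctorZero (DerivedCategory A) ℤ).inv.app _) with h | ⟨-, -, h⟩ | ⟨-, h, -⟩
  · left
    rw [← cancel_mono ((shiftFunctorZero (DerivedCategory A) ℤ).inv.app _), h, zero_comp]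
  · right
    rw [Γ.e_self, ← mapU_id, cl_mapU, cancel_mono, CategoryTheory.Functor.map_id] at h
    exact h
  · omega

/-- the generators of type `R` as a diagram of complexes -/
noncomputable def GamData.WR : P ⥤ Cx A where
  obj u := Γ.W (u, true)
  map {u v} h := homU (Γ.e (u, true) (v, true)) (Γ.hg_e _ _) (Γ.dl_e _ _ ⟨h.le, id⟩)
  map_id u := mapU_injective (by rw [mapU_homU, mapU_id, Γ.e_self])
  map_comp {x y z} f g := mapU_injective (by
    rw [mapU_homU, mapU_comp, mapU_homU, mapU_homU,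
      Γ.e_e (x, true) (y, true) (z, true) ⟨f.le, id⟩ ⟨g.le, id⟩])

theorem realc_rl_gen (u : P) (s : Bool) (x y : (genOb u s).G) :
    Γ.rl (genOb u s).D x y = 0 := by
  have h : (genOb u s).D = 0 := Prod.ext red_zero rfl
  rw [h, Γ.rl_zero]

/-- the projection of a one generator total complex -/
noncomputable def realc_pr (u : P) (s : Bool) : U (Γ.totObj (genOb u s)) ⟶ U (Γ.W (u, s)) :=
  (Γ.ts (genOb u s)).pr ()

/-- the inclusion into a one generator total complex -/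
noncomputable def realc_inc (u : P) (s : Bool) : U (Γ.W (u, s)) ⟶ U (Γ.totObj (genOb u s)) :=
  (Γ.ts (genOb u s)).inc ()

theorem realc_hg_pr (u : P) (s : Bool) : Hg 0 (realc_pr Γ u s) :=
  ((Γ.ts (genOb u s)).hpr ()).of_eq neg_zero

theorem realc_hg_inc (u : P) (s : Bool) : Hg 0 (realc_inc Γ u s) :=
  (Γ.ts (genOb u s)).hinc ()

theorem realc_dl_pr (u : P) (s : Bool) : dl (realc_pr Γ u s) = 0 :=
  ((Γ.ts (genOb u s)).dl_pr ()).trans (Finset.sum_eq_zero fun x _ =>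
    (congrArg (_ ≫ ·) (realc_rl_gen Γ u s x ())).trans comp_zero)

theorem realc_dl_inc (u : P) (s : Bool) : dl (realc_inc Γ u s) = 0 :=
  ((Γ.ts (genOb u s)).dl_inc ()).trans (Finset.sum_eq_zero fun x _ =>
    (congrArg (· ≫ _) (realc_rl_gen Γ u s () x)).trans zero_comp)

theorem realc_inc_pr (u : P) (s : Bool) : realc_inc Γ u s ≫ realc_pr Γ u s = 𝟙 _ :=
  (Γ.ts (genOb u s)).inc_pr_self ()

theorem realc_pr_inc (u : P) (s : Bool) : realc_pr Γ u s ≫ realc_inc Γ u s = 𝟙 _ := by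
  have h := (Γ.ts (genOb u s)).total
  rw [Finset.sum_eq_single (show (genOb u s).G from ()) (fun b _ hb => absurd rfl hb)
    (fun hb => absurd (Finset.mem_univ _) hb)] at h
  exact h

/-- the total complex with one generator -/
noncomputable def realc_iso (u : P) (s : Bool) : Γ.totObj (genOb u s) ≅ Γ.W (u, s) where
  hom := homU (realc_pr Γ u s) (realc_hg_pr Γ u s) (realc_dl_pr Γ u s)
  inv := homU (realc_inc Γ u s) (realc_hg_inc Γ u s) (realc_dl_inc Γ u s)
  hom_inv_id := mapU_injective (by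
    rw [mapU_comp, mapU_homU, mapU_homU, mapU_id, realc_pr_inc])
  inv_hom_id := mapU_injective (by
    rw [mapU_comp, mapU_homU, mapU_homU, mapU_id, realc_inc_pr])

theorem realc_nat {u v : P} (f : u ⟶ v) :
    Γ.realU (genOb u true) (genOb v true) (Mor.bar ((genFun P).map f)) ≫ realc_pr Γ v true =
      realc_pr Γ u true ≫ Γ.e (u, true) (v, true) := by
  have h := inc_asm_pr (Γ.ts (genOb u true)) (Γ.ts (genOb v true))
    (Γ.rl (Mor.bar ((genFun P).map f))) () ()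
  have h1 : Γ.rl (Z := (genOb u true).toGen) (Z' := (genOb v true).toGen)
      (Mor.bar ((genFun P).map f)) () () = Γ.e (u, true) (v, true) := by
    have a1 : (Mor.bar ((genFun P).map f)).1 () () = 1 := by
      change red (1 : Matrix Unit Unit ℤ) () () = 1
      rw [red_one]
      rfl
    have a2 : (Mor.bar ((genFun P).map f)).2 () () = 0 := rfl
    have a3 : ∀ c d : ZMod 2, c = 1 → d = 0 →
        c • Γ.e (u, true) (v, true) + d • Γ.a (u, true) (v, true) = Γ.e (u, true) (v, true) := by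
      rintro _ _ rfl rfl
      simp
    exact a3 _ _ a1 a2
  have h2 : realc_inc Γ u true ≫ Γ.realU (genOb u true) (genOb v true)
      (Mor.bar ((genFun P).map f)) ≫ realc_pr Γ v true = Γ.e (u, true) (v, true) := h.trans h1
  rw [← h2, ← Category.assoc (realc_pr Γ u true), realc_pr_inc, Category.id_comp]

theorem GamData.nonempty_genIso : Nonempty (genFun P ⋙ Γ.Tot ≅ Γ.WR) := by
  refine ⟨NatIso.ofComponents (fun u => realc_iso Γ u true) fun {u v} f => mapU_injective ?_⟩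
  have e1 : mapU (Γ.Tot.map ((genFun P).map f)) =
      Γ.realU (genOb u true) (genOb v true) (Mor.bar ((genFun P).map f)) := Γ.mapU_Tot_map _
  have e2 : ∀ w, mapU (realc_iso Γ w true).hom = realc_pr Γ w true := fun w => mapU_homU _ _ _
  have e3 : mapU (Γ.WR.map f) = Γ.e (u, true) (v, true) := mapU_homU _ _ _
  refine (mapU_comp _ _).trans (Eq.trans ?_ (mapU_comp _ _).symm)
  exact (congrArg₂ (· ≫ ·) e1 (e2 v)).trans
    ((realc_nat Γ f).trans (congrArg₂ (· ≫ ·) (e2 u) e3).symm)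

theorem GamData.nonempty_genObIso (u : P) (s : Bool) :
    Nonempty (Γ.totObj (genOb u s) ≅ Γ.W (u, s)) := by
  exact ⟨realc_iso Γ u s⟩

theorem GamData.isZero_zeroOb : IsZero (Γ.L.obj (zeroOb P)) := by
  have h : IsZero (Γ.totObj (zeroOb P)) := by
    rw [IsZero.iff_id_eq_zero]
    refine mapU_injective ?_
    rw [mapU_id, mapU_zero]
    exact (Γ.ts (zeroOb P)).ext_from fun x => Empty.elim x
  exact Q.map_isZero h

theorem GamData.bij_top [OrderTop P] (u v : P) (h : u ≤ v) : Function.Bijective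
    (fun φ : Q.obj (Γ.WR.obj u) ⟶ (Q.obj (Γ.WR.obj v))⟦(-1 : ℤ)⟧ =>
      φ ≫ (Q.map (Γ.WR.map (homOfLE (le_top : v ≤ ⊤))))⟦(-1 : ℤ)⟧') := by
  have r1 : rel1 (u, true) (v, true) := ⟨h, rfl⟩
  have r2 : rel1 (u, true) ((⊤ : P), true) := ⟨le_top, rfl⟩
  have r3 : rel0 (v, true) ((⊤ : P), true) := ⟨le_top, id⟩
  let g : Γ.W (v, true) ⟶ Γ.W (⊤, true) := Γ.WR.map (homOfLE (le_top : v ≤ ⊤))
  have e3 : mapU g = Γ.e (v, true) (⊤, true) := mapU_homU _ _ _
  have key : cl (-1) (Γ.a (u, true) (v, true)) ≫ (Q.map g)⟦(-1 : ℤ)⟧' =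
      cl (-1) (Γ.a (u, true) (⊤, true)) := by
    rw [← cl_postcomp g (Γ.hg_a _ _) (Γ.dl_a _ _ r1), e3, Γ.a_e _ _ _ r1 r3, if_pos rfl]
  have hne := Γ.cl_a_ne _ _ r2
  have cases : ∀ (w : P) (φ : Q.obj (Γ.W (u, true)) ⟶ (Q.obj (Γ.W (w, true)))⟦(-1 : ℤ)⟧),
      φ = 0 ∨ φ = cl (-1) (Γ.a (u, true) (w, true)) := by
    intro w φ
    rcases Γ.hom_cases (u, true) (w, true) (-1) φ with h | ⟨-, h, -⟩ | ⟨-, -, h⟩
    · exact Or.inl h
    · omega
    · exact Or.inr h
  have main : Function.Bijective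
      (fun φ : Q.obj (Γ.W (u, true)) ⟶ (Q.obj (Γ.W (v, true)))⟦(-1 : ℤ)⟧ =>
        φ ≫ (Q.map g)⟦(-1 : ℤ)⟧') := by
    constructor
    · intro φ ψ e
      simp only at e
      rcases cases v φ with rfl | rfl <;> rcases cases v ψ with rfl | rfl
      · rfl
      · rw [key, zero_comp] at e
        exact absurd e.symm hne
      · rw [key, zero_comp] at e
        exact absurd e hne
      · rfl
    · intro ψ
      rcases cases ⊤ ψ with rfl | rfl
      · exact ⟨0, zero_comp⟩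
      · exact ⟨_, key⟩
  exact main

end Pool.Agent.Work.MP_910138_ag
end

-- merged part: Pool.Agent.Work.MP_910138_ag.Adm
section
/-! A subcategory generated by a finite exceptional collection is admissible (Bondal). -/

open CategoryTheory Limits Pretriangulated

namespace Pool.Agent.Work.MP_910138_ag

universe v u v' u'

set_option linter.unusedSectionVars false

variable {k : Type} [Field k] {D : Type u} [Category.{v} D] [HasZeroObject D]
  [Preadditive D] [HasShift D ℤ] [∀ n : ℤ, (shiftFunctor D n).Additive] [Pretriangulated D]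
  [IsTriangulated D] [Linear k D] [∀ n : ℤ, (shiftFunctor D n).Linear k]

variable (k) in
/-- a finite exceptional collection generating `A` -/
structure ExcColl (A : ObjectProperty D) {J : Type} (E : J → D) (rk : J → ℕ) : Prop where
  mem : ∀ i, A (E i)
  self0 : ∀ (i : J) (φ : E i ⟶ E i), ∃ c : k, φ = c • 𝟙 _
  selfn : ∀ (i : J) (n : ℤ), n ≠ 0 → ∀ φ : E i ⟶ (E i)⟦n⟧, φ = 0
  orth : ∀ i j : J, i ≠ j → rk i ≤ rk j → ∀ (n : ℤ) (φ : E j ⟶ (E i)⟦n⟧), φ = 0
  gen : ∀ P : ObjectProperty D, P.IsTriangulated → P.IsClosedUnderIsomorphisms →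
    (∀ i, P (E i)) → A ≤ P

/-- abstract descent on the total dimension -/
theorem adm_descent {X : Type u} (H : X → ℤ → Type v) [∀ C n, AddCommGroup (H C n)]
    [∀ C n, Module k (H C n)] (R : X → X → Prop) (hrefl : ∀ C, R C C)
    (htrans : ∀ C₁ C₂ C₃, R C₁ C₂ → R C₂ C₃ → R C₁ C₃)
    (step : ∀ (C : X) (n : ℤ) (x : H C n), x ≠ 0 → ∃ C₁, R C C₁ ∧
      ∃ f : ∀ m, H C m →ₗ[k] H C₁ m, (∀ m, Function.Surjective (f m)) ∧ f n x = 0)
    (C : X) (hfin : ∀ n, Module.Finite k (H C n)) (hS : {n : ℤ | ∃ x : H C n, x ≠ 0}.Finite) :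
    ∃ C', R C C' ∧ ∀ (n : ℤ) (x : H C' n), x = 0 := by
  classical
  obtain ⟨S, hS'⟩ : ∃ S : Finset ℤ, ∀ n, n ∉ S → ∀ x : H C n, x = 0 := by
    refine ⟨hS.toFinset, fun n hn x => ?_⟩
    by_contra hx
    exact hn (hS.mem_toFinset.2 ⟨x, hx⟩)
  clear hS
  obtain ⟨N, hN⟩ : ∃ N, ∑ n ∈ S, Module.finrank k (H C n) = N := ⟨_, rfl⟩
  induction N using Nat.strong_induction_on generalizing C with
  | _ N ih =>
    by_cases h0 : ∀ (n : ℤ) (x : H C n), x = 0
    · exact ⟨C, hrefl C, h0⟩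
    push Not at h0
    obtain ⟨n, x, hx⟩ := h0
    obtain ⟨C₁, hR, f, hf, hfx⟩ := step C n x hx
    have hn : n ∈ S := by
      by_contra hn
      exact hx (hS' n hn x)
    have hfin₁ : ∀ m, Module.Finite k (H C₁ m) := fun m => by
      have := hfin m
      exact Module.Finite.of_surjective (f m) (hf m)
    have hS₁ : ∀ m, m ∉ S → ∀ y : H C₁ m, y = 0 := fun m hm y => by
      obtain ⟨z, rfl⟩ := hf m y
      rw [hS' m hm z, map_zero]
    have hlt : ∑ m ∈ S, Module.finrank k (H C₁ m) < N := by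
      rw [← hN]
      refine Finset.sum_lt_sum (fun m _ => ?_) ⟨n, hn, ?_⟩
      · have := hfin m
        exact LinearMap.finrank_le_finrank_of_surjective (hf m)
      · have := hfin n
        have h1 := LinearMap.finrank_range_add_finrank_ker (f n)
        have h2 : LinearMap.range (f n) = ⊤ := LinearMap.range_eq_top.2 (hf n)
        rw [h2, finrank_top] at h1
        have h3 : 0 < Module.finrank k (LinearMap.ker (f n)) := by
          rw [Module.finrank_pos_iff_exists_ne_zero]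
          exact ⟨⟨x, hfx⟩, fun h => hx (congrArg Subtype.val h)⟩
        omega
    obtain ⟨C', hR', hC'⟩ := ih _ hlt C₁ hfin₁ hS₁ rfl
    exact ⟨C', htrans _ _ _ hR hR', hC'⟩

/-- the objects isomorphic to a shift of `X` -/
def adm_Sh (X : D) : ObjectProperty D := ObjectProperty.shiftClosure (fun Y => Y = X) ℤ

instance adm_Sh_stable (X : D) : (adm_Sh X).IsStableUnderShift ℤ := by
  unfold adm_Sh
  infer_instance

omit [IsTriangulated D] in
theorem adm_Sh_shift (X : D) (a : ℤ) : adm_Sh X (X⟦a⟧) := ⟨X, a, Iso.refl _, rfl⟩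

omit [IsTriangulated D] in
theorem adm_Sh_self (X : D) : adm_Sh X X := ObjectProperty.le_shiftClosure _ X rfl

omit [IsTriangulated D] in
theorem adm_right_iff (X Y : D) :
    (adm_Sh X).rightOrthogonal Y ↔ ∀ (n : ℤ) (φ : X ⟶ Y⟦n⟧), φ = 0 := by
  constructor
  · intro h n φ
    exact ((adm_Sh X).rightOrthogonal.le_shift n Y h) φ (adm_Sh_self X)
  · rintro h Z f ⟨X', a, e, rfl⟩
    have h2 : e.inv ≫ f = 0 :=
      ((shiftEquiv D a).toAdjunction.homEquiv _ _).injective ((h (-a) _).trans (h (-a) _).symm)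
    rw [← cancel_epi e.inv, h2, comp_zero]

omit [IsTriangulated D] in
theorem adm_left_iff (X Y : D) :
    (adm_Sh Y).leftOrthogonal X ↔ ∀ (n : ℤ) (φ : X ⟶ Y⟦n⟧), φ = 0 := by
  constructor
  · intro h n φ
    exact h φ (adm_Sh_shift Y n)
  · rintro h Z f ⟨Y', a, e, rfl⟩
    rw [← cancel_mono e.hom, h a (f ≫ e.hom), zero_comp]

omit [IsTriangulated D] [∀ n : ℤ, (shiftFunctor D n).Linear k] in
/-- a morphism between shifts of an exceptional object is zero or invertible -/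
theorem adm_zero_or_iso {E : D} (h0 : ∀ φ : E ⟶ E, ∃ c : k, φ = c • 𝟙 _)
    (hn : ∀ n : ℤ, n ≠ 0 → ∀ φ : E ⟶ E⟦n⟧, φ = 0) {X Y : D} (hX : adm_Sh E X) (hY : adm_Sh E Y)
    (t : X ⟶ Y) : t = 0 ∨ IsIso t := by
  obtain ⟨E₁, a, eX, hE₁⟩ := hX
  obtain ⟨E₂, b, eY, hE₂⟩ := (adm_Sh E).le_shift (-a) Y hY
  obtain rfl : E = E₁ := hE₁.symm
  obtain rfl : E = E₂ := hE₂.symm
  let e1 : X⟦-a⟧ ≅ E := (shiftFunctor D (-a)).mapIso eX ≪≫ shiftShiftNeg E a
  have key : t⟦-a⟧' = 0 ∨ IsIso (t⟦-a⟧') := by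
    by_cases hb : b = 0
    · subst hb
      let e2 : Y⟦-a⟧ ≅ E := eY ≪≫ (shiftFunctorZero D ℤ).app E
      obtain ⟨c, hc⟩ := h0 (e1.inv ≫ t⟦-a⟧' ≫ e2.hom)
      have ht : t⟦-a⟧' = c • (e1.hom ≫ e2.inv) := by
        rw [← cancel_epi e1.inv, ← cancel_mono e2.hom, Category.assoc, hc]
        simp
      by_cases hc0 : c = 0
      · left
        rw [ht, hc0, zero_smul]
      · right
        rw [ht]
        exact ⟨c⁻¹ • (e2.hom ≫ e1.inv), by simp [smul_smul, hc0], by simp [smul_smul, hc0]⟩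
    · left
      have := hn b hb (e1.inv ≫ t⟦-a⟧' ≫ eY.hom)
      rw [← cancel_epi e1.inv, ← cancel_mono eY.hom, Category.assoc, this]
      simp
  rcases key with h | h
  · left
    exact (shiftFunctor D (-a)).map_injective (by rw [h, Functor.map_zero])
  · right
    exact isIso_of_reflects_iso t (shiftFunctor D (-a))

omit [IsTriangulated D] in
theorem adm_trW_target {P : ObjectProperty D} [P.IsTriangulated] [P.IsClosedUnderIsomorphisms]
    {X Y : D} {w : X ⟶ Y} (hw : P.trW w) (hX : P X) : P Y := by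
  obtain ⟨Z, g, h, hT, hZ⟩ := hw
  exact P.ext_of_isTriangulatedClosed₂ _ hT hX hZ

omit [IsTriangulated D] in
theorem adm_trW_source {P : ObjectProperty D} [P.IsTriangulated] [P.IsClosedUnderIsomorphisms]
    {X Y : D} {w : X ⟶ Y} (hw : P.trW w) (hY : P Y) : P X := by
  obtain ⟨Z, g, h, hT, hZ⟩ := hw
  exact P.ext_of_isTriangulatedClosed₁ _ hT hY hZ

set_option backward.isDefEq.respectTransparency false in
theorem adm_kill_left {E : D} (h0 : ∀ φ : E ⟶ E, ∃ c : k, φ = c • 𝟙 _)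
    (hn : ∀ n : ℤ, n ≠ 0 → ∀ φ : E ⟶ E⟦n⟧, φ = 0) (C : D) (hC : TotFin k E C) :
    ∃ C' : D, (∃ w : C ⟶ C', ∀ P : ObjectProperty D, P.IsTriangulated →
      P.IsClosedUnderIsomorphisms → P E → P.trW w) ∧ ∀ (n : ℤ) (φ : E ⟶ C'⟦n⟧), φ = 0 := by
  refine adm_descent (k := k) (fun C n => (E ⟶ C⟦n⟧))
    (fun C C' => ∃ w : C ⟶ C', ∀ P : ObjectProperty D, P.IsTriangulated →
      P.IsClosedUnderIsomorphisms → P E → P.trW w) ?_ ?_ ?_ C hC.1 hC.2
  · intro C
    exact ⟨𝟙 C, fun P _ _ _ => P.trW.id_mem C⟩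
  · rintro C₁ C₂ C₃ ⟨w₁, hw₁⟩ ⟨w₂, hw₂⟩
    exact ⟨w₁ ≫ w₂, fun P h1 h2 h3 => P.trW.comp_mem _ _ (hw₁ P h1 h2 h3) (hw₂ P h1 h2 h3)⟩
  · intro C n x hx
    let e : (C⟦n⟧)⟦-n⟧ ≅ C := shiftShiftNeg C n
    let φ : E⟦-n⟧ ⟶ C := x⟦-n⟧' ≫ e.hom
    have hφ : φ ≠ 0 := by
      intro h
      apply hx
      apply (shiftFunctor D (-n)).map_injective
      rw [Functor.map_zero, ← cancel_mono e.hom, zero_comp]
      exact h
    obtain ⟨C₁, w, δ, hT⟩ := distinguished_cocone_triangle φ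
    refine ⟨C₁, ⟨w, fun P _ _ hP => ObjectProperty.trW.mk' P hT (P.le_shift _ _ hP)⟩,
      fun m => Linear.rightComp k E (w⟦m⟧'), fun m g => ?_, ?_⟩
    · have hT' := Triangle.shift_distinguished _ hT m
      set T' := (CategoryTheory.shiftFunctor (Triangle D) m).obj (Triangle.mk φ w δ) with hT'def
      have hm1 : T'.mor₁ = m.negOnePow • φ⟦m⟧' := rfl
      have hm2 : T'.mor₂ = m.negOnePow • w⟦m⟧' := rfl
      have hsh : adm_Sh E (T'.obj₁⟦(1 : ℤ)⟧) :=
        (adm_Sh E).le_shift 1 _ ((adm_Sh E).le_shift m _ (adm_Sh_shift E (-n)))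
      have hg : (g : E ⟶ T'.obj₃) ≫ T'.mor₃ = 0 := by
        rcases adm_zero_or_iso h0 hn (adm_Sh_self E) hsh ((g : E ⟶ T'.obj₃) ≫ T'.mor₃) with h | h
        · exact h
        · exfalso
          have h1 : ((g : E ⟶ T'.obj₃) ≫ T'.mor₃) ≫ T'.mor₁⟦(1 : ℤ)⟧' = 0 := by
            rw [Category.assoc, comp_distTriang_mor_zero₃₁ _ hT', comp_zero]
          have h2 : T'.mor₁⟦(1 : ℤ)⟧' = 0 := by
            rw [← cancel_epi ((g : E ⟶ T'.obj₃) ≫ T'.mor₃), h1, comp_zero]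
          have h3 : T'.mor₁ = 0 :=
            (shiftFunctor D (1 : ℤ)).map_injective (by rw [h2, Functor.map_zero])
          rw [hm1, smul_eq_zero_iff_eq] at h3
          exact hφ ((shiftFunctor D m).map_injective (by rw [h3, Functor.map_zero]))
      obtain ⟨g', hg'⟩ := Triangle.coyoneda_exact₃ _ hT' g hg
      refine ⟨m.negOnePow • (g' : E ⟶ C⟦m⟧), ?_⟩
      rw [hg', hm2]
      simp
    · have h1 : φ ≫ w = 0 := comp_distTriang_mor_zero₁₂ _ hT
      show x ≫ w⟦n⟧' = 0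
      apply (shiftFunctor D (-n)).map_injective
      rw [Functor.map_zero, Functor.map_comp, ← cancel_mono (shiftShiftNeg C₁ n).hom, zero_comp,
        Category.assoc]
      have h2 : w⟦n⟧'⟦-n⟧' ≫ (shiftShiftNeg C₁ n).hom = e.hom ≫ w :=
        (shiftEquiv D n).unitIso.inv.naturality w
      rw [h2, ← Category.assoc]
      exact h1

set_option backward.isDefEq.respectTransparency false in
theorem adm_kill_right {E : D} (h0 : ∀ φ : E ⟶ E, ∃ c : k, φ = c • 𝟙 _)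
    (hn : ∀ n : ℤ, n ≠ 0 → ∀ φ : E ⟶ E⟦n⟧, φ = 0) (C : D) (hC : TotFin k C E) :
    ∃ C' : D, (∃ w : C' ⟶ C, ∀ P : ObjectProperty D, P.IsTriangulated →
      P.IsClosedUnderIsomorphisms → P E → P.trW w) ∧ ∀ (n : ℤ) (φ : C' ⟶ E⟦n⟧), φ = 0 := by
  refine adm_descent (k := k) (fun C n => (C ⟶ E⟦n⟧))
    (fun C C' => ∃ w : C' ⟶ C, ∀ P : ObjectProperty D, P.IsTriangulated →
      P.IsClosedUnderIsomorphisms → P E → P.trW w) ?_ ?_ ?_ C hC.1 hC.2
  · intro C
    exact ⟨𝟙 C, fun P _ _ _ => P.trW.id_mem C⟩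
  · rintro C₁ C₂ C₃ ⟨w₁, hw₁⟩ ⟨w₂, hw₂⟩
    exact ⟨w₂ ≫ w₁, fun P h1 h2 h3 => P.trW.comp_mem _ _ (hw₂ P h1 h2 h3) (hw₁ P h1 h2 h3)⟩
  · intro C n x hx
    obtain ⟨C₁, w, δ, hT⟩ := distinguished_cocone_triangle₁ x
    refine ⟨C₁, ⟨w, fun P _ _ hP => ObjectProperty.trW.mk P hT (P.le_shift _ _ hP)⟩,
      fun m => Linear.leftComp k (E⟦m⟧) w, fun m g => ?_, ?_⟩
    · have hT' := inv_rot_of_distTriang _ hT
      have hT'' := inv_rot_of_distTriang _ hT'
      set T' := (Triangle.mk w x δ).invRotate with hT'def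
      have hsh : adm_Sh E T'.obj₁ := (adm_Sh E).le_shift (-1) _ (adm_Sh_shift E n)
      have hg : T'.mor₁ ≫ (g : T'.obj₂ ⟶ E⟦m⟧) = 0 := by
        rcases adm_zero_or_iso h0 hn hsh (adm_Sh_shift E m) (T'.mor₁ ≫ (g : T'.obj₂ ⟶ E⟦m⟧))
          with h | h
        · exact h
        · exfalso
          have h1 : T'.invRotate.mor₁ ≫ T'.mor₁ = 0 := comp_distTriang_mor_zero₁₂ _ hT''
          have h2 : T'.invRotate.mor₁ = 0 := by
            rw [← cancel_mono (T'.mor₁ ≫ (g : T'.obj₂ ⟶ E⟦m⟧)), ← Category.assoc, h1, zero_comp,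
              zero_comp]
          have h3 : Mono T'.mor₁ := (Triangle.mor₁_eq_zero_iff_mono₂ _ hT'').1 h2
          have h4 : T'.mor₃ = 0 := (Triangle.mor₃_eq_zero_iff_mono₁ _ hT').2 h3
          have h5 : T'.mor₃ = x ≫ (shiftEquiv D (1 : ℤ)).counitIso.inv.app _ := rfl
          rw [h5] at h4
          exact hx (by rw [← cancel_mono ((shiftEquiv D (1 : ℤ)).counitIso.inv.app _), h4,
            zero_comp])
      obtain ⟨g', hg'⟩ := Triangle.yoneda_exact₂ _ hT' g hg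
      exact ⟨g', hg'.symm⟩
    · exact comp_distTriang_mor_zero₁₂ _ hT

variable {A B : ObjectProperty D} [A.IsTriangulated] [A.IsClosedUnderIsomorphisms]
  {J : Type} [Finite J] {E : J → D} {rk : J → ℕ}

theorem adm_proj_left (h : ExcColl k A E rk) (hE : ∀ i j, TotFin k (E i) (E j)) (C : D)
    (hC : ∀ i, TotFin k (E i) C) :
    ∃ (C' : D) (w : C ⟶ C'), A.trW w ∧ A.rightOrthogonal C' := by
  classical
  have := Fintype.ofFinite J
  have main : ∀ S : Finset J, ∃ (C' : D) (w : C ⟶ C'), A.trW w ∧ (∀ i, TotFin k (E i) C') ∧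
      ∀ j ∈ S, (adm_Sh (E j)).rightOrthogonal C' := by
    intro S
    induction S using Finset.induction_on_min_value rk with
    | empty => exact ⟨C, 𝟙 C, A.trW.id_mem C, hC, by simp⟩
    | insert a S ha hmin ih =>
      obtain ⟨C', w, hw, hfin, hvan⟩ := ih
      obtain ⟨C'', ⟨w', hw'⟩, hz⟩ := adm_kill_left (h.self0 a) (h.selfn a) C' (hfin a)
      refine ⟨C'', w ≫ w', A.trW.comp_mem _ _ hw (hw' A inferInstance inferInstance (h.mem a)),
        fun i => ?_, fun j hj => ?_⟩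
      · exact adm_trW_target (P := finFrom k (E i))
          (hw' _ inferInstance inferInstance (hE i a)) (hfin i)
      · rcases Finset.mem_insert.1 hj with rfl | hj
        · exact (adm_right_iff _ _).2 hz
        · have hne : a ≠ j := fun e => ha (e ▸ hj)
          exact adm_trW_target (hw' _ inferInstance inferInstance
            ((adm_right_iff _ _).2 (h.orth a j hne (hmin j hj)))) (hvan j hj)
  obtain ⟨C', w, hw, -, hvan⟩ := main Finset.univ
  refine ⟨C', w, hw, fun X f hX => ?_⟩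
  have := h.gen (adm_Sh C').leftOrthogonal inferInstance inferInstance (fun i =>
    (adm_left_iff _ _).2 ((adm_right_iff _ _).1 (hvan i (Finset.mem_univ i)))) X hX
  exact this f (adm_Sh_self C')

theorem adm_proj_right (h : ExcColl k A E rk) (hE : ∀ i j, TotFin k (E i) (E j)) (C : D)
    (hC : ∀ i, TotFin k C (E i)) :
    ∃ (C' : D) (w : C' ⟶ C), A.trW w ∧ A.leftOrthogonal C' := by
  classical
  have := Fintype.ofFinite J
  have main : ∀ S : Finset J, ∃ (C' : D) (w : C' ⟶ C), A.trW w ∧ (∀ i, TotFin k C' (E i)) ∧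
      ∀ j ∈ S, (adm_Sh (E j)).leftOrthogonal C' := by
    intro S
    induction S using Finset.induction_on_max_value rk with
    | empty => exact ⟨C, 𝟙 C, A.trW.id_mem C, hC, by simp⟩
    | insert a S ha hmax ih =>
      obtain ⟨C', w, hw, hfin, hvan⟩ := ih
      obtain ⟨C'', ⟨w', hw'⟩, hz⟩ := adm_kill_right (h.self0 a) (h.selfn a) C' (hfin a)
      refine ⟨C'', w' ≫ w, A.trW.comp_mem _ _ (hw' A inferInstance inferInstance (h.mem a)) hw,
        fun i => ?_, fun j hj => ?_⟩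
      · exact adm_trW_source (P := finTo k (E i))
          (hw' _ inferInstance inferInstance (hE a i)) (hfin i)
      · rcases Finset.mem_insert.1 hj with rfl | hj
        · exact (adm_left_iff _ _).2 hz
        · have hne : j ≠ a := fun e => ha (e ▸ hj)
          exact adm_trW_source (hw' _ inferInstance inferInstance
            ((adm_left_iff _ _).2 (h.orth j a hne (hmax j hj)))) (hvan j hj)
  obtain ⟨C', w, hw, -, hvan⟩ := main Finset.univ
  refine ⟨C', w, hw, fun X f hX => ?_⟩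
  have := h.gen (adm_Sh C').rightOrthogonal inferInstance inferInstance (fun i =>
    (adm_right_iff _ _).2 ((adm_left_iff _ _).1 (hvan i (Finset.mem_univ i)))) X hX
  exact this f (adm_Sh_self C')

set_option backward.isDefEq.respectTransparency false in
theorem ExcColl.isLeftAdjoint (h : ExcColl k A E rk) (le : A ≤ B)
    (fin : ∀ i C, B C → TotFin k (E i) C) : (ObjectProperty.ιOfLE le).IsLeftAdjoint := by
  apply Functor.isLeftAdjoint_of_rightAdjointObjIsDefined_eq_top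
  ext ⟨C, hC⟩
  simp only [Pi.top_apply, Prop.top_eq_true, iff_true]
  obtain ⟨C', w, hw, hC'⟩ := adm_proj_left h (fun i j => fin i _ (le _ (h.mem j))) C
    (fun i => fin i C hC)
  rw [ObjectProperty.trW_iff'] at hw
  obtain ⟨X, f, δ, hT, hX⟩ := hw
  have hf : A.rightOrthogonal.trW f := ObjectProperty.trW.mk _ hT hC'
  have hbij : ∀ Z : D, A Z → Function.Bijective (fun g : Z ⟶ X => g ≫ f) := fun Z hZ => by
    have : A.rightOrthogonal.trW.isColocal Z := by
      rw [ObjectProperty.isColocal_trW]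
      exact fun Y g hY => hY g hZ
    exact this f hf
  refine ⟨⟨X, hX⟩, ⟨⟨fun {Z} => Equiv.ofBijective
    (fun g => (ObjectProperty.homMk (g.hom ≫ f) : (ObjectProperty.ιOfLE le).obj Z ⟶ ⟨C, hC⟩))
    ⟨fun g₁ g₂ e => ?_, fun g => ?_⟩, ?_⟩⟩⟩
  · ext
    exact (hbij Z.obj Z.property).1 (congrArg InducedCategory.Hom.hom e)
  · obtain ⟨g', hg'⟩ := (hbij Z.obj Z.property).2 g.hom
    exact ⟨ObjectProperty.homMk g', ObjectProperty.hom_ext _ hg'⟩
  · intro Z Z' a g
    apply ObjectProperty.hom_ext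
    exact Category.assoc _ _ _

set_option backward.isDefEq.respectTransparency false in
theorem ExcColl.isRightAdjoint (h : ExcColl k A E rk) (le : A ≤ B)
    (fin : ∀ i C, B C → TotFin k C (E i)) : (ObjectProperty.ιOfLE le).IsRightAdjoint := by
  apply Functor.isRightAdjoint_of_leftAdjointObjIsDefined_eq_top
  ext ⟨C, hC⟩
  simp only [Pi.top_apply, Prop.top_eq_true, iff_true]
  obtain ⟨C', w, hw, hC'⟩ := adm_proj_right h (fun i j => fin j _ (le _ (h.mem i))) C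
    (fun i => fin i C hC)
  obtain ⟨X, f, δ, hT, hX⟩ := hw
  have hf : A.leftOrthogonal.trW f := ObjectProperty.trW.mk' _ hT hC'
  have hbij : ∀ Z : D, A Z → Function.Bijective (fun g : X ⟶ Z => f ≫ g) := fun Z hZ => by
    have : A.leftOrthogonal.trW.isLocal Z := by
      rw [ObjectProperty.isLocal_trW]
      exact fun Y g hY => hY g hZ
    exact this f hf
  refine ⟨⟨X, hX⟩, ⟨⟨fun {Z} => Equiv.ofBijective
    (fun g => (ObjectProperty.homMk (f ≫ g.hom) : ⟨C, hC⟩ ⟶ (ObjectProperty.ιOfLE le).obj Z))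
    ⟨fun g₁ g₂ e => ?_, fun g => ?_⟩, ?_⟩⟩⟩
  · ext
    exact (hbij Z.obj Z.property).1 (congrArg InducedCategory.Hom.hom e)
  · obtain ⟨g', hg'⟩ := (hbij Z.obj Z.property).2 g.hom
    exact ⟨ObjectProperty.homMk g', ObjectProperty.hom_ext _ hg'⟩
  · intro Z Z' a g
    apply ObjectProperty.hom_ext
    exact (Category.assoc _ _ _).symm

end Pool.Agent.Work.MP_910138_ag
end

-- merged part: Pool.Agent.Work.MP_910138_ag.Ainf
section
/-! Two diagrams that agree in the derived category give isomorphic total complexes. -/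

open CategoryTheory Limits CochainComplex.HomComplex

namespace Pool.Agent.Work.MP_910138_ag

universe v u

variable {A : Type u} [Category.{v} A] [Abelian A] [HasCoproductsOfShape ℤ A] [Linear (ZMod 2) A]
  [HasDerivedCategory A] {P : Type} [Preorder P] [OrderTop P]

open DerivedCategory

omit [HasDerivedCategory A] [OrderTop P] in
theorem ainf_wmap_comp (W : P ⥤ Cx A) {u v w : P} (a : u ≤ v) (b : v ≤ w) :
    mapU (wmap W u v) ≫ mapU (wmap W v w) = mapU (wmap W u w) := by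
  rw [← mapU_comp, wmap_of_le W a, wmap_of_le W b, wmap_of_le W (a.trans b), ← W.map_comp,
    homOfLE_comp]

omit [HasDerivedCategory A] [OrderTop P] in
theorem ainf_wmap_self (W : P ⥤ Cx A) (u : P) : mapU (wmap W u u) = 𝟙 _ := by
  rw [wmap_of_le W le_rfl]
  have : homOfLE (le_rfl : u ≤ u) = 𝟙 u := Subsingleton.elim _ _
  rw [this, W.map_id, mapU_id]

omit [HasCoproductsOfShape ℤ A] [HasDerivedCategory A] in
theorem ainf_two' {X Y : A} (f : X ⟶ Y) : (2 : ℤ) • f = 0 := by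
  rw [two_zsmul, ← two_smul (ZMod 2) f, show (2 : ZMod 2) = 0 from rfl, zero_smul]

/-- transport of the bijectivity along `η` -/
theorem ainf_bij (W J : P ⥤ Cx A) (η : W ⋙ Q ≅ J ⋙ Q) (u v : P)
    (hb : Function.Bijective
      (fun φ : Q.obj (W.obj u) ⟶ (Q.obj (W.obj v))⟦(-1 : ℤ)⟧ =>
        φ ≫ (Q.map (W.map (homOfLE (le_top : v ≤ ⊤))))⟦(-1 : ℤ)⟧')) :
    Function.Bijective
      (fun φ : Q.obj (W.obj u) ⟶ (Q.obj (J.obj v))⟦(-1 : ℤ)⟧ =>
        φ ≫ (Q.map (wmap J v ⊤))⟦(-1 : ℤ)⟧') := by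
  rw [wmap_of_le J le_top]
  let a : Q.obj (W.obj v) ≅ Q.obj (J.obj v) := η.app v
  let b : Q.obj (W.obj ⊤) ≅ Q.obj (J.obj ⊤) := η.app ⊤
  have nat : Q.map (W.map (homOfLE (le_top : v ≤ ⊤))) ≫ b.hom =
      a.hom ≫ Q.map (J.map (homOfLE (le_top : v ≤ ⊤))) := η.hom.naturality (homOfLE le_top)
  have nat' : Q.map (J.map (homOfLE (le_top : v ≤ ⊤))) =
      a.inv ≫ Q.map (W.map (homOfLE (le_top : v ≤ ⊤))) ≫ b.hom := by
    rw [nat, Iso.inv_hom_id_assoc]
  have h1 : Function.Bijective (fun φ : Q.obj (W.obj u) ⟶ (Q.obj (J.obj v))⟦(-1 : ℤ)⟧ =>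
      φ ≫ (a.inv)⟦(-1 : ℤ)⟧') :=
    (Iso.homCongr (Iso.refl _) ((shiftFunctor _ (-1 : ℤ)).mapIso a.symm)).bijective.of_comp_iff'
      id |>.mpr Function.bijective_id |> fun h => by
        convert h using 1
        funext φ
        simp
  have h2 : Function.Bijective (fun φ : Q.obj (W.obj u) ⟶ (Q.obj (W.obj ⊤))⟦(-1 : ℤ)⟧ =>
      φ ≫ (b.hom)⟦(-1 : ℤ)⟧') :=
    (Iso.homCongr (Iso.refl _) ((shiftFunctor _ (-1 : ℤ)).mapIso b)).bijective.of_comp_iff'
      id |>.mpr Function.bijective_id |> fun h => by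
        convert h using 1
        funext φ
        simp
  have h3 := h2.comp (hb.comp h1)
  convert h3 using 1
  funext φ
  simp only [Function.comp, nat', Functor.map_comp, Category.assoc]

theorem ainf_inj {K L L' : Cx A} (hk : KD K L) (j : L ⟶ L')
    (hb : Function.Injective (fun φ : Q.obj K ⟶ (Q.obj L)⟦(-1 : ℤ)⟧ => φ ≫ (Q.map j)⟦(-1 : ℤ)⟧'))
    {ψ : U K ⟶ U L} (h1 : Hg (-1) ψ) (h2 : dl ψ = 0) {k : U K ⟶ U L'} (hk2 : Hg (-2) k)
    (e : ψ ≫ mapU j = dl k) : ∃ k', Hg (-2) k' ∧ ψ = dl k' := by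
  have h0 : cl (-1) ψ = 0 := by
    apply hb
    have := cl_postcomp j h1 h2
    simp only [zero_comp]
    rw [← this, e]
    exact cl_exact (hk2.of_eq (by norm_num))
  obtain ⟨k', a, b⟩ := hk.inj (-1) ψ h1 h2 h0
  exact ⟨k', a.of_eq (by norm_num), b⟩

theorem ainf_surj {K L L' : Cx A} (hk : KD K L) (hk' : KD K L') (j : L ⟶ L')
    (hb : Function.Surjective (fun φ : Q.obj K ⟶ (Q.obj L)⟦(-1 : ℤ)⟧ => φ ≫ (Q.map j)⟦(-1 : ℤ)⟧'))
    {c : U K ⟶ U L'} (h1 : Hg (-1) c) (h2 : dl c = 0) :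
    ∃ ψ : U K ⟶ U L, Hg (-1) ψ ∧ dl ψ = 0 ∧ ∃ k, Hg (-2) k ∧ ψ ≫ mapU j + c = dl k := by
  obtain ⟨φ, hφ⟩ := hb (-cl (-1) c)
  obtain ⟨ψ, a, b, e⟩ := hk.surj (-1) φ
  have a' : Hg (-1) (ψ ≫ mapU j) := a.comp (hg_mapU j) (by norm_num)
  have b' : dl (ψ ≫ mapU j) = 0 := by rw [dl_comp, b, dl_mapU, zero_comp, comp_zero, add_zero]
  have h0 : cl (-1) (ψ ≫ mapU j + c) = 0 := by
    rw [cl_add a' b' h1 h2, cl_postcomp j a b, e]
    simp only at hφ
    rw [hφ, neg_add_cancel]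
  obtain ⟨k, p, q⟩ := hk'.inj (-1) _ (a'.add h1) (by rw [dl_add, b', h2, add_zero]) h0
  exact ⟨ψ, a, b, k, p.of_eq (by norm_num), q⟩

/-- the coherent homotopies -/
theorem ainf_data (W J : P ⥤ Cx A)
    (hJ : ∀ u, (J.obj u).IsKInjective) (η : W ⋙ Q ≅ J ⋙ Q)
    (hb : ∀ u v : P, u ≤ v → Function.Bijective
      (fun φ : Q.obj (W.obj u) ⟶ (Q.obj (W.obj v))⟦(-1 : ℤ)⟧ =>
        φ ≫ (Q.map (W.map (homOfLE (le_top : v ≤ ⊤))))⟦(-1 : ℤ)⟧')) :
    ∃ (φ : ∀ u, W.obj u ⟶ J.obj u) (h : ∀ u v, U (W.obj u) ⟶ U (J.obj v))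
      (k : ∀ u (_ : P) w, U (W.obj u) ⟶ U (J.obj w)),
      (∀ u, QuasiIso (φ u)) ∧ (∀ u v, u ≤ v → Hg (-1) (h u v) ∧
        dl (h u v) = mapU (wmap W u v) ≫ mapU (φ v) + mapU (φ u) ≫ mapU (wmap J u v)) ∧
      (∀ u v w, u ≤ v → v ≤ w → Hg (-2) (k u v w) ∧
        dl (k u v w) = h u v ≫ mapU (wmap J v w) + mapU (wmap W u v) ≫ h v w + h u w) := by
  have kd : ∀ u v, KD (W.obj u) (J.obj v) := fun u v => by
    have := hJ v
    exact kd_of_isKInjective
  have e1 : ∀ u, ∃ φ : W.obj u ⟶ J.obj u, Q.map φ = η.hom.app u := fun u =>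
    (kd u u).map_surjective (η.hom.app u)
  choose φ hφ using e1
  have e2 : ∀ u v, ∃ h : U (W.obj u) ⟶ U (J.obj v), u ≤ v → Hg (-1) h ∧
      dl h = mapU (wmap W u v) ≫ mapU (φ v) + mapU (φ u) ≫ mapU (wmap J u v) := by
    intro u v
    by_cases a : u ≤ v
    · have : Q.map (wmap W u v ≫ φ v) = Q.map (φ u ≫ wmap J u v) := by
        rw [Q.map_comp, Q.map_comp, hφ, hφ, wmap_of_le W a, wmap_of_le J a]
        exact η.hom.naturality (homOfLE a)
      obtain ⟨h, p, q⟩ := (kd u v).exact_of_map_eq this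
      exact ⟨h, fun _ => ⟨p, by rw [← q, mapU_comp, mapU_comp]⟩⟩
    · exact ⟨0, fun b => absurd b a⟩
  choose h0 hh0 using e2
  have e3 : ∀ u v, ∃ h : U (W.obj u) ⟶ U (J.obj v), u ≤ v → (Hg (-1) h ∧
      dl h = mapU (wmap W u v) ≫ mapU (φ v) + mapU (φ u) ≫ mapU (wmap J u v)) ∧
      ∃ k, Hg (-2) k ∧ h ≫ mapU (wmap J v ⊤) + mapU (wmap W u v) ≫ h0 v ⊤ + h0 u ⊤ = dl k := by
    intro u v
    by_cases a : u ≤ v
    · have c1 : Hg (-1) (h0 u v ≫ mapU (wmap J v ⊤) + mapU (wmap W u v) ≫ h0 v ⊤ + h0 u ⊤) :=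
        (((hh0 u v a).1.comp (hg_mapU _) (by norm_num)).add
          ((hg_mapU _).comp (hh0 v ⊤ le_top).1 (by norm_num))).add (hh0 u ⊤ le_top).1
      have c2 : dl (h0 u v ≫ mapU (wmap J v ⊤) + mapU (wmap W u v) ≫ h0 v ⊤ + h0 u ⊤) = 0 := by
        rw [dl_add, dl_add, dl_comp, dl_comp, dl_mapU, dl_mapU, (hh0 u v a).2,
          (hh0 v ⊤ le_top).2, (hh0 u ⊤ le_top).2]
        simp only [Preadditive.add_comp, Preadditive.comp_add, Category.assoc, comp_zero,
          zero_comp, add_zero, zero_add, ainf_wmap_comp J a le_top,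
          reassoc_of% (ainf_wmap_comp W a le_top)]
        abel_nf
        simp only [ainf_two', add_zero]
      obtain ⟨ψ, p1, p2, k, p3, p4⟩ := ainf_surj (kd u v) (kd u ⊤) (wmap J v ⊤)
        (ainf_bij W J η u v (hb u v a)).2 c1 c2
      refine ⟨h0 u v + ψ, fun _ => ⟨⟨(hh0 u v a).1.add p1, ?_⟩, k, p3, ?_⟩⟩
      · rw [dl_add, p2, add_zero, (hh0 u v a).2]
      · rw [← p4, Preadditive.add_comp]
        abel
    · exact ⟨0, fun b => absurd b a⟩
  choose h hh using e3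
  have e4 : ∀ u v w, ∃ k : U (W.obj u) ⟶ U (J.obj w), u ≤ v → v ≤ w → Hg (-2) k ∧
      dl k = h u v ≫ mapU (wmap J v w) + mapU (wmap W u v) ≫ h v w + h u w := by
    intro u v w
    by_cases ab : u ≤ v ∧ v ≤ w
    · obtain ⟨a, b⟩ := ab
      obtain ⟨⟨p1, p2⟩, k1, p3, p4⟩ := hh u v a
      obtain ⟨⟨q1, q2⟩, k2, q3, q4⟩ := hh v w b
      obtain ⟨⟨r1, r2⟩, k3, r3, r4⟩ := hh u w (a.trans b)
      have c1 : Hg (-1) (h u v ≫ mapU (wmap J v w) + mapU (wmap W u v) ≫ h v w + h u w) :=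
        ((p1.comp (hg_mapU _) (by norm_num)).add ((hg_mapU _).comp q1 (by norm_num))).add r1
      have c2 : dl (h u v ≫ mapU (wmap J v w) + mapU (wmap W u v) ≫ h v w + h u w) = 0 := by
        rw [dl_add, dl_add, dl_comp, dl_comp, dl_mapU, dl_mapU, p2, q2, r2]
        simp only [Preadditive.add_comp, Preadditive.comp_add, Category.assoc, comp_zero,
          zero_comp, add_zero, zero_add, ainf_wmap_comp J a b,
          reassoc_of% (ainf_wmap_comp W a b)]
        abel_nf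
        simp only [ainf_two', add_zero]
      have c3 : Hg (-2) (k1 + mapU (wmap W u v) ≫ k2 + k3) :=
        (p3.add ((hg_mapU _).comp q3 (by norm_num))).add r3
      have c4 : (h u v ≫ mapU (wmap J v w) + mapU (wmap W u v) ≫ h v w + h u w) ≫
          mapU (wmap J w ⊤) = dl (k1 + mapU (wmap W u v) ≫ k2 + k3) := by
        rw [dl_add, dl_add, dl_comp, dl_mapU, ← p4, ← q4, ← r4]
        simp only [Preadditive.add_comp, Preadditive.comp_add, Category.assoc,
          zero_comp, zero_add, ainf_wmap_comp J b le_top,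
          reassoc_of% (ainf_wmap_comp W a b)]
        abel_nf
        simp only [ainf_two', add_zero]
      obtain ⟨k, s1, s2⟩ := ainf_inj (kd u w) (wmap J w ⊤)
        (ainf_bij W J η u w (hb u w (a.trans b))).1 c1 c2 c3 c4
      exact ⟨k, fun _ _ => ⟨s1, s2.symm⟩⟩
    · exact ⟨0, fun a b => absurd ⟨a, b⟩ ab⟩
  choose k hk using e4
  refine ⟨φ, h, k, fun u => ?_, fun u v a => (hh u v a).1, hk⟩
  rw [← isIso_Q_map_iff_quasiIso, hφ]
  infer_instance

theorem ainf_quasiIso (X : PCx P) (hdeg : ∀ x, 0 ≤ X.deg x ∧ X.deg x ≤ 2) (W J : P ⥤ Cx A)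
    (hJ : ∀ u, (J.obj u).IsKInjective) (η : W ⋙ Q ≅ J ⋙ Q)
    (hb : ∀ u v : P, u ≤ v → Function.Bijective
      (fun φ : Q.obj (W.obj u) ⟶ (Q.obj (W.obj v))⟦(-1 : ℤ)⟧ =>
        φ ≫ (Q.map (W.map (homOfLE (le_top : v ≤ ⊤))))⟦(-1 : ℤ)⟧'))
    {K K' : Cx A} (s : X.Str W K) (s' : X.Str J K') : ∃ Φ : K ⟶ K', QuasiIso Φ := by
  classical
  obtain ⟨φ, h, k, hφ, hh, hk⟩ := ainf_data W J hJ η hb
  let E : ∀ x y : X.G, U (W.obj (X.lab x)) ⟶ U (J.obj (X.lab y)) := fun x y =>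
    (if x = y then (1 : ZMod 2) else 0) • (mapU (φ (X.lab x)) ≫ mapU (wmap J (X.lab x) (X.lab y)))
  let H : ∀ x y : X.G, U (W.obj (X.lab x)) ⟶ U (J.obj (X.lab y)) := fun x y =>
    X.D x y • h (X.lab x) (X.lab y)
  let T : ∀ x y : X.G, U (W.obj (X.lab x)) ⟶ U (J.obj (X.lab y)) := fun x y =>
    ∑ z, (X.D x z * X.D z y) • k (X.lab x) (X.lab z) (X.lab y)
  have Eself : ∀ x, E x x = mapU (φ (X.lab x)) := fun x => by
    simp only [E, if_true, one_smul, ainf_wmap_self, Category.comp_id]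
  have Ene : ∀ x y, x ≠ y → E x y = 0 := fun x y a => by
    simp only [E, if_neg a, zero_smul]
  have Hne : ∀ x y, H x y ≠ 0 → X.D x y ≠ 0 := fun x y a b => a (by simp only [H, b, zero_smul])
  have Tne : ∀ x y, T x y ≠ 0 → X.deg y = X.deg x + 2 := fun x y a => by
    obtain ⟨z, -, hz⟩ := Finset.exists_ne_zero_of_sum_ne_zero a
    have b : X.D x z * X.D z y ≠ 0 := fun b => hz (by rw [b, zero_smul])
    have c := (X.supp x z (left_ne_zero_of_mul b)).2
    have d := (X.supp z y (right_ne_zero_of_mul b)).2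
    omega
  have hg : ∀ x y, Hg (0 + X.deg x - X.deg y) (E x y + H x y + T x y) := by
    intro x y
    refine (Hg.add ?_ ?_).add ?_
    · by_cases a : x = y
      · subst a
        rw [Eself]
        exact (hg_mapU _).of_eq (by omega)
      · rw [Ene x y a]
        exact Hg.zero
    · by_cases a : X.D x y = 0
      · simp only [H, a, zero_smul]
        exact Hg.zero
      · have b := X.supp x y a
        exact ((hh _ _ b.1).1.smul _).of_eq (by omega)
    · refine Hg.sum _ fun z _ => ?_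
      by_cases b : X.D x z * X.D z y = 0
      · rw [b, zero_smul]
        exact Hg.zero
      · have c := X.supp x z (left_ne_zero_of_mul b)
        have d := X.supp z y (right_ne_zero_of_mul b)
        exact ((hk _ _ _ c.1 d.1).1.smul _).of_eq (by omega)
  have dE : ∀ x y, dl (E x y) = 0 := fun x y => by
    simp only [E, dl_smul, dl_comp, dl_mapU, zero_comp, comp_zero, add_zero, smul_zero]
  have tE : ∀ x y, ∑ x', X.tw W x x' ≫ E x' y =
      X.D x y • (mapU (wmap W (X.lab x) (X.lab y)) ≫ mapU (φ (X.lab y))) := fun x y => by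
    rw [Finset.sum_eq_single y, Eself, Linear.smul_comp]
    · intro b _ hb
      rw [Ene b y hb, comp_zero]
    · simp
  have Et : ∀ x y, ∑ y', E x y' ≫ X.tw J y' y =
      X.D x y • (mapU (φ (X.lab x)) ≫ mapU (wmap J (X.lab x) (X.lab y))) := fun x y => by
    rw [Finset.sum_eq_single x, Eself, Linear.comp_smul]
    · intro b _ hb
      rw [Ene x b hb.symm, zero_comp]
    · simp
  have dH : ∀ x y, dl (H x y) =
      X.D x y • (mapU (wmap W (X.lab x) (X.lab y)) ≫ mapU (φ (X.lab y))) +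
      X.D x y • (mapU (φ (X.lab x)) ≫ mapU (wmap J (X.lab x) (X.lab y))) := fun x y => by
    by_cases a : X.D x y = 0
    · simp only [H, a, zero_smul, dl_zero, add_zero]
    · simp only [H, dl_smul, (hh _ _ (X.supp x y a).1).2, smul_add]
  have tH : ∀ x y, ∑ x', X.tw W x x' ≫ H x' y = ∑ z, (X.D x z * X.D z y) •
      (mapU (wmap W (X.lab x) (X.lab z)) ≫ h (X.lab z) (X.lab y)) := fun x y =>
    Finset.sum_congr rfl fun z _ => by
      simp only [H, Linear.smul_comp, Linear.comp_smul, smul_smul, mul_comm]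
  have Ht : ∀ x y, ∑ y', H x y' ≫ X.tw J y' y = ∑ z, (X.D x z * X.D z y) •
      (h (X.lab x) (X.lab z) ≫ mapU (wmap J (X.lab z) (X.lab y))) := fun x y =>
    Finset.sum_congr rfl fun z _ => by
      simp only [H, Linear.smul_comp, Linear.comp_smul, smul_smul, mul_comm]
  have dT : ∀ x y, dl (T x y) = ∑ z, (X.D x z * X.D z y) •
      (h (X.lab x) (X.lab z) ≫ mapU (wmap J (X.lab z) (X.lab y))) + ∑ z, (X.D x z * X.D z y) •
      (mapU (wmap W (X.lab x) (X.lab z)) ≫ h (X.lab z) (X.lab y)) := fun x y => by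
    have a : ∀ z, dl ((X.D x z * X.D z y) • k (X.lab x) (X.lab z) (X.lab y)) =
        (X.D x z * X.D z y) • (h (X.lab x) (X.lab z) ≫ mapU (wmap J (X.lab z) (X.lab y))) +
        (X.D x z * X.D z y) • (mapU (wmap W (X.lab x) (X.lab z)) ≫ h (X.lab z) (X.lab y)) +
        (X.D x z * X.D z y) • h (X.lab x) (X.lab y) := fun z => by
      by_cases b : X.D x z * X.D z y = 0
      · simp only [b, zero_smul, dl_zero, add_zero]
      · have c := X.supp x z (left_ne_zero_of_mul b)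
        have d := X.supp z y (right_ne_zero_of_mul b)
        rw [dl_smul, (hk _ _ _ c.1 d.1).2, smul_add, smul_add]
    simp only [T]
    rw [dl_sum]
    simp only [a, Finset.sum_add_distrib]
    rw [← Finset.sum_smul, X.sq, zero_smul, add_zero]
  have tT : ∀ x y, ∑ x', X.tw W x x' ≫ T x' y = 0 := fun x y =>
    Finset.sum_eq_zero fun z _ => by
      by_cases a : X.D x z = 0
      · simp only [PCx.tw, a, zero_smul, zero_comp]
      by_cases b : T z y = 0
      · rw [b, comp_zero]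
      have c := (X.supp x z a).2
      have d := Tne z y b
      have e := hdeg x
      have f := hdeg y
      omega
  have Tt : ∀ x y, ∑ y', T x y' ≫ X.tw J y' y = 0 := fun x y =>
    Finset.sum_eq_zero fun z _ => by
      by_cases a : X.D z y = 0
      · simp only [PCx.tw, a, zero_smul, comp_zero]
      by_cases b : T x z = 0
      · rw [b, zero_comp]
      have c := (X.supp z y a).2
      have d := Tne x z b
      have e := hdeg x
      have f := hdeg y
      omega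
  have hd : dl (asm s s' fun x y => E x y + H x y + T x y) = 0 := by
    rw [dl_asm, ← asm_zero s s']
    congr 1
    funext x y
    simp only [dl_add, Preadditive.comp_add, Preadditive.add_comp, Finset.sum_add_distrib]
    rw [dE, dH, dT, tE, tH, tT, Et, Ht, Tt]
    abel_nf
    simp only [ainf_two', add_zero]
  refine ⟨homU _ (hg_asm s s' hg) hd, quasiIso_of_tri s s' (X.isTw W) (X.isTw J) _
    (fun x => φ (X.lab x)) (fun x => hφ _) (fun x => ?_) (fun x y a b => ?_)⟩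
  · rw [mapU_homU, inc_asm_pr, Eself]
    have a : H x x = 0 := by
      by_contra a
      have := (X.supp x x (Hne x x a)).2
      omega
    have b : T x x = 0 := by
      by_contra b
      have := Tne x x b
      omega
    rw [a, b, add_zero, add_zero]
  · rw [mapU_homU, inc_asm_pr, Ene x y a, zero_add] at b
    by_cases c : H x y = 0
    · rw [c, zero_add] at b
      have := Tne x y b
      omega
    · have := (X.supp x y (Hne x y c)).2
      omega

end Pool.Agent.Work.MP_910138_ag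
end

-- merged part: Pool.Agent.Work.MP_910138_ag.NonFM
section
/-! The exotic functor is not a derived functor of a functor acting on graded maps. -/

open CategoryTheory Limits

namespace Pool.Agent.Work.MP_910138_ag

universe v u v' u'

variable {A : Type u} [Category.{v} A] [Abelian A] [HasCoproductsOfShape ℤ A] [Linear (ZMod 2) A]
  {B : Type u'} [Category.{v'} B] [Abelian B] [HasCoproductsOfShape ℤ B] [Linear (ZMod 2) B]
  [HasDerivedCategory A] [HasDerivedCategory B] [EnoughInjectives A] [EnoughInjectives B]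

/-- the degree zero part of an object as a matrix complex -/
def nonfm_P {P : Type} [Preorder P] (Z : Ob P) : PCx P where
  G := Z.G
  lab := Z.lab
  deg := Z.deg
  D := red Z.D0
  supp x y h := ⟨(Z.s0.red x y h).1, (Z.s0.red x y h).2.2⟩
  sq x z := by
    have h : red Z.D0 * red Z.D0 = 0 := congrArg Prod.fst Z.sq
    exact (Matrix.mul_apply (M := red Z.D0) (N := red Z.D0)).symm.trans (congrFun (congrFun h x) z)

/-- the test object as a matrix complex -/
def nonfm_X : PCx PF := nonfm_P Z0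

theorem nonfm_hdeg (x : nonfm_X.G) : 0 ≤ nonfm_X.deg x ∧ nonfm_X.deg x ≤ 2 := by
  obtain ⟨i, j⟩ := x
  change (0 : ℤ) ≤ ((i : ℕ) : ℤ) ∧ ((i : ℕ) : ℤ) ≤ 2
  have := i.2
  omega

omit [Linear (ZMod 2) A] [HasDerivedCategory A] [EnoughInjectives A] in
theorem nonfm_cast {G : Type} [Fintype G] {K : Cx A} {W : G → Cx A} {deg : G → ℤ}
    {t t' : ∀ x y, U (W x) ⟶ U (W y)} (s : TotStr K W deg t) (h : ∀ x y, t x y = t' x y) :
    Nonempty (TotStr K W deg t') := by
  obtain rfl : t = t' := funext fun x => funext fun y => h x y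
  exact ⟨s⟩

omit [EnoughInjectives A] in
theorem nonfm_str (Γ : GamData A PF) : Nonempty (nonfm_X.Str Γ.WR (Γ.totObj Z0)) := by
  refine nonfm_cast (W := fun x : nonfm_X.G => Γ.WR.obj (nonfm_X.lab x)) (Γ.ts Z0) fun x y => ?_
  have h0 : Γ.rl Z0.D x y = nonfm_X.D x y • Γ.e (nonfm_X.lab x, true) (nonfm_X.lab y, true) := by
    have h1 : Γ.rl Z0.D x y = nonfm_X.D x y • Γ.e (nonfm_X.lab x, true) (nonfm_X.lab y, true) +
      (0 : ZMod 2) • Γ.a (nonfm_X.lab x, true) (nonfm_X.lab y, true) := rfl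
    rw [h1, zero_smul, add_zero]
  refine h0.trans ?_
  by_cases h : nonfm_X.D x y = 0
  · rw [PCx.tw, h]
    exact (zero_smul _ _).trans (zero_smul _ _).symm
  · rw [PCx.tw, wmap_of_le _ (nonfm_X.supp x y h).1]
    exact congrArg (nonfm_X.D x y • ·) (mapU_homU _ _ _).symm

omit [HasDerivedCategory A] [HasDerivedCategory B] [EnoughInjectives A] [EnoughInjectives B] in
theorem nonfm_transport {P : Type} [Preorder P] (X : PCx P) (W : P ⥤ Cx A) {K : Cx A}
    (s : X.Str W K) {T : Cx A ⥤ Cx B} (a : DGAct T) : Nonempty (X.Str (W ⋙ T) (T.obj K)) := by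
  obtain ⟨s'⟩ := TotStr.transport a X.D (fun x y => wmap W (X.lab x) (X.lab y))
    (fun x y h => (X.supp x y h).2) s
  refine nonfm_cast (W := fun x : X.G => (W ⋙ T).obj (X.lab x)) s' fun x y => ?_
  by_cases h : X.D x y = 0
  · rw [PCx.tw, h]
    exact (zero_smul _ _).trans (zero_smul _ _).symm
  · rw [PCx.tw, wmap_of_le _ (X.supp x y h).1, wmap_of_le _ (X.supp x y h).1]
    rfl

theorem not_derived (Γ : GamData A PF) (T : Cx A ⥤ Cx B) (a : DGAct T)
    (hT : ∀ Z : Ob PF, CochainComplex.plus B ((Γ.Tot ⋙ T).obj Z)) (π : B ⥤ A) [π.Additive] :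
    IsEmpty (sFun PF ⋙ Γ.L ≅ (CochainComplex.plus B).lift (Γ.Tot ⋙ T) hT ⋙ RD π) := by
  refine ⟨fun η => ?_⟩
  obtain ⟨s⟩ := nonfm_str Γ
  obtain ⟨sT⟩ := nonfm_transport nonfm_X Γ.WR s a
  obtain ⟨e⟩ := Γ.nonempty_genIso
  have hW : ∀ u, CochainComplex.plus B ((Γ.WR ⋙ T).obj u) := fun u =>
    (CochainComplex.plus B).prop_of_iso (T.mapIso (e.app u)) (hT ((genFun PF).obj u))
  obtain ⟨J, K', hJ, ⟨s'⟩, ⟨i1⟩, ⟨i2⟩⟩ := exists_model π nonfm_X
    ((CochainComplex.plus B).lift (Γ.WR ⋙ T) hW)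
    (((CochainComplex.plus B).lift (Γ.Tot ⋙ T) hT).obj Z0) sT
  let e' : genFun PF ⋙ (CochainComplex.plus B).lift (Γ.Tot ⋙ T) hT ≅
      (CochainComplex.plus B).lift (Γ.WR ⋙ T) hW :=
    Functor.fullyFaithfulCancelRight (CochainComplex.plus B).ι (Functor.isoWhiskerRight e T)
  let j1 : Γ.WR ⋙ DerivedCategory.Q ≅ genFun PF ⋙ Γ.L :=
    (Functor.isoWhiskerRight e DerivedCategory.Q).symm
  let j2 : genFun PF ⋙ Γ.L ≅ genFun PF ⋙ sFun PF ⋙ Γ.L :=
    (Functor.isoWhiskerRight (genS PF) Γ.L).symm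
  let j3 : genFun PF ⋙ sFun PF ⋙ Γ.L ≅
      genFun PF ⋙ (CochainComplex.plus B).lift (Γ.Tot ⋙ T) hT ⋙ RD π :=
    Functor.isoWhiskerLeft (genFun PF) η
  let j4 : genFun PF ⋙ (CochainComplex.plus B).lift (Γ.Tot ⋙ T) hT ⋙ RD π ≅
      (CochainComplex.plus B).lift (Γ.WR ⋙ T) hW ⋙ RD π :=
    Functor.isoWhiskerRight e' (RD π)
  obtain ⟨Φ, hΦ⟩ := ainf_quasiIso nonfm_X nonfm_hdeg Γ.WR J hJ (j1 ≪≫ j2 ≪≫ j3 ≪≫ j4 ≪≫ i1)
    (fun u v h => Γ.bij_top u v h) s s'
  have hΦ' : IsIso (DerivedCategory.Q.map Φ) :=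
    (DerivedCategory.isIso_Q_map_iff_quasiIso A Φ).2 hΦ
  let k1 : Γ.L.obj Z0 ≅ DerivedCategory.Q.obj K' := @asIso _ _ _ _ (DerivedCategory.Q.map Φ) hΦ'
  let k2 : Γ.L.obj ((sFun PF).obj Z0) ≅ DerivedCategory.Q.obj K' := η.app Z0 ≪≫ i2
  let k : Γ.L.obj Z0 ≅ Γ.L.obj ((sFun PF).obj Z0) := k1 ≪≫ k2.symm
  obtain ⟨f, hf⟩ := Γ.L.map_surjective k.hom
  obtain ⟨g, hg⟩ := Γ.L.map_surjective k.inv
  refine fano_not_iso f g ((Γ.L_map_eq_iff _ _).1 ?_)
  rw [Functor.map_comp, hf, hg, k.hom_inv_id, CategoryTheory.Functor.map_id]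

end Pool.Agent.Work.MP_910138_ag
end
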