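import Pool.Agent.Work.MP_910138_ag.PP

/-! Cohomology of the Hom-complexes between `Y_R, Y_k, Y_F` (finite computations). -/

namespace Pool.Agent.Work.MP_910138_ag

theorem supp_dM (s : Fin 3) : Supp s s 1 (dM s) := by
  unfold Supp
  revert s
  decide +kernel

theorem dM_sq (s : Fin 3) : dM s * dM s = 0 := by
  revert s
  decide +kernel

theorem supp_eM (s t : Fin 3) : Supp s t 0 (eM s t) := by
  unfold Supp
  revert s t
  decide +kernel

theorem supp_aM (s t : Fin 3) : Supp s t (-1) (aM s t) := by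
  unfold Supp
  revert s t
  decide +kernel

theorem dH_eM (a b : Bool) (h : b = true → a = true) : dH (ty a) (ty b) (eM (ty a) (ty b)) = 0 := by
  revert a b
  decide +kernel

theorem dH_aM (a : Bool) : dH (ty a) 0 (aM (ty a) 0) = 0 := by
  revert a
  decide +kernel

theorem dH_eM_F0 : dH 2 0 (eM 2 0) = 0 := by
  decide +kernel

theorem eM_eM (a b c : Bool) (h : b = true → a = true) (h' : c = true → b = true) :
    eM (ty a) (ty b) * eM (ty b) (ty c) = eM (ty a) (ty c) := by
  revert a b c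
  decide +kernel

theorem eM_aM (a b : Bool) (h : b = true → a = true) :
    eM (ty a) (ty b) * aM (ty b) 0 = aM (ty a) 0 := by
  revert a b
  decide +kernel

theorem aM_eM (a c : Bool) :
    aM (ty a) 0 * eM 0 (ty c) = if c = true then aM (ty a) (ty c) else 0 := by
  revert a c
  decide +kernel

theorem aM_aM (a : Bool) : aM (ty a) 0 * aM 0 0 = 0 := by
  revert a
  decide +kernel

/-- the matrix with the given bits -/
def cert_bit (n : ℕ) (i j : Fin 9) : ZMod 2 := if n.testBit (9 * i + j) then 1 else 0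

/-- a contraction, given on the elementary matrices -/
def cert_H (tab : List (ℕ × ℕ)) (q q' : Fin 9) : Fin 9 → Fin 9 → ZMod 2 :=
  cert_bit ((tab.lookup (9 * q.1 + q'.1)).getD 0)

/-- the bits of the differentials -/
def cert_d (s : Fin 3) : Fin 9 → Fin 9 → ZMod 2 :=
  cert_bit (if s = 0 then 2361183248044783710342 else if s = 1 then 6609960972294
    else 2361183241434822606848)

theorem cert_d_eq : ∀ s q q', dM s q q' = cert_d s q q' := by decide +kernel

/-- the finite check -/
def cert_Chk (s t : Fin 3) (tab : List (ℕ × ℕ)) (p0 p1 : ℕ) : Prop :=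
  ∀ q q', gen s q = true → gen t q' = true → ppLe q q' = true →
    (∀ r r', cert_H tab q q' r r' ≠ 0 → gen s r = true ∧ gen t r' = true ∧ ppLe r r' = true ∧
      dg r' - dg r = dg q' - dg q - 1) ∧
    (cert_bit p0 q q' ≠ 0 → dg q' = dg q) ∧ (cert_bit p1 q q' ≠ 0 → dg q' = dg q - 1) ∧
    ∀ r r', (if q = r ∧ q' = r' then 1 else 0) =
      cert_bit p0 q q' * eM s t r r' + cert_bit p1 q q' * aM s t r r' +
      ∑ k, (cert_d s r k * cert_H tab q q' k r' + cert_H tab q q' r k * cert_d t k r') +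
      ∑ k, (cert_d s k q * cert_H tab k q' r r' + cert_d t q' k * cert_H tab q k r r')

theorem cert_gen {s t : Fin 3} {tab : List (ℕ × ℕ)} {p0 p1 : ℕ} (h : cert_Chk s t tab p0 p1)
    (m : ℤ) (M : Matrix (Fin 9) (Fin 9) (ZMod 2)) (hM : Supp s t m M) (hd : dH s t M = 0) :
    ∃ (c0 c1 : ZMod 2) (N : Matrix (Fin 9) (Fin 9) (ZMod 2)), Supp s t (m - 1) N ∧
      (c0 ≠ 0 → p0 ≠ 0 ∧ m = 0) ∧ (c1 ≠ 0 → p1 ≠ 0 ∧ m = -1) ∧
      M = c0 • eM s t + c1 • aM s t + dH s t N := by
  have hz : ∀ q q', cert_bit 0 q q' = 0 := fun q q' => by simp [cert_bit]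
  have ex : ∀ f : Fin 9 → Fin 9 → ZMod 2, ∑ q, ∑ q', M q q' * f q q' ≠ 0 →
      ∃ q q', M q q' ≠ 0 ∧ f q q' ≠ 0 := by
    intro f hf
    obtain ⟨q, -, hq⟩ := Finset.exists_ne_zero_of_sum_ne_zero hf
    obtain ⟨q', -, hq'⟩ := Finset.exists_ne_zero_of_sum_ne_zero hq
    exact ⟨q, q', left_ne_zero_of_mul hq', right_ne_zero_of_mul hq'⟩
  refine ⟨∑ q, ∑ q', M q q' * cert_bit p0 q q', ∑ q, ∑ q', M q q' * cert_bit p1 q q',
    Matrix.of fun r r' => ∑ q, ∑ q', M q q' * cert_H tab q q' r r', fun r r' hr => ?_,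
    fun hc => ?_, fun hc => ?_, ?_⟩
  · obtain ⟨q, q', h1, h2⟩ := ex (fun q q' => cert_H tab q q' r r') hr
    obtain ⟨a1, a2, a3, a4⟩ := hM q q' h1
    obtain ⟨b1, b2, b3, b4⟩ := (h q q' a1 a2 a3).1 r r' h2
    exact ⟨b1, b2, b3, by omega⟩
  · obtain ⟨q, q', h1, h2⟩ := ex _ hc
    obtain ⟨a1, a2, a3, a4⟩ := hM q q' h1
    have := (h q q' a1 a2 a3).2.1 h2
    exact ⟨fun h0 => h2 (h0 ▸ hz q q'), by omega⟩
  · obtain ⟨q, q', h1, h2⟩ := ex _ hc
    obtain ⟨a1, a2, a3, a4⟩ := hM q q' h1
    have := (h q q' a1 a2 a3).2.2.1 h2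
    exact ⟨fun h0 => h2 (h0 ▸ hz q q'), by omega⟩
  · ext r r'
    have e1 : M r r' = ∑ q, ∑ q', M q q' * (if q = r ∧ q' = r' then 1 else 0) := by
      simp [ite_and]
    have e2 : ∀ q q', M q q' * (if q = r ∧ q' = r' then 1 else 0) =
        M q q' * cert_bit p0 q q' * eM s t r r' + M q q' * cert_bit p1 q q' * aM s t r r' +
        (∑ k, dM s r k * (M q q' * cert_H tab q q' k r') +
          ∑ k, M q q' * cert_H tab q q' r k * dM t k r') +
        (∑ k, dM s k q * M q q' * cert_H tab k q' r r' +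
          ∑ k, M q q' * dM t q' k * cert_H tab q k r r') := by
      intro q q'
      by_cases h0 : M q q' = 0
      · simp [h0]
      · obtain ⟨a1, a2, a3, -⟩ := hM q q' h0
        rw [(h q q' a1 a2 a3).2.2.2 r r']
        simp only [cert_d_eq, mul_add, Finset.mul_sum, ← Finset.sum_add_distrib]
        refine congrArg₂ _ (congrArg₂ _ (by ring) ?_) ?_ <;>
          exact Finset.sum_congr rfl fun k _ => by ring
    have e3 : ∑ q, ∑ q', ∑ k, dM s k q * M q q' * cert_H tab k q' r r' +
        ∑ q, ∑ q', ∑ k, M q q' * dM t q' k * cert_H tab q k r r' = 0 := by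
      have f1 : ∑ q, ∑ q', ∑ k, dM s k q * M q q' * cert_H tab k q' r r' =
          ∑ a, ∑ b, (dM s * M) a b * cert_H tab a b r r' := by
        simp only [Matrix.mul_apply, Finset.sum_mul]
        rw [Finset.sum_comm]
        refine Eq.trans (Finset.sum_congr rfl fun b _ => Finset.sum_comm) ?_
        exact Finset.sum_comm
      have f2 : ∑ q, ∑ q', ∑ k, M q q' * dM t q' k * cert_H tab q k r r' =
          ∑ a, ∑ b, (M * dM t) a b * cert_H tab a b r r' := by
        simp only [Matrix.mul_apply, Finset.sum_mul]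
        exact Finset.sum_congr rfl fun a _ => Finset.sum_comm
      rw [f1, f2, ← Finset.sum_add_distrib]
      refine Finset.sum_eq_zero fun a _ => ?_
      rw [← Finset.sum_add_distrib]
      refine Finset.sum_eq_zero fun b _ => ?_
      have : (dM s * M) a b + (M * dM t) a b = 0 := congrFun (congrFun hd a) b
      rw [← add_mul, this, zero_mul]
    have e4 : ∑ q, ∑ q', ∑ k, dM s r k * (M q q' * cert_H tab q q' k r') =
        ∑ k, dM s r k * ∑ q, ∑ q', M q q' * cert_H tab q q' k r' := by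
      simp only [Finset.mul_sum]
      refine Eq.trans (Finset.sum_congr rfl fun q _ => Finset.sum_comm) ?_
      exact Finset.sum_comm
    have e5 : ∑ q, ∑ q', ∑ k, M q q' * cert_H tab q q' r k * dM t k r' =
        ∑ k, (∑ q, ∑ q', M q q' * cert_H tab q q' r k) * dM t k r' := by
      simp only [Finset.sum_mul]
      refine Eq.trans (Finset.sum_congr rfl fun q _ => Finset.sum_comm) ?_
      exact Finset.sum_comm
    rw [e1]
    simp only [e2, Finset.sum_add_distrib]
    rw [e3, e4, e5, add_zero]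
    simp only [dH, Matrix.add_apply, Matrix.smul_apply, smul_eq_mul, Matrix.mul_apply,
      Matrix.of_apply, Finset.sum_mul]

/-- contraction for maps into `Y_R` -/
def cert_tR : List (ℕ × ℕ) :=
  [(4, 4), (5, 16384), (6, 16392), (7, 1), (8, 6), (13, 1154048505100107776), (15, 4096),
    (17, 1154048505100108800), (22, 1048576), (23, 4294967296), (24, 4297064448),
    (26, 1154048539459847168), (33, 1073741824), (41, 1125899906842624),
    (42, 1152921505680588800), (44, 9007199254740992)]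

/-- contraction for maps into `Y_k` -/
def cert_tk : List (ℕ × ℕ) :=
  [(2, 1), (4, 2), (5, 16384), (6, 16392), (13, 1024), (15, 4096), (22, 1048577),
    (23, 4294967296), (24, 4297064448), (33, 1073741824), (41, 1125899906842624),
    (42, 1126999419520001)]

/-- a boolean as a scalar -/
def cert_b (x : Bool) : ZMod 2 := if x = true then 1 else 0

theorem cert_b_xor (x y : Bool) : cert_b (xor x y) = cert_b x + cert_b y := by
  revert x y
  decide

theorem cert_b_and (x y : Bool) : cert_b (x && y) = cert_b x * cert_b y := by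
  revert x y
  decide

/-- the parity of nine booleans -/
def cert_x (f : ℕ → Bool) : Bool :=
  xor (f 0) (xor (f 1) (xor (f 2) (xor (f 3) (xor (f 4) (xor (f 5) (xor (f 6) (xor (f 7) (f 8))))))))

theorem cert_b_x (f : ℕ → Bool) : cert_b (cert_x f) = ∑ k : Fin 9, cert_b (f k) := by
  simp only [cert_x, cert_b_xor, Fin.sum_univ_succ, Fin.sum_univ_zero, add_zero]
  rfl

/-- evaluate first -/
def cert_force (n : ℕ) (k : ℕ → Bool) : Bool := Nat.casesOn n (k 0) fun m => k (Nat.succ m)

theorem cert_force_eq (n : ℕ) (k : ℕ → Bool) : cert_force n k = k n := by cases n <;> rfl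

/-- the bits of the differentials -/
def cert_dn (s : Fin 3) : ℕ :=
  if s = 0 then 2361183248044783710342 else if s = 1 then 6609960972294 else 2361183241434822606848

/-- the sum of nine bit matrices -/
def cert_y (f : ℕ → ℕ) : ℕ :=
  f 0 ^^^ (f 1 ^^^ (f 2 ^^^ (f 3 ^^^ (f 4 ^^^ (f 5 ^^^ (f 6 ^^^ (f 7 ^^^ f 8)))))))

theorem cert_y_bit (f : ℕ → ℕ) (i : ℕ) :
    (cert_y f).testBit i = cert_x fun k => (f k).testBit i := by
  simp only [cert_y, cert_x, Nat.testBit_xor]

/-- a multiple of a bit matrix -/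
def cert_s (c : Bool) (a : ℕ) : ℕ := bif c then a else 0

theorem cert_s_bit (c : Bool) (a i : ℕ) : (cert_s c a).testBit i = (c && a.testBit i) := by
  cases c <;> simp [cert_s]

/-- the homotopy identity on bits -/
def cert_main (ds dt e a : ℕ) (L : ℕ → ℕ) (p0 p1 q q' : ℕ) : Bool :=
  cert_force (L (9 * q + q')) fun h => cert_force (2 ^ (9 * q + q') ^^^
    (cert_s (p0.testBit (9 * q + q')) e ^^^ cert_s (p1.testBit (9 * q + q')) a ^^^
      cert_y fun k => cert_s (ds.testBit (9 * k + q)) (L (9 * k + q')) ^^^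
        cert_s (dt.testBit (9 * q' + k)) (L (9 * q + k)))) fun g =>
    Nat.beq h 0 && Nat.beq g 0 || (List.range 9).all fun r => (List.range 9).all fun r' =>
      g.testBit (9 * r + r') == cert_x fun k =>
        xor (ds.testBit (9 * r + k) && h.testBit (9 * k + r'))
          (dt.testBit (9 * k + r') && h.testBit (9 * r + k))

theorem cert_aux {ds dt h g : ℕ} (H : (Nat.beq h 0 && Nat.beq g 0 ||
      (List.range 9).all fun r => (List.range 9).all fun r' =>
      g.testBit (9 * r + r') == cert_x fun k =>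
        xor (ds.testBit (9 * r + k) && h.testBit (9 * k + r'))
          (dt.testBit (9 * k + r') && h.testBit (9 * r + k))) = true) (r r' : Fin 9) :
    g.testBit (9 * r + r') = cert_x fun k =>
      xor (ds.testBit (9 * r + k) && h.testBit (9 * k + r'))
        (dt.testBit (9 * k + r') && h.testBit (9 * r + k)) := by
  simp only [Bool.or_eq_true, Bool.and_eq_true, Nat.beq_eq, List.all_eq_true, List.mem_range,
    beq_iff_eq] at H
  rcases H with ⟨rfl, rfl⟩ | H
  · simp [cert_x]
  · exact H r r.2 r' r'.2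

theorem cert_two : ∀ x p s t : ZMod 2, x + (p + t) = s → x = p + s + t := by decide

theorem cert_of {s t : Fin 3} {tab : List (ℕ × ℕ)} {p0 p1 : ℕ} (e a : ℕ)
    (h : (∀ r r', eM s t r r' = cert_bit e r r' ∧ aM s t r r' = cert_bit a r r') ∧
      ∀ q q', gen s q = true → gen t q' = true → ppLe q q' = true →
      (cert_force ((tab.lookup (9 * q.1 + q'.1)).getD 0) fun h => Nat.beq h 0 ||
        decide (∀ r r' : Fin 9, h.testBit (9 * r + r') = true → gen s r = true ∧
          gen t r' = true ∧ ppLe r r' = true ∧ dg r' - dg r = dg q' - dg q - 1)) = true ∧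
      (cert_bit p0 q q' ≠ 0 → dg q' = dg q) ∧ (cert_bit p1 q q' ≠ 0 → dg q' = dg q - 1) ∧
      (cert_force q fun x => cert_force q' fun y => cert_force (cert_dn s) fun ds =>
        cert_force (cert_dn t) fun dt =>
          cert_main ds dt e a (fun n => (tab.lookup n).getD 0) p0 p1 x y) = true) :
    cert_Chk s t tab p0 p1 := by
  intro q q' h1 h2 h3
  obtain ⟨a1, a2, a3, a4⟩ := h.2 q q' h1 h2 h3
  refine ⟨fun r r' hr => ?_, a2, a3, fun r r' => ?_⟩
  · simp only [cert_force_eq, Bool.or_eq_true, Nat.beq_eq, decide_eq_true_eq] at a1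
    have hb : ((tab.lookup (9 * q.1 + q'.1)).getD 0).testBit (9 * r + r') = true := by
      by_contra hb
      exact hr (if_neg hb)
    rcases a1 with a1 | a1
    · rw [a1, Nat.zero_testBit] at hb
      exact absurd hb Bool.false_ne_true
    · exact a1 r r' hb
  simp only [cert_force_eq, cert_main] at a4
  have a5 := congrArg cert_b (cert_aux a4 r r')
  simp only [Nat.testBit_xor, cert_y_bit, cert_s_bit, cert_b_xor, cert_b_and, cert_b_x,
    Nat.testBit_two_pow] at a5
  rw [(h.1 r r').1, (h.1 r r').2]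
  refine Eq.trans ?_ ((cert_two _ _ _ _ a5).trans (congrArg₂ _ (congrArg₂ _ rfl ?_) rfl))
  · refine if_congr ?_ rfl rfl
    simp only [decide_eq_true_eq, Fin.ext_iff]
    omega
  · exact Finset.sum_congr rfl fun k _ => congrArg₂ _ rfl (mul_comm _ _)

theorem cert_00 : cert_Chk 0 0 ((71, 1180591620717411303425) :: cert_tR)
    1208925819614629174706176 4611686018427387904 := by
  refine cert_of 1210107565283851686118401 4620693217682128896 ?_
  decide +kernel

theorem cert_01 : cert_Chk 0 1 cert_tk 1152921504606846976 0 := by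
  refine cert_of 1154048505100108801 0 ?_
  decide +kernel

theorem cert_10 : cert_Chk 1 0 cert_tR 0 4611686018427387904 := by
  refine cert_of 1154048505100108801 4620693217682128896 ?_
  decide +kernel

theorem cert_11 : cert_Chk 1 1 cert_tk 1152921504606846976 0 := by
  refine cert_of 1154048505100108801 0 ?_
  decide +kernel

theorem cert_22 : cert_Chk 2 2 [(71, 1180591620717411303424)] 1208925819614629174706176 0 := by
  refine cert_of 1210106411235346586009600 0 ?_
  decide +kernel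

theorem cert_zero (s t : Fin 3) (m : ℤ) (q q' : Fin 9)
    (h : ∀ k, (dM s q k ≠ 0 → ¬ (ppLe k q' = true ∧ dg q' = dg k + m)) ∧
      (dM t k q' ≠ 0 → ¬ (ppLe q k = true ∧ dg k = dg q + m)))
    (N : Matrix (Fin 9) (Fin 9) (ZMod 2)) (hN : Supp s t m N) : dH s t N q q' = 0 := by
  simp only [dH, Matrix.add_apply, Matrix.mul_apply]
  rw [Finset.sum_eq_zero, Finset.sum_eq_zero, add_zero]
  · intro k _
    by_contra hk
    exact (h k).2 (right_ne_zero_of_mul hk) (hN q k (left_ne_zero_of_mul hk)).2.2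
  · intro k _
    by_contra hk
    exact (h k).1 (left_ne_zero_of_mul hk) (hN k q' (right_ne_zero_of_mul hk)).2.2

theorem cert_surj (a b : Bool) (m : ℤ) (M : Matrix (Fin 9) (Fin 9) (ZMod 2))
    (hM : Supp (ty a) (ty b) m M) (hd : dH (ty a) (ty b) M = 0) :
    ∃ (c0 c1 : ZMod 2) (N : Matrix (Fin 9) (Fin 9) (ZMod 2)), Supp (ty a) (ty b) (m - 1) N ∧
      (c0 ≠ 0 → (b = true → a = true) ∧ m = 0) ∧ (c1 ≠ 0 → b = true ∧ m = -1) ∧
      M = c0 • eM (ty a) (ty b) + c1 • aM (ty a) (ty b) + dH (ty a) (ty b) N := by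
  cases a <;> cases b
  · obtain ⟨c0, c1, N, h1, h2, h3, h4⟩ := cert_gen cert_11 m M hM hd
    exact ⟨c0, c1, N, h1, fun h => ⟨id, (h2 h).2⟩, fun h => absurd rfl (h3 h).1, h4⟩
  · obtain ⟨c0, c1, N, h1, h2, h3, h4⟩ := cert_gen cert_10 m M hM hd
    exact ⟨c0, c1, N, h1, fun h => absurd rfl (h2 h).1, fun h => ⟨rfl, (h3 h).2⟩, h4⟩
  · obtain ⟨c0, c1, N, h1, h2, h3, h4⟩ := cert_gen cert_01 m M hM hd
    exact ⟨c0, c1, N, h1, fun h => ⟨fun _ => rfl, (h2 h).2⟩, fun h => absurd rfl (h3 h).1, h4⟩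
  · obtain ⟨c0, c1, N, h1, h2, h3, h4⟩ := cert_gen cert_00 m M hM hd
    exact ⟨c0, c1, N, h1, fun h => ⟨id, (h2 h).2⟩, fun h => ⟨rfl, (h3 h).2⟩, h4⟩

theorem cert_inj_e (a b : Bool) (h : b = true → a = true) (N : Matrix (Fin 9) (Fin 9) (ZMod 2))
    (hN : Supp (ty a) (ty b) (-1) N) : eM (ty a) (ty b) ≠ dH (ty a) (ty b) N := by
  intro e
  by_cases hb : b = true
  · obtain rfl := h hb
    subst hb
    have h1 := cert_zero (ty true) (ty true) (-1) 8 8 (by decide +kernel) N hN
    rw [← e] at h1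
    revert h1
    decide +kernel
  · obtain rfl : b = false := by simpa using hb
    have h1 := cert_zero (ty a) (ty false) (-1) 6 6 (by clear hN e h; revert a; decide +kernel) N hN
    rw [← e] at h1
    revert h1
    clear hN e h
    revert a
    decide +kernel

theorem cert_inj_a (a : Bool) (N : Matrix (Fin 9) (Fin 9) (ZMod 2))
    (hN : Supp (ty a) 0 (-2) N) : aM (ty a) 0 ≠ dH (ty a) 0 N := by
  intro e
  have h1 := cert_zero (ty a) 0 (-2) 6 8 (by clear hN e; revert a; decide +kernel) N hN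
  rw [← e] at h1
  revert h1
  clear hN e
  revert a
  decide +kernel

theorem cert_FF (m : ℤ) (M : Matrix (Fin 9) (Fin 9) (ZMod 2)) (hM : Supp 2 2 m M)
    (hd : dH 2 2 M = 0) : ∃ (c : ZMod 2) (N : Matrix (Fin 9) (Fin 9) (ZMod 2)),
      Supp 2 2 (m - 1) N ∧ (c ≠ 0 → m = 0) ∧ M = c • eM 2 2 + dH 2 2 N := by
  obtain ⟨c0, c1, N, h1, h2, h3, h4⟩ := cert_gen cert_22 m M hM hd
  have h0 : c1 = 0 := by
    by_contra h
    exact (h3 h).1 rfl
  rw [h0, zero_smul, add_zero] at h4
  exact ⟨c0, N, h1, fun h => (h2 h).2, h4⟩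

theorem cert_Fk (m : ℤ) (M : Matrix (Fin 9) (Fin 9) (ZMod 2)) (hM : Supp 2 1 m M) : M = 0 := by
  ext q q'
  by_contra h
  obtain ⟨a1, a2, a3, -⟩ := hM q q' h
  revert a1 a2 a3
  clear h
  revert q q'
  decide +kernel

end Pool.Agent.Work.MP_910138_ag
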