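import Pool.Agent.Work.MP_910138_ag.TWt
import Pool.Agent.Work.MP_910138_ag.NonFM
import Pool.Agent.Work.MP_910138_ag.Cert
import Pool.Agent.Work.MP_910138_ag.GDb
import Pool.Agent.Work.MP_910138_ag.Exot

-- merged part: Pool.Agent.Work.MP_910138_ag.TLat
section
/-! The lattice of a product of copies of the blow-up of the plane in a point. For `i : ι` the rays
with indices ((i, false), false), ((i, false), true) are `x0 = (1,0)`, `x1 = (-1,1)` and those with
indices ((i, true), false), ((i, true), true) are `y0 = (0,1)`, the exceptional curve, and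
`y1 = (0,-1)`. -/

namespace Pool.Agent.Work.MP_910138_ag

variable {ι : Type}

/-- the lattice of characters -/
def f1Lat (ι : Type) : AddSubgroup (Wt (ι × Bool)) where
  carrier := {e | ∀ i, e ((i, true), false) + e ((i, true), true) = 0 ∧
    e ((i, false), false) + e ((i, false), true) + e ((i, true), true) = 0}
  zero_mem' _ := ⟨rfl, rfl⟩
  add_mem' {a b} ha hb i := by
    have := ha i
    have := hb i
    simp only [Pi.add_apply]
    omega
  neg_mem' {a} ha i := by
    have := ha i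
    simp only [Pi.neg_apply]
    omega

/-- the ample divisor `y0 + 2 x0` -/
def f1Amp (ι : Type) : Wt (ι × Bool) := fun a =>
  if a.2 = true then 0 else if a.1.2 = true then 1 else 2

open Classical in
/-- the sum of the exceptional divisors in `S` -/
noncomputable def nE (S : Set ι) : Wt (ι × Bool) := fun a =>
  if a.1.1 ∈ S ∧ a.1.2 = true ∧ a.2 = false then 1 else 0

theorem tlat_mem {e : Wt (ι × Bool)} : e ∈ f1Lat ι ↔
    ∀ i, e ((i, true), false) + e ((i, true), true) = 0 ∧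
      e ((i, false), false) + e ((i, false), true) + e ((i, true), true) = 0 := Iff.rfl

/-- the character with coordinates `p`, `q` -/
def tlat_mk (p q : ι → ℤ) : Wt (ι × Bool) := fun a =>
  if a.1.2 = true then (if a.2 = true then -q a.1.1 else q a.1.1)
  else (if a.2 = true then q a.1.1 - p a.1.1 else p a.1.1)

theorem tlat_mk_ff (p q : ι → ℤ) (i : ι) : tlat_mk p q ((i, false), false) = p i := by
  simp [tlat_mk]

theorem tlat_mk_ft (p q : ι → ℤ) (i : ι) : tlat_mk p q ((i, false), true) = q i - p i := by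
  simp [tlat_mk]

theorem tlat_mk_tf (p q : ι → ℤ) (i : ι) : tlat_mk p q ((i, true), false) = q i := by
  simp [tlat_mk]

theorem tlat_mk_tt (p q : ι → ℤ) (i : ι) : tlat_mk p q ((i, true), true) = -q i := by
  simp [tlat_mk]

theorem tlat_mk_mem (p q : ι → ℤ) : tlat_mk p q ∈ f1Lat ι := by
  rw [tlat_mem]
  intro i
  rw [tlat_mk_ff, tlat_mk_ft, tlat_mk_tf, tlat_mk_tt]
  omega

theorem tlat_amp_ff (i : ι) : f1Amp ι ((i, false), false) = 2 := by simp [f1Amp]

theorem tlat_amp_ft (i : ι) : f1Amp ι ((i, false), true) = 0 := by simp [f1Amp]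

theorem tlat_amp_tf (i : ι) : f1Amp ι ((i, true), false) = 1 := by simp [f1Amp]

theorem tlat_amp_tt (i : ι) : f1Amp ι ((i, true), true) = 0 := by simp [f1Amp]

theorem tlat_nE_f (S : Set ι) (i : ι) (b : Bool) : nE S ((i, false), b) = 0 := by simp [nE]

theorem tlat_nE_tt (S : Set ι) (i : ι) : nE S ((i, true), true) = 0 := by simp [nE]

theorem tlat_nE_mem {S : Set ι} {i : ι} (h : i ∈ S) : nE S ((i, true), false) = 1 := by
  simp [nE, h]

theorem tlat_nE_not {S : Set ι} {i : ι} (h : i ∉ S) : nE S ((i, true), false) = 0 := by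
  simp [nE, h]

theorem nE_mono {S T : Set ι} (h : S ⊆ T) : nE S ≤ nE T := by
  rintro ⟨⟨i, b⟩, c⟩
  cases b
  · rw [tlat_nE_f, tlat_nE_f]
  · cases c
    · by_cases hS : i ∈ S
      · rw [tlat_nE_mem hS, tlat_nE_mem (h hS)]
      · rw [tlat_nE_not hS]
        by_cases hT : i ∈ T
        · rw [tlat_nE_mem hT]; exact zero_le_one
        · rw [tlat_nE_not hT]
    · rw [tlat_nE_tt, tlat_nE_tt]

theorem tlat_good {S T : Set ι} {e : Wt (ι × Bool)} (h : e ∈ Good (f1Lat ι) (nE T - nE S))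
    (i : ι) : (e ((i, false), false) = 0 ∧ e ((i, false), true) = 0 ∧ e ((i, true), false) = 0 ∧
      e ((i, true), true) = 0) ∧ (i ∈ S → i ∈ T) := by
  obtain ⟨h1, h2⟩ := h
  have a1 := tlat_mem.mp h1 i
  have a2 := h2 (i, false)
  have a3 := h2 (i, true)
  simp only [Pi.sub_apply, tlat_nE_f, tlat_nE_tt] at a2 a3
  by_cases hS : i ∈ S <;> by_cases hT : i ∈ T
  · rw [tlat_nE_mem hS, tlat_nE_mem hT] at a3
    exact ⟨by omega, fun _ => hT⟩
  · rw [tlat_nE_mem hS, tlat_nE_not hT] at a3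
    exfalso
    omega
  · rw [tlat_nE_not hS, tlat_nE_mem hT] at a3
    exact ⟨by omega, fun _ => hT⟩
  · rw [tlat_nE_not hS, tlat_nE_not hT] at a3
    exact ⟨by omega, fun h => absurd h hS⟩

theorem good_nE {S T : Set ι} {e : Wt (ι × Bool)} (h : e ∈ Good (f1Lat ι) (nE T - nE S)) :
    e = 0 ∧ S ⊆ T := by
  refine ⟨?_, fun i hi => (tlat_good h i).2 hi⟩
  funext ⟨⟨i, b⟩, c⟩
  obtain ⟨⟨h1, h2, h3, h4⟩, -⟩ := tlat_good h i
  cases b <;> cases c <;> assumption

theorem tlat_vert (v : ι × Bool → Bool) (c : ι × Bool → ℤ) :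
    ∃! e : Wt (ι × Bool), e ∈ f1Lat ι ∧ ∀ k, e (k, v k) = c k := by
  let q : ι → ℤ := fun i => if v (i, true) = true then -c (i, true) else c (i, true)
  let p : ι → ℤ := fun i => if v (i, false) = true then q i - c (i, false) else c (i, false)
  have key : ∀ k, tlat_mk p q (k, v k) = c k := by
    rintro ⟨i, b⟩
    cases b
    · cases hv : v (i, false)
      · rw [tlat_mk_ff]; simp [p, hv]
      · rw [tlat_mk_ft]; simp [p, hv]
    · cases hv : v (i, true)
      · rw [tlat_mk_tf]; simp [q, hv]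
      · rw [tlat_mk_tt]; simp [q, hv]
  refine ⟨tlat_mk p q, ⟨tlat_mk_mem p q, key⟩, ?_⟩
  rintro e ⟨h1, h2⟩
  funext ⟨⟨i, b⟩, d⟩
  have a1 := tlat_mem.mp h1 i
  have a2 := tlat_mem.mp (tlat_mk_mem p q) i
  have a3 := (h2 (i, false)).trans (key (i, false)).symm
  have a4 := (h2 (i, true)).trans (key (i, true)).symm
  generalize tlat_mk p q = e' at *
  cases hv : v (i, false) <;> cases hw : v (i, true) <;> rw [hv] at a3 <;> rw [hw] at a4 <;>
    cases b <;> cases d <;> omega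

theorem tlat_strict (v : ι × Bool → Bool) (e : Wt (ι × Bool)) (he : e ∈ f1Lat ι)
    (h : ∀ k, e (k, v k) + f1Amp ι (k, v k) = 0) (k : ι × Bool) :
    0 < e (k, !v k) + f1Amp ι (k, !v k) := by
  obtain ⟨i, b⟩ := k
  have a1 := tlat_mem.mp he i
  have a3 := h (i, false)
  have a4 := h (i, true)
  have b1 := tlat_amp_ff (ι := ι) i
  have b2 := tlat_amp_ft (ι := ι) i
  have b3 := tlat_amp_tf (ι := ι) i
  have b4 := tlat_amp_tt (ι := ι) i
  cases hv : v (i, false) <;> cases hw : v (i, true) <;> rw [hv] at a3 <;> rw [hw] at a4 <;>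
    cases b <;> simp only [hv, hw, Bool.not_true, Bool.not_false] <;> omega

theorem tlat_fin [Finite ι] (n : Wt (ι × Bool)) : (Good (f1Lat ι) n).Finite := by
  let B : ι → ℤ := fun i => 3 * (|n ((i, false), false)| + |n ((i, false), true)| +
    |n ((i, true), false)| + |n ((i, true), true)|)
  refine (Set.Finite.pi' (fun a : (ι × Bool) × Bool =>
    Set.finite_Icc (-B a.1.1) (B a.1.1))).subset ?_
  rintro e ⟨h1, h2⟩ ⟨⟨i, b⟩, d⟩
  have a1 := tlat_mem.mp h1 i
  have a2 := h2 (i, false)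
  have a3 := h2 (i, true)
  have c1 := le_abs_self (n ((i, false), false))
  have c2 := le_abs_self (n ((i, false), true))
  have c3 := le_abs_self (n ((i, true), false))
  have c4 := le_abs_self (n ((i, true), true))
  have d1 := neg_abs_le (n ((i, false), false))
  have d2 := neg_abs_le (n ((i, false), true))
  have d3 := neg_abs_le (n ((i, true), false))
  have d4 := neg_abs_le (n ((i, true), true))
  rw [Set.mem_Icc]
  change -(3 * (|n ((i, false), false)| + |n ((i, false), true)| +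
    |n ((i, true), false)| + |n ((i, true), true)|)) ≤ e ((i, b), d) ∧ e ((i, b), d) ≤
      3 * (|n ((i, false), false)| + |n ((i, false), true)| +
    |n ((i, true), false)| + |n ((i, true), true)|)
  generalize |n ((i, false), false)| = x1 at *
  generalize |n ((i, false), true)| = x2 at *
  generalize |n ((i, true), false)| = x3 at *
  generalize |n ((i, true), true)| = x4 at *
  cases b <;> cases d <;> omega

theorem tlat_split (d : ℕ) (p q : ℤ) (h1 : 0 ≤ p + (d + 1) * 2) (h2 : 0 ≤ q - p)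
    (h3 : 0 ≤ q + (d + 1) * 1) (h4 : 0 ≤ -q) : ∃ x : ℤ × ℤ,
      (0 ≤ x.1 + 2 ∧ 0 ≤ x.2 - x.1 ∧ 0 ≤ x.2 + 1 ∧ 0 ≤ -x.2) ∧
      (0 ≤ p - x.1 + d * 2 ∧ 0 ≤ q - p - (x.2 - x.1) ∧ 0 ≤ q - x.2 + d * 1 ∧
        0 ≤ -q - -x.2) := by
  by_cases hq : q ≤ -1
  · by_cases hp : -2 * (d : ℤ) - 1 ≤ p
    · exact ⟨(-1, -1), by omega, by omega⟩
    · exact ⟨(-2, -1), by omega, by omega⟩
  · by_cases hp : -2 * (d : ℤ) ≤ p
    · exact ⟨(0, 0), by omega, by omega⟩
    · by_cases hp' : -2 * (d : ℤ) - 1 ≤ p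
      · exact ⟨(-1, 0), by omega, by omega⟩
      · exact ⟨(-2, 0), by omega, by omega⟩

theorem tlat_idp (d : ℕ) (e : Wt (ι × Bool)) (he : e ∈ f1Lat ι)
    (h : ∀ a, 0 ≤ e a + (d + 1) * f1Amp ι a) :
    ∃ p ∈ f1Lat ι, (∀ a, 0 ≤ p a + f1Amp ι a) ∧ ∀ a, 0 ≤ e a - p a + d * f1Amp ι a := by
  have key : ∀ i, ∃ x : ℤ × ℤ,
      (0 ≤ x.1 + 2 ∧ 0 ≤ x.2 - x.1 ∧ 0 ≤ x.2 + 1 ∧ 0 ≤ -x.2) ∧
      (0 ≤ e ((i, false), false) - x.1 + d * 2 ∧
        0 ≤ e ((i, true), false) - e ((i, false), false) - (x.2 - x.1) ∧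
        0 ≤ e ((i, true), false) - x.2 + d * 1 ∧ 0 ≤ -e ((i, true), false) - -x.2) := by
    intro i
    have a1 := tlat_mem.mp he i
    have b1 := h ((i, false), false)
    have b2 := h ((i, false), true)
    have b3 := h ((i, true), false)
    have b4 := h ((i, true), true)
    rw [tlat_amp_ff] at b1
    rw [tlat_amp_ft] at b2
    rw [tlat_amp_tf] at b3
    rw [tlat_amp_tt] at b4
    exact tlat_split d _ _ b1 (by omega) b3 (by omega)
  choose x hx hy using key
  refine ⟨tlat_mk (fun i => (x i).1) fun i => (x i).2, tlat_mk_mem _ _, ?_, ?_⟩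
  · rintro ⟨⟨i, b⟩, c⟩
    have a1 := hx i
    cases b <;> cases c <;>
      simp only [tlat_mk_ff, tlat_mk_ft, tlat_mk_tf, tlat_mk_tt, tlat_amp_ff, tlat_amp_ft,
        tlat_amp_tf, tlat_amp_tt] <;> omega
  · rintro ⟨⟨i, b⟩, c⟩
    have a1 := hy i
    have a2 := tlat_mem.mp he i
    cases b <;> cases c <;>
      simp only [tlat_mk_ff, tlat_mk_ft, tlat_mk_tf, tlat_mk_tt, tlat_amp_ff, tlat_amp_ft,
        tlat_amp_tf, tlat_amp_tt] <;> omega

theorem tlat_deg0 (e : Wt (ι × Bool)) (he : e ∈ f1Lat ι) (h : ∀ a, 0 ≤ e a) : e = 0 := by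
  funext ⟨⟨i, b⟩, c⟩
  have a1 := tlat_mem.mp he i
  have b1 := h ((i, false), false)
  have b2 := h ((i, false), true)
  have b3 := h ((i, true), false)
  have b4 := h ((i, true), true)
  rw [Pi.zero_apply]
  cases b <;> cases c <;> omega

theorem tlat_nb (d : ℕ) (e : Wt (ι × Bool)) (hd : 0 < d) (he : e ∈ f1Lat ι)
    (h : ∀ a, 0 ≤ e a + d * f1Amp ι a) (k : ι × Bool) :
    0 < e (k, false) + d * f1Amp ι (k, false) ∨ 0 < e (k, true) + d * f1Amp ι (k, true) := by
  obtain ⟨i, b⟩ := k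
  have a1 := tlat_mem.mp he i
  have b1 := h ((i, false), false)
  have b2 := h ((i, false), true)
  have b3 := h ((i, true), false)
  have b4 := h ((i, true), true)
  rw [tlat_amp_ff] at b1
  rw [tlat_amp_ft] at b2
  rw [tlat_amp_tf] at b3
  rw [tlat_amp_tt] at b4
  cases b <;> simp only [tlat_amp_ff, tlat_amp_ft, tlat_amp_tf, tlat_amp_tt] <;> omega

theorem exists_latData (ι : Type) [Finite ι] : ∃ D : LatData (ι × Bool), D.Lat = f1Lat ι :=
  ⟨{ Lat := f1Lat ι
     vert := tlat_vert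
     amp := f1Amp ι
     strict := tlat_strict
     fin_good := tlat_fin
     idp := tlat_idp
     deg0 := tlat_deg0
     nb := tlat_nb }, rfl⟩

end Pool.Agent.Work.MP_910138_ag
end

-- merged part: Pool.Agent.Work.MP_910138_ag.TProj
section
/-! The toric variety as a Proj: points and charts. -/

open CategoryTheory Limits AlgebraicGeometry TopologicalSpace Opposite Abelian

namespace Pool.Agent.Work.MP_910138_ag

variable {κ : Type} (D : LatData κ)

/-- the cone over the polytope -/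
def LatData.Sg : AddSubmonoid (ℕ × Wt κ) where
  carrier := {s | s.2 ∈ D.Lat ∧ ∀ a, 0 ≤ s.2 a + s.1 * D.amp a}
  zero_mem' := ⟨D.Lat.zero_mem, fun a => by simp⟩
  add_mem' {s t} hs ht := ⟨D.Lat.add_mem hs.1 ht.1, fun a => by
    have h₁ := hs.2 a
    have h₂ := ht.2 a
    simp only [Prod.snd_add, Pi.add_apply, Prod.fst_add, Nat.cast_add, add_mul]
    omega⟩

/-- the degree -/
def LatData.dg : D.Sg →+ ℕ := (AddMonoidHom.fst ℕ (Wt κ)).comp D.Sg.subtype

/-- the weight -/
def LatData.wt : D.Sg →+ Wt κ := (AddMonoidHom.snd ℕ (Wt κ)).comp D.Sg.subtype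

/-- the coordinates of a point of the cone -/
def LatData.coord (s : D.Sg) (a : κ × Bool) : ℤ := D.wt s a + D.dg s * D.amp a

/-- the homogeneous coordinate ring -/
abbrev LatData.R : Type := AddMonoidAlgebra (ZMod 2) D.Sg

/-- its grading -/
noncomputable abbrev LatData.gr : ℕ → Submodule (ZMod 2) D.R :=
  AddMonoidAlgebra.gradeBy (ZMod 2) D.dg

/-- the monomials -/
noncomputable def LatData.x (s : D.Sg) : D.R := AddMonoidAlgebra.single s 1

theorem LatData.x_mem (s : D.Sg) : D.x s ∈ D.gr (D.dg s) :=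
  AddMonoidAlgebra.single_mem_gradeBy _ _ _

theorem LatData.x_add (s t : D.Sg) : D.x (s + t) = D.x s * D.x t := by
  rw [LatData.x, LatData.x, LatData.x, AddMonoidAlgebra.single_mul_single, one_mul]

/-- the toric variety -/
noncomputable def LatData.X : Scheme.{0} := Proj D.gr

/-- the standard opens of the monomials -/
noncomputable def LatData.bo (s : D.Sg) : D.X.Opens := Proj.basicOpen D.gr (D.x s)

/-- the complement of the divisor of the ray `(k, !b)` -/
noncomputable def LatData.V (k : κ) (b : Bool) : D.X.Opens :=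
  ⨆ s : {s : D.Sg // 0 < D.coord s (k, !b)}, D.bo s.1

theorem LatData.tproj_coord_nonneg (s : D.Sg) (a : κ × Bool) : 0 ≤ D.coord s a := s.2.2 a

theorem LatData.tproj_coord_add (s t : D.Sg) (a : κ × Bool) :
    D.coord (s + t) a = D.coord s a + D.coord t a := by
  simp only [LatData.coord, map_add, Pi.add_apply, Nat.cast_add]
  ring

theorem LatData.tproj_coord_zero (a : κ × Bool) : D.coord 0 a = 0 := by
  simp [LatData.coord]

theorem LatData.tproj_coord_nsmul (m : ℕ) (s : D.Sg) (a : κ × Bool) :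
    D.coord (m • s) a = m * D.coord s a := by
  induction m with
  | zero => simp [D.tproj_coord_zero]
  | succ m ih =>
    rw [succ_nsmul, D.tproj_coord_add, ih]
    push_cast
    ring

theorem LatData.tproj_bo_add (s t : D.Sg) : D.bo (s + t) = D.bo s ⊓ D.bo t := by
  rw [LatData.bo, D.x_add, Proj.basicOpen_mul]
  rfl

theorem LatData.tproj_bo_zero : D.bo 0 = ⊤ := Proj.basicOpen_one D.gr

theorem LatData.tproj_mem_bo_add {s t : D.Sg} {x : D.X} :
    x ∈ D.bo (s + t) ↔ x ∈ D.bo s ∧ x ∈ D.bo t := by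
  rw [D.tproj_bo_add]
  rfl

theorem LatData.tproj_mem_bo_nsmul {s : D.Sg} {x : D.X} (h : x ∈ D.bo s) (m : ℕ) :
    x ∈ D.bo (m • s) := by
  induction m with
  | zero =>
    rw [zero_nsmul, D.tproj_bo_zero]
    trivial
  | succ m ih =>
    rw [succ_nsmul]
    exact D.tproj_mem_bo_add.2 ⟨ih, h⟩

theorem LatData.tproj_mem_bo_sum {ι : Type} (S : Finset ι) (t : ι → D.Sg) {x : D.X}
    (h : ∀ i ∈ S, x ∈ D.bo (t i)) : x ∈ D.bo (∑ i ∈ S, t i) := by
  classical
  induction S using Finset.induction_on with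
  | empty =>
    rw [Finset.sum_empty, D.tproj_bo_zero]
    trivial
  | insert i S hi ih =>
    rw [Finset.sum_insert hi]
    exact D.tproj_mem_bo_add.2 ⟨h i (Finset.mem_insert_self _ _),
      ih fun j hj => h j (Finset.mem_insert_of_mem hj)⟩

theorem LatData.tproj_coord_sum {ι : Type} (S : Finset ι) (t : ι → D.Sg) (a : κ × Bool) :
    D.coord (∑ i ∈ S, t i) a = ∑ i ∈ S, D.coord (t i) a := by
  classical
  induction S using Finset.induction_on with
  | empty => simp [D.tproj_coord_zero]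
  | insert i S hi ih => rw [Finset.sum_insert hi, Finset.sum_insert hi, D.tproj_coord_add, ih]

theorem LatData.tproj_exists_bo (x : D.X) : ∃ t : D.Sg, 0 < D.dg t ∧ x ∈ D.bo t := by
  have h : ⨆ t : {t : D.Sg // 0 < D.dg t}, Proj.basicOpen D.gr (D.x t.1) = ⊤ := by
    apply Proj.iSup_basicOpen_eq_top
    rw [HomogeneousIdeal.toIdeal_irrelevant_le]
    intro i hi a ha
    have ha' : ∀ m, m ∈ a.coeff.support → D.dg m = i := ha
    change a ∈ Ideal.span _
    rw [← AddMonoidAlgebra.sum_coeff_single a, Finsupp.sum]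
    refine Ideal.sum_mem _ fun m hm => ?_
    have : AddMonoidAlgebra.single m (a.coeff m) =
        AddMonoidAlgebra.single (0 : D.Sg) (a.coeff m) * D.x m := by
      rw [LatData.x, AddMonoidAlgebra.single_mul_single, zero_add, mul_one]
    rw [this]
    exact Ideal.mul_mem_left _ _ (Ideal.subset_span ⟨⟨m, by rw [ha' m hm]; exact hi⟩, rfl⟩)
  have hx : x ∈ ⨆ t : {t : D.Sg // 0 < D.dg t}, Proj.basicOpen D.gr (D.x t.1) := by
    rw [h]
    trivial
  obtain ⟨t, ht⟩ := Opens.mem_iSup.1 hx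
  exact ⟨t.1, t.2, ht⟩

theorem LatData.tproj_mem_V {k : κ} {b : Bool} {x : D.X} :
    x ∈ D.V k b ↔ ∃ s : D.Sg, 0 < D.coord s (k, !b) ∧ x ∈ D.bo s := by
  rw [LatData.V, Opens.mem_iSup]
  exact ⟨fun ⟨s, hs⟩ => ⟨s.1, s.2, hs⟩, fun ⟨s, h, hs⟩ => ⟨⟨s, h⟩, hs⟩⟩

theorem LatData.V_cover (k : κ) : D.V k false ⊔ D.V k true = ⊤ := by
  refine top_le_iff.1 fun x _ => ?_
  obtain ⟨t, ht, hx⟩ := D.tproj_exists_bo x
  rcases D.nb (D.dg t) (D.wt t) ht t.2.1 t.2.2 k with h | h
  · exact Or.inr (D.tproj_mem_V.2 ⟨t, h, hx⟩)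
  · exact Or.inl (D.tproj_mem_V.2 ⟨t, h, hx⟩)

theorem LatData.bo_le_V {s : D.Sg} {k : κ} {b : Bool} (h : 0 < D.coord s (k, !b)) :
    D.bo s ≤ D.V k b :=
  le_iSup (fun s : {s : D.Sg // 0 < D.coord s (k, !b)} => D.bo s.1) ⟨s, h⟩

variable [Fintype κ]

theorem LatData.mem_bo (s : D.Sg) (x : D.X) :
    x ∈ D.bo s ↔ ∀ k b, 0 < D.coord s (k, !b) → x ∈ D.V k b := by
  refine ⟨fun hx k b h => D.bo_le_V h hx, fun h => ?_⟩
  obtain ⟨t₀, ht₀, hx₀⟩ := D.tproj_exists_bo x
  have hw : ∀ a : κ × Bool, ∃ t : D.Sg, x ∈ D.bo t ∧ (0 < D.coord s a → 0 < D.coord t a) := by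
    rintro ⟨k, b⟩
    by_cases hc : 0 < D.coord s (k, b)
    · obtain ⟨t, ht, hx⟩ := D.tproj_mem_V.1 (h k (!b) (by rwa [Bool.not_not]))
      rw [Bool.not_not] at ht
      exact ⟨t, hx, fun _ => ht⟩
    · exact ⟨t₀, hx₀, fun h' => absurd h' hc⟩
  choose w hwx hwc using hw
  set t : D.Sg := t₀ + ∑ a, w a with ht
  have hxt : x ∈ D.bo t :=
    D.tproj_mem_bo_add.2 ⟨hx₀, D.tproj_mem_bo_sum _ _ fun a _ => hwx a⟩
  have hdt : 0 < D.dg t := by
    rw [ht, map_add]
    omega
  have hct : ∀ a, 0 < D.coord s a → 0 < D.coord t a := by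
    intro a ha
    rw [ht, D.tproj_coord_add, D.tproj_coord_sum]
    have h1 := D.tproj_coord_nonneg t₀ a
    have h2 : D.coord (w a) a ≤ ∑ a', D.coord (w a') a :=
      Finset.single_le_sum (f := fun a' => D.coord (w a') a)
        (fun a' _ => D.tproj_coord_nonneg _ _) (Finset.mem_univ a)
    have h3 := hwc a ha
    omega
  set m : ℕ := D.dg s + ∑ a, (D.coord s a).toNat with hm
  have hm1 : D.dg s ≤ m * D.dg t := by
    have : D.dg s ≤ m := Nat.le_add_right _ _
    exact this.trans (Nat.le_mul_of_pos_right _ hdt)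
  have hm2 : ∀ a, D.coord s a ≤ m * D.coord t a := by
    intro a
    have h0 := D.tproj_coord_nonneg s a
    rcases h0.eq_or_lt with h1 | h1
    · rw [← h1]
      exact mul_nonneg (Int.natCast_nonneg _) (D.tproj_coord_nonneg t a)
    · have h2 : (D.coord s a).toNat ≤ ∑ a', (D.coord s a').toNat :=
        Finset.single_le_sum (f := fun a' => (D.coord s a').toNat)
          (fun _ _ => Nat.zero_le _) (Finset.mem_univ a)
      have h3 : D.coord s a ≤ m := by
        have : (D.coord s a).toNat ≤ m := by omega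
        omega
      have h4 := hct a h1
      nlinarith [Int.natCast_nonneg m]
  let t' : D.Sg := ⟨(m * D.dg t - D.dg s, m • D.wt t - D.wt s),
    D.Lat.sub_mem (D.Lat.nsmul_mem t.2.1 m) s.2.1, fun a => by
      have h1 := hm2 a
      simp only [LatData.coord] at h1
      simp only [Pi.sub_apply, nsmul_eq_mul, Pi.mul_apply, Pi.natCast_apply, Nat.cast_sub hm1,
        Nat.cast_mul]
      linarith⟩
  have hsum : m • t = s + t' := by
    refine Subtype.ext (Prod.ext ?_ ?_)
    · change D.dg (m • t) = D.dg s + (m * D.dg t - D.dg s)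
      rw [map_nsmul, smul_eq_mul]
      omega
    · change D.wt (m • t) = D.wt s + (m • D.wt t - D.wt s)
      rw [map_nsmul]
      abel
  have := D.tproj_mem_bo_nsmul hxt m
  rw [hsum] at this
  exact (D.tproj_mem_bo_add.1 this).1

/-- `s` lies in the relative interior of the face of `τ` -/
def LatData.Int (τ : Cone κ) (s : D.Sg) : Prop :=
  0 < D.dg s ∧ ∀ a : κ × Bool, D.coord s a = 0 ↔ τ a.1 = some a.2

omit [Fintype κ] in
theorem LatData.tproj_vertex (v : κ → Bool) : ∃ s : D.Sg, D.dg s = 1 ∧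
    ∀ k, D.coord s (k, v k) = 0 ∧ 0 < D.coord s (k, !v k) := by
  have h0 : ∀ k, D.u D.amp v (k, v k) + D.amp (k, v k) = 0 := fun k => by
    rw [D.u_apply]
    ring
  have h1 := D.strict v _ (D.u_mem D.amp v) h0
  refine ⟨⟨(1, D.u D.amp v), D.u_mem _ _, ?_⟩, rfl, fun k => ⟨?_, ?_⟩⟩
  · rintro ⟨k, b⟩
    simp only [Nat.cast_one, one_mul]
    by_cases hb : b = v k
    · rw [hb, h0]
    · have hb' : b = !v k := by
        revert hb
        cases b <;> cases v k <;> simp
      rw [hb']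
      exact (h1 k).le
  · change D.u D.amp v (k, v k) + ((1 : ℕ) : ℤ) * D.amp (k, v k) = 0
    rw [Nat.cast_one, one_mul, h0]
  · change 0 < D.u D.amp v (k, !v k) + ((1 : ℕ) : ℤ) * D.amp (k, !v k)
    rw [Nat.cast_one, one_mul]
    exact h1 k

theorem LatData.exists_int (τ : Cone κ) : ∃ s, D.Int τ s := by
  obtain ⟨s₀, hd₀, h₀⟩ := D.tproj_vertex fun k => (τ k).getD false
  obtain ⟨s₁, hd₁, h₁⟩ := D.tproj_vertex fun k => (τ k).getD true
  refine ⟨s₀ + s₁, by rw [map_add]; omega, ?_⟩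
  rintro ⟨k, b⟩
  rw [D.tproj_coord_add]
  have e₀ := h₀ k
  have e₁ := h₁ k
  change _ ↔ τ k = some b
  rcases hk : τ k with _ | c
  · simp only [hk, Option.getD_none, Bool.not_false, Bool.not_true] at e₀ e₁
    cases b
    · simp only [reduceCtorEq, iff_false]
      omega
    · simp only [reduceCtorEq, iff_false]
      omega
  · simp only [hk, Option.getD_some] at e₀ e₁
    by_cases hb : c = b
    · subst hb
      simp only [iff_true]
      omega
    · have hb' : b = !c := by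
        revert hb
        cases b <;> cases c <;> simp
      have : ¬ (some c = some b) := fun h => hb (Option.some_injective _ h)
      simp only [this, iff_false]
      rw [hb']
      omega

theorem LatData.chart_eq {τ : Cone κ} {s : D.Sg} (h : D.Int τ s) : chart D.V τ = D.bo s := by
  have key : ∀ k b, (τ k = none ∨ τ k = some b) ↔ 0 < D.coord s (k, !b) := by
    intro k b
    have h1 := h.2 (k, !b)
    have h2 := D.tproj_coord_nonneg s (k, !b)
    have h3 : (τ k = none ∨ τ k = some b) ↔ ¬ τ k = some (!b) := by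
      rcases τ k with _ | _ | _ <;> cases b <;> simp
    rw [h3, ← h1]
    omega
  ext x
  change x ∈ chart D.V τ ↔ x ∈ D.bo s
  rw [mem_chart, D.mem_bo]
  simp only [key]

/-- every allowed character is a quotient of monomials -/
theorem LatData.exists_frac {τ : Cone κ} {s : D.Sg} (h : D.Int τ s) (E : Finset (Wt κ))
    (hE : ∀ e ∈ E, e ∈ D.Lat ∧ Allowed 0 τ e) : ∃ m : ℕ, ∀ e ∈ E, ∃ t : D.Sg,
      D.dg t = m * D.dg s ∧ D.wt t = e + m • D.wt s := by
  refine ⟨∑ e ∈ E, ∑ a, (e a).natAbs, fun e he => ?_⟩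
  set m : ℕ := ∑ e ∈ E, ∑ a, (e a).natAbs with hm
  have hle : ∀ a, (e a).natAbs ≤ m := fun a =>
    (Finset.single_le_sum (f := fun a => (e a).natAbs) (fun _ _ => Nat.zero_le _)
      (Finset.mem_univ a)).trans
      (Finset.single_le_sum (f := fun e : Wt κ => ∑ a, (e a).natAbs) (fun _ _ => Nat.zero_le _) he)
  refine ⟨⟨(m * D.dg s, e + m • D.wt s),
    D.Lat.add_mem (hE e he).1 (D.Lat.nsmul_mem s.2.1 m), fun a => ?_⟩, rfl, rfl⟩
  have h1 : 0 ≤ e a + m * D.coord s a := by
    rcases (D.tproj_coord_nonneg s a).eq_or_lt with h0 | h0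
    · have h2 := (hE e he).2 a ((h.2 a).1 h0.symm)
      rw [← h0]
      simpa using h2
    · have h2 := hle a
      have h3 : -e a ≤ m := by omega
      nlinarith [Int.natCast_nonneg m]
  simp only [LatData.coord] at h1
  simp only [Pi.add_apply, nsmul_eq_mul, Pi.mul_apply, Pi.natCast_apply, Nat.cast_mul]
  linarith

end Pool.Agent.Work.MP_910138_ag
end

-- merged part: Pool.Agent.Work.MP_910138_ag.TAway
section
/-! The homogeneous localisations of the monoid algebra as rings of Laurent polynomials. -/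

open CategoryTheory Limits AlgebraicGeometry TopologicalSpace Opposite Abelian

namespace Pool.Agent.Work.MP_910138_ag

open HomogeneousLocalization

variable {κ : Type} (D : LatData κ)

/-- forgetting the degree -/
noncomputable def LatData.forget : D.R →+* Lam κ := AddMonoidAlgebra.mapDomainRingHom (ZMod 2) D.wt

theorem taway_forget_single (s : D.Sg) (c : ZMod 2) :
    D.forget (AddMonoidAlgebra.single s c) = AddMonoidAlgebra.single (D.wt s) c :=
  AddMonoidAlgebra.mapDomain_single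

theorem taway_coeff (a : D.R) : (D.forget a).coeff = Finsupp.mapDomain D.wt a.coeff := rfl

theorem taway_mon_inv (e : Wt κ) : mon e * mon (-e) = 1 := by
  rw [← mon_add, add_neg_cancel, mon_zero]

theorem taway_mon_pow (e : Wt κ) (m : ℕ) : mon e ^ m = mon (m • e) := by
  induction m with
  | zero => rw [pow_zero, zero_smul, mon_zero]
  | succ m ih => rw [pow_succ, ih, succ_nsmul, mon_add]

theorem taway_eq_zero {d : ℕ} {a : D.R} (ha : a ∈ D.gr d) (h : D.forget a = 0) : a = 0 := by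
  have inj : Set.InjOn D.wt {s | D.dg s = d} := fun s hs t ht e =>
    Subtype.ext (Prod.ext (Eq.trans hs (Eq.symm ht)) e)
  have h1 : Finsupp.mapDomain D.wt a.coeff = Finsupp.mapDomain D.wt (0 : D.Sg →₀ ZMod 2) := by
    rw [← taway_coeff, h, Finsupp.mapDomain_zero]
    rfl
  have h2 : a.coeff = 0 := Finsupp.mapDomain_injOn _ inj (fun s hs => ha s hs) (by simp) h1
  exact AddMonoidAlgebra.coeff_injective h2

theorem LatData.forget_x (s : D.Sg) : D.forget (D.x s) = mon (D.wt s) := by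
  exact taway_forget_single D s 1

theorem LatData.isUnit_forget_x (s : D.Sg) : IsUnit (D.forget (D.x s)) := by
  rw [D.forget_x]
  exact isUnit_iff_exists_inv.2 ⟨_, taway_mon_inv _⟩

/-- a homogeneous fraction as a Laurent polynomial -/
noncomputable def LatData.evAway (s : D.Sg) : Away D.gr (D.x s) →+* Lam κ :=
  (Localization.awayLift D.forget (D.x s) (D.isUnit_forget_x s)).comp
    (algebraMap _ (Localization.Away (D.x s)))

theorem LatData.evAway_mk (s : D.Sg) (m : ℕ) (a : D.R) (ha : a ∈ D.gr (m • D.dg s)) :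
    D.evAway s (Away.mk D.gr (D.x_mem s) m a ha) = mon (-(m • D.wt s)) * D.forget a := by
  have h := Localization.awayLift_mk D.forget (D.x s) a (mon (-D.wt s))
    (by rw [D.forget_x]; exact taway_mon_inv _) m
  rw [taway_mon_pow, smul_neg] at h
  exact h.trans (mul_comm _ _)

theorem LatData.evAway_injective (s : D.Sg) : Function.Injective (D.evAway s) := by
  refine (injective_iff_map_eq_zero _).2 fun y hy => ?_
  obtain ⟨m, a, ha, rfl⟩ := Away.mk_surjective D.gr (D.x_mem s) y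
  rw [D.evAway_mk] at hy
  have h1 : D.forget a = 0 := by
    have := congrArg (mon (m • D.wt s) * ·) hy
    simpa only [← mul_assoc, taway_mon_inv, one_mul, mul_zero] using this
  obtain rfl := taway_eq_zero D ha h1
  ext
  simp [Localization.mk_zero]

theorem LatData.evAway_awayMap (s t r : D.Sg) (h : D.x r = D.x s * D.x t)
    (y : Away D.gr (D.x s)) : D.evAway r (awayMap D.gr (D.x_mem t) h y) = D.evAway s y := by
  obtain ⟨m, a, ha, rfl⟩ := Away.mk_surjective D.gr (D.x_mem s) y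
  obtain rfl : r = s + t := by
    rw [← D.x_add] at h
    exact AddMonoidAlgebra.single_left_injective one_ne_zero h
  have hm : a * D.x t ^ m ∈ D.gr (m • D.dg (s + t)) := by
    rw [map_add, smul_add]
    exact SetLike.mul_mem_graded ha (SetLike.pow_mem_graded m (D.x_mem t))
  have e : awayMap D.gr (D.x_mem t) h (Away.mk D.gr (D.x_mem s) m a ha) =
      Away.mk D.gr (D.x_mem (s + t)) m (a * D.x t ^ m) hm := by
    rw [awayMap_mk]
    ext
    rfl
  rw [e, D.evAway_mk, D.evAway_mk, map_mul, map_pow, D.forget_x, taway_mon_pow, mul_comm (D.forget a),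
    ← mul_assoc, ← mon_add, map_add, smul_add]
  congr 2
  abel

theorem LatData.evAway_range [Fintype κ] {τ : Cone κ} {s : D.Sg} (h : D.Int τ s) (l : Lam κ) :
    (∃ y, D.evAway s y = l) ↔ InSpan D.Lat 0 τ l := by
  classical
  constructor
  · rintro ⟨y, rfl⟩ e he
    obtain ⟨m, a, ha, rfl⟩ := Away.mk_surjective D.gr (D.x_mem s) y
    rw [D.evAway_mk, mem_support_mon_mul, taway_coeff] at he
    obtain ⟨t, ht, e1⟩ := Finset.mem_image.1 (Finsupp.mapDomain_support he)
    have e2 : e = D.wt t - m • D.wt s := by rw [e1]; abel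
    have e3 : D.dg t = m • D.dg s := ha t ht
    refine ⟨e2 ▸ D.Lat.sub_mem t.2.1 (D.Lat.nsmul_mem s.2.1 m), fun b hb => ?_⟩
    have h1 : D.wt s b + D.dg s * D.amp b = 0 := (h.2 b).2 hb
    have h2 : 0 ≤ D.wt t b + D.dg t * D.amp b := t.2.2 b
    rw [e3, smul_eq_mul, Nat.cast_mul] at h2
    rw [e2, Pi.sub_apply, Pi.smul_apply, nsmul_eq_mul, Pi.zero_apply]
    have h3 : (m : ℤ) * (D.wt s b + D.dg s * D.amp b) = 0 := by rw [h1, mul_zero]
    linarith
  · intro hl
    obtain ⟨m, hm⟩ := D.exists_frac h l.coeff.support hl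
    choose! t ht using hm
    refine ⟨Away.mk D.gr (D.x_mem s) m
      (∑ e ∈ l.coeff.support, AddMonoidAlgebra.single (t e) (l.coeff e))
      (Submodule.sum_mem _ fun e he => by
        rw [smul_eq_mul, ← (ht e he).1]
        exact AddMonoidAlgebra.single_mem_gradeBy _ _ _), ?_⟩
    rw [D.evAway_mk, map_sum, Finset.mul_sum]
    conv_rhs => rw [← AddMonoidAlgebra.sum_coeff_single l]
    refine Finset.sum_congr rfl fun e he => ?_
    rw [taway_forget_single, (ht e he).2, mon, AddMonoidAlgebra.single_mul_single, one_mul]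
    congr 1
    abel

end Pool.Agent.Work.MP_910138_ag
end

-- merged part: Pool.Agent.Work.MP_910138_ag.TProj2
section
/-! The toric structure on the Proj of the monoid algebra. -/

open CategoryTheory Limits AlgebraicGeometry TopologicalSpace Opposite Abelian

namespace Pool.Agent.Work.MP_910138_ag

open HomogeneousLocalization

variable {κ : Type} (D : LatData κ)

/-- the section of a homogeneous fraction -/
noncomputable def LatData.sec (s : D.Sg) : Away D.gr (D.x s) →+* Γ(D.X, D.bo s) :=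
  (Proj.awayToSection D.gr (D.x s)).hom

theorem LatData.sec_bijective {s : D.Sg} (hs : 0 < D.dg s) : Function.Bijective (D.sec s) :=
  ConcreteCategory.bijective_of_isIso (Proj.basicOpenIsoAway D.gr (D.x s) (D.x_mem s) hs).hom

/-- evaluation on a standard open -/
noncomputable def LatData.evO {s : D.Sg} (hs : 0 < D.dg s) : Γ(D.X, D.bo s) →+* Lam κ :=
  (D.evAway s).comp (RingEquiv.ofBijective _ (D.sec_bijective hs)).symm.toRingHom

theorem LatData.evO_sec {s : D.Sg} (hs : 0 < D.dg s) (y : Away D.gr (D.x s)) :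
    D.evO hs (D.sec s y) = D.evAway s y :=
  congrArg (D.evAway s) ((RingEquiv.ofBijective _ (D.sec_bijective hs)).symm_apply_apply y)

theorem LatData.evO_res {s t r : D.Sg} (hs : 0 < D.dg s) (hr : 0 < D.dg r)
    (h : D.x r = D.x s * D.x t) (hle : D.bo r ≤ D.bo s) (y : Γ(D.X, D.bo s)) :
    D.evO hr (resO D.X hle y) = D.evO hs y := by
  obtain ⟨y, rfl⟩ := (D.sec_bijective hs).2 y
  have h1 : resO D.X hle (D.sec s y) = D.sec r (awayMap D.gr (D.x_mem t) h y) :=
    (ConcreteCategory.congr_hom (Proj.awayMap_awayToSection D.gr (D.x_mem t) h) y).symm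
  rw [h1, D.evO_sec, D.evO_sec, D.evAway_awayMap s t r h]

theorem LatData.basicOpen_sec {s : D.Sg} (m : ℕ) (t : D.Sg) (ht : D.x t ∈ D.gr (m • D.dg s)) :
    D.X.basicOpen (D.sec s (Away.mk D.gr (D.x_mem s) m (D.x t) ht)) ≤ D.bo t := by
  intro x hx
  have hxs : x ∈ D.bo s := D.X.basicOpen_le _ hx
  have h1 := (D.X.mem_basicOpen _ x hxs).1 hx
  have h2 := ConcreteCategory.congr_hom
    (ProjectiveSpectrum.Proj.awayToSection_germ D.gr (D.x s) x hxs)
    (Away.mk D.gr (D.x_mem s) m (D.x t) ht)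
  have h3 : IsUnit ((Proj.stalkIso' D.gr x).symm
      (mapId D.gr (Submonoid.powers_le.mpr hxs) (Away.mk D.gr (D.x_mem s) m (D.x t) ht))) :=
    h2 ▸ h1
  have h4 := h3.map (Proj.stalkIso' D.gr x)
  rw [RingEquiv.apply_symm_apply, ← isUnit_iff_isUnit_val] at h4
  have h5 : (mapId D.gr (Q := x.asHomogeneousIdeal.toIdeal.primeCompl)
      (Submonoid.powers_le.mpr hxs) (Away.mk D.gr (D.x_mem s) m (D.x t) ht)).val =
      IsLocalization.mk' (Localization.AtPrime x.asHomogeneousIdeal.toIdeal) (D.x t)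
        (⟨D.x s ^ m, Submonoid.pow_mem _ hxs m⟩ : x.asHomogeneousIdeal.toIdeal.primeCompl) := by
    rw [← Localization.mk_eq_mk']
    rfl
  rw [h5, IsLocalization.AtPrime.isUnit_mk'_iff] at h4
  exact h4

variable [Fintype κ]

theorem LatData.nonempty_toricData : Nonempty (ToricData D D.X) := by
  choose s hs using D.exists_int
  have he : ∀ τ, chart D.V τ = D.bo (s τ) := fun τ => D.chart_eq (hs τ)
  have hb : ∀ τ, Function.Bijective (resO D.X (he τ).ge) := fun τ =>
    Function.bijective_iff_has_inverse.2 ⟨resO D.X (he τ).le, fun y => by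
      rw [resO_resO, resO_self], fun y => by rw [resO_resO, resO_self]⟩
  have hrange : ∀ τ (l : Lam κ), (∃ y, ((D.evO (hs τ).1).comp (resO D.X (he τ).ge)) y = l) ↔
      InSpan D.Lat 0 τ l := fun τ l => by
    rw [← D.evAway_range (hs τ)]
    constructor
    · rintro ⟨y, rfl⟩
      obtain ⟨z, hz⟩ := (D.sec_bijective (hs τ).1).2 (resO D.X (he τ).ge y)
      exact ⟨z, by rw [RingHom.comp_apply, ← hz, D.evO_sec]⟩
    · rintro ⟨z, rfl⟩
      obtain ⟨y, hy⟩ := (hb τ).2 (D.sec _ z)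
      exact ⟨y, by rw [RingHom.comp_apply, hy, D.evO_sec]⟩
  have hinj : ∀ τ, Function.Injective (D.evO (hs τ).1) := fun τ =>
    (D.evAway_injective _).comp (RingEquiv.ofBijective _ (D.sec_bijective (hs τ).1)).symm.injective
  refine ⟨{ V := D.V
            cover := D.V_cover
            affine := fun τ => he τ ▸ Proj.isAffineOpen_basicOpen D.gr _ (D.x_mem _) (hs τ).1
            ev := fun τ => (D.evO (hs τ).1).comp (resO D.X (he τ).ge)
            ev_res := fun τ τ' h y => ?_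
            ev_inj := fun τ => (hinj τ).comp (hb τ).1
            ev_range := hrange
            basic := fun τ f e k b hf hk hpos => ?_ }⟩
  · have hr : 0 < D.dg (s τ + s τ') := by
      rw [map_add]
      exact Nat.add_pos_left (hs τ).1 _
    have h1 : D.bo (s τ + s τ') ≤ D.bo (s τ) := (D.tproj_bo_add _ _).le.trans inf_le_left
    have h2 : D.bo (s τ + s τ') ≤ D.bo (s τ') := (D.tproj_bo_add _ _).le.trans inf_le_right
    rw [RingHom.comp_apply, RingHom.comp_apply, ← D.evO_res (hs τ).1 hr (D.x_add _ _) h1,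
      ← D.evO_res (hs τ').1 hr ((D.x_add _ _).trans (mul_comm _ _)) h2, resO_resO, resO_resO,
      resO_resO]
  · have hE := inSpan_mon.1 ((hrange τ _).1 ⟨f, hf⟩)
    obtain ⟨m, hm⟩ := D.exists_frac (hs τ) {e} (by simpa using hE)
    obtain ⟨t, ht1, ht2⟩ := hm e (Finset.mem_singleton_self e)
    have ht : D.x t ∈ D.gr (m • D.dg (s τ)) := by
      rw [smul_eq_mul, ← ht1]
      exact D.x_mem t
    have h1 : resO D.X (he τ).ge f = D.sec _ (Away.mk D.gr (D.x_mem (s τ)) m (D.x t) ht) := by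
      apply hinj τ
      rw [D.evO_sec, D.evAway_mk, D.forget_x, ← mon_add, ht2]
      exact hf.trans (congrArg mon (by abel))
    have h2 : D.X.basicOpen f ≤ D.X.basicOpen (resO D.X (he τ).ge f) := by
      have := D.X.basicOpen_res f (homOfLE (he τ).ge).op
      refine le_of_le_of_eq ?_ this.symm
      exact le_inf ((D.X.basicOpen_le f).trans (he τ).le) le_rfl
    refine h2.trans ?_
    rw [h1]
    refine (D.basicOpen_sec m t ht).trans (D.bo_le_V ?_)
    have h3 := ((hs τ).2 (k, b)).2 hk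
    rw [Bool.not_not, LatData.coord, ht1, ht2]
    rw [LatData.coord] at h3
    rw [Pi.add_apply, Pi.smul_apply, nsmul_eq_mul, Nat.cast_mul]
    have : (m : ℤ) * D.wt (s τ) (k, b) + m * D.dg (s τ) * D.amp (k, b) = 0 := by
      rw [mul_assoc, ← mul_add, h3, mul_zero]
    omega

end Pool.Agent.Work.MP_910138_ag
end

-- merged part: Pool.Agent.Work.MP_910138_ag.TProjCI
section
/-! The closed immersion into projective space. -/

open CategoryTheory Limits AlgebraicGeometry TopologicalSpace Opposite Abelian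

namespace Pool.Agent.Work.MP_910138_ag

theorem tprojci_exists_mem {A B σ τ : Type} [CommRing A] [SetLike σ A]
    [AddSubgroupClass σ A] [CommRing B] [SetLike τ B] [AddSubgroupClass τ B]
    {𝒜 : ℕ → σ} {ℬ : ℕ → τ} [GradedRing 𝒜] [GradedRing ℬ] (f : 𝒜 →+*ᵍ ℬ)
    (hs : Function.Surjective f) {i : ℕ} {b : B} (hb : b ∈ ℬ i) : ∃ a ∈ 𝒜 i, f a = b := by
  obtain ⟨a, rfl⟩ := hs b
  refine ⟨DirectSum.decompose 𝒜 a i, SetLike.coe_mem _, ?_⟩
  rw [GradedRingHom.map_directSumDecompose, DirectSum.decompose_of_mem_same _ hb]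

theorem tprojci_away_surj {A B σ τ : Type} [CommRing A] [SetLike σ A]
    [AddSubgroupClass σ A] [CommRing B] [SetLike τ B] [AddSubgroupClass τ B]
    {𝒜 : ℕ → σ} {ℬ : ℕ → τ} [GradedRing 𝒜] [GradedRing ℬ] (f : 𝒜 →+*ᵍ ℬ)
    (hs : Function.Surjective f) {i : ℕ} {s : A} (h : s ∈ 𝒜 i) :
    Function.Surjective (HomogeneousLocalization.Away.map f s) := by
  intro y
  obtain ⟨n, b, hb, rfl⟩ := HomogeneousLocalization.Away.mk_surjective ℬ (Graded.map_mem f h) y
  obtain ⟨a, ha, rfl⟩ := tprojci_exists_mem f hs hb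
  exact ⟨HomogeneousLocalization.Away.mk 𝒜 h n a ha, HomogeneousLocalization.Away.map_mk ..⟩

open HomogeneousIdeal in
theorem tprojci_irrelevant_le {A B σ τ : Type} [CommRing A] [SetLike σ A]
    [AddSubgroupClass σ A] [CommRing B] [SetLike τ B] [AddSubgroupClass τ B]
    {𝒜 : ℕ → σ} {ℬ : ℕ → τ} [GradedRing 𝒜] [GradedRing ℬ] (f : 𝒜 →+*ᵍ ℬ)
    (hs : Function.Surjective f) : irrelevant ℬ ≤ (irrelevant 𝒜).map f := by
  refine (irrelevant_le ℬ).2 fun i hi b hb => ?_
  obtain ⟨a, ha, rfl⟩ := tprojci_exists_mem f hs (show b ∈ ℬ i from hb)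
  exact Ideal.mem_map_of_mem f (mem_irrelevant_of_mem 𝒜 hi ha)

open HomogeneousIdeal in
theorem isClosedImmersion_projMap {A B σ τ : Type} [CommRing A] [SetLike σ A]
    [AddSubgroupClass σ A] [CommRing B] [SetLike τ B] [AddSubgroupClass τ B]
    {𝒜 : ℕ → σ} {ℬ : ℕ → τ} [GradedRing 𝒜] [GradedRing ℬ] (f : 𝒜 →+*ᵍ ℬ)
    (hf : irrelevant ℬ ≤ (irrelevant 𝒜).map f) (hs : Function.Surjective f) :
    IsClosedImmersion (Proj.map f hf) := by
  refine IsZariskiLocalAtTarget.of_openCover (P := @IsClosedImmersion)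
    (Proj.affineOpenCover 𝒜).openCover fun s => ?_
  obtain ⟨⟨i, hi⟩, s, hs'⟩ := s
  have hP : IsPullback (Spec.map (CommRingCat.ofHom (HomogeneousLocalization.Away.map f s)))
      (Proj.awayι ℬ (f s) (f.2 hs') hi) (Proj.awayι 𝒜 s hs' hi) (Proj.map f hf) :=
    IsOpenImmersion.isPullback _ _ _ _ (Proj.awayι_comp_map f hf hi s hs') (by
      rw [Proj.opensRange_awayι, Proj.opensRange_awayι, Proj.map_preimage_basicOpen])
  have hC : IsClosedImmersion
      (Spec.map (CommRingCat.ofHom (HomogeneousLocalization.Away.map f s))) :=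
    IsClosedImmersion.spec_of_surjective _ (tprojci_away_surj f hs hs')
  have h : IsClosedImmersion (pullback.snd (Proj.map f hf) (Proj.awayι 𝒜 s hs' hi)) := by
    rw [← hP.flip.isoPullback_inv_snd]
    infer_instance
  exact h

attribute [local instance] MvPolynomial.gradedAlgebra

theorem tprojci_aeval_mem {K B ι : Type} [CommRing K] [CommRing B] [Algebra K B]
    (ℬ : ℕ → Submodule K B) [GradedAlgebra ℬ] (g : ι → B) (hg : ∀ i, g i ∈ ℬ 1) {m : ℕ}
    {φ : MvPolynomial ι K} (hφ : φ ∈ MvPolynomial.homogeneousSubmodule ι K m) :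
    MvPolynomial.aeval g φ ∈ ℬ m := by
  rw [MvPolynomial.mem_homogeneousSubmodule] at hφ
  rw [MvPolynomial.aeval_def, MvPolynomial.eval₂_eq]
  refine Submodule.sum_mem _ fun d hd => ?_
  rw [← Algebra.smul_def]
  refine Submodule.smul_mem _ _ ?_
  have h1 := SetLike.prod_pow_mem_graded ℬ (fun _ => 1) g d (F := d.support) fun i _ => hg i
  have h2 : ∑ k ∈ d.support, d k • 1 = m := by
    rw [← hφ (MvPolynomial.mem_support_iff.1 hd), Finsupp.weight_apply]
    rfl
  rwa [h2] at h1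

/-- the lattice points of the polytope -/
def tprojciP {κ : Type} (D : LatData κ) : Set (Wt κ) := {e | e ∈ D.Lat ∧ ∀ a, 0 ≤ e a + D.amp a}

theorem tprojci_finite {κ : Type} (D : LatData κ) : (tprojciP D).Finite :=
  (D.fin_good D.amp).subset fun _ he => ⟨he.1, fun _ => iff_of_true (he.2 _) (he.2 _)⟩

theorem tprojci_nonempty {κ : Type} (D : LatData κ) : (tprojciP D).Nonempty := by
  refine ⟨D.u D.amp fun _ => false, D.u_mem _ _, ?_⟩
  have h0 : ∀ k, D.u D.amp (fun _ => false) (k, false) + D.amp (k, false) = 0 := fun k => by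
    have := D.u_apply D.amp (fun _ => false) k
    rw [this, neg_add_cancel]
  rintro ⟨k, _ | _⟩
  · exact (h0 k).ge
  · exact (D.strict (fun _ => false) _ (D.u_mem _ _) h0 k).le

/-- the degree one monomial of a lattice point -/
def tprojciS {κ : Type} (D : LatData κ) (p : tprojciP D) : D.Sg :=
  ⟨(1, p.1), p.2.1, fun a => by simpa using p.2.2 a⟩

theorem tprojci_x_mem {κ : Type} (D : LatData κ) (T : Subalgebra (ZMod 2) D.R)
    (hT : ∀ p, D.x (tprojciS D p) ∈ T) (d : ℕ) :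
    ∀ s : D.Sg, s.1.1 = d → D.x s ∈ T := by
  induction d with
  | zero =>
    rintro ⟨⟨d, e⟩, he, h⟩ rfl
    obtain rfl : e = 0 := D.deg0 e he fun a => by simpa using h a
    exact T.one_mem
  | succ d ih =>
    rintro ⟨⟨_, e⟩, he, h⟩ rfl
    obtain ⟨p, hp, h1, h2⟩ := D.idp d e he fun a => by simpa using h a
    let t : D.Sg := ⟨(d, e - p), D.Lat.sub_mem he hp, fun a => h2 a⟩
    have : (⟨(d + 1, e), he, h⟩ : D.Sg) = t + tprojciS D ⟨p, hp, h1⟩ :=
      Subtype.ext (Prod.ext rfl (sub_add_cancel e p).symm)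
    rw [this, D.x_add]
    exact T.mul_mem (ih t rfl) (hT _)

theorem LatData.exists_closedImmersion {κ : Type} [Fintype κ] (D : LatData κ) :
    ∃ (n : ℕ) (i : D.X ⟶ projSpace (ZMod 2) n), IsClosedImmersion i := by
  obtain ⟨n, p, hp⟩ : ∃ (n : ℕ) (p : Fin (n + 1) → tprojciP D), Function.Surjective p := by
    have := (tprojci_finite D).to_subtype
    have := (tprojci_nonempty D).to_subtype
    obtain ⟨m, ⟨e⟩⟩ := Finite.exists_equiv_fin (tprojciP D)
    rcases m with _ | n
    · exact (e (Classical.arbitrary _)).elim0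
    · exact ⟨n, e.symm, e.symm.surjective⟩
  let g : Fin (n + 1) → D.R := fun i => D.x (tprojciS D (p i))
  let f : MvPolynomial.homogeneousSubmodule (Fin (n + 1)) (ZMod 2) →+*ᵍ D.gr :=
    { toRingHom := (MvPolynomial.aeval g).toRingHom
      map_mem := fun h => tprojci_aeval_mem D.gr g (fun i => D.x_mem _) h }
  have hs : Function.Surjective f := by
    intro y
    change y ∈ (MvPolynomial.aeval g : MvPolynomial (Fin (n + 1)) (ZMod 2) →ₐ[ZMod 2] D.R).range
    induction y using AddMonoidAlgebra.induction_on with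
    | of s =>
      refine tprojci_x_mem D _ (fun q => ?_) _ s rfl
      obtain ⟨i, rfl⟩ := hp q
      exact ⟨MvPolynomial.X i, MvPolynomial.aeval_X ..⟩
    | add a b ha hb => exact Subalgebra.add_mem _ ha hb
    | smul r a ha => exact Subalgebra.smul_mem _ ha r
  exact ⟨n, Proj.map f (tprojci_irrelevant_le f hs), isClosedImmersion_projMap f _ hs⟩

end Pool.Agent.Work.MP_910138_ag
end

-- merged part: Pool.Agent.Work.MP_910138_ag.Low
section
/-! Construction of the realisation from a strong exceptional poset of objects. -/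

open CategoryTheory Limits CochainComplex.HomComplex

set_option linter.unusedSectionVars false

namespace Pool.Agent.Work.MP_910138_ag

universe v u

variable {A : Type u} [Category.{v} A] [Abelian A] [HasCoproductsOfShape ℤ A] [Linear (ZMod 2) A]
  [HasDerivedCategory A]

open DerivedCategory

variable (A) in
/-- a poset of objects with one-dimensional Hom groups and no higher Ext -/
structure PosetData (Q' : Type) [PartialOrder Q'] where
  ρ : Q' ⥤ A
  hom_le : ∀ {q q' : Q'} (h : q ≤ q') (f : ρ.obj q ⟶ ρ.obj q'), f = 0 ∨ f = ρ.map (homOfLE h)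
  map_ne : ∀ {q q' : Q'} (h : q ≤ q'), ρ.map (homOfLE h) ≠ 0
  hom_not_le : ∀ {q q' : Q'}, ¬ q ≤ q' → ∀ f : ρ.obj q ⟶ ρ.obj q', f = 0
  ext_zero : ∀ (q q' : Q') (n : ℤ), 0 < n →
    ∀ φ : Q.obj ((sgl A).obj (ρ.obj q)) ⟶ (Q.obj ((sgl A).obj (ρ.obj q')))⟦n⟧, φ = 0

/-- `K` is a total complex of objects of the poset -/
def Built {Q' : Type} [PartialOrder Q'] (ρ : Q' ⥤ A) (K : Cx A) : Prop :=
  ∃ (G : Type) (_ : Fintype G) (l : G → Q') (deg : G → ℤ)
    (t : ∀ x y, U ((sgl A).obj (ρ.obj (l x))) ⟶ U ((sgl A).obj (ρ.obj (l y)))),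
    Tw (fun x => (sgl A).obj (ρ.obj (l x))) deg t ∧
      Nonempty (TotStr K (fun x => (sgl A).obj (ρ.obj (l x))) deg t)

/-- the output of the construction -/
structure LowData {P : Type} [PartialOrder P] (ρ : QQ P ⥤ A) where
  Γ : GamData A P
  WF : P → Cx A
  built : ∀ α, Built ρ (Γ.W α)
  builtF : ∀ u, Built ρ (WF u)
  ses : ∀ u, ∃ (i : WF u ⟶ Γ.W (u, true)) (p : Γ.W (u, true) ⟶ Γ.W (u, false)) (w : i ≫ p = 0),
    (ShortComplex.mk i p w).ShortExact
  ff_self : ∀ (u : P) (φ : Q.obj (WF u) ⟶ Q.obj (WF u)), φ = 0 ∨ φ = 𝟙 _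
  ff_zero : ∀ (u v : P) (n : ℤ), (¬ u ≤ v ∨ n ≠ 0) →
    ∀ φ : Q.obj (WF u) ⟶ (Q.obj (WF v))⟦n⟧, φ = 0
  fk_zero : ∀ (u v : P) (n : ℤ) (φ : Q.obj (WF u) ⟶ (Q.obj (Γ.W (v, false)))⟦n⟧), φ = 0

section matrices

theorem low_supp_mul {s t r : Fin 3} {m n k : ℤ} {M N : Matrix (Fin 9) (Fin 9) (ZMod 2)}
    (hM : Supp s t m M) (hN : Supp t r n N) (h : m + n = k) : Supp s r k (M * N) := by
  intro q q'' hq
  rw [Matrix.mul_apply] at hq
  obtain ⟨y, -, hy⟩ := Finset.exists_ne_zero_of_sum_ne_zero hq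
  obtain ⟨a1, -, a3, a4⟩ := hM q y (left_ne_zero_of_mul hy)
  obtain ⟨-, b2, b3, b4⟩ := hN y q'' (right_ne_zero_of_mul hy)
  refine ⟨a1, b2, ?_, by omega⟩
  exact (pp_le_iff q q'').1 (le_trans ((pp_le_iff q y).2 a3) ((pp_le_iff y q'').2 b3))

theorem low_supp_add {s t : Fin 3} {m : ℤ} {M N : Matrix (Fin 9) (Fin 9) (ZMod 2)}
    (hM : Supp s t m M) (hN : Supp s t m N) : Supp s t m (M + N) := by
  intro q q' hq
  by_cases h : M q q' = 0
  · refine hN q q' fun h' => hq ?_
    rw [Matrix.add_apply, h, h', add_zero]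
  · exact hM q q' h

theorem low_supp_dH {s t : Fin 3} {m k : ℤ} {M : Matrix (Fin 9) (Fin 9) (ZMod 2)}
    (hM : Supp s t m M) (h : m + 1 = k) : Supp s t k (dH s t M) :=
  low_supp_add (low_supp_mul (supp_dM s) hM (by omega)) (low_supp_mul hM (supp_dM t) h)

theorem low_eM_20_01 : eM 2 0 * eM 0 1 = 0 := by decide

theorem low_eM_20_02 : eM 2 0 * eM 0 2 = eM 2 2 := by decide

theorem low_eM_10_01 : eM 1 0 * eM 0 1 = eM 1 1 := by decide

theorem low_eM_split : eM 0 2 * eM 2 0 + eM 0 1 * eM 1 0 = eM 0 0 := by decide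

theorem low_zmod2 (c : ZMod 2) : c = 0 ∨ c = 1 := by revert c; decide

end matrices

section singles

omit [HasDerivedCategory A] [Linear (ZMod 2) A] in
theorem low_dU_sgl (M : A) : dU ((sgl A).obj M) = 0 := U_ext fun p => by
  rw [ιU_dU p _ rfl, comp_zero]
  simp

omit [HasDerivedCategory A] [Linear (ZMod 2) A] in
theorem low_dl_sgl {M N : A} (f : U ((sgl A).obj M) ⟶ U ((sgl A).obj N)) : dl f = 0 := by
  rw [dl, low_dU_sgl, low_dU_sgl, zero_comp, comp_zero, add_zero]

omit [HasDerivedCategory A] [Linear (ZMod 2) A] in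
theorem low_hg_sgl_ne {M N : A} {m : ℤ} (hm : m ≠ 0) {f : U ((sgl A).obj M) ⟶ U ((sgl A).obj N)}
    (hf : Hg m f) : f = 0 := by
  refine U_ext fun p => ?_
  by_cases hp : p = 0
  · subst hp
    have hz : IsZero (((sgl A).obj N).X (0 + m)) :=
      HomologicalComplex.isZero_single_obj_X _ _ _ _ (by omega)
    rw [hf 0, hz.eq_of_src (ιU _ (0 + m)) 0]
    simp
  · have hz : IsZero (((sgl A).obj M).X p) :=
      HomologicalComplex.isZero_single_obj_X _ _ _ _ hp
    exact hz.eq_of_src _ _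

omit [HasDerivedCategory A] in
theorem low_hg_sgl_zero {M N : A} {f : U ((sgl A).obj M) ⟶ U ((sgl A).obj N)}
    (hf : Hg 0 f) : ∃ g : M ⟶ N, f = mapU ((sgl A).map g) := by
  obtain ⟨g, hg⟩ := (sgl A).map_surjective (homU f hf (low_dl_sgl f))
  exact ⟨g, by rw [hg, mapU_homU]⟩

/-- the degree `n` component of a map of degree zero -/
noncomputable def lowC {K L : Cx A} (n : ℤ) (f : U K ⟶ U L) : K.X n ⟶ L.X n :=
  ιU K n ≫ f ≫ πU L n

omit [HasDerivedCategory A] [Linear (ZMod 2) A] in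
theorem lowC_comp {K L M : Cx A} (n : ℤ) {f : U K ⟶ U L} (hf : Hg 0 f) (g : U L ⟶ U M) :
    lowC n f ≫ lowC n g = lowC n (f ≫ g) := by
  have h := hf n
  rw [add_zero] at h
  simp only [lowC, Category.assoc]
  rw [← reassoc_of% h]

omit [HasDerivedCategory A] [Linear (ZMod 2) A] in
theorem lowC_mapU {K L : Cx A} (n : ℤ) (φ : K ⟶ L) : lowC n (mapU φ) = φ.f n := by
  simp [lowC, ιU_mapU_assoc]

omit [HasDerivedCategory A] [Linear (ZMod 2) A] in
theorem lowC_id {K : Cx A} (n : ℤ) : lowC n (𝟙 (U K)) = 𝟙 _ := by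
  simp [lowC]

omit [HasDerivedCategory A] [Linear (ZMod 2) A] in
theorem lowC_add {K L : Cx A} (n : ℤ) (f g : U K ⟶ U L) :
    lowC n (f + g) = lowC n f + lowC n g := by
  simp [lowC, Preadditive.comp_add, Preadditive.add_comp]

omit [HasDerivedCategory A] [Linear (ZMod 2) A] in
theorem low_shortExact {K L M : Cx A} (i : K ⟶ L) (p : L ⟶ M) (w : i ≫ p = 0)
    (r : U L ⟶ U K) (s : U M ⟶ U L) (hr : Hg 0 r) (hs : Hg 0 s) (h1 : mapU i ≫ r = 𝟙 _)
    (h2 : s ≫ mapU p = 𝟙 _) (h3 : r ≫ mapU i + mapU p ≫ s = 𝟙 _) :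
    (ShortComplex.mk i p w).ShortExact := by
  refine HomologicalComplex.shortExact_of_degreewise_shortExact _ fun n => ?_
  refine ShortComplex.Splitting.shortExact
    { r := lowC n r
      s := lowC n s
      f_r := ?_
      s_g := ?_
      id := ?_ }
  · have h : i.f n ≫ lowC n r = 𝟙 _ := by
      rw [← lowC_mapU, lowC_comp n (hg_mapU i), h1, lowC_id]
    exact h
  · have h : lowC n s ≫ p.f n = 𝟙 _ := by
      rw [← lowC_mapU, lowC_comp n hs, h2, lowC_id]
    exact h
  · have h : lowC n r ≫ i.f n + p.f n ≫ lowC n s = 𝟙 _ := by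
      rw [← lowC_mapU, ← lowC_mapU, lowC_comp n hr, lowC_comp n (hg_mapU p), ← lowC_add, h3,
        lowC_id]
    exact h

end singles

section construction

variable {P : Type} [PartialOrder P] (pd : PosetData A (QQ P))

/-- generators of `Y_s` -/
abbrev lowG (s : Fin 3) : Type := {q : Fin 9 // gen s q = true}

/-- the single complexes -/
noncomputable abbrev lowV (u : P) (q : Fin 9) : Cx A := (sgl A).obj (pd.ρ.obj (QQ.mk u q))

open Classical in
/-- the basic maps -/
noncomputable def lowB (u v : P) (q q' : Fin 9) : U (lowV pd u q) ⟶ U (lowV pd v q') :=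
  if h : QQ.mk u q ≤ QQ.mk v q' then mapU ((sgl A).map (pd.ρ.map (homOfLE h))) else 0

theorem lowB_of_le {u v : P} {q q' : Fin 9} (h : QQ.mk u q ≤ QQ.mk v q') :
    lowB pd u v q q' = mapU ((sgl A).map (pd.ρ.map (homOfLE h))) := dif_pos h

theorem lowB_of_not_le {u v : P} {q q' : Fin 9} (h : ¬ QQ.mk u q ≤ QQ.mk v q') :
    lowB pd u v q q' = 0 := dif_neg h

theorem low_hg_B (u v : P) (q q' : Fin 9) : Hg 0 (lowB pd u v q q') := by
  by_cases h : QQ.mk u q ≤ QQ.mk v q'
  · rw [lowB_of_le pd h]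
    exact hg_mapU _
  · rw [lowB_of_not_le pd h]
    exact Hg.zero

theorem lowB_comp {u v w : P} {q q' q'' : Fin 9} (h : QQ.mk u q ≤ QQ.mk v q')
    (h' : QQ.mk v q' ≤ QQ.mk w q'') :
    lowB pd u v q q' ≫ lowB pd v w q' q'' = lowB pd u w q q'' := by
  rw [lowB_of_le pd h, lowB_of_le pd h', lowB_of_le pd (h.trans h'), ← mapU_comp,
    ← Functor.map_comp, ← Functor.map_comp, homOfLE_comp]

theorem lowB_self (u : P) (q : Fin 9) : lowB pd u u q q = 𝟙 _ := by
  rw [lowB_of_le pd le_rfl, Subsingleton.elim (homOfLE (le_refl (QQ.mk u q))) (𝟙 _),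
    CategoryTheory.Functor.map_id, CategoryTheory.Functor.map_id, mapU_id]

theorem lowB_ne {u v : P} {q q' : Fin 9} (h : QQ.mk u q ≤ QQ.mk v q') :
    lowB pd u v q q' ≠ 0 := by
  intro h0
  rw [lowB_of_le pd h, ← mapU_zero] at h0
  have h1 := mapU_injective h0
  rw [← (sgl A).map_zero] at h1
  exact pd.map_ne h ((sgl A).map_injective h1)

theorem low_sgl_coeff {u v : P} {q q' : Fin 9} {m : ℤ} {f : U (lowV pd u q) ⟶ U (lowV pd v q')}
    (hf : Hg m f) : ∃ c : ZMod 2, f = c • lowB pd u v q q' ∧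
      (c ≠ 0 → m = 0 ∧ QQ.mk u q ≤ QQ.mk v q') := by
  by_cases hm : m = 0
  · subst hm
    obtain ⟨g, rfl⟩ := low_hg_sgl_zero hf
    by_cases h : QQ.mk u q ≤ QQ.mk v q'
    · rcases pd.hom_le h g with rfl | rfl
      · exact ⟨0, by rw [(sgl A).map_zero, mapU_zero, zero_smul], fun h0 => (h0 rfl).elim⟩
      · exact ⟨1, by rw [one_smul, lowB_of_le pd h], fun _ => ⟨rfl, h⟩⟩
    · rw [pd.hom_not_le h g]
      exact ⟨0, by rw [(sgl A).map_zero, mapU_zero, zero_smul], fun h0 => (h0 rfl).elim⟩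
  · exact ⟨0, by rw [low_hg_sgl_ne hm hf, zero_smul], fun h0 => (h0 rfl).elim⟩

theorem low_sum_mul {u v w : P} (huv : u ≤ v) (hvw : v ≤ w) {s t r : Fin 3} {m n : ℤ}
    {M N : Matrix (Fin 9) (Fin 9) (ZMod 2)} (hM : Supp s t m M) (hN : Supp t r n N)
    (x z : Fin 9) :
    ∑ y : lowG t, (M x y.1 • lowB pd u v x y.1) ≫ (N y.1 z • lowB pd v w y.1 z) =
      (M * N) x z • lowB pd u w x z := by
  have key : ∀ y : Fin 9, (M x y • lowB pd u v x y) ≫ (N y z • lowB pd v w y z) =
      (M x y * N y z) • lowB pd u w x z := by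
    intro y
    by_cases h : M x y = 0
    · simp [h]
    by_cases h' : N y z = 0
    · simp [h']
    rw [Linear.smul_comp, Linear.comp_smul,
      lowB_comp pd (QQ.mk_le_mk.2 ⟨huv, (hM x y h).2.2.1⟩) (QQ.mk_le_mk.2 ⟨hvw, (hN y z h').2.2.1⟩),
      smul_smul]
  simp only [key]
  rw [← Finset.sum_smul, Matrix.mul_apply]
  congr 1
  rw [← Finset.sum_subtype (Finset.univ.filter fun y : Fin 9 => gen t y = true)
    (p := fun y => gen t y = true) (by simp) (fun y => M x y * N y z)]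
  refine Finset.sum_filter_of_ne fun y _ hy => ?_
  exact (hM x y (left_ne_zero_of_mul hy)).2.1

theorem low_hg_entry (u v : P) {s t : Fin 3} {m : ℤ} {M : Matrix (Fin 9) (Fin 9) (ZMod 2)}
    (hM : Supp s t m M) (x y : Fin 9) {k : ℤ} (hk : k = m + dg x - dg y) :
    Hg k (M x y • lowB pd u v x y) := by
  by_cases h : M x y = 0
  · rw [h, zero_smul]
    exact Hg.zero
  · exact ((low_hg_B pd u v x y).smul _).of_eq (by have := (hM x y h).2.2.2; omega)

theorem low_tw (u : P) (s : Fin 3) :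
    Tw (fun x : lowG s => lowV pd u x.1) (fun x => dg x.1)
      (fun x y => dM s x.1 y.1 • lowB pd u u x.1 y.1) where
  hg x y := low_hg_entry pd u u (supp_dM s) x.1 y.1 (by omega)
  mc x z := by
    rw [low_dl_sgl, low_sum_mul pd le_rfl le_rfl (supp_dM s) (supp_dM s), dM_sq,
      Matrix.zero_apply, zero_smul]
  tri x y h := by
    have h1 : dM s x.1 y.1 ≠ 0 := fun h0 => h (by rw [h0, zero_smul])
    have := (supp_dM s x.1 y.1 h1).2.2.2
    omega

/-- the complexes `Y_s` realised at `u` -/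
noncomputable def lowY (u : P) (s : Fin 3) : Cx A := tot (low_tw pd u s)

/-- their structure -/
noncomputable def lowT (u : P) (s : Fin 3) :
    TotStr (lowY pd u s) (fun x : lowG s => lowV pd u x.1) (fun x => dg x.1)
      (fun x y => dM s x.1 y.1 • lowB pd u u x.1 y.1) := totStr (low_tw pd u s)

/-- realisation of a matrix -/
noncomputable def low (u v : P) (s t : Fin 3) (M : Matrix (Fin 9) (Fin 9) (ZMod 2)) :
    U (lowY pd u s) ⟶ U (lowY pd v t) :=
  asm (lowT pd u s) (lowT pd v t) (fun x y => M x.1 y.1 • lowB pd u v x.1 y.1)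

variable {u v w : P} {s t r : Fin 3} {m n : ℤ} {M N : Matrix (Fin 9) (Fin 9) (ZMod 2)}

theorem low_entry (x : lowG s) (y : lowG t) :
    (lowT pd u s).inc x ≫ low pd u v s t M ≫ (lowT pd v t).pr y =
      M x.1 y.1 • lowB pd u v x.1 y.1 :=
  inc_asm_pr (lowT pd u s) (lowT pd v t) (fun x y => M x.1 y.1 • lowB pd u v x.1 y.1) x y

theorem low_add (M N : Matrix (Fin 9) (Fin 9) (ZMod 2)) :
    low pd u v s t (M + N) = low pd u v s t M + low pd u v s t N := by
  rw [low, low, low, ← asm_add]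
  congr 1
  funext x y
  rw [Matrix.add_apply, add_smul]

theorem low_zero : low pd u v s t 0 = 0 := by
  rw [low, ← asm_zero (lowT pd u s) (lowT pd v t)]
  congr 1
  funext x y
  rw [Matrix.zero_apply, zero_smul]

theorem low_smul (c : ZMod 2) (M : Matrix (Fin 9) (Fin 9) (ZMod 2)) :
    low pd u v s t (c • M) = c • low pd u v s t M := by
  rcases low_zmod2 c with rfl | rfl
  · rw [zero_smul, zero_smul, low_zero]
  · rw [one_smul, one_smul]

theorem low_hg (hM : Supp s t m M) : Hg m (low pd u v s t M) :=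
  hg_asm _ _ fun x y => low_hg_entry pd u v hM x.1 y.1 rfl

theorem low_mul (huv : u ≤ v) (hvw : v ≤ w) (hM : Supp s t m M) (hN : Supp t r n N) :
    low pd u v s t M ≫ low pd v w t r N = low pd u w s r (M * N) := by
  rw [low, low, low, asm_comp]
  congr 1
  funext x z
  exact low_sum_mul pd huv hvw hM hN x.1 z.1

theorem low_dl (huv : u ≤ v) (hM : Supp s t m M) :
    dl (low pd u v s t M) = low pd u v s t (dH s t M) := by
  rw [low, dl_asm, low]
  congr 1
  funext x y
  rw [low_dl_sgl, zero_add, low_sum_mul pd le_rfl huv (supp_dM s) hM,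
    low_sum_mul pd huv le_rfl hM (supp_dM t), dH, Matrix.add_apply, add_smul]

theorem low_one (u : P) (s : Fin 3) : low pd u u s s (eM s s) = 𝟙 _ := by
  refine asm_ext (lowT pd u s) (lowT pd u s) fun x y => ?_
  rw [low_entry, Category.id_comp]
  by_cases h : x = y
  · subst h
    have h1 : eM s s x.1 x.1 = 1 := by simp [eM, rs, x.2]
    rw [h1, one_smul, lowB_self, (lowT pd u s).inc_pr_self]
  · have h' : x.1 ≠ y.1 := fun e => h (Subtype.ext e)
    have h1 : eM s s x.1 y.1 = 0 := by simp [eM, rs, h']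
    rw [h1, zero_smul, (lowT pd u s).inc_pr_ne x y h]

theorem low_eq_zero (huv : u ≤ v) (hM : Supp s t m M) (h : low pd u v s t M = 0) : M = 0 := by
  ext q q'
  by_contra hq
  obtain ⟨a1, a2, a3, -⟩ := hM q q' hq
  have h1 := low_entry pd (u := u) (v := v) (M := M) (⟨q, a1⟩ : lowG s) (⟨q', a2⟩ : lowG t)
  rw [h, zero_comp, comp_zero] at h1
  rcases low_zmod2 (M q q') with h2 | h2
  · exact hq h2
  · rw [h2, one_smul] at h1
    exact lowB_ne pd (QQ.mk_le_mk.2 ⟨huv, a3⟩) h1.symm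

theorem low_inj (huv : u ≤ v) (hM : Supp s t m M) (hN : Supp s t m N)
    (h : low pd u v s t M = low pd u v s t N) : M = N := by
  have h1 : M + N = 0 := low_eq_zero pd huv (low_supp_add hM hN) (by
    rw [low_add, h, add_self2])
  rw [← add_zero M, ← mat_add_self N, ← add_assoc, h1, zero_add]

theorem low_of_not_le (huv : ¬ u ≤ v) (M : Matrix (Fin 9) (Fin 9) (ZMod 2)) :
    low pd u v s t M = 0 := by
  rw [low, ← asm_zero (lowT pd u s) (lowT pd v t)]
  congr 1
  funext x y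
  rw [lowB_of_not_le pd (fun h => huv (QQ.mk_le_mk.1 h).1), smul_zero]

theorem low_surj {f : U (lowY pd u s) ⟶ U (lowY pd v t)} (hf : Hg m f) :
    ∃ M, Supp s t m M ∧ f = low pd u v s t M := by
  have h : ∀ (x : lowG s) (y : lowG t), ∃ c : ZMod 2,
      (lowT pd u s).inc x ≫ f ≫ (lowT pd v t).pr y = c • lowB pd u v x.1 y.1 ∧
      (c ≠ 0 → m + dg x.1 - dg y.1 = 0 ∧ QQ.mk u x.1 ≤ QQ.mk v y.1) := fun x y =>
    low_sgl_coeff pd (hg_component (lowT pd u s) (lowT pd v t) hf x y)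
  choose c hc hc' using h
  refine ⟨Matrix.of fun q q' => if h : gen s q = true ∧ gen t q' = true then
    c ⟨q, h.1⟩ ⟨q', h.2⟩ else 0, ?_, ?_⟩
  · intro q q' hq
    rw [Matrix.of_apply] at hq
    by_cases h : gen s q = true ∧ gen t q' = true
    · rw [dif_pos h] at hq
      obtain ⟨b1, b2⟩ := hc' _ _ hq
      exact ⟨h.1, h.2, (QQ.mk_le_mk.1 b2).2, by dsimp only at b1; omega⟩
    · exact (hq (dif_neg h)).elim
  · refine asm_ext (lowT pd u s) (lowT pd v t) fun x y => ?_
    rw [low_entry, hc, Matrix.of_apply, dif_pos ⟨x.2, y.2⟩]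

theorem low_closed {f : U (lowY pd u s) ⟶ U (lowY pd v t)} (huv : u ≤ v) (hf : Hg m f)
    (hd : dl f = 0) : ∃ M, Supp s t m M ∧ dH s t M = 0 ∧ f = low pd u v s t M := by
  obtain ⟨M, hM, rfl⟩ := low_surj pd hf
  refine ⟨M, hM, low_eq_zero pd huv (low_supp_dH hM rfl) ?_, rfl⟩
  rw [← low_dl pd huv hM, hd]

theorem low_kd (u v : P) (s t : Fin 3) : KD (lowY pd u s) (lowY pd v t) :=
  kd_tot_left (lowT pd u s) (low_tw pd u s) _ fun _ =>
    kd_tot_right (lowT pd v t) (low_tw pd v t) _ fun _ => kd_single _ _ (pd.ext_zero _ _)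

theorem low_built (u : P) (s : Fin 3) : Built pd.ρ (lowY pd u s) :=
  ⟨lowG s, inferInstance, fun x => QQ.mk u x.1, fun x => dg x.1,
    fun x y => dM s x.1 y.1 • lowB pd u u x.1 y.1, low_tw pd u s, ⟨lowT pd u s⟩⟩

/-- the realisation of the graded category -/
noncomputable def lowGam : GamData A P where
  W α := lowY pd α.1 (ty α.2)
  e α β := low pd α.1 β.1 (ty α.2) (ty β.2) (eM (ty α.2) (ty β.2))
  a α β := low pd α.1 β.1 (ty α.2) (ty β.2) (aM (ty α.2) (ty β.2))
  hg_e α β := low_hg pd (supp_eM _ _)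
  hg_a α β := low_hg pd (supp_aM _ _)
  dl_e α β h := by rw [low_dl pd h.1 (supp_eM _ _), dH_eM _ _ h.2, low_zero]
  dl_a := by
    rintro ⟨u, a⟩ ⟨v, b⟩ ⟨h1, h2⟩
    obtain rfl : b = true := h2
    have h : dH (ty a) (ty true) (aM (ty a) (ty true)) = 0 := dH_aM a
    rw [low_dl pd h1 (supp_aM _ _), h, low_zero]
  e_self α := low_one pd _ _
  e_e α β γ h h' := by
    rw [low_mul pd h.1 h'.1 (supp_eM _ _) (supp_eM _ _), eM_eM _ _ _ h.2 h'.2]
  e_a := by
    rintro ⟨u, a⟩ ⟨v, b⟩ ⟨w, c⟩ ⟨h1, h2⟩ ⟨h3, h4⟩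
    obtain rfl : c = true := h4
    have h : eM (ty a) (ty b) * aM (ty b) (ty true) = aM (ty a) (ty true) := eM_aM a b h2
    rw [low_mul pd h1 h3 (supp_eM _ _) (supp_aM _ _), h]
  a_e := by
    rintro ⟨u, a⟩ ⟨v, b⟩ ⟨w, c⟩ ⟨h1, h2⟩ ⟨h3, h4⟩
    obtain rfl : b = true := h2
    have h : aM (ty a) (ty true) * eM (ty true) (ty c) =
        if c = true then aM (ty a) (ty c) else 0 := aM_eM a c
    rw [low_mul pd h1 h3 (supp_aM _ _) (supp_eM _ _), h]
    by_cases hc : c = true
    · rw [if_pos hc, if_pos hc]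
    · rw [if_neg hc, if_neg hc, low_zero]
  a_a := by
    rintro ⟨u, a⟩ ⟨v, b⟩ ⟨w, c⟩ ⟨h1, h2⟩ ⟨h3, h4⟩
    obtain rfl : b = true := h2
    obtain rfl : c = true := h4
    have h : aM (ty a) (ty true) * aM (ty true) (ty true) = 0 := aM_aM a
    rw [low_mul pd h1 h3 (supp_aM _ _) (supp_aM _ _), h, low_zero]
  surj := by
    rintro ⟨u, a⟩ ⟨v, b⟩ m φ hφ hd
    by_cases huv : u ≤ v
    · obtain ⟨M, hM, hdM, rfl⟩ := low_closed pd huv hφ hd
      obtain ⟨c0, c1, N, hN, h0, h1, rfl⟩ := cert_surj a b m M hM hdM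
      refine ⟨c0, c1, low pd u v (ty a) (ty b) N, low_hg pd hN,
        fun h => ⟨⟨huv, (h0 h).1⟩, (h0 h).2⟩, fun h => ⟨⟨huv, (h1 h).1⟩, (h1 h).2⟩, ?_⟩
      rw [low_add, low_add, low_smul, low_smul, low_dl pd huv hN]
    · obtain ⟨M, hM, rfl⟩ := low_surj pd hφ
      refine ⟨0, 0, 0, Hg.zero, fun h => (h rfl).elim, fun h => (h rfl).elim, ?_⟩
      rw [low_of_not_le pd huv, zero_smul, zero_smul, dl_zero, add_zero, add_zero]
  inj_e := by
    rintro ⟨u, a⟩ ⟨v, b⟩ ⟨h1, h2⟩ ψ hψ he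
    obtain ⟨N, hN, rfl⟩ := low_surj pd hψ
    rw [low_dl pd h1 hN] at he
    exact cert_inj_e a b h2 N hN (low_inj pd h1 (supp_eM _ _) (low_supp_dH hN (by norm_num)) he)
  inj_a := by
    rintro ⟨u, a⟩ ⟨v, b⟩ ⟨h1, h2⟩ ψ hψ he
    obtain rfl : b = true := h2
    obtain ⟨N, hN, rfl⟩ := low_surj pd hψ
    rw [low_dl pd h1 hN] at he
    exact cert_inj_a a N hN (low_inj pd h1 (supp_aM _ _) (low_supp_dH hN (by norm_num)) he)
  kd α β := low_kd pd _ _ _ _

theorem low_ses (u : P) : ∃ (i : lowY pd u 2 ⟶ lowY pd u 0) (p : lowY pd u 0 ⟶ lowY pd u 1)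
    (w : i ≫ p = 0), (ShortComplex.mk i p w).ShortExact := by
  have hi : dl (low pd u u 2 0 (eM 2 0)) = 0 := by
    rw [low_dl pd le_rfl (supp_eM _ _), dH_eM_F0, low_zero]
  have hp : dl (low pd u u 0 1 (eM 0 1)) = 0 := by
    have h : dH 0 1 (eM 0 1) = 0 := dH_eM true false (fun _ => rfl)
    rw [low_dl pd le_rfl (supp_eM _ _), h, low_zero]
  have w : homU _ (low_hg pd (supp_eM 2 0)) hi ≫ homU _ (low_hg pd (supp_eM 0 1)) hp = 0 :=
    mapU_injective (by
      rw [mapU_comp, mapU_homU, mapU_homU, mapU_zero,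
        low_mul pd le_rfl le_rfl (supp_eM _ _) (supp_eM _ _), low_eM_20_01, low_zero])
  refine ⟨_, _, w, low_shortExact _ _ w (low pd u u 0 2 (eM 0 2)) (low pd u u 1 0 (eM 1 0))
    (low_hg pd (supp_eM _ _)) (low_hg pd (supp_eM _ _)) ?_ ?_ ?_⟩
  · rw [mapU_homU, low_mul pd le_rfl le_rfl (supp_eM _ _) (supp_eM _ _), low_eM_20_02, low_one]
  · rw [mapU_homU, low_mul pd le_rfl le_rfl (supp_eM _ _) (supp_eM _ _), low_eM_10_01, low_one]
  · rw [mapU_homU, mapU_homU, low_mul pd le_rfl le_rfl (supp_eM _ _) (supp_eM _ _),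
      low_mul pd le_rfl le_rfl (supp_eM _ _) (supp_eM _ _), ← low_add, low_eM_split, low_one]

theorem low_ff_self (u : P) (φ : Q.obj (lowY pd u 2) ⟶ Q.obj (lowY pd u 2)) :
    φ = 0 ∨ φ = 𝟙 _ := by
  obtain ⟨f, rfl⟩ := (low_kd pd u u 2 2).map_surjective φ
  obtain ⟨M, hM, hdM, hf⟩ := low_closed pd le_rfl (hg_mapU f) (dl_mapU f)
  obtain ⟨c, N, hN, -, rfl⟩ := cert_FF 0 M hM hdM
  rw [low_add, low_smul, low_one, ← low_dl pd le_rfl hN] at hf
  have hh : Hg (-1) (low pd u u 2 2 N) := (low_hg pd hN).of_eq (by norm_num)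
  rcases low_zmod2 c with rfl | rfl
  · left
    rw [Q_map_eq_of_exact (φ := f) (ψ := 0) hh (by rw [hf, mapU_zero, zero_smul, zero_add, add_zero]),
      Functor.map_zero]
  · right
    rw [Q_map_eq_of_exact (φ := f) (ψ := 𝟙 _) hh (by
      rw [hf, mapU_id, one_smul, add_right_comm, add_self2, zero_add]), CategoryTheory.Functor.map_id]

theorem low_ff_zero (u v : P) (n : ℤ) (h : ¬ u ≤ v ∨ n ≠ 0)
    (φ : Q.obj (lowY pd u 2) ⟶ (Q.obj (lowY pd v 2))⟦n⟧) : φ = 0 := by
  obtain ⟨f, hf, hd, rfl⟩ := (low_kd pd u v 2 2).surj n φ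
  by_cases huv : u ≤ v
  · have hn : n ≠ 0 := h.resolve_left (not_not.2 huv)
    obtain ⟨M, hM, hdM, rfl⟩ := low_closed pd huv hf hd
    obtain ⟨c, N, hN, hc, rfl⟩ := cert_FF n M hM hdM
    obtain rfl : c = 0 := by
      by_contra h0
      exact hn (hc h0)
    rw [zero_smul, zero_add, ← low_dl pd huv hN]
    exact cl_exact (low_hg pd hN)
  · obtain ⟨M, -, rfl⟩ := low_surj pd hf
    rw [low_of_not_le pd huv, cl_zero]

theorem low_fk_zero (u v : P) (n : ℤ)
    (φ : Q.obj (lowY pd u 2) ⟶ (Q.obj (lowY pd v 1))⟦n⟧) : φ = 0 := by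
  obtain ⟨f, hf, -, rfl⟩ := (low_kd pd u v 2 1).surj n φ
  obtain ⟨M, hM, rfl⟩ := low_surj pd hf
  rw [cert_Fk n M hM, low_zero, cl_zero]

end construction

theorem exists_lowData {P : Type} [PartialOrder P] (pd : PosetData A (QQ P)) :
    Nonempty (LowData pd.ρ) :=
  ⟨{ Γ := lowGam pd
     WF := fun u => lowY pd u 2
     built := fun α => low_built pd α.1 (ty α.2)
     builtF := fun u => low_built pd u 2
     ses := fun u => low_ses pd u
     ff_self := low_ff_self pd
     ff_zero := low_ff_zero pd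
     fk_zero := low_fk_zero pd }⟩

end Pool.Agent.Work.MP_910138_ag
end

-- merged part: Pool.Agent.Work.MP_910138_ag.GeomMain
section
/-! Realisation of a finite poset by line bundles on a smooth projective variety. -/

open CategoryTheory Limits AlgebraicGeometry TopologicalSpace Opposite Abelian

namespace Pool.Agent.Work.MP_910138_ag

theorem algebra_of_hom {X : Scheme.{0}} {K : Type} [Field K] (f : X ⟶ Spec (CommRingCat.of K)) :
    Nonempty (Algebra K Γ(X, ⊤)) :=
  ⟨((Scheme.ΓSpecIso (CommRingCat.of K)).inv ≫ f.appTop).hom.toAlgebra⟩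

theorem lam_eq_zero_or_one {κ : Type} {l : Lam κ} (h : ∀ e ∈ l.coeff.support, e = 0) :
    l = 0 ∨ l = 1 := by
  have h1 : l = AddMonoidAlgebra.single 0 (l.coeff 0) := by
    apply AddMonoidAlgebra.ext
    rw [AddMonoidAlgebra.coeff_single]
    exact (Finsupp.support_subset_singleton.1 fun e he => Finset.mem_singleton.2 (h e he))
  have h2 : ∀ c : ZMod 2, c = 0 ∨ c = 1 := by decide
  rcases h2 (l.coeff 0) with h3 | h3
  · left
    rw [h1, h3, AddMonoidAlgebra.single_zero]
  · right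
    rw [h1, h3]
    rfl

theorem WtData.glob_zero {X : Scheme.{0}} {κ : Type} [Fintype κ] [DecidableEq κ]
    [Algebra (ZMod 2) Γ(X, ⊤)] {V : κ → Bool → X.Opens} {Lat : AddSubgroup (Wt κ)}
    {M N : X.Modules} {n : Wt κ} (w : WtData V Lat M N n) : w.glob 0 = 0 := by
  rw [WtData.glob, comp_zero, map_zero]

theorem geom_main (Q : Type) [PartialOrder Q] [Finite Q] :
    ∃ (X : SmProj (ZMod 2)) (_ : Algebra (ZMod 2) Γ(X.X, ⊤)) (_ : IsLocallyNoetherian X.X)
      (pd : PosetData X.X.Modules Q), (∀ q, LFin (pd.ρ.obj q)) ∧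
        ∀ C C', Db X.X C → Db X.X C' → TotFin (ZMod 2) C C' := by
  classical
  have := Fintype.ofFinite Q
  obtain ⟨D, hD⟩ := exists_latData Q
  obtain ⟨T⟩ := D.nonempty_toricData
  obtain ⟨n, i, hi⟩ := D.exists_closedImmersion
  obtain ⟨alg⟩ := algebra_of_hom (i ≫ projSpaceStr (ZMod 2) n)
  have hN := T.isLocallyNoetherian
  have hmono : ∀ {q q' : Q}, q ≤ q' → nE (Set.Iic q) ≤ nE (Set.Iic q') := fun h =>
    nE_mono (Set.Iic_subset_Iic.2 h)
  have hgood : ∀ {q q' : Q} {e : Wt (Q × Bool)},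
      e ∈ Good D.Lat (nE (Set.Iic q') - nE (Set.Iic q)) → e = 0 ∧ q ≤ q' := fun h => by
    rw [hD] at h
    exact ⟨(good_nE h).1, Set.Iic_subset_Iic.1 (good_nE h).2⟩
  let ρ : Q ⥤ D.X.Modules :=
    { obj := fun q => T.L (nE (Set.Iic q))
      map := fun f => T.incl (hmono f.le)
      map_id := fun q => T.incl_self _
      map_comp := fun f g => (T.incl_comp _ _).symm }
  let pd : PosetData D.X.Modules Q :=
    { ρ := ρ
      hom_le := fun {q q'} h f => by
        obtain ⟨w, hw⟩ := T.exists_wtData (nE (Set.Iic q)) (nE (Set.Iic q'))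
        rcases lam_eq_zero_or_one fun e he => (hgood (w.glob_support f e he)).1 with h1 | h1
        · exact Or.inl (w.glob_injective T.cover (h1.trans w.glob_zero.symm))
        · exact Or.inr (w.glob_injective T.cover (h1.trans (hw (hmono h)).symm))
      map_ne := fun {q q'} h h0 => by
        obtain ⟨w, hw⟩ := T.exists_wtData (nE (Set.Iic q)) (nE (Set.Iic q'))
        have h1 := hw (hmono h)
        have h2 : T.incl (hmono h) = 0 := h0
        rw [h2, w.glob_zero] at h1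
        exact zero_ne_one h1
      hom_not_le := fun {q q'} h f => by
        obtain ⟨w, -⟩ := T.exists_wtData (nE (Set.Iic q)) (nE (Set.Iic q'))
        refine w.glob_injective T.cover (Eq.trans ?_ w.glob_zero.symm)
        apply AddMonoidAlgebra.ext
        rw [AddMonoidAlgebra.coeff_zero, ← Finsupp.support_eq_empty,
          Finset.eq_empty_iff_forall_notMem]
        exact fun e he => h (hgood (w.glob_support f e he)).2
      ext_zero := fun q q' m hm φ => by
        obtain ⟨w, -⟩ := T.exists_wtData (nE (Set.Iic q)) (nE (Set.Iic q'))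
        refine hom_zero_of_ext (w.ext_zero T.cover fun e he a => ?_) m hm φ
        obtain ⟨rfl, h⟩ := hgood he
        have : nE (Set.Iic q) a ≤ nE (Set.Iic q') a := hmono h a
        simp only [Pi.zero_apply, Pi.sub_apply]
        omega }
  obtain ⟨N₀, hN₀⟩ := T.ext_vanish
  refine ⟨⟨D.X, i ≫ projSpaceStr (ZMod 2) n, T.isIntegral, T.smooth _, n, i, hi, rfl⟩, alg, hN,
    pd, fun q => T.lFin_L _, fun C C' hC hC' => ?_⟩
  refine totFin_of_family (ZMod 2) (fun m : ℕ => T.L (-(m • D.amp)))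
    (fun m => (T.lFin_L _).isCoh) T.globally_generated (fun a b m => ?_) N₀ hN₀ C C' hC hC'
  obtain ⟨w, -⟩ := T.exists_wtData (-(a • D.amp)) (-(b • D.amp))
  exact w.finite_ext T.cover (D.fin_good _) m

end Pool.Agent.Work.MP_910138_ag
end

-- merged part: Pool.Agent.Work.MP_910138_ag.ExcLow
section
/-! The essential image of the realisation is generated by an exceptional collection. -/

open CategoryTheory Limits

namespace Pool.Agent.Work.MP_910138_ag

universe v u

variable {A : Type u} [Category.{v} A] [Abelian A] [HasCoproductsOfShape ℤ A] [Linear (ZMod 2) A]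
  [HasDerivedCategory A] {P : Type} [PartialOrder P] [Finite P] {ρ : QQ P ⥤ A}

open DerivedCategory

/-- the exceptional objects -/
noncomputable def LowData.E (d : LowData ρ) (i : P × Bool) : DerivedCategory A :=
  Q.obj (if i.2 = true then d.WF i.1 else d.Γ.W (i.1, false))

/-- the rank of a point of a finite poset -/
noncomputable def exclow_rk (u : P) : ℕ := {v | v ≤ u}.ncard

theorem exclow_rk_lt {u v : P} (h : v ≤ u) (hne : v ≠ u) : exclow_rk v < exclow_rk u := by
  refine Set.ncard_lt_ncard ?_ (Set.toFinite _)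
  refine ⟨fun w hw => le_trans hw h, fun hc => hne (le_antisymm h ?_)⟩
  exact hc (show u ∈ {w | w ≤ u} from le_rfl)

theorem exclow_rk_le (u : P) : exclow_rk u ≤ Nat.card P := by
  rw [← Set.ncard_univ]
  exact Set.ncard_le_ncard (Set.subset_univ _) (Set.toFinite _)

omit [Finite P] in
theorem exclow_E_true (d : LowData ρ) (u : P) : d.E (u, true) = Q.obj (d.WF u) := rfl

omit [Finite P] in
theorem exclow_E_false (d : LowData ρ) (u : P) : d.E (u, false) = Q.obj (d.Γ.W (u, false)) := rfl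

omit [Finite P] in
theorem exclow_tri (d : LowData ρ) (u : P) : ∃ T : Pretriangulated.Triangle (DerivedCategory A),
    (T ∈ distTriang (DerivedCategory A)) ∧ T.obj₁ = Q.obj (d.WF u) ∧
      T.obj₂ = Q.obj (d.Γ.W (u, true)) ∧ T.obj₃ = Q.obj (d.Γ.W (u, false)) := by
  obtain ⟨i, p, w, hS⟩ := d.ses u
  exact ⟨triangleOfSES hS, triangleOfSES_distinguished hS, rfl, rfl, rfl⟩

omit [Finite P] in
theorem exclow_W_mem (d : LowData ρ) (α : P × Bool) : d.Γ.L.essImage (Q.obj (d.Γ.W α)) := by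
  obtain ⟨e⟩ := d.Γ.nonempty_genObIso α.1 α.2
  exact ⟨genOb α.1 α.2, ⟨Q.mapIso e⟩⟩

omit [Finite P] in
theorem exclow_le (d : LowData ρ) (R : ObjectProperty (DerivedCategory A)) [R.IsTriangulated]
    [R.IsClosedUnderIsomorphisms] (hR : ∀ α, R (Q.obj (d.Γ.W α))) : d.Γ.L.essImage ≤ R := by
  rintro X ⟨Z, ⟨e⟩⟩
  exact R.prop_of_iso e ((d.Γ.ts Z).devissage_D (d.Γ.tw Z) R fun x => hR _)

theorem exclow_self {X : DerivedCategory A} {φ : X ⟶ X} (h : φ = 0 ∨ φ = 𝟙 _) :
    ∃ c : ZMod 2, φ = c • 𝟙 _ := by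
  rcases h with h | h
  · exact ⟨0, by rw [h, zero_smul]⟩
  · exact ⟨1, by rw [h, one_smul]⟩

theorem LowData.excColl (d : LowData ρ) [d.Γ.L.essImage.IsTriangulated] :
    ∃ rk : P × Bool → ℕ, ExcColl (ZMod 2) d.Γ.L.essImage d.E rk := by
  refine ⟨fun i => if i.2 = true then Nat.card P + 1 + exclow_rk i.1 else exclow_rk i.1,
    ?_, ?_, ?_, ?_, ?_⟩
  · rintro ⟨u, _ | _⟩
    · exact exclow_W_mem d _
    · obtain ⟨T, hT, h1, h2, h3⟩ := exclow_tri d u
      rw [exclow_E_true, ← h1]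
      exact d.Γ.L.essImage.ext_of_isTriangulatedClosed₁ T hT (h2 ▸ exclow_W_mem d _)
        (h3 ▸ exclow_W_mem d _)
  · rintro ⟨u, _ | _⟩ φ
    · exact exclow_self (d.Γ.end_cases u φ)
    · exact exclow_self (d.ff_self u φ)
  · rintro ⟨u, _ | _⟩ n hn φ
    · rcases d.Γ.hom_cases (u, false) (u, false) n φ with h | h | h
      · exact h
      · exact absurd h.2.1 hn
      · exact absurd h.1.2 (by simp)
    · exact d.ff_zero u u n (Or.inr hn) φ
  · rintro ⟨u, _ | _⟩ ⟨v, _ | _⟩ hne hrk n φ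
    · rcases d.Γ.hom_cases (v, false) (u, false) n φ with h | h | h
      · exact h
      · have h1 : exclow_rk u ≤ exclow_rk v := by simpa using hrk
        have h2 := exclow_rk_lt (show v ≤ u from h.1.1) (fun h' => hne (by rw [h']))
        omega
      · exact absurd h.1.2 (by simp)
    · exact d.fk_zero v u n φ
    · have h1 : Nat.card P + 1 + exclow_rk u ≤ exclow_rk v := by simpa using hrk
      have h2 := exclow_rk_le v
      omega
    · refine d.ff_zero v u n (Or.inl fun h => ?_) φ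
      have h1 : exclow_rk u ≤ exclow_rk v := by simpa using hrk
      have h2 := exclow_rk_lt h (fun h' => hne (by rw [h']))
      omega
  · intro R hR1 hR2 hE
    refine exclow_le d R ?_
    rintro ⟨u, _ | _⟩
    · exact hE (u, false)
    · obtain ⟨T, hT, h1, h2, h3⟩ := exclow_tri d u
      rw [← h2]
      exact R.ext_of_isTriangulatedClosed₂ T hT (h1 ▸ hE (u, true)) (h3 ▸ hE (u, false))

theorem Built.mem {Q' : Type} [PartialOrder Q'] {σ : Q' ⥤ A} {K : Cx A} (h : Built σ K)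
    (R : ObjectProperty (DerivedCategory A)) [R.IsTriangulated] [R.IsClosedUnderIsomorphisms]
    (hR : ∀ q, R (Q.obj ((sgl A).obj (σ.obj q)))) : R (Q.obj K) := by
  obtain ⟨G, _, l, deg, t, ht, ⟨s⟩⟩ := h
  exact s.devissage_D ht R fun x => hR _

theorem LowData.E_mem (d : LowData ρ) (i : P × Bool)
    (R : ObjectProperty (DerivedCategory A)) [R.IsTriangulated] [R.IsClosedUnderIsomorphisms]
    (hR : ∀ q, R (Q.obj ((sgl A).obj (ρ.obj q)))) : R (d.E i) := by
  obtain ⟨u, _ | _⟩ := i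
  · exact (d.built (u, false)).mem R hR
  · exact (d.builtF u).mem R hR

theorem LowData.essImage_le (d : LowData ρ)
    (R : ObjectProperty (DerivedCategory A)) [R.IsTriangulated] [R.IsClosedUnderIsomorphisms]
    (hR : ∀ q, R (Q.obj ((sgl A).obj (ρ.obj q)))) : d.Γ.L.essImage ≤ R :=
  exclow_le d R fun α => (d.built α).mem R hR

theorem LowData.bounded (d : LowData ρ) (Z : Ob P) :
    ∃ a b : ℤ, (d.Γ.totObj Z).IsStrictlyGE a ∧ (d.Γ.totObj Z).IsStrictlyLE b := by
  obtain ⟨a, ha⟩ := (d.Γ.ts Z).exists_ge fun x => by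
    obtain ⟨G, _, l, deg, t, -, ⟨s⟩⟩ := d.built (Z.toGen.l x)
    exact s.exists_ge fun y => ⟨0, inferInstance⟩
  obtain ⟨b, hb⟩ := (d.Γ.ts Z).exists_le fun x => by
    obtain ⟨G, _, l, deg, t, -, ⟨s⟩⟩ := d.built (Z.toGen.l x)
    exact s.exists_le fun y => ⟨0, inferInstance⟩
  exact ⟨a, b, ha, hb⟩

theorem LowData.terms (d : LowData ρ) (R : A → Prop) (h0 : ∀ M, IsZero M → R M)
    (hρ : ∀ q, R (ρ.obj q))
    (hb : ∀ (G : Type) [Fintype G] (M : G → A) (N : A), (∀ x, R (M x)) →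
      Nonempty (N ≅ ⨁ M) → R N) (Z : Ob P) (n : ℤ) : R ((d.Γ.totObj Z).X n) := by
  have hs : ∀ (q : QQ P) (m : ℤ), R (((sgl A).obj (ρ.obj q)).X m) := by
    intro q m
    by_cases hm : m = 0
    · subst hm
      exact hb Unit (fun _ => ρ.obj q) _ (fun _ => hρ q)
        ⟨HomologicalComplex.singleObjXSelf _ _ _ ≪≫ (biproductUniqueIso fun _ : Unit => ρ.obj q).symm⟩
    · exact h0 _ (HomologicalComplex.isZero_single_obj_X _ _ _ _ hm)
  refine hb _ _ _ (fun x => ?_) ((d.Γ.ts Z).term_iso n)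
  obtain ⟨G, _, l, deg, t, -, ⟨s⟩⟩ := d.built (Z.toGen.l x)
  exact hb _ _ _ (fun y => hs _ _) (s.term_iso _)

end Pool.Agent.Work.MP_910138_ag
end

-- merged part: Pool.Agent.Work.MP_910138_ag.RealD
section
/-! Compatibility of the realisation with shifts and cones. -/

open CategoryTheory Limits CochainComplex.HomComplex

namespace Pool.Agent.Work.MP_910138_ag

universe v u

section matrices

variable {P : Type} [Preorder P]

/-- the inverse shift on objects -/
def reald_up (Z : Ob P) : Ob P where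
  G := Z.G
  lab := Z.lab
  isR := Z.isR
  deg x := Z.deg x + 1
  D0 := -Z.D0
  D1 := Z.D1
  s0 x y h := by
    obtain ⟨a, b, c⟩ := Z.s0.neg x y h
    exact ⟨a, b, by change Z.deg y + 1 = Z.deg x + 1 + 1; omega⟩
  s1 x y h := by
    obtain ⟨a, b, c⟩ := Z.s1 x y h
    exact ⟨a, b, by change Z.deg y + 1 = Z.deg x + 1 + 1 + 1; omega⟩
  sq := by
    have h := Z.sq
    rw [← red_neg] at h
    exact h

theorem reald_closed (Z : Ob P) :
    pm Z.D ((red 1, 0) : Pr Z.toGen Z.toGen) + pm (red 1, 0) Z.D = 0 := by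
  rw [red_one, one_pm, pm_one Z.spD.2, pr_add_self]

theorem reald_one_one (Z : Gen P) :
    red (1 : Matrix Z.G Z.G ℤ) * (0 : Matrix Z.G Z.G (ZMod 2)) +
      cR Z ((0 : Matrix Z.G Z.G (ZMod 2)) * red (1 : Matrix Z.G Z.G ℤ)) = 0 := by
  simp [cR_zero]

/-- the shift of the inverse shift -/
def reald_upIso (Z : Ob P) : shObj (reald_up Z) ≅ Z where
  hom :=
    { f0 := (1 : Matrix Z.G Z.G ℤ)
      f1 := 0
      s0 := fun x y h => by
        obtain ⟨a, b, c⟩ := (S0.one (Z := Z.toGen) (R := ℤ)) x y h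
        exact ⟨a, b, by change Z.deg y = Z.deg x + 1 - 1 + 0; omega⟩
      s1 := S1.zero
      closed := by
        have h := reald_closed Z
        rw [Ob.D] at h
        nth_rewrite 1 [← neg_neg Z.D0] at h
        exact h }
  inv :=
    { f0 := (1 : Matrix Z.G Z.G ℤ)
      f1 := 0
      s0 := fun x y h => by
        obtain ⟨a, b, c⟩ := (S0.one (Z := Z.toGen) (R := ℤ)) x y h
        exact ⟨a, b, by change Z.deg y + 1 - 1 = Z.deg x + 0; omega⟩
      s1 := S1.zero
      closed := by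
        have h := reald_closed Z
        rw [Ob.D] at h
        nth_rewrite 2 [← neg_neg Z.D0] at h
        exact h }
  hom_inv_id := Ob.hom_ext (Matrix.one_mul (1 : Matrix Z.G Z.G ℤ)) (reald_one_one Z.toGen)
  inv_hom_id := Ob.hom_ext (Matrix.one_mul (1 : Matrix Z.G Z.G ℤ)) (reald_one_one Z.toGen)

end matrices

section shift

variable {A : Type u} [Category.{v} A] [Abelian A] [HasCoproductsOfShape ℤ A]
  {K L : Cx A}

/-- the identification of a complex with its shift -/
noncomputable def reald_sI (K : Cx A) : U K ⟶ U (K⟦(1 : ℤ)⟧) :=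
  toU ((Cochain.ofHom (𝟙 K)).rightShift 1 (-1) (neg_add_cancel 1))

/-- the inverse identification -/
noncomputable def reald_sP (K : Cx A) : U (K⟦(1 : ℤ)⟧) ⟶ U K :=
  toU ((Cochain.ofHom (𝟙 (K⟦(1 : ℤ)⟧))).rightUnshift 1 (zero_add 1))

theorem reald_toU_id : toU (Cochain.ofHom (𝟙 K)) = 𝟙 _ := mapU_id

theorem reald_toU_rightUnshift {n n' : ℤ} (γ : Cochain K (L⟦(1 : ℤ)⟧) n') (h : n' + 1 = n) :
    toU (γ.rightUnshift n h) = toU γ ≫ reald_sP L := by
  have e := Cochain.rightUnshift_comp γ (Cochain.ofHom (𝟙 (L⟦(1 : ℤ)⟧))) (add_zero n') n h 1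
    (zero_add 1)
  rw [Cochain.comp_id] at e
  rw [e, toU_comp, reald_sP]

set_option backward.isDefEq.respectTransparency false in
theorem reald_toU_rightShift {n n' : ℤ} (γ : Cochain K L n) (h : n' + 1 = n) :
    toU (γ.rightShift 1 n' h) = toU γ ≫ reald_sI L := by
  refine U_ext fun p => ?_
  rw [ιU_toU _ p _ rfl, ιU_toU_assoc _ p _ rfl, reald_sI, ιU_toU _ (p + n) (p + n') (by omega),
    Cochain.rightShift_v _ _ _ _ _ _ _ (p + n) rfl,
    Cochain.rightShift_v _ _ _ _ _ _ _ (p + n) (add_zero _)]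
  simp

@[reassoc]
theorem reald_sI_sP : reald_sI K ≫ reald_sP K = 𝟙 _ := by
  rw [reald_sI, ← reald_toU_rightUnshift _ (neg_add_cancel 1), Cochain.rightUnshift_rightShift,
    reald_toU_id]

@[reassoc]
theorem reald_sP_sI : reald_sP K ≫ reald_sI K = 𝟙 _ := by
  rw [reald_sP, ← reald_toU_rightShift _ (zero_add 1), Cochain.rightShift_rightUnshift,
    reald_toU_id]

set_option backward.isDefEq.respectTransparency false in
@[reassoc]
theorem reald_sI_nat (φ : K ⟶ L) : reald_sI K ≫ mapU (φ⟦(1 : ℤ)⟧') = mapU φ ≫ reald_sI L := by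
  refine U_ext fun p => ?_
  rw [ιU_mapU_assoc, reald_sI, reald_sI, ιU_toU_assoc _ p (p + -1) rfl, ιU_mapU,
    ιU_toU _ p (p + -1) rfl, Cochain.rightShift_v _ _ _ _ _ _ _ p (add_zero _),
    Cochain.rightShift_v _ _ _ _ _ _ _ p (add_zero _)]
  simp [CochainComplex.shiftFunctorObjXIso, HomologicalComplex.XIsoOfEq_inv_naturality_assoc]

variable [Linear (ZMod 2) A]

theorem reald_dl_sI : dl (reald_sI K) = 0 := by
  rw [reald_sI, ← toU_δ _ (neg_add_cancel 1), Cochain.δ_rightShift _ 1 (-1) 0 _ 1 (zero_add 1),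
    δ_ofHom, Cochain.rightShift_zero, smul_zero, toU_zero]

theorem reald_toU_neg {n : ℤ} (γ : Cochain K L n) : toU (-γ) = toU γ := by
  refine U_ext fun p => ?_
  rw [ιU_toU _ p _ rfl, ιU_toU _ p _ rfl, Cochain.neg_v, neg2]

theorem reald_mor₃ (φ : K ⟶ L) :
    mapU (CochainComplex.mappingCone.triangle φ).mor₃ =
      toU (CochainComplex.mappingCone.fst φ).1 ≫ reald_sI K := by
  have h : Cochain.ofHom (CochainComplex.mappingCone.triangle φ).mor₃ =
      (-(CochainComplex.mappingCone.fst φ).1).rightShift 1 0 (zero_add 1) :=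
    Cocycle.cochain_ofHom_homOf_eq_coe _
  rw [← reald_toU_neg, ← reald_toU_rightShift _ (zero_add 1)]
  exact congrArg toU h

end shift

section totstr

variable {A : Type u} [Category.{v} A] [Abelian A] [HasCoproductsOfShape ℤ A] [Linear (ZMod 2) A]
  {G : Type} [Fintype G] {K K' : Cx A} {W : G → Cx A} {deg deg' : G → ℤ}
  {t t' : ∀ x y, U (W x) ⟶ U (W y)}

/-- the shifted structure -/
noncomputable def reald_sh (s : TotStr K W deg t) :
    TotStr (K⟦(1 : ℤ)⟧) W (fun x => deg x - 1) t where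
  inc x := s.inc x ≫ reald_sI K
  pr x := reald_sP K ≫ s.pr x
  hinc x := (s.hinc x).comp (hg_toU _) (by omega)
  hpr x := (hg_toU _).comp (s.hpr x) (by omega)
  inc_pr_self x := by rw [Category.assoc, reald_sI_sP_assoc, s.inc_pr_self]
  inc_pr_ne x y h := by rw [Category.assoc, reald_sI_sP_assoc, s.inc_pr_ne x y h]
  total := by
    have h : ∑ x, (reald_sP K ≫ s.pr x) ≫ s.inc x ≫ reald_sI K =
        reald_sP K ≫ (∑ x, s.pr x ≫ s.inc x) ≫ reald_sI K := by
      simp only [Preadditive.sum_comp, Preadditive.comp_sum, Category.assoc]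
    rw [h, s.total, Category.id_comp, reald_sP_sI]
  dl_inc x := by
    rw [dl_comp, reald_dl_sI, comp_zero, add_zero, s.dl_inc, Preadditive.sum_comp]
    simp only [Category.assoc]

/-- comparison of two structures with the same data -/
noncomputable def reald_cmp (s : TotStr K W deg t) (s' : TotStr K' W deg' t') : U K ⟶ U K' :=
  ∑ x, s.pr x ≫ s'.inc x

omit [Linear (ZMod 2) A] in
@[reassoc]
theorem reald_inc_cmp (s : TotStr K W deg t) (s' : TotStr K' W deg' t') (x : G) :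
    s.inc x ≫ reald_cmp s s' = s'.inc x := by
  rw [reald_cmp, Preadditive.comp_sum, Finset.sum_eq_single x]
  · rw [s.inc_pr_self_assoc]
  · intro b _ hb
    rw [s.inc_pr_ne_assoc x b hb.symm, zero_comp]
  · simp

omit [Linear (ZMod 2) A] in
theorem reald_hg_cmp (s : TotStr K W deg t) (s' : TotStr K' W deg' t') (hd : ∀ x, deg x = deg' x) :
    Hg 0 (reald_cmp s s') :=
  Hg.sum _ fun x _ => (s.hpr x).comp (s'.hinc x) (by rw [hd x]; omega)

theorem reald_dl_cmp (s : TotStr K W deg t) (s' : TotStr K' W deg' t')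
    (ht : ∀ x y, t x y = t' x y) : dl (reald_cmp s s') = 0 := by
  refine s.ext_from fun x => ?_
  have h := dl_comp (s.inc x) (reald_cmp s s')
  rw [reald_inc_cmp, s'.dl_inc, s.dl_inc, Preadditive.sum_comp] at h
  simp only [Category.assoc, reald_inc_cmp, ht] at h
  rw [comp_zero]
  exact (left_eq_add.1 h)

/-- the isomorphism between two total complexes of the same data -/
noncomputable def reald_iso (s : TotStr K W deg t) (s' : TotStr K' W deg' t')
    (hd : ∀ x, deg x = deg' x) (ht : ∀ x y, t x y = t' x y) : K ≅ K' where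
  hom := homU (reald_cmp s s') (reald_hg_cmp s s' hd) (reald_dl_cmp s s' ht)
  inv := homU (reald_cmp s' s) (reald_hg_cmp s' s fun x => (hd x).symm)
    (reald_dl_cmp s' s fun x y => (ht x y).symm)
  hom_inv_id := mapU_injective (by
    rw [mapU_comp, mapU_homU, mapU_homU, mapU_id]
    refine s.ext_from fun x => ?_
    rw [reald_inc_cmp_assoc, reald_inc_cmp, Category.comp_id])
  inv_hom_id := mapU_injective (by
    rw [mapU_comp, mapU_homU, mapU_homU, mapU_id]
    refine s'.ext_from fun x => ?_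
    rw [reald_inc_cmp_assoc, reald_inc_cmp, Category.comp_id])

@[reassoc]
theorem reald_inc_iso (s : TotStr K W deg t) (s' : TotStr K' W deg' t')
    (hd : ∀ x, deg x = deg' x) (ht : ∀ x y, t x y = t' x y) (x : G) :
    s.inc x ≫ mapU (reald_iso s s' hd ht).hom = s'.inc x := by
  rw [reald_iso, mapU_homU, reald_inc_cmp]

end totstr

section cone

open CochainComplex.mappingCone

variable {A : Type u} [Category.{v} A] [Abelian A] [HasCoproductsOfShape ℤ A]
  {K L : Cx A} (φ : K ⟶ L)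

@[reassoc]
theorem reald_inl_fst : toU (inl φ) ≫ toU (fst φ).1 = 𝟙 _ := by
  rw [← toU_comp _ _ (neg_add_cancel 1), inl_fst, reald_toU_id]

@[reassoc]
theorem reald_inl_snd : toU (inl φ) ≫ toU (snd φ) = 0 := by
  rw [← toU_comp _ _ (add_zero (-1)), inl_snd, toU_zero]

@[reassoc]
theorem reald_inr_fst : mapU (inr φ) ≫ toU (fst φ).1 = 0 := by
  rw [mapU, ← toU_comp _ _ (zero_add 1), inr_fst, toU_zero]

@[reassoc]
theorem reald_inr_snd : mapU (inr φ) ≫ toU (snd φ) = 𝟙 _ := by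
  rw [mapU, ← toU_comp _ _ (zero_add 0), inr_snd, reald_toU_id]

theorem reald_cone_total :
    toU (fst φ).1 ≫ toU (inl φ) + toU (snd φ) ≫ mapU (inr φ) = 𝟙 _ := by
  rw [mapU, ← toU_comp _ _ (add_neg_cancel 1), ← toU_comp _ _ (add_zero 0), ← toU_add,
    CochainComplex.mappingCone.id, reald_toU_id]

variable [Linear (ZMod 2) A]

theorem reald_dl_inl : dl (toU (inl φ)) = mapU φ ≫ mapU (inr φ) := by
  rw [← toU_δ _ (neg_add_cancel 1), δ_inl, ← mapU_comp, mapU]

variable {G G' : Type} [Fintype G] [Fintype G'] {W : G ⊕ G' → Cx A} {deg : G → ℤ} {deg' : G' → ℤ}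
  {T : ∀ x y, U (W x) ⟶ U (W y)}

/-- the structure of the mapping cone -/
noncomputable def reald_cone
    (s : TotStr K (fun x => W (Sum.inl x)) deg fun x y => T (Sum.inl x) (Sum.inl y))
    (s' : TotStr L (fun x => W (Sum.inr x)) deg' fun x y => T (Sum.inr x) (Sum.inr y))
    (hφ : ∀ x, s.inc x ≫ mapU φ = ∑ y, T (Sum.inl x) (Sum.inr y) ≫ s'.inc y)
    (h0 : ∀ x y, T (Sum.inr x) (Sum.inl y) = 0) :
    TotStr (CochainComplex.mappingCone φ) W (Sum.elim (fun x => deg x - 1) deg') T where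
  inc
    | Sum.inl x => s.inc x ≫ toU (inl φ)
    | Sum.inr y => s'.inc y ≫ mapU (inr φ)
  pr
    | Sum.inl x => toU (fst φ).1 ≫ s.pr x
    | Sum.inr y => toU (snd φ) ≫ s'.pr y
  hinc
    | Sum.inl x => (s.hinc x).comp (hg_toU _) (by simp only [Sum.elim_inl]; omega)
    | Sum.inr y => (s'.hinc y).comp (hg_mapU _) (by simp only [Sum.elim_inr]; omega)
  hpr
    | Sum.inl x => (hg_toU _).comp (s.hpr x) (by simp only [Sum.elim_inl]; omega)
    | Sum.inr y => (hg_toU _).comp (s'.hpr y) (by simp only [Sum.elim_inr]; omega)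
  inc_pr_self
    | Sum.inl x => by
      dsimp only
      rw [Category.assoc, reald_inl_fst_assoc, s.inc_pr_self]
    | Sum.inr y => by
      dsimp only
      rw [Category.assoc, reald_inr_snd_assoc, s'.inc_pr_self]
  inc_pr_ne
    | Sum.inl x, Sum.inl y, h => by
      dsimp only
      rw [Category.assoc, reald_inl_fst_assoc, s.inc_pr_ne x y fun e => h (congrArg _ e)]
    | Sum.inl x, Sum.inr y, _ => by
      dsimp only
      rw [Category.assoc, reald_inl_snd_assoc, zero_comp, comp_zero]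
    | Sum.inr x, Sum.inl y, _ => by
      dsimp only
      rw [Category.assoc, reald_inr_fst_assoc, zero_comp, comp_zero]
    | Sum.inr x, Sum.inr y, h => by
      dsimp only
      rw [Category.assoc, reald_inr_snd_assoc, s'.inc_pr_ne x y fun e => h (congrArg _ e)]
  total := by
    rw [Fintype.sum_sum_type]
    dsimp only
    have h1 : ∑ x, (toU (fst φ).1 ≫ s.pr x) ≫ s.inc x ≫ toU (inl φ) =
        toU (fst φ).1 ≫ (∑ x, s.pr x ≫ s.inc x) ≫ toU (inl φ) := by
      simp only [Preadditive.sum_comp, Preadditive.comp_sum, Category.assoc]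
    have h2 : ∑ x, (toU (snd φ) ≫ s'.pr x) ≫ s'.inc x ≫ mapU (inr φ) =
        toU (snd φ) ≫ (∑ x, s'.pr x ≫ s'.inc x) ≫ mapU (inr φ) := by
      simp only [Preadditive.sum_comp, Preadditive.comp_sum, Category.assoc]
    rw [h1, h2, s.total, s'.total, Category.id_comp, Category.id_comp, reald_cone_total]
  dl_inc
    | Sum.inl x => by
      rw [Fintype.sum_sum_type]
      dsimp only
      rw [dl_comp, s.dl_inc, reald_dl_inl, reassoc_of% (hφ x)]
      simp only [Preadditive.sum_comp, Category.assoc]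
    | Sum.inr y => by
      rw [Fintype.sum_sum_type]
      dsimp only
      rw [dl_comp, s'.dl_inc, dl_mapU, comp_zero, add_zero]
      simp only [Preadditive.sum_comp, Category.assoc, h0, zero_comp, Finset.sum_const_zero,
        zero_add]

end cone

variable {A : Type u} [Category.{v} A] [Abelian A] [HasCoproductsOfShape ℤ A] [Linear (ZMod 2) A]
  [HasDerivedCategory A] {P : Type} [Preorder P] (Γ : GamData A P)

open Pretriangulated

instance shFun_essSurj : (shFun P).EssSurj :=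
  ⟨fun Z => ⟨reald_up Z, ⟨reald_upIso Z⟩⟩⟩

theorem reald_rl_eq_zero {Y Y' : Gen P} {g : Pr Y Y'} {x : Y.G} {y : Y'.G} (h1 : g.1 x y = 0)
    (h2 : g.2 x y = 0) : Γ.rl g x y = 0 := by
  rw [GamData.rl, h1, h2, zero_smul, zero_smul, add_zero]

theorem reald_rl_eq_e {Y Y' : Gen P} {g : Pr Y Y'} {x : Y.G} {y : Y'.G} (h1 : g.1 x y = 1)
    (h2 : g.2 x y = 0) : Γ.rl g x y = Γ.e (Y.l x) (Y'.l y) := by
  rw [GamData.rl, h1, h2, one_smul, zero_smul, add_zero]

theorem reald_red_one_ne {G : Type} [DecidableEq G] {x y : G} (h : x ≠ y) :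
    (((1 : Matrix G G ℤ) x y : ℤ) : ZMod 2) = 0 := by
  rw [Matrix.one_apply_ne h, Int.cast_zero]

theorem reald_red_one_eq {G : Type} [DecidableEq G] (x : G) :
    (((1 : Matrix G G ℤ) x x : ℤ) : ZMod 2) = 1 := by
  rw [Matrix.one_apply_eq, Int.cast_one]

theorem reald_rl_sh (Z : Ob P) (x y : Z.G) :
    Γ.rl (shObj Z).D x y = Γ.rl Z.D x y := by
  have h : (shObj Z).D = Z.D := Prod.ext (red_neg Z.D0) rfl
  rw [h]
  rfl

/-- the total complex of the shift -/
noncomputable def reald_shIso (Z : Ob P) : Γ.totObj (shObj Z) ≅ (Γ.totObj Z)⟦(1 : ℤ)⟧ :=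
  reald_iso (Γ.ts (shObj Z)) (reald_sh (Γ.ts Z)) (fun _ => rfl) (reald_rl_sh Γ Z)

theorem reald_inc_shIso (Z : Ob P) (x : Z.G) :
    (Γ.ts (shObj Z)).inc x ≫ mapU (reald_shIso Γ Z).hom = (Γ.ts Z).inc x ≫ reald_sI _ :=
  reald_inc_iso (Γ.ts (shObj Z)) (reald_sh (Γ.ts Z)) (fun _ => rfl) (reald_rl_sh Γ Z) x

theorem reald_inc_map {Z Z' : Ob P} (f : Z ⟶ Z') (x : Z.G) :
    (Γ.ts Z).inc x ≫ mapU (Γ.Tot.map f) = ∑ y, Γ.rl f.bar x y ≫ (Γ.ts Z').inc y :=
  (congrArg (_ ≫ ·) (Γ.mapU_Tot_map f)).trans (inc_asm _ _ _ x)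

theorem reald_sh_nat {Z Z' : Ob P} (f : Z ⟶ Z') :
    Γ.Tot.map ((shFun P).map f) ≫ (reald_shIso Γ Z').hom =
      (reald_shIso Γ Z).hom ≫ (Γ.Tot.map f)⟦(1 : ℤ)⟧' := by
  apply mapU_injective
  refine (mapU_comp _ _).trans (Eq.trans ?_ (mapU_comp _ _).symm)
  refine (Γ.ts (shObj Z)).ext_from fun x => ?_
  have h1 : (Γ.ts (shObj Z)).inc x ≫ mapU (Γ.Tot.map ((shFun P).map f)) =
      ∑ y : Z'.G, Γ.rl f.bar x y ≫ (Γ.ts (shObj Z')).inc y :=
    reald_inc_map Γ ((shFun P).map f) x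
  have h2 : (Γ.ts (shObj Z)).inc x ≫ mapU (Γ.Tot.map ((shFun P).map f)) ≫
      mapU (reald_shIso Γ Z').hom =
      ∑ y : Z'.G, Γ.rl f.bar x y ≫ (Γ.ts Z').inc y ≫ reald_sI _ := by
    refine ((Category.assoc _ _ _).symm.trans (congrArg (· ≫ _) h1)).trans ?_
    refine (Preadditive.sum_comp _ _ _).trans (Finset.sum_congr rfl fun y _ => ?_)
    exact (Category.assoc _ _ _).trans (congrArg (_ ≫ ·) (reald_inc_shIso Γ Z' y))
  have h3 : (Γ.ts (shObj Z)).inc x ≫ mapU (reald_shIso Γ Z).hom ≫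
      mapU ((Γ.Tot.map f)⟦(1 : ℤ)⟧') =
      ∑ y : Z'.G, Γ.rl f.bar x y ≫ (Γ.ts Z').inc y ≫ reald_sI _ := by
    refine ((Category.assoc _ _ _).symm.trans (congrArg (· ≫ _) (reald_inc_shIso Γ Z x))).trans ?_
    refine (Category.assoc _ _ _).trans ((congrArg (_ ≫ ·) (reald_sI_nat (Γ.Tot.map f))).trans ?_)
    refine ((Category.assoc _ _ _).symm.trans (congrArg (· ≫ _) (reald_inc_map Γ f x))).trans ?_
    refine (Preadditive.sum_comp _ _ _).trans (Finset.sum_congr rfl fun y _ => ?_)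
    exact Category.assoc _ _ _
  exact h2.trans h3.symm

/-- the realisation commutes with the shift -/
noncomputable def reald_shNat :
    shFun P ⋙ Γ.Tot ≅ Γ.Tot ⋙ shiftFunctor (Cx A) (1 : ℤ) :=
  NatIso.ofComponents (fun Z => reald_shIso Γ Z) fun f => reald_sh_nat Γ f

section

variable {Z Z' : Ob P} (f : Z ⟶ Z')

theorem reald_rl_ll (x y : Z.G) :
    Γ.rl (coneObj f).D (Sum.inl x) (Sum.inl y) = Γ.rl Z.D x y := reald_rl_sh Γ Z x y

theorem reald_rl_rl (x : Z'.G) (y : Z.G) : Γ.rl (coneObj f).D (Sum.inr x) (Sum.inl y) = 0 :=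
  reald_rl_eq_zero Γ rfl rfl

/-- the structure of the source, with the twisting read off from the cone -/
noncomputable def reald_tsL : TotStr (Γ.totObj Z)
    (fun x => Γ.W ((coneObj f).toGen.l (Sum.inl x))) Z.deg
    fun x y => Γ.rl (coneObj f).D (Sum.inl x) (Sum.inl y) where
  inc := (Γ.ts Z).inc
  pr := (Γ.ts Z).pr
  hinc := (Γ.ts Z).hinc
  hpr := (Γ.ts Z).hpr
  inc_pr_self := (Γ.ts Z).inc_pr_self
  inc_pr_ne := (Γ.ts Z).inc_pr_ne
  total := (Γ.ts Z).total
  dl_inc x := ((Γ.ts Z).dl_inc x).trans (Finset.sum_congr rfl fun y _ =>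
    congrArg (· ≫ (Γ.ts Z).inc y) (reald_rl_ll Γ f x y).symm)

/-- the structure of the mapping cone of the realisation -/
noncomputable def reald_tsC : TotStr (CochainComplex.mappingCone (Γ.Tot.map f))
    (fun x => Γ.W ((coneObj f).toGen.l x)) (Sum.elim (fun x => Z.deg x - 1) Z'.deg)
    (Γ.rl (coneObj f).D) :=
  reald_cone (G := Z.G) (G' := Z'.G) (W := fun x => Γ.W ((coneObj f).toGen.l x))
    (T := Γ.rl (coneObj f).D) (Γ.Tot.map f) (reald_tsL Γ f) (Γ.ts Z') (reald_inc_map Γ f)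
    (reald_rl_rl Γ f)

/-- the total complex of the cone -/
noncomputable def reald_coneIso :
    Γ.totObj (coneObj f) ≅ CochainComplex.mappingCone (Γ.Tot.map f) :=
  reald_iso (Γ.ts (coneObj f)) (reald_tsC Γ f) (fun _ => rfl) (fun _ _ => rfl)

theorem reald_inc_cone_inl (x : Z.G) :
    (Γ.ts (coneObj f)).inc (Sum.inl x) ≫ mapU (reald_coneIso Γ f).hom =
      (Γ.ts Z).inc x ≫ toU (CochainComplex.mappingCone.inl (Γ.Tot.map f)) :=
  reald_inc_iso (Γ.ts (coneObj f)) (reald_tsC Γ f) (fun _ => rfl) (fun _ _ => rfl) (Sum.inl x)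

theorem reald_inc_cone_inr (x : Z'.G) :
    (Γ.ts (coneObj f)).inc (Sum.inr x) ≫ mapU (reald_coneIso Γ f).hom =
      (Γ.ts Z').inc x ≫ mapU (CochainComplex.mappingCone.inr (Γ.Tot.map f)) :=
  reald_inc_iso (Γ.ts (coneObj f)) (reald_tsC Γ f) (fun _ => rfl) (fun _ _ => rfl) (Sum.inr x)

theorem reald_inc_inr (x : Z'.G) :
    (Γ.ts Z').inc x ≫ mapU (Γ.Tot.map (coneInr f)) = (Γ.ts (coneObj f)).inc (Sum.inr x) := by
  refine (reald_inc_map Γ (coneInr f) x).trans ?_
  refine (Finset.sum_eq_single (show (coneObj f).G from Sum.inr x) ?_ ?_).trans ?_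
  · rintro (y | y) _ hy
    · have h : Γ.rl (coneInr f).bar x (Sum.inl y) = 0 := reald_rl_eq_zero Γ rfl rfl
      exact (congrArg (· ≫ _) h).trans zero_comp
    · have h : Γ.rl (coneInr f).bar x (Sum.inr y) = 0 :=
        reald_rl_eq_zero Γ (reald_red_one_ne fun e => hy (congrArg _ e.symm)) rfl
      exact (congrArg (· ≫ _) h).trans zero_comp
  · intro h
    exact absurd (Finset.mem_univ _) h
  · have h : Γ.rl (coneInr f).bar x (Sum.inr x) = 𝟙 _ :=
      (reald_rl_eq_e Γ (reald_red_one_eq x) rfl).trans (Γ.e_self _)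
    exact (congrArg (· ≫ _) h).trans (Category.id_comp _)

theorem reald_inl_fstM (x : Z.G) :
    (Γ.ts (coneObj f)).inc (Sum.inl x) ≫ mapU (Γ.Tot.map (coneFst f)) =
      (Γ.ts (shObj Z)).inc x := by
  refine (reald_inc_map Γ (coneFst f) (Sum.inl x)).trans ?_
  rw [Finset.sum_eq_single (show (shObj Z).G from x)]
  · have h : Γ.rl (coneFst f).bar (Sum.inl x) x = 𝟙 _ :=
      (reald_rl_eq_e Γ (reald_red_one_eq x) rfl).trans (Γ.e_self _)
    rw [h]
    exact Category.id_comp _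
  · intro y _ hy
    have h : Γ.rl (coneFst f).bar (Sum.inl x) y = 0 :=
      reald_rl_eq_zero Γ (reald_red_one_ne (G := Z.G) fun e => hy e.symm) rfl
    rw [h, zero_comp]
  · intro h
    exact absurd (Finset.mem_univ _) h

theorem reald_inr_fstM (x : Z'.G) :
    (Γ.ts (coneObj f)).inc (Sum.inr x) ≫ mapU (Γ.Tot.map (coneFst f)) = 0 := by
  refine (reald_inc_map Γ (coneFst f) (Sum.inr x)).trans ?_
  refine Finset.sum_eq_zero fun y _ => ?_
  have h : Γ.rl (coneFst f).bar (Sum.inr x) y = 0 := reald_rl_eq_zero Γ rfl rfl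
  exact (congrArg (· ≫ _) h).trans zero_comp

theorem reald_comm₂ : Γ.Tot.map (coneInr f) ≫ (reald_coneIso Γ f).hom =
    CochainComplex.mappingCone.inr (Γ.Tot.map f) := by
  apply mapU_injective
  refine (mapU_comp _ _).trans ?_
  refine (Γ.ts Z').ext_from fun x => ?_
  refine ((Category.assoc _ _ _).symm.trans (congrArg (· ≫ _) (reald_inc_inr Γ f x))).trans ?_
  exact reald_inc_cone_inr Γ f x

theorem reald_comm₃ : Γ.Tot.map (coneFst f) ≫ (reald_shIso Γ Z).hom =
    (reald_coneIso Γ f).hom ≫ (CochainComplex.mappingCone.triangle (Γ.Tot.map f)).mor₃ := by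
  apply mapU_injective
  refine (mapU_comp _ _).trans (Eq.trans ?_ (mapU_comp _ _).symm)
  refine Eq.trans ?_ (congrArg (_ ≫ ·) (reald_mor₃ (Γ.Tot.map f))).symm
  refine (Γ.ts (coneObj f)).ext_from ?_
  rintro (x | x)
  · refine ((Category.assoc _ _ _).symm.trans (congrArg (· ≫ _) (reald_inl_fstM Γ f x))).trans ?_
    refine (reald_inc_shIso Γ Z x).trans (Eq.symm ?_)
    refine ((Category.assoc _ _ _).symm.trans
      (congrArg (· ≫ _) (reald_inc_cone_inl Γ f x))).trans ?_
    exact (Category.assoc _ _ _).trans (congrArg (_ ≫ ·) (reald_inl_fst_assoc _ _))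
  · refine ((Category.assoc _ _ _).symm.trans (congrArg (· ≫ _) (reald_inr_fstM Γ f x))).trans ?_
    refine zero_comp.trans (Eq.symm ?_)
    refine ((Category.assoc _ _ _).symm.trans
      (congrArg (· ≫ _) (reald_inc_cone_inr Γ f x))).trans ?_
    refine (Category.assoc _ _ _).trans ((congrArg (_ ≫ ·) (reald_inr_fst_assoc _ _)).trans ?_)
    exact (congrArg (_ ≫ ·) zero_comp).trans comp_zero

end

theorem GamData.exists_shift_cone :
    ∃ e : shFun P ⋙ Γ.L ≅ Γ.L ⋙ shiftFunctor (DerivedCategory A) (1 : ℤ),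
      ∀ (Z Z' : Ob P) (f : Z ⟶ Z'),
        Triangle.mk (Γ.L.map f) (Γ.L.map (coneInr f)) (Γ.L.map (coneFst f) ≫ e.hom.app Z) ∈
          distTriang (DerivedCategory A) := by
  refine ⟨Functor.isoWhiskerRight (reald_shNat Γ) DerivedCategory.Q ≪≫
    Functor.isoWhiskerLeft Γ.Tot (DerivedCategory.Q.commShiftIso (1 : ℤ)), fun Z Z' f => ?_⟩
  refine isomorphic_distinguished _
    (DerivedCategory.mappingCone_triangle_distinguished (Γ.Tot.map f)) _ ?_
  refine Triangle.isoMk _ _ (Iso.refl _) (Iso.refl _)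
    (DerivedCategory.Q.mapIso (reald_coneIso Γ f)) ?_ ?_ ?_
  · exact (Category.comp_id _).trans (Category.id_comp _).symm
  · refine Eq.trans ?_ (Category.id_comp _).symm
    exact (DerivedCategory.Q.map_comp _ _).symm.trans (congrArg _ (reald_comm₂ Γ f))
  · have h := ((DerivedCategory.Q (C := A)).map_comp _ _).symm.trans
      ((congrArg (DerivedCategory.Q (C := A)).map (reald_comm₃ Γ f)).trans
        ((DerivedCategory.Q (C := A)).map_comp _ _))
    have h' : (DerivedCategory.Q.map (Γ.Tot.map (coneFst f)) ≫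
        DerivedCategory.Q.map (reald_shIso Γ Z).hom ≫
          (DerivedCategory.Q.commShiftIso (1 : ℤ)).hom.app (Γ.totObj Z)) ≫
            (𝟙 (DerivedCategory.Q.obj (Γ.totObj Z)))⟦(1 : ℤ)⟧' =
        DerivedCategory.Q.map (reald_coneIso Γ f).hom ≫
          DerivedCategory.Q.map (CochainComplex.mappingCone.triangle (Γ.Tot.map f)).mor₃ ≫
            (DerivedCategory.Q.commShiftIso (1 : ℤ)).hom.app (Γ.totObj Z) := by
      rw [(shiftFunctor (DerivedCategory A) (1 : ℤ)).map_id]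
      refine (Category.comp_id _).trans ?_
      exact (Category.assoc _ _ _).symm.trans ((congrArg (· ≫ _) h).trans (Category.assoc _ _ _))
    exact h'

end Pool.Agent.Work.MP_910138_ag
end

-- merged part: Pool.Agent.Work.MP_910138_ag.Main
section
/-! The main theorem. -/

open CategoryTheory Limits AlgebraicGeometry Pretriangulated

namespace Pool.Agent.Work.MP_910138_ag

open DerivedCategory

set_option backward.isDefEq.respectTransparency false in
theorem cone_transport.{v, u, v', u'} {T : Type u} [Category.{v} T] {D : Type u'} [Category.{v'} D]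
    [HasZeroObject D] [Preadditive D] [HasShift D ℤ] [∀ n : ℤ, (shiftFunctor D n).Additive]
    [Pretriangulated D] (L : T ⥤ D) (sh S : T ⥤ T) (e : sh ⋙ L ≅ L ⋙ shiftFunctor D (1 : ℤ))
    (σ : sh ⋙ S ≅ S ⋙ sh) {Z Z' C C' : T} (f : Z ⟶ Z') (i : Z' ⟶ C) (p : C ⟶ sh.obj Z)
    (i' : S.obj Z' ⟶ C') (p' : C' ⟶ sh.obj (S.obj Z)) (c : S.obj C ≅ C')
    (hi : S.map i ≫ c.hom = i') (hp : S.map p ≫ σ.hom.app Z = c.hom ≫ p')
    (h : Triangle.mk (L.map (S.map f)) (L.map i') (L.map p' ≫ e.hom.app (S.obj Z)) ∈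
      distTriang D) :
    Triangle.mk (L.map (S.map f)) (L.map (S.map i))
      (L.map (S.map p ≫ σ.hom.app Z) ≫ e.hom.app (S.obj Z)) ∈ distTriang D := by
  refine isomorphic_distinguished _ h _
    (Triangle.isoMk _ _ (Iso.refl _) (Iso.refl _) (L.mapIso c) ?_ ?_ ?_)
  · simp
  · simp [← hi]
  · have h' := congrArg L.map hp
    dsimp at h' ⊢
    simp [h']

section

universe v u

variable {A : Type u} [Category.{v} A] [Abelian A] [HasCoproductsOfShape ℤ A] [Linear (ZMod 2) A]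
  [HasDerivedCategory A] {P : Type} [PartialOrder P] (Γ : GamData A P)

theorem GamData.essImage_triang : Γ.L.essImage.IsTriangulated := by
  obtain ⟨e, he⟩ := Γ.exists_shift_cone
  exact essImage_isTriangulated Γ.L (shFun P) e (zeroOb P) Γ.isZero_zeroOb
    fun Z Z' f => ⟨_, _, _, he Z Z' f⟩

theorem GamData.exists_exotic [Γ.L.essImage.IsTriangulated] :
    ∃ (F : Γ.L.essImage.FullSubcategory ⥤ Γ.L.essImage.FullSubcategory) (_ : F.CommShift ℤ),
      F.IsTriangulated ∧ F.IsEquivalence ∧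
        Nonempty (Γ.L.toEssImage ⋙ F ≅ sFun P ⋙ Γ.L.toEssImage) := by
  obtain ⟨e, he⟩ := Γ.exists_shift_cone
  refine Pool.Agent.Work.MP_910138_ag.exists_exotic Γ.L (shFun P) (sFun P) e (shS P) (sFunSq P)
    (fun Z Z' f g h => (Γ.L_map_eq_iff _ _).2 (htp_sFun ((Γ.L_map_eq_iff _ _).1 h)))
    fun Z Z' f => ⟨_, coneInr f, coneFst f, he Z Z' f, ?_⟩
  exact cone_transport Γ.L (shFun P) (sFun P) e (shS P) f (coneInr f) (coneFst f)
    (coneInr ((sFun P).map f)) (coneFst ((sFun P).map f)) (coneS f) (coneS_inr f) (coneS_fst f)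
    (he _ _ ((sFun P).map f))

end

section

universe v u v' u'

variable {A : Type u} [Category.{v} A] [Abelian A] [HasCoproductsOfShape ℤ A] [Linear (ZMod 2) A]
  {B : Type u'} [Category.{v'} B] [Abelian B] [HasCoproductsOfShape ℤ B] [Linear (ZMod 2) B]
  [HasDerivedCategory A] [HasDerivedCategory B] [EnoughInjectives A] [EnoughInjectives B]

theorem not_derived' (Γ : GamData A PF) (R : ObjectProperty (Cx A)) (hR : ∀ Z, R (Γ.Tot.obj Z))
    (hD : ∀ K : R.FullSubcategory, Γ.L.essImage ((R.ι ⋙ Q).obj K)) (T : Cx A ⥤ Cx B)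
    (a : DGAct T) (hT : ∀ K : R.FullSubcategory, CochainComplex.plus B ((R.ι ⋙ T).obj K))
    (π : B ⥤ A) [π.Additive]
    (F : Γ.L.essImage.FullSubcategory ⥤ Γ.L.essImage.FullSubcategory)
    (η : Γ.L.toEssImage ⋙ F ≅ sFun PF ⋙ Γ.L.toEssImage)
    (θ : Γ.L.essImage.lift (R.ι ⋙ Q) hD ⋙ F ⋙ Γ.L.essImage.ι ≅
      (CochainComplex.plus B).lift (R.ι ⋙ T) hT ⋙ RD π) : False :=
  (not_derived Γ T a (fun Z => hT ⟨_, hR Z⟩) π).false
    ((Functor.isoWhiskerRight η Γ.L.essImage.ι).symm ≪≫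
      Functor.isoWhiskerLeft (R.lift Γ.Tot hR) θ)

end

private theorem h14_dg {X Y : Scheme.{0}} (p : Y ⟶ X) (E : CochainComplex Y.Modules ℤ)
    [Linear (ZMod 2) X.Modules] [Linear (ZMod 2) Y.Modules] :
    Nonempty (DGAct (kernelTensor p E)) := by
  obtain ⟨a₁⟩ := dgAct_mapHomologicalComplex (Scheme.Modules.pullback p)
  delta kernelTensor
  refine dgAct_comp a₁ (Classical.choice ?_)
  exact @dgAct_map₂ _ _ _ _ _ _ _ _ _ _ _ _ _ (tensor Y) _ _ (_) E

theorem target : ∃ (X : SmProj (ZMod 2)) (A : Admissible X.X) (F : A.Cat ⥤ A.Cat),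
    IsExact A A F ∧ F.IsEquivalence ∧ ¬ IsFM X X A A F := by
  obtain ⟨X, alg, hN, pd, hl, hfin⟩ := geom_main (QQ PF)
  obtain ⟨d⟩ := exists_lowData pd
  have ht := d.Γ.essImage_triang
  obtain ⟨rk, hE⟩ := d.excColl
  have hρ : ∀ q, Db X.X (Q.obj ((sgl X.X.Modules).obj (pd.ρ.obj q))) := fun q =>
    Db_single (hl q).isCoh
  have hle : d.Γ.L.essImage ≤ Db X.X := d.essImage_le _ hρ
  let A : Admissible X.X :=
    { D := d.Γ.L.essImage
      triang := ht
      closed := inferInstance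
      le := hle
      hasRight := hE.isLeftAdjoint hle fun i C hC => hfin _ _ (d.E_mem i _ hρ) hC
      hasLeft := hE.isRightAdjoint hle fun i C hC => hfin _ _ hC (d.E_mem i _ hρ) }
  obtain ⟨F, cs, h1, h2, ⟨η⟩⟩ := d.Γ.exists_exotic
  refine ⟨X, A, F, ⟨cs, h1⟩, h2, ?_⟩
  rintro ⟨E, ⟨θ⟩⟩
  obtain ⟨alg'⟩ := algebra_of_hom (pullback.fst X.str X.str ≫ X.str)
  have hperf : ∀ Z : Ob PF, perf A (d.Γ.Tot.obj Z) := fun Z =>
    ⟨d.bounded Z, fun n => (d.terms LFin (fun _ => lFin_of_isZero) hl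
      (fun G _ M N h e => lFin_of_biproduct G M N h e) Z n).isLocallyFree,
      ⟨Z, ⟨Iso.refl _⟩⟩⟩
  obtain ⟨a⟩ := h14_dg (pullback.fst X.str X.str) E.obj
  exact not_derived' d.Γ (perf A) hperf _ (kernelTensor (pullback.fst X.str X.str) E.obj) a _
    (Scheme.Modules.pushforward (pullback.snd X.str X.str)) F η θ

end Pool.Agent.Work.MP_910138_ag
end
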