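import Pool.Agent.Work.MP_910138_ag.Groth

/-! Definitions used in the statement: smooth projective varieties, the bounded derived category
of coherent sheaves, admissible subcategories, Fourier-Mukai functors. -/

open CategoryTheory Limits AlgebraicGeometry MonoidalCategory

namespace Pool.Agent.Work.MP_910138_ag

attribute [local instance] MvPolynomial.gradedAlgebra

/-- Projective space `ℙ^n_K = Proj K[x_0, ..., x_n]`. -/
noncomputable def projSpace (K : Type) [Field K] (n : ℕ) : Scheme.{0} :=
  Proj (MvPolynomial.homogeneousSubmodule (Fin (n + 1)) K)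

/-- The structure morphism `ℙ^n_K ⟶ Spec K`. -/
noncomputable def projSpaceStr (K : Type) [Field K] (n : ℕ) :
    projSpace K n ⟶ Spec (CommRingCat.of K) :=
  Proj.toSpecZero (MvPolynomial.homogeneousSubmodule (Fin (n + 1)) K) ≫
    Spec.map (CommRingCat.ofHom
      (algebraMap K (MvPolynomial.homogeneousSubmodule (Fin (n + 1)) K 0)))

/-- A smooth projective variety over `K`: an integral scheme, smooth over `K`, with a closed
immersion over `K` into some projective space. -/
structure SmProj (K : Type) [Field K] where
  /-- the underlying scheme -/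
  X : Scheme.{0}
  /-- the structure morphism -/
  str : X ⟶ Spec (CommRingCat.of K)
  integral : IsIntegral X
  smooth : Smooth str
  projective : ∃ (n : ℕ) (i : X ⟶ projSpace K n), IsClosedImmersion i ∧ i ≫ projSpaceStr K n = str

/-- The derived category of all sheaves of `𝒪_X`-modules (Mathlib's construction). -/
noncomputable instance hasDerived (X : Scheme.{0}) : HasDerivedCategory X.Modules :=
  HasDerivedCategory.standard X.Modules

/-- Coherent sheaves (on a noetherian scheme): quasi-coherent of finite type. -/
def IsCoh {X : Scheme.{0}} (M : X.Modules) : Prop :=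
  SheafOfModules.IsQuasicoherent M ∧ SheafOfModules.IsFiniteType M

/-- `D^b(X)`: the complexes of `𝒪_X`-modules with bounded coherent cohomology. -/
def Db (X : Scheme.{0}) : ObjectProperty (DerivedCategory X.Modules) := fun C =>
  (∃ a b : ℤ, C.IsGE a ∧ C.IsLE b) ∧
    ∀ n : ℤ, IsCoh ((DerivedCategory.homologyFunctor X.Modules n).obj C)

/-- An admissible subcategory of `D^b(X)`: a full triangulated subcategory whose inclusion into
`D^b(X)` has a left and a right adjoint. -/
structure Admissible (X : Scheme.{0}) where
  /-- the objects of the subcategory -/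
  D : ObjectProperty (DerivedCategory X.Modules)
  triang : D.IsTriangulated
  closed : D.IsClosedUnderIsomorphisms
  le : D ≤ Db X
  hasRight : (ObjectProperty.ιOfLE le).IsLeftAdjoint
  hasLeft : (ObjectProperty.ιOfLE le).IsRightAdjoint

attribute [instance] Admissible.triang Admissible.closed

/-- The underlying triangulated category of an admissible subcategory. -/
abbrev Admissible.Cat {X : Scheme.{0}} (A : Admissible X) := A.D.FullSubcategory

/-- The tensor product of sheaves of `𝒪_Y`-modules: the sheafification of the tensor product of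
presheaves of modules. -/
noncomputable def tensor (Y : Scheme.{0}) : Y.Modules ⥤ Y.Modules ⥤ Y.Modules :=
  (Functor.postcompose₂.obj (PresheafOfModules.sheafification (𝟙 Y.ringCatSheaf.obj))).obj
    ((((Functor.whiskeringLeft₂ _).obj (Scheme.Modules.toPresheafOfModules Y)).obj
      (Scheme.Modules.toPresheafOfModules Y)).obj
        (curriedTensor (PresheafOfModules.{0} (Y.presheaf ⋙ forget₂ CommRingCat RingCat))))

instance sheafification_additive (Y : Scheme.{0}) :
    (PresheafOfModules.sheafification.{0} (𝟙 Y.ringCatSheaf.obj)).Additive :=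
  haveI := preservesBinaryBiproducts_of_preservesBinaryCoproducts
    (PresheafOfModules.sheafification.{0} (𝟙 Y.ringCatSheaf.obj))
  Functor.additive_of_preservesBinaryBiproducts _

instance tensor_obj_additive (Y : Scheme.{0}) (M : Y.Modules) : ((tensor Y).obj M).Additive where
  map_add {A B f g} := by
    refine Eq.trans ?_
      ((PresheafOfModules.sheafification.{0} (𝟙 Y.ringCatSheaf.obj)).map_add (f := _) (g := _))
    refine congrArg (PresheafOfModules.sheafification.{0} (𝟙 Y.ringCatSheaf.obj)).map ?_
    ext U : 1
    exact MonoidalPreadditive.whiskerLeft_add (C := ModuleCat (Y.presheaf.obj U)) _ _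

instance tensor_additive (Y : Scheme.{0}) : (tensor Y).Additive where
  map_add {A B f g} := by
    ext M : 2
    refine Eq.trans ?_
      ((PresheafOfModules.sheafification.{0} (𝟙 Y.ringCatSheaf.obj)).map_add (f := _) (g := _))
    refine congrArg (PresheafOfModules.sheafification.{0} (𝟙 Y.ringCatSheaf.obj)).map ?_
    ext U : 1
    exact MonoidalPreadditive.add_whiskerRight (C := ModuleCat (Y.presheaf.obj U)) _ _

/-- An exact functor between admissible subcategories: it commutes with the shifts and sends exact
triangles to exact triangles. -/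
def IsExact {X₁ X₂ : Scheme.{0}} (A₁ : Admissible X₁) (A₂ : Admissible X₂) (F : A₁.Cat ⥤ A₂.Cat) :
    Prop :=
  ∃ _ : F.CommShift ℤ, F.IsTriangulated

/-- The bounded complexes of locally free sheaves that lie in the admissible subcategory `A`. -/
def perf {X : Scheme.{0}} (A : Admissible X) : ObjectProperty (CochainComplex X.Modules ℤ) :=
  fun P => (∃ a b : ℤ, P.IsStrictlyGE a ∧ P.IsStrictlyLE b) ∧
    (∀ n : ℤ, SheafOfModules.IsLocallyFree (P.X n)) ∧ A.D (DerivedCategory.Q.obj P)

/-- A bounded complex of locally free sheaves in `A`, seen as an object of `A`. -/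
noncomputable def perfTo {X : Scheme.{0}} (A : Admissible X) : (perf A).FullSubcategory ⥤ A.Cat :=
  A.D.lift ((perf A).ι ⋙ DerivedCategory.Q) (fun P => P.property.2.2)

/-- The functor `P ↦ E ⊗ p^* P` (total complex) on complexes. -/
noncomputable def kernelTensor {X Y : Scheme.{0}} (p : Y ⟶ X) (E : CochainComplex Y.Modules ℤ) :
    CochainComplex X.Modules ℤ ⥤ CochainComplex Y.Modules ℤ :=
  (Scheme.Modules.pullback p).mapHomologicalComplex _ ⋙ (tensor Y).map₂CochainComplex.obj E

theorem kernelTensor_plus {X Y : Scheme.{0}} (p : Y ⟶ X) (E : CochainComplex.Plus Y.Modules)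
    (P : CochainComplex X.Modules ℤ) (a : ℤ) [P.IsStrictlyGE a] :
    CochainComplex.plus _ ((kernelTensor p E.obj).obj P) := by
  obtain ⟨E, e, he⟩ := E
  refine ⟨e + a, ?_⟩
  rw [CochainComplex.isStrictlyGE_iff]
  intro i hi
  rw [IsZero.iff_id_eq_zero]
  apply HomologicalComplex.mapBifunctor.hom_ext
  intro i₁ i₂ h
  apply IsZero.eq_of_src
  have h' : i₁ + i₂ = i := h
  by_cases h₁ : i₁ < e
  · exact (((tensor Y).flip.obj _).map_isZero (E.isZero_of_isStrictlyGE e i₁ h₁))
  · exact ((tensor Y).obj _).map_isZero
      ((Scheme.Modules.pullback p).map_isZero (P.isZero_of_isStrictlyGE a i₂ (by omega)))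

/-- The derived direct image `Rq_*` of a bounded below complex. -/
noncomputable def derivedPush {X Y : Scheme.{0}} (q : Y ⟶ X) :
    CochainComplex.Plus Y.Modules ⥤ DerivedCategory X.Modules :=
  DerivedCategory.Plus.Q ⋙ (Scheme.Modules.pushforward q).rightDerivedFunctorPlus ⋙
    DerivedCategory.Plus.ι

/-- The functor `P ↦ Rp₂_* (E ⊗ p₁^* P)` with kernel `E`, on the bounded complexes `P` of locally
free sheaves in `A` (for which `E ⊗ p₁^* P` is the derived tensor product). -/
noncomputable def fmFunctor {X₁ X₂ Y : Scheme.{0}} (p₁ : Y ⟶ X₁) (p₂ : Y ⟶ X₂) (A : Admissible X₁)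
    (E : CochainComplex.Plus Y.Modules) : (perf A).FullSubcategory ⥤ DerivedCategory X₂.Modules :=
  (CochainComplex.plus _).lift ((perf A).ι ⋙ kernelTensor p₁ E.obj)
      (fun P => by
        obtain ⟨a, b, ha, hb⟩ := P.property.1
        exact kernelTensor_plus p₁ E P.obj a) ⋙
    derivedPush p₂

/-- `F` agrees, on the bounded complexes of locally free sheaves in `A₁`, with the Fourier-Mukai
functor of some bounded below complex `E` on `X₁ × X₂`. Every functor of Fourier-Mukai type has
this property. -/
def IsFM {K : Type} [Field K] (X₁ X₂ : SmProj K) (A₁ : Admissible X₁.X) (A₂ : Admissible X₂.X)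
    (F : A₁.Cat ⥤ A₂.Cat) : Prop :=
  ∃ E : CochainComplex.Plus (pullback X₁.str X₂.str).Modules,
    Nonempty (perfTo A₁ ⋙ F ⋙ A₂.D.ι ≅
      fmFunctor (pullback.fst X₁.str X₂.str) (pullback.snd X₁.str X₂.str) A₁ E)

end Pool.Agent.Work.MP_910138_ag
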