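import Pool.Agent.Work.MP_910138_ag.GBase

/-! Exactness of sheaves of modules in terms of sections. -/

open CategoryTheory Limits AlgebraicGeometry TopologicalSpace Opposite Abelian

namespace Pool.Agent.Work.MP_910138_ag

variable {X : Scheme.{0}} {M N : X.Modules} {U V W : X.Opens}

theorem gexact_zero_app (s : Γ(M, U)) : (0 : M ⟶ N).app U s = 0 := rfl

theorem gexact_id_app (s : Γ(M, U)) : (𝟙 M : M ⟶ M).app U s = s := rfl

theorem gexact_app_zero (φ : M ⟶ N) (U : X.Opens) : φ.app U (0 : Γ(M, U)) = 0 :=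
  (appL φ U).map_zero

theorem gexact_app_add (φ : M ⟶ N) (a b : Γ(M, U)) :
    φ.app U (a + b) = φ.app U a + φ.app U b := (appL φ U).map_add a b

theorem gexact_app_smul (φ : M ⟶ N) (r : Γ(X, U)) (a : Γ(M, U)) :
    φ.app U (r • a) = r • φ.app U a := (appL φ U).map_smul r a

/-- the kernel subsheaf -/
noncomputable def gexact_kerData (φ : M ⟶ N) : SubData M where
  sub U := LinearMap.ker (appL φ U)
  res_mem {U V} h s hs := by
    have hs' : φ.app V s = 0 := hs
    have : φ.app U (res M h s) = 0 := by rw [app_res, hs', map_zero]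
    exact this
  loc {U s} hs := by
    have : φ.app U s = 0 := sep fun x hx => by
      obtain ⟨V, hV, xV, h⟩ := hs x hx
      have h' : φ.app V (res M hV s) = 0 := h
      exact ⟨V, hV, xV, by rw [← app_res, h', map_zero]⟩
    exact this

theorem gexact_mem_ker (φ : M ⟶ N) (s : Γ(M, U)) :
    s ∈ (gexact_kerData φ).sub U ↔ φ.app U s = 0 := Iff.rfl

theorem gexact_ker_ι (φ : M ⟶ N) : (gexact_kerData φ).ι ≫ φ = 0 :=
  hom_ext' fun _ s => (gexact_mem_ker φ _).1 ((gexact_kerData φ).ι_mem s)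

/-- the image subsheaf -/
noncomputable def gexact_imData (φ : M ⟶ N) : SubData N where
  sub U :=
    { carrier := {s | ∀ x ∈ U, ∃ (V : X.Opens) (h : V ≤ U), x ∈ V ∧
        ∃ t : Γ(M, V), φ.app V t = res N h s}
      zero_mem' := fun x hx => ⟨U, le_rfl, hx, 0, by rw [gexact_app_zero, map_zero]⟩
      add_mem' := fun {a b} ha hb x hx => by
        obtain ⟨V₁, h₁, x₁, t₁, e₁⟩ := ha x hx
        obtain ⟨V₂, h₂, x₂, t₂, e₂⟩ := hb x hx
        refine ⟨V₁ ⊓ V₂, inf_le_left.trans h₁, ⟨x₁, x₂⟩,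
          res M inf_le_left t₁ + res M inf_le_right t₂, ?_⟩
        rw [gexact_app_add, app_res, app_res, e₁, e₂, res_res, res_res, map_add]
      smul_mem' := fun r a ha x hx => by
        obtain ⟨V₁, h₁, x₁, t₁, e₁⟩ := ha x hx
        exact ⟨V₁, h₁, x₁, resO X h₁ r • t₁, by rw [gexact_app_smul, e₁, res_smul]⟩ }
  res_mem {U W} h s hs x hx := by
    obtain ⟨V₁, h₁, x₁, t₁, e₁⟩ := hs x (h hx)
    refine ⟨U ⊓ V₁, inf_le_left, ⟨hx, x₁⟩, res M inf_le_right t₁, ?_⟩
    rw [app_res, e₁, res_res, res_res]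
  loc {U s} hs x hx := by
    obtain ⟨W, hW, xW, hs'⟩ := hs x hx
    obtain ⟨V₁, h₁, x₁, t₁, e₁⟩ := hs' x xW
    exact ⟨V₁, h₁.trans hW, x₁, t₁, by rw [e₁, res_res]⟩

theorem gexact_mem_im (φ : M ⟶ N) (s : Γ(N, U)) :
    s ∈ (gexact_imData φ).sub U ↔ ∀ x ∈ U, ∃ (V : X.Opens) (h : V ≤ U), x ∈ V ∧
      ∃ t : Γ(M, V), φ.app V t = res N h s := Iff.rfl

theorem mono_iff (φ : M ⟶ N) : Mono φ ↔ ∀ U, Function.Injective (φ.app U) := by
  constructor
  · intro hφ U
    have h0 : (gexact_kerData φ).ι = 0 := by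
      rw [← cancel_mono φ, gexact_ker_ι, zero_comp]
    have hinj : Function.Injective (appL φ U) := by
      rw [← LinearMap.ker_eq_bot, Submodule.eq_bot_iff]
      intro s hs
      have h1 := (gexact_kerData φ).ι_mkSec s hs
      rw [h0, gexact_zero_app] at h1
      exact h1.symm
    exact hinj
  · intro h
    exact ⟨fun _ _ e => hom_ext' fun U s => h U (by
      rw [← comp_app_apply, e, comp_app_apply])⟩

theorem gexact_surj_of_isIso (φ : M ⟶ N) [IsIso φ] (U : X.Opens) :
    Function.Surjective (φ.app U) := fun s =>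
  ⟨(inv φ).app U s, by rw [← comp_app_apply, IsIso.inv_hom_id, gexact_id_app]⟩

theorem epi_iff (φ : M ⟶ N) : Epi φ ↔ ∀ (U : X.Opens) (s : Γ(N, U)), ∀ x ∈ U,
    ∃ (V : X.Opens) (h : V ≤ U), x ∈ V ∧ ∃ t : Γ(M, V), φ.app V t = res N h s := by
  constructor
  · intro hφ U s
    have hfac : (gexact_imData φ).lift φ (fun U t => (gexact_mem_im φ _).2 fun x hx =>
        ⟨U, le_rfl, hx, t, by rw [res_self]⟩) ≫ (gexact_imData φ).ι = φ :=
      (gexact_imData φ).lift_ι _ _
    have : Epi (gexact_imData φ).ι := epi_of_epi_fac hfac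
    have : IsIso (gexact_imData φ).ι := isIso_of_mono_of_epi _
    obtain ⟨t, ht⟩ := gexact_surj_of_isIso (gexact_imData φ).ι U s
    have := (gexact_imData φ).ι_mem t
    rw [ht] at this
    exact (gexact_mem_im φ s).1 this
  · intro h
    refine ⟨fun a b e => hom_ext' fun U s => sep fun x hx => ?_⟩
    obtain ⟨V, hV, xV, t, ht⟩ := h U s x hx
    refine ⟨V, hV, xV, ?_⟩
    rw [← app_res, ← app_res, ← ht, ← comp_app_apply, e, comp_app_apply]

/-- the kernel subsheaf is a kernel -/
noncomputable def gexact_kerIsLimit (φ : M ⟶ N) :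
    IsLimit (KernelFork.ofι (gexact_kerData φ).ι (gexact_ker_ι φ)) :=
  KernelFork.IsLimit.ofι _ _
    (fun k hk => (gexact_kerData φ).lift k fun U s => (gexact_mem_ker φ _).2 (by
      rw [← comp_app_apply, hk, gexact_zero_app]))
    (fun k hk => (gexact_kerData φ).lift_ι _ _)
    (fun k hk m hm => by
      rw [← cancel_mono (gexact_kerData φ).ι, hm, (gexact_kerData φ).lift_ι])

/-- the corestriction to the kernel subsheaf -/
noncomputable def gexact_toKer (S : ShortComplex X.Modules) : S.X₁ ⟶ (gexact_kerData S.g).mod :=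
  (gexact_kerData S.g).lift S.f fun U s => (gexact_mem_ker S.g _).2 (by
    rw [← comp_app_apply, S.zero, gexact_zero_app])

theorem gexact_toKer_ι (S : ShortComplex X.Modules) :
    gexact_toKer S ≫ (gexact_kerData S.g).ι = S.f := (gexact_kerData S.g).lift_ι _ _

theorem gexact_exact_iff_epi (S : ShortComplex X.Modules) : S.Exact ↔ Epi (gexact_toKer S) := by
  rw [S.exact_iff_epi_kernel_lift]
  let e : (gexact_kerData S.g).mod ≅ kernel S.g :=
    IsLimit.conePointUniqueUpToIso (gexact_kerIsLimit S.g) (limit.isLimit _)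
  have he : e.hom ≫ kernel.ι S.g = (gexact_kerData S.g).ι :=
    IsLimit.conePointUniqueUpToIso_hom_comp (gexact_kerIsLimit S.g) (limit.isLimit _)
      WalkingParallelPair.zero
  have h1 : kernel.lift S.g S.f S.zero = gexact_toKer S ≫ e.hom := by
    rw [← cancel_mono (kernel.ι S.g), kernel.lift_ι, Category.assoc, he, gexact_toKer_ι]
  rw [h1]
  exact epi_comp_iff_of_isIso _ _

theorem exact_iff (S : ShortComplex X.Modules) : S.Exact ↔
    ∀ (U : X.Opens) (s : Γ(S.X₂, U)), S.g.app U s = 0 → ∀ x ∈ U,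
      ∃ (V : X.Opens) (h : V ≤ U), x ∈ V ∧ ∃ t : Γ(S.X₁, V), S.f.app V t = res S.X₂ h s := by
  rw [gexact_exact_iff_epi, epi_iff]
  constructor
  · intro h U s hs x hx
    obtain ⟨V, hV, xV, t, ht⟩ := h U ((gexact_kerData S.g).mkSec s hs) x hx
    refine ⟨V, hV, xV, t, ?_⟩
    rw [← gexact_toKer_ι, comp_app_apply, ht, app_res, SubData.ι_mkSec]
  · intro h U s x hx
    obtain ⟨V, hV, xV, t, ht⟩ := h U ((gexact_kerData S.g).ι.app U s)
      ((gexact_mem_ker S.g _).1 ((gexact_kerData S.g).ι_mem s)) x hx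
    refine ⟨V, hV, xV, t, (gexact_kerData S.g).ι_injective V ?_⟩
    rw [← comp_app_apply, gexact_toKer_ι, ht, app_res]

theorem exact_sections (S : ShortComplex X.Modules) (hS : S.Exact) [Mono S.f] (U : X.Opens)
    (s : Γ(S.X₂, U)) (h : S.g.app U s = 0) : ∃ t : Γ(S.X₁, U), S.f.app U t = s := by
  have : Epi (gexact_toKer S) := (gexact_exact_iff_epi S).1 hS
  have : Mono (gexact_toKer S) := mono_of_mono_fac (gexact_toKer_ι S)
  have : IsIso (gexact_toKer S) := isIso_of_mono_of_epi _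
  obtain ⟨t, ht⟩ := gexact_surj_of_isIso (gexact_toKer S) U ((gexact_kerData S.g).mkSec s h)
  exact ⟨t, by rw [← gexact_toKer_ι, comp_app_apply, ht, SubData.ι_mkSec]⟩

theorem isZero_iff (M : X.Modules) : IsZero M ↔ ∀ (U : X.Opens) (s : Γ(M, U)), s = 0 := by
  rw [IsZero.iff_id_eq_zero]
  constructor
  · intro h U s
    rw [← gexact_id_app s, h, gexact_zero_app]
  · intro h
    exact hom_ext' fun U s => (h U _).trans (h U _).symm

theorem isIso_iff (φ : M ⟶ N) : IsIso φ ↔ ∀ U, Function.Bijective (φ.app U) := by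
  constructor
  · intro h U
    exact ⟨(mono_iff φ).1 inferInstance U, gexact_surj_of_isIso φ U⟩
  · intro h
    have : Mono φ := (mono_iff φ).2 fun U => (h U).1
    have : Epi φ := (epi_iff φ).2 fun U s x hx => by
      obtain ⟨t, ht⟩ := (h U).2 s
      exact ⟨U, le_rfl, hx, t, by rw [ht, res_self]⟩
    exact isIso_of_mono_of_epi φ

theorem sum_app_apply {G : Type} (s : Finset G) (φ : G → (M ⟶ N)) (t : Γ(M, U)) :
    (∑ x ∈ s, φ x).app U t = ∑ x ∈ s, (φ x).app U t := by
  classical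
  induction s using Finset.induction_on with
  | empty => rw [Finset.sum_empty, Finset.sum_empty, gexact_zero_app]
  | insert a s ha ih => rw [Finset.sum_insert ha, Finset.sum_insert ha, add_app_apply, ih]

theorem biprod_total {G : Type} [Fintype G] (M : G → X.Modules) (s : Γ(⨁ M, U)) :
    ∑ x, (biproduct.ι M x).app U ((biproduct.π M x).app U s) = s := by
  have h := sum_app_apply (U := U) Finset.univ (fun x => biproduct.π M x ≫ biproduct.ι M x) s
  rw [biproduct.total, gexact_id_app] at h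
  exact h.symm

theorem biprod_ext {G : Type} [Fintype G] (M : G → X.Modules) {s t : Γ(⨁ M, U)}
    (h : ∀ x, (biproduct.π M x).app U s = (biproduct.π M x).app U t) : s = t := by
  rw [← biprod_total M s, ← biprod_total M t]
  exact Finset.sum_congr rfl fun x _ => by rw [h x]

theorem biprod_exists {G : Type} [Fintype G] (M : G → X.Modules) (s : ∀ x, Γ(M x, U)) :
    ∃ t : Γ(⨁ M, U), ∀ x, (biproduct.π M x).app U t = s x := by
  classical
  refine ⟨∑ y, (biproduct.ι M y).app U (s y), fun x => ?_⟩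
  have h1 : (biproduct.π M x).app U (∑ y, (biproduct.ι M y).app U (s y)) =
      ∑ y, (biproduct.π M x).app U ((biproduct.ι M y).app U (s y)) :=
    map_sum (appL (biproduct.π M x) U) _ _
  rw [h1, Finset.sum_eq_single x]
  · rw [← comp_app_apply, biproduct.ι_π_self, gexact_id_app]
  · intro y _ hy
    rw [← comp_app_apply, biproduct.ι_π_ne _ hy, gexact_zero_app]
  · intro hx
    exact absurd (Finset.mem_univ x) hx

end Pool.Agent.Work.MP_910138_ag
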