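import Pool.Agent.Work.MP_910138_ag.GPush

/-! The lemma of Kempf. -/

open CategoryTheory Limits AlgebraicGeometry TopologicalSpace Opposite Abelian

namespace Pool.Agent.Work.MP_910138_ag

variable {X : Scheme.{0}} {M N : X.Modules} {U V W : X.Opens}

theorem gkempf_data (S : ShortComplex X.Modules) (hS : S.ShortExact) (V : X.Opens) :
    ∃ (C : X.Modules) (p : push S.X₂ V ⟶ C) (q : S.X₃ ⟶ C) (c : C ⟶ push S.X₃ V),
      Mono c ∧ p ≫ c = pushMap S.g V ∧ q ≫ c = toPush S.X₃ V ∧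
      ∀ (A : X.Modules) (n : ℕ) (β : Ext A S.X₃ n) (γ : Ext A (push S.X₂ V) n),
        γ.comp (Ext.mk₀ p) (add_zero _) = β.comp (Ext.mk₀ q) (add_zero _) →
        (β.comp hS.extClass (rfl : n + 1 = n + 1)).comp (Ext.mk₀ (toPush S.X₁ V))
          (add_zero _) = 0 := by
  have := hS.mono_f
  have := hS.epi_g
  have h0 : pushMap S.f V ≫ pushMap S.g V = 0 := by rw [pushMap_comp, S.zero, pushMap_zero]
  have h1 : S.f ≫ toPush S.X₂ V ≫ cokernel.π (pushMap S.f V) = 0 := by
    rw [← toPush_pushMap_assoc, cokernel.condition, comp_zero]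
  let T : ShortComplex X.Modules :=
    ShortComplex.mk (pushMap S.f V) (cokernel.π (pushMap S.f V)) (cokernel.condition _)
  have hT : T.ShortExact := { exact := ShortComplex.exact_cokernel _ }
  let φ : S ⟶ T :=
    { τ₁ := toPush S.X₁ V
      τ₂ := toPush S.X₂ V
      τ₃ := hS.exact.desc _ h1
      comm₁₂ := toPush_pushMap S.f V
      comm₂₃ := (hS.exact.g_desc _ h1).symm }
  refine ⟨cokernel (pushMap S.f V), cokernel.π _, hS.exact.desc _ h1,
    cokernel.desc _ (pushMap S.g V) h0, (push_exact S hS.exact V).mono_cokernelDesc,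
    cokernel.π_desc _ _ _, ?_, fun A n β γ h => ?_⟩
  · rw [← cancel_epi S.g, ← Category.assoc, hS.exact.g_desc, Category.assoc, cokernel.π_desc,
      toPush_pushMap]
  · have h2 : hS.extClass.comp (Ext.mk₀ (toPush S.X₁ V)) (add_zero 1) =
        (Ext.mk₀ (hS.exact.desc _ h1)).comp hT.extClass (zero_add 1) :=
      ShortComplex.ShortExact.extClass_naturality hS hT φ
    have h3 : (Ext.mk₀ (cokernel.π (pushMap S.f V))).comp hT.extClass (zero_add 1) = 0 :=
      hT.comp_extClass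
    rw [Ext.comp_assoc_of_third_deg_zero, h2, ← Ext.comp_assoc_of_second_deg_zero, ← h,
      Ext.comp_assoc_of_second_deg_zero, h3, Ext.comp_zero]

theorem kempf (𝔅 : Set X.Opens) (hinf : ∀ V ∈ 𝔅, ∀ W ∈ 𝔅, V ⊓ W ∈ 𝔅)
    (hb : ∀ W : X.Opens, W ≤ U → ∀ x ∈ W, ∃ V ∈ 𝔅, x ∈ V ∧ V ≤ W) (n : ℕ) (N : X.Modules)
    (hN : ∀ V ∈ 𝔅, ∀ i : ℕ, i < n → ∀ β : Ext (supp (OX X) V) N (i + 1), β = 0)
    (α : Ext (supp (OX X) U) N (n + 1)) (x : X) (hx : x ∈ U) :
    ∃ V ∈ 𝔅, x ∈ V ∧ V ≤ U ∧ α.comp (Ext.mk₀ (toPush N V)) (add_zero _) = 0 := by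
  induction n generalizing N with
  | zero =>
    let S : ShortComplex X.Modules :=
      ShortComplex.mk (Injective.ι N) (cokernel.π (Injective.ι N)) (cokernel.condition _)
    have hS : S.ShortExact := { exact := ShortComplex.exact_cokernel _ }
    have hI : Injective S.X₂ := inferInstanceAs (Injective (Injective.under N))
    obtain ⟨β, hβ⟩ := Ext.covariant_sequence_exact₁ (supp (OX X) U) hS α
      (Ext.eq_zero_of_injective _) (rfl : 0 + 1 = 0 + 1)
    obtain ⟨b, rfl⟩ := (Ext.mk₀_bijective _ _).2 β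
    obtain ⟨V₀, h₀, hx₀, t, ht⟩ :=
      (epi_iff S.g).1 hS.epi_g U (b.app U (suppSec (M := OX X) (1 : Γ(X, U)))) x hx
    obtain ⟨V, hV, hxV, hle⟩ := hb V₀ h₀ x hx₀
    obtain ⟨C, p, q, c, hc, hp, hq, H⟩ := gkempf_data S hS V
    obtain ⟨φ, hφ⟩ := ((isGen_one U).hom_bijective (push S.X₂ V)).2
      ((pushSec S.X₂ V U).symm (res S.X₂ (inf_le_right.trans hle) t))
    refine ⟨V, hV, hxV, hle.trans h₀, ?_⟩
    rw [← hβ]
    refine H _ 0 _ (Ext.mk₀ φ) ?_
    rw [Ext.mk₀_comp_mk₀, Ext.mk₀_comp_mk₀]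
    congr 1
    rw [← cancel_mono c, Category.assoc, Category.assoc, hp, hq]
    apply ((isGen_one U).hom_bijective (push S.X₃ V)).1
    apply (pushSec S.X₃ V U).injective
    simp only [comp_app_apply] at hφ ⊢
    rw [hφ, pushSec_pushMap, pushSec_toPush, AddEquiv.apply_symm_apply, app_res, ht, res_res]
  | succ n ih =>
    let S : ShortComplex X.Modules :=
      ShortComplex.mk (Injective.ι N) (cokernel.π (Injective.ι N)) (cokernel.condition _)
    have hS : S.ShortExact := { exact := ShortComplex.exact_cokernel _ }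
    have hI : Injective S.X₂ := inferInstanceAs (Injective (Injective.under N))
    obtain ⟨β, hβ⟩ := Ext.covariant_sequence_exact₁ (supp (OX X) U) hS α
      (Ext.eq_zero_of_injective _) (rfl : n + 1 + 1 = n + 1 + 1)
    obtain ⟨V, hV, hxV, hle, h0⟩ := ih S.X₃ (fun V hV i hi γ => by
      obtain ⟨δ, hδ⟩ := Ext.covariant_sequence_exact₃ (supp (OX X) V) hS γ
        (rfl : i + 1 + 1 = i + 1 + 1) (hN V hV (i + 1) (by omega) _)
      rw [← hδ, Ext.eq_zero_of_injective δ, Ext.zero_comp]) β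
    obtain ⟨C, p, q, c, hc, hp, hq, H⟩ := gkempf_data S hS V
    refine ⟨V, hV, hxV, hle, ?_⟩
    rw [← hβ]
    refine H _ (n + 1) β 0 ?_
    have hbij : ∀ W : X.Opens, W ≤ U → Function.Bijective (c.app W) := fun W hW =>
      bijective_of_mono_of_locally_surjective c (U := U) (fun W hW s y hy => by
        obtain ⟨V', hV', hy', hle'⟩ := hb W hW y hy
        obtain ⟨t, ht⟩ := surjective_of_ext_one S hS (U := V' ⊓ V)
          (hN _ (hinf _ hV' _ hV) 0 (by omega)) (pushSec S.X₃ V V' (res (push S.X₃ V) hle' s))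
        refine ⟨V', hle', hy', p.app V' ((pushSec S.X₂ V V').symm t), ?_⟩
        apply (pushSec S.X₃ V V').injective
        rw [← comp_app_apply, hp, pushSec_pushMap, AddEquiv.apply_symm_apply, ht]) hW
    apply (ext_bijective_of_iso_on (M := OX X) c hbij (n + 1)).1
    simp only [Ext.zero_comp]
    rw [Ext.comp_assoc_of_third_deg_zero, Ext.mk₀_comp_mk₀, hq, h0]

end Pool.Agent.Work.MP_910138_ag
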