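import Pool.Agent.Work.MP_910138_ag.GSupp
import Pool.Agent.Work.MP_910138_ag.GBase2

/-! Properties of `push`, and invariance of `Ext (supp M U) -` under isomorphisms over `U`. -/

open CategoryTheory Limits AlgebraicGeometry TopologicalSpace Opposite Abelian

namespace Pool.Agent.Work.MP_910138_ag

variable {X : Scheme.{0}} {M N : X.Modules} {U V W : X.Opens}

/-- a section over `W ≤ V` as a section of `supp M V` -/
noncomputable def gpush_lift (h : W ≤ V) (s : Γ(M, W)) : Γ(supp M V, W) :=
  (suppData M V).mkSec s (mem_suppData_of_le h s)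

theorem gpush_ι_lift (h : W ≤ V) (s : Γ(M, W)) : (suppι M V).app W (gpush_lift h s) = s := rfl

theorem gpush_ι_inj (V W : X.Opens) : Function.Injective ((suppι M V).app W) :=
  (suppData M V).ι_injective W

/-- the morphism adjoint to a morphism out of `supp M V` -/
noncomputable def gpush_adj (φ : supp M V ⟶ N) : M ⟶ push N V :=
  mkHom (fun W =>
    { toFun := fun s => (pushSec N V W).symm
        (φ.app (W ⊓ V) (gpush_lift inf_le_right (res M inf_le_left s)))
      map_add' := fun a b => by
        rw [← map_add, ← map_add]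
        congr 2
        apply gpush_ι_inj
        rw [map_add ((suppι M V).app (W ⊓ V)).hom, gpush_ι_lift, gpush_ι_lift, gpush_ι_lift,
          map_add]
      map_smul' := fun r s => by
        apply (pushSec N V W).injective
        rw [RingHom.id_apply, pushSec_smul, AddEquiv.apply_symm_apply, AddEquiv.apply_symm_apply,
          ← φ.app_smul]
        congr 1
        apply gpush_ι_inj
        rw [(suppι M V).app_smul, gpush_ι_lift, gpush_ι_lift, res_smul] })
    (fun U W h s => by
      apply (pushSec N V U).injective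
      rw [pushSec_res]
      change φ.app (U ⊓ V) (gpush_lift inf_le_right (res M inf_le_left (res M h s))) =
        res N _ (φ.app (W ⊓ V) (gpush_lift inf_le_right (res M inf_le_left s)))
      rw [← app_res]
      congr 1
      apply gpush_ι_inj
      rw [app_res, gpush_ι_lift, gpush_ι_lift, res_res, res_res])

theorem gpush_adj_app (φ : supp M V ⟶ N) (s : Γ(M, W)) :
    pushSec N V W ((gpush_adj φ).app W s) =
      φ.app (W ⊓ V) (gpush_lift inf_le_right (res M inf_le_left s)) := rfl

theorem gpush_exists_adj (ψ : M ⟶ push N V) : ∃ Φ : supp M V ⟶ N, ∀ (W : X.Opens) (s : Γ(M, W)),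
    Φ.app (W ⊓ V) (gpush_lift inf_le_right (res M inf_le_left s)) =
      pushSec N V W (ψ.app W s) := by
  obtain ⟨Φ, hΦ⟩ := exists_supp_hom (M := M) (N := N) (V := V) (fun W h =>
    { toFun := fun s => res N (le_inf le_rfl h) (pushSec N V W (ψ.app W s))
      map_add' := fun a b => by rw [map_add, map_add, map_add]
      map_smul' := fun r s => by
        rw [RingHom.id_apply, ψ.app_smul, pushSec_smul, res_smul, resO_resO, resO_self] })
    (fun W W' h h' s => by
      change res N _ (pushSec N V W (ψ.app W (res M h s))) =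
        res N h (res N _ (pushSec N V W' (ψ.app W' s)))
      rw [app_res, pushSec_res, res_res, res_res])
  refine ⟨Φ, fun W s => ?_⟩
  rw [hΦ _ inf_le_right, gpush_ι_lift]
  change res N _ (pushSec N V (W ⊓ V) (ψ.app (W ⊓ V) (res M inf_le_left s))) = _
  rw [app_res, pushSec_res, res_res, res_self]

theorem gpush_mono_suppMap (φ : M ⟶ N) [Mono φ] (V : X.Opens) : Mono (suppMap φ V) := by
  have h : Mono (suppMap φ V ≫ suppι N V) := by
    rw [suppMap_ι]
    exact mono_comp _ _
  exact mono_of_mono _ (suppι N V)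

theorem injective_push (I : X.Modules) [Injective I] (V : X.Opens) : Injective (push I V) := by
  refine ⟨fun {A B} g i hi => ?_⟩
  obtain ⟨Φ, hΦ⟩ := gpush_exists_adj g
  have := gpush_mono_suppMap i V
  refine ⟨gpush_adj (Injective.factorThru Φ (suppMap i V)), hom_ext' fun W s => ?_⟩
  apply (pushSec I V W).injective
  rw [comp_app_apply, gpush_adj_app, ← hΦ, ← Injective.comp_factorThru Φ (suppMap i V),
    comp_app_apply, Injective.comp_factorThru]
  congr 1
  apply gpush_ι_inj
  rw [← comp_app_apply, suppMap_ι, comp_app_apply, gpush_ι_lift, gpush_ι_lift, app_res]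

instance mono_pushMap (φ : M ⟶ N) [Mono φ] (V : X.Opens) : Mono (pushMap φ V) := by
  rw [mono_iff]
  intro W a b h
  apply (pushSec M V W).injective
  apply (mono_iff φ).1 inferInstance (W ⊓ V)
  rw [← pushSec_pushMap, ← pushSec_pushMap, h]

theorem push_exact (S : ShortComplex X.Modules) (hS : S.Exact) [Mono S.f] (V : X.Opens) :
    (ShortComplex.mk (pushMap S.f V) (pushMap S.g V)
      (by rw [pushMap_comp, S.zero, pushMap_zero])).Exact := by
  rw [exact_iff]
  intro W s hs x hx
  have h1 : S.g.app (W ⊓ V) (pushSec S.X₂ V W s) = 0 :=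
    (pushSec_pushMap S.g s).symm.trans ((congrArg (pushSec S.X₃ V W) hs).trans (map_zero _))
  obtain ⟨t, ht⟩ := exact_sections S hS (W ⊓ V) _ h1
  refine ⟨W, le_rfl, hx, (pushSec S.X₁ V W).symm t, ?_⟩
  rw [res_self]
  exact ht

/-- a monomorphism that is locally surjective on `U` is bijective on sections over `W ≤ U` -/
theorem bijective_of_mono_of_locally_surjective (φ : M ⟶ N) [Mono φ]
    (h : ∀ W : X.Opens, W ≤ U → ∀ (s : Γ(N, W)), ∀ x ∈ W,
      ∃ (V : X.Opens) (h : V ≤ W), x ∈ V ∧ ∃ t : Γ(M, V), φ.app V t = res N h s)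
    (hW : W ≤ U) : Function.Bijective (φ.app W) := by
  have hi := (mono_iff φ).1 inferInstance
  refine ⟨hi W, fun s => ?_⟩
  choose V hV hx t ht using h W hW s
  have hc : W ≤ iSup fun x : W => V x.1 x.2 := fun x hx' =>
    Opens.mem_iSup.2 ⟨⟨x, hx'⟩, hx x hx'⟩
  obtain ⟨a, ha⟩ := glue (M := M) (fun x : W => V x.1 x.2) (fun x => hV x.1 x.2) hc
    (fun x => t x.1 x.2) (fun x y => hi _ (by rw [app_res, app_res, ht, ht, res_res, res_res]))
  refine ⟨a, sep_cover (fun x : W => V x.1 x.2) (fun x => hV x.1 x.2) hc fun x => ?_⟩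
  rw [← app_res, ha, ht]

theorem gpush_zero_app (s : Γ(M, W)) : (0 : M ⟶ N).app W s = 0 := rfl

/-- the sections of the cokernel of a map that is surjective over `U` vanish over `U` -/
theorem gpush_coker (φ : M ⟶ N) (h : ∀ W : X.Opens, W ≤ U → Function.Surjective (φ.app W))
    (W : X.Opens) (hW : W ≤ U) (s : Γ(cokernel φ, W)) : s = 0 := by
  refine sep fun x hx => ?_
  obtain ⟨V, hV, hxV, t, ht⟩ := (epi_iff (cokernel.π φ)).1 inferInstance W s x hx
  obtain ⟨a, rfl⟩ := h V (hV.trans hW) t
  refine ⟨V, hV, hxV, ?_⟩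
  rw [← ht, ← comp_app_apply, cokernel.condition, gpush_zero_app, map_zero]

/-- the sections of the kernel of a map that is injective over `U` vanish over `U` -/
theorem gpush_ker (φ : M ⟶ N) (h : ∀ W : X.Opens, W ≤ U → Function.Injective (φ.app W))
    (W : X.Opens) (hW : W ≤ U) (s : Γ(kernel φ, W)) : s = 0 := by
  apply (mono_iff (kernel.ι φ)).1 inferInstance W
  apply h W hW
  rw [← comp_app_apply, kernel.condition, gpush_zero_app, map_zero, map_zero]

theorem gpush_injective_kernel (I : X.Modules) [Injective I] (U : X.Opens) :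
    Injective (kernel (toPush I U)) := by
  obtain ⟨Φ, hΦ⟩ := gpush_exists_adj (𝟙 (push I U))
  have h1 : Injective.factorThru Φ (suppι (push I U) U) ≫ toPush I U = 𝟙 _ := by
    refine hom_ext' fun W s => ?_
    apply (pushSec I U W).injective
    rw [comp_app_apply, pushSec_toPush, ← hΦ, ← app_res,
      ← Injective.comp_factorThru Φ (suppι (push I U) U), comp_app_apply,
      Injective.comp_factorThru, gpush_ι_lift]
  refine Retract.injective (Y := I) ⟨kernel.ι _, kernel.lift _
    (𝟙 I - toPush I U ≫ Injective.factorThru Φ (suppι (push I U) U)) ?_, ?_⟩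
  · rw [Preadditive.sub_comp, Category.assoc, h1, Category.id_comp, Category.comp_id, sub_self]
  · rw [← cancel_mono (kernel.ι (toPush I U)), Category.assoc, kernel.lift_ι, Preadditive.comp_sub,
      kernel.condition_assoc, zero_comp, sub_zero, Category.id_comp, Category.comp_id]

theorem gpush_se_mono (φ : M ⟶ N) [Mono φ] :
    (ShortComplex.mk φ (cokernel.π φ) (cokernel.condition φ)).ShortExact :=
  { exact := ShortComplex.exact_cokernel φ }

theorem gpush_se_epi (φ : M ⟶ N) [Epi φ] :
    (ShortComplex.mk (kernel.ι φ) φ (kernel.condition φ)).ShortExact :=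
  { exact := ShortComplex.exact_kernel φ }

theorem ext_zero_of_res_zero (T : X.Modules) (h : ∀ W : X.Opens, W ≤ U → ∀ s : Γ(T, W), s = 0)
    (n : ℕ) (α : Ext (supp M U) T n) : α = 0 := by
  induction n generalizing T with
  | zero =>
    obtain ⟨f, rfl⟩ := (Ext.mk₀_bijective _ _).2 α
    rw [supp_hom_ext (φ := f) (ψ := 0) fun W hW s => (h W hW _).trans (h W hW _).symm,
      Ext.mk₀_zero]
  | succ n ih =>
    have h0 : Injective.ι T ≫ toPush (Injective.under T) U = 0 := by
      refine hom_ext' fun W s => ?_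
      apply (pushSec _ U W).injective
      rw [comp_app_apply, pushSec_toPush, ← app_res, h _ inf_le_right (res T _ s), map_zero,
        gpush_zero_app, map_zero]
    have h1 : Mono (kernel.lift _ _ h0) := mono_of_mono_fac (kernel.lift_ι _ _ h0)
    have h2 := gpush_injective_kernel (Injective.under T) U
    have h3 : ∀ W : X.Opens, W ≤ U → ∀ s : Γ(kernel (toPush (Injective.under T) U), W), s = 0 := by
      refine gpush_ker _ fun W hW a b hab => ?_
      have h4 := congrArg (fun z => res (Injective.under T) (le_inf le_rfl hW)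
        (pushSec (Injective.under T) U W z)) hab
      simpa only [pushSec_toPush, res_res, res_self] using h4
    obtain ⟨β, rfl⟩ := Ext.covariant_sequence_exact₁ (supp M U)
      (gpush_se_mono (kernel.lift _ _ h0)) α
      (Ext.eq_zero_of_injective (I := kernel (toPush (Injective.under T) U)) _) rfl
    rw [ih _ (gpush_coker (kernel.lift _ _ h0) fun W hW t => ⟨0, (h3 W hW _).trans
      (h3 W hW _).symm⟩) β, Ext.zero_comp]

theorem gpush_bij_epi {A B : X.Modules} (φ : A ⟶ B) [Epi φ]
    (h : ∀ W : X.Opens, W ≤ U → Function.Injective (φ.app W)) (n : ℕ) :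
    Function.Bijective fun α : Ext (supp M U) A n => α.comp (Ext.mk₀ φ) (add_zero n) := by
  have h0 := ext_zero_of_res_zero (M := M) _ (gpush_ker φ h)
  refine ⟨(injective_iff_map_eq_zero ((Ext.mk₀ φ).postcomp (supp M U) (add_zero n))).2
    fun α hα => ?_, fun β => ?_⟩
  · obtain ⟨γ, rfl⟩ := Ext.covariant_sequence_exact₂ (supp M U) (gpush_se_epi φ) α hα
    rw [h0 n γ, Ext.zero_comp]
  · exact Ext.covariant_sequence_exact₃ (supp M U) (gpush_se_epi φ) β rfl (h0 _ _)

theorem gpush_bij_mono {A B : X.Modules} (φ : A ⟶ B) [Mono φ]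
    (h : ∀ W : X.Opens, W ≤ U → Function.Surjective (φ.app W)) (n : ℕ) :
    Function.Bijective fun α : Ext (supp M U) A n => α.comp (Ext.mk₀ φ) (add_zero n) := by
  have h0 := ext_zero_of_res_zero (M := M) _ (gpush_coker φ h)
  refine ⟨?_, fun β => Ext.covariant_sequence_exact₂ (supp M U) (gpush_se_mono φ) β (h0 _ _)⟩
  cases n with
  | zero => exact Ext.postcomp_mk₀_injective_of_mono (supp M U) φ
  | succ n =>
    refine (injective_iff_map_eq_zero ((Ext.mk₀ φ).postcomp (supp M U) (add_zero _))).2
      fun α hα => ?_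
    obtain ⟨γ, rfl⟩ := Ext.covariant_sequence_exact₁ (supp M U) (gpush_se_mono φ) α hα rfl
    rw [h0 n γ, Ext.zero_comp]

theorem ext_bijective_of_iso_on {A B : X.Modules} (φ : A ⟶ B)
    (h : ∀ W : X.Opens, W ≤ U → Function.Bijective (φ.app W)) (n : ℕ) :
    Function.Bijective fun α : Ext (supp M U) A n => α.comp (Ext.mk₀ φ) (add_zero n) := by
  have e : ∀ (W : X.Opens) (s : Γ(A, W)),
      (Limits.image.ι φ).app W ((Limits.factorThruImage φ).app W s) = φ.app W s := fun W s => by
    rw [← comp_app_apply, Limits.image.fac]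
  have h1 := gpush_bij_epi (M := M) (U := U) (Limits.factorThruImage φ)
    (fun W hW a b hab => (h W hW).1 (by rw [← e, ← e, hab])) n
  have h2 := gpush_bij_mono (M := M) (U := U) (Limits.image.ι φ)
    (fun W hW t => by
      obtain ⟨a, rfl⟩ := (h W hW).2 t
      exact ⟨_, e W a⟩) n
  have h3 := h2.comp h1
  convert h3 using 1
  funext α
  rw [Function.comp_apply, Ext.comp_assoc_of_second_deg_zero, Ext.mk₀_comp_mk₀, Limits.image.fac]

/-- lifting of sections from the vanishing of the first Ext group -/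
theorem surjective_of_ext_one (S : ShortComplex X.Modules) (hS : S.ShortExact)
    (h : ∀ α : Ext (supp (OX X) U) S.X₁ 1, α = 0) : Function.Surjective (S.g.app U) := by
  intro s
  obtain ⟨ψ, rfl⟩ := ((isGen_one U).hom_bijective S.X₃).2 s
  obtain ⟨γ, hγ⟩ := Ext.covariant_sequence_exact₃ _ hS (Ext.mk₀ ψ) (zero_add 1) (h _)
  obtain ⟨χ, rfl⟩ := (Ext.mk₀_bijective _ _).2 γ
  rw [Ext.mk₀_comp_mk₀] at hγ
  obtain rfl := (Ext.mk₀_bijective _ _).1 hγ
  exact ⟨_, (comp_app_apply χ S.g _).symm⟩

/-- vanishing of the image of the connecting map from the lifting of sections -/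
theorem comp_extClass_eq_zero (S : ShortComplex X.Modules) (hS : S.ShortExact)
    (h : Function.Surjective (S.g.app U)) (β : Ext (supp (OX X) U) S.X₃ 0) :
    β.comp hS.extClass (zero_add 1) = 0 := by
  obtain ⟨ψ, rfl⟩ := (Ext.mk₀_bijective _ _).2 β
  obtain ⟨t, ht⟩ := h (ψ.app U (suppSec (M := OX X) (1 : Γ(X, U))))
  obtain ⟨χ, rfl⟩ := ((isGen_one U).hom_bijective S.X₂).2 t
  obtain rfl : χ ≫ S.g = ψ := ((isGen_one U).hom_bijective S.X₃).1 ht
  rw [← Ext.mk₀_comp_mk₀_assoc, hS.comp_extClass, Ext.comp_zero]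

end Pool.Agent.Work.MP_910138_ag
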