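import Mathlib

/-! Sheaves of modules on a scheme form a Grothendieck abelian category. -/

open CategoryTheory Limits AlgebraicGeometry

namespace Pool.Agent.Work.MP_910138_ag

universe u

section
variable {C : Type u} [SmallCategory C] (R : Cᵒᵖ ⥤ RingCat.{u})

theorem presheaf_ab5 : AB5OfSize.{u, u} (PresheafOfModules.{u} R) where
  ofShape J _ _ := HasExactColimitsOfShape.domain_of_functor J (PresheafOfModules.toPresheaf R)

theorem presheaf_sep : HasSeparator (PresheafOfModules.{u} R) := by
  have h := PresheafOfModules.freeYoneda.isSeparating R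
  exact ⟨⟨_, h.isSeparator_coproduct⟩⟩

end

theorem modules_groth (X : Scheme.{u}) : IsGrothendieckAbelian.{u} X.Modules := by
  haveI := presheaf_ab5 X.ringCatSheaf.obj
  haveI := presheaf_sep X.ringCatSheaf.obj
  let adj := PresheafOfModules.sheafificationAdjunction.{u} (𝟙 X.ringCatSheaf.obj)
  haveI : AB5OfSize.{u, u} (SheafOfModules.{u} X.ringCatSheaf) :=
    { ofShape := fun J _ _ => adj.hasExactColimitsOfShape J }
  haveI : HasSeparator (SheafOfModules.{u} X.ringCatSheaf) := by
    refine ⟨⟨(PresheafOfModules.sheafification (𝟙 X.ringCatSheaf.obj)).obj (separator _), ?_⟩⟩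
    rw [isSeparator_def]
    intro M N f g h
    apply (SheafOfModules.forget _ ⋙ PresheafOfModules.restrictScalars (𝟙 X.ringCatSheaf.obj)).map_injective
    refine (isSeparator_separator (PresheafOfModules.{u} X.ringCatSheaf.obj)).def _ _ (fun k => ?_)
    obtain ⟨k, rfl⟩ := (adj.homEquiv _ _).surjective k
    rw [← adj.homEquiv_naturality_right, ← adj.homEquiv_naturality_right, h k]
  exact ({ } : IsGrothendieckAbelian.{u} (SheafOfModules.{u} X.ringCatSheaf))

instance modules_enoughInjectives (X : Scheme.{u}) : EnoughInjectives X.Modules :=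
  haveI := modules_groth X
  inferInstance

end Pool.Agent.Work.MP_910138_ag
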