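import Mathlib

/-! The nine-element poset `t < f1,f2 < e1,e2 < v1,v2 < T`, `t < x < T` (numbered
`t,f1,f2,e1,e2,v1,v2,x,T = 0,...,8`) and the complexes `Y_R, Y_k, Y_F` (numbered `0,1,2`). -/

namespace Pool.Agent.Work.MP_910138_ag

/-- the poset -/
def PP : Type := Fin 9

instance : Fintype PP := inferInstanceAs (Fintype (Fin 9))
instance : DecidableEq PP := inferInstanceAs (DecidableEq (Fin 9))

/-- levels (the value at `x` is not used) -/
def lev : Fin 9 → ℕ := ![0, 1, 1, 2, 2, 3, 3, 0, 4]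

/-- the order relation -/
def ppLe (a b : Fin 9) : Bool :=
  a = b || (if a = 7 then b = 8 else if b = 7 then a = 0 else lev a < lev b)

instance : PartialOrder PP where
  le a b := ppLe a b = true
  le_refl := by
    change ∀ a : Fin 9, ppLe a a = true
    decide
  le_trans := by
    change ∀ a b c : Fin 9, ppLe a b = true → ppLe b c = true → ppLe a c = true
    decide
  le_antisymm := by
    change ∀ a b : Fin 9, ppLe a b = true → ppLe b a = true → a = b
    decide

theorem pp_le_iff (a b : PP) : a ≤ b ↔ ppLe a b = true := Iff.rfl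

/-- the product poset -/
def QQ (P : Type) : Type := P × PP

instance (P : Type) [PartialOrder P] : PartialOrder (QQ P) := inferInstanceAs (PartialOrder (P × PP))
instance (P : Type) [Finite P] : Finite (QQ P) := inferInstanceAs (Finite (P × PP))

/-- a point of the product poset -/
def QQ.mk {P : Type} (u : P) (q : Fin 9) : QQ P := (u, q)

theorem QQ.mk_le_mk {P : Type} [PartialOrder P] {u v : P} {q q' : Fin 9} :
    QQ.mk u q ≤ QQ.mk v q' ↔ u ≤ v ∧ ppLe q q' = true := Iff.rfl

/-- degrees of the generators -/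
def dg : Fin 9 → ℤ := ![0, 1, 1, 2, 2, 3, 3, 1, 2]

/-- generators of `Y_R` (all), `Y_k` (the first seven), `Y_F` (the last two) -/
def gen (s : Fin 3) (q : Fin 9) : Bool := if s = 0 then true else if s = 1 then q < 7 else 7 ≤ q

/-- the differential of `Y_R` (source = row) -/
def dAll : Matrix (Fin 9) (Fin 9) (ZMod 2) :=
  !![0, 1, 1, 0, 0, 0, 0, 1, 0;
     0, 0, 0, 1, 1, 0, 0, 0, 1;
     0, 0, 0, 1, 1, 0, 0, 0, 0;
     0, 0, 0, 0, 0, 1, 1, 0, 0;
     0, 0, 0, 0, 0, 1, 1, 0, 0;
     0, 0, 0, 0, 0, 0, 0, 0, 0;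
     0, 0, 0, 0, 0, 0, 0, 0, 0;
     0, 0, 0, 0, 0, 0, 0, 0, 1;
     0, 0, 0, 0, 0, 0, 0, 0, 0]

/-- restriction of a matrix to the generators of `Y_s` and `Y_t` -/
def rs (s t : Fin 3) (M : Matrix (Fin 9) (Fin 9) (ZMod 2)) : Matrix (Fin 9) (Fin 9) (ZMod 2) :=
  Matrix.of fun q q' => if gen s q = true ∧ gen t q' = true then M q q' else 0

/-- the differential of `Y_s` -/
def dM (s : Fin 3) : Matrix (Fin 9) (Fin 9) (ZMod 2) := rs s s dAll

/-- the identity on common generators -/
def eM (s t : Fin 3) : Matrix (Fin 9) (Fin 9) (ZMod 2) := rs s t 1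

/-- the map `v_i ↦ T` -/
def aM (s t : Fin 3) : Matrix (Fin 9) (Fin 9) (ZMod 2) :=
  rs s t (Matrix.of fun q q' => if (q = 5 ∨ q = 6) ∧ q' = 8 then 1 else 0)

/-- matrices of maps `Y_s ⟶ Y_t` of degree `m` -/
def Supp (s t : Fin 3) (m : ℤ) (M : Matrix (Fin 9) (Fin 9) (ZMod 2)) : Prop :=
  ∀ q q', M q q' ≠ 0 → gen s q = true ∧ gen t q' = true ∧ ppLe q q' = true ∧ dg q' = dg q + m

/-- the differential of the Hom-complex -/
def dH (s t : Fin 3) (M : Matrix (Fin 9) (Fin 9) (ZMod 2)) : Matrix (Fin 9) (Fin 9) (ZMod 2) :=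
  dM s * M + M * dM t

/-- the type attached to a boolean label -/
def ty (b : Bool) : Fin 3 := if b = true then 0 else 1

end Pool.Agent.Work.MP_910138_ag
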